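import Mathlib

/-!
# An inequality for orthogonal functions
-/

set_option autoImplicit false

namespace DrumL

open MeasureTheory

/-- The integral of a product of two sums of functions which are pairwise orthogonal. -/
theorem int_sum_mul {μ : Measure ℂ} {ι : Type*} [Fintype ι] [DecidableEq ι] {f g : ι → ℂ → ℝ}
    (hi : ∀ i j, Integrable (fun x => f i x * g j x) μ) (h0 : ∀ i j, i ≠ j → ∫ x, f i x * g j x ∂μ = 0) :
    ∫ x, (∑ i, f i x) * (∑ i, g i x) ∂μ = ∑ i, ∫ x, f i x * g i x ∂μ := by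
  have h1 : ∀ x, (∑ i, f i x) * (∑ i, g i x) = ∑ i, ∑ j, f i x * g j x := by
    intro x
    rw [Finset.sum_mul_sum]
  simp_rw [h1]
  rw [integral_finsetSum _ (fun i _ => integrable_finsetSum _ (fun j _ => hi i j))]
  refine Finset.sum_congr rfl fun i _ => ?_
  rw [integral_finsetSum _ (fun j _ => hi i j)]
  refine Finset.sum_eq_single i ?_ ?_
  · intro j _ hj
    exact h0 i j (fun h => hj h.symm)
  · intro h
    exact absurd (Finset.mem_univ i) h

private theorem Alg_int_mul {μ : Measure ℂ} {f g : ℂ → ℝ} (hf : MemLp f 2 μ) (hg : MemLp g 2 μ) :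
    Integrable (fun x => f x * g x) μ := hf.integrable_mul hg

/-- The inequality. -/
theorem alg_int {μ : Measure ℂ} {m : ℕ} {W : Fin (m + 1) → ℝ} (hW : ∀ i, 0 ≤ W i) (hW0 : ∀ i, W i ≤ W 0)
    {b : ℂ → ℝ} {Y : Fin (m + 1) → ℂ → ℝ} (hb : MemLp b 2 μ) (hY : ∀ i, MemLp (Y i) 2 μ)
    (h0 : ∀ i j, i ≠ j → ∫ x, Y i x * Y j x ∂μ = 0) :
    0 ≤ W 0 * (∫ x, b x * b x ∂μ) + 2 * (∫ x, b x * ∑ i, W i * Y i x ∂μ) +
      ∫ x, (∑ i, Y i x) * ∑ i, W i * Y i x ∂μ := by
  rcases (hW 0).eq_or_lt with hz | hpos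
  · have hW' : ∀ i, W i = 0 := fun i => le_antisymm ((hW0 i).trans hz.symm.le) (hW i)
    simp [hW']
  · have hS : MemLp (fun x => ∑ i, W i * Y i x) 2 μ :=
      memLp_finsetSum _ (fun i _ => (hY i).const_mul (W i))
    have hYY : ∀ i j, Integrable (fun x => Y i x * Y j x) μ := fun i j => Alg_int_mul (hY i) (hY j)
    -- the mixed integral
    have e1 : ∫ x, (∑ i, Y i x) * ∑ i, W i * Y i x ∂μ = ∑ i, W i * ∫ x, Y i x * Y i x ∂μ := by
      have := int_sum_mul (μ := μ) (f := fun i x => Y i x) (g := fun i x => W i * Y i x)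
        (fun i j => Alg_int_mul (hY i) ((hY j).const_mul (W j))) (by
          intro i j hij
          have h : ∀ x, Y i x * (W j * Y j x) = W j * (Y i x * Y j x) := fun x => by ring
          simp_rw [h]
          rw [integral_const_mul, h0 i j hij, mul_zero])
      rw [this]
      refine Finset.sum_congr rfl fun i _ => ?_
      have h : ∀ x, Y i x * (W i * Y i x) = W i * (Y i x * Y i x) := fun x => by ring
      simp_rw [h]
      rw [integral_const_mul]
    have e2 : ∫ x, (∑ i, W i * Y i x) * ∑ i, W i * Y i x ∂μ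
        = ∑ i, W i * (W i * ∫ x, Y i x * Y i x ∂μ) := by
      have := int_sum_mul (μ := μ) (f := fun i x => W i * Y i x) (g := fun i x => W i * Y i x)
        (fun i j => Alg_int_mul ((hY i).const_mul (W i)) ((hY j).const_mul (W j))) (by
          intro i j hij
          have h : ∀ x, (W i * Y i x) * (W j * Y j x) = (W i * W j) * (Y i x * Y j x) :=
            fun x => by ring
          simp_rw [h]
          rw [integral_const_mul, h0 i j hij, mul_zero])
      rw [this]
      refine Finset.sum_congr rfl fun i _ => ?_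
      have h : ∀ x, (W i * Y i x) * (W i * Y i x) = (W i * W i) * (Y i x * Y i x) :=
        fun x => by ring
      simp_rw [h]
      rw [integral_const_mul, mul_assoc]
    -- the square
    have hsq : 0 ≤ ∫ x, (W 0 * b x + ∑ i, W i * Y i x) * (W 0 * b x + ∑ i, W i * Y i x) ∂μ :=
      integral_nonneg fun x => mul_self_nonneg _
    have hexp : ∫ x, (W 0 * b x + ∑ i, W i * Y i x) * (W 0 * b x + ∑ i, W i * Y i x) ∂μ
        = W 0 * W 0 * (∫ x, b x * b x ∂μ) + 2 * W 0 * (∫ x, b x * ∑ i, W i * Y i x ∂μ)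
          + ∫ x, (∑ i, W i * Y i x) * ∑ i, W i * Y i x ∂μ := by
      have h : ∀ x, (W 0 * b x + ∑ i, W i * Y i x) * (W 0 * b x + ∑ i, W i * Y i x)
          = (W 0 * W 0) * (b x * b x) + (2 * W 0) * (b x * ∑ i, W i * Y i x)
            + (∑ i, W i * Y i x) * ∑ i, W i * Y i x := fun x => by ring
      simp_rw [h]
      have i1 : Integrable (fun x => (W 0 * W 0) * (b x * b x)) μ :=
        (Alg_int_mul hb hb).const_mul _
      have i2 : Integrable (fun x => (2 * W 0) * (b x * ∑ i, W i * Y i x)) μ :=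
        (Alg_int_mul hb hS).const_mul _
      have i3 : Integrable (fun x => (∑ i, W i * Y i x) * ∑ i, W i * Y i x) μ :=
        Alg_int_mul hS hS
      have i12 : Integrable (fun x => (W 0 * W 0) * (b x * b x)
          + (2 * W 0) * (b x * ∑ i, W i * Y i x)) μ := i1.add i2
      rw [integral_add i12 i3, integral_add i1 i2, integral_const_mul, integral_const_mul]
    have hle : ∑ i, W i * (W i * ∫ x, Y i x * Y i x ∂μ) ≤ W 0 * ∑ i, W i * ∫ x, Y i x * Y i x ∂μ := by
      rw [Finset.mul_sum]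
      refine Finset.sum_le_sum fun i _ => ?_
      have hn : 0 ≤ W i * ∫ x, Y i x * Y i x ∂μ :=
        mul_nonneg (hW i) (integral_nonneg fun x => mul_self_nonneg _)
      exact mul_le_mul_of_nonneg_right (hW0 i) hn
    rw [hexp, e2] at hsq
    rw [e1]
    have key : 0 ≤ W 0 * (W 0 * (∫ x, b x * b x ∂μ) + 2 * (∫ x, b x * ∑ i, W i * Y i x ∂μ) +
        ∑ i, W i * ∫ x, Y i x * Y i x ∂μ) := by
      nlinarith [hsq, hle]
    exact nonneg_of_mul_nonneg_right key hpos

end DrumL
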