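import Pool.Agent.Lib.MP_d92c84_anF.Par

/-!
# The quadratic form as a bilinear map on test functions
-/

set_option autoImplicit false
set_option linter.unusedSectionVars false

namespace DrumL

open MeasureTheory Set Filter Topology
open scoped ContDiff

/-- Test functions in `D` as a vector space. -/
def TS (D : Set ℂ) : Submodule ℝ (ℂ → ℝ) where
  carrier := {φ | Tst D φ}
  add_mem' h h' := h.add h'
  zero_mem' := ⟨contDiff_const, HasCompactSupport.zero, by simp [tsupport]⟩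
  smul_mem' a _ h := h.smul a

private theorem Neb_int {D : Set ℂ} (l : ℝ) {φ ψ : ℂ → ℝ} (h : Tst D φ) (h' : Tst D ψ) :
    Integrable fun x => (pd 1 φ x * pd 1 ψ x + pd Complex.I φ x * pd Complex.I ψ x - l * (φ x * ψ x)) := by
  have g1 := h.pd 1
  have g2 := h.pd Complex.I
  have g1' := h'.pd 1
  have g2' := h'.pd Complex.I
  refine Integrable.sub (Integrable.add ?_ ?_) (Integrable.const_mul ?_ _)
  · exact integrable_of_comp (g1.cont.mul g1'.cont) g1.comp.mul_right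
  · exact integrable_of_comp (g2.cont.mul g2'.cont) g2.comp.mul_right
  · exact integrable_of_comp (h.cont.mul h'.cont) h.comp.mul_right

private theorem Neb_comm (l : ℝ) (φ ψ : ℂ → ℝ) : Q l φ ψ = Q l ψ φ := by
  unfold Q
  congr 1
  ext x
  ring

private theorem Neb_add {D : Set ℂ} (l : ℝ) {φ φ' ψ : ℂ → ℝ} (h : Tst D φ) (h' : Tst D φ')
    (hψ : Tst D ψ) : Q l (φ + φ') ψ = Q l φ ψ + Q l φ' ψ := by
  unfold Q
  rw [← integral_add (Neb_int l h hψ) (Neb_int l h' hψ)]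
  congr 1
  ext x
  have e1 : ∀ v, pd v (φ + φ') x = pd v φ x + pd v φ' x := fun v =>
    pd_add (h.diff x) (h'.diff x) v
  rw [e1, e1, Pi.add_apply]
  ring

private theorem Neb_smul {D : Set ℂ} (l : ℝ) (a : ℝ) {φ ψ : ℂ → ℝ} (h : Tst D φ) :
    Q l (a • φ) ψ = a * Q l φ ψ := by
  unfold Q
  rw [← integral_const_mul]
  congr 1
  ext x
  have e1 : ∀ v, pd v (a • φ) x = a * pd v φ x := fun v => pd_const_mul (h.diff x) a v
  rw [e1, e1, Pi.smul_apply, smul_eq_mul]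
  ring

/-- The form `Q l` as a bilinear map on test functions. -/
theorem exists_bilin (l : ℝ) (D : Set ℂ) :
    ∃ B : TS D →ₗ[ℝ] TS D →ₗ[ℝ] ℝ, (∀ φ ψ : TS D, B φ ψ = Q l φ ψ) ∧ ∀ φ ψ, B φ ψ = B ψ φ := by
  refine ⟨LinearMap.mk₂ ℝ (fun φ ψ : TS D => Q l φ ψ) ?_ ?_ ?_ ?_, ?_, ?_⟩
  · intro φ φ' ψ
    exact Neb_add l φ.2 φ'.2 ψ.2
  · intro a φ ψ
    exact Neb_smul l a φ.2
  · intro φ ψ ψ'
    show Q l φ ((ψ : ℂ → ℝ) + (ψ' : ℂ → ℝ)) = _
    rw [Neb_comm l _ _, Neb_add l ψ.2 ψ'.2 φ.2, Neb_comm l (ψ : ℂ → ℝ) _,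
      Neb_comm l (ψ' : ℂ → ℝ) _]
  · intro a φ ψ
    show Q l φ (a • (ψ : ℂ → ℝ)) = _
    rw [Neb_comm l _ _, Neb_smul l a ψ.2, Neb_comm l (ψ : ℂ → ℝ) _]
    rfl
  · intro φ ψ
    rfl
  · intro φ ψ
    exact Neb_comm l φ ψ

end DrumL
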