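import Pool.Agent.Lib.MP_d92c84_anF.Hqo
import Pool.Agent.Lib.MP_d92c84_anF.Ne2
import Pool.Agent.Lib.MP_d92c84_anF.Neb

/-!
# Test functions on whose span the form is negative, from triples on whose span it is nonpositive
-/

set_option autoImplicit false

namespace DrumL

open MeasureTheory Set Filter Topology
open scoped ContDiff

/-- Linearly independent vectors in a hyperplane. -/
theorem exists_hyper {ι : Type*} [Fintype ι] (μ : ι → ℝ) {n : ℕ} (hn : n + 1 ≤ Fintype.card ι) :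
    ∃ t : Fin n → ι → ℝ, LinearIndependent ℝ t ∧ ∀ j, ∑ k, t j k * μ k = 0 := by
  classical
  let f : (ι → ℝ) →ₗ[ℝ] ℝ := ∑ k, (μ k) • LinearMap.proj k
  have hf : ∀ a : ι → ℝ, f a = ∑ k, a k * μ k := by
    intro a
    show (∑ k, (μ k) • (LinearMap.proj k : (ι → ℝ) →ₗ[ℝ] ℝ)) a = _
    rw [LinearMap.sum_apply]
    refine Finset.sum_congr rfl fun k _ => ?_
    rw [LinearMap.smul_apply, LinearMap.proj_apply, smul_eq_mul, mul_comm]
  have h1 := LinearMap.finrank_range_add_finrank_ker f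
  have h2 : Module.finrank ℝ (LinearMap.range f) ≤ 1 := by
    have h3 := Submodule.finrank_le (LinearMap.range f)
    rwa [Module.finrank_self] at h3
  rw [Module.finrank_fintype_fun_eq_card] at h1
  have h3 : n ≤ Module.finrank ℝ (LinearMap.ker f) := by omega
  refine ⟨fun j => (Module.finBasis ℝ (LinearMap.ker f) (Fin.castLE h3 j) : ι → ℝ), ?_, fun j => ?_⟩
  · have h4 := (Module.finBasis ℝ (LinearMap.ker f)).linearIndependent.comp (Fin.castLE h3)
      (Fin.castLE_injective h3)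
    exact h4.map' (LinearMap.ker f).subtype (Submodule.ker_subtype _)
  · rw [← hf]
    exact LinearMap.mem_ker.1 (Module.finBasis ℝ (LinearMap.ker f) (Fin.castLE h3 j)).2

private theorem Blw_lim {D : Set ℂ} {ι : Type*} [Fintype ι] (t : ι → ℝ) {u : ι → ℕ → ℂ → ℝ} {f : ι → ℂ → ℝ}
    (hu : ∀ k N, MemLp (u k N) 2 (volume.restrict D)) (hf : ∀ k, MemLp (f k) 2 (volume.restrict D))
    (h : ∀ k, Tendsto (fun N => ∫ x in D, (u k N x - f k x) ^ 2) atTop (𝓝 0)) :
    Tendsto (fun N => ∫ x in D, ((∑ k, t k * u k N x) - ∑ k, t k * f k x) ^ 2) atTop (𝓝 0) := by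
  have hi : ∀ k N, Integrable (fun x => (u k N x - f k x) ^ 2) (volume.restrict D) := fun k N =>
    ((hu k N).sub (hf k)).integrable_sq
  have hlim : Tendsto (fun N => (∑ k, t k ^ 2) * ∑ k, ∫ x in D, (u k N x - f k x) ^ 2) atTop (𝓝 0) := by
    have h1 : Tendsto (fun N => ∑ k, ∫ x in D, (u k N x - f k x) ^ 2) atTop (𝓝 0) := by
      have h2 := tendsto_finsetSum (Finset.univ : Finset ι) fun k _ => h k
      simpa using h2
    simpa using h1.const_mul (∑ k, t k ^ 2)
  refine squeeze_zero (fun N => integral_nonneg fun x => sq_nonneg _) (fun N => ?_) hlim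
  rw [← integral_finsetSum _ fun k _ => hi k N, ← integral_const_mul]
  refine integral_mono_of_nonneg (Eventually.of_forall fun x => sq_nonneg _)
    ((integrable_finsetSum _ fun k _ => hi k N).const_mul _) (Eventually.of_forall fun x => ?_)
  have h1 : (∑ k, t k * u k N x) - ∑ k, t k * f k x = ∑ k, t k * (u k N x - f k x) := by
    rw [← Finset.sum_sub_distrib]
    exact Finset.sum_congr rfl fun k _ => by ring
  show ((∑ k, t k * u k N x) - ∑ k, t k * f k x) ^ 2 ≤ (∑ k, t k ^ 2) * ∑ k, (u k N x - f k x) ^ 2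
  rw [h1]
  exact Finset.sum_mul_sq_le_sq_mul_sq _ _ _

private theorem Blw_mem {D : Set ℂ} {ι : Type*} [Fintype ι] (t : ι → ℝ) {f : ι → ℂ → ℝ}
    (hf : ∀ k, MemLp (f k) 2 (volume.restrict D)) : MemLp (fun x => ∑ k, t k * f k x) 2 (volume.restrict D) :=
  memLp_finsetSum _ fun k _ => (hf k).const_mul (t k)

private theorem Blw_pd {ι : Type*} [Fintype ι] (t : ι → ℝ) {f : ι → ℂ → ℝ} (hf : ∀ k, Differentiable ℝ (f k))
    (v : ℂ) (x : ℂ) : pd v (fun x => ∑ k, t k * f k x) x = ∑ k, t k * pd v (f k) x := by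
  unfold pd
  rw [fderiv_fun_sum fun k _ => ((hf k) x).const_mul (t k), ContinuousLinearMap.sum_apply]
  refine Finset.sum_congr rfl fun k _ => ?_
  rw [fderiv_const_mul ((hf k) x), ContinuousLinearMap.smul_apply, smul_eq_mul]

private theorem Blw_const {D : Set ℂ} {ψ : ℂ → ℝ} (h : Tst D ψ) : Hq D ψ (pd 1 ψ) (pd Complex.I ψ) := by
  refine ⟨h.memLp.1, h.memLp.2 _, h.memLp.2 _, fun _ => ψ, fun _ => h, ?_, ?_, ?_⟩ <;> simp

private theorem Blw_sub {D : Set ℂ} {ι : Type*} [Fintype ι] (a : ι → ℝ) (φ : ι → TS D) :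
    ((∑ i, a i • φ i : TS D) : ℂ → ℝ) = fun x => ∑ i, a i * (φ i : ℂ → ℝ) x := by
  rw [AddSubmonoidClass.coe_finsetSum]
  funext x
  rw [Finset.sum_apply]
  rfl

/-- If the form is nonpositive on the combinations of triples with coefficients in a hyperplane, and no nonzero such
combination is orthogonal for the form to all the test functions, then there are as many test functions as the dimension
of the hyperplane on whose span the form is negative. -/
theorem below_of_triples {L : ℝ} {D : Set ℂ} {ι : Type*} [Fintype ι]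
    {F G₁ G₂ : ι → ℂ → ℝ} (h : ∀ k, Hq D (F k) (G₁ k) (G₂ k)) (μ : ι → ℝ)
    (hM : ∀ a : ι → ℝ, ∑ k, a k * μ k = 0 →
      ∫ x in D, ((∑ k, a k * G₁ k x) * (∑ k, a k * G₁ k x) + (∑ k, a k * G₂ k x) * (∑ k, a k * G₂ k x) -
        L * ((∑ k, a k * F k x) * (∑ k, a k * F k x))) ≤ 0)
    (hN : ∀ a : ι → ℝ, ∑ k, a k * μ k = 0 →
      (∀ ψ : ℂ → ℝ, Tst D ψ → ∫ x in D, ((∑ k, a k * G₁ k x) * pd 1 ψ x + (∑ k, a k * G₂ k x) * pd Complex.I ψ x -
        L * ((∑ k, a k * F k x) * ψ x)) = 0) → a = 0)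
    {n : ℕ} (hn : n + 1 ≤ Fintype.card ι) : Below L D n := by
  classical
  obtain ⟨t, ht, htμ⟩ := exists_hyper μ hn
  choose φ hT h0 h1 h2 using fun k => (h k).seq
  obtain ⟨B, hB, hBs⟩ := exists_bilin L D
  -- the combinations of the approximations
  let cN : ℕ → (ι → ℝ) → TS D := fun N c => ∑ k, c k • (⟨φ k N, hT k N⟩ : TS D)
  have hcN : ∀ N c, ((cN N c : TS D) : ℂ → ℝ) = fun x => ∑ k, c k * φ k N x := fun N c =>
    Blw_sub c fun k => ⟨φ k N, hT k N⟩
  have hlin : ∀ N (a : Fin n → ℝ), cN N (fun k => ∑ i, a i * t i k) = ∑ i, a i • cN N (t i) := by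
    intro N a
    show ∑ k, (∑ i, a i * t i k) • (⟨φ k N, hT k N⟩ : TS D) =
      ∑ i, a i • ∑ k, t i k • (⟨φ k N, hT k N⟩ : TS D)
    simp only [Finset.smul_sum, Finset.sum_smul, smul_smul]
    exact Finset.sum_comm
  have hmu : ∀ k N, MemLp (φ k N) 2 (volume.restrict D) := fun k N => (hT k N).memLp.1
  have hmp : ∀ v k N, MemLp (pd v (φ k N)) 2 (volume.restrict D) := fun v k N => (hT k N).memLp.2 v
  have hpdc : ∀ v N c, pd v (cN N c : TS D) = fun x => ∑ k, c k * pd v (φ k N) x := by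
    intro v N c
    funext x
    rw [hcN]
    exact Blw_pd c (fun k => (hT k N).diff) v x
  have c0 : ∀ c : ι → ℝ, Tendsto (fun N => ∫ x in D, (((cN N c : TS D) : ℂ → ℝ) x - ∑ k, c k * F k x) ^ 2)
      atTop (𝓝 0) := by
    intro c
    simp only [hcN]
    exact Blw_lim c hmu (fun k => (h k).mem) h0
  have c1 : ∀ c : ι → ℝ, Tendsto (fun N => ∫ x in D, (pd 1 (cN N c : TS D) x - ∑ k, c k * G₁ k x) ^ 2)
      atTop (𝓝 0) := by
    intro c
    simp only [hpdc]
    exact Blw_lim c (hmp 1) (fun k => (h k).mem₁) h1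
  have c2 : ∀ c : ι → ℝ, Tendsto (fun N => ∫ x in D, (pd Complex.I (cN N c : TS D) x - ∑ k, c k * G₂ k x) ^ 2)
      atTop (𝓝 0) := by
    intro c
    simp only [hpdc]
    exact Blw_lim c (hmp Complex.I) (fun k => (h k).mem₂) h2
  have hHq : ∀ c : ι → ℝ, Hq D (fun x => ∑ k, c k * F k x) (fun x => ∑ k, c k * G₁ k x)
      (fun x => ∑ k, c k * G₂ k x) := fun c =>
    ⟨Blw_mem c fun k => (h k).mem, Blw_mem c fun k => (h k).mem₁, Blw_mem c fun k => (h k).mem₂,
      fun N => (cN N c : TS D), fun N => (cN N c).2, c0 c, c1 c, c2 c⟩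
  -- the limits
  obtain ⟨R, hR⟩ : ∃ R : (ι → ℝ) → (ι → ℝ) → ℝ, ∀ c c', R c c' =
      ∫ x in D, ((∑ k, c k * G₁ k x) * (∑ k, c' k * G₁ k x) + (∑ k, c k * G₂ k x) * (∑ k, c' k * G₂ k x) -
        L * ((∑ k, c k * F k x) * (∑ k, c' k * F k x))) := ⟨_, fun _ _ => rfl⟩
  have hRlim : ∀ c c', Tendsto (fun N => B (cN N c) (cN N c')) atTop (𝓝 (R c c')) := by
    intro c c'
    simp only [hB, hR]
    exact (hHq c).form (hHq c') (fun N => (cN N c).2) (fun N => (cN N c').2) (c0 c) (c1 c) (c2 c) (c0 c')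
      (c1 c') (c2 c') L
  obtain ⟨Lf, hLf⟩ : ∃ Lf : (ι → ℝ) → TS D → ℝ, ∀ c ψ, Lf c ψ =
      ∫ x in D, ((∑ k, c k * G₁ k x) * pd 1 (ψ : ℂ → ℝ) x + (∑ k, c k * G₂ k x) * pd Complex.I (ψ : ℂ → ℝ) x -
        L * ((∑ k, c k * F k x) * (ψ : ℂ → ℝ) x)) := ⟨_, fun _ _ => rfl⟩
  have hLlim : ∀ c (ψ : TS D), Tendsto (fun N => B (cN N c) ψ) atTop (𝓝 (Lf c ψ)) := by
    intro c ψ
    simp only [hB, hLf]
    refine (hHq c).form (Blw_const ψ.2) (fun N => (cN N c).2) (fun _ => ψ.2) (c0 c) (c1 c) (c2 c) ?_ ?_ ?_ L <;>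
      simp
  have hexp : ∀ N (a : Fin n → ℝ), B (∑ i, a i • cN N (t i)) (∑ i, a i • cN N (t i)) =
      ∑ i, ∑ j, a i * a j * B (cN N (t i)) (cN N (t j)) := by
    intro N a
    rw [map_sum B, LinearMap.sum_apply]
    refine Finset.sum_congr rfl fun i _ => ?_
    rw [map_smul, LinearMap.smul_apply, smul_eq_mul, map_sum, Finset.mul_sum]
    refine Finset.sum_congr rfl fun j _ => ?_
    rw [map_smul, smul_eq_mul]
    ring
  have hμ : ∀ a : Fin n → ℝ, ∑ k, (∑ i, a i * t i k) * μ k = 0 := by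
    intro a
    simp only [Finset.sum_mul]
    rw [Finset.sum_comm]
    refine Finset.sum_eq_zero fun i _ => ?_
    simp only [mul_assoc]
    rw [← Finset.mul_sum, htμ i, mul_zero]
  obtain ⟨ψ, hψ⟩ := neg_of_limits_gen B hBs (fun N i => cN N (t i))
    (fun i => linearMapOfTendsto (Lf (t i)) (fun N => B (cN N (t i))) (tendsto_pi_nhds.2 fun ψ => hLlim (t i) ψ))
    (fun i j => R (t i) (t j)) (fun i j => hRlim (t i) (t j))
    (by
      intro a
      have e1 : Tendsto (fun N => B (∑ i, a i • cN N (t i)) (∑ i, a i • cN N (t i))) atTop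
          (𝓝 (∑ i, ∑ j, a i * a j * R (t i) (t j))) := by
        simp only [hexp]
        exact tendsto_finsetSum _ fun i _ => tendsto_finsetSum _ fun j _ => (hRlim (t i) (t j)).const_mul _
      have e2 := hRlim (fun k => ∑ i, a i * t i k) (fun k => ∑ i, a i * t i k)
      simp only [hlin] at e2
      rw [tendsto_nhds_unique e1 e2, hR]
      exact hM _ (hμ a))
    (fun i ψ => hLlim (t i) ψ)
    (by
      intro a ha
      by_contra hcon
      push Not at hcon
      have e0 := hN (fun k => ∑ i, a i * t i k) (hμ a) (by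
        intro ψ hψ
        have e1 := hLlim (fun k => ∑ i, a i * t i k) ⟨ψ, hψ⟩
        have e2 : Tendsto (fun N => B (cN N fun k => ∑ i, a i * t i k) ⟨ψ, hψ⟩) atTop
            (𝓝 (∑ i, a i * Lf (t i) ⟨ψ, hψ⟩)) := by
          have e3 : ∀ N, B (cN N fun k => ∑ i, a i * t i k) ⟨ψ, hψ⟩ = ∑ i, a i * B (cN N (t i)) ⟨ψ, hψ⟩ := by
            intro N
            rw [hlin, map_sum B, LinearMap.sum_apply]
            refine Finset.sum_congr rfl fun i _ => ?_
            rw [map_smul, LinearMap.smul_apply, smul_eq_mul]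
          simp only [e3]
          exact tendsto_finsetSum _ fun i _ => (hLlim (t i) ⟨ψ, hψ⟩).const_mul _
        have e4 := tendsto_nhds_unique e1 e2
        have e5 : ∑ i, a i * Lf (t i) ⟨ψ, hψ⟩ = 0 := hcon ⟨ψ, hψ⟩
        rw [e5, hLf] at e4
        exact e4)
      apply ha
      have e6 : ∑ i, a i • t i = 0 := by
        rw [← e0]
        funext k
        rw [Finset.sum_apply]
        rfl
      funext i
      exact (Fintype.linearIndependent_iff.1 ht) a e6 i)
  refine ⟨fun i => (ψ i : ℂ → ℝ), fun i => (ψ i).2, fun a ha => ?_⟩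
  have e1 := hψ a ha
  rw [hB, Blw_sub] at e1
  exact e1

end DrumL
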