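import Pool.Agent.Lib.MP_d92c84_anF.Par

/-!
# Green's formula on an arbitrary bounded open set
-/

set_option autoImplicit false

namespace DrumL

open MeasureTheory Set Filter Topology
open scoped ContDiff

theorem Gre_pd_le {f : ℂ → ℝ} {x v : ℂ} {C : ℝ} (h : ‖fderiv ℝ f x‖ ≤ C) (hv : ‖v‖ = 1) :
    |pd v f x| ≤ C := by
  unfold pd
  have h1 := (fderiv ℝ f x).le_opNorm v
  rw [hv, mul_one, Real.norm_eq_abs] at h1
  exact h1.trans h

/-- GREEN. `ψ` continuous on the closure of the bounded open set `D`, zero on its boundary, `C¹` in `D` with bounded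
derivative; `(P, Qf)` a bounded `C¹` vector field in `D` with bounded divergence. Then
`∫_D ψ div(P, Qf) + ∇ψ·(P, Qf) = 0`. -/
theorem green {D : Set ℂ} (hD : IsOpen D) (hb : Bornology.IsBounded D) {ψ P Qf : ℂ → ℝ}
    (hψc : ContinuousOn ψ (closure D)) (hψ : ContDiffOn ℝ 1 ψ D) (hψ0 : ∀ x ∈ frontier D, ψ x = 0)
    (hP : ContDiffOn ℝ 1 P D) (hQ : ContDiffOn ℝ 1 Qf D) {C : ℝ} (hψb : ∀ x ∈ D, ‖fderiv ℝ ψ x‖ ≤ C)
    (hPb : ∀ x ∈ D, |P x| ≤ C) (hQb : ∀ x ∈ D, |Qf x| ≤ C) (hdiv : ∀ x ∈ D, |pd 1 P x + pd Complex.I Qf x| ≤ C) :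
    ∫ x in D, (ψ x * (pd 1 P x + pd Complex.I Qf x) + (pd 1 ψ x * P x + pd Complex.I ψ x * Qf x)) = 0 := by
  have hψd : DifferentiableOn ℝ ψ D := hψ.differentiableOn (by norm_num)
  set F : ℕ → ℂ → ℝ := fun N x => Se (eN N) (ψ x) * (pd 1 P x + pd Complex.I Qf x) +
    sg (ψ x / eN N) * (pd 1 ψ x * P x + pd Complex.I ψ x * Qf x) with hF
  have hcpd : ∀ {f : ℂ → ℝ} (v : ℂ), ContDiffOn ℝ 1 f D → ContinuousOn (pd v f) D := fun v hf =>
    (contDiffOn_pd hD (m := 0) hf (by norm_num) v).continuousOn
  have hint : ∀ {a b : ℂ → ℝ}, Continuous a → HasCompactSupport a → tsupport a ⊆ D → ContinuousOn b D →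
      Integrable fun x => a x * b x := by
    intro a b ha hac haD hb
    have h4 : ContDiff ℝ 0 fun x => a x * b x :=
      mul_contDiff hD (contDiff_zero.2 ha) haD (contDiffOn_zero.2 hb)
    exact h4.continuous.integrable_of_hasCompactSupport hac.mul_right
  -- the integrals of the approximations vanish
  have hzero : ∀ N, ∫ x in D, F N x = 0 := by
    intro N
    set T : ℂ → ℝ := indicator D fun x => Se (eN N) (ψ x) with hT
    have hθ0 : ∀ s, |s| ≤ eN N → Se (eN N) s = 0 := fun s hs => Se_zero (eN_pos N) hs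
    have hTc : ContDiff ℝ 1 T := trunc_contDiff hb hψc hψ0 hD (eN_pos N) hθ0
      ((contDiff_Se (eN N)).of_le (by exact_mod_cast le_top)) hψ
    obtain ⟨hTs, hTD⟩ := trunc_support hb hψc hψ0 hD (eN_pos N) hθ0
    have hTpd : ∀ v x, pd v T x = indicator D (fun x => sg (ψ x / eN N) * pd v ψ x) x := fun v x =>
      trunc_pd hb hψc hψ0 hD (eN_pos N) hθ0 (fun s => hasDerivAt_Se (eN_pos N) s) hψd v x
    have h1 : ∀ {f : ℂ → ℝ} (v : ℂ), ContDiffOn ℝ 1 f D →
        ∫ x in D, (T x * pd v f x + pd v T x * f x) = 0 := by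
      intro f v hf
      have h2 := integral_mul_pd_on hD hTc hTs hTD hf v
      rw [integral_add ((hint hTc.continuous hTs hTD (hcpd v hf)).integrableOn)
        ((hint (continuous_pd hTc v) (compact_pd hTs v) ((tsupport_pd v T).trans hTD)
          hf.continuousOn).integrableOn), h2, neg_add_cancel]
    have h2 := h1 1 hP
    have h3 := h1 Complex.I hQ
    have h4 : ∀ {f : ℂ → ℝ} (v : ℂ), ContDiffOn ℝ 1 f D →
        IntegrableOn (fun x => T x * pd v f x + pd v T x * f x) D := by
      intro f v hf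
      exact ((hint hTc.continuous hTs hTD (hcpd v hf)).integrableOn).add
        ((hint (continuous_pd hTc v) (compact_pd hTs v) ((tsupport_pd v T).trans hTD)
          hf.continuousOn).integrableOn)
    have h5 : ∫ x in D, F N x = ∫ x in D, ((T x * pd 1 P x + pd 1 T x * P x) +
        (T x * pd Complex.I Qf x + pd Complex.I T x * Qf x)) := by
      refine setIntegral_congr_fun hD.measurableSet fun x hx => ?_
      show Se (eN N) (ψ x) * (pd 1 P x + pd Complex.I Qf x) +
        sg (ψ x / eN N) * (pd 1 ψ x * P x + pd Complex.I ψ x * Qf x) = _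
      have hTx : T x = Se (eN N) (ψ x) := indicator_of_mem hx _
      rw [hTpd 1 x, hTpd Complex.I x, indicator_of_mem hx, indicator_of_mem hx, hTx]
      ring
    rw [h5, integral_add (h4 1 hP) (h4 Complex.I hQ), h2, h3, add_zero]
  -- bounds
  obtain ⟨M, hM⟩ := hb.isCompact_closure.exists_bound_of_continuousOn hψc
  have hM' : ∀ x ∈ D, |ψ x| ≤ M := fun x hx => hM x (subset_closure hx)
  have hfin : volume D < ⊤ := hb.measure_lt_top
  have hfm : IsFiniteMeasure (volume.restrict D) := ⟨by rwa [Measure.restrict_apply_univ]⟩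
  have hlim : Tendsto (fun N => ∫ x in D, F N x) atTop (𝓝 (∫ x in D,
      (ψ x * (pd 1 P x + pd Complex.I Qf x) + (pd 1 ψ x * P x + pd Complex.I ψ x * Qf x)))) := by
    refine tendsto_integral_of_dominated_convergence (fun _ => M * C + 1 * (C * C + C * C)) ?_
      (integrable_const _) ?_ ?_
    · intro N
      have hc : ContinuousOn (F N) D := by
        have hψ' : ContinuousOn ψ D := hψ.continuousOn
        refine ContinuousOn.add (ContinuousOn.mul ?_ ((hcpd 1 hP).add (hcpd Complex.I hQ)))
          (ContinuousOn.mul ?_ (((hcpd 1 hψ).mul hP.continuousOn).add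
            ((hcpd Complex.I hψ).mul hQ.continuousOn)))
        · exact (contDiff_Se (eN N)).continuous.comp_continuousOn hψ'
        · exact continuous_sg.comp_continuousOn (hψ'.div_const _)
      exact hc.aestronglyMeasurable hD.measurableSet
    · intro N
      rw [ae_restrict_iff' hD.measurableSet]
      refine Eventually.of_forall fun x hx => ?_
      have hC : 0 ≤ C := (norm_nonneg _).trans (hψb x hx)
      have h1 : |Se (eN N) (ψ x)| ≤ M := (abs_Se_le (eN_pos N) _).trans (hM' x hx)
      have h2 : |sg (ψ x / eN N)| ≤ 1 := by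
        rw [abs_of_nonneg (sg_nonneg _)]
        exact sg_le_one _
      have h3 : |pd 1 ψ x * P x| ≤ C * C := by
        rw [abs_mul]
        exact mul_le_mul (Gre_pd_le (hψb x hx) norm_one) (hPb x hx) (abs_nonneg _) hC
      have h4 : |pd Complex.I ψ x * Qf x| ≤ C * C := by
        rw [abs_mul]
        exact mul_le_mul (Gre_pd_le (hψb x hx) Complex.norm_I) (hQb x hx) (abs_nonneg _) hC
      have hM0 : 0 ≤ M := (abs_nonneg _).trans h1
      rw [Real.norm_eq_abs]
      refine (abs_add_le _ _).trans (add_le_add ?_ ?_)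
      · rw [abs_mul]
        exact mul_le_mul h1 (hdiv x hx) (abs_nonneg _) hM0
      · rw [abs_mul]
        exact mul_le_mul h2 ((abs_add_le _ _).trans (add_le_add h3 h4)) (abs_nonneg _) zero_le_one
    · filter_upwards [ae_crit hD hψd] with x hx
      have h1 := (tendsto_Se (ψ x)).mul_const (pd 1 P x + pd Complex.I Qf x)
      refine h1.add ?_
      by_cases h0 : ψ x = 0
      · have h2 := hx h0
        have h3 : ∀ v, pd v ψ x = 0 := fun v => by
          unfold pd
          rw [h2]
          rfl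
        simp only [h3, zero_mul, add_zero, mul_zero]
        exact tendsto_const_nhds
      · have h2 := (tendsto_sg h0).mul_const (pd 1 ψ x * P x + pd Complex.I ψ x * Qf x)
        rwa [one_mul] at h2
  simp only [hzero] at hlim
  exact (tendsto_nhds_unique hlim tendsto_const_nhds)

/-- Green's formula against a `C¹` function on the plane. -/
theorem green_test {D : Set ℂ} (hD : IsOpen D) (hb : Bornology.IsBounded D) {ψ φ : ℂ → ℝ}
    (hψc : ContinuousOn ψ (closure D)) (hψ : ContDiffOn ℝ 1 ψ D) (hψ0 : ∀ x ∈ frontier D, ψ x = 0) {C : ℝ}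
    (hψb : ∀ x ∈ D, ‖fderiv ℝ ψ x‖ ≤ C) (hφ : ContDiff ℝ 1 φ) :
    (∫ x in D, ψ x * pd 1 φ x = -∫ x in D, pd 1 ψ x * φ x) ∧
      (∫ x in D, ψ x * pd Complex.I φ x = -∫ x in D, pd Complex.I ψ x * φ x) := by
  obtain ⟨A, hA⟩ := hb.isCompact_closure.exists_bound_of_continuousOn hφ.continuous.continuousOn
  obtain ⟨B, hB⟩ := hb.isCompact_closure.exists_bound_of_continuousOn
    (continuous_pd hφ 1).continuousOn
  obtain ⟨B', hB'⟩ := hb.isCompact_closure.exists_bound_of_continuousOn
    (continuous_pd hφ Complex.I).continuousOn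
  have hz : ∀ v x, pd v (fun _ : ℂ => (0 : ℝ)) x = 0 := by
    intro v x
    unfold pd
    simp
  set K : ℝ := max C (max A (max B B')) with hK
  have hKC : C ≤ K := le_max_left _ _
  have hKA : A ≤ K := (le_max_left _ _).trans (le_max_right _ _)
  have hKB : B ≤ K := ((le_max_left _ _).trans (le_max_right _ _)).trans (le_max_right _ _)
  have hKB' : B' ≤ K := ((le_max_right _ _).trans (le_max_right _ _)).trans (le_max_right _ _)
  have hfin : volume D < ⊤ := hb.measure_lt_top
  have hfm : IsFiniteMeasure (volume.restrict D) := ⟨by rwa [Measure.restrict_apply_univ]⟩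
  have hcpd : ∀ {f : ℂ → ℝ} (v : ℂ), ContDiffOn ℝ 1 f D → ContinuousOn (pd v f) D := fun v hf =>
    (contDiffOn_pd hD (m := 0) hf (by norm_num) v).continuousOn
  have hi1 : ∀ v : ℂ, IntegrableOn (fun x => ψ x * pd v φ x) D := fun v =>
    intOn hb (hψc.mul (continuous_pd hφ v).continuousOn)
  have hi2 : ∀ v : ℂ, ‖v‖ = 1 → IntegrableOn (fun x => pd v ψ x * φ x) D := by
    intro v hv
    refine Integrable.of_bound (((hcpd v hψ).mul hφ.continuous.continuousOn).aestronglyMeasurable
      hD.measurableSet) (C * A) ?_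
    rw [ae_restrict_iff' hD.measurableSet]
    refine Eventually.of_forall fun x hx => ?_
    have hC : 0 ≤ C := (norm_nonneg _).trans (hψb x hx)
    rw [norm_mul, Real.norm_eq_abs]
    exact mul_le_mul (Gre_pd_le (hψb x hx) hv) (hA x (subset_closure hx)) (norm_nonneg _) hC
  constructor
  · have h1 := green hD hb hψc hψ hψ0 (P := φ) (Qf := fun _ => 0) hφ.contDiffOn contDiffOn_const
      (C := K) (fun x hx => (hψb x hx).trans hKC)
      (fun x hx => (hA x (subset_closure hx)).trans hKA)
      (fun x hx => by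
        rw [abs_zero]
        exact ((norm_nonneg _).trans (hψb x hx)).trans hKC)
      (fun x hx => by
        rw [hz, add_zero]
        exact (hB x (subset_closure hx)).trans hKB)
    simp only [hz, add_zero, mul_zero] at h1
    rw [integral_add (hi1 1) (hi2 1 norm_one)] at h1
    linarith
  · have h1 := green hD hb hψc hψ hψ0 (P := fun _ => 0) (Qf := φ) contDiffOn_const hφ.contDiffOn
      (C := K) (fun x hx => (hψb x hx).trans hKC)
      (fun x hx => by
        rw [abs_zero]
        exact ((norm_nonneg _).trans (hψb x hx)).trans hKC)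
      (fun x hx => (hA x (subset_closure hx)).trans hKA)
      (fun x hx => by
        rw [hz, zero_add]
        exact (hB' x (subset_closure hx)).trans hKB')
    simp only [hz, zero_add, mul_zero] at h1
    rw [integral_add (hi1 Complex.I) (hi2 Complex.I Complex.norm_I)] at h1
    linarith

end DrumL
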