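import Pool.Agent.Lib.MP_d92c84_anF.Hqd
import Pool.Agent.Lib.MP_d92c84_anF.Gre

/-!
# Green's formula for a piece
-/

set_option autoImplicit false

namespace DrumL

open MeasureTheory Set Filter Topology
open scoped ContDiff

private theorem Gpr_bd {D K : Set ℂ} (hD : IsOpen D) (hK : IsCompact K) (hKD : K ⊆ D) {h : ℂ → ℝ}
    (hh : ContDiffOn ℝ 1 h D) : ∃ C : ℝ, 0 ≤ C ∧ ∀ x ∈ K, |h x| ≤ C ∧ ‖fderiv ℝ h x‖ ≤ C := by
  obtain ⟨A, hA⟩ := hK.exists_bound_of_continuousOn (hh.continuousOn.mono hKD)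
  have hc : ContinuousOn (fderiv ℝ h) D := hh.continuousOn_fderiv_of_isOpen hD le_rfl
  obtain ⟨B, hB⟩ := hK.exists_bound_of_continuousOn (hc.mono hKD)
  refine ⟨max 0 (max A B), le_max_left _ _, fun x hx => ⟨?_, ?_⟩⟩
  · have h1 := hA x hx
    rw [Real.norm_eq_abs] at h1
    exact h1.trans ((le_max_left _ _).trans (le_max_right _ _))
  · exact (hB x hx).trans ((le_max_right _ _).trans (le_max_right _ _))

private theorem Gpr_pd {f : ℂ → ℝ} {x v : ℂ} (hv : ‖v‖ = 1) : |pd v f x| ≤ ‖fderiv ℝ f x‖ := by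
  unfold pd
  have h := (fderiv ℝ f x).le_opNorm v
  rw [hv, mul_one, Real.norm_eq_abs] at h
  exact h

/-- Green's formula for a piece and a smooth function. -/
theorem Pz.green {D A : Set ℂ} (hD : IsOpen D) (hb : Bornology.IsBounded D) {f g : ℂ → ℝ} (h : Pz D A f)
    (hg : ContDiffOn ℝ ∞ g D) (L : ℝ) :
    ∫ x in A, (pd 1 f x * pd 1 g x + pd Complex.I f x * pd Complex.I g x - L * (f x * g x)) =
      -∫ x in A, f x * (lap g x + L * g x) := by
  have hbA : Bornology.IsBounded A := hb.subset (subset_closure.trans h.sub)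
  have hAD : A ⊆ D := subset_closure.trans h.sub
  have hf1 : ContDiffOn ℝ 1 f D := h.smooth.of_le (by exact_mod_cast le_top)
  have hg1 : ContDiffOn ℝ 1 g D := hg.of_le (by exact_mod_cast le_top)
  have hg2 : ContDiffOn ℝ 2 g D := hg.of_le (by
    have h0 : ((2 : ℕ∞) : WithTop ℕ∞) ≤ ((⊤ : ℕ∞) : WithTop ℕ∞) := by exact_mod_cast (le_top : (2 : ℕ∞) ≤ ⊤)
    exact h0)
  have hfc : ContinuousOn f (closure A) := hf1.continuousOn.mono h.sub
  have hgc : ContinuousOn g (closure A) := hg1.continuousOn.mono h.sub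
  have hp1 : ContDiffOn ℝ 1 (pd 1 g) D := contDiffOn_pd hD (m := 1) hg2 (by norm_num) 1
  have hpI : ContDiffOn ℝ 1 (pd Complex.I g) D := contDiffOn_pd hD (m := 1) hg2 (by norm_num) Complex.I
  obtain ⟨C1, hC1, hb1⟩ := Gpr_bd hD hbA.isCompact_closure h.sub hf1
  obtain ⟨C3, hC3, hb3⟩ := Gpr_bd hD hbA.isCompact_closure h.sub hp1
  obtain ⟨C4, hC4, hb4⟩ := Gpr_bd hD hbA.isCompact_closure h.sub hpI
  have hn1 : ‖(1 : ℂ)‖ = 1 := norm_one
  have hnI : ‖Complex.I‖ = 1 := Complex.norm_I
  have hcf : ∀ v, ContinuousOn (pd v f) (closure A) := fun v =>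
    (contDiffOn_pd hD (m := 0) hf1 (by norm_num) v).continuousOn.mono h.sub
  have hcg : ∀ v, ContinuousOn (pd v g) (closure A) := fun v =>
    (contDiffOn_pd hD (m := 0) hg1 (by norm_num) v).continuousOn.mono h.sub
  have hG := DrumL.green (ψ := f) (P := pd 1 g) (Qf := pd Complex.I g) (C := C1 + C3 + C4) h.isOpen hbA hfc
    (hf1.mono hAD) h.zero (hp1.mono hAD) (hpI.mono hAD)
    (fun x hx => by linarith [(hb1 x (subset_closure hx)).2])
    (fun x hx => by linarith [(hb3 x (subset_closure hx)).1])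
    (fun x hx => by linarith [(hb4 x (subset_closure hx)).1])
    (fun x hx => by
      have h1 := Gpr_pd (f := pd 1 g) (x := x) hn1
      have h2 := Gpr_pd (f := pd Complex.I g) (x := x) hnI
      have h3 := abs_add_le (pd 1 (pd 1 g) x) (pd Complex.I (pd Complex.I g) x)
      linarith [(hb3 x (subset_closure hx)).2, (hb4 x (subset_closure hx)).2])
  have hcl : ContinuousOn (lap g) (closure A) := by
    have e1 : ContinuousOn (pd 1 (pd 1 g)) D := (contDiffOn_pd hD (m := 0) hp1 (by norm_num) 1).continuousOn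
    have e2 : ContinuousOn (pd Complex.I (pd Complex.I g)) D :=
      (contDiffOn_pd hD (m := 0) hpI (by norm_num) Complex.I).continuousOn
    unfold lap
    exact (e1.add e2).mono h.sub
  have i1 : IntegrableOn (fun x => f x * lap g x) A := intOn hbA (hfc.mul hcl)
  have i2 : IntegrableOn (fun x => pd 1 f x * pd 1 g x + pd Complex.I f x * pd Complex.I g x) A :=
    intOn hbA (((hcf 1).mul (hcg 1)).add ((hcf Complex.I).mul (hcg Complex.I)))
  have i3 : IntegrableOn (fun x => L * (f x * g x)) A := intOn hbA (continuousOn_const.mul (hfc.mul hgc))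
  have h4 : ∫ x in A, (f x * lap g x + (pd 1 f x * pd 1 g x + pd Complex.I f x * pd Complex.I g x)) = 0 := hG
  rw [integral_add i1 i2] at h4
  rw [integral_sub i2 i3]
  have h5 : ∫ x in A, f x * (lap g x + L * g x) = (∫ x in A, f x * lap g x) + ∫ x in A, L * (f x * g x) := by
    rw [← integral_add i1 i3]
    exact integral_congr_ae (Eventually.of_forall fun x => by simp only []; ring)
  rw [h5]
  linarith

end DrumL
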