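import Pool.Agent.Lib.MP_d92c84_anF.Hqo

/-!
# A closed subspace is the orthogonal complement of its orthogonal complement
-/

set_option autoImplicit false

namespace DrumL

open MeasureTheory Set Filter Topology
open scoped ContDiff

private theorem Hqw_inner {μ : Measure ℂ} {u v : ℂ → ℝ} (p q : Lp ℝ 2 μ) (hu : p =ᵐ[μ] u) (hv : q =ᵐ[μ] v) :
    inner ℝ p q = ∫ x, u x * v x ∂μ := by
  rw [L2.inner_def]
  refine integral_congr_ae ?_
  filter_upwards [hu, hv] with x h1 h2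
  rw [h1, h2]
  simp [mul_comm]

private theorem Hqw_norm {μ : Measure ℂ} {u v : ℂ → ℝ} (p q : Lp ℝ 2 μ) (hu : p =ᵐ[μ] u) (hv : q =ᵐ[μ] v) :
    ∫ x, (u x - v x) ^ 2 ∂μ = ‖p - q‖ ^ 2 := by
  have h0 : (p - q : Lp ℝ 2 μ) =ᵐ[μ] fun x => u x - v x := by
    filter_upwards [Lp.coeFn_sub p q, hu, hv] with x h1 h2 h3
    rw [h1, Pi.sub_apply, h2, h3]
  rw [← real_inner_self_eq_norm_sq, Hqw_inner _ _ h0 h0]
  refine integral_congr_ae (Eventually.of_forall fun x => ?_)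
  ring

/-- The product of three copies of `L²`. -/
private abbrev Hqw_E (μ : Measure ℂ) : Type := PiLp 2 (fun _ : Fin 3 => Lp ℝ 2 μ)

/-- The element `y` is given by the triple `f, g₁, g₂`. -/
private def Hqw_is (μ : Measure ℂ) (y : Hqw_E μ) (f g₁ g₂ : ℂ → ℝ) : Prop :=
  y 0 =ᵐ[μ] f ∧ y 1 =ᵐ[μ] g₁ ∧ y 2 =ᵐ[μ] g₂

private theorem Hqw_inner3 {μ : Measure ℂ} {f g₁ g₂ a b c : ℂ → ℝ} (hf : MemLp f 2 μ) (h₁ : MemLp g₁ 2 μ)
    (h₂ : MemLp g₂ 2 μ) (ha : MemLp a 2 μ) (hb : MemLp b 2 μ) (hc : MemLp c 2 μ) {y z : Hqw_E μ}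
    (hy : Hqw_is μ y a b c) (hz : Hqw_is μ z f g₁ g₂) :
    inner ℝ y z = ∫ x, (a x * f x + b x * g₁ x + c x * g₂ x) ∂μ := by
  have i1 : Integrable (fun x => a x * f x) μ := ha.integrable_mul hf
  have i2 : Integrable (fun x => b x * g₁ x) μ := hb.integrable_mul h₁
  have i3 : Integrable (fun x => c x * g₂ x) μ := hc.integrable_mul h₂
  have i12 : Integrable (fun x => a x * f x + b x * g₁ x) μ := i1.add i2
  rw [integral_add i12 i3, integral_add i1 i2, PiLp.inner_apply, Fin.sum_univ_three,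
    Hqw_inner _ _ hy.1 hz.1, Hqw_inner _ _ hy.2.1 hz.2.1, Hqw_inner _ _ hy.2.2 hz.2.2]

private theorem Hqw_add {μ : Measure ℂ} {f g₁ g₂ a b c : ℂ → ℝ} {y z : Hqw_E μ} (hy : Hqw_is μ y a b c)
    (hz : Hqw_is μ z f g₁ g₂) :
    Hqw_is μ (y + z) (fun x => a x + f x) (fun x => b x + g₁ x) fun x => c x + g₂ x := by
  refine ⟨?_, ?_, ?_⟩
  · filter_upwards [Lp.coeFn_add (y 0) (z 0), hy.1, hz.1] with x h1 h2 h3
    rw [PiLp.add_apply, h1, Pi.add_apply, h2, h3]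
  · filter_upwards [Lp.coeFn_add (y 1) (z 1), hy.2.1, hz.2.1] with x h1 h2 h3
    rw [PiLp.add_apply, h1, Pi.add_apply, h2, h3]
  · filter_upwards [Lp.coeFn_add (y 2) (z 2), hy.2.2, hz.2.2] with x h1 h2 h3
    rw [PiLp.add_apply, h1, Pi.add_apply, h2, h3]

private theorem Hqw_smul {μ : Measure ℂ} {a b c : ℂ → ℝ} {y : Hqw_E μ} (r : ℝ) (hy : Hqw_is μ y a b c) :
    Hqw_is μ (r • y) (fun x => r * a x) (fun x => r * b x) fun x => r * c x := by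
  refine ⟨?_, ?_, ?_⟩
  · filter_upwards [Lp.coeFn_smul r (y 0), hy.1] with x h1 h2
    rw [PiLp.smul_apply, h1, Pi.smul_apply, h2, smul_eq_mul]
  · filter_upwards [Lp.coeFn_smul r (y 1), hy.2.1] with x h1 h2
    rw [PiLp.smul_apply, h1, Pi.smul_apply, h2, smul_eq_mul]
  · filter_upwards [Lp.coeFn_smul r (y 2), hy.2.2] with x h1 h2
    rw [PiLp.smul_apply, h1, Pi.smul_apply, h2, smul_eq_mul]

private theorem Hqw_zero (μ : Measure ℂ) : Hqw_is μ 0 (fun _ => 0) (fun _ => 0) fun _ => 0 :=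
  ⟨Lp.coeFn_zero ℝ 2 μ, Lp.coeFn_zero ℝ 2 μ, Lp.coeFn_zero ℝ 2 μ⟩

private theorem Hqw_congr {μ : Measure ℂ} {f g₁ g₂ a b c : ℂ → ℝ} {y : Hqw_E μ} (hy : Hqw_is μ y a b c)
    (h0 : ∀ x, a x = f x) (h1 : ∀ x, b x = g₁ x) (h2 : ∀ x, c x = g₂ x) : Hqw_is μ y f g₁ g₂ := by
  obtain rfl : a = f := funext h0
  obtain rfl : b = g₁ := funext h1
  obtain rfl : c = g₂ := funext h2
  exact hy

/-- The test functions with their gradients, as a subspace. -/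
private def Hqw_K (D : Set ℂ) : Submodule ℝ (Hqw_E (volume.restrict D)) where
  carrier := {y | ∃ φ, Tst D φ ∧ Hqw_is (volume.restrict D) y φ (pd 1 φ) (pd Complex.I φ)}
  zero_mem' := by
    refine ⟨fun _ => 0, ⟨contDiff_const, HasCompactSupport.zero, by simp [tsupport]⟩, ?_⟩
    exact Hqw_congr (Hqw_zero _) (fun _ => rfl) (fun x => by simp [pd]) fun x => by simp [pd]
  add_mem' := by
    rintro y z ⟨φ, hφ, hy⟩ ⟨ψ, hψ, hz⟩
    exact ⟨_, hφ.add hψ, Hqw_congr (Hqw_add hy hz) (fun _ => rfl) (fun x => (pd_add (hφ.diff x) (hψ.diff x) 1).symm)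
      fun x => (pd_add (hφ.diff x) (hψ.diff x) Complex.I).symm⟩
  smul_mem' := by
    rintro r y ⟨φ, hφ, hy⟩
    exact ⟨_, hφ.smul r, Hqw_congr (Hqw_smul r hy) (fun _ => rfl) (fun x => (pd_const_mul (hφ.diff x) r 1).symm)
      fun x => (pd_const_mul (hφ.diff x) r Complex.I).symm⟩

private theorem Hqw_exists {μ : Measure ℂ} {f g₁ g₂ : ℂ → ℝ} (hf : MemLp f 2 μ) (h₁ : MemLp g₁ 2 μ)
    (h₂ : MemLp g₂ 2 μ) : ∃ y : Hqw_E μ, Hqw_is μ y f g₁ g₂ :=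
  ⟨WithLp.toLp 2 ![hf.toLp f, h₁.toLp g₁, h₂.toLp g₂], hf.coeFn_toLp, h₁.coeFn_toLp, h₂.coeFn_toLp⟩

private theorem Hqw_lim {μ : Measure ℂ} {X : ℕ → Hqw_E μ} {x : Hqw_E μ} (h : Tendsto X atTop (𝓝 x)) (i : Fin 3) :
    Tendsto (fun N => ‖X N i - x i‖ ^ 2) atTop (𝓝 0) := by
  have h3 : Tendsto (fun N => X N i) atTop (𝓝 (x i)) := ((PiLp.continuous_apply 2 _ i).tendsto _).comp h
  have h4 := ((h3.sub_const (x i)).norm).pow 2
  simpa using h4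

/-- A triple which is orthogonal to everything that is orthogonal to the test functions is in the closure. -/
theorem hq_of_orth {D : Set ℂ} {f g₁ g₂ : ℂ → ℝ} (hf : MemLp f 2 (volume.restrict D))
    (h₁ : MemLp g₁ 2 (volume.restrict D)) (h₂ : MemLp g₂ 2 (volume.restrict D))
    (h : ∀ a b c : ℂ → ℝ, Op D a b c → ∫ x in D, (a x * f x + b x * g₁ x + c x * g₂ x) = 0) : Hq D f g₁ g₂ := by
  obtain ⟨u, hu⟩ := Hqw_exists hf h₁ h₂
  have hx : u ∈ (Hqw_K D)ᗮᗮ := by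
    rw [Submodule.mem_orthogonal]
    intro y hy
    have hy0 : Hqw_is (volume.restrict D) y (y 0) (y 1) (y 2) := ⟨ae_eq_rfl, ae_eq_rfl, ae_eq_rfl⟩
    rw [Hqw_inner3 hf h₁ h₂ (Lp.memLp _) (Lp.memLp _) (Lp.memLp _) hy0 hu]
    refine h _ _ _ ⟨Lp.memLp _, Lp.memLp _, Lp.memLp _, fun φ hφ => ?_⟩
    obtain ⟨z, hz⟩ := Hqw_exists hφ.memLp.1 (hφ.memLp.2 1) (hφ.memLp.2 Complex.I)
    rw [← Hqw_inner3 hφ.memLp.1 (hφ.memLp.2 1) (hφ.memLp.2 Complex.I) (Lp.memLp _) (Lp.memLp _) (Lp.memLp _) hy0 hz,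
      real_inner_comm]
    exact (Submodule.mem_orthogonal _ _).1 hy _ ⟨φ, hφ, hz⟩
  rw [Submodule.orthogonal_orthogonal_eq_closure, ← SetLike.mem_coe, Submodule.topologicalClosure_coe,
    mem_closure_iff_seq_limit] at hx
  obtain ⟨X, hX, hXl⟩ := hx
  choose φ hφ hXφ using hX
  refine ⟨hf, h₁, h₂, φ, hφ, ?_, ?_, ?_⟩
  · exact (Hqw_lim hXl 0).congr fun N => (Hqw_norm _ _ (hXφ N).1 hu.1).symm
  · exact (Hqw_lim hXl 1).congr fun N => (Hqw_norm _ _ (hXφ N).2.1 hu.2.1).symm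
  · exact (Hqw_lim hXl 2).congr fun N => (Hqw_norm _ _ (hXφ N).2.2 hu.2.2).symm

end DrumL
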