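import Pool.Agent.Lib.MP_d92c84_anF.Mol
import Pool.Agent.Lib.MP_d92c84_anF.Hqw

/-!
# Functions vanishing on the boundary are in the closure of the test functions
-/

set_option autoImplicit false

namespace DrumL

open MeasureTheory Set Filter Topology
open scoped ContDiff

private theorem Hqc_pd {f : ℂ → ℝ} {x v : ℂ} (hv : ‖v‖ = 1) : |pd v f x| ≤ ‖fderiv ℝ f x‖ := by
  have h1 := (fderiv ℝ f x).le_opNorm v
  rw [hv, mul_one] at h1
  exact h1

/-- A `C¹` function on `D`, continuous on the closure, zero on the boundary, with bounded gradient, is in the closure of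
the test functions. -/
theorem hq_of_zero {D : Set ℂ} (hD : IsOpen D) (hb : Bornology.IsBounded D) {f : ℂ → ℝ}
    (hc : ContinuousOn f (closure D)) (hf : ContDiffOn ℝ 1 f D) (h0 : ∀ x ∈ frontier D, f x = 0) {C : ℝ}
    (hC : ∀ x ∈ D, ‖fderiv ℝ f x‖ ≤ C) : Hq D f (pd 1 f) (pd Complex.I f) := by
  have hDm : MeasurableSet D := hD.measurableSet
  have hfin : IsFiniteMeasure (volume.restrict D) := ⟨by
    rw [Measure.restrict_apply_univ]
    exact hb.measure_lt_top⟩
  have hn1 : ‖(1 : ℂ)‖ = 1 := norm_one
  have hnI : ‖Complex.I‖ = 1 := Complex.norm_I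
  obtain ⟨M, hM⟩ := hb.isCompact_closure.exists_bound_of_continuousOn hc
  have hM' : ∀ x ∈ D, |f x| ≤ M := fun x hx => hM x (subset_closure hx)
  have hpc : ∀ v, ContinuousOn (pd v f) D := fun v => (contDiffOn_pd hD (m := 0) hf (by norm_num) v).continuousOn
  have hm0 : MemLp f 2 (volume.restrict D) := by
    refine MemLp.of_bound ((hc.mono subset_closure).aestronglyMeasurable hDm) M ?_
    rw [ae_restrict_iff' hDm]
    exact Eventually.of_forall fun x hx => hM' x hx
  have hmv : ∀ v : ℂ, ‖v‖ = 1 → MemLp (pd v f) 2 (volume.restrict D) := by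
    intro v hv
    refine MemLp.of_bound ((hpc v).aestronglyMeasurable hDm) C ?_
    rw [ae_restrict_iff' hDm]
    exact Eventually.of_forall fun x hx => (Hqc_pd hv).trans (hC x hx)
  refine hq_of_orth hm0 (hmv 1 hn1) (hmv _ hnI) fun a b c h => ?_
  have ia : Integrable a (volume.restrict D) := h.mem.integrable (by norm_num)
  have ib : Integrable b (volume.restrict D) := h.mem₁.integrable (by norm_num)
  have ic : Integrable c (volume.restrict D) := h.mem₂.integrable (by norm_num)
  have hz : ∀ N : ℕ, ∀ s, |s| ≤ eN N → Se (eN N) s = 0 := fun N s hs => Se_zero (eN_pos N) hs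
  have hpd : ∀ (N : ℕ) (v x : ℂ), pd v (indicator D fun x => Se (eN N) (f x)) x =
      indicator D (fun x => sg (f x / eN N) * pd v f x) x := fun N v x =>
    trunc_pd hb hc h0 hD (eN_pos N) (hz N) (θ' := fun s => sg (s / eN N)) (fun s => hasDerivAt_Se (eN_pos N) s)
      (hf.differentiableOn (by norm_num)) v x
  -- the integrals against the truncations vanish
  have hT : ∀ N : ℕ, ∫ x in D, (a x * Se (eN N) (f x) + b x * (sg (f x / eN N) * pd 1 f x) +
      c x * (sg (f x / eN N) * pd Complex.I f x)) = 0 := by
    intro N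
    have h1 := trunc_support hb hc h0 hD (eN_pos N) (hz N)
    have h2 : ContDiff ℝ 1 (indicator D fun x => Se (eN N) (f x)) :=
      trunc_contDiff hb hc h0 hD (eN_pos N) (hz N) ((contDiff_Se (eN N)).of_le (by exact_mod_cast le_top)) hf
    have h3 := Op.orth_c1 hD hb h h2 h1.1 h1.2
    rw [← h3]
    refine setIntegral_congr_fun hDm fun x hx => ?_
    simp only [hpd, indicator_of_mem hx]
  have hsgm : ∀ N : ℕ, AEStronglyMeasurable (fun x => sg (f x / eN N)) (volume.restrict D) := fun N =>
    (continuous_sg.comp_continuousOn ((hc.mono subset_closure).div_const _)).aestronglyMeasurable hDm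
  have hSem : ∀ N : ℕ, AEStronglyMeasurable (fun x => Se (eN N) (f x)) (volume.restrict D) := fun N =>
    ((contDiff_Se (eN N)).continuous.comp_continuousOn (hc.mono subset_closure)).aestronglyMeasurable hDm
  have hlim : Tendsto (fun N : ℕ => ∫ x in D, (a x * Se (eN N) (f x) + b x * (sg (f x / eN N) * pd 1 f x) +
      c x * (sg (f x / eN N) * pd Complex.I f x))) atTop
      (𝓝 (∫ x in D, (a x * f x + b x * pd 1 f x + c x * pd Complex.I f x))) := by
    refine tendsto_integral_of_dominated_convergence (fun x => |a x| * M + |b x| * C + |c x| * C) ?_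
      (((ia.abs.mul_const M).add (ib.abs.mul_const C)).add (ic.abs.mul_const C)) ?_ ?_
    · intro N
      exact ((ia.aestronglyMeasurable.mul (hSem N)).add (ib.aestronglyMeasurable.mul ((hsgm N).mul
        ((hpc 1).aestronglyMeasurable hDm)))).add (ic.aestronglyMeasurable.mul ((hsgm N).mul
        ((hpc Complex.I).aestronglyMeasurable hDm)))
    · intro N
      rw [ae_restrict_iff' hDm]
      refine Eventually.of_forall fun x hx => ?_
      have e3 : |sg (f x / eN N)| ≤ 1 := by
        rw [abs_of_nonneg (sg_nonneg _)]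
        exact sg_le_one _
      have e4 : |Se (eN N) (f x)| ≤ M := (abs_Se_le (eN_pos N) _).trans (hM' x hx)
      have e5 : ∀ v : ℂ, ‖v‖ = 1 → |sg (f x / eN N) * pd v f x| ≤ C := by
        intro v hv
        rw [abs_mul]
        calc |sg (f x / eN N)| * |pd v f x| ≤ 1 * |pd v f x| := mul_le_mul_of_nonneg_right e3 (abs_nonneg _)
          _ = |pd v f x| := one_mul _
          _ ≤ C := (Hqc_pd hv).trans (hC x hx)
      rw [Real.norm_eq_abs]
      refine (abs_add_le _ _).trans (add_le_add ((abs_add_le _ _).trans (add_le_add ?_ ?_)) ?_)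
      · rw [abs_mul]
        exact mul_le_mul_of_nonneg_left e4 (abs_nonneg _)
      · rw [abs_mul]
        exact mul_le_mul_of_nonneg_left (e5 1 hn1) (abs_nonneg _)
      · rw [abs_mul]
        exact mul_le_mul_of_nonneg_left (e5 _ hnI) (abs_nonneg _)
    · have hcr := ae_crit hD (hf.differentiableOn (by norm_num))
      filter_upwards [hcr] with x hx
      have e1 : ∀ v, Tendsto (fun N : ℕ => sg (f x / eN N) * pd v f x) atTop (𝓝 (pd v f x)) := by
        intro v
        by_cases h0 : f x = 0
        · have h1 := hx h0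
          have h2 : pd v f x = 0 := by
            unfold pd
            rw [h1]
            rfl
          simp only [h2, mul_zero]
          exact tendsto_const_nhds
        · have := (tendsto_sg h0).mul_const (pd v f x)
          rwa [one_mul] at this
      exact (((tendsto_Se (f x)).const_mul (a x)).add ((e1 1).const_mul (b x))).add
        ((e1 Complex.I).const_mul (c x))
  simp only [hT] at hlim
  exact (tendsto_nhds_unique hlim tendsto_const_nhds)

/-- The triple of a piece. -/
theorem Pz.hq {D A : Set ℂ} (hD : IsOpen D) (hb : Bornology.IsBounded D) {f : ℂ → ℝ} (h : Pz D A f) :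
    Hq D (indicator A f) (indicator A (pd 1 f)) (indicator A (pd Complex.I f)) := by
  have hAD : A ⊆ D := subset_closure.trans h.sub
  have hbA : Bornology.IsBounded A := hb.subset hAD
  have hAm : MeasurableSet A := h.isOpen.measurableSet
  have hDm : MeasurableSet D := hD.measurableSet
  have hf1 : ContDiffOn ℝ 1 f D := h.smooth.of_le (by exact_mod_cast le_top)
  obtain ⟨C, hC⟩ := hbA.isCompact_closure.exists_bound_of_continuousOn
    ((hf1.continuousOn_fderiv_of_isOpen hD (by norm_num)).mono h.sub)
  have hq : Hq A f (pd 1 f) (pd Complex.I f) :=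
    hq_of_zero h.isOpen hbA (hf1.continuousOn.mono h.sub) (hf1.mono hAD) h.zero
      (C := C) fun x hx => hC x (subset_closure hx)
  have hmem : ∀ g : ℂ → ℝ, MemLp g 2 (volume.restrict A) → MemLp (indicator A g) 2 (volume.restrict D) := by
    intro g hg
    rw [memLp_indicator_iff_restrict hAm, Measure.restrict_restrict hAm, inter_eq_left.2 hAD]
    exact hg
  have hint : ∀ (φ g : ℂ → ℝ), (∀ x, x ∉ A → φ x = 0) →
      ∫ x in D, (φ x - indicator A g x) ^ 2 = ∫ x in A, (φ x - g x) ^ 2 := by
    intro φ g hφ
    rw [← integral_indicator hDm, ← integral_indicator hAm]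
    refine integral_congr_ae (Eventually.of_forall fun x => ?_)
    by_cases hx : x ∈ A
    · simp only [indicator_of_mem hx, indicator_of_mem (hAD hx)]
    · simp only [indicator_of_notMem hx]
      by_cases hxD : x ∈ D
      · simp only [indicator_of_mem hxD, indicator_of_notMem hx, hφ x hx]
        norm_num
      · simp only [indicator_of_notMem hxD]
  obtain ⟨φ, hφ, t0, t1, t2⟩ := hq.seq
  refine ⟨hmem _ hq.mem, hmem _ hq.mem₁, hmem _ hq.mem₂, φ, fun N => (hφ N).mono hAD, ?_, ?_, ?_⟩
  · simpa only [hint _ _ fun x hx => (hφ _).zero_of_notMem hx] using t0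
  · simpa only [hint _ _ fun x hx => ((hφ _).pd 1).zero_of_notMem hx] using t1
  · simpa only [hint _ _ fun x hx => ((hφ _).pd Complex.I).zero_of_notMem hx] using t2

end DrumL
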