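import Pool.Agent.Lib.MP_d92c84_anF.Gre

/-!
# Pieces: solutions cut off at their zeros
-/

set_option autoImplicit false

namespace DrumL

open MeasureTheory Set Filter Topology
open scoped ContDiff

/-- `f` solves the Helmholtz equation in `D`, and vanishes on the boundary of `A`, whose closure is in `D`. -/
structure Pc (l : ℝ) (D A : Set ℂ) (f : ℂ → ℝ) : Prop where
  isOpen : IsOpen A
  sub : closure A ⊆ D
  hz : Hz l D f
  zero : ∀ x ∈ frontier A, f x = 0

/-- The truncation of the piece. -/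
noncomputable def tr (A : Set ℂ) (f : ℂ → ℝ) (N : ℕ) : ℂ → ℝ := indicator A fun x => Se (eN N) (f x)

/-- The truncation is a test function. -/
theorem tr_tst {l : ℝ} {D A : Set ℂ} (hb : Bornology.IsBounded D) {f : ℂ → ℝ} (h : Pc l D A f) (N : ℕ) :
    Tst A (tr A f N) := by
  have hbA : Bornology.IsBounded A := hb.subset (subset_closure.trans h.sub)
  have hfc : ContinuousOn f (closure A) := h.hz.smooth.continuousOn.mono h.sub
  have h0 : ∀ s, |s| ≤ eN N → Se (eN N) s = 0 := fun s hs => Se_zero (eN_pos N) hs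
  have h1 := trunc_support hbA hfc h.zero h.isOpen (eN_pos N) h0
  exact ⟨trunc_contDiff hbA hfc h.zero h.isOpen (eN_pos N) h0 (contDiff_Se _)
    (h.hz.smooth.mono (subset_closure.trans h.sub)), h1.1, h1.2⟩

/-- The derivative of the truncation. -/
theorem tr_pd {l : ℝ} {D A : Set ℂ} (hD : IsOpen D) (hb : Bornology.IsBounded D) {f : ℂ → ℝ} (h : Pc l D A f) (N : ℕ)
    (v x : ℂ) : pd v (tr A f N) x = indicator A (fun x => sg (f x / eN N) * pd v f x) x := by
  have hbA : Bornology.IsBounded A := hb.subset (subset_closure.trans h.sub)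
  have hfc : ContinuousOn f (closure A) := h.hz.smooth.continuousOn.mono h.sub
  have h0 : ∀ s, |s| ≤ eN N → Se (eN N) s = 0 := fun s hs => Se_zero (eN_pos N) hs
  exact trunc_pd hbA hfc h.zero h.isOpen (eN_pos N) h0 (θ' := fun s => sg (s / eN N))
    (fun s => hasDerivAt_Se (eN_pos N) s)
    ((h.hz.smooth.differentiableOn (by simp)).mono (subset_closure.trans h.sub)) v x

private theorem Pia_bd {D : Set ℂ} (hD : IsOpen D) {K : Set ℂ} (hK : IsCompact K) (hKD : K ⊆ D) {f : ℂ → ℝ}
    (hf : ContDiffOn ℝ 1 f D) : ∃ C : ℝ, 0 ≤ C ∧ ∀ x ∈ K, |f x| ≤ C ∧ ‖fderiv ℝ f x‖ ≤ C := by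
  obtain ⟨C1, h1⟩ := hK.exists_bound_of_continuousOn (hf.continuousOn.mono hKD)
  obtain ⟨C2, h2⟩ := hK.exists_bound_of_continuousOn
    ((hf.continuousOn_fderiv_of_isOpen hD (by norm_num)).mono hKD)
  refine ⟨max |C1| |C2|, (abs_nonneg _).trans (le_max_left _ _), fun x hx => ⟨?_, ?_⟩⟩
  · exact (h1 x hx).trans ((le_abs_self _).trans (le_max_left _ _))
  · exact (h2 x hx).trans ((le_abs_self _).trans (le_max_right _ _))

private theorem Pia_pd {f : ℂ → ℝ} {x v : ℂ} (hv : ‖v‖ = 1) : |pd v f x| ≤ ‖fderiv ℝ f x‖ := by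
  have h1 := (fderiv ℝ f x).le_opNorm v
  rw [hv, mul_one] at h1
  exact h1

/-- Limits of the form against a test function. -/
theorem tr_lim {l : ℝ} {D A : Set ℂ} (hD : IsOpen D) (hb : Bornology.IsBounded D) {f : ℂ → ℝ} (h : Pc l D A f)
    {ψ : ℂ → ℝ} (hψ : Tst D ψ) :
    Tendsto (fun N => Q l (tr A f N) ψ) atTop (𝓝 (-∫ x in A, f x * (lap ψ x + l * ψ x))) := by
  have hbA : Bornology.IsBounded A := hb.subset (subset_closure.trans h.sub)
  have hAD : A ⊆ D := subset_closure.trans h.sub
  have hf1 : ContDiffOn ℝ 1 f D := h.hz.smooth.of_le (by exact_mod_cast le_top)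
  have hfc : ContinuousOn f (closure A) := hf1.continuousOn.mono h.sub
  have hAm : MeasurableSet A := h.isOpen.measurableSet
  have hp1 : ContDiff ℝ 1 (pd 1 ψ) := contDiff_pd (n := 1) hψ.smooth 1
  have hpI : ContDiff ℝ 1 (pd Complex.I ψ) := contDiff_pd (n := 1) hψ.smooth Complex.I
  have hψ1 : ContDiff ℝ 1 ψ := hψ.smooth.of_le (by exact_mod_cast le_top)
  obtain ⟨C1, hC1, hb1⟩ := Pia_bd hD hbA.isCompact_closure h.sub hf1
  obtain ⟨C2, hC2, hb2⟩ := Pia_bd isOpen_univ hbA.isCompact_closure (subset_univ _) hψ1.contDiffOn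
  obtain ⟨C3, hC3, hb3⟩ := Pia_bd isOpen_univ hbA.isCompact_closure (subset_univ _) hp1.contDiffOn
  obtain ⟨C4, hC4, hb4⟩ := Pia_bd isOpen_univ hbA.isCompact_closure (subset_univ _) hpI.contDiffOn
  have hn1 : ‖(1 : ℂ)‖ = 1 := norm_one
  have hnI : ‖Complex.I‖ = 1 := Complex.norm_I
  have hcf : ∀ v, ContinuousOn (pd v f) (closure A) := fun v =>
    (contDiffOn_pd hD (m := 0) hf1 (by norm_num) v).continuousOn.mono h.sub
  have hcψ : ∀ v, Continuous (pd v ψ) := fun v => (contDiff_pd (n := 0) hψ.smooth v).continuous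
  -- the limit integral
  have hlim : ∫ x in A, (pd 1 f x * pd 1 ψ x + pd Complex.I f x * pd Complex.I ψ x - l * (f x * ψ x)) =
      -∫ x in A, f x * (lap ψ x + l * ψ x) := by
    have hg := green (ψ := f) (P := pd 1 ψ) (Qf := pd Complex.I ψ) (C := C1 + C3 + C4) h.isOpen hbA hfc
      (hf1.mono hAD) h.zero hp1.contDiffOn hpI.contDiffOn
      (fun x hx => by linarith [(hb1 x (subset_closure hx)).2])
      (fun x hx => by linarith [(hb3 x (subset_closure hx)).1])
      (fun x hx => by linarith [(hb4 x (subset_closure hx)).1])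
      (fun x hx => by
        have h1 := Pia_pd (f := pd 1 ψ) (x := x) hn1
        have h2 := Pia_pd (f := pd Complex.I ψ) (x := x) hnI
        have h3 := abs_add_le (pd 1 (pd 1 ψ) x) (pd Complex.I (pd Complex.I ψ) x)
        linarith [(hb3 x (subset_closure hx)).2, (hb4 x (subset_closure hx)).2])
    have hcl : Continuous (lap ψ) := by
      unfold lap
      exact (continuous_pd hp1 1).add (continuous_pd hpI Complex.I)
    have i1 : IntegrableOn (fun x => f x * lap ψ x) A := intOn hbA (hfc.mul hcl.continuousOn)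
    have i2 : IntegrableOn (fun x => pd 1 f x * pd 1 ψ x + pd Complex.I f x * pd Complex.I ψ x) A :=
      intOn hbA (((hcf 1).mul (hcψ 1).continuousOn).add ((hcf Complex.I).mul (hcψ Complex.I).continuousOn))
    have i3 : IntegrableOn (fun x => l * (f x * ψ x)) A :=
      intOn hbA (continuousOn_const.mul (hfc.mul hψ.cont.continuousOn))
    have h4 : ∫ x in A, (f x * lap ψ x + (pd 1 f x * pd 1 ψ x + pd Complex.I f x * pd Complex.I ψ x)) = 0 := hg
    rw [integral_add i1 i2] at h4
    rw [integral_sub i2 i3]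
    have h5 : ∫ x in A, f x * (lap ψ x + l * ψ x) = (∫ x in A, f x * lap ψ x) + ∫ x in A, l * (f x * ψ x) := by
      rw [← integral_add i1 i3]
      exact integral_congr_ae (Eventually.of_forall fun x => by simp only []; ring)
    rw [h5]
    linarith
  rw [← hlim]
  have hQ : ∀ N, Q l (tr A f N) ψ = ∫ x in A, (sg (f x / eN N) * (pd 1 f x * pd 1 ψ x +
      pd Complex.I f x * pd Complex.I ψ x) - l * (Se (eN N) (f x) * ψ x)) := by
    intro N
    unfold Q
    rw [← integral_indicator hAm]
    refine integral_congr_ae (Eventually.of_forall fun x => ?_)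
    simp only [tr_pd hD hb h N]
    by_cases hx : x ∈ A
    · simp only [tr, indicator_of_mem hx]
      ring
    · simp only [tr, indicator_of_notMem hx]
      ring
  simp only [hQ]
  have hfin : IsFiniteMeasure (volume.restrict A) := ⟨by
    rw [Measure.restrict_apply_univ]
    exact hbA.measure_lt_top⟩
  refine tendsto_integral_of_dominated_convergence (fun _ => C1 * C2 + C1 * C2 + |l| * (C1 * C2)) ?_
    (integrable_const _) ?_ ?_
  · intro N
    have h1 : ContinuousOn (fun x => sg (f x / eN N) * (pd 1 f x * pd 1 ψ x +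
        pd Complex.I f x * pd Complex.I ψ x) - l * (Se (eN N) (f x) * ψ x)) (closure A) := by
      refine ContinuousOn.sub (ContinuousOn.mul ?_ (((hcf 1).mul (hcψ 1).continuousOn).add
        ((hcf Complex.I).mul (hcψ Complex.I).continuousOn))) (continuousOn_const.mul
        (ContinuousOn.mul ?_ hψ.cont.continuousOn))
      · exact continuous_sg.comp_continuousOn (hfc.div_const _)
      · exact (contDiff_Se (eN N)).continuous.comp_continuousOn hfc
    exact (intOn hbA h1).aestronglyMeasurable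
  · intro N
    rw [ae_restrict_iff' hAm]
    refine Eventually.of_forall fun x hx => ?_
    have hx' := subset_closure hx
    have e1 : |pd 1 f x * pd 1 ψ x| ≤ C1 * C2 := by
      rw [abs_mul]
      exact mul_le_mul ((Pia_pd hn1).trans (hb1 x hx').2) ((Pia_pd hn1).trans (hb2 x hx').2) (abs_nonneg _) hC1
    have e2 : |pd Complex.I f x * pd Complex.I ψ x| ≤ C1 * C2 := by
      rw [abs_mul]
      exact mul_le_mul ((Pia_pd hnI).trans (hb1 x hx').2) ((Pia_pd hnI).trans (hb2 x hx').2) (abs_nonneg _) hC1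
    have e3 : |sg (f x / eN N)| ≤ 1 := by
      rw [abs_of_nonneg (sg_nonneg _)]
      exact sg_le_one _
    have e4 : |Se (eN N) (f x) * ψ x| ≤ C1 * C2 := by
      rw [abs_mul]
      exact mul_le_mul ((abs_Se_le (eN_pos N) _).trans (hb1 x hx').1) (hb2 x hx').1 (abs_nonneg _) hC1
    have e5 : |pd 1 f x * pd 1 ψ x + pd Complex.I f x * pd Complex.I ψ x| ≤ C1 * C2 + C1 * C2 :=
      (abs_add_le _ _).trans (add_le_add e1 e2)
    have e6 : |sg (f x / eN N) * (pd 1 f x * pd 1 ψ x + pd Complex.I f x * pd Complex.I ψ x)| ≤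
        C1 * C2 + C1 * C2 := by
      rw [abs_mul]
      calc _ ≤ 1 * |pd 1 f x * pd 1 ψ x + pd Complex.I f x * pd Complex.I ψ x| :=
            mul_le_mul_of_nonneg_right e3 (abs_nonneg _)
        _ ≤ _ := by rw [one_mul]; exact e5
    have e7 : |l * (Se (eN N) (f x) * ψ x)| ≤ |l| * (C1 * C2) := by
      rw [abs_mul]
      exact mul_le_mul_of_nonneg_left e4 (abs_nonneg _)
    rw [Real.norm_eq_abs]
    exact (abs_sub _ _).trans (add_le_add e6 e7)
  · have hcr := ae_crit h.isOpen ((hf1.mono hAD).differentiableOn (by norm_num))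
    filter_upwards [hcr] with x hx
    refine Tendsto.sub ?_ (((tendsto_Se (f x)).mul_const _).const_mul l)
    by_cases h0 : f x = 0
    · have h1 := hx h0
      have h2 : ∀ v, pd v f x = 0 := fun v => by
        unfold pd
        rw [h1]
        rfl
      simp only [h2, zero_mul, add_zero, mul_zero]
      exact tendsto_const_nhds
    · have := (tendsto_sg h0).mul_const (pd 1 f x * pd 1 ψ x + pd Complex.I f x * pd Complex.I ψ x)
      rwa [one_mul] at this

end DrumL
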