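import Pool.Agent.Lib.MP_d92c84_anF.Bst
import Pool.Agent.Lib.MP_d92c84_anF.Gpr
import Pool.Agent.Lib.MP_d92c84_anF.Pia
import Pool.Agent.Lib.MP_d92c84_anF.Hqc

/-!
# A combination of pieces
-/

set_option autoImplicit false

namespace DrumL

open MeasureTheory Set Filter Topology
open scoped ContDiff

/-- A piece of eigenvalue `l` is a piece. -/
theorem Pc.pz {l : ℝ} {D A : Set ℂ} {f : ℂ → ℝ} (h : Pc l D A f) : Pz D A f :=
  ⟨h.isOpen, h.sub, h.hz.smooth, h.zero⟩

/-- The integral of a sum of functions cut off to subsets. -/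
private theorem Bs3_int {ι : Type*} [Fintype ι] {A : Set ℂ} {S : ι → Set ℂ} (hm : ∀ j, MeasurableSet (S j))
    (hS : ∀ j, S j ⊆ A) {h : ι → ℂ → ℝ} (hi : ∀ j, IntegrableOn (h j) (S j)) :
    ∫ x in A, ∑ j, indicator (S j) (h j) x = ∑ j, ∫ x in S j, h j x := by
  rw [integral_finsetSum _ fun j _ => ((hi j).integrable_indicator (hm j)).integrableOn]
  refine Finset.sum_congr rfl fun j _ => ?_
  rw [setIntegral_indicator (hm j), inter_eq_self_of_subset_right (hS j)]

/-- Continuity of the products of derivatives. -/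
private theorem Bs3_cont {D A : Set ℂ} (hD : IsOpen D) (hAD : closure A ⊆ D) {f g : ℂ → ℝ} (hf : ContDiffOn ℝ ∞ f D)
    (hg : ContDiffOn ℝ ∞ g D) (L : ℝ) :
    ContinuousOn (fun x => pd 1 f x * pd 1 g x + pd Complex.I f x * pd Complex.I g x - L * (f x * g x))
      (closure A) := by
  have hp : ∀ {h : ℂ → ℝ}, ContDiffOn ℝ ∞ h D → ∀ v, ContinuousOn (pd v h) (closure A) := fun hh v =>
    (contDiffOn_pd hD (m := 0) (hh.of_le (m := 1) (by exact_mod_cast le_top)) (by norm_num) v).continuousOn.mono hAD
  exact (((hp hf 1).mul (hp hg 1)).add ((hp hf Complex.I).mul (hp hg Complex.I))).sub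
    (continuousOn_const.mul ((hf.continuousOn.mono hAD).mul (hg.continuousOn.mono hAD)))

private theorem Bs3_lap {D A : Set ℂ} (hD : IsOpen D) (hAD : closure A ⊆ D) {g : ℂ → ℝ} (hg : ContDiffOn ℝ ∞ g D) :
    ContinuousOn (lap g) (closure A) := by
  have h1 : ∀ v, ContDiffOn ℝ ∞ (pd v g) D := fun v => contDiffOn_pd hD (n := ∞) (m := ∞) hg (by simp) v
  have hp : ∀ v, ContinuousOn (pd v (pd v g)) (closure A) := fun v =>
    (contDiffOn_pd hD (n := ∞) (m := ∞) (h1 v) (by simp) v).continuousOn.mono hAD
  exact (hp 1).add (hp Complex.I)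

/-- The form of two pieces on sets that are nested or disjoint. -/
private theorem Bs3_two {L l₀ : ℝ} {D A B : Set ℂ} {f g : ℂ → ℝ} (hD : IsOpen D) (hb : Bornology.IsBounded D)
    (hf : Pc l₀ D A f) (hg : Pc l₀ D B g) (hAB : A ⊆ B) :
    ∫ x in A ∩ B, (pd 1 f x * pd 1 g x + pd Complex.I f x * pd Complex.I g x - L * (f x * g x)) =
      -((L - l₀) * ∫ x in A ∩ B, f x * g x) := by
  rw [inter_eq_self_of_subset_left hAB, hf.pz.green hD hb hg.hz.smooth L, ← integral_const_mul]
  congr 1
  refine setIntegral_congr_fun hf.isOpen.measurableSet fun x hx => ?_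
  simp only [hg.hz.eq x (hf.sub (subset_closure hx))]
  ring

/-- A combination of pieces on sets that are pairwise nested or disjoint. -/
theorem bs_of_pieces {L l₀ : ℝ} {D A : Set ℂ} (hD : IsOpen D) (hb : Bornology.IsBounded D) (hA : IsOpen A)
    {ι : Type*} [Fintype ι] {S : ι → Set ℂ} {F : ι → ℂ → ℝ} (hpc : ∀ j, Pc l₀ D (S j) (F j)) (hS : ∀ j, S j ⊆ A)
    (hAD : A ⊆ D) (hn : ∀ i j, S i ⊆ S j ∨ S j ⊆ S i ∨ Disjoint (S i) (S j)) (β : ι → ℝ) :
    Bs L l₀ D A (fun x => ∑ j, β j * indicator (S j) (F j) x) (fun x => ∑ j, β j * indicator (S j) (pd 1 (F j)) x)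
      (fun x => ∑ j, β j * indicator (S j) (pd Complex.I (F j)) x) := by
  have hm : ∀ j, MeasurableSet (S j) := fun j => (hpc j).isOpen.measurableSet
  have hbS : ∀ j, Bornology.IsBounded (S j) := fun j => hb.subset (subset_closure.trans (hpc j).sub)
  have hq : ∀ j, Hq D (indicator (S j) (F j)) (indicator (S j) (pd 1 (F j))) (indicator (S j) (pd Complex.I (F j))) :=
    fun j => (hpc j).pz.hq hD hb
  refine ⟨?_, ?_, ?_, ?_, ?_, ?_⟩
  · exact memLp_finsetSum _ fun j _ => (hq j).mem.const_mul (β j)
  · exact memLp_finsetSum _ fun j _ => (hq j).mem₁.const_mul (β j)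
  · exact memLp_finsetSum _ fun j _ => (hq j).mem₂.const_mul (β j)
  · intro x hx
    have h0 : ∀ j, x ∉ S j := fun j h => hx (hS j h)
    refine ⟨?_, ?_, ?_⟩ <;>
    · refine Finset.sum_eq_zero fun j _ => ?_
      rw [indicator_of_notMem (h0 j), mul_zero]
  · intro g hg
    have e1 : ∀ x, ((∑ j, β j * indicator (S j) (pd 1 (F j)) x) * pd 1 g x +
        (∑ j, β j * indicator (S j) (pd Complex.I (F j)) x) * pd Complex.I g x -
        L * ((∑ j, β j * indicator (S j) (F j) x) * g x)) =
        ∑ j, indicator (S j) (fun x => β j * (pd 1 (F j) x * pd 1 g x + pd Complex.I (F j) x * pd Complex.I g x -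
          L * (F j x * g x))) x := by
      intro x
      rw [Finset.sum_mul, Finset.sum_mul, Finset.sum_mul, Finset.mul_sum, ← Finset.sum_add_distrib,
        ← Finset.sum_sub_distrib]
      refine Finset.sum_congr rfl fun j _ => ?_
      by_cases hx : x ∈ S j
      · simp only [indicator_of_mem hx]
        ring
      · simp only [indicator_of_notMem hx]
        ring
    have e2 : ∀ x, (∑ j, β j * indicator (S j) (F j) x) * (lap g x + L * g x) =
        ∑ j, indicator (S j) (fun x => β j * (F j x * (lap g x + L * g x))) x := by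
      intro x
      rw [Finset.sum_mul]
      refine Finset.sum_congr rfl fun j _ => ?_
      by_cases hx : x ∈ S j
      · simp only [indicator_of_mem hx]
        ring
      · simp only [indicator_of_notMem hx]
        ring
    simp only [e1]
    simp only [e2]
    rw [Bs3_int hm hS, Bs3_int hm hS, ← Finset.sum_neg_distrib]
    · refine Finset.sum_congr rfl fun j _ => ?_
      rw [integral_const_mul, integral_const_mul, (hpc j).pz.green hD hb hg L]
      ring
    · exact fun j => intOn (hbS j) (continuousOn_const.mul ((((hpc j).hz.smooth.continuousOn.mono (hpc j).sub)).mul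
        ((Bs3_lap hD (hpc j).sub hg).add (continuousOn_const.mul (hg.continuousOn.mono (hpc j).sub)))))
    · exact fun j => intOn (hbS j) (continuousOn_const.mul (Bs3_cont hD (hpc j).sub (hpc j).hz.smooth hg L))
  · have hm2 : ∀ p : ι × ι, MeasurableSet (S p.1 ∩ S p.2) := fun p => (hm _).inter (hm _)
    have hS2 : ∀ p : ι × ι, S p.1 ∩ S p.2 ⊆ A := fun p => inter_subset_left.trans (hS _)
    have e1 : ∀ x, ((∑ j, β j * indicator (S j) (pd 1 (F j)) x) * (∑ j, β j * indicator (S j) (pd 1 (F j)) x) +
        (∑ j, β j * indicator (S j) (pd Complex.I (F j)) x) * (∑ j, β j * indicator (S j) (pd Complex.I (F j)) x) -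
        L * ((∑ j, β j * indicator (S j) (F j) x) * (∑ j, β j * indicator (S j) (F j) x))) =
        ∑ p : ι × ι, indicator (S p.1 ∩ S p.2) (fun x => β p.1 * β p.2 * (pd 1 (F p.1) x * pd 1 (F p.2) x +
          pd Complex.I (F p.1) x * pd Complex.I (F p.2) x - L * (F p.1 x * F p.2 x))) x := by
      intro x
      rw [Fintype.sum_prod_type, Finset.sum_mul_sum, Finset.sum_mul_sum, Finset.sum_mul_sum, Finset.mul_sum,
        ← Finset.sum_add_distrib, ← Finset.sum_sub_distrib]
      refine Finset.sum_congr rfl fun i _ => ?_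
      rw [Finset.mul_sum, ← Finset.sum_add_distrib, ← Finset.sum_sub_distrib]
      refine Finset.sum_congr rfl fun j _ => ?_
      by_cases hi : x ∈ S i
      · by_cases hj : x ∈ S j
        · simp only [indicator_of_mem hi, indicator_of_mem hj, indicator_of_mem (mem_inter hi hj)]
          ring
        · have h1 : x ∉ S i ∩ S j := fun h => hj h.2
          simp only [indicator_of_notMem hj, indicator_of_notMem h1]
          ring
      · have h1 : x ∉ S i ∩ S j := fun h => hi h.1
        simp only [indicator_of_notMem hi, indicator_of_notMem h1]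
        ring
    have e2 : ∀ x, (∑ j, β j * indicator (S j) (F j) x) * (∑ j, β j * indicator (S j) (F j) x) =
        ∑ p : ι × ι, indicator (S p.1 ∩ S p.2) (fun x => β p.1 * β p.2 * (F p.1 x * F p.2 x)) x := by
      intro x
      rw [Fintype.sum_prod_type, Finset.sum_mul_sum]
      refine Finset.sum_congr rfl fun i _ => ?_
      refine Finset.sum_congr rfl fun j _ => ?_
      by_cases hi : x ∈ S i
      · by_cases hj : x ∈ S j
        · simp only [indicator_of_mem hi, indicator_of_mem hj, indicator_of_mem (mem_inter hi hj)]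
          ring
        · have h1 : x ∉ S i ∩ S j := fun h => hj h.2
          simp only [indicator_of_notMem hj, indicator_of_notMem h1]
          ring
      · have h1 : x ∉ S i ∩ S j := fun h => hi h.1
        simp only [indicator_of_notMem hi, indicator_of_notMem h1]
        ring
    simp only [e1]
    simp only [e2]
    -- continuity on the closure of the first set
    have hcF : ∀ i j, ContinuousOn (F j) (closure (S i)) := fun i j =>
      (hpc j).hz.smooth.continuousOn.mono (hpc i).sub
    rw [Bs3_int hm2 hS2, Bs3_int hm2 hS2, Finset.mul_sum, ← Finset.sum_neg_distrib]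
    · refine Finset.sum_congr rfl fun p _ => ?_
      rw [integral_const_mul, integral_const_mul]
      have h1 : ∫ x in S p.1 ∩ S p.2, (pd 1 (F p.1) x * pd 1 (F p.2) x +
          pd Complex.I (F p.1) x * pd Complex.I (F p.2) x - L * (F p.1 x * F p.2 x)) =
          -((L - l₀) * ∫ x in S p.1 ∩ S p.2, F p.1 x * F p.2 x) := by
        rcases hn p.1 p.2 with h | h | h
        · exact Bs3_two hD hb (hpc _) (hpc _) h
        · have h2 := Bs3_two (L := L) hD hb (hpc p.2) (hpc p.1) h
          rw [inter_comm (S p.2) (S p.1)] at h2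
          calc _ = ∫ x in S p.1 ∩ S p.2, (pd 1 (F p.2) x * pd 1 (F p.1) x +
              pd Complex.I (F p.2) x * pd Complex.I (F p.1) x - L * (F p.2 x * F p.1 x)) :=
                integral_congr_ae (Eventually.of_forall fun x => by simp only []; ring)
            _ = _ := h2
            _ = _ := by
              congr 2
              exact integral_congr_ae (Eventually.of_forall fun x => by simp only []; ring)
        · rw [h.inter_eq]
          simp
      rw [h1]
      ring
    · exact fun p => (intOn (hbS p.1) (continuousOn_const.mul ((hcF p.1 p.1).mul (hcF p.1 p.2)))).mono_set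
        inter_subset_left
    · exact fun p => (intOn (hbS p.1) (continuousOn_const.mul (Bs3_cont hD (hpc p.1).sub (hpc p.1).hz.smooth
        (hpc p.2).hz.smooth L))).mono_set inter_subset_left

end DrumL
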