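import Pool.Agent.Lib.MP_d92c84_anF.Hqd

/-!
# The part of the total function made of pieces
-/

set_option autoImplicit false

namespace DrumL

open MeasureTheory Set Filter Topology
open scoped ContDiff

/-- The function `b` with gradient `(b₁, b₂)`, zero outside `A`, has the properties of a solution of eigenvalue `l₀` in
`A` that vanishes on the boundary of `A`, with mean zero. -/
structure Bs (L l₀ : ℝ) (D A : Set ℂ) (b b₁ b₂ : ℂ → ℝ) : Prop where
  mem : MemLp b 2 (volume.restrict D)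
  mem₁ : MemLp b₁ 2 (volume.restrict D)
  mem₂ : MemLp b₂ 2 (volume.restrict D)
  out : ∀ x, x ∉ A → b x = 0 ∧ b₁ x = 0 ∧ b₂ x = 0
  green : ∀ g : ℂ → ℝ, ContDiffOn ℝ ∞ g D →
    ∫ x in A, (b₁ x * pd 1 g x + b₂ x * pd Complex.I g x - L * (b x * g x)) = -∫ x in A, b x * (lap g x + L * g x)
  form : ∫ x in A, (b₁ x * b₁ x + b₂ x * b₂ x - L * (b x * b x)) = -((L - l₀) * ∫ x in A, b x * b x)

end DrumL
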