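import Pool.Agent.Lib.MP_d92c84_anF.Par

/-!
# Solutions for different eigenvalues are independent
-/

set_option autoImplicit false
set_option linter.unusedSectionVars false

namespace DrumL

open MeasureTheory Set Filter Topology
open scoped ContDiff

private theorem Van_diff {U : Set ℂ} (hU : IsOpen U) {l : ℝ} {f : ℂ → ℝ} (h : Hz l U f) {x : ℂ} (hx : x ∈ U) :
    DifferentiableAt ℝ f x :=
  (h.smooth.differentiableOn (by simp)).differentiableAt (hU.mem_nhds hx)

private theorem Van_diff2 {U : Set ℂ} (hU : IsOpen U) {l : ℝ} {f : ℂ → ℝ} (h : Hz l U f) {x : ℂ} (hx : x ∈ U) (v : ℂ) :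
    DifferentiableAt ℝ (pd v f) x := by
  have h1 : ContDiffOn ℝ ((1 : ℕ∞) : WithTop ℕ∞) (pd v f) U := contDiffOn_pd hU h.smooth (by exact_mod_cast le_top) v
  exact (h1.differentiableOn (by norm_num)).differentiableAt (hU.mem_nhds hx)

private theorem Van_sum {ι : Type*} {s : Finset ι} {G : ι → ℂ → ℝ} {x : ℂ} (h : ∀ i ∈ s, DifferentiableAt ℝ (G i) x) (v : ℂ) :
    pd v (fun y => ∑ i ∈ s, G i y) x = ∑ i ∈ s, pd v (G i) x := by
  unfold pd
  rw [fderiv_fun_sum h, sum_apply]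

private theorem Van_germ {f g : ℂ → ℝ} {x : ℂ} (h : f =ᶠ[𝓝 x] g) (v : ℂ) : pd v f x = pd v g x := by
  unfold pd
  rw [h.fderiv_eq]

private theorem Van_sum2 {ι : Type*} {U : Set ℂ} (hU : IsOpen U) {l : ι → ℝ} {F : ι → ℂ → ℝ} (hF : ∀ i, Hz (l i) U (F i))
    (s : Finset ι) {x : ℂ} (hx : x ∈ U) (v : ℂ) :
    pd v (pd v fun y => ∑ i ∈ s, F i y) x = ∑ i ∈ s, pd v (pd v (F i)) x := by
  have h1 : (pd v fun y => ∑ i ∈ s, F i y) =ᶠ[𝓝 x] fun y => ∑ i ∈ s, pd v (F i) y := by
    filter_upwards [hU.mem_nhds hx] with y hy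
    exact Van_sum (fun i _ => Van_diff hU (hF i) hy) v
  rw [Van_germ h1 v]
  exact Van_sum (fun i _ => Van_diff2 hU (hF i) hx v) v

private theorem Van_zero {U : Set ℂ} (hU : IsOpen U) {f : ℂ → ℝ} (h : ∀ x ∈ U, f x = 0) {x : ℂ} (hx : x ∈ U) (v : ℂ) :
    pd v f x = 0 := by
  have h1 : f =ᶠ[𝓝 x] fun _ => 0 := by
    filter_upwards [hU.mem_nhds hx] with y hy
    exact h y hy
  rw [Van_germ h1 v]
  simp [pd]

private theorem Van_lap {ι : Type*} {U : Set ℂ} (hU : IsOpen U) {l : ι → ℝ} {F : ι → ℂ → ℝ} (hF : ∀ i, Hz (l i) U (F i))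
    (s : Finset ι) (h0 : ∀ x ∈ U, ∑ i ∈ s, F i x = 0) {x : ℂ} (hx : x ∈ U) : ∑ i ∈ s, l i * F i x = 0 := by
  have h1 : ∀ v : ℂ, ∑ i ∈ s, pd v (pd v (F i)) x = 0 := by
    intro v
    rw [← Van_sum2 hU hF s hx v]
    exact Van_zero hU (fun y hy => Van_zero hU h0 hy v) hx v
  have h2 : ∑ i ∈ s, lap (F i) x = 0 := by
    unfold lap
    rw [Finset.sum_add_distrib, h1, h1, add_zero]
  have h3 : ∑ i ∈ s, lap (F i) x = -∑ i ∈ s, l i * F i x := by
    rw [← Finset.sum_neg_distrib]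
    refine Finset.sum_congr rfl fun i _ => ?_
    rw [(hF i).eq x hx]
    ring
  linarith

private theorem Van_mul {U : Set ℂ} (hU : IsOpen U) {l : ℝ} {f : ℂ → ℝ} (h : Hz l U f) (a : ℝ) :
    Hz l U (fun y => a * f y) := by
  refine ⟨contDiffOn_const.mul h.smooth, fun x hx => ?_⟩
  have h1 : ∀ v : ℂ, pd v (pd v fun y => a * f y) x = a * pd v (pd v f) x := by
    intro v
    have h2 : (pd v fun y => a * f y) =ᶠ[𝓝 x] fun y => a * pd v f y := by
      filter_upwards [hU.mem_nhds hx] with y hy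
      exact pd_const_mul (Van_diff hU h hy) a v
    rw [Van_germ h2 v]
    exact pd_const_mul (Van_diff2 hU h hx v) a v
  have h3 := h.eq x hx
  unfold lap at h3 ⊢
  rw [h1, h1, ← mul_add, h3]
  ring

private theorem Van_aux {ι : Type*} {U : Set ℂ} (hU : IsOpen U) {l : ι → ℝ} (hl : Function.Injective l) (s : Finset ι) :
    ∀ F : ι → ℂ → ℝ, (∀ i, Hz (l i) U (F i)) → (∀ x ∈ U, ∑ i ∈ s, F i x = 0) → ∀ i ∈ s, ∀ x ∈ U, F i x = 0 := by
  classical
  induction s using Finset.induction_on with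
  | empty =>
    intro F _ _ i hi
    simp at hi
  | insert j s hj ih =>
    intro F hF h0
    have h1 : ∀ x ∈ U, ∑ i ∈ s, (l j - l i) * F i x = 0 := by
      intro x hx
      have h2 := h0 x hx
      have h3 := Van_lap hU hF (insert j s) h0 hx
      rw [Finset.sum_insert hj] at h2 h3
      have h4 : ∑ i ∈ s, (l j - l i) * F i x = l j * ∑ i ∈ s, F i x - ∑ i ∈ s, l i * F i x := by
        rw [Finset.mul_sum, ← Finset.sum_sub_distrib]
        exact Finset.sum_congr rfl fun i _ => by ring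
      rw [h4]
      linear_combination l j * h2 - h3
    have h5 := ih (fun i y => (l j - l i) * F i y) (fun i => Van_mul hU (hF i) _) h1
    have h6 : ∀ i ∈ s, ∀ x ∈ U, F i x = 0 := by
      intro i hi x hx
      have h7 : l j - l i ≠ 0 := by
        rw [sub_ne_zero]
        intro h8
        exact hj (hl h8 ▸ hi)
      exact (mul_eq_zero.1 (h5 i hi x hx)).resolve_left h7
    intro i hi x hx
    rw [Finset.mem_insert] at hi
    rcases hi with rfl | hi
    · have h2 := h0 x hx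
      rw [Finset.sum_insert hj, Finset.sum_eq_zero fun k hk => h6 k hk x hx, add_zero] at h2
      exact h2
    · exact h6 i hi x hx

/-- If a sum of solutions for different eigenvalues vanishes on an open set, then each of them vanishes there. -/
theorem sep {ι : Type*} [Fintype ι] {U : Set ℂ} (hU : IsOpen U) {l : ι → ℝ} (hl : Function.Injective l) {F : ι → ℂ → ℝ}
    (hF : ∀ i, Hz (l i) U (F i)) (h0 : ∀ x ∈ U, ∑ i, F i x = 0) (i : ι) : ∀ x ∈ U, F i x = 0 :=
  Van_aux hU hl Finset.univ F hF h0 i (Finset.mem_univ i)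

end DrumL
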