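import Pool.Agent.Lib.MP_d92c84_anF.Ucn

/-!
# Compactly supported weak solutions are zero
-/

set_option autoImplicit false

namespace DrumL

open MeasureTheory Set Filter Topology
open scoped ContDiff Manifold

/-- The convolution of an integrable function with a kernel. -/
private noncomputable def Wea_cv (b g : ℂ → ℝ) (x : ℂ) : ℝ := ∫ t, b t * g (x - t)

private theorem Wea_eq (b g : ℂ → ℝ) : Wea_cv b g = convolution b g (ContinuousLinearMap.mul ℝ ℝ) volume := by
  funext x
  rfl

private theorem Wea_smooth {b g : ℂ → ℝ} (hb : Integrable b) (hg : Tst univ g) : ContDiff ℝ ∞ (Wea_cv b g) := by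
  rw [Wea_eq]
  exact hg.comp.contDiff_convolution_right (n := ⊤) _ hb.locallyIntegrable hg.smooth

private theorem Wea_pd {b g : ℂ → ℝ} (hb : Integrable b) (hg : Tst univ g) (v : ℂ) :
    pd v (Wea_cv b g) = Wea_cv b (pd v g) := by
  funext x
  have h1 : ContDiff ℝ 1 g := hg.smooth.of_le (by exact_mod_cast le_top)
  have h2 := hg.comp.hasFDerivAt_convolution_right (ContinuousLinearMap.mul ℝ ℝ) hb.locallyIntegrable h1 x
  unfold pd
  rw [Wea_eq, h2.fderiv, convolution_precompR_apply _ hb.locallyIntegrable (hg.comp.fderiv ℝ)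
    (h1.continuous_fderiv (by norm_num))]
  rfl

/-- The reflected and translated function. -/
private theorem Wea_refl_pd {g : ℂ → ℝ} (hg : ContDiff ℝ ∞ g) (v x : ℂ) :
    pd v (fun y => g (x - y)) = fun y => - pd v g (x - y) := by
  funext y
  unfold pd
  have h1 : HasFDerivAt g (fderiv ℝ g (x - y)) (x - y) := ((hg.differentiable (by simp)) (x - y)).hasFDerivAt
  have h2 : HasFDerivAt (fun y : ℂ => x - y) (-ContinuousLinearMap.id ℝ ℂ) y := by
    simpa using (hasFDerivAt_id (𝕜 := ℝ) y).const_sub x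
  have h3 := h1.comp y h2
  have h4 : fderiv ℝ (fun y => g (x - y)) y = (fderiv ℝ g (x - y)).comp (-ContinuousLinearMap.id ℝ ℂ) := h3.fderiv
  rw [h4]
  simp

private theorem Wea_neg_pd {g : ℂ → ℝ} (v : ℂ) : pd v (fun y => - g y) = fun y => - pd v g y := by
  funext y
  unfold pd
  rw [fderiv_fun_neg]
  rfl

private theorem Wea_refl_lap {g : ℂ → ℝ} (hg : ContDiff ℝ ∞ g) (x y : ℂ) :
    lap (fun y => g (x - y)) y = lap g (x - y) := by
  unfold lap
  rw [Wea_refl_pd hg, Wea_refl_pd hg, Wea_neg_pd, Wea_neg_pd, Wea_refl_pd (contDiff_pd (n := ⊤) hg 1),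
    Wea_refl_pd (contDiff_pd (n := ⊤) hg Complex.I)]
  simp

private theorem Wea_int {b g : ℂ → ℝ} (hb : Integrable b) (hg : Continuous g) (hc : HasCompactSupport g) (x : ℂ) :
    Integrable fun t => b t * g (x - t) := by
  obtain ⟨C, hC⟩ := hg.bounded_above_of_compact_support hc
  refine hb.mul_bdd (c := C) (hg.comp (continuous_const.sub continuous_id)).aestronglyMeasurable ?_
  exact Eventually.of_forall fun t => hC (x - t)

private theorem Wea_tst_refl {g : ℂ → ℝ} (hg : Tst univ g) (x : ℂ) : Tst univ (fun y => g (x - y)) := by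
  refine ⟨hg.smooth.comp (contDiff_const.sub contDiff_id), ?_, subset_univ _⟩
  exact hg.comp.comp_homeomorph (Homeomorph.subLeft x)

/-- The weak equation holds for all test functions of the plane. -/
private theorem Wea_all {l : ℝ} {D K : Set ℂ} (hD : IsOpen D) (hK : IsCompact K) (hKD : K ⊆ D) {b : ℂ → ℝ}
    (hb0 : ∀ x, x ∉ K → b x = 0)
    (h : ∀ ψ : ℂ → ℝ, Tst D ψ → ∫ x, b x * (lap ψ x + l * ψ x) = 0) {ψ : ℂ → ℝ} (hψ : Tst univ ψ) :
    ∫ x, b x * (lap ψ x + l * ψ x) = 0 := by
  obtain ⟨L, hL, hKL, hLD⟩ := exists_compact_between hK hD hKD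
  obtain ⟨χ, hχ1, hχ0, -⟩ := exists_contMDiffMap_one_nhds_of_subset_interior (n := ⊤) (𝓘(ℝ, ℂ)) hK.isClosed hKL
  have hχs : ContDiff ℝ ∞ (χ : ℂ → ℝ) := χ.contMDiff.contDiff
  have hsub : tsupport (χ : ℂ → ℝ) ⊆ L := by
    refine closure_minimal ?_ hL.isClosed
    intro x hx
    by_contra h1
    exact hx (hχ0 x h1)
  have hT : Tst D (fun x => χ x * ψ x) := by
    refine ⟨hχs.mul hψ.smooth, hψ.comp.mul_left, ?_⟩
    exact ((tsupport_mul_subset_left (f := (χ : ℂ → ℝ)) (g := ψ)).trans hsub).trans hLD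
  rw [← h _ hT]
  refine integral_congr_ae (Eventually.of_forall fun x => ?_)
  by_cases hx : x ∈ K
  · have h1 : ∀ᶠ y in 𝓝 x, χ y = 1 := by
      have := (Filter.Eventually.filter_mono (nhds_le_nhdsSet hx)) hχ1
      exact this
    have h2 : (fun y => χ y * ψ y) =ᶠ[𝓝 x] ψ := by
      filter_upwards [h1] with y hy
      rw [hy, one_mul]
    have h3 : ∀ v : ℂ, pd v (fun y => χ y * ψ y) =ᶠ[𝓝 x] pd v ψ := by
      intro v
      filter_upwards [h2.eventuallyEq_nhds] with y hy
      unfold pd
      rw [hy.fderiv_eq]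
    have h4 : ∀ v : ℂ, pd v (pd v (fun y => χ y * ψ y)) x = pd v (pd v ψ) x := by
      intro v
      have := (h3 v).fderiv_eq (𝕜 := ℝ)
      show fderiv ℝ (pd v (fun y => χ y * ψ y)) x v = fderiv ℝ (pd v ψ) x v
      rw [this]
    show b x * (lap ψ x + l * ψ x) = b x * (lap (fun y => χ y * ψ y) x + l * (χ x * ψ x))
    unfold lap
    rw [h4, h4, h1.self_of_nhds, one_mul]
  · show b x * (lap ψ x + l * ψ x) = b x * (lap (fun y => χ y * ψ y) x + l * (χ x * ψ x))
    rw [hb0 x hx, zero_mul, zero_mul]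

/-- A compactly supported integrable weak solution of the Helmholtz equation vanishes almost everywhere. -/
theorem weak_zero {l : ℝ} (hl : 0 < l) {D K : Set ℂ} (hD : IsOpen D) (hK : IsCompact K) (hKD : K ⊆ D) {b : ℂ → ℝ}
    (hb : Integrable b) (hb0 : ∀ x, x ∉ K → b x = 0)
    (h : ∀ ψ : ℂ → ℝ, Tst D ψ → ∫ x, b x * (lap ψ x + l * ψ x) = 0) : ∀ᵐ x, b x = 0 := by
  have hcv : ∀ g : ℂ → ℝ, Tst univ g → ∀ x, Wea_cv b g x = 0 := by
    intro g hg x
    have hz : Hz l univ (Wea_cv b g) := by
      refine ⟨(Wea_smooth hb hg).contDiffOn, fun y _ => ?_⟩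
      have h1 : lap (Wea_cv b g) y = Wea_cv b (pd 1 (pd 1 g)) y + Wea_cv b (pd Complex.I (pd Complex.I g)) y := by
        unfold lap
        rw [Wea_pd hb hg, Wea_pd hb hg, Wea_pd hb ((hg.pd 1).mono (subset_univ _)),
          Wea_pd hb ((hg.pd Complex.I).mono (subset_univ _))]
      have i1 := Wea_int hb ((hg.pd 1).pd 1).cont ((hg.pd 1).pd 1).comp y
      have i2 := Wea_int hb ((hg.pd Complex.I).pd Complex.I).cont ((hg.pd Complex.I).pd Complex.I).comp y
      have i3 := Wea_int hb hg.cont hg.comp y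
      have h2 := Wea_all (l := l) hD hK hKD hb0 h (Wea_tst_refl hg y)
      have h3 : ∫ t, b t * (lap (fun t => g (y - t)) t + l * g (y - t)) =
          Wea_cv b (pd 1 (pd 1 g)) y + Wea_cv b (pd Complex.I (pd Complex.I g)) y + l * Wea_cv b g y := by
        have i12 : Integrable fun t => b t * pd 1 (pd 1 g) (y - t) + b t * pd Complex.I (pd Complex.I g) (y - t) :=
          i1.add i2
        unfold Wea_cv
        rw [← integral_const_mul, ← integral_add i1 i2, ← integral_add i12 (i3.const_mul l)]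
        refine integral_congr_ae (Eventually.of_forall fun t => ?_)
        show b t * (lap (fun t => g (y - t)) t + l * g (y - t)) = b t * pd 1 (pd 1 g) (y - t) +
          b t * pd Complex.I (pd Complex.I g) (y - t) + l * (b t * g (y - t))
        rw [Wea_refl_lap hg.smooth]
        unfold lap
        ring
      rw [h1]
      rw [h2] at h3
      linarith
    obtain ⟨R, hR⟩ := hK.isBounded.subset_closedBall (0 : ℂ)
    obtain ⟨S, hS⟩ := hg.comp.isBounded.subset_closedBall (0 : ℂ)
    refine uc hl isOpen_univ isPreconnected_univ hz (V := (Metric.closedBall (0 : ℂ) (R + S))ᶜ)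
      Metric.isClosed_closedBall.isOpen_compl ?_ ?_ (mem_univ x)
    · rw [inter_univ]
      refine ⟨((|R + S| + 1 : ℝ) : ℂ), ?_⟩
      rw [mem_compl_iff, mem_closedBall_zero_iff, Complex.norm_real, Real.norm_eq_abs, not_le,
        abs_of_pos (by positivity)]
      exact lt_of_le_of_lt (le_abs_self _) (lt_add_one _)
    · intro y hy
      have hy1 : R + S < ‖y‖ := by
        have := hy.1
        rwa [mem_compl_iff, mem_closedBall_zero_iff, not_le] at this
      unfold Wea_cv
      rw [← integral_zero ℂ ℝ]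
      refine integral_congr_ae (Eventually.of_forall fun t => ?_)
      show b t * g (y - t) = 0
      by_cases ht : t ∈ K
      · have h1 : ‖t‖ ≤ R := mem_closedBall_zero_iff.1 (hR ht)
        have h2 : g (y - t) = 0 := by
          by_contra h3
          have h4 : y - t ∈ tsupport g := subset_tsupport _ h3
          have h5 : ‖y - t‖ ≤ S := mem_closedBall_zero_iff.1 (hS h4)
          have h6 : ‖y‖ ≤ ‖y - t‖ + ‖t‖ := by
            have := norm_add_le (y - t) t
            rwa [sub_add_cancel] at this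
          linarith
        rw [h2, mul_zero]
      · rw [hb0 t ht, zero_mul]
  refine ae_eq_zero_of_integral_contDiff_smul_eq_zero hb.locallyIntegrable fun φ hφ hφc => ?_
  have h1 := hcv (fun z => φ (0 - z)) (Wea_tst_refl ⟨hφ, hφc, subset_univ _⟩ 0) 0
  rw [← h1]
  unfold Wea_cv
  refine integral_congr_ae (Eventually.of_forall fun t => ?_)
  show φ t • b t = b t * φ (0 - (0 - t))
  rw [smul_eq_mul, mul_comm]
  simp

end DrumL
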