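import Pool.Agent.Lib.MP_d92c84_anF.Vpt
import Pool.Agent.Lib.MP_d92c84_anF.Bst
import Pool.Agent.Lib.MP_d92c84_anF.Gpr
import Pool.Agent.Lib.MP_d92c84_anF.Wea
import Pool.Agent.Lib.MP_d92c84_anF.Van

/-!
# Nondegeneracy: the inner part
-/

set_option autoImplicit false

namespace DrumL

open MeasureTheory Set Filter Topology
open scoped ContDiff

private theorem Nd1_diff {U : Set ℂ} (hU : IsOpen U) {l : ℝ} {f : ℂ → ℝ} (h : Hz l U f) {x : ℂ} (hx : x ∈ U) :
    DifferentiableAt ℝ f x :=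
  (h.smooth.differentiableOn (by simp)).differentiableAt (hU.mem_nhds hx)

private theorem Nd1_diff2 {U : Set ℂ} (hU : IsOpen U) {l : ℝ} {f : ℂ → ℝ} (h : Hz l U f) {x : ℂ} (hx : x ∈ U) (v : ℂ) :
    DifferentiableAt ℝ (pd v f) x := by
  have h1 : ContDiffOn ℝ ((1 : ℕ∞) : WithTop ℕ∞) (pd v f) U := contDiffOn_pd hU h.smooth (by exact_mod_cast le_top) v
  exact (h1.differentiableOn (by norm_num)).differentiableAt (hU.mem_nhds hx)

private theorem Nd1_germ {f g : ℂ → ℝ} {x : ℂ} (h : f =ᶠ[𝓝 x] g) (v : ℂ) : pd v f x = pd v g x := by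
  unfold pd
  rw [h.fderiv_eq]

private theorem Nd1_comb {U : Set ℂ} (hU : IsOpen U) {l : ℝ} {f g : ℂ → ℝ} (hf : Hz l U f) (hg : Hz l U g) (a : ℝ) :
    Hz l U (fun y => a * f y + g y) := by
  refine ⟨(contDiffOn_const.mul hf.smooth).add hg.smooth, fun x hx => ?_⟩
  have h1 : ∀ v : ℂ, pd v (pd v fun y => a * f y + g y) x = a * pd v (pd v f) x + pd v (pd v g) x := by
    intro v
    have h2 : (pd v fun y => a * f y + g y) =ᶠ[𝓝 x] fun y => a * pd v f y + pd v g y := by
      filter_upwards [hU.mem_nhds hx] with y hy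
      have h3 := pd_add ((Nd1_diff hU hf hy).const_mul a) (Nd1_diff hU hg hy) v
      rw [pd_const_mul (Nd1_diff hU hf hy) a v] at h3
      exact h3
    rw [Nd1_germ h2 v]
    have h3 := pd_add ((Nd1_diff2 hU hf hx v).const_mul a) (Nd1_diff2 hU hg hx v) v
    rw [pd_const_mul (Nd1_diff2 hU hf hx v) a v] at h3
    exact h3
  have h3 := hf.eq x hx
  have h4 := hg.eq x hx
  unfold lap at h3 h4 ⊢
  rw [h1, h1]
  linear_combination a * h3 + h4

private theorem Nd1_const (U : Set ℂ) (C : ℝ) : Hz 0 U (fun _ => C) := by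
  refine ⟨contDiffOn_const, fun x _ => ?_⟩
  have h1 : ∀ (v : ℂ) (K : ℝ), pd v (fun _ : ℂ => K) = fun _ => 0 := by
    intro v K
    funext y
    unfold pd
    simp
  unfold lap
  rw [h1, h1, h1, h1]
  simp

private theorem Nd1_frontier {D A : Set ℂ} (hb : Bornology.IsBounded D) (hAn : A.Nonempty) (hA : closure A ⊆ D) :
    (frontier A).Nonempty := by
  rw [nonempty_frontier_iff]
  refine ⟨hAn, fun h => ?_⟩
  have h1 : Bornology.IsBounded A := hb.subset (subset_closure.trans hA)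
  rw [h] at h1
  exact NormedSpace.unbounded_univ ℝ ℂ h1

/-- A vanishing combination on an open set has zero coefficients. -/
theorem nd_inner {m : ℕ} {l c : Fin (m + 1) → ℝ} (hl : ∀ i, 0 < l i) (hlm : Function.Injective l) {D A : Set ℂ}
    (hD : IsOpen D) (hb : Bornology.IsBounded D) (hDc : IsPreconnected D) (hAn : A.Nonempty)
    {v : Fin (m + 1) → ℂ → ℝ} (hv : ∀ i, Sc (l i) (c i) D A (v i)) (hc : ∀ i, c i ≠ 0)
    (hnd : ∀ i, ∀ (α : ℂ) (β : ℝ), (∀ x ∈ D, kd α β (v i) x = 0) → α = 0 ∧ β = 0) {U : Set ℂ} (hU : IsOpen U)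
    (hUn : U.Nonempty) (hUD : U ⊆ D) {a : Fin (m + 1) → ℝ} {α : Fin (m + 1) → ℂ} {γ : Fin (m + 1) → ℝ}
    (h0 : ∀ x ∈ U, cP c v a α γ x = 0) (i : Fin (m + 1)) : a i = 0 ∧ α i = 0 ∧ γ i = 0 := by
  have hC : ∀ j, Hz (l j) D (fun y => a j * v j y + kd (α j) (γ j) (v j) y) := fun j =>
    Nd1_comb hD (hv j).hz (hz_kd hD (hv j).hz (α j) (γ j)) (a j)
  have hlo : Function.Injective (fun o : Option (Fin (m + 1)) => o.elim 0 l) := by
    intro o o' h
    match o, o' with
    | none, none => rfl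
    | none, some j => exact absurd h (hl j).ne
    | some j, none => exact absurd h (hl j).ne'
    | some j, some j' => exact congrArg some (hlm h)
  have hF : ∀ o : Option (Fin (m + 1)), Hz (o.elim 0 l) U
      (o.elim (fun _ => -∑ j, a j * c j) fun j => fun y => a j * v j y + kd (α j) (γ j) (v j) y) := by
    intro o
    match o with
    | none => exact Nd1_const U _
    | some j => exact (hC j).mono hUD
  have h1 := sep hU hlo hF (fun x hx => by
    rw [Fintype.sum_option]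
    have h2 := h0 x hx
    unfold cP at h2
    simp only [Option.elim]
    rw [← h2, ← Finset.sum_neg_distrib, ← Finset.sum_add_distrib]
    exact Finset.sum_congr rfl fun j _ => by ring) (some i)
  have h2 : ∀ x ∈ D, a i * v i x + kd (α i) (γ i) (v i) x = 0 := fun x hx =>
    uc (hl i) hD hDc (hC i) hU (by rw [inter_eq_left.2 hUD]; exact hUn) (fun y hy => h1 y hy.1) hx
  obtain ⟨x, hx⟩ := Nd1_frontier hb hAn (hv i).sub
  have h3 := h2 x ((hv i).sub (frontier_subset_closure hx))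
  rw [((hv i).pzkd hD (α i) (γ i)).zero x hx, (hv i).val x hx, add_zero] at h3
  have h4 : a i = 0 := (mul_eq_zero.1 h3).resolve_right (hc i)
  refine ⟨h4, hnd i (α i) (γ i) fun y hy => ?_⟩
  have h5 := h2 y hy
  rw [h4, zero_mul, zero_add] at h5
  exact h5

end DrumL
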