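import Pool.Agent.Lib.MP_d92c84_anF.Vpt
import Pool.Agent.Lib.MP_d92c84_anF.Bst
import Pool.Agent.Lib.MP_d92c84_anF.Gpr
import Pool.Agent.Lib.MP_d92c84_anF.Wea
import Pool.Agent.Lib.MP_d92c84_anF.Van

/-!
# Nondegeneracy: the outer part
-/

set_option autoImplicit false

namespace DrumL

open MeasureTheory Set Filter Topology
open scoped ContDiff

private theorem Nd2_germ {f g : ℂ → ℝ} {x : ℂ} (h : f =ᶠ[𝓝 x] g) (v : ℂ) : pd v f x = pd v g x := by
  unfold pd
  rw [h.fderiv_eq]

/-- A multiple of a solution is a solution. -/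
private theorem Nd2_mul {U : Set ℂ} (hU : IsOpen U) {l : ℝ} {f : ℂ → ℝ} (h : Hz l U f) (a : ℝ) :
    Hz l U (fun y => a * f y) := by
  have hd : ∀ x ∈ U, DifferentiableAt ℝ f x := fun x hx =>
    (h.smooth.differentiableOn (by simp)).differentiableAt (hU.mem_nhds hx)
  have hd2 : ∀ v : ℂ, ∀ x ∈ U, DifferentiableAt ℝ (pd v f) x := by
    intro v x hx
    have h1 : ContDiffOn ℝ ((1 : ℕ∞) : WithTop ℕ∞) (pd v f) U :=
      contDiffOn_pd hU h.smooth (by exact_mod_cast le_top) v
    exact (h1.differentiableOn (by norm_num)).differentiableAt (hU.mem_nhds hx)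
  refine ⟨contDiffOn_const.mul h.smooth, fun x hx => ?_⟩
  have h1 : ∀ v : ℂ, pd v (pd v fun y => a * f y) x = a * pd v (pd v f) x := by
    intro v
    have h2 : (pd v fun y => a * f y) =ᶠ[𝓝 x] fun y => a * pd v f y := by
      filter_upwards [hU.mem_nhds hx] with y hy
      exact pd_const_mul (hd y hy) a v
    rw [Nd2_germ h2 v]
    exact pd_const_mul (hd2 v x hx) a v
  have h3 := h.eq x hx
  unfold lap at h3 ⊢
  rw [h1, h1, ← mul_add, h3]
  ring

/-- A continuous function orthogonal to the test functions of an open set vanishes there. -/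
private theorem Nd2_zero {D V : Set ℂ} (hV : IsOpen V) (hVD : V ⊆ D) {u : ℂ → ℝ}
    (hi : IntegrableOn u D) (hu : ContinuousOn u V)
    (h : ∀ φ : ℂ → ℝ, Tst V φ → ∫ x in D, u x * φ x = 0) : ∀ x ∈ V, u x = 0 := by
  have hi' : Integrable u (volume.restrict D) := hi
  have h1 : ∀ᵐ x ∂(volume.restrict D), x ∈ V → u x = 0 := by
    refine hV.ae_eq_zero_of_integral_contDiff_smul_eq_zero
      (hi'.locallyIntegrable.locallyIntegrableOn V) fun g hg hgc hgV => ?_
    rw [← h g ⟨hg, hgc, hgV⟩]
    refine integral_congr_ae (Eventually.of_forall fun x => ?_)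
    change g x * u x = u x * g x
    ring
  have h2 : ∀ᵐ x ∂(volume.restrict V), x ∈ V → u x = 0 :=
    ae_restrict_of_ae_restrict_of_subset hVD h1
  have h3 : u =ᵐ[volume.restrict V] fun _ => 0 := by
    filter_upwards [h2, ae_restrict_mem hV.measurableSet] with x hx hxV
    exact hx hxV
  exact fun x hx => Measure.eqOn_open_of_ae_eq h3 hV hu continuousOn_const hx

private theorem Nd2_int {D : Set ℂ} {f g : ℂ → ℝ} (hf : MemLp f 2 (volume.restrict D))
    (hg : MemLp g 2 (volume.restrict D)) : Integrable (fun x => f x * g x) (volume.restrict D) :=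
  hf.integrable_mul hg

/-- The form of a square integrable triple against a test function is integrable. -/
private theorem Nd2_form {D : Set ℂ} {f g₁ g₂ : ℂ → ℝ} (hf : MemLp f 2 (volume.restrict D))
    (h1 : MemLp g₁ 2 (volume.restrict D)) (h2 : MemLp g₂ 2 (volume.restrict D)) {ψ : ℂ → ℝ} (hψ : Tst D ψ) (L : ℝ) :
    Integrable (fun x => g₁ x * pd 1 ψ x + g₂ x * pd Complex.I ψ x - L * (f x * ψ x)) (volume.restrict D) :=
  ((Nd2_int h1 (hψ.memLp.2 1)).add (Nd2_int h2 (hψ.memLp.2 Complex.I))).sub ((Nd2_int hf hψ.memLp.1).const_mul L)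

/-- The identity for a test function. -/
private theorem Nd2_key {m : ℕ} {l c : Fin (m + 1) → ℝ} {D A : Set ℂ}
    (hD : IsOpen D) (hb : Bornology.IsBounded D) {v : Fin (m + 1) → ℂ → ℝ}
    (hv : ∀ i, Sc (l i) (c i) D A (v i))
    (hq : ∀ i, Hq D (v i) (pd 1 (v i)) (pd Complex.I (v i))) {L l₀ : ℝ}
    {b b₁ b₂ : ℂ → ℝ} (hB : Bs L l₀ D A b b₁ b₂) {a e : Fin (m + 1) → ℝ}
    {α : Fin (m + 1) → ℂ} {γ : Fin (m + 1) → ℝ} {ψ : ℂ → ℝ} (hψ : Tst D ψ)
    (h : ∫ x in D, ((b₁ x + indicator A (pd 1 (cP c v a α γ)) x + pd 1 (cV v e) x) * pd 1 ψ x +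
      (b₂ x + indicator A (pd Complex.I (cP c v a α γ)) x + pd Complex.I (cV v e) x) * pd Complex.I ψ x -
      L * ((b x + indicator A (cP c v a α γ) x + cV v e x) * ψ x)) = 0) :
    (∫ x in A, (b x + cP c v a α γ x) * (lap ψ x + L * ψ x)) +
      ∫ x in D, (∑ i, (L - l i) * (e i * v i x)) * ψ x = 0 := by
  have hz := fun i => (hv i).hz
  have hA : IsOpen A := (hv 0).isOpen
  have hcA : closure A ⊆ D := (hv 0).sub
  have hAD : A ⊆ D := subset_closure.trans hcA
  have hbA : Bornology.IsBounded A := hb.subset hAD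
  have hPz := cP_pz hD hv a α γ
  have hVq := cV_hq hD hz hq e
  have g1 := hB.green ψ hψ.smooth.contDiffOn
  have g2 := hPz.green hD hb (g := ψ) hψ.smooth.contDiffOn L
  have g3 := cV_test hD hz e L hψ
  have hPc : ContinuousOn (cP c v a α γ) (closure A) := hPz.smooth.continuousOn.mono hcA
  have hPd : ∀ w : ℂ, ContinuousOn (pd w (cP c v a α γ)) (closure A) := fun w =>
    (contDiffOn_pd hD (m := 0) hPz.smooth (by simp) w).continuousOn.mono hcA
  have hFi : IntegrableOn (fun x => pd 1 (cP c v a α γ) x * pd 1 ψ x +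
      pd Complex.I (cP c v a α γ) x * pd Complex.I ψ x - L * (cP c v a α γ x * ψ x)) A := by
    apply intOn hbA
    exact (((hPd 1).mul (hψ.pd 1).cont.continuousOn).add
      ((hPd Complex.I).mul (hψ.pd Complex.I).cont.continuousOn)).sub
      (continuousOn_const.mul (hPc.mul hψ.cont.continuousOn))
  have i1 := Nd2_form hB.mem hB.mem₁ hB.mem₂ hψ L
  have i3 := Nd2_form hVq.mem hVq.mem₁ hVq.mem₂ hψ L
  have i2 : Integrable (indicator A fun x => pd 1 (cP c v a α γ) x * pd 1 ψ x +
      pd Complex.I (cP c v a α γ) x * pd Complex.I ψ x - L * (cP c v a α γ x * ψ x)) (volume.restrict D) :=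
    ((integrable_indicator_iff hA.measurableSet).2 hFi).integrableOn
  have i12 : Integrable (fun x => (b₁ x * pd 1 ψ x + b₂ x * pd Complex.I ψ x - L * (b x * ψ x)) +
      (indicator A fun x => pd 1 (cP c v a α γ) x * pd 1 ψ x +
        pd Complex.I (cP c v a α γ) x * pd Complex.I ψ x - L * (cP c v a α γ x * ψ x)) x) (volume.restrict D) :=
    i1.add i2
  have e0 : ∫ x in D, ((b₁ x + indicator A (pd 1 (cP c v a α γ)) x + pd 1 (cV v e) x) * pd 1 ψ x +
      (b₂ x + indicator A (pd Complex.I (cP c v a α γ)) x + pd Complex.I (cV v e) x) * pd Complex.I ψ x -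
      L * ((b x + indicator A (cP c v a α γ) x + cV v e x) * ψ x)) =
      (∫ x in D, (b₁ x * pd 1 ψ x + b₂ x * pd Complex.I ψ x - L * (b x * ψ x))) +
      (∫ x in D, (indicator A fun x => pd 1 (cP c v a α γ) x * pd 1 ψ x +
        pd Complex.I (cP c v a α γ) x * pd Complex.I ψ x - L * (cP c v a α γ x * ψ x)) x) +
      ∫ x in D, (pd 1 (cV v e) x * pd 1 ψ x + pd Complex.I (cV v e) x * pd Complex.I ψ x - L * (cV v e x * ψ x)) := by
    rw [← integral_add i1 i2, ← integral_add i12 i3]
    refine integral_congr_ae (Eventually.of_forall fun x => ?_)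
    by_cases hx : x ∈ A
    · simp only [Pi.add_apply, indicator_of_mem hx]
      ring
    · simp only [Pi.add_apply, indicator_of_notMem hx]
      ring
  have e1 : ∫ x in D, (b₁ x * pd 1 ψ x + b₂ x * pd Complex.I ψ x - L * (b x * ψ x)) =
      ∫ x in A, (b₁ x * pd 1 ψ x + b₂ x * pd Complex.I ψ x - L * (b x * ψ x)) := by
    refine setIntegral_eq_of_subset_of_forall_diff_eq_zero hD.measurableSet hAD fun x hx => ?_
    obtain ⟨k1, k2, k3⟩ := hB.out x hx.2
    rw [k1, k2, k3]
    ring
  have e2 : ∫ x in D, (indicator A fun x => pd 1 (cP c v a α γ) x * pd 1 ψ x +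
        pd Complex.I (cP c v a α γ) x * pd Complex.I ψ x - L * (cP c v a α γ x * ψ x)) x =
      ∫ x in A, (pd 1 (cP c v a α γ) x * pd 1 ψ x +
        pd Complex.I (cP c v a α γ) x * pd Complex.I ψ x - L * (cP c v a α γ x * ψ x)) := by
    rw [setIntegral_indicator hA.measurableSet, inter_eq_self_of_subset_right hAD]
  rw [e0, e1, g1, e2, g2, g3] at h
  have hT : MemLp (fun x => lap ψ x + L * ψ x) 2 (volume.restrict D) :=
    hψ.lap.memLp.1.add (hψ.memLp.1.const_mul L)
  have j1 : IntegrableOn (fun x => b x * (lap ψ x + L * ψ x)) A :=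
    IntegrableOn.mono_set (Nd2_int hB.mem hT) hAD
  have j2 : IntegrableOn (fun x => cP c v a α γ x * (lap ψ x + L * ψ x)) A := by
    apply intOn hbA
    exact hPc.mul (hψ.lap.cont.add (continuous_const.mul hψ.cont)).continuousOn
  have e3 : ∫ x in A, (b x + cP c v a α γ x) * (lap ψ x + L * ψ x) =
      (∫ x in A, b x * (lap ψ x + L * ψ x)) + ∫ x in A, cP c v a α γ x * (lap ψ x + L * ψ x) := by
    rw [← integral_add j1 j2]
    refine integral_congr_ae (Eventually.of_forall fun x => ?_)
    show (b x + cP c v a α γ x) * (lap ψ x + L * ψ x) = b x * (lap ψ x + L * ψ x) +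
      cP c v a α γ x * (lap ψ x + L * ψ x)
    ring
  rw [e3]
  linarith

/-- If the total function is orthogonal for the form to the test functions then the outer part vanishes, and the inner
part vanishes almost everywhere. -/
theorem nd_outer {m : ℕ} {l c : Fin (m + 1) → ℝ} (hl : ∀ i, 0 < l i) (hlm : StrictMono l) {D A : Set ℂ}
    (hD : IsOpen D) (hb : Bornology.IsBounded D) (hDc : IsConnected D) {v : Fin (m + 1) → ℂ → ℝ}
    (hv : ∀ i, Sc (l i) (c i) D A (v i)) (hne : ∀ i, ∃ x ∈ D, v i x ≠ 0)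
    (hq : ∀ i, Hq D (v i) (pd 1 (v i)) (pd Complex.I (v i))) {L : ℝ}
    (hL : L = l (Fin.last m)) {b b₁ b₂ : ℂ → ℝ} (hB : Bs L (l 0) D A b b₁ b₂) {a e : Fin (m + 1) → ℝ}
    {α : Fin (m + 1) → ℂ} {γ : Fin (m + 1) → ℝ}
    (h : ∀ ψ : ℂ → ℝ, Tst D ψ → ∫ x in D, ((b₁ x + indicator A (pd 1 (cP c v a α γ)) x + pd 1 (cV v e) x) * pd 1 ψ x +
      (b₂ x + indicator A (pd Complex.I (cP c v a α γ)) x + pd Complex.I (cV v e) x) * pd Complex.I ψ x -
      L * ((b x + indicator A (cP c v a α γ) x + cV v e x) * ψ x)) = 0) :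
    (∀ i, i ≠ Fin.last m → e i = 0) ∧ ∀ᵐ x ∂(volume.restrict A), b x + cP c v a α γ x = 0 := by
  have hz := fun i => (hv i).hz
  have hA : IsOpen A := (hv 0).isOpen
  have hcA : closure A ⊆ D := (hv 0).sub
  have hAD : A ⊆ D := subset_closure.trans hcA
  have hbA : Bornology.IsBounded A := hb.subset hAD
  have hPz := cP_pz hD hv a α γ
  have hfin : IsFiniteMeasure (volume.restrict D) :=
    ⟨by rw [Measure.restrict_apply_univ]; exact hb.measure_lt_top⟩
  have key := fun (ψ : ℂ → ℝ) (hψ : Tst D ψ) => Nd2_key hD hb hv hq hB hψ (h ψ hψ)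
  set U : Set ℂ := D \ closure A with hU
  have hUo : IsOpen U := hD.sdiff isClosed_closure
  have hUD : U ⊆ D := diff_subset
  have hUn : U.Nonempty := by
    rw [nonempty_iff_ne_empty]
    intro h0
    have h1 : D ⊆ closure A := diff_eq_empty.1 h0
    have h2 : D = closure A := Subset.antisymm h1 hcA
    have h3 : IsClopen D := ⟨by rw [h2]; exact isClosed_closure, hD⟩
    rcases isClopen_iff.1 h3 with h4 | h4
    · exact hDc.nonempty.ne_empty h4
    · rw [h4] at hb
      have h5 := hb.isCompact_closure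
      rw [closure_univ] at h5
      exact NoncompactSpace.noncompact_univ h5
  have hWint : IntegrableOn (fun x => ∑ i, (L - l i) * (e i * v i x)) D := by
    refine integrable_finsetSum _ fun i _ => ?_
    exact (((hq i).mem.integrable one_le_two).const_mul (e i)).const_mul (L - l i)
  have hWc : ContinuousOn (fun x => ∑ i, (L - l i) * (e i * v i x)) U := by
    refine continuousOn_finsetSum _ fun i _ => ?_
    exact continuousOn_const.mul (continuousOn_const.mul ((hz i).smooth.continuousOn.mono hUD))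
  have hW0 : ∀ x ∈ U, ∑ i, (L - l i) * (e i * v i x) = 0 := by
    refine Nd2_zero hUo hUD hWint hWc fun ψ hψ => ?_
    have h1 := key ψ (hψ.mono hUD)
    have h2 : ∫ x in A, (b x + cP c v a α γ x) * (lap ψ x + L * ψ x) = 0 := by
      rw [setIntegral_congr_fun hA.measurableSet (g := fun _ => (0 : ℝ)) ?_]
      · exact integral_zero _ _
      · intro x hx
        have h3 : x ∉ U := fun h4 => h4.2 (subset_closure hx)
        show (b x + cP c v a α γ x) * (lap ψ x + L * ψ x) = 0
        rw [hψ.zero_of_notMem h3, hψ.lap.zero_of_notMem h3]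
        ring
    rw [h2, zero_add] at h1
    exact h1
  have hce : ∀ i, (L - l i) * e i = 0 := by
    intro i
    by_contra h0
    have h1 : ∀ i, Hz (l i) U (fun x => (L - l i) * (e i * v i x)) := fun i =>
      Nd2_mul hUo (Nd2_mul hUo ((hz i).mono hUD) (e i)) (L - l i)
    have h2 := sep hUo hlm.injective h1 hW0 i
    have h3 : ∀ x ∈ U ∩ D, v i x = 0 := by
      intro x hx
      have h4 := h2 x hx.1
      rw [← mul_assoc] at h4
      exact (mul_eq_zero.1 h4).resolve_left h0
    obtain ⟨x, hx, hx0⟩ := hne i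
    refine hx0 (uc (hl i) hD hDc.isPreconnected (hz i) hUo ?_ h3 hx)
    rw [inter_eq_self_of_subset_left hUD]
    exact hUn
  refine ⟨?_, ?_⟩
  · intro i hi
    have h1 : l i < l (Fin.last m) := hlm (lt_of_le_of_ne (Fin.le_last i) hi)
    have h2 : L - l i ≠ 0 := by
      rw [hL]
      exact (sub_pos.2 h1).ne'
    exact (mul_eq_zero.1 (hce i)).resolve_left h2
  · have hWz : ∀ x, ∑ i, (L - l i) * (e i * v i x) = 0 := by
      intro x
      refine Finset.sum_eq_zero fun i _ => ?_
      rw [← mul_assoc, hce i, zero_mul]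
    have hPc : ContinuousOn (cP c v a α γ) (closure A) := hPz.smooth.continuousOn.mono hcA
    have hPi : Integrable (indicator A (cP c v a α γ)) :=
      (integrable_indicator_iff hA.measurableSet).2 (intOn hbA hPc)
    have hbi : Integrable b := by
      have h1 : IntegrableOn b D := hB.mem.integrable one_le_two
      exact h1.integrable_of_forall_notMem_eq_zero fun x hx => (hB.out x fun h2 => hx (hAD h2)).1
    have hL0 : 0 < L := by
      rw [hL]
      exact hl _
    have hz0 := weak_zero (b := fun x => b x + indicator A (cP c v a α γ) x) hL0 hD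
      hbA.isCompact_closure hcA (hbi.add hPi) (fun x hx => by
        have h1 : x ∉ A := fun h2 => hx (subset_closure h2)
        rw [(hB.out x h1).1, indicator_of_notMem h1, add_zero]) (fun ψ hψ => by
        have h1 := key ψ hψ
        have h2 : ∫ x in D, (∑ i, (L - l i) * (e i * v i x)) * ψ x = 0 := by
          simp only [hWz, zero_mul, integral_zero]
        rw [h2, add_zero] at h1
        rw [← h1, ← setIntegral_eq_integral_of_forall_compl_eq_zero (s := A)]
        · refine setIntegral_congr_fun hA.measurableSet fun x hx => ?_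
          show (b x + indicator A (cP c v a α γ) x) * (lap ψ x + L * ψ x) =
            (b x + cP c v a α γ x) * (lap ψ x + L * ψ x)
          rw [indicator_of_mem hx]
        · intro x hx
          rw [(hB.out x hx).1, indicator_of_notMem hx, add_zero, zero_mul])
    filter_upwards [ae_restrict_of_ae hz0, ae_restrict_mem hA.measurableSet] with x hx hxA
    rwa [indicator_of_mem hxA] at hx

end DrumL
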