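import Pool.Agent.Lib.MP_d92c84_anF.Ng1

/-!
# The form of the total function
-/

set_option autoImplicit false
set_option linter.unusedSectionVars false

namespace DrumL

open MeasureTheory Set Filter Topology
open scoped ContDiff

private theorem Ng2_mem {A : Set ℂ} (hb : Bornology.IsBounded A) {f : ℂ → ℝ} (hf : ContinuousOn f (closure A)) :
    MemLp f 2 (volume.restrict A) :=
  (memLp_two_iff_integrable_sq (intOn hb hf).aestronglyMeasurable).2 (intOn hb (hf.pow 2))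

private theorem Ng2_pdc {D : Set ℂ} (hD : IsOpen D) {f : ℂ → ℝ} (hf : ContDiffOn ℝ ∞ f D) (v : ℂ) :
    ContinuousOn (pd v f) D :=
  (contDiffOn_pd hD (m := ((0 : ℕ∞) : WithTop ℕ∞)) hf (by exact_mod_cast le_top) v).continuousOn

private theorem Ng2_int {μ : Measure ℂ} {f g : ℂ → ℝ} (hf : MemLp f 2 μ) (hg : MemLp g 2 μ) :
    Integrable (fun x => f x * g x) μ := hf.integrable_mul hg

private theorem Ng2_form {μ : Measure ℂ} {f f₁ f₂ g g₁ g₂ : ℂ → ℝ} (L : ℝ) (hf : MemLp f 2 μ) (hf₁ : MemLp f₁ 2 μ)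
    (hf₂ : MemLp f₂ 2 μ) (hg : MemLp g 2 μ) (hg₁ : MemLp g₁ 2 μ) (hg₂ : MemLp g₂ 2 μ) :
    Integrable (fun x => f₁ x * g₁ x + f₂ x * g₂ x - L * (f x * g x)) μ :=
  ((Ng2_int hf₁ hg₁).add (Ng2_int hf₂ hg₂)).sub ((Ng2_int hf hg).const_mul L)

private theorem Ng2_add4 {μ : Measure ℂ} {f₁ f₂ f₃ f₄ : ℂ → ℝ} (h₁ : Integrable f₁ μ) (h₂ : Integrable f₂ μ)
    (h₃ : Integrable f₃ μ) (h₄ : Integrable f₄ μ) : Integrable (fun x => f₁ x + f₂ x + f₃ x + f₄ x) μ ∧
    ∫ x, (f₁ x + f₂ x + f₃ x + f₄ x) ∂μ = (∫ x, f₁ x ∂μ) + (∫ x, f₂ x ∂μ) + (∫ x, f₃ x ∂μ) + ∫ x, f₄ x ∂μ := by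
  have a1 : Integrable (fun x => f₁ x + f₂ x) μ := h₁.add h₂
  have a2 : Integrable (fun x => f₁ x + f₂ x + f₃ x) μ := a1.add h₃
  exact ⟨a2.add h₄, by rw [integral_add a2 h₄, integral_add a1 h₃, integral_add h₁ h₂]⟩

private theorem Ng2_split {D A : Set ℂ} (hAm : MeasurableSet A) (hDm : MeasurableSet D) (hAD : A ⊆ D)
    {b b₁ b₂ P P₁ P₂ V V₁ V₂ : ℂ → ℝ} (L : ℝ)
    (hb : MemLp b 2 (volume.restrict A)) (hb₁ : MemLp b₁ 2 (volume.restrict A)) (hb₂ : MemLp b₂ 2 (volume.restrict A))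
    (hP : MemLp P 2 (volume.restrict A)) (hP₁ : MemLp P₁ 2 (volume.restrict A)) (hP₂ : MemLp P₂ 2 (volume.restrict A))
    (hV : MemLp V 2 (volume.restrict A)) (hV₁ : MemLp V₁ 2 (volume.restrict A)) (hV₂ : MemLp V₂ 2 (volume.restrict A))
    (hW : Integrable (fun x => V₁ x * V₁ x + V₂ x * V₂ x - L * (V x * V x)) (volume.restrict D))
    (out : ∀ x, x ∉ A → b x = 0 ∧ b₁ x = 0 ∧ b₂ x = 0) :
    ∫ x in D, ((b₁ x + indicator A P₁ x + V₁ x) * (b₁ x + indicator A P₁ x + V₁ x) +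
      (b₂ x + indicator A P₂ x + V₂ x) * (b₂ x + indicator A P₂ x + V₂ x) -
      L * ((b x + indicator A P x + V x) * (b x + indicator A P x + V x))) =
    (∫ x in D, (V₁ x * V₁ x + V₂ x * V₂ x - L * (V x * V x))) +
      ((∫ x in A, (b₁ x * b₁ x + b₂ x * b₂ x - L * (b x * b x))) +
        2 * (∫ x in A, (b₁ x * P₁ x + b₂ x * P₂ x - L * (b x * P x))) +
        2 * (∫ x in A, (b₁ x * V₁ x + b₂ x * V₂ x - L * (b x * V x))) +
        (∫ x in A, (P₁ x * P₁ x + P₂ x * P₂ x - L * (P x * P x))) +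
        2 * (∫ x in A, (P₁ x * V₁ x + P₂ x * V₂ x - L * (P x * V x)))) := by
  have i1 := Ng2_form L hb hb₁ hb₂ hb hb₁ hb₂
  have i2 := (Ng2_form L hb hb₁ hb₂ hP hP₁ hP₂).const_mul 2
  have i3 := (Ng2_form L hb hb₁ hb₂ hV hV₁ hV₂).const_mul 2
  have i4 := Ng2_form L hP hP₁ hP₂ hP hP₁ hP₂
  have i5 := (Ng2_form L hP hP₁ hP₂ hV hV₁ hV₂).const_mul 2
  set J : ℂ → ℝ := fun x => (b₁ x * b₁ x + b₂ x * b₂ x - L * (b x * b x)) +
    2 * (b₁ x * P₁ x + b₂ x * P₂ x - L * (b x * P x)) + 2 * (b₁ x * V₁ x + b₂ x * V₂ x - L * (b x * V x)) +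
    (P₁ x * P₁ x + P₂ x * P₂ x - L * (P x * P x)) + 2 * (P₁ x * V₁ x + P₂ x * V₂ x - L * (P x * V x)) with hJ
  have i14 := Ng2_add4 i1 i2 i3 i4
  have hJi : Integrable J (volume.restrict A) := i14.1.add i5
  have hJ0 : ∫ x in A, J x = (∫ x in A, (b₁ x * b₁ x + b₂ x * b₂ x - L * (b x * b x))) +
        2 * (∫ x in A, (b₁ x * P₁ x + b₂ x * P₂ x - L * (b x * P x))) +
        2 * (∫ x in A, (b₁ x * V₁ x + b₂ x * V₂ x - L * (b x * V x))) +
        (∫ x in A, (P₁ x * P₁ x + P₂ x * P₂ x - L * (P x * P x))) +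
        2 * (∫ x in A, (P₁ x * V₁ x + P₂ x * V₂ x - L * (P x * V x))) := by
    rw [hJ, integral_add i14.1 i5, i14.2, integral_const_mul, integral_const_mul, integral_const_mul]
  have hE : ∀ x ∈ D, ((b₁ x + indicator A P₁ x + V₁ x) * (b₁ x + indicator A P₁ x + V₁ x) +
      (b₂ x + indicator A P₂ x + V₂ x) * (b₂ x + indicator A P₂ x + V₂ x) -
      L * ((b x + indicator A P x + V x) * (b x + indicator A P x + V x))) =
      (V₁ x * V₁ x + V₂ x * V₂ x - L * (V x * V x)) + indicator A J x := by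
    intro x _
    by_cases hx : x ∈ A
    · rw [indicator_of_mem hx, indicator_of_mem hx, indicator_of_mem hx, indicator_of_mem hx, hJ]
      ring
    · obtain ⟨h0, h1, h2⟩ := out x hx
      rw [indicator_of_notMem hx, indicator_of_notMem hx, indicator_of_notMem hx, indicator_of_notMem hx, h0, h1, h2]
      ring
  have hJi' : Integrable (indicator A J) (volume.restrict D) :=
    ((integrable_indicator_iff hAm).2 hJi).restrict
  rw [setIntegral_congr_fun hDm hE, integral_add hW hJi', setIntegral_indicator hAm, inter_eq_right.2 hAD, hJ0]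

/-- The form of the total function is nonpositive. -/
theorem total_neg {m : ℕ} {l c : Fin (m + 1) → ℝ} (hl : ∀ i, 0 < l i) (hlm : StrictMono l) {D A : Set ℂ}
    (hD : IsOpen D) (hb : Bornology.IsBounded D) {v : Fin (m + 1) → ℂ → ℝ} (hv : ∀ i, Sc (l i) (c i) D A (v i))
    (hc : ∀ i, c i ≠ 0) (hq : ∀ i, Hq D (v i) (pd 1 (v i)) (pd Complex.I (v i))) {L : ℝ} (hL : L = l (Fin.last m))
    {b b₁ b₂ : ℂ → ℝ} (hB : Bs L (l 0) D A b b₁ b₂) (hB0 : ∫ x in A, b x = 0) (a e : Fin (m + 1) → ℝ)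
    (α : Fin (m + 1) → ℂ) (γ : Fin (m + 1) → ℝ) :
    ∫ x in D, ((b₁ x + indicator A (pd 1 (cP c v a α γ)) x + pd 1 (cV v e) x) *
        (b₁ x + indicator A (pd 1 (cP c v a α γ)) x + pd 1 (cV v e) x) +
      (b₂ x + indicator A (pd Complex.I (cP c v a α γ)) x + pd Complex.I (cV v e) x) *
        (b₂ x + indicator A (pd Complex.I (cP c v a α γ)) x + pd Complex.I (cV v e) x) -
      L * ((b x + indicator A (cP c v a α γ) x + cV v e x) * (b x + indicator A (cP c v a α γ) x + cV v e x))) ≤ 0 := by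
  have hAo : IsOpen A := (hv 0).isOpen
  have hcA : closure A ⊆ D := (hv 0).sub
  have hAD : A ⊆ D := subset_closure.trans hcA
  have hAb : Bornology.IsBounded A := hb.subset hAD
  have hz : ∀ i, Hz (l i) D (v i) := fun i => (hv i).hz
  have hPz : Pz D A (cP c v a α γ) := cP_pz hD hv a α γ
  have hVs : ContDiffOn ℝ ∞ (cV v e) D := cV_smooth hz e
  have hVq := cV_hq hD hz hq e
  have hmem : ∀ {f : ℂ → ℝ}, ContinuousOn f D → MemLp f 2 (volume.restrict A) := fun hf => Ng2_mem hAb (hf.mono hcA)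
  have hmono : ∀ {f : ℂ → ℝ}, MemLp f 2 (volume.restrict D) → MemLp f 2 (volume.restrict A) := fun hf =>
    hf.mono_measure (Measure.restrict_mono hAD le_rfl)
  have hbA := hmono hB.mem
  have hvc : ∀ i, ContinuousOn (v i) D := fun i => (hz i).smooth.continuousOn
  have hkc : ∀ i, ContinuousOn (kd (α i) (γ i) (v i)) D := fun i => (hz_kd hD (hz i) (α i) (γ i)).smooth.continuousOn
  -- the splitting
  rw [Ng2_split hAo.measurableSet hD.measurableSet hAD L hbA (hmono hB.mem₁) (hmono hB.mem₂)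
    (hmem hPz.smooth.continuousOn) (hmem (Ng2_pdc hD hPz.smooth 1)) (hmem (Ng2_pdc hD hPz.smooth Complex.I))
    (hmem hVs.continuousOn) (hmem (Ng2_pdc hD hVs 1)) (hmem (Ng2_pdc hD hVs Complex.I))
    (Ng2_form L hVq.mem hVq.mem₁ hVq.mem₂ hVq.mem hVq.mem₁ hVq.mem₂) hB.out,
    cV_form hlm.injective hD hz hq e L, hB.form, hB.green _ hPz.smooth, hB.green _ hVs, hPz.green hD hb hPz.smooth L,
    hPz.green hD hb hVs L]
  -- the functions on `A`
  set C : ℝ := ∑ i, a i * c i with hC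
  set R₁ : ℂ → ℝ := fun x => ∑ i, (L - l i) * (a i * v i x + kd (α i) (γ i) (v i) x) with hR₁
  set R₂ : ℂ → ℝ := fun x => ∑ i, (L - l i) * (e i * v i x) with hR₂
  set Y : Fin (m + 1) → ℂ → ℝ := fun i x => (a i + e i) * v i x + kd (α i) (γ i) (v i) x with hY
  have hR₁c : ContinuousOn R₁ D := continuousOn_finsetSum _ fun i _ =>
    continuousOn_const.mul ((continuousOn_const.mul (hvc i)).add (hkc i))
  have hR₂c : ContinuousOn R₂ D := continuousOn_finsetSum _ fun i _ =>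
    continuousOn_const.mul (continuousOn_const.mul (hvc i))
  have hYc : ∀ i, ContinuousOn (Y i) D := fun i => (continuousOn_const.mul (hvc i)).add (hkc i)
  have hbi : Integrable b (volume.restrict A) := by
    have h1 := Ng2_int hbA (hmem (f := fun _ => (1 : ℝ)) continuousOn_const)
    simpa using h1
  have hXP : ∫ x in A, b x * (lap (cP c v a α γ) x + L * cP c v a α γ x) = ∫ x in A, b x * R₁ x := by
    have h1 : ∀ x ∈ A, b x * (lap (cP c v a α γ) x + L * cP c v a α γ x) = b x * R₁ x - L * C * b x := by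
      intro x hx
      rw [cP_lap hD hz a α γ L (hAD hx), hR₁, hC]
      ring
    rw [setIntegral_congr_fun hAo.measurableSet h1, integral_sub (Ng2_int hbA (hmem hR₁c)) (hbi.const_mul _),
      integral_const_mul, hB0]
    ring
  have hXV : ∫ x in A, b x * (lap (cV v e) x + L * cV v e x) = ∫ x in A, b x * R₂ x := by
    have h1 : ∀ x ∈ A, b x * (lap (cV v e) x + L * cV v e x) = b x * R₂ x := by
      intro x hx
      rw [cV_lap hD hz e L (hAD hx)]
    exact setIntegral_congr_fun hAo.measurableSet h1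
  have hXY : ∫ x in A, b x * ∑ i, (L - l i) * Y i x = (∫ x in A, b x * R₁ x) + ∫ x in A, b x * R₂ x := by
    rw [← integral_add (Ng2_int hbA (hmem hR₁c)) (Ng2_int hbA (hmem hR₂c))]
    refine integral_congr_ae (Eventually.of_forall fun x => ?_)
    have h1 : ∑ i, (L - l i) * Y i x = R₁ x + R₂ x := by
      rw [hR₁, hR₂, ← Finset.sum_add_distrib]
      refine Finset.sum_congr rfl fun i _ => ?_
      rw [hY]
      ring
    simp only
    rw [h1, mul_add]
  have hYo : ∀ i j, i ≠ j → ∫ x in A, Y i x * Y j x = 0 := by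
    intro i j hij
    have hne : l i ≠ l j := fun h => hij (hlm.injective h)
    have j1 := Ng2_int (hmem (hvc i)) (hmem (hvc j))
    have j2 := Ng2_int (hmem (hvc i)) (hmem (hkc j))
    have j3 := Ng2_int (hmem (hvc j)) (hmem (hkc i))
    have j4 := Ng2_int (hmem (hkc i)) (hmem (hkc j))
    have h1 : ∀ x, Y i x * Y j x = (a i + e i) * (a j + e j) * (v i x * v j x) +
        (a i + e i) * (v i x * kd (α j) (γ j) (v j) x) + (a j + e j) * (v j x * kd (α i) (γ i) (v i) x) +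
        kd (α i) (γ i) (v i) x * kd (α j) (γ j) (v j) x := by
      intro x
      rw [hY]
      ring
    simp only [h1]
    rw [(Ng2_add4 (j1.const_mul _) (j2.const_mul _) (j3.const_mul _) j4).2, integral_const_mul, integral_const_mul,
      integral_const_mul,
      (hv i).orth (hl i) (hl j) hne hD hb (hv j), (hv i).orth_kd (hl i) (hl j) hne hD hb (hv j) (hc j),
      (hv j).orth_kd (hl j) (hl i) hne.symm hD hb (hv i) (hc i), (hv i).kd_kd hne hD hb (hv j)]
    ring
  have hW : ∀ i, 0 ≤ L - l i := by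
    intro i
    have h1 := hlm.monotone (Fin.le_last i)
    rw [← hL] at h1
    linarith
  have hW0 : ∀ i, L - l i ≤ L - l 0 := by
    intro i
    have h1 := hlm.monotone (Fin.zero_le i)
    linarith
  have halg := alg_int (μ := volume.restrict A) (W := fun i => L - l i) hW hW0 hbA (fun i => hmem (hYc i)) hYo
  have hin := inner_part hl hlm hD hb hv hc a e α γ hL
  have hED : ∑ i, (L - l i) * (e i ^ 2 * ∫ x in A, v i x * v i x) ≤
      ∑ i, (L - l i) * (e i ^ 2 * ∫ x in D, v i x * v i x) := by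
    refine Finset.sum_le_sum fun i _ => ?_
    refine mul_le_mul_of_nonneg_left (mul_le_mul_of_nonneg_left ?_ (sq_nonneg _)) (hW i)
    exact setIntegral_mono_set (Ng2_int (hq i).mem (hq i).mem) (Eventually.of_forall fun x => mul_self_nonneg _)
      hAD.eventuallyLE
  rw [hXP, hXV]
  rw [hXY] at halg
  linarith

end DrumL
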