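import Pool.Agent.Lib.MP_d92c84_anF.Ass
import Pool.Agent.Lib.MP_d92c84_anF.Blw
import Pool.Agent.Lib.MP_d92c84_anF.Bs3
import Pool.Agent.Lib.MP_d92c84_anF.Ng2
import Pool.Agent.Lib.MP_d92c84_anF.Nd1
import Pool.Agent.Lib.MP_d92c84_anF.Nd2

/-!
# Five test functions for every frequency
-/

set_option autoImplicit false

namespace DrumL

open MeasureTheory Set Filter Topology
open scoped ContDiff Real

/-- The index set of the triples. -/
abbrev As3_I (m : ℕ) : Type := Fin 5 ⊕ ((Fin m × Fin 3) ⊕ (Fin (m + 1) ⊕ Fin m))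

/-- The three Killing derivatives of a function. -/
noncomputable def As3_K (p : ℂ) (u : ℂ → ℝ) : Fin 3 → ℂ → ℝ :=
  ![kd (-(Complex.I * p)) 1 u, pd 1 u, pd Complex.I u]

/-- The functions, with an operation `T` applied to them (the identity or a derivative). -/
noncomputable def As3_F {m : ℕ} (T : (ℂ → ℝ) → ℂ → ℝ) (A : Fin 3 → Set ℂ) (Ω : Set ℂ) (p : ℂ) (c : Fin (m + 1) → ℝ)
    (u : Fin (m + 1) → ℂ → ℝ) : As3_I m → ℂ → ℝ
  | Sum.inl j => indicator (Ass_S A Ω j) (T (Ass_F p (u 0) j))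
  | Sum.inr (Sum.inl q) => indicator Ω (T (As3_K p (u q.1.succ) q.2))
  | Sum.inr (Sum.inr (Sum.inl i)) => indicator Ω (T fun x => u i x - c i)
  | Sum.inr (Sum.inr (Sum.inr i)) => T (u i.castSucc)

/-- The coefficients of the pieces. -/
def As3_b {m : ℕ} (a : As3_I m → ℝ) (j : Fin 5) : ℝ := a (Sum.inl j)

/-- The coefficients of the functions `u i - c i`. -/
def As3_a {m : ℕ} (a : As3_I m → ℝ) (i : Fin (m + 1)) : ℝ := a (Sum.inr (Sum.inr (Sum.inl i)))

/-- The coefficients of the functions `u i` in `D`. -/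
def As3_e {m : ℕ} (a : As3_I m → ℝ) : Fin (m + 1) → ℝ :=
  Fin.snoc (α := fun _ => ℝ) (fun i : Fin m => a (Sum.inr (Sum.inr (Sum.inr i)))) 0

/-- The rotational part of the Killing fields. -/
def As3_g {m : ℕ} (a : As3_I m → ℝ) (β₀ : ℝ) : Fin (m + 1) → ℝ :=
  Fin.cons (α := fun _ => ℝ) β₀ fun i : Fin m => a (Sum.inr (Sum.inl (i, 0)))

/-- The translational part of the Killing fields. -/
noncomputable def As3_al {m : ℕ} (a : As3_I m → ℝ) (p : ℂ) (α₀ : ℂ) : Fin (m + 1) → ℂ :=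
  Fin.cons (α := fun _ => ℂ) α₀ fun i : Fin m => -((a (Sum.inr (Sum.inl (i, 0))) : ℂ) * Complex.I * p) +
    (a (Sum.inr (Sum.inl (i, 1))) : ℂ) + (a (Sum.inr (Sum.inl (i, 2))) : ℂ) * Complex.I

/-- The sum over the index set. -/
theorem As3_sum {m : ℕ} (f : As3_I m → ℝ) : ∑ k, f k = (∑ j, f (Sum.inl j)) +
    ((∑ i : Fin m, (f (Sum.inr (Sum.inl (i, 0))) + f (Sum.inr (Sum.inl (i, 1))) + f (Sum.inr (Sum.inl (i, 2))))) +
      ((∑ i : Fin (m + 1), f (Sum.inr (Sum.inr (Sum.inl i)))) + ∑ i : Fin m, f (Sum.inr (Sum.inr (Sum.inr i))))) := by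
  rw [Fintype.sum_sum_type, Fintype.sum_sum_type, Fintype.sum_sum_type, Fintype.sum_prod_type]
  simp only [Fin.sum_univ_three]

/-- The Killing derivatives in terms of the three. -/
theorem As3_kd {m : ℕ} (a : As3_I m → ℝ) (p : ℂ) (α₀ : ℂ) (β₀ : ℝ) (u : Fin (m + 1) → ℂ → ℝ) (i : Fin m) :
    kd (As3_al a p α₀ i.succ) (As3_g a β₀ i.succ) (u i.succ) = fun x =>
      a (Sum.inr (Sum.inl (i, 0))) * As3_K p (u i.succ) 0 x + a (Sum.inr (Sum.inl (i, 1))) * As3_K p (u i.succ) 1 x +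
        a (Sum.inr (Sum.inl (i, 2))) * As3_K p (u i.succ) 2 x := by
  funext x
  exact (kd_comb (u i.succ) p x (a (Sum.inr (Sum.inl (i, 0)))) (a (Sum.inr (Sum.inl (i, 1))))
    (a (Sum.inr (Sum.inl (i, 2))))).symm

theorem As3_kd_zero (u : ℂ → ℝ) : kd 0 0 u = fun _ => 0 := by
  funext x
  simp [kd, pd]

/-- The Killing derivatives are solutions. -/
theorem As3_hz {l : ℝ} {D : Set ℂ} (hD : IsOpen D) {u : ℂ → ℝ} (hu : Hz l D u) (p : ℂ) (e : Fin 3) :
    Hz l D (As3_K p u e) := by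
  fin_cases e
  · exact hz_kd hD hu _ _
  · have h1 := hz_kd hD hu 1 0
    rw [Ass_kd_one] at h1
    exact h1
  · have h1 := hz_kd hD hu Complex.I 0
    rw [Ass_kd_I] at h1
    exact h1

/-- The value of the combination. -/
theorem As3_val {m : ℕ} (A : Fin 3 → Set ℂ) (Ω : Set ℂ) (p : ℂ) (c : Fin (m + 1) → ℝ) (u : Fin (m + 1) → ℂ → ℝ)
    (a : As3_I m → ℝ) (x : ℂ) :
    ∑ k, a k * As3_F (fun f => f) A Ω p c u k x =
      (∑ j, As3_b a j * indicator (Ass_S A Ω j) (Ass_F p (u 0) j) x) +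
        indicator Ω (cP c u (As3_a a) (As3_al a p 0) (As3_g a 0)) x + cV u (As3_e a) x := by
  rw [As3_sum]
  have h3 : cV u (As3_e a) x = ∑ i : Fin m, a (Sum.inr (Sum.inr (Sum.inr i))) * u i.castSucc x := by
    unfold cV As3_e
    rw [Fin.sum_univ_castSucc]
    simp only [Fin.snoc_castSucc, Fin.snoc_last, zero_mul, add_zero]
  have h2 : indicator Ω (cP c u (As3_a a) (As3_al a p 0) (As3_g a 0)) x =
      (∑ i : Fin m, (a (Sum.inr (Sum.inl (i, 0))) * indicator Ω (As3_K p (u i.succ) 0) x +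
        a (Sum.inr (Sum.inl (i, 1))) * indicator Ω (As3_K p (u i.succ) 1) x +
        a (Sum.inr (Sum.inl (i, 2))) * indicator Ω (As3_K p (u i.succ) 2) x)) +
      ∑ i : Fin (m + 1), a (Sum.inr (Sum.inr (Sum.inl i))) * indicator Ω (fun x => u i x - c i) x := by
    by_cases hx : x ∈ Ω
    · simp only [indicator_of_mem hx]
      unfold cP
      rw [Finset.sum_add_distrib, add_comm, Fin.sum_univ_succ (fun i => kd (As3_al a p 0 i) (As3_g a 0 i) (u i) x)]
      have e1 : kd (As3_al a p 0 0) (As3_g a 0 0) (u 0) x = 0 := by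
        show kd 0 0 (u 0) x = 0
        rw [As3_kd_zero]
      rw [e1, zero_add]
      simp only [As3_kd]
      rfl
    · simp only [indicator_of_notMem hx, mul_zero, add_zero, Finset.sum_const_zero]
  rw [h2, h3]
  simp only [As3_F, As3_b]
  ring

/-- The derivatives of the combination. -/
theorem As3_der {m : ℕ} {l : Fin (m + 1) → ℝ} {D : Set ℂ} (hD : IsOpen D) (A : Fin 3 → Set ℂ) (Ω : Set ℂ)
    (p : ℂ) (c : Fin (m + 1) → ℝ) {u : Fin (m + 1) → ℂ → ℝ} (hu : ∀ i, Hz (l i) D (u i))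
    (a : As3_I m → ℝ) (w : ℂ) {x : ℂ} (hx : x ∈ D) :
    ∑ k, a k * As3_F (pd w) A Ω p c u k x =
      (∑ j, As3_b a j * indicator (Ass_S A Ω j) (pd w (Ass_F p (u 0) j)) x) +
        indicator Ω (pd w (cP c u (As3_a a) (As3_al a p 0) (As3_g a 0))) x + pd w (cV u (As3_e a)) x := by
  have hdiff : ∀ {l' : ℝ} {f : ℂ → ℝ}, Hz l' D f → DifferentiableAt ℝ f x := fun hf =>
    (hf.smooth.differentiableOn (by simp)).differentiableAt (hD.mem_nhds hx)
  rw [As3_sum]
  have h3 : pd w (cV u (As3_e a)) x = ∑ i : Fin m, a (Sum.inr (Sum.inr (Sum.inr i))) * pd w (u i.castSucc) x := by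
    rw [cV_pd hD hu _ w hx]
    unfold As3_e
    rw [Fin.sum_univ_castSucc]
    simp only [Fin.snoc_castSucc, Fin.snoc_last, zero_mul, add_zero]
  have h2 : indicator Ω (pd w (cP c u (As3_a a) (As3_al a p 0) (As3_g a 0))) x =
      (∑ i : Fin m, (a (Sum.inr (Sum.inl (i, 0))) * indicator Ω (pd w (As3_K p (u i.succ) 0)) x +
        a (Sum.inr (Sum.inl (i, 1))) * indicator Ω (pd w (As3_K p (u i.succ) 1)) x +
        a (Sum.inr (Sum.inl (i, 2))) * indicator Ω (pd w (As3_K p (u i.succ) 2)) x)) +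
      ∑ i : Fin (m + 1), a (Sum.inr (Sum.inr (Sum.inl i))) * indicator Ω (pd w fun x => u i x - c i) x := by
    by_cases hxΩ : x ∈ Ω
    · simp only [indicator_of_mem hxΩ]
      have e0 : pd w (cP c u (As3_a a) (As3_al a p 0) (As3_g a 0)) x =
          ∑ i, (As3_a a i * pd w (fun x => u i x - c i) x + pd w (kd (As3_al a p 0 i) (As3_g a 0 i) (u i)) x) := by
        have f1 : ∀ i, HasFDerivAt (fun x => As3_a a i * (u i x - c i) + kd (As3_al a p 0 i) (As3_g a 0 i) (u i) x)
            (As3_a a i • fderiv ℝ (fun x => u i x - c i) x + fderiv ℝ (kd (As3_al a p 0 i) (As3_g a 0 i) (u i)) x) x := by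
          intro i
          have g1 : DifferentiableAt ℝ (fun x => u i x - c i) x := (hdiff (hu i)).sub_const _
          exact (g1.hasFDerivAt.const_mul _).add (hdiff (hz_kd hD (hu i) _ _)).hasFDerivAt
        have f2 : HasFDerivAt (cP c u (As3_a a) (As3_al a p 0) (As3_g a 0)) (∑ i, (As3_a a i •
            fderiv ℝ (fun x => u i x - c i) x + fderiv ℝ (kd (As3_al a p 0 i) (As3_g a 0 i) (u i)) x)) x := by
          have f3 := HasFDerivAt.fun_sum (u := Finset.univ) fun i _ => f1 i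
          exact f3
        unfold pd
        rw [f2.fderiv, sum_apply]
        rfl
      rw [e0, Finset.sum_add_distrib, add_comm,
        Fin.sum_univ_succ (fun i => pd w (kd (As3_al a p 0 i) (As3_g a 0 i) (u i)) x)]
      have e1 : pd w (kd (As3_al a p 0 0) (As3_g a 0 0) (u 0)) x = 0 := by
        show pd w (kd 0 0 (u 0)) x = 0
        rw [As3_kd_zero]
        simp [pd]
      rw [e1, zero_add]
      congr 1
      refine Finset.sum_congr rfl fun i _ => ?_
      rw [As3_kd]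
      have d0 := hdiff (As3_hz hD (hu i.succ) p 0)
      have d1 := hdiff (As3_hz hD (hu i.succ) p 1)
      have d2 := hdiff (As3_hz hD (hu i.succ) p 2)
      have k1 := pd_add (f := fun y => a (Sum.inr (Sum.inl (i, 0))) * As3_K p (u i.succ) 0 y +
        a (Sum.inr (Sum.inl (i, 1))) * As3_K p (u i.succ) 1 y) (g := fun y => a (Sum.inr (Sum.inl (i, 2))) *
        As3_K p (u i.succ) 2 y) ((d0.const_mul _).add (d1.const_mul _)) (d2.const_mul _) w
      have k2 := pd_add (f := fun y => a (Sum.inr (Sum.inl (i, 0))) * As3_K p (u i.succ) 0 y)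
        (g := fun y => a (Sum.inr (Sum.inl (i, 1))) * As3_K p (u i.succ) 1 y) (d0.const_mul _) (d1.const_mul _) w
      rw [k1, k2, pd_const_mul d0, pd_const_mul d1, pd_const_mul d2]
    · simp only [indicator_of_notMem hxΩ, mul_zero, add_zero, Finset.sum_const_zero]
  rw [h2, h3]
  simp only [As3_F, As3_b]
  ring

/-- The triples are in the closure of the test functions. -/
theorem As3_hq {m : ℕ} {l c : Fin (m + 1) → ℝ} {D Ω : Set ℂ} (hD : IsOpen D) (hb : Bornology.IsBounded D)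
    {u : Fin (m + 1) → ℂ → ℝ} (hS : ∀ i, Sc (l i) (c i) D Ω (u i))
    (hq : ∀ i, Hq D (u i) (pd 1 (u i)) (pd Complex.I (u i))) {p : ℂ} {A : Fin 3 → Set ℂ} (hA : ∀ i, IsOpen (A i))
    (hAs : ∀ i, A i ⊆ Ω) (hA0 : ∀ i, ∀ x ∈ frontier (A i), kd (-(Complex.I * p)) 1 (u 0) x = 0) (k : As3_I m) :
    Hq D (As3_F (fun f => f) A Ω p c u k) (As3_F (pd 1) A Ω p c u k) (As3_F (pd Complex.I) A Ω p c u k) := by
  have hΩ := (hS 0).isOpen
  have hΩD := (hS 0).sub
  rcases k with j | ⟨i, e⟩ | i | i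
  · exact (Ass_pc hD (hS 0).hz hΩ hΩD (hS 0).crit hA hAs hA0 j).pz.hq hD hb
  · have h0 : ∀ (α : ℂ) (β : ℝ), Pz D Ω (kd α β (u i.succ)) := fun α β => (hS i.succ).pzkd hD α β
    have h1 : Pz D Ω (As3_K p (u i.succ) e) := by
      fin_cases e
      · exact h0 _ _
      · have h1 := h0 1 0
        rw [Ass_kd_one] at h1
        exact h1
      · have h1 := h0 Complex.I 0
        rw [Ass_kd_I] at h1
        exact h1
    exact h1.hq hD hb
  · exact (hS i).pzv.hq hD hb
  · exact hq i.castSucc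

/-- The weights that define the hyperplane. -/
noncomputable def As3_mu {m : ℕ} (A : Fin 3 → Set ℂ) (Ω : Set ℂ) (p : ℂ) (u : Fin (m + 1) → ℂ → ℝ) : As3_I m → ℝ
  | Sum.inl j => ∫ x in Ω, indicator (Ass_S A Ω j) (Ass_F p (u 0) j) x
  | Sum.inr _ => 0

/-- From `m + 1` eigenfunctions with eigenvalues `l 0 < ... < l m` and three nodal pieces of a Killing derivative of the
first one: `5 m + 5` test functions on whose span the form is negative for the last eigenvalue. -/
theorem many3 {m : ℕ} {l c : Fin (m + 1) → ℝ} (hl : ∀ i, 0 < l i) (hlm : StrictMono l) {D Ω : Set ℂ}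
    (hD : IsOpen D) (hb : Bornology.IsBounded D) (hDc : IsConnected D) (hΩn : Ω.Nonempty) {u : Fin (m + 1) → ℂ → ℝ}
    (hS : ∀ i, Sc (l i) (c i) D Ω (u i)) (hne : ∀ i, ∃ x ∈ D, u i x ≠ 0)
    (hq : ∀ i, Hq D (u i) (pd 1 (u i)) (pd Complex.I (u i))) {p : ℂ} {A : Fin 3 → Set ℂ} (hA : ∀ i, IsOpen (A i))
    (hAn : ∀ i, (A i).Nonempty) (hAs : ∀ i, A i ⊆ Ω) (hAd : ∀ i j, i ≠ j → Disjoint (A i) (A j))
    (hA0 : ∀ i, ∀ x ∈ frontier (A i), kd (-(Complex.I * p)) 1 (u 0) x = 0)
    (hnd : ∀ i, ∀ (α : ℂ) (β : ℝ), (∀ x ∈ D, kd α β (u i) x = 0) → α = 0 ∧ β = 0) :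
    Below (l (Fin.last m)) D (5 * m + 5) := by
  have hΩ := (hS 0).isOpen
  have hΩD := (hS 0).sub
  have hΩD' : Ω ⊆ D := subset_closure.trans hΩD
  have hc : ∀ i, c i ≠ 0 := fun i => (hS i).val_ne (hl i) hD hb hDc.isPreconnected hΩn (hne i)
  have hu : ∀ i, Hz (l i) D (u i) := fun i => (hS i).hz
  have hpc := fun j => Ass_pc hD (hS 0).hz hΩ hΩD (hS 0).crit hA hAs hA0 j
  have hBs := fun β : Fin 5 → ℝ => bs_of_pieces (L := l (Fin.last m)) hD hb hΩ hpc (Ass_sub hAs) hΩD'
    (Ass_nest hAs hAd) β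
  have hmu : ∀ a : As3_I m → ℝ, ∑ k, a k * As3_mu A Ω p u k =
      ∫ x in Ω, ∑ j, As3_b a j * indicator (Ass_S A Ω j) (Ass_F p (u 0) j) x := by
    intro a
    rw [As3_sum]
    simp only [As3_mu, mul_zero, add_zero, Finset.sum_const_zero]
    have hi : ∀ j : Fin 5, Integrable (fun x => indicator (Ass_S A Ω j) (Ass_F p (u 0) j) x) (volume.restrict Ω) := by
      intro j
      have h1 := (hpc j).pz.hq hD hb
      have hfin : IsFiniteMeasure (volume.restrict Ω) := ⟨by
        rw [Measure.restrict_apply_univ]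
        exact (hb.subset hΩD').measure_lt_top⟩
      exact (h1.mem.mono_measure (Measure.restrict_mono hΩD' le_rfl)).integrable (by norm_num)
    rw [integral_finsetSum _ fun j _ => (hi j).const_mul _]
    refine Finset.sum_congr rfl fun j _ => ?_
    rw [integral_const_mul]
    rfl
  refine below_of_triples (L := l (Fin.last m)) (fun k => As3_hq hD hb hS hq hA hAs hA0 k) (As3_mu A Ω p u) ?_ ?_ ?_
  · intro a ha
    rw [hmu] at ha
    have h1 := total_neg hl hlm hD hb hS hc hq rfl (hBs (As3_b a)) ha (As3_a a) (As3_e a) (As3_al a p 0) (As3_g a 0)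
    refine le_of_eq_of_le ?_ h1
    refine setIntegral_congr_fun hD.measurableSet fun x hx => ?_
    show (∑ k, a k * As3_F (pd 1) A Ω p c u k x) * (∑ k, a k * As3_F (pd 1) A Ω p c u k x) +
      (∑ k, a k * As3_F (pd Complex.I) A Ω p c u k x) * (∑ k, a k * As3_F (pd Complex.I) A Ω p c u k x) -
      l (Fin.last m) * ((∑ k, a k * As3_F (fun f => f) A Ω p c u k x) * (∑ k, a k * As3_F (fun f => f) A Ω p c u k x)) = _
    rw [As3_der hD A Ω p c hu a 1 hx, As3_der hD A Ω p c hu a Complex.I hx, As3_val]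
  · intro a ha h
    have h1 := nd_outer hl hlm hD hb hDc hS hne hq rfl (hBs (As3_b a)) (a := As3_a a) (e := As3_e a)
      (α := As3_al a p 0) (γ := As3_g a 0) (fun ψ hψ => by
        refine Eq.trans (setIntegral_congr_fun hD.measurableSet fun x hx => ?_) (h ψ hψ)
        show _ = (∑ k, a k * As3_F (pd 1) A Ω p c u k x) * pd 1 ψ x +
          (∑ k, a k * As3_F (pd Complex.I) A Ω p c u k x) * pd Complex.I ψ x -
          l (Fin.last m) * ((∑ k, a k * As3_F (fun f => f) A Ω p c u k x) * ψ x)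
        rw [As3_der hD A Ω p c hu a 1 hx, As3_der hD A Ω p c hu a Complex.I hx, As3_val])
    obtain ⟨he, hae⟩ := h1
    have hd : ∀ i j : Fin 3, i ≠ j → ∀ x ∈ A j, x ∉ A i := fun i j hij x hx hx' =>
      Set.disjoint_left.1 (hAd i j hij) hx' hx
    have hb' : ∀ x ∈ Ω, ∑ j, As3_b a j * indicator (Ass_S A Ω j) (Ass_F p (u 0) j) x =
        a (Sum.inl 0) * indicator (A 0) (kd (-(Complex.I * p)) 1 (u 0)) x +
        a (Sum.inl 1) * indicator (A 1) (kd (-(Complex.I * p)) 1 (u 0)) x +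
        a (Sum.inl 2) * indicator (A 2) (kd (-(Complex.I * p)) 1 (u 0)) x +
        a (Sum.inl 3) * pd 1 (u 0) x + a (Sum.inl 4) * pd Complex.I (u 0) x := by
      intro x hx
      rw [Fin.sum_univ_five]
      have e1 : indicator Ω (pd 1 (u 0)) x = pd 1 (u 0) x := indicator_of_mem hx _
      have e2 : indicator Ω (pd Complex.I (u 0)) x = pd Complex.I (u 0) x := indicator_of_mem hx _
      rw [← e1, ← e2]
      rfl
    have hval : ∀ (j : Fin 3) (β₀ : ℝ), (∀ x ∈ A j, ∑ j, As3_b a j * indicator (Ass_S A Ω j) (Ass_F p (u 0) j) x =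
        β₀ * kd (-(Complex.I * p)) 1 (u 0) x + a (Sum.inl 3) * pd 1 (u 0) x + a (Sum.inl 4) * pd Complex.I (u 0) x) →
        (β₀ = 0 ∧ a (Sum.inl 3) = 0 ∧ a (Sum.inl 4) = 0) ∧ (∀ i, As3_a a i = 0) ∧
          ∀ i : Fin m, a (Sum.inr (Sum.inl (i, 0))) = 0 ∧ a (Sum.inr (Sum.inl (i, 1))) = 0 ∧
            a (Sum.inr (Sum.inl (i, 2))) = 0 := by
      intro j β₀ hj
      obtain ⟨α₀, hα₀⟩ : ∃ α₀ : ℂ, α₀ = -((β₀ : ℂ) * Complex.I * p) + (a (Sum.inl 3) : ℂ) +
        (a (Sum.inl 4) : ℂ) * Complex.I := ⟨_, rfl⟩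
      have hAD : A j ⊆ D := (hAs j).trans hΩD'
      have hsum : ∀ x ∈ A j, (∑ j, As3_b a j * indicator (Ass_S A Ω j) (Ass_F p (u 0) j) x) +
          cP c u (As3_a a) (As3_al a p 0) (As3_g a 0) x = cP c u (As3_a a) (As3_al a p α₀) (As3_g a β₀) x := by
        intro x hx
        rw [hj x hx, kd_comb, ← hα₀]
        unfold cP
        rw [Finset.sum_add_distrib, Finset.sum_add_distrib,
          Fin.sum_univ_succ (fun i => kd (As3_al a p 0 i) (As3_g a 0 i) (u i) x),
          Fin.sum_univ_succ (fun i => kd (As3_al a p α₀ i) (As3_g a β₀ i) (u i) x)]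
        have e1 : kd (As3_al a p 0 0) (As3_g a 0 0) (u 0) x = 0 := by
          show kd 0 0 (u 0) x = 0
          rw [As3_kd_zero]
        have e2 : kd (As3_al a p α₀ 0) (As3_g a β₀ 0) (u 0) x = kd α₀ β₀ (u 0) x := rfl
        rw [e1, e2]
        simp only [As3_kd]
        ring
      have hcont : ContinuousOn (cP c u (As3_a a) (As3_al a p α₀) (As3_g a β₀)) (A j) :=
        (cP_pz hD hS _ _ _).smooth.continuousOn.mono hAD
      have hEq : EqOn (cP c u (As3_a a) (As3_al a p α₀) (As3_g a β₀)) (fun _ => (0 : ℝ)) (A j) := by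
        refine Measure.eqOn_open_of_ae_eq (μ := (volume : Measure ℂ)) ?_ (hA j) hcont continuousOn_const
        have h2 : ∀ᵐ x ∂(volume.restrict (A j)), x ∈ A j := ae_restrict_mem (hA j).measurableSet
        have h3 := ae_restrict_of_ae_restrict_of_subset (hAs j) hae
        filter_upwards [h3, h2] with x hx hxA
        rw [← hsum x hxA]
        exact hx
      have h4 := fun i => nd_inner hl hlm.injective hD hb hDc.isPreconnected hΩn hS hc hnd (hA j) (hAn j) hAD
        (fun x hx => hEq hx) i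
      obtain ⟨-, g2, g3⟩ := h4 0
      have g2' : α₀ = 0 := g2
      have g3' : β₀ = 0 := g3
      refine ⟨⟨g3', ?_⟩, fun i => (h4 i).1, fun i => ?_⟩
      · rw [g2', g3'] at hα₀
        constructor
        · have := congrArg Complex.re hα₀
          simpa using this.symm
        · have := congrArg Complex.im hα₀
          simpa using this.symm
      · obtain ⟨-, k2, k3⟩ := h4 i.succ
        have k3' : a (Sum.inr (Sum.inl (i, 0))) = 0 := k3
        have k2' : -((a (Sum.inr (Sum.inl (i, 0))) : ℂ) * Complex.I * p) +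
          (a (Sum.inr (Sum.inl (i, 1))) : ℂ) + (a (Sum.inr (Sum.inl (i, 2))) : ℂ) * Complex.I = 0 := k2
        rw [k3'] at k2'
        refine ⟨k3', ?_, ?_⟩
        · have := congrArg Complex.re k2'
          simpa using this
        · have := congrArg Complex.im k2'
          simpa using this
    have r0 := hval 0 (a (Sum.inl 0)) fun x hx => by
      rw [hb' x (hAs 0 hx), indicator_of_mem hx, indicator_of_notMem (hd 1 0 (by decide) x hx),
        indicator_of_notMem (hd 2 0 (by decide) x hx)]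
      ring
    have r1 := hval 1 (a (Sum.inl 1)) fun x hx => by
      rw [hb' x (hAs 1 hx), indicator_of_mem hx, indicator_of_notMem (hd 0 1 (by decide) x hx),
        indicator_of_notMem (hd 2 1 (by decide) x hx)]
      ring
    have r2 := hval 2 (a (Sum.inl 2)) fun x hx => by
      rw [hb' x (hAs 2 hx), indicator_of_mem hx, indicator_of_notMem (hd 0 2 (by decide) x hx),
        indicator_of_notMem (hd 1 2 (by decide) x hx)]
      ring
    funext k
    rcases k with j | ⟨i, e⟩ | i | i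
    · fin_cases j
      · exact r0.1.1
      · exact r1.1.1
      · exact r2.1.1
      · exact r0.1.2.1
      · exact r0.1.2.2
    · fin_cases e
      · exact (r0.2.2 i).1
      · exact (r0.2.2 i).2.1
      · exact (r0.2.2 i).2.2
    · exact r0.2.1 i
    · have h2 := he i.castSucc (Fin.castSucc_lt_last i).ne
      have h3 : As3_e a i.castSucc = a (Sum.inr (Sum.inr (Sum.inr i))) := by
        unfold As3_e
        rw [Fin.snoc_castSucc]
      rw [h3] at h2
      exact h2
  · simp only [Fintype.card_sum, Fintype.card_prod, Fintype.card_fin]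
    omega

end DrumL
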