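import Pool.Agent.Lib.MP_d92c84_anF.Hes

/-!
# Derivatives of solutions along Killing fields are solutions
-/

set_option autoImplicit false

namespace DrumL

open MeasureTheory Set Filter Topology
open scoped ContDiff

private theorem Kia_congr {U : Set ℂ} (hU : IsOpen U) {f g : ℂ → ℝ} (h : ∀ y ∈ U, f y = g y) {x : ℂ} (hx : x ∈ U)
    (v : ℂ) : pd v f x = pd v g x := by
  unfold pd
  have h1 : f =ᶠ[𝓝 x] g := Filter.mem_of_superset (hU.mem_nhds hx) h
  rw [h1.fderiv_eq]

private theorem Kia_a (c β : ℝ) (v x : ℂ) : pd v (fun y => c - β * y.im) x = -(β * v.im) := by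
  have h1 : HasFDerivAt (fun y : ℂ => c - β * y.im) (-(β • Complex.imCLM)) x :=
    ((Complex.imCLM.hasFDerivAt (x := x)).const_mul β).const_sub c
  unfold pd
  rw [h1.fderiv]
  simp

private theorem Kia_b (c β : ℝ) (v x : ℂ) : pd v (fun y => c + β * y.re) x = β * v.re := by
  have h1 : HasFDerivAt (fun y : ℂ => c + β * y.re) (β • Complex.reCLM) x :=
    ((Complex.reCLM.hasFDerivAt (x := x)).const_mul β).const_add c
  unfold pd
  rw [h1.fderiv]
  simp

private theorem Kia_smul (f : ℂ → ℝ) (x : ℂ) (a b : ℝ) :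
    fderiv ℝ f x (a + b * Complex.I) = a * pd 1 f x + b * pd Complex.I f x := by
  have h1 : (a + b * Complex.I : ℂ) = a • (1 : ℂ) + b • Complex.I := by
    rw [Complex.real_smul, Complex.real_smul, mul_one]
  rw [h1, map_add, map_smul, map_smul, smul_eq_mul, smul_eq_mul]
  rfl

private theorem Kia_kd (u : ℂ → ℝ) (α : ℂ) (β : ℝ) :
    kd α β u = fun y => (α.re - β * y.im) * pd 1 u y + (α.im + β * y.re) * pd Complex.I u y := by
  funext y
  unfold kd
  have h1 : α + β * Complex.I * y = ((α.re - β * y.im : ℝ) : ℂ) + ((α.im + β * y.re : ℝ) : ℂ) * Complex.I := by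
    apply Complex.ext
    · simp
      ring
    · simp
  rw [h1]
  exact Kia_smul u y _ _

private theorem Kia_cd_a (c β : ℝ) : ContDiff ℝ ∞ fun y : ℂ => c - β * y.im :=
  contDiff_const.sub (contDiff_const.mul Complex.imCLM.contDiff)

private theorem Kia_cd_b (c β : ℝ) : ContDiff ℝ ∞ fun y : ℂ => c + β * y.re :=
  contDiff_const.add (contDiff_const.mul Complex.reCLM.contDiff)

private theorem Kia_two : (2 : WithTop ℕ∞) ≤ ∞ := WithTop.coe_le_coe.2 (le_top : (2 : ℕ∞) ≤ ⊤)

private theorem Kia_pd_lap {l : ℝ} {U : Set ℂ} (hU : IsOpen U) {u : ℂ → ℝ} (hu : Hz l U u) (v : ℂ) {x : ℂ}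
    (hx : x ∈ U) : pd 1 (pd 1 (pd v u)) x + pd Complex.I (pd Complex.I (pd v u)) x = -l * pd v u x := by
  have hs : ∀ w, ContDiffOn ℝ ∞ (pd w u) U := fun w => contDiffOn_pd hU hu.smooth (by simp) w
  have hs2 : ∀ w w', ContDiffOn ℝ ∞ (pd w' (pd w u)) U := fun w w' => contDiffOn_pd hU (hs w) (by simp) w'
  have hswap : ∀ w, pd w (pd w (pd v u)) x = pd v (pd w (pd w u)) x := by
    intro w
    rw [Kia_congr hU (fun y hy => (hess_trace hU (hu.smooth.of_le Kia_two) hy).2.1 w v) hx w]
    exact (hess_trace hU ((hs w).of_le Kia_two) hx).2.1 w v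
  rw [hswap, hswap, ← pd_add ((hs2 1 1).differentiableOn (by simp) |>.differentiableAt (hU.mem_nhds hx))
    ((hs2 Complex.I Complex.I).differentiableOn (by simp) |>.differentiableAt (hU.mem_nhds hx)),
    ← pd_const_mul (hu.smooth.differentiableOn (by simp) |>.differentiableAt (hU.mem_nhds hx))]
  exact Kia_congr hU (fun y hy => hu.eq y hy) hx v

/-- The derivative of a solution of the Helmholtz equation along a Killing field is a solution. -/
theorem hz_kd {l : ℝ} {U : Set ℂ} (hU : IsOpen U) {u : ℂ → ℝ} (hu : Hz l U u) (α : ℂ) (β : ℝ) :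
    Hz l U (kd α β u) := by
  have hs : ∀ w, ContDiffOn ℝ ∞ (pd w u) U := fun w => contDiffOn_pd hU hu.smooth (by simp) w
  have hs2 : ∀ w w', ContDiffOn ℝ ∞ (pd w' (pd w u)) U := fun w w' => contDiffOn_pd hU (hs w) (by simp) w'
  have hd : ∀ w, ∀ y ∈ U, DifferentiableAt ℝ (pd w u) y := fun w y hy =>
    (hs w).differentiableOn (by simp) |>.differentiableAt (hU.mem_nhds hy)
  have hd2 : ∀ w w', ∀ y ∈ U, DifferentiableAt ℝ (pd w' (pd w u)) y := fun w w' y hy =>
    (hs2 w w').differentiableOn (by simp) |>.differentiableAt (hU.mem_nhds hy)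
  have had : ∀ c y, DifferentiableAt ℝ (fun y : ℂ => c - β * y.im) y := fun c y =>
    (Kia_cd_a c β).differentiable (by simp) y
  have hbd : ∀ c y, DifferentiableAt ℝ (fun y : ℂ => c + β * y.re) y := fun c y =>
    (Kia_cd_b c β).differentiable (by simp) y
  rw [Kia_kd]
  refine ⟨((Kia_cd_a α.re β).contDiffOn.mul (hs 1)).add ((Kia_cd_b α.im β).contDiffOn.mul (hs Complex.I)), ?_⟩
  intro x hx
  -- first derivatives
  have hfirst : ∀ v, ∀ y ∈ U, pd v (fun y => (α.re - β * y.im) * pd 1 u y + (α.im + β * y.re) * pd Complex.I u y) y =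
      (-(β * v.im)) * pd 1 u y + (α.re - β * y.im) * pd v (pd 1 u) y +
        ((β * v.re) * pd Complex.I u y + (α.im + β * y.re) * pd v (pd Complex.I u) y) := by
    intro v y hy
    have e1 : DifferentiableAt ℝ (fun y => (α.re - β * y.im) * pd 1 u y) y := (had _ y).mul (hd 1 y hy)
    have e2 : DifferentiableAt ℝ (fun y => (α.im + β * y.re) * pd Complex.I u y) y :=
      (hbd _ y).mul (hd Complex.I y hy)
    rw [pd_add e1 e2, pd_mul (had _ y) (hd 1 y hy),
      pd_mul (hbd _ y) (hd Complex.I y hy), Kia_a, Kia_b]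
  have hsecond : ∀ v, pd v (pd v (fun y => (α.re - β * y.im) * pd 1 u y + (α.im + β * y.re) * pd Complex.I u y)) x =
      (-(β * v.im)) * pd v (pd 1 u) x + ((-(β * v.im)) * pd v (pd 1 u) x +
        (α.re - β * x.im) * pd v (pd v (pd 1 u)) x) +
        ((β * v.re) * pd v (pd Complex.I u) x + ((β * v.re) * pd v (pd Complex.I u) x +
          (α.im + β * x.re) * pd v (pd v (pd Complex.I u)) x)) := by
    intro v
    rw [Kia_congr hU (hfirst v) hx v]
    have e1 : DifferentiableAt ℝ (fun y => (-(β * v.im)) * pd 1 u y) x := (hd 1 x hx).const_mul _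
    have e2 : DifferentiableAt ℝ (fun y => (α.re - β * y.im) * pd v (pd 1 u) y) x :=
      (had _ x).mul (hd2 1 v x hx)
    have e3 : DifferentiableAt ℝ (fun y => (β * v.re) * pd Complex.I u y) x := (hd Complex.I x hx).const_mul _
    have e4 : DifferentiableAt ℝ (fun y => (α.im + β * y.re) * pd v (pd Complex.I u) y) x :=
      (hbd _ x).mul (hd2 Complex.I v x hx)
    have e12 : DifferentiableAt ℝ (fun y => (-(β * v.im)) * pd 1 u y +
      (α.re - β * y.im) * pd v (pd 1 u) y) x := e1.add e2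
    have e34 : DifferentiableAt ℝ (fun y => (β * v.re) * pd Complex.I u y +
      (α.im + β * y.re) * pd v (pd Complex.I u) y) x := e3.add e4
    rw [pd_add e12 e34, pd_add e1 e2, pd_add e3 e4, pd_const_mul (hd 1 x hx),
      pd_const_mul (hd Complex.I x hx), pd_mul (had _ x) (hd2 1 v x hx), pd_mul (hbd _ x) (hd2 Complex.I v x hx),
      Kia_a, Kia_b]
  have hsym : pd 1 (pd Complex.I u) x = pd Complex.I (pd 1 u) x :=
    (hess_trace hU (hu.smooth.of_le Kia_two) hx).2.1 1 Complex.I
  have h1 := Kia_pd_lap hU hu 1 hx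
  have h2 := Kia_pd_lap hU hu Complex.I hx
  unfold lap
  rw [hsecond, hsecond]
  simp only [Complex.one_im, Complex.one_re, Complex.I_im, Complex.I_re]
  rw [hsym]
  linear_combination (α.re - β * x.im) * h1 + (α.im + β * x.re) * h2

end DrumL
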