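import Pool.Agent.Lib.MP_d92c84_anF.Hes

/-!
# Derivatives along Killing fields
-/

set_option autoImplicit false

namespace DrumL

open MeasureTheory Set Filter Topology
open scoped ContDiff

/-- The derivative along the rotation field about a critical point vanishes at this point together with its derivative. -/
theorem kd_rot {U : Set ℂ} (hU : IsOpen U) {u : ℂ → ℝ} (hu : ContDiffOn ℝ ∞ u U) {p : ℂ} (hp : p ∈ U)
    (hcrit : fderiv ℝ u p = 0) :
    kd (-(Complex.I * p)) 1 u p = 0 ∧ fderiv ℝ (kd (-(Complex.I * p)) 1 u) p = 0 := by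
  have hc : ContDiffAt ℝ ∞ u p := hu.contDiffAt (hU.mem_nhds hp)
  have hc2 : ContDiffAt ℝ 2 u p := hc.of_le (by
    have h : (((2 : ℕ∞) : WithTop ℕ∞)) ≤ ∞ := by exact_mod_cast le_top
    exact h)
  have hd : DifferentiableAt ℝ (fderiv ℝ u) p :=
    (hc2.fderiv_right (m := 1) (by norm_num)).differentiableAt (by norm_num)
  refine ⟨?_, ?_⟩
  · unfold kd pd
    rw [hcrit]
    rfl
  · have hv : DifferentiableAt ℝ (fun x : ℂ => -(Complex.I * p) + ((1 : ℝ) : ℂ) * Complex.I * x) p := by
      fun_prop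
    have h1 := (hd.hasFDerivAt.clm_apply hv.hasFDerivAt).fderiv
    have h2 : kd (-(Complex.I * p)) 1 u = fun x => (fderiv ℝ u x)
        (-(Complex.I * p) + ((1 : ℝ) : ℂ) * Complex.I * x) := by
      funext x
      rfl
    rw [h2, h1, hcrit]
    have h3 : -(Complex.I * p) + ((1 : ℝ) : ℂ) * Complex.I * p = 0 := by
      push_cast
      ring
    rw [h3]
    ext w
    simp

/-- Linearity in the field. -/
theorem kd_comb (u : ℂ → ℝ) (p x : ℂ) (a b d : ℝ) :
    a * kd (-(Complex.I * p)) 1 u x + b * pd 1 u x + d * pd Complex.I u x =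
      kd (-(a * Complex.I * p) + b + d * Complex.I) a u x := by
  unfold kd pd
  have h1 : (-(a * Complex.I * p) + b + d * Complex.I + a * Complex.I * x : ℂ) =
      a • (-(Complex.I * p) + ((1 : ℝ) : ℂ) * Complex.I * x) + b • (1 : ℂ) + d • Complex.I := by
    simp only [Complex.real_smul]
    push_cast
    ring
  rw [h1]
  simp only [map_add (fderiv ℝ u x) (a • _ + _), map_add (fderiv ℝ u x) (a • _), map_smul, smul_eq_mul]

end DrumL
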