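import Mathlib

/-!
# Negative definiteness from a limit of null spaces
-/

set_option autoImplicit false

namespace DrumL

open Set Filter Topology

private theorem Nea_dual {E : Type*} [AddCommGroup E] [Module ℝ E] {n : ℕ} (L : Fin n → E →ₗ[ℝ] ℝ)
    (h3 : ∀ a : Fin n → ℝ, a ≠ 0 → ∃ ψ, ∑ i, a i * L i ψ ≠ 0) :
    ∃ ψ : Fin n → E, ∀ i j, L i (ψ j) = if i = j then -1 else 0 := by
  classical
  have hsurj : LinearMap.range (LinearMap.pi L) = ⊤ := by
    by_contra h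
    obtain ⟨f, hf0, hf⟩ := Submodule.exists_le_ker_of_lt_top _ (lt_top_iff_ne_top.2 h)
    have hfx : ∀ x : Fin n → ℝ, f x = ∑ i, f (Pi.single i 1) * x i := by
      intro x
      have h1 : x = ∑ i, x i • (Pi.single i 1 : Fin n → ℝ) := by
        funext j
        rw [Finset.sum_apply, Finset.sum_eq_single j]
        · rw [Pi.smul_apply, Pi.single_eq_same, smul_eq_mul, mul_one]
        · intro i _ hi
          rw [Pi.smul_apply, Pi.single_eq_of_ne (Ne.symm hi), smul_zero]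
        · intro h
          exact absurd (Finset.mem_univ j) h
      conv_lhs => rw [h1, map_sum]
      refine Finset.sum_congr rfl fun i _ => ?_
      rw [map_smul, smul_eq_mul, mul_comm]
    have ha : (fun i => f (Pi.single i 1)) ≠ 0 := by
      intro h1
      apply hf0
      ext i
      have h2 := congrFun h1 i
      simpa using h2
    obtain ⟨ψ, hψ⟩ := h3 _ ha
    apply hψ
    have h1 : f (LinearMap.pi L ψ) = 0 := LinearMap.mem_ker.1 (hf ⟨ψ, rfl⟩)
    rw [hfx] at h1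
    exact h1
  have h1 : ∀ j : Fin n, ∃ ψ, LinearMap.pi L ψ = fun i => if i = j then (-1 : ℝ) else 0 := by
    intro j
    have h2 : (fun i => if i = j then (-1 : ℝ) else 0) ∈ LinearMap.range (LinearMap.pi L) := by
      rw [hsurj]
      exact Submodule.mem_top
    exact h2
  choose ψ hψ using h1
  exact ⟨ψ, fun i j => congrFun (hψ j) i⟩

private theorem Nea_sum {n : ℕ} (a : Fin n → ℝ) (c : Fin n → Fin n → ℝ) (m : ℝ)
    (hc : ∑ i, ∑ j, |c i j| ≤ m) : |∑ i, ∑ j, a i * a j * c i j| ≤ m * ∑ i, a i ^ 2 := by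
  have hs : 0 ≤ ∑ i, a i ^ 2 := Finset.sum_nonneg fun i _ => sq_nonneg _
  have h1 : ∀ i j, |a i * a j * c i j| ≤ |c i j| * ∑ i, a i ^ 2 := by
    intro i j
    have h2 : |a i| ^ 2 ≤ ∑ i, a i ^ 2 := by
      rw [sq_abs]
      exact Finset.single_le_sum (f := fun i => a i ^ 2) (fun i _ => sq_nonneg _) (Finset.mem_univ i)
    have h3 : |a j| ^ 2 ≤ ∑ i, a i ^ 2 := by
      rw [sq_abs]
      exact Finset.single_le_sum (f := fun i => a i ^ 2) (fun i _ => sq_nonneg _) (Finset.mem_univ j)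
    rw [abs_mul, abs_mul, mul_comm]
    refine mul_le_mul_of_nonneg_left ?_ (abs_nonneg _)
    nlinarith [sq_nonneg (|a i| - |a j|)]
  calc |∑ i, ∑ j, a i * a j * c i j| ≤ ∑ i, |∑ j, a i * a j * c i j| := Finset.abs_sum_le_sum_abs _ _
    _ ≤ ∑ i, ∑ j, |a i * a j * c i j| := Finset.sum_le_sum fun i _ => Finset.abs_sum_le_sum_abs _ _
    _ ≤ ∑ i, ∑ j, |c i j| * ∑ i, a i ^ 2 := Finset.sum_le_sum fun i _ => Finset.sum_le_sum fun j _ => h1 i j
    _ = (∑ i, ∑ j, |c i j|) * ∑ i, a i ^ 2 := by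
      rw [Finset.sum_mul]
      exact Finset.sum_congr rfl fun i _ => (Finset.sum_mul _ _ _).symm
    _ ≤ m * ∑ i, a i ^ 2 := mul_le_mul_of_nonneg_right hc hs

/-- If the form `B` tends to `0` on the vectors `b N i` and the functionals `B (b N i)` tend to linearly
independent functionals, then there are `n` vectors on whose span, apart from `0`, the form is negative. -/
theorem neg_of_limits {E : Type*} [AddCommGroup E] [Module ℝ E] (B : E →ₗ[ℝ] E →ₗ[ℝ] ℝ) (hs : ∀ x y, B x y = B y x)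
    {n : ℕ} (b : ℕ → Fin n → E) (L : Fin n → E →ₗ[ℝ] ℝ)
    (h1 : ∀ i j, Tendsto (fun N => B (b N i) (b N j)) atTop (𝓝 0))
    (h2 : ∀ i ψ, Tendsto (fun N => B (b N i) ψ) atTop (𝓝 (L i ψ)))
    (h3 : ∀ a : Fin n → ℝ, a ≠ 0 → ∃ ψ, ∑ i, a i * L i ψ ≠ 0) :
    ∃ φ : Fin n → E, ∀ a : Fin n → ℝ, a ≠ 0 → B (∑ i, a i • φ i) (∑ i, a i • φ i) < 0 := by
  classical
  obtain ⟨ψ, hψ⟩ := Nea_dual L h3
  obtain ⟨M, hM⟩ : ∃ M : ℝ, M = ∑ i, ∑ j, |B (ψ i) (ψ j)| := ⟨_, rfl⟩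
  have hM0 : 0 ≤ M := by
    rw [hM]
    exact Finset.sum_nonneg fun i _ => Finset.sum_nonneg fun j _ => abs_nonneg _
  obtain ⟨τ, hτ⟩ : ∃ τ : ℝ, τ = 1 / (M + 1) := ⟨_, rfl⟩
  have hτ0 : 0 < τ := by
    rw [hτ]
    positivity
  have hτM : τ * M ≤ 1 := by
    rw [hτ, one_div, inv_mul_le_iff₀ (by linarith)]
    linarith
  obtain ⟨ε, hε⟩ : ∃ ε : ℝ, ε = τ / (2 * ((n : ℝ) + 1) ^ 2) := ⟨_, rfl⟩
  have hε0 : 0 < ε := by
    rw [hε]
    positivity
  have hlim : ∀ i j, Tendsto (fun N => B (b N i + τ • ψ i) (b N j + τ • ψ j)) atTop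
      (𝓝 (-2 * τ * (if i = j then 1 else 0) + τ ^ 2 * B (ψ i) (ψ j))) := by
    intro i j
    have h4 : ∀ N, B (b N i + τ • ψ i) (b N j + τ • ψ j) =
        B (b N i) (b N j) + τ * B (b N i) (ψ j) + τ * B (b N j) (ψ i) + τ ^ 2 * B (ψ i) (ψ j) := by
      intro N
      simp only [map_add, LinearMap.add_apply, map_smul, LinearMap.smul_apply, smul_eq_mul]
      rw [hs (ψ i) (b N j)]
      ring
    simp only [h4]
    have h5 := (((h1 i j).add ((h2 i (ψ j)).const_mul τ)).add ((h2 j (ψ i)).const_mul τ)).add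
      (tendsto_const_nhds (x := τ ^ 2 * B (ψ i) (ψ j)))
    have h6 : 0 + τ * L i (ψ j) + τ * L j (ψ i) + τ ^ 2 * B (ψ i) (ψ j) =
        -2 * τ * (if i = j then 1 else 0) + τ ^ 2 * B (ψ i) (ψ j) := by
      rw [hψ, hψ]
      by_cases h : i = j
      · rw [if_pos h, if_pos h.symm, if_pos h]
        ring
      · rw [if_neg h, if_neg (Ne.symm h), if_neg h]
        ring
    rw [← h6]
    exact h5
  have hev : ∀ᶠ N in atTop, ∀ i j, |B (b N i + τ • ψ i) (b N j + τ • ψ j) -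
      (-2 * τ * (if i = j then 1 else 0) + τ ^ 2 * B (ψ i) (ψ j))| < ε := by
    refine eventually_all.2 fun i => eventually_all.2 fun j => ?_
    have h4 := (Metric.tendsto_nhds.1 (hlim i j)) ε hε0
    simpa only [Real.dist_eq] using h4
  obtain ⟨N, hN⟩ := hev.exists
  refine ⟨fun i => b N i + τ • ψ i, fun a ha => ?_⟩
  have hpos : 0 < ∑ i, a i ^ 2 := by
    obtain ⟨i, hi⟩ := Function.ne_iff.1 ha
    rw [Pi.zero_apply] at hi
    exact lt_of_lt_of_le (by positivity : 0 < a i ^ 2)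
      (Finset.single_le_sum (f := fun i => a i ^ 2) (fun i _ => sq_nonneg _) (Finset.mem_univ i))
  have hexp : B (∑ i, a i • (b N i + τ • ψ i)) (∑ i, a i • (b N i + τ • ψ i)) =
      ∑ i, ∑ j, a i * a j * B (b N i + τ • ψ i) (b N j + τ • ψ j) := by
    have hX : ∀ Y, B (∑ i, a i • (b N i + τ • ψ i)) Y = ∑ i, a i * B (b N i + τ • ψ i) Y := by
      intro Y
      rw [map_sum B, LinearMap.sum_apply]
      refine Finset.sum_congr rfl fun i _ => ?_
      rw [map_smul, LinearMap.smul_apply, smul_eq_mul]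
    rw [hX]
    refine Finset.sum_congr rfl fun i _ => ?_
    rw [map_sum, Finset.mul_sum]
    refine Finset.sum_congr rfl fun j _ => ?_
    rw [map_smul, smul_eq_mul]
    ring
  have hsplit : ∑ i, ∑ j, a i * a j * B (b N i + τ • ψ i) (b N j + τ • ψ j) =
      -2 * τ * ∑ i, a i ^ 2 + τ ^ 2 * ∑ i, ∑ j, a i * a j * B (ψ i) (ψ j) +
        ∑ i, ∑ j, a i * a j * (B (b N i + τ • ψ i) (b N j + τ • ψ j) -
          (-2 * τ * (if i = j then 1 else 0) + τ ^ 2 * B (ψ i) (ψ j))) := by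
    have h4 : -2 * τ * ∑ i, a i ^ 2 = ∑ i, ∑ j, a i * a j * (-2 * τ * (if i = j then 1 else 0)) := by
      rw [Finset.mul_sum]
      refine Finset.sum_congr rfl fun i _ => ?_
      rw [Finset.sum_eq_single i]
      · rw [if_pos rfl]
        ring
      · intro j _ hj
        rw [if_neg (Ne.symm hj)]
        ring
      · intro h
        exact absurd (Finset.mem_univ i) h
    rw [h4, Finset.mul_sum, ← Finset.sum_add_distrib, ← Finset.sum_add_distrib]
    refine Finset.sum_congr rfl fun i _ => ?_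
    rw [Finset.mul_sum, ← Finset.sum_add_distrib, ← Finset.sum_add_distrib]
    refine Finset.sum_congr rfl fun j _ => ?_
    ring
  have e1 := Nea_sum a (fun i j => B (ψ i) (ψ j)) M hM.ge
  have e2 := Nea_sum a (fun i j => B (b N i + τ • ψ i) (b N j + τ • ψ j) -
          (-2 * τ * (if i = j then 1 else 0) + τ ^ 2 * B (ψ i) (ψ j))) (τ / 2) (by
    have h4 : ∑ i : Fin n, ∑ j : Fin n, |B (b N i + τ • ψ i) (b N j + τ • ψ j) -
          (-2 * τ * (if i = j then 1 else 0) + τ ^ 2 * B (ψ i) (ψ j))| ≤ ∑ i : Fin n, ∑ j : Fin n, ε :=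
      Finset.sum_le_sum fun i _ => Finset.sum_le_sum fun j _ => (hN i j).le
    refine h4.trans ?_
    simp only [Finset.sum_const, Finset.card_univ, Fintype.card_fin, nsmul_eq_mul]
    rw [hε]
    have h5 : (n : ℝ) * ((n : ℝ) * (τ / (2 * ((n : ℝ) + 1) ^ 2))) =
        (τ / 2) * ((n : ℝ) ^ 2 / ((n : ℝ) + 1) ^ 2) := by
      field_simp
    rw [h5]
    have h6 : (n : ℝ) ^ 2 / ((n : ℝ) + 1) ^ 2 ≤ 1 := by
      rw [div_le_one (by positivity)]
      have : (0 : ℝ) ≤ n := Nat.cast_nonneg n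
      nlinarith
    calc (τ / 2) * ((n : ℝ) ^ 2 / ((n : ℝ) + 1) ^ 2) ≤ (τ / 2) * 1 :=
          mul_le_mul_of_nonneg_left h6 (by positivity)
      _ = τ / 2 := mul_one _)
  have e1' := le_of_abs_le e1
  have e2' := le_of_abs_le e2
  have e3 : τ ^ 2 * ∑ i, ∑ j, a i * a j * B (ψ i) (ψ j) ≤ τ * ∑ i, a i ^ 2 := by
    calc τ ^ 2 * ∑ i, ∑ j, a i * a j * B (ψ i) (ψ j) ≤ τ ^ 2 * (M * ∑ i, a i ^ 2) :=
          mul_le_mul_of_nonneg_left e1' (by positivity)
      _ = (τ * M) * (τ * ∑ i, a i ^ 2) := by ring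
      _ ≤ 1 * (τ * ∑ i, a i ^ 2) := mul_le_mul_of_nonneg_right hτM (by positivity)
      _ = τ * ∑ i, a i ^ 2 := one_mul _
  rw [hexp, hsplit]
  have e4 : 0 < τ * ∑ i, a i ^ 2 := mul_pos hτ0 hpos
  have e5 : τ / 2 * ∑ i, a i ^ 2 = (τ * ∑ i, a i ^ 2) / 2 := by ring
  have e6 : -2 * τ * ∑ i, a i ^ 2 = -2 * (τ * ∑ i, a i ^ 2) := by ring
  rw [e6]
  rw [e5] at e2'
  linarith

end DrumL
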