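import Pool.Agent.Lib.MP_d92c84_anF.Pib
import Pool.Agent.Lib.MP_d92c84_anF.Wea
import Pool.Agent.Lib.MP_d92c84_anF.Nea
import Pool.Agent.Lib.MP_d92c84_anF.Neb
import Pool.Agent.Lib.MP_d92c84_anF.Kia
import Pool.Agent.Lib.MP_d92c84_anF.Kib

/-!
# Five test functions from three nodal pieces
-/

set_option autoImplicit false

namespace DrumL

open MeasureTheory Set Filter Topology
open scoped ContDiff Real

theorem Ass_kd_one (u : ℂ → ℝ) : kd 1 0 u = pd 1 u := by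
  funext x
  simp [kd]

theorem Ass_kd_I (u : ℂ → ℝ) : kd Complex.I 0 u = pd Complex.I u := by
  funext x
  simp [kd]

/-- The sets of the five pieces. -/
def Ass_S (A : Fin 3 → Set ℂ) (Ω : Set ℂ) : Fin 5 → Set ℂ := ![A 0, A 1, A 2, Ω, Ω]

/-- The functions of the five pieces. -/
noncomputable def Ass_F (p : ℂ) (u : ℂ → ℝ) : Fin 5 → ℂ → ℝ :=
  ![kd (-(Complex.I * p)) 1 u, kd (-(Complex.I * p)) 1 u, kd (-(Complex.I * p)) 1 u, pd 1 u, pd Complex.I u]

theorem Ass_pc {l : ℝ} {D Ω : Set ℂ} (hD : IsOpen D) {u : ℂ → ℝ} (hu : Hz l D u) (hΩ : IsOpen Ω) (hΩD : closure Ω ⊆ D)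
    (hcrit : ∀ x ∈ frontier Ω, fderiv ℝ u x = 0) {p : ℂ} {A : Fin 3 → Set ℂ} (hA : ∀ i, IsOpen (A i))
    (hAs : ∀ i, A i ⊆ Ω) (hA0 : ∀ i, ∀ x ∈ frontier (A i), kd (-(Complex.I * p)) 1 u x = 0) (i : Fin 5) :
    Pc l D (Ass_S A Ω i) (Ass_F p u i) := by
  have h1 : ∀ k, Pc l D (A k) (kd (-(Complex.I * p)) 1 u) := fun k =>
    ⟨hA k, (closure_mono (hAs k)).trans hΩD, hz_kd hD hu _ _, hA0 k⟩
  have h2 : Pc l D Ω (pd 1 u) := by
    refine ⟨hΩ, hΩD, ?_, fun x hx => ?_⟩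
    · rw [← Ass_kd_one]
      exact hz_kd hD hu _ _
    · unfold pd
      rw [hcrit x hx]
      rfl
  have h3 : Pc l D Ω (pd Complex.I u) := by
    refine ⟨hΩ, hΩD, ?_, fun x hx => ?_⟩
    · rw [← Ass_kd_I]
      exact hz_kd hD hu _ _
    · unfold pd
      rw [hcrit x hx]
      rfl
  fin_cases i
  · exact h1 0
  · exact h1 1
  · exact h1 2
  · exact h2
  · exact h3

theorem Ass_sub {Ω : Set ℂ} {A : Fin 3 → Set ℂ} (hAs : ∀ i, A i ⊆ Ω) (i : Fin 5) : Ass_S A Ω i ⊆ Ω := by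
  fin_cases i
  · exact hAs 0
  · exact hAs 1
  · exact hAs 2
  · exact Subset.rfl
  · exact Subset.rfl

theorem Ass_nest {Ω : Set ℂ} {A : Fin 3 → Set ℂ} (hAs : ∀ i, A i ⊆ Ω) (hAd : ∀ i j, i ≠ j → Disjoint (A i) (A j))
    (i j : Fin 5) : Ass_S A Ω i ⊆ Ass_S A Ω j ∨ Ass_S A Ω j ⊆ Ass_S A Ω i ∨ Disjoint (Ass_S A Ω i) (Ass_S A Ω j) := by
  have hΩ : ∀ i : Fin 5, 3 ≤ i → Ass_S A Ω i = Ω := by
    intro i hi
    fin_cases i
    · exact absurd hi (by decide)
    · exact absurd hi (by decide)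
    · exact absurd hi (by decide)
    · rfl
    · rfl
  by_cases hj : 3 ≤ j
  · left
    rw [hΩ j hj]
    exact Ass_sub hAs i
  by_cases hi : 3 ≤ i
  · right
    left
    rw [hΩ i hi]
    exact Ass_sub hAs j
  have hlt : ∀ i : Fin 5, ¬ 3 ≤ i → ∃ k : Fin 3, Ass_S A Ω i = A k ∧ (k : ℕ) = i := by
    intro i hi
    fin_cases i
    · exact ⟨0, rfl, rfl⟩
    · exact ⟨1, rfl, rfl⟩
    · exact ⟨2, rfl, rfl⟩
    · exact absurd (by decide) hi
    · exact absurd (by decide) hi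
  obtain ⟨k, hk, hk'⟩ := hlt i hi
  obtain ⟨m, hm, hm'⟩ := hlt j hj
  by_cases hij : k = m
  · left
    rw [hk, hm, hij]
  · right
    right
    rw [hk, hm]
    exact hAd k m hij

/-- The combination of the pieces is integrable. -/
theorem Ass_int {l : ℝ} {D : Set ℂ} (hD : IsOpen D) (hb : Bornology.IsBounded D) {S : Set ℂ} {F : ℂ → ℝ}
    (h : Pc l D S F) {φ : ℂ → ℝ} (hφ : Continuous φ) : Integrable (fun x => indicator S F x * φ x) := by
  have hSD : S ⊆ D := subset_closure.trans h.sub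
  have hc : ContinuousOn (fun x => F x * φ x) (closure S) :=
    (h.hz.smooth.continuousOn.mono h.sub).mul hφ.continuousOn
  have h1 : IntegrableOn (fun x => F x * φ x) S := intOn (hb.subset hSD) hc
  rw [← integrable_indicator_iff h.isOpen.measurableSet] at h1
  refine h1.congr (Eventually.of_forall fun x => ?_)
  by_cases hx : x ∈ S
  · simp only [indicator_of_mem hx]
  · simp only [indicator_of_notMem hx, zero_mul]

/-- The functional of a piece is linear. -/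
theorem Ass_lin {l : ℝ} {D : Set ℂ} {B : TS D →ₗ[ℝ] TS D →ₗ[ℝ] ℝ} (b : ℕ → TS D) (L : TS D → ℝ)
    (h : ∀ ψ, Tendsto (fun N => B (b N) ψ) atTop (𝓝 (L ψ))) : ∃ L' : TS D →ₗ[ℝ] ℝ, ∀ ψ, L' ψ = L ψ := by
  refine ⟨{ toFun := L, map_add' := fun φ ψ => ?_, map_smul' := fun c ψ => ?_ }, fun _ => rfl⟩
  · refine tendsto_nhds_unique (h (φ + ψ)) ?_
    refine ((h φ).add (h ψ)).congr fun N => ?_
    rw [map_add]
  · refine tendsto_nhds_unique (h (c • ψ)) ?_
    refine ((h ψ).const_mul c).congr fun N => ?_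
    rw [map_smul, smul_eq_mul]

/-- A vanishing combination of the pieces has zero coefficients. -/
theorem Ass_nondeg {l : ℝ} (hl : 0 < l) {D Ω : Set ℂ} (hD : IsOpen D) (hb : Bornology.IsBounded D)
    (hDc : IsPreconnected D) {u : ℂ → ℝ} (hu : Hz l D u) (hΩD : closure Ω ⊆ D) {p : ℂ} {A : Fin 3 → Set ℂ}
    (hA : ∀ i, IsOpen (A i)) (hAn : ∀ i, (A i).Nonempty) (hAs : ∀ i, A i ⊆ Ω)
    (hAd : ∀ i j, i ≠ j → Disjoint (A i) (A j))
    (hnd : ∀ (α : ℂ) (β : ℝ), (∀ x ∈ D, kd α β u x = 0) → α = 0 ∧ β = 0)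
    (hpc : ∀ i, Pc l D (Ass_S A Ω i) (Ass_F p u i)) (a : Fin 5 → ℝ)
    (h : ∀ ψ : ℂ → ℝ, Tst D ψ →
      ∑ i, a i * -∫ x in Ass_S A Ω i, Ass_F p u i x * (lap ψ x + l * ψ x) = 0) : a = 0 := by
  have hK : IsCompact (closure Ω) := (hb.subset (subset_closure.trans hΩD)).isCompact_closure
  set b : ℂ → ℝ := fun x => ∑ i, a i * indicator (Ass_S A Ω i) (Ass_F p u i) x with hbdef
  have hbi : Integrable b := by
    refine integrable_finsetSum _ fun i _ => Integrable.const_mul ?_ _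
    have h1 := Ass_int hD hb (hpc i) (continuous_const (y := (1 : ℝ)))
    simpa using h1
  have hb0 : ∀ x, x ∉ closure Ω → b x = 0 := by
    intro x hx
    refine Finset.sum_eq_zero fun i _ => ?_
    rw [indicator_of_notMem fun h1 => hx (subset_closure (Ass_sub hAs i h1)), mul_zero]
  have hint : ∀ ψ : ℂ → ℝ, Tst D ψ → ∫ x, b x * (lap ψ x + l * ψ x) = 0 := by
    intro ψ hψ
    have hc : Continuous fun x => lap ψ x + l * ψ x := hψ.lap.cont.add (continuous_const.mul hψ.cont)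
    have h1 : (fun x => b x * (lap ψ x + l * ψ x)) = fun x =>
        ∑ i, a i * (indicator (Ass_S A Ω i) (Ass_F p u i) x * (lap ψ x + l * ψ x)) := by
      funext x
      rw [hbdef]
      simp only [Finset.sum_mul, mul_assoc]
    rw [h1, integral_finsetSum _ fun i _ => (Ass_int hD hb (hpc i) hc).const_mul _]
    have h2 := h ψ hψ
    rw [← neg_eq_zero, ← h2, ← Finset.sum_neg_distrib]
    refine Finset.sum_congr rfl fun i _ => ?_
    rw [integral_const_mul, mul_neg, neg_inj, ← integral_indicator (hpc i).isOpen.measurableSet]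
    congr 2
    funext x
    by_cases hx : x ∈ Ass_S A Ω i
    · simp only [indicator_of_mem hx]
    · simp only [indicator_of_notMem hx, zero_mul]
  have hae := weak_zero hl hD hK hΩD hbi hb0 hint
  have hval : ∀ (j : Fin 3) (c : ℝ), (∀ x ∈ A j, b x = c * kd (-(Complex.I * p)) 1 u x + a 3 * pd 1 u x +
      a 4 * pd Complex.I u x) → c = 0 ∧ a 3 = 0 ∧ a 4 = 0 := by
    intro j c hj
    set α : ℂ := -(c * Complex.I * p) + a 3 + a 4 * Complex.I with hα
    have hAD : A j ⊆ D := (hAs j).trans (subset_closure.trans hΩD)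
    have hk : ∀ x ∈ A j, b x = kd α c u x := fun x hx => by rw [hj x hx, kd_comb]
    have hz : Hz l D (kd α c u) := hz_kd hD hu _ _
    have hEq : EqOn (kd α c u) (fun _ => (0 : ℝ)) (A j) := by
      refine Measure.eqOn_open_of_ae_eq (μ := (volume : Measure ℂ)) ?_ (hA j)
        (hz.smooth.continuousOn.mono hAD) continuousOn_const
      have h2 : ∀ᵐ x ∂(volume.restrict (A j)), x ∈ A j := ae_restrict_mem (hA j).measurableSet
      filter_upwards [ae_restrict_of_ae hae, h2] with x hx hxA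
      rw [← hk x hxA]
      exact hx
    have h0 : ∀ x ∈ D, kd α c u x = 0 := by
      intro x hx
      obtain ⟨y, hy⟩ := hAn j
      exact uc hl hD hDc hz (hA j) ⟨y, hy, hAD hy⟩ (fun z hz => hEq hz.1) hx
    obtain ⟨h3, h4⟩ := hnd α c h0
    refine ⟨h4, ?_⟩
    rw [hα, h4] at h3
    constructor
    · have := congrArg Complex.re h3
      simpa using this
    · have := congrArg Complex.im h3
      simpa using this
  have hd : ∀ i j : Fin 3, i ≠ j → ∀ x ∈ A j, x ∉ A i := fun i j hij x hx hx' =>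
    Set.disjoint_left.1 (hAd i j hij) hx' hx
  have hb' : ∀ x, b x = a 0 * indicator (A 0) (kd (-(Complex.I * p)) 1 u) x +
      a 1 * indicator (A 1) (kd (-(Complex.I * p)) 1 u) x + a 2 * indicator (A 2) (kd (-(Complex.I * p)) 1 u) x +
      a 3 * indicator Ω (pd 1 u) x + a 4 * indicator Ω (pd Complex.I u) x := by
    intro x
    rw [hbdef]
    simp only [Fin.sum_univ_five]
    rfl
  have r0 := hval 0 (a 0) fun x hx => by
    rw [hb' x, indicator_of_mem hx, indicator_of_notMem (hd 1 0 (by decide) x hx),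
      indicator_of_notMem (hd 2 0 (by decide) x hx), indicator_of_mem (hAs 0 hx), indicator_of_mem (hAs 0 hx)]
    ring
  have r1 := hval 1 (a 1) fun x hx => by
    rw [hb' x, indicator_of_mem hx, indicator_of_notMem (hd 0 1 (by decide) x hx),
      indicator_of_notMem (hd 2 1 (by decide) x hx), indicator_of_mem (hAs 1 hx), indicator_of_mem (hAs 1 hx)]
    ring
  have r2 := hval 2 (a 2) fun x hx => by
    rw [hb' x, indicator_of_mem hx, indicator_of_notMem (hd 0 2 (by decide) x hx),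
      indicator_of_notMem (hd 1 2 (by decide) x hx), indicator_of_mem (hAs 2 hx), indicator_of_mem (hAs 2 hx)]
    ring
  funext i
  fin_cases i
  · exact r0.1
  · exact r1.1
  · exact r2.1
  · exact r0.2.1
  · exact r0.2.2

/-- Five test functions on whose span the form is negative, from three nodal pieces. -/
theorem five_of_pieces {l : ℝ} (hl : 0 < l) {D Ω : Set ℂ} (hD : IsOpen D) (hb : Bornology.IsBounded D)
    (hDc : IsPreconnected D) {u : ℂ → ℝ} (hu : Hz l D u) (hΩ : IsOpen Ω) (hΩD : closure Ω ⊆ D)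
    (hcrit : ∀ x ∈ frontier Ω, fderiv ℝ u x = 0) {p : ℂ} {A : Fin 3 → Set ℂ} (hA : ∀ i, IsOpen (A i))
    (hAn : ∀ i, (A i).Nonempty) (hAs : ∀ i, A i ⊆ Ω) (hAd : ∀ i j, i ≠ j → Disjoint (A i) (A j))
    (hA0 : ∀ i, ∀ x ∈ frontier (A i), kd (-(Complex.I * p)) 1 u x = 0)
    (hnd : ∀ (α : ℂ) (β : ℝ), (∀ x ∈ D, kd α β u x = 0) → α = 0 ∧ β = 0) : Five l D := by
  have hpc := fun i => Ass_pc hD hu hΩ hΩD hcrit hA hAs hA0 i
  have hSD : ∀ i, Ass_S A Ω i ⊆ D := fun i => (Ass_sub hAs i).trans (subset_closure.trans hΩD)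
  obtain ⟨B, hB, hBs⟩ := exists_bilin l D
  let b : ℕ → Fin 5 → TS D := fun N i => ⟨tr (Ass_S A Ω i) (Ass_F p u i) N, (tr_tst hb (hpc i) N).mono (hSD i)⟩
  have hlim : ∀ (i : Fin 5) (ψ : TS D), Tendsto (fun N => B (b N i) ψ) atTop
      (𝓝 (-∫ x in Ass_S A Ω i, Ass_F p u i x * (lap (ψ : ℂ → ℝ) x + l * (ψ : ℂ → ℝ) x))) := by
    intro i ψ
    refine (tr_lim hD hb (hpc i) ψ.2).congr fun N => ?_
    rw [hB]
  choose L hL using fun i => Ass_lin (l := l) (fun N => b N i)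
    (fun ψ => -∫ x in Ass_S A Ω i, Ass_F p u i x * (lap (ψ : ℂ → ℝ) x + l * (ψ : ℂ → ℝ) x)) (hlim i)
  obtain ⟨φ, hφ⟩ := neg_of_limits B hBs b L
    (fun i j => (tr_gram hD hb (hpc i) (hpc j) (Ass_nest hAs hAd i j)).congr fun N => by rw [hB])
    (fun i ψ => by rw [hL]; exact hlim i ψ)
    (fun a ha => by
      by_contra hcon
      push Not at hcon
      refine ha (Ass_nondeg hl hD hb hDc hu hΩD hA hAn hAs hAd hnd hpc a fun ψ hψ => ?_)
      have h1 := hcon ⟨ψ, hψ⟩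
      simp only [hL] at h1
      exact h1)
  refine ⟨fun i => (φ i : ℂ → ℝ), fun i => (φ i).2, fun a ha => ?_⟩
  have h1 := hφ a ha
  rw [hB] at h1
  have h2 : ((∑ i, a i • φ i : TS D) : ℂ → ℝ) = fun x => ∑ i, a i * (φ i : ℂ → ℝ) x := by
    funext x
    rw [Submodule.coe_sum, Finset.sum_apply]
    rfl
  rw [h2] at h1
  exact h1

end DrumL
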