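import Mathlib

/-!
# Basic definitions

Partial derivatives and the Laplacian of real functions on the plane `ℂ = ℝ²`, test functions, the quadratic form
`∫ |∇φ|² - l φ²`, solutions of the Helmholtz equation, a radial bump function.
-/

set_option autoImplicit false

namespace DrumL

open MeasureTheory Set Filter Topology
open scoped ContDiff

/-- The derivative of `f` at `x` in the direction `v`. -/
noncomputable def pd (v : ℂ) (f : ℂ → ℝ) (x : ℂ) : ℝ := fderiv ℝ f x v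

/-- The Laplacian. -/
noncomputable def lap (f : ℂ → ℝ) (x : ℂ) : ℝ := pd 1 (pd 1 f) x + pd Complex.I (pd Complex.I f) x

/-- Smooth functions with compact support contained in `D`. -/
structure Tst (D : Set ℂ) (φ : ℂ → ℝ) : Prop where
  smooth : ContDiff ℝ ∞ φ
  comp : HasCompactSupport φ
  sub : tsupport φ ⊆ D

/-- The bilinear form `∫ ∇φ·∇ψ - l φ ψ`. -/
noncomputable def Q (l : ℝ) (φ ψ : ℂ → ℝ) : ℝ :=
  ∫ x, (pd 1 φ x * pd 1 ψ x + pd Complex.I φ x * pd Complex.I ψ x - l * (φ x * ψ x))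

/-- There are five test functions in `D` on whose span, apart from `0`, the form `Q l` is negative. -/
def Five (l : ℝ) (D : Set ℂ) : Prop :=
  ∃ φ : Fin 5 → ℂ → ℝ, (∀ i, Tst D (φ i)) ∧ ∀ a : Fin 5 → ℝ, a ≠ 0 →
    Q l (fun x => ∑ i, a i * φ i x) (fun x => ∑ i, a i * φ i x) < 0

/-- Smooth solutions of `Δ f = -l f` on `U`. -/
structure Hz (l : ℝ) (U : Set ℂ) (f : ℂ → ℝ) : Prop where
  smooth : ContDiffOn ℝ ∞ f U
  eq : ∀ x ∈ U, lap f x = -l * f x

theorem Hz.mono {l : ℝ} {U V : Set ℂ} {f : ℂ → ℝ} (h : Hz l U f) (hV : V ⊆ U) : Hz l V f :=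
  ⟨h.smooth.mono hV, fun x hx => h.eq x (hV hx)⟩

/-- The derivative of `u` along the Killing field `x ↦ α + i β x`. -/
noncomputable def kd (α : ℂ) (β : ℝ) (u : ℂ → ℝ) (x : ℂ) : ℝ := pd (α + β * Complex.I * x) u x

/-- A radial bump function with support the closed ball of radius `δ`. -/
noncomputable def bmp (δ : ℝ) (x : ℂ) : ℝ := expNegInvGlue (δ ^ 2 - ‖x‖ ^ 2)

theorem contDiff_bmp (δ : ℝ) : ContDiff ℝ ∞ (bmp δ) := by
  unfold bmp
  exact expNegInvGlue.contDiff.comp (contDiff_const.sub (contDiff_norm_sq ℝ))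

theorem bmp_nonneg (δ : ℝ) (x : ℂ) : 0 ≤ bmp δ x := expNegInvGlue.nonneg _

theorem bmp_zero {δ : ℝ} {x : ℂ} (hδ : 0 ≤ δ) (h : δ ≤ ‖x‖) : bmp δ x = 0 :=
  expNegInvGlue.zero_of_nonpos (by nlinarith [norm_nonneg x])

theorem bmp_pos {δ : ℝ} {x : ℂ} (h : ‖x‖ < δ) : 0 < bmp δ x :=
  expNegInvGlue.pos_of_pos (by nlinarith [norm_nonneg x])

theorem support_bmp {δ : ℝ} (hδ : 0 ≤ δ) : Function.support (bmp δ) = Metric.ball 0 δ := by
  ext x
  rw [Function.mem_support, mem_ball_zero_iff]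
  constructor
  · intro h
    by_contra h1
    exact h (bmp_zero hδ (not_lt.1 h1))
  · intro h
    exact (bmp_pos h).ne'

theorem tsupport_bmp {δ : ℝ} (hδ : 0 ≤ δ) : tsupport (bmp δ) ⊆ Metric.closedBall 0 δ := by
  unfold tsupport
  rw [support_bmp hδ]
  exact Metric.closure_ball_subset_closedBall

theorem compact_bmp {δ : ℝ} (hδ : 0 ≤ δ) : HasCompactSupport (bmp δ) :=
  HasCompactSupport.of_support_subset_isCompact (isCompact_closedBall (0 : ℂ) δ) (by
    rw [support_bmp hδ]; exact Metric.ball_subset_closedBall)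

theorem bmp_neg (δ : ℝ) (x : ℂ) : bmp δ (-x) = bmp δ x := by
  unfold bmp
  rw [norm_neg]

theorem bmp_sub_comm (δ : ℝ) (x y : ℂ) : bmp δ (x - y) = bmp δ (y - x) := by
  unfold bmp
  rw [norm_sub_rev]

/-! ### Test functions -/

theorem Tst.cont {D : Set ℂ} {φ : ℂ → ℝ} (h : Tst D φ) : Continuous φ := h.smooth.continuous

theorem Tst.diff {D : Set ℂ} {φ : ℂ → ℝ} (h : Tst D φ) : Differentiable ℝ φ :=
  h.smooth.differentiable (by simp)

theorem Tst.mono {D E : Set ℂ} {φ : ℂ → ℝ} (h : Tst D φ) (hDE : D ⊆ E) : Tst E φ := ⟨h.smooth, h.comp, h.sub.trans hDE⟩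

theorem Tst.zero_of_notMem {D : Set ℂ} {φ : ℂ → ℝ} (h : Tst D φ) {x : ℂ} (hx : x ∉ D) : φ x = 0 :=
  image_eq_zero_of_notMem_tsupport fun h1 => hx (h.sub h1)

theorem contDiff_pd {n : ℕ∞} {f : ℂ → ℝ} (hf : ContDiff ℝ ∞ f) (v : ℂ) : ContDiff ℝ n (pd v f) := by
  unfold pd
  have h1 : ContDiff ℝ n (fderiv ℝ f) := hf.fderiv_right (by
    have : ((n : WithTop ℕ∞) + 1) ≤ ∞ := by exact_mod_cast le_top
    exact this)
  exact h1.clm_apply contDiff_const

theorem contDiffOn_pd {D : Set ℂ} (hD : IsOpen D) {n m : WithTop ℕ∞} {f : ℂ → ℝ} (hf : ContDiffOn ℝ n f D) (hmn : m + 1 ≤ n)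
    (v : ℂ) : ContDiffOn ℝ m (pd v f) D := by
  unfold pd
  exact (hf.fderiv_of_isOpen hD hmn).clm_apply contDiffOn_const

theorem tsupport_pd (v : ℂ) (f : ℂ → ℝ) : tsupport (pd v f) ⊆ tsupport f := by
  refine closure_minimal ?_ (isClosed_tsupport f)
  intro x hx
  by_contra h
  have h1 : fderiv ℝ f x = 0 := by
    have h2 : f =ᶠ[𝓝 x] fun _ => 0 := notMem_tsupport_iff_eventuallyEq.1 h
    rw [h2.fderiv_eq]
    simp
  exact hx (by simp [pd, h1])

theorem Tst.pd {D : Set ℂ} {φ : ℂ → ℝ} (h : Tst D φ) (v : ℂ) : Tst D (DrumL.pd v φ) :=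
  ⟨contDiff_pd (n := ⊤) h.smooth v, h.comp.of_isClosed_subset (isClosed_tsupport _) (tsupport_pd v φ),
    (tsupport_pd v φ).trans h.sub⟩

theorem Tst.add {D : Set ℂ} {φ ψ : ℂ → ℝ} (h : Tst D φ) (h' : Tst D ψ) : Tst D (fun x => φ x + ψ x) :=
  ⟨h.smooth.add h'.smooth, h.comp.add h'.comp, (tsupport_add φ ψ).trans (union_subset h.sub h'.sub)⟩

theorem Tst.smul {D : Set ℂ} {φ : ℂ → ℝ} (h : Tst D φ) (a : ℝ) : Tst D (fun x => a * φ x) :=
  ⟨contDiff_const.mul h.smooth, h.comp.mul_left, (tsupport_mul_subset_right (f := fun _ => a)).trans h.sub⟩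

theorem Tst.lap {D : Set ℂ} {φ : ℂ → ℝ} (h : Tst D φ) : Tst D (DrumL.lap φ) :=
  ((h.pd 1).pd 1).add ((h.pd Complex.I).pd Complex.I)

/-- A translated and reflected bump function is a test function. -/
theorem tst_bmp {D : Set ℂ} {x : ℂ} {δ : ℝ} (hδ : 0 ≤ δ) (h : Metric.closedBall x δ ⊆ D) :
    Tst D (fun y => bmp δ (x - y)) := by
  have h1 : ∀ y, bmp δ (x - y) ≠ 0 → y ∈ Metric.closedBall x δ := by
    intro y hy
    by_contra h2
    refine hy (bmp_zero hδ ?_)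
    rw [Metric.mem_closedBall, dist_comm, dist_eq_norm, not_le] at h2
    exact h2.le
  refine ⟨(contDiff_bmp δ).comp (contDiff_const.sub contDiff_id),
    HasCompactSupport.of_support_subset_isCompact (isCompact_closedBall x δ) fun y hy => h1 y hy, ?_⟩
  exact (closure_minimal (fun y hy => h1 y hy) Metric.isClosed_closedBall).trans h

end DrumL
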