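import Pool.Agent.Lib.MP_d92c84_anF.Base

/-!
# A number of eigenvalues below `l`
-/

set_option autoImplicit false

namespace DrumL

/-- There are `n` test functions in `D` on whose span, apart from `0`, the form `Q l` is negative. -/
def Below (l : ℝ) (D : Set ℂ) (n : ℕ) : Prop :=
  ∃ φ : Fin n → ℂ → ℝ, (∀ i, Tst D (φ i)) ∧ ∀ a : Fin n → ℝ, a ≠ 0 →
    Q l (fun x => ∑ i, a i * φ i x) (fun x => ∑ i, a i * φ i x) < 0

end DrumL
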