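import Pool.Agent.Lib.MP_d92c84_anF.Par

/-!
# The gradient of an eigenfunction is square integrable
-/

set_option autoImplicit false

namespace DrumL

open MeasureTheory Set Filter Topology
open scoped ContDiff

/-- Fatou: an a.e. limit of nonnegative integrable functions with bounded integrals is integrable. -/
private theorem Cfa_fatou {μ : Measure ℂ} {G : ℕ → ℂ → ℝ} {f : ℂ → ℝ} {C : ℝ}
    (hG : ∀ n, Integrable (G n) μ) (h0 : ∀ n x, 0 ≤ G n x) (hC : ∀ n, ∫ x, G n x ∂μ ≤ C)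
    (hl : ∀ᵐ x ∂μ, Tendsto (fun n => G n x) atTop (𝓝 (f x))) : Integrable f μ := by
  refine ⟨aestronglyMeasurable_of_tendsto_ae _ (fun n => (hG n).aestronglyMeasurable) hl, ?_⟩
  have h1 : ∫⁻ x, ‖f x‖ₑ ∂μ ≤ liminf (fun n => ∫⁻ x, ‖G n x‖ₑ ∂μ) atTop := by
    have h2 : ∫⁻ x, ‖f x‖ₑ ∂μ = ∫⁻ x, liminf (fun n => ‖G n x‖ₑ) atTop ∂μ :=
      lintegral_congr_ae (by filter_upwards [hl] with x hx using hx.enorm.liminf_eq.symm)
    rw [h2]
    exact lintegral_liminf_le' fun n => (hG n).aestronglyMeasurable.enorm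
  have h3 : ∀ n, ∫⁻ x, ‖G n x‖ₑ ∂μ ≤ ENNReal.ofReal C := by
    intro n
    have h4 : ∫⁻ x, ‖G n x‖ₑ ∂μ = ENNReal.ofReal (∫ x, G n x ∂μ) := by
      rw [ofReal_integral_eq_lintegral_ofReal (hG n) (Eventually.of_forall (h0 n))]
      refine lintegral_congr fun x => ?_
      rw [Real.enorm_eq_ofReal (h0 n x)]
    rw [h4]
    exact ENNReal.ofReal_le_ofReal (hC n)
  have h5 : liminf (fun n => ∫⁻ x, ‖G n x‖ₑ ∂μ) atTop ≤ ENNReal.ofReal C := by
    refine (liminf_le_liminf (Eventually.of_forall h3)).trans_eq ?_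
    exact liminf_const _
  exact lt_of_le_of_lt (h1.trans h5) ENNReal.ofReal_lt_top

/-- The truncated identity. -/
private theorem Cfa_step {D : Set ℂ} (hD : IsOpen D) (hb : Bornology.IsBounded D) {l : ℝ} {φ : ℂ → ℝ}
    (hφc : ContinuousOn φ (closure D)) (hφ : ContDiffOn ℝ 2 φ D) (hφ0 : ∀ x ∈ frontier D, φ x = 0)
    (he : ∀ x ∈ D, lap φ x = -l * φ x) (N : ℕ) :
    IntegrableOn (fun x => sg (φ x / eN N) * (pd 1 φ x ^ 2 + pd Complex.I φ x ^ 2)) D ∧
      ∫ x in D, sg (φ x / eN N) * (pd 1 φ x ^ 2 + pd Complex.I φ x ^ 2) =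
        l * ∫ x in D, Se (eN N) (φ x) * φ x := by
  set T : ℂ → ℝ := indicator D fun x => Se (eN N) (φ x) with hTdef
  have hz : ∀ s, |s| ≤ eN N → Se (eN N) s = 0 := fun s hs => Se_zero (eN_pos N) hs
  have h2 : (2 : WithTop ℕ∞) ≤ ∞ := WithTop.coe_le_coe.2 (le_top : (2 : ℕ∞) ≤ ⊤)
  have hT2 : ContDiff ℝ 2 T := trunc_contDiff hb hφc hφ0 hD (eN_pos N) hz ((contDiff_Se _).of_le h2) hφ
  have hT1 : ContDiff ℝ 1 T := hT2.of_le (by norm_num)
  have hT0 : ContDiff ℝ 0 T := hT2.of_le (by norm_num)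
  obtain ⟨hTc, hTD⟩ := trunc_support hb hφc hφ0 hD (eN_pos N) hz
  have hTp : ∀ v x, x ∈ D → pd v T x = sg (φ x / eN N) * pd v φ x := by
    intro v x hx
    rw [hTdef, trunc_pd hb hφc hφ0 hD (eN_pos N) hz (θ' := fun s => sg (s / eN N)) (hasDerivAt_Se (eN_pos N))
      (hφ.differentiableOn (by norm_num)) v x, indicator_of_mem hx]
  have hp1 : ∀ v, ContDiffOn ℝ 1 (pd v φ) D := fun v => contDiffOn_pd hD hφ (by norm_num) v
  have hp0 : ∀ v, ContDiffOn ℝ 0 (pd v (pd v φ)) D := fun v => contDiffOn_pd hD (hp1 v) (by norm_num) v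
  have hI1 : ∀ v, IntegrableOn (fun x => T x * pd v (pd v φ) x) D := fun v =>
    ((mul_contDiff hD hT0 hTD (hp0 v)).continuous.integrable_of_hasCompactSupport hTc.mul_right).integrableOn
  have hI2 : ∀ v, IntegrableOn (fun x => pd v T x * pd v φ x) D := fun v =>
    ((mul_contDiff hD (contDiff_zero.2 (continuous_pd hT1 v)) ((tsupport_pd v T).trans hTD)
      ((hp1 v).of_le (by norm_num) : ContDiffOn ℝ 0 (pd v φ) D)).continuous.integrable_of_hasCompactSupport
      (compact_pd hTc v).mul_right).integrableOn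
  have hparts : ∀ v, ∫ x in D, T x * pd v (pd v φ) x = -∫ x in D, pd v T x * pd v φ x := fun v =>
    integral_mul_pd_on hD hT1 hTc hTD (hp1 v) v
  have hF : EqOn (fun x => sg (φ x / eN N) * (pd 1 φ x ^ 2 + pd Complex.I φ x ^ 2))
      (fun x => pd 1 T x * pd 1 φ x + pd Complex.I T x * pd Complex.I φ x) D := by
    intro x hx
    show sg (φ x / eN N) * (pd 1 φ x ^ 2 + pd Complex.I φ x ^ 2) =
      pd 1 T x * pd 1 φ x + pd Complex.I T x * pd Complex.I φ x
    rw [hTp 1 x hx, hTp Complex.I x hx]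
    ring
  constructor
  · exact (integrableOn_congr_fun hF hD.measurableSet).2 ((hI2 1).add (hI2 Complex.I))
  · rw [setIntegral_congr_fun hD.measurableSet hF, integral_add (hI2 1) (hI2 Complex.I)]
    have e1 := hparts 1
    have e2 := hparts Complex.I
    have e3 : ∫ x in D, T x * lap φ x = (∫ x in D, T x * pd 1 (pd 1 φ) x) + ∫ x in D, T x * pd Complex.I (pd Complex.I φ) x := by
      rw [← integral_add (hI1 1) (hI1 Complex.I)]
      refine integral_congr_ae (Eventually.of_forall fun x => ?_)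
      show T x * lap φ x = T x * pd 1 (pd 1 φ) x + T x * pd Complex.I (pd Complex.I φ) x
      unfold lap
      ring
    have e4 : ∫ x in D, T x * lap φ x = -l * ∫ x in D, Se (eN N) (φ x) * φ x := by
      rw [← integral_const_mul]
      refine setIntegral_congr_fun hD.measurableSet fun x hx => ?_
      show T x * lap φ x = -l * (Se (eN N) (φ x) * φ x)
      rw [he x hx, hTdef, indicator_of_mem hx]
      ring
    linarith

/-- The gradient of an eigenfunction is square integrable. -/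
theorem grad_sq {D : Set ℂ} (hD : IsOpen D) (hb : Bornology.IsBounded D) {l : ℝ} {φ : ℂ → ℝ}
    (hφc : ContinuousOn φ (closure D)) (hφ : ContDiffOn ℝ 2 φ D) (hφ0 : ∀ x ∈ frontier D, φ x = 0)
    (he : ∀ x ∈ D, lap φ x = -l * φ x) :
    IntegrableOn (fun x => pd 1 φ x ^ 2 + pd Complex.I φ x ^ 2) D ∧
      ∫ x in D, (pd 1 φ x ^ 2 + pd Complex.I φ x ^ 2) = l * ∫ x in D, φ x ^ 2 := by
  have hstep := Cfa_step hD hb hφc hφ hφ0 he
  have hφ2 : IntegrableOn (fun x => φ x ^ 2) D := intOn hb (hφc.pow 2)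
  -- the right-hand sides converge
  have hr : Tendsto (fun N => ∫ x in D, Se (eN N) (φ x) * φ x) atTop (𝓝 (∫ x in D, φ x ^ 2)) := by
    refine tendsto_integral_of_dominated_convergence (fun x => φ x ^ 2) (fun N => ?_) hφ2 (fun N => ?_) ?_
    · refine (intOn hb ?_).aestronglyMeasurable
      exact ((contDiff_Se (eN N)).continuous.comp_continuousOn hφc).mul hφc
    · refine Eventually.of_forall fun x => ?_
      rw [Real.norm_eq_abs, abs_mul, ← sq_abs (φ x), sq]
      exact mul_le_mul_of_nonneg_right (abs_Se_le (eN_pos N) (φ x)) (abs_nonneg _)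
    · refine Eventually.of_forall fun x => ?_
      rw [sq]
      exact (tendsto_Se (φ x)).mul_const (φ x)
  have hr2 : Tendsto (fun N => ∫ x in D, sg (φ x / eN N) * (pd 1 φ x ^ 2 + pd Complex.I φ x ^ 2)) atTop
      (𝓝 (l * ∫ x in D, φ x ^ 2)) := by
    refine (hr.const_mul l).congr fun N => ?_
    exact ((hstep N).2).symm
  have hae : ∀ᵐ x ∂(volume.restrict D), Tendsto (fun N => sg (φ x / eN N) * (pd 1 φ x ^ 2 + pd Complex.I φ x ^ 2))
      atTop (𝓝 (pd 1 φ x ^ 2 + pd Complex.I φ x ^ 2)) := by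
    filter_upwards [ae_crit hD (hφ.differentiableOn (by norm_num))] with x hx
    by_cases h : φ x = 0
    · have h1 : pd 1 φ x ^ 2 + pd Complex.I φ x ^ 2 = 0 := by
        unfold pd
        rw [hx h]
        simp
      rw [h1]
      simp
    · have := (tendsto_sg h).mul_const (pd 1 φ x ^ 2 + pd Complex.I φ x ^ 2)
      rwa [one_mul] at this
  obtain ⟨C, hC⟩ := hr2.bddAbove_range
  have hint : IntegrableOn (fun x => pd 1 φ x ^ 2 + pd Complex.I φ x ^ 2) D := by
    refine Cfa_fatou (G := fun N x => sg (φ x / eN N) * (pd 1 φ x ^ 2 + pd Complex.I φ x ^ 2)) (C := C)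
      (fun N => (hstep N).1) (fun N x => mul_nonneg (sg_nonneg _) (by positivity)) (fun N => hC ⟨N, rfl⟩) hae
  refine ⟨hint, ?_⟩
  have h1 : Tendsto (fun N => ∫ x in D, sg (φ x / eN N) * (pd 1 φ x ^ 2 + pd Complex.I φ x ^ 2)) atTop
      (𝓝 (∫ x in D, (pd 1 φ x ^ 2 + pd Complex.I φ x ^ 2))) := by
    refine tendsto_integral_of_dominated_convergence (fun x => pd 1 φ x ^ 2 + pd Complex.I φ x ^ 2)
      (fun N => (hstep N).1.aestronglyMeasurable) hint (fun N => ?_) hae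
    refine Eventually.of_forall fun x => ?_
    rw [Real.norm_eq_abs, abs_of_nonneg (mul_nonneg (sg_nonneg _) (by positivity))]
    exact mul_le_of_le_one_left (by positivity) (sg_le_one _)
  exact tendsto_nhds_unique h1 hr2

/-- The eigenvalue is positive. -/
theorem eig_pos {D : Set ℂ} (hD : IsOpen D) (hb : Bornology.IsBounded D) {l : ℝ} {φ : ℂ → ℝ}
    (hφc : ContinuousOn φ (closure D)) (hφ : ContDiffOn ℝ 2 φ D) (hφ0 : ∀ x ∈ frontier D, φ x = 0)
    (he : ∀ x ∈ D, lap φ x = -l * φ x) {x₀ : ℂ} (hx₀ : x₀ ∈ D) (hne : φ x₀ ≠ 0) : 0 < l := by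
  by_contra hl
  rw [not_lt] at hl
  obtain ⟨h1, h2⟩ := grad_sq hD hb hφc hφ hφ0 he
  have h3 : 0 ≤ ∫ x in D, φ x ^ 2 := integral_nonneg fun x => sq_nonneg _
  have h4 : ∫ x in D, (pd 1 φ x ^ 2 + pd Complex.I φ x ^ 2) = 0 := by
    refine le_antisymm ?_ (integral_nonneg fun x => by positivity)
    rw [h2]
    exact mul_nonpos_of_nonpos_of_nonneg hl h3
  have h5 : (fun x => pd 1 φ x ^ 2 + pd Complex.I φ x ^ 2) =ᵐ[volume.restrict D] 0 :=
    (integral_eq_zero_iff_of_nonneg (fun x => by positivity) h1).1 h4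
  have hp : ∀ v, ContinuousOn (pd v φ) D := fun v =>
    (contDiffOn_pd hD (m := 1) hφ (by norm_num) v).continuousOn
  have h6 : EqOn (fun x => pd 1 φ x ^ 2 + pd Complex.I φ x ^ 2) 0 D :=
    Measure.eqOn_open_of_ae_eq h5 hD (((hp 1).pow 2).add ((hp Complex.I).pow 2)) continuousOn_const
  have h7 : EqOn (fderiv ℝ φ) 0 D := by
    intro x hx
    have h8 : pd 1 φ x ^ 2 + pd Complex.I φ x ^ 2 = 0 := h6 hx
    have h9 : pd 1 φ x = 0 := by nlinarith [sq_nonneg (pd 1 φ x), sq_nonneg (pd Complex.I φ x)]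
    have h10 : pd Complex.I φ x = 0 := by nlinarith [sq_nonneg (pd 1 φ x), sq_nonneg (pd Complex.I φ x)]
    unfold pd at h9 h10
    ext v
    have h11 : v = v.re • (1 : ℂ) + v.im • Complex.I := by
      simp
    show fderiv ℝ φ x v = 0
    rw [h11, map_add, map_smul, map_smul, h9, h10]
    simp
  have h8 : IsOpen (D ∩ φ ⁻¹' {φ x₀}) :=
    hD.isOpen_inter_preimage_of_fderiv_eq_zero (hφ.differentiableOn (by norm_num)) h7 _
  have h9 : D ∩ φ ⁻¹' {φ x₀} = closure D ∩ φ ⁻¹' {φ x₀} := by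
    refine Subset.antisymm (inter_subset_inter_left _ subset_closure) ?_
    rintro x ⟨hx, hx1⟩
    refine ⟨?_, hx1⟩
    by_contra h
    have h10 : x ∈ frontier D := by
      rw [frontier, hD.interior_eq]
      exact ⟨hx, h⟩
    have h11 : φ x = φ x₀ := hx1
    rw [hφ0 x h10] at h11
    exact hne h11.symm
  have h10 : IsClosed (D ∩ φ ⁻¹' {φ x₀}) := by
    rw [h9]
    exact hφc.preimage_isClosed_of_isClosed isClosed_closure isClosed_singleton
  have h11 : D ∩ φ ⁻¹' {φ x₀} = univ := IsClopen.eq_univ ⟨h10, h8⟩ ⟨x₀, hx₀, rfl⟩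
  have h12 : (univ : Set ℂ) ⊆ D := by
    rw [← h11]
    exact inter_subset_left
  have h13 : IsCompact (univ : Set ℂ) := Metric.isCompact_of_isClosed_isBounded isClosed_univ (hb.subset h12)
  exact noncompact_univ ℂ h13

end DrumL
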