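import Pool.Agent.Lib.MP_d92c84_anF.Eng
import Pool.Agent.Lib.MP_d92c84_anF.Cfa

/-!
# The coefficient of an eigenfunction
-/

set_option autoImplicit false

namespace DrumL

open MeasureTheory Set Filter Topology
open scoped ContDiff

private theorem Cfb_int {D : Set ℂ} (hD : IsOpen D) {f g : ℂ → ℝ} (hf : Continuous f) (hs : HasCompactSupport f)
    (hsD : tsupport f ⊆ D) (hg : ContinuousOn g D) : IntegrableOn (fun x => f x * g x) D := by
  have h1 : IntegrableOn (fun x => f x * g x) (tsupport f) :=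
    (hf.continuousOn.mul (hg.mono hsD)).integrableOn_compact hs
  exact h1.of_forall_sdiff_eq_zero hD.measurableSet fun x hx => by
    rw [image_eq_zero_of_notMem_tsupport hx.2, zero_mul]

private theorem Cfb_green {D : Set ℂ} (hD : IsOpen D) (hb : Bornology.IsBounded D) {ψ P Qf : ℂ → ℝ}
    (hψc : ContinuousOn ψ (closure D)) (hψ : ContDiffOn ℝ 1 ψ D) (hψ0 : ∀ x ∈ frontier D, ψ x = 0)
    (hP : ContDiffOn ℝ 1 P D) (hQ : ContDiffOn ℝ 1 Qf D)
    (h1 : IntegrableOn (fun x => ψ x * (pd 1 P x + pd Complex.I Qf x)) D)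
    (h2 : IntegrableOn (fun x => pd 1 ψ x * P x + pd Complex.I ψ x * Qf x) D) :
    ∫ x in D, ψ x * (pd 1 P x + pd Complex.I Qf x) =
      -∫ x in D, (pd 1 ψ x * P x + pd Complex.I ψ x * Qf x) := by
  have hpc : ∀ {f : ℂ → ℝ}, ContDiffOn ℝ 1 f D → ∀ v, ContinuousOn (pd v f) D := fun hf v =>
    (contDiffOn_pd hD hf (m := 0) (by simp) v).continuousOn
  have hz : ∀ (N : ℕ) (s : ℝ), |s| ≤ eN N → Se (eN N) s = 0 := fun N s hs => Se_zero (eN_pos N) hs
  have hTc : ∀ N : ℕ, ContDiff ℝ 1 (indicator D fun x => Se (eN N) (ψ x)) := fun N =>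
    trunc_contDiff hb hψc hψ0 hD (eN_pos N) (hz N) ((contDiff_Se _).of_le (by simp)) hψ
  have hTs : ∀ N : ℕ, HasCompactSupport (indicator D fun x => Se (eN N) (ψ x)) ∧
      tsupport (indicator D fun x => Se (eN N) (ψ x)) ⊆ D := fun N =>
    trunc_support hb hψc hψ0 hD (eN_pos N) (hz N)
  have hTp : ∀ (N : ℕ) (v x : ℂ), pd v (indicator D fun x => Se (eN N) (ψ x)) x =
      indicator D (fun x => sg (ψ x / eN N) * pd v ψ x) x := fun N v x =>
    trunc_pd hb hψc hψ0 hD (eN_pos N) (hz N) (hasDerivAt_Se (eN_pos N)) (hψ.differentiableOn (by simp)) v x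
  have key : ∀ N : ℕ, ∫ x in D, Se (eN N) (ψ x) * (pd 1 P x + pd Complex.I Qf x) =
      -∫ x in D, sg (ψ x / eN N) * (pd 1 ψ x * P x + pd Complex.I ψ x * Qf x) := by
    intro N
    have e1 := integral_mul_pd_on hD (hTc N) (hTs N).1 (hTs N).2 hP 1
    have e2 := integral_mul_pd_on hD (hTc N) (hTs N).1 (hTs N).2 hQ Complex.I
    have i1 := Cfb_int hD (hTc N).continuous (hTs N).1 (hTs N).2 (hpc hP 1)
    have i2 := Cfb_int hD (hTc N).continuous (hTs N).1 (hTs N).2 (hpc hQ Complex.I)
    have i3 := Cfb_int hD (continuous_pd (hTc N) 1) (compact_pd (hTs N).1 1)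
      ((tsupport_pd 1 _).trans (hTs N).2) hP.continuousOn
    have i4 := Cfb_int hD (continuous_pd (hTc N) Complex.I) (compact_pd (hTs N).1 Complex.I)
      ((tsupport_pd Complex.I _).trans (hTs N).2) hQ.continuousOn
    have e3 := integral_add i1 i2
    have e4 := integral_add i3 i4
    have e5 : ∫ x in D, Se (eN N) (ψ x) * (pd 1 P x + pd Complex.I Qf x) =
        ∫ x in D, (indicator D (fun x => Se (eN N) (ψ x)) x * pd 1 P x +
          indicator D (fun x => Se (eN N) (ψ x)) x * pd Complex.I Qf x) := by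
      refine setIntegral_congr_fun hD.measurableSet fun x hx => ?_
      simp only [indicator_of_mem hx]
      ring
    have e6 : ∫ x in D, sg (ψ x / eN N) * (pd 1 ψ x * P x + pd Complex.I ψ x * Qf x) =
        ∫ x in D, (pd 1 (indicator D fun x => Se (eN N) (ψ x)) x * P x +
          pd Complex.I (indicator D fun x => Se (eN N) (ψ x)) x * Qf x) := by
      refine setIntegral_congr_fun hD.measurableSet fun x hx => ?_
      simp only [hTp, indicator_of_mem hx]
      ring
    rw [e5, e6, e3, e4, e1, e2]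
    ring
  have hdm : ContinuousOn (fun x => pd 1 P x + pd Complex.I Qf x) D := (hpc hP 1).add (hpc hQ Complex.I)
  have hψD : ContinuousOn ψ D := hψ.continuousOn
  have hwm : ContinuousOn (fun x => pd 1 ψ x * P x + pd Complex.I ψ x * Qf x) D :=
    ((hpc hψ 1).mul hP.continuousOn).add ((hpc hψ Complex.I).mul hQ.continuousOn)
  have l1 : Tendsto (fun N : ℕ => ∫ x in D, Se (eN N) (ψ x) * (pd 1 P x + pd Complex.I Qf x)) atTop
      (𝓝 (∫ x in D, ψ x * (pd 1 P x + pd Complex.I Qf x))) := by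
    refine tendsto_integral_of_dominated_convergence
      (fun x => ‖ψ x * (pd 1 P x + pd Complex.I Qf x)‖) (fun N => ?_) h1.norm (fun N => ?_) ?_
    · exact (((contDiff_Se (eN N)).continuous.comp_continuousOn hψD).mul hdm).aestronglyMeasurable
        hD.measurableSet
    · filter_upwards with x
      rw [norm_mul, norm_mul]
      exact mul_le_mul_of_nonneg_right (abs_Se_le (eN_pos N) _) (norm_nonneg _)
    · filter_upwards with x
      exact (tendsto_Se (ψ x)).mul_const _
  have l2 : Tendsto (fun N : ℕ => ∫ x in D, sg (ψ x / eN N) * (pd 1 ψ x * P x + pd Complex.I ψ x * Qf x)) atTop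
      (𝓝 (∫ x in D, (pd 1 ψ x * P x + pd Complex.I ψ x * Qf x))) := by
    refine tendsto_integral_of_dominated_convergence
      (fun x => ‖pd 1 ψ x * P x + pd Complex.I ψ x * Qf x‖) (fun N => ?_) h2.norm (fun N => ?_) ?_
    · exact ((continuous_sg.comp_continuousOn (hψD.div_const _)).mul hwm).aestronglyMeasurable
        hD.measurableSet
    · filter_upwards with x
      rw [norm_mul]
      have h := sg_le_one (ψ x / eN N)
      have h' := sg_nonneg (ψ x / eN N)
      rw [Real.norm_eq_abs (sg _), abs_of_nonneg h']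
      exact mul_le_of_le_one_left (norm_nonneg _) h
    · filter_upwards [ae_crit hD (hψ.differentiableOn (by simp))] with x hx
      by_cases h0 : ψ x = 0
      · have h3 := hx h0
        have h4 : pd 1 ψ x * P x + pd Complex.I ψ x * Qf x = 0 := by
          unfold pd
          rw [h3]
          simp
        rw [h4]
        simp
      · have h3 := (tendsto_sg h0).mul_const (pd 1 ψ x * P x + pd Complex.I ψ x * Qf x)
        rwa [one_mul] at h3
  have l3 : Tendsto (fun N : ℕ => ∫ x in D, Se (eN N) (ψ x) * (pd 1 P x + pd Complex.I Qf x)) atTop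
      (𝓝 (-∫ x in D, (pd 1 ψ x * P x + pd Complex.I ψ x * Qf x))) := by
    simp_rw [key]
    exact l2.neg
  exact tendsto_nhds_unique l1 l3

/-- The coefficient of an eigenfunction satisfies the oscillator equation. -/
theorem WS.coef {c : ℝ} {D : Set ℂ} {Z : ℕ → ℂ → ℝ → ℝ} {G : ℕ → ℂ → ℝ → ℂ} (hD : IsOpen D)
    (hb : Bornology.IsBounded D) (hc : 0 < c) (h : WS c D Z G) {l : ℝ} {φ : ℂ → ℝ}
    (hφc : ContinuousOn φ (closure D)) (hφ : ContDiffOn ℝ 2 φ D) (hφ0 : ∀ x ∈ frontier D, φ x = 0)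
    (he : ∀ x ∈ D, lap φ x = -l * φ x) (t : ℝ) :
    ∫ x in D, Z 2 x t * φ x = -(c ^ 2 * l) * ∫ x in D, Z 0 x t * φ x := by
  have hv2 : ContDiffOn ℝ 2 (fun x => Z 0 x t) D := h.c2 0 t
  have hvc : ContinuousOn (fun x => Z 0 x t) (closure D) := slice (h.cont 0) t
  have hz2 : ContinuousOn (fun x => Z 2 x t) (closure D) := slice (h.cont 2) t
  have hGc : ContinuousOn (fun x => G 0 x t) (closure D) := slice (h.contG 0) t
  have hv1 : ContDiffOn ℝ 1 (fun x => Z 0 x t) D := hv2.of_le (by norm_num)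
  have hφ1 : ContDiffOn ℝ 1 φ D := hφ.of_le (by norm_num)
  have p1 : ∀ v, ContDiffOn ℝ 1 (pd v fun x => Z 0 x t) D := fun v => contDiffOn_pd hD hv2 (by norm_num) v
  have p2 : ∀ v, ContDiffOn ℝ 1 (pd v φ) D := fun v => contDiffOn_pd hD hφ (by norm_num) v
  have hG2 : IntegrableOn (fun x => (G 0 x t).re ^ 2 + (G 0 x t).im ^ 2) D := by
    refine intOn hb ?_
    exact ((Complex.continuous_re.comp_continuousOn hGc).pow 2).add
      ((Complex.continuous_im.comp_continuousOn hGc).pow 2)
  have hgr : IntegrableOn (fun x => pd 1 φ x * pd 1 (fun x => Z 0 x t) x +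
      pd Complex.I φ x * pd Complex.I (fun x => Z 0 x t) x) D := by
    refine Integrable.mono' ((grad_sq hD hb hφc hφ hφ0 he).1.add hG2) ?_ ?_
    · exact (((p2 1).continuousOn.mul (p1 1).continuousOn).add
        ((p2 Complex.I).continuousOn.mul (p1 Complex.I).continuousOn)).aestronglyMeasurable hD.measurableSet
    · rw [ae_restrict_iff' hD.measurableSet]
      filter_upwards with x hx
      obtain ⟨g1, g2⟩ := h.grad 0 x hx t
      rw [g1, g2, Real.norm_eq_abs, Pi.add_apply, abs_le]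
      constructor
      · nlinarith [sq_nonneg (pd 1 φ x + (G 0 x t).re), sq_nonneg (pd Complex.I φ x + (G 0 x t).im),
          sq_nonneg (pd 1 φ x), sq_nonneg (pd Complex.I φ x), sq_nonneg (G 0 x t).re, sq_nonneg (G 0 x t).im]
      · nlinarith [sq_nonneg (pd 1 φ x - (G 0 x t).re), sq_nonneg (pd Complex.I φ x - (G 0 x t).im),
          sq_nonneg (pd 1 φ x), sq_nonneg (pd Complex.I φ x), sq_nonneg (G 0 x t).re, sq_nonneg (G 0 x t).im]
  have hw : ∀ x ∈ D, Z 2 x t = c ^ 2 * lap (fun y => Z 0 y t) x := fun x hx => h.wave 0 x hx t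
  have hc2 : c ^ 2 ≠ 0 := by positivity
  have q1 := Cfb_green hD hb hφc hφ1 hφ0 (p1 1) (p1 Complex.I) (by
    have h3 : IntegrableOn (fun x => (c ^ 2)⁻¹ * (φ x * Z 2 x t)) D :=
      intOn hb (continuousOn_const.mul (hφc.mul hz2))
    refine h3.congr_fun (fun x hx => ?_) hD.measurableSet
    show (c ^ 2)⁻¹ * (φ x * Z 2 x t) = φ x * lap (fun y => Z 0 y t) x
    rw [hw x hx]
    field_simp) hgr
  have q2 := Cfb_green hD hb hvc hv1 (fun x hx => h.bdry 0 x hx t) (p2 1) (p2 Complex.I) (by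
    have h3 : IntegrableOn (fun x => -l * (Z 0 x t * φ x)) D :=
      intOn hb (continuousOn_const.mul (hvc.mul hφc))
    refine h3.congr_fun (fun x hx => ?_) hD.measurableSet
    show -l * (Z 0 x t * φ x) = Z 0 x t * lap φ x
    rw [he x hx]
    ring) (hgr.congr_fun (fun x _ => by ring) hD.measurableSet)
  have q3 : ∫ x in D, (pd 1 φ x * pd 1 (fun x => Z 0 x t) x +
      pd Complex.I φ x * pd Complex.I (fun x => Z 0 x t) x) =
      ∫ x in D, (pd 1 (fun x => Z 0 x t) x * pd 1 φ x + pd Complex.I (fun x => Z 0 x t) x * pd Complex.I φ x) := by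
    refine setIntegral_congr_fun hD.measurableSet fun x _ => ?_
    ring
  have q4 : ∫ x in D, Z 2 x t * φ x = c ^ 2 * ∫ x in D, φ x * (pd 1 (pd 1 fun x => Z 0 x t) x +
      pd Complex.I (pd Complex.I fun x => Z 0 x t) x) := by
    rw [← integral_const_mul]
    refine setIntegral_congr_fun hD.measurableSet fun x hx => ?_
    show Z 2 x t * φ x = c ^ 2 * (φ x * lap (fun y => Z 0 y t) x)
    rw [hw x hx]
    ring
  have q5 : ∫ x in D, Z 0 x t * (pd 1 (pd 1 φ) x + pd Complex.I (pd Complex.I φ) x) =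
      -l * ∫ x in D, Z 0 x t * φ x := by
    rw [← integral_const_mul]
    refine setIntegral_congr_fun hD.measurableSet fun x hx => ?_
    show Z 0 x t * lap φ x = -l * (Z 0 x t * φ x)
    rw [he x hx]
    ring
  rw [q4, q1, q3, ← q2, q5]
  ring

end DrumL
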