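import Pool.Agent.Lib.MP_d92c84_anF.Hes

/-!
# Comparison with the Laplacian and the gradient of Mathlib
-/

set_option autoImplicit false

namespace DrumL

open MeasureTheory Set Filter Topology
open scoped ContDiff

/-- The Laplacian of Mathlib is the sum of the two iterated partial derivatives. -/
theorem laplacian_eq_lap {D : Set ℂ} (hD : IsOpen D) {f : ℂ → ℝ} (hf : ContDiffOn ℝ 2 f D) {x : ℂ} (hx : x ∈ D) :
    Laplacian.laplacian f x = lap f x := by
  obtain ⟨h1, -, -⟩ := hess_trace hD hf hx
  rw [InnerProductSpace.laplacian_eq_iteratedFDeriv_complexPlane]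
  simp only [iteratedFDeriv_two_apply]
  unfold lap
  rw [h1, h1]
  simp

/-- The partial derivatives are the components of the gradient. -/
theorem pd_of_gradient {f : ℂ → ℝ} {g x : ℂ} (h : HasGradientAt f g x) : pd 1 f x = g.re ∧ pd Complex.I f x = g.im := by
  rw [hasGradientAt_iff_hasFDerivAt] at h
  unfold pd
  rw [h.fderiv, InnerProductSpace.toDual_apply_apply, InnerProductSpace.toDual_apply_apply, Complex.inner,
    Complex.inner]
  constructor <;> simp

/-- The quadratic form is negative exactly when the Rayleigh quotient is smaller than `l`. -/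
theorem q_neg_iff {l : ℝ} {φ : ℂ → ℝ} (hφ : ContDiff ℝ ∞ φ) (hs : HasCompactSupport φ) :
    Q l φ φ < 0 ↔ ∫ x, ‖gradient φ x‖ ^ 2 < l * ∫ x, φ x ^ 2 := by
  have hφ1 : ContDiff ℝ 1 φ := hφ.of_le (by exact_mod_cast le_top)
  have hd : Differentiable ℝ φ := hφ1.differentiable (by norm_num)
  have h1 : ∀ x, ‖gradient φ x‖ ^ 2 = pd 1 φ x * pd 1 φ x + pd Complex.I φ x * pd Complex.I φ x := by
    intro x
    obtain ⟨h2, h3⟩ := pd_of_gradient (hd x).hasGradientAt
    rw [h2, h3, Complex.sq_norm, Complex.normSq_apply]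
  have hi1 : Integrable fun x => pd 1 φ x * pd 1 φ x :=
    integrable_of_comp ((continuous_pd hφ1 1).mul (continuous_pd hφ1 1)) (compact_pd hs 1).mul_right
  have hi2 : Integrable fun x => pd Complex.I φ x * pd Complex.I φ x :=
    integrable_of_comp ((continuous_pd hφ1 _).mul (continuous_pd hφ1 _)) (compact_pd hs _).mul_right
  have hi3 : Integrable fun x => φ x * φ x :=
    integrable_of_comp (hφ1.continuous.mul hφ1.continuous) hs.mul_right
  have h4 : Q l φ φ = (∫ x, ‖gradient φ x‖ ^ 2) - l * ∫ x, φ x ^ 2 := by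
    unfold Q
    have h5 : (∫ x, (pd 1 φ x * pd 1 φ x + pd Complex.I φ x * pd Complex.I φ x - l * (φ x * φ x))) =
        (∫ x, (pd 1 φ x * pd 1 φ x + pd Complex.I φ x * pd Complex.I φ x)) - ∫ x, l * (φ x * φ x) :=
      integral_sub (hi1.add hi2) (hi3.const_mul l)
    rw [h5, integral_const_mul]
    congr 1
    · exact integral_congr_ae (Eventually.of_forall fun x => (h1 x).symm)
    · congr 1
      exact integral_congr_ae (Eventually.of_forall fun x => (pow_two (φ x)).symm)
  rw [h4]
  constructor <;> intro h <;> linarith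

end DrumL
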