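import Pool.Agent.Lib.MP_d92c84_anF.Par

/-!
# Fourier modes on circles
-/

set_option autoImplicit false

namespace DrumL

open MeasureTheory Set Filter Topology
open scoped ContDiff Real

/-- The point `e^{iθ}` of the unit circle. -/
noncomputable def cis (θ : ℝ) : ℂ := Complex.exp (θ * Complex.I)

/-- The `n`-th Fourier mode of `f` on the circle of radius `r` about `p`. -/
noncomputable def md (n : ℕ) (p : ℂ) (f : ℂ → ℝ) (r : ℝ) : ℂ :=
  ∫ θ in (0 : ℝ)..(2 * π), (f (p + r * cis θ) : ℂ) * Complex.exp (-(n * θ * Complex.I))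

/-- The `n`-th Fourier mode of the radial derivative of `f`. -/
noncomputable def md' (n : ℕ) (p : ℂ) (f : ℂ → ℝ) (r : ℝ) : ℂ :=
  ∫ θ in (0 : ℝ)..(2 * π), (pd (cis θ) f (p + r * cis θ) : ℂ) * Complex.exp (-(n * θ * Complex.I))

theorem Pol_norm_cis (θ : ℝ) : ‖cis θ‖ = 1 := Complex.norm_exp_ofReal_mul_I θ

theorem Pol_cont_cis : Continuous cis := by
  unfold cis
  fun_prop

theorem Pol_norm_exp (n : ℕ) (θ : ℝ) : ‖Complex.exp (-(n * θ * Complex.I))‖ = 1 := by
  have h : -((n : ℂ) * θ * Complex.I) = ((-(n * θ) : ℝ) : ℂ) * Complex.I := by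
    push_cast
    ring
  rw [h, Complex.norm_exp_ofReal_mul_I]

theorem Pol_mem {p : ℂ} {ρ : ℝ} {r : ℝ} (hr : |r| < ρ) (θ : ℝ) : p + r * cis θ ∈ Metric.ball p ρ := by
  rw [Metric.mem_ball, dist_eq_norm, add_sub_cancel_left, norm_mul, Pol_norm_cis, mul_one, Complex.norm_real,
    Real.norm_eq_abs]
  exact hr

theorem Pol_curve (p : ℂ) (r : ℝ) : Continuous fun θ : ℝ => p + r * cis θ :=
  continuous_const.add (continuous_const.mul Pol_cont_cis)

/-- The derivative of a Fourier mode with respect to the radius. -/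
theorem md_deriv {p : ℂ} {ρ : ℝ} {f : ℂ → ℝ} (hf : ContDiffOn ℝ 1 f (Metric.ball p ρ)) (n : ℕ) {r : ℝ}
    (hr : r ∈ Ioo (-ρ) ρ) : HasDerivAt (md n p f) (md' n p f r) r := by
  have hr' : |r| < ρ := abs_lt.2 ⟨by linarith [hr.1], hr.2⟩
  obtain ⟨r₁, h1, h2⟩ := exists_between hr'
  have hfc : ContinuousOn (fderiv ℝ f) (Metric.ball p ρ) :=
    hf.continuousOn_fderiv_of_isOpen Metric.isOpen_ball le_rfl
  have hsub : Metric.closedBall p r₁ ⊆ Metric.ball p ρ := Metric.closedBall_subset_ball h2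
  obtain ⟨C, hC⟩ := (isCompact_closedBall p r₁).exists_bound_of_continuousOn (hfc.mono hsub)
  have hs : Ioo (-r₁) r₁ ∈ 𝓝 r := Ioo_mem_nhds (by linarith [(abs_lt.1 h1).1]) (abs_lt.1 h1).2
  have hexp : Continuous fun θ : ℝ => Complex.exp (-(n * θ * Complex.I)) := by fun_prop
  have hF : ∀ x ∈ Ioo (-r₁) r₁, Continuous fun θ : ℝ =>
      (f (p + x * cis θ) : ℂ) * Complex.exp (-(n * θ * Complex.I)) := by
    intro x hx
    refine (Complex.continuous_ofReal.comp ?_).mul hexp
    exact hf.continuousOn.comp_continuous (Pol_curve p x) fun θ => Pol_mem ((abs_lt.2 hx).trans h2) θ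
  have hF' : ∀ x ∈ Ioo (-r₁) r₁, Continuous fun θ : ℝ =>
      (pd (cis θ) f (p + x * cis θ) : ℂ) * Complex.exp (-(n * θ * Complex.I)) := by
    intro x hx
    refine (Complex.continuous_ofReal.comp ?_).mul hexp
    unfold pd
    exact (hfc.comp_continuous (Pol_curve p x) fun θ => Pol_mem ((abs_lt.2 hx).trans h2) θ).clm_apply Pol_cont_cis
  have hrs : r ∈ Ioo (-r₁) r₁ := abs_lt.1 h1
  have key := intervalIntegral.hasDerivAt_integral_of_dominated_loc_of_deriv_le (μ := volume) (a := 0) (b := 2 * π)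
    (F := fun (x : ℝ) (θ : ℝ) => (f (p + x * cis θ) : ℂ) * Complex.exp (-(n * θ * Complex.I)))
    (F' := fun (x : ℝ) (θ : ℝ) => (pd (cis θ) f (p + x * cis θ) : ℂ) * Complex.exp (-(n * θ * Complex.I)))
    (x₀ := r) (s := Ioo (-r₁) r₁) (bound := fun _ => C) hs
    (Filter.eventually_of_mem hs fun x hx => (hF x hx).aestronglyMeasurable)
    ((hF r hrs).intervalIntegrable _ _) (hF' r hrs).aestronglyMeasurable
    (Eventually.of_forall fun θ _ x hx => by
      rw [norm_mul, Pol_norm_exp, mul_one, Complex.norm_real]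
      have hmem : p + x * cis θ ∈ Metric.closedBall p r₁ := by
        exact Metric.ball_subset_closedBall (Pol_mem (abs_lt.2 hx) θ)
      calc ‖pd (cis θ) f (p + x * cis θ)‖ ≤ ‖fderiv ℝ f (p + x * cis θ)‖ * ‖cis θ‖ :=
            ContinuousLinearMap.le_opNorm _ _
        _ = ‖fderiv ℝ f (p + x * cis θ)‖ := by rw [Pol_norm_cis, mul_one]
        _ ≤ C := hC _ hmem)
    intervalIntegrable_const
    (Eventually.of_forall fun θ _ x hx => by
      have hmem : p + x * cis θ ∈ Metric.ball p ρ := Pol_mem ((abs_lt.2 hx).trans h2) θ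
      have hd : HasFDerivAt f (fderiv ℝ f (p + x * cis θ)) (p + x * cis θ) :=
        ((hf.differentiableOn (by norm_num)).differentiableAt (Metric.isOpen_ball.mem_nhds hmem)).hasFDerivAt
      have hc : HasDerivAt (fun x : ℝ => p + (x : ℂ) * cis θ) (cis θ) x := by
        have h3 : HasDerivAt (fun x : ℝ => (x : ℂ)) 1 x := Complex.ofRealCLM.hasDerivAt
        have h4 := (h3.mul_const (cis θ)).const_add p
        rwa [one_mul] at h4
      exact (hd.comp_hasDerivAt x hc).ofReal_comp.mul_const _)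
  exact key.2

end DrumL
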