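import Pool.Agent.Lib.MP_d92c84_anF.Mia
import Pool.Agent.Lib.MP_d92c84_anF.Pol

/-!
# Crossing in a disc
-/

set_option autoImplicit false

namespace DrumL

open Filter Topology Set
open scoped Real

private lemma Crs_int {x y : ℤ} (h : 2 * Real.pi * (x : ℝ) < 2 * Real.pi * (y : ℝ) + 2 * Real.pi) : x ≤ y := by
  have h1 : 2 * Real.pi * (x : ℝ) < 2 * Real.pi * ((y : ℝ) + 1) := by linarith
  have h2 : (x : ℝ) < (y : ℝ) + 1 := lt_of_mul_lt_mul_left h1 (by positivity)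
  have h3 : x < y + 1 := by exact_mod_cast h2
  omega

private lemma Crs_norm (a : ℝ) : ‖Complex.exp (-((a : ℂ) * Complex.I))‖ = 1 := by
  have : -((a : ℂ) * Complex.I) = ((-a : ℝ) : ℂ) * Complex.I := by push_cast; ring
  rw [this, Complex.norm_exp_ofReal_mul_I]

private lemma Crs_re {R : ℝ} {w : ℂ} (hw : ‖w‖ ≤ R) (a : ℝ) :
    (w * Complex.exp (-((a : ℂ) * Complex.I))).re ≤ R := by
  refine le_trans (Complex.re_le_norm _) ?_
  rw [norm_mul, Crs_norm, mul_one]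
  exact hw

private lemma Crs_cis (R a : ℝ) : ((R : ℂ) * cis a) * Complex.exp (-((a : ℂ) * Complex.I)) = R := by
  have h : cis a = Complex.exp ((a : ℂ) * Complex.I) := by
    simp only [cis]
  rw [h, mul_assoc, ← Complex.exp_add, add_neg_cancel, Complex.exp_zero, mul_one]

private lemma Crs_shift (w : ℂ) (a : ℝ) : w * Complex.exp (-(((a + Real.pi : ℝ) : ℂ) * Complex.I)) =
    -(w * Complex.exp (-((a : ℂ) * Complex.I))) := by
  have : -(((a + Real.pi : ℝ) : ℂ) * Complex.I) = -((a : ℂ) * Complex.I) + -(((Real.pi : ℝ) : ℂ) * Complex.I) := by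
    push_cast; ring
  rw [this, Complex.exp_add, Complex.exp_neg (((Real.pi : ℝ) : ℂ) * Complex.I), Complex.exp_pi_mul_I]
  norm_num

private lemma Crs_shift' (w : ℂ) (a : ℝ) : w * Complex.exp (-(((a - Real.pi : ℝ) : ℂ) * Complex.I)) =
    -(w * Complex.exp (-((a : ℂ) * Complex.I))) := by
  have : -(((a - Real.pi : ℝ) : ℂ) * Complex.I) = -((a : ℂ) * Complex.I) + (((Real.pi : ℝ) : ℂ) * Complex.I) := by
    push_cast; ring
  rw [this, Complex.exp_add, Complex.exp_pi_mul_I]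
  ring

/-- Crossing in a disc: two paths in a closed disc whose end points alternate on the circle meet. -/
theorem disc_cross {h v : ℝ → ℂ} (hh : ContinuousOn h (Icc 0 1)) (hv : ContinuousOn v (Icc 0 1)) {R : ℝ} (hR : 0 < R)
    (hh1 : ∀ s ∈ Icc (0 : ℝ) 1, ‖h s‖ ≤ R) (hv1 : ∀ t ∈ Icc (0 : ℝ) 1, ‖v t‖ ≤ R) {a₁ a₂ a₃ a₄ : ℝ} (h12 : a₁ < a₂)
    (h23 : a₂ < a₃) (h34 : a₃ < a₄) (h41 : a₄ < a₁ + 2 * π) (e1 : h 0 = R * cis a₁) (e2 : v 0 = R * cis a₂)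
    (e3 : h 1 = R * cis a₃) (e4 : v 1 = R * cis a₄) : ∃ s ∈ Icc (0 : ℝ) 1, ∃ t ∈ Icc (0 : ℝ) 1, h s = v t := by
  by_contra hcon
  have hne : ∀ s ∈ Icc (0 : ℝ) 1, ∀ t ∈ Icc (0 : ℝ) 1, h s ≠ v t :=
    fun s hs t ht he => hcon ⟨s, hs, t, ht, he⟩
  have hF : ContinuousOn (fun q : ℝ × ℝ => h q.1 - v q.2) (Icc 0 1 ×ˢ Icc 0 1) :=
    (hh.comp continuousOn_fst (fun q hq => hq.1)).sub (hv.comp continuousOn_snd (fun q hq => hq.2))
  obtain ⟨L, hL, hexp⟩ := exists_log hF (fun q hq => sub_ne_zero.2 (hne _ hq.1 _ hq.2))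
  have z0 : (0 : ℝ) ∈ Icc (0 : ℝ) 1 := by simp
  have z1 : (1 : ℝ) ∈ Icc (0 : ℝ) 1 := by simp
  have c1 : ∀ t ∈ Icc (0 : ℝ) 1, ContinuousOn (fun s : ℝ => L (s, t)) (Icc 0 1) := fun t ht =>
    hL.comp (by fun_prop) (fun s hs => ⟨hs, ht⟩)
  have c2 : ∀ s ∈ Icc (0 : ℝ) 1, ContinuousOn (fun t : ℝ => L (s, t)) (Icc 0 1) := fun s hs =>
    hL.comp (by fun_prop) (fun t ht => ⟨hs, ht⟩)
  obtain ⟨k, hk⟩ := im_log isPreconnected_Icc (c1 0 z0) (a := a₂ + Real.pi) (fun s hs => by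
    have h0 := hexp (s, 0) ⟨hs, z0⟩
    rw [h0, Crs_shift]
    simp only [e2, sub_mul, Crs_cis, Complex.neg_re, Complex.sub_re, Complex.ofReal_re]
    linarith [Crs_re (hh1 s hs) a₂])
  obtain ⟨j, hj⟩ := im_log isPreconnected_Icc (c2 1 z1) (a := a₃) (fun t ht => by
    have h0 := hexp (1, t) ⟨z1, ht⟩
    rw [h0]
    simp only [e3, sub_mul, Crs_cis, Complex.sub_re, Complex.ofReal_re]
    linarith [Crs_re (hv1 t ht) a₃])
  obtain ⟨i, hi⟩ := im_log isPreconnected_Icc (c1 1 z1) (a := a₄ - Real.pi) (fun s hs => by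
    have h0 := hexp (s, 1) ⟨hs, z1⟩
    rw [h0, Crs_shift']
    simp only [e4, sub_mul, Crs_cis, Complex.neg_re, Complex.sub_re, Complex.ofReal_re]
    linarith [Crs_re (hh1 s hs) a₄])
  obtain ⟨m, hm⟩ := im_log isPreconnected_Icc (c2 0 z0) (a := a₁) (fun t ht => by
    have h0 := hexp (0, t) ⟨z0, ht⟩
    rw [h0]
    simp only [e1, sub_mul, Crs_cis, Complex.sub_re, Complex.ofReal_re]
    linarith [Crs_re (hv1 t ht) a₁])
  have hpi := Real.pi_pos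
  have a00 := hk 0 z0
  have b00 := hm 0 z0
  have a10 := hk 1 z1
  have b10 := hj 0 z0
  have a11 := hj 1 z1
  have b11 := hi 1 z1
  have a01 := hi 0 z0
  have b01 := hm 1 z1
  have r1 : k + 1 ≤ m := Crs_int (by push_cast; linarith [a00.1, b00.2])
  have r2 : j ≤ k := Crs_int (by linarith [a10.2, b10.1])
  have r3 : i ≤ j := Crs_int (by linarith [a11.2, b11.1])
  have r4 : m ≤ i := Crs_int (by linarith [a01.2, b01.1])
  omega

end DrumL
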