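import Pool.Agent.Lib.MP_d92c84_anF.L2c

/-!
# Convolution with the bump function
-/

set_option autoImplicit false

namespace DrumL

open MeasureTheory Set Filter Topology
open scoped ContDiff

/-- The convolution of `u`, restricted to `D`, with the bump function. -/
noncomputable def cv (D : Set ℂ) (u : ℂ → ℝ) (δ : ℝ) (x : ℂ) : ℝ := ∫ y in D, u y * bmp δ (x - y)

private theorem Cva_eq {D : Set ℂ} (hD : IsOpen D) (u g : ℂ → ℝ) :
    (fun x => ∫ y in D, u y * g (x - y)) =
      MeasureTheory.convolution (indicator D u) g (ContinuousLinearMap.mul ℝ ℝ) volume := by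
  funext x
  rw [← integral_indicator hD.measurableSet]
  show _ = ∫ y, (ContinuousLinearMap.mul ℝ ℝ) (indicator D u y) (g (x - y))
  refine integral_congr_ae (Filter.Eventually.of_forall fun y => ?_)
  show indicator D (fun y => u y * g (x - y)) y = indicator D u y * g (x - y)
  by_cases hy : y ∈ D
  · rw [indicator_of_mem hy, indicator_of_mem hy]
  · rw [indicator_of_notMem hy, indicator_of_notMem hy, zero_mul]

private theorem Cva_loc {D : Set ℂ} (hD : IsOpen D) {u : ℂ → ℝ} (hu : IntegrableOn u D) :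
    LocallyIntegrable (indicator D u) volume :=
  ((integrable_indicator_iff hD.measurableSet).2 hu).locallyIntegrable

private theorem Cva_contDiff {D : Set ℂ} (hD : IsOpen D) {u : ℂ → ℝ} (hu : IntegrableOn u D)
    {g : ℂ → ℝ} (hg : ContDiff ℝ ∞ g) (hc : HasCompactSupport g) :
    ContDiff ℝ ∞ (fun x => ∫ y in D, u y * g (x - y)) := by
  rw [Cva_eq hD]
  exact hc.contDiff_convolution_right (ContinuousLinearMap.mul ℝ ℝ) (Cva_loc hD hu) hg

private theorem Cva_pd {D : Set ℂ} (hD : IsOpen D) {u : ℂ → ℝ} (hu : IntegrableOn u D)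
    {g : ℂ → ℝ} (hg : ContDiff ℝ ∞ g) (hc : HasCompactSupport g) (v x : ℂ) :
    pd v (fun x => ∫ y in D, u y * g (x - y)) x = ∫ y in D, u y * pd v g (x - y) := by
  have hg1 : ContDiff ℝ 1 g := hg.of_le (by exact_mod_cast le_top)
  have h2 : (∫ y in D, u y * pd v g (x - y)) =
      MeasureTheory.convolution (indicator D u) (pd v g) (ContinuousLinearMap.mul ℝ ℝ) volume x :=
    congrFun (Cva_eq hD u (pd v g)) x
  rw [h2, Cva_eq hD]
  have h1 := hc.hasFDerivAt_convolution_right (ContinuousLinearMap.mul ℝ ℝ) (Cva_loc hD hu) hg1 x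
  have hex : ConvolutionExistsAt (indicator D u) (fderiv ℝ g) x
      ((ContinuousLinearMap.mul ℝ ℝ).precompR ℂ) volume :=
    (hc.fderiv ℝ).convolutionExists_right ((ContinuousLinearMap.mul ℝ ℝ).precompR ℂ)
      (Cva_loc hD hu) (hg1.continuous_fderiv one_ne_zero) x
  show fderiv ℝ _ x v = _
  rw [h1.fderiv]
  show (∫ t, ((ContinuousLinearMap.mul ℝ ℝ).precompR ℂ) (indicator D u t)
    (fderiv ℝ g (x - t))) v = _
  rw [ContinuousLinearMap.integral_apply hex]
  rfl

private theorem Cva_int {D : Set ℂ} (hD : IsOpen D) {u : ℂ → ℝ} (hu : IntegrableOn u D)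
    {g : ℂ → ℝ} (hg : Continuous g) (hc : HasCompactSupport g) (x : ℂ) :
    IntegrableOn (fun y => u y * g (x - y)) D := by
  have h1 : ConvolutionExistsAt (indicator D u) g x (ContinuousLinearMap.mul ℝ ℝ) volume :=
    hc.convolutionExists_right (ContinuousLinearMap.mul ℝ ℝ) (Cva_loc hD hu) hg x
  have h2 : Integrable (fun y => indicator D u y * g (x - y)) volume := h1
  refine (integrable_indicator_iff hD.measurableSet).1 (h2.congr ?_)
  refine Filter.Eventually.of_forall fun y => ?_
  show indicator D u y * g (x - y) = indicator D (fun y => u y * g (x - y)) y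
  by_cases hy : y ∈ D
  · rw [indicator_of_mem hy, indicator_of_mem hy]
  · rw [indicator_of_notMem hy, indicator_of_notMem hy, zero_mul]

/-- The convolution with the bump function is smooth. -/
theorem contDiff_cv {D : Set ℂ} (hD : IsOpen D) {u : ℂ → ℝ} (hu : IntegrableOn u D) {δ : ℝ} (hδ : 0 < δ) :
    ContDiff ℝ ∞ (cv D u δ) :=
  Cva_contDiff hD hu (contDiff_bmp δ) (compact_bmp hδ.le)

/-- The derivative of the convolution with the bump function. -/
theorem pd_cv {D : Set ℂ} (hD : IsOpen D) {u : ℂ → ℝ} (hu : IntegrableOn u D) {δ : ℝ} (hδ : 0 < δ) (v x : ℂ) :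
    pd v (cv D u δ) x = ∫ y in D, u y * pd v (bmp δ) (x - y) :=
  Cva_pd hD hu (contDiff_bmp δ) (compact_bmp hδ.le) v x

/-- The Laplacian of the convolution with the bump function. -/
theorem lap_cv {D : Set ℂ} (hD : IsOpen D) {u : ℂ → ℝ} (hu : IntegrableOn u D) {δ : ℝ} (hδ : 0 < δ) (x : ℂ) :
    lap (cv D u δ) x = ∫ y in D, u y * lap (bmp δ) (x - y) := by
  have hs : ∀ v, ContDiff ℝ ∞ (pd v (bmp δ)) := fun v => contDiff_pd (n := ⊤) (contDiff_bmp δ) v
  have hc : ∀ v, HasCompactSupport (pd v (bmp δ)) := fun v =>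
    (compact_bmp hδ.le).of_isClosed_subset (isClosed_tsupport _) (tsupport_pd v _)
  have h2 : ∀ v, pd v (pd v (cv D u δ)) x = ∫ y in D, u y * pd v (pd v (bmp δ)) (x - y) := by
    intro v
    have h3 : pd v (cv D u δ) = fun x => ∫ y in D, u y * pd v (bmp δ) (x - y) := by
      funext x
      exact pd_cv hD hu hδ v x
    rw [h3]
    exact Cva_pd hD hu (hs v) (hc v) v x
  have hi : ∀ v, IntegrableOn (fun y => u y * pd v (pd v (bmp δ)) (x - y)) D := fun v =>
    Cva_int hD hu (contDiff_pd (n := ⊤) (hs v) v).continuous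
      ((hc v).of_isClosed_subset (isClosed_tsupport _) (tsupport_pd v _)) x
  show pd 1 (pd 1 (cv D u δ)) x + pd Complex.I (pd Complex.I (cv D u δ)) x = _
  rw [h2, h2, ← integral_add (hi 1) (hi Complex.I)]
  refine integral_congr_ae (Filter.Eventually.of_forall fun y => ?_)
  show u y * _ + u y * _ = u y * (_ + _)
  rw [mul_add]

end DrumL
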