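import Pool.Agent.Lib.MP_d92c84_anF.Cva

/-!
# Convolution of a weak solution with the bump function
-/

set_option autoImplicit false

namespace DrumL

open MeasureTheory Set Filter Topology
open scoped ContDiff

private theorem Cvb_pd {f : ℂ → ℝ} (hf : Differentiable ℝ f) (v x y : ℂ) :
    pd v (fun y => f (x - y)) y = -pd v f (x - y) := by
  have h1 : HasFDerivAt (fun y : ℂ => x - y) (-ContinuousLinearMap.id ℝ ℂ) y := (hasFDerivAt_id y).const_sub x
  have h2 := (hf (x - y)).hasFDerivAt.comp y h1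
  have h3 : fderiv ℝ (fun y => f (x - y)) y = (fderiv ℝ f (x - y)).comp (-ContinuousLinearMap.id ℝ ℂ) := h2.fderiv
  unfold pd
  rw [h3, ContinuousLinearMap.comp_apply, neg_apply, ContinuousLinearMap.id_apply, map_neg]

private theorem Cvb_pd2 {f : ℂ → ℝ} (hf : ContDiff ℝ ∞ f) (v x y : ℂ) :
    pd v (pd v fun y => f (x - y)) y = pd v (pd v f) (x - y) := by
  have h1 : (pd v fun y => f (x - y)) = fun y => -pd v f (x - y) :=
    funext fun z => Cvb_pd (hf.differentiable (by simp)) v x z
  have h2 : Differentiable ℝ (pd v f) := (contDiff_pd (n := ⊤) hf v).differentiable (by simp)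
  have h3 : Differentiable ℝ (fun z => -pd v f z) := h2.neg
  rw [h1]
  have h4 := Cvb_pd h3 v x y
  change pd v (fun y => (fun z => -pd v f z) (x - y)) y = _
  rw [h4]
  have h5 : pd v (fun z => -pd v f z) (x - y) = -pd v (pd v f) (x - y) := by
    unfold pd
    rw [fderiv_fun_neg, neg_apply]
  rw [h5, neg_neg]

private theorem Cvb_lap {f : ℂ → ℝ} (hf : ContDiff ℝ ∞ f) (x y : ℂ) :
    lap (fun y => f (x - y)) y = lap f (x - y) := by
  unfold lap
  rw [Cvb_pd2 hf, Cvb_pd2 hf]

private theorem Cvb_int {D : Set ℂ} {u : ℂ → ℝ} (hu : IntegrableOn u D) {g : ℂ → ℝ} (hg : Continuous g)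
    (hc : HasCompactSupport g) (x : ℂ) : IntegrableOn (fun y => u y * g (x - y)) D := by
  obtain ⟨C, hC⟩ := hc.exists_bound_of_continuous hg
  exact hu.mul_bdd (c := C) (hg.comp (continuous_const.sub continuous_id)).aestronglyMeasurable
    (ae_of_all _ fun y => hC _)

/-- The convolution with the bump function of a weak solution of `Δ u = -l u` on `D` is a smooth solution on the set of
the centres of the closed discs of radius `δ` in `D`. -/
theorem hz_cv {D : Set ℂ} (hD : IsOpen D) {l : ℝ} {u : ℂ → ℝ} (hu : IntegrableOn u D)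
    (hw : ∀ φ : ℂ → ℝ, Tst D φ → ∫ x in D, u x * (lap φ x + l * φ x) = 0) {δ : ℝ} (hδ : 0 < δ) :
    IsOpen {x | Metric.closedBall x δ ⊆ D} ∧ Hz l {x | Metric.closedBall x δ ⊆ D} (cv D u δ) := by
  constructor
  · rw [Metric.isOpen_iff]
    intro x hx
    obtain ⟨ε, hε, h1⟩ := (isCompact_closedBall x δ).exists_thickening_subset_open hD hx
    refine ⟨ε, hε, fun x' hx' y hy => h1 ?_⟩
    rw [Metric.mem_thickening_iff]
    refine ⟨y - x' + x, ?_, ?_⟩
    · rw [Metric.mem_closedBall, dist_eq_norm] at hy ⊢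
      rw [add_sub_cancel_right]
      exact hy
    · rw [Metric.mem_ball, dist_eq_norm] at hx'
      rw [dist_eq_norm]
      have h2 : y - (y - x' + x) = x' - x := by ring
      rw [h2]
      exact hx'
  · refine ⟨(contDiff_cv hD hu hδ).contDiffOn, fun x hx => ?_⟩
    have h1 := hw _ (tst_bmp hδ.le hx)
    have h2 : ∀ y, u y * (lap (fun y => bmp δ (x - y)) y + l * bmp δ (x - y)) =
        u y * lap (bmp δ) (x - y) + l * (u y * bmp δ (x - y)) := by
      intro y
      rw [Cvb_lap (contDiff_bmp δ)]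
      ring
    have h3 : Tst (univ : Set ℂ) (bmp δ) := ⟨contDiff_bmp δ, compact_bmp hδ.le, subset_univ _⟩
    have h4 := Cvb_int hu h3.lap.cont h3.lap.comp x
    have h5 := Cvb_int hu h3.cont h3.comp x
    rw [setIntegral_congr_fun hD.measurableSet fun y _ => h2 y, integral_add h4 (h5.const_mul l),
      integral_const_mul, ← lap_cv hD hu hδ] at h1
    unfold cv
    unfold cv at h1
    linarith

end DrumL
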