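import Mathlib

/-!
# Uniqueness for the radial wave equation with data at the centre
-/

set_option autoImplicit false

namespace DrumL

open MeasureTheory Set Filter Topology

private noncomputable def Dar_ph (y : ℝ) : ℝ := (max 0 y) ^ 2

private noncomputable def Dar_ps (y : ℝ) : ℝ := 2 * max 0 y

private theorem Dar_ph_cont : Continuous Dar_ph := by
  unfold Dar_ph
  fun_prop

private theorem Dar_ps_cont : Continuous Dar_ps := by
  unfold Dar_ps
  fun_prop

private theorem Dar_ph_nonneg (y : ℝ) : 0 ≤ Dar_ph y := sq_nonneg _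

private theorem Dar_ps_nonneg (y : ℝ) : 0 ≤ Dar_ps y :=
  mul_nonneg zero_le_two (le_max_left _ _)

private theorem Dar_ph_pos {y : ℝ} (hy : 0 < y) : 0 < Dar_ph y := by
  unfold Dar_ph
  rw [max_eq_right hy.le]
  positivity

private theorem Dar_ph_zero {y : ℝ} (hy : y ≤ 0) : Dar_ph y = 0 := by
  unfold Dar_ph
  rw [max_eq_left hy]
  norm_num

private theorem Dar_ph_le {y B : ℝ} (hB : 0 ≤ B) (hy : y ≤ B) : Dar_ph y ≤ B ^ 2 := by
  unfold Dar_ph
  have h1 : 0 ≤ max 0 y := le_max_left _ _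
  have h2 : max 0 y ≤ B := max_le hB hy
  exact pow_le_pow_left₀ h1 h2 2

private theorem Dar_ph_deriv (y : ℝ) : HasDerivAt Dar_ph (Dar_ps y) y := by
  rcases lt_trichotomy y 0 with h | h | h
  · have h1 : Dar_ph =ᶠ[𝓝 y] fun _ => 0 := by
      filter_upwards [Iio_mem_nhds h] with z hz
      exact Dar_ph_zero (le_of_lt hz)
    have h2 : Dar_ps y = 0 := by
      unfold Dar_ps
      rw [max_eq_left h.le, mul_zero]
    rw [h2]
    exact (hasDerivAt_const y (0 : ℝ)).congr_of_eventuallyEq h1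
  · subst h
    have h2 : Dar_ps 0 = 0 := by
      unfold Dar_ps
      simp
    rw [h2, hasDerivAt_iff_isLittleO]
    have h3 : Dar_ph 0 = 0 := Dar_ph_zero le_rfl
    simp only [h3, sub_zero, smul_zero]
    rw [Asymptotics.isLittleO_iff]
    intro c hc
    filter_upwards [Metric.ball_mem_nhds (0 : ℝ) hc] with z hz
    rw [Metric.mem_ball, dist_zero_right] at hz
    unfold Dar_ph
    rw [Real.norm_eq_abs, abs_of_nonneg (sq_nonneg _)]
    have h4 : max 0 z ≤ ‖z‖ := max_le (norm_nonneg z) (Real.le_norm_self z)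
    have h5 : 0 ≤ max 0 z := le_max_left _ _
    calc (max 0 z) ^ 2 = max 0 z * max 0 z := sq _
      _ ≤ ‖z‖ * ‖z‖ := mul_le_mul h4 h4 h5 (norm_nonneg z)
      _ ≤ c * ‖z‖ := mul_le_mul_of_nonneg_right hz.le (norm_nonneg z)
  · have h1 : Dar_ph =ᶠ[𝓝 y] fun z => z ^ 2 := by
      filter_upwards [Ioi_mem_nhds h] with z hz
      unfold Dar_ph
      rw [max_eq_right (le_of_lt hz)]
    have h2 : Dar_ps y = 2 * y := by
      unfold Dar_ps
      rw [max_eq_right h.le]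
    rw [h2]
    have h3 : HasDerivAt (fun z : ℝ => z ^ 2) (2 * y) y := by
      have := hasDerivAt_pow 2 y
      simpa using this
    exact h3.congr_of_eventuallyEq h1

private theorem Dar_s_deriv (t : ℝ) :
    HasDerivAt (fun t : ℝ => √(1 + t ^ 2)) (t / √(1 + t ^ 2)) t := by
  have h0 : (1 + t ^ 2) ≠ 0 := by positivity
  have h1 : HasDerivAt (fun t : ℝ => 1 + t ^ 2) (2 * t) t := by
    have := (hasDerivAt_pow 2 t).const_add 1
    simpa using this
  refine (h1.sqrt h0).congr_deriv ?_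
  have h2 : √(1 + t ^ 2) ≠ 0 := by positivity
  field_simp

private theorem Dar_s_abs (t : ℝ) : |t / √(1 + t ^ 2)| ≤ 1 := by
  have h2 : 0 < √(1 + t ^ 2) := by positivity
  rw [abs_div, abs_of_pos h2, div_le_one h2]
  exact Real.abs_le_sqrt (by linarith)

private theorem Dar_s_le (t : ℝ) : |t| ≤ √(1 + t ^ 2) := Real.abs_le_sqrt (by linarith)

private theorem Dar_ptwise {c N r V R T σ p q : ℝ} (hc : 0 < c) (hr : 0 < r) (hN : N = 0 ∨ N = 1)
    (hσ : |σ| ≤ 1) (hp : 0 ≤ p) (hq : 0 ≤ q) :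
    -(p / c) * (R ^ 2 + T ^ 2 / c ^ 2 + N * V ^ 2 / r ^ 2) + p * σ * (2 / c ^ 2) * (R * T)
      - q * (2 * R ^ 2 / r - 4 * N * V * R / r ^ 2 + 2 * N * V ^ 2 / r ^ 3) ≤ 0 := by
  have h1 : 0 ≤ q * (2 * R ^ 2 / r - 4 * N * V * R / r ^ 2 + 2 * N * V ^ 2 / r ^ 3) := by
    refine mul_nonneg hq ?_
    rcases hN with h | h
    · subst h
      have : 0 ≤ 2 * R ^ 2 / r := by positivity
      simpa using this
    · subst h
      have h2 : 2 * R ^ 2 / r - 4 * 1 * V * R / r ^ 2 + 2 * 1 * V ^ 2 / r ^ 3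
          = 2 / r * (R - V / r) ^ 2 := by
        field_simp
        ring
      rw [h2]
      positivity
  have h3 : σ * (R * T) ≤ |R| * |T| := by
    calc σ * (R * T) ≤ |σ * (R * T)| := le_abs_self _
      _ = |σ| * (|R| * |T|) := by rw [abs_mul, abs_mul]
      _ ≤ 1 * (|R| * |T|) := mul_le_mul_of_nonneg_right hσ (by positivity)
      _ = |R| * |T| := one_mul _
  have h4 : 2 / c * (|R| * |T|) ≤ R ^ 2 + T ^ 2 / c ^ 2 := by
    have h5 : 0 ≤ (|R| - |T| / c) ^ 2 := sq_nonneg _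
    have h6 : (|R| - |T| / c) ^ 2 = R ^ 2 + T ^ 2 / c ^ 2 - 2 / c * (|R| * |T|) := by
      have h7 : |R| ^ 2 = R ^ 2 := sq_abs R
      have h8 : |T| ^ 2 = T ^ 2 := sq_abs T
      rw [← h7, ← h8]
      field_simp
      ring
    linarith
  have h9 : 0 ≤ N * V ^ 2 / r ^ 2 := by
    have : 0 ≤ N := by rcases hN with h | h <;> simp [h]
    positivity
  have h10 : p * σ * (2 / c ^ 2) * (R * T) ≤ p / c * (R ^ 2 + T ^ 2 / c ^ 2) := by
    calc p * σ * (2 / c ^ 2) * (R * T) = p / c * (2 / c * (σ * (R * T))) := by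
          field_simp
      _ ≤ p / c * (2 / c * (|R| * |T|)) := by
          refine mul_le_mul_of_nonneg_left ?_ (by positivity)
          exact mul_le_mul_of_nonneg_left h3 (by positivity)
      _ ≤ p / c * (R ^ 2 + T ^ 2 / c ^ 2) := mul_le_mul_of_nonneg_left h4 (by positivity)
  have h11 : 0 ≤ p / c * (N * V ^ 2 / r ^ 2) := mul_nonneg (by positivity) h9
  nlinarith [h1, h10, h11]

private theorem Dar_slice {δ : ℝ} {f : ℝ → ℝ → ℝ}
    (hf : ContinuousOn (fun q : ℝ × ℝ => f q.1 q.2) (Ioo 0 δ ×ˢ univ)) {r : ℝ} (hr : r ∈ Ioo 0 δ) :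
    Continuous (fun t => f r t) := by
  rw [← continuousOn_univ]
  have h1 : ContinuousOn (fun t : ℝ => ((r, t) : ℝ × ℝ)) univ := by fun_prop
  exact hf.comp h1 (fun t _ => ⟨hr, mem_univ _⟩)

/-- The weighted energy vanishes. -/
private theorem Dar_energy {c δ : ℝ} (hc : 0 < c) (hδ : 0 < δ) {N : ℝ} (hN : N = 0 ∨ N = 1)
    {v vr vt vrr vrt vtt : ℝ → ℝ → ℝ}
    (h1 : ∀ r ∈ Ioo 0 δ, ∀ t, HasDerivAt (fun r => v r t) (vr r t) r)
    (h3 : ∀ r ∈ Ioo 0 δ, ∀ t, HasDerivAt (fun r => vr r t) (vrr r t) r)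
    (h4 : ∀ r ∈ Ioo 0 δ, ∀ t, HasDerivAt (fun t => vr r t) (vrt r t) t)
    (h5 : ∀ r ∈ Ioo 0 δ, ∀ t, HasDerivAt (fun r => vt r t) (vrt r t) r)
    (h6 : ∀ r ∈ Ioo 0 δ, ∀ t, HasDerivAt (fun t => vt r t) (vtt r t) t)
    (hc0 : ContinuousOn (fun q : ℝ × ℝ => v q.1 q.2) (Ioo 0 δ ×ˢ univ))
    (hc1 : ContinuousOn (fun q : ℝ × ℝ => vr q.1 q.2) (Ioo 0 δ ×ˢ univ))
    (hc2 : ContinuousOn (fun q : ℝ × ℝ => vt q.1 q.2) (Ioo 0 δ ×ˢ univ))
    (hc3 : ContinuousOn (fun q : ℝ × ℝ => vrr q.1 q.2) (Ioo 0 δ ×ˢ univ))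
    (hc4 : ContinuousOn (fun q : ℝ × ℝ => vrt q.1 q.2) (Ioo 0 δ ×ˢ univ))
    (hc5 : ContinuousOn (fun q : ℝ × ℝ => vtt q.1 q.2) (Ioo 0 δ ×ˢ univ))
    (hpde : ∀ r ∈ Ioo 0 δ, ∀ t, vrr r t + vr r t / r - N * v r t / r ^ 2 = vtt r t / c ^ 2)
    (hlim : ∀ T > 0, ∀ ε > 0, ∃ r₀ > 0, ∀ r ∈ Ioo 0 r₀, r < δ → ∀ t ∈ Icc (-T) T,
      |vr r t| ≤ ε ∧ |vt r t| ≤ ε ∧ N * (v r t) ^ 2 / r ^ 2 ≤ ε ^ 2)
    {r t : ℝ} (hr : r ∈ Ioo 0 δ) : vr r t = 0 := by
  set B : ℝ := r / c + √(1 + t ^ 2) + 1 with hB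
  have hB0 : 0 < B := by
    have : 0 < r / c := div_pos hr.1 hc
    positivity
  set M : ℝ := B with hM
  set ee : ℝ → ℝ → ℝ := fun r t => (vr r t) ^ 2 + (vt r t) ^ 2 / c ^ 2 + N * (v r t) ^ 2 / r ^ 2
    with hee
  set ar : ℝ → ℝ → ℝ := fun r t => B - r / c - √(1 + t ^ 2) with har
  set F : ℝ → ℝ → ℝ := fun r t => Dar_ph (ar r t) * ee r t with hF
  set F' : ℝ → ℝ → ℝ := fun r t => -(Dar_ps (ar r t) / c) * ee r t + Dar_ph (ar r t) *
    (2 * vr r t * vrr r t + 2 * vt r t * vrt r t / c ^ 2 + 2 * N * v r t * vr r t / r ^ 2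
      - 2 * N * (v r t) ^ 2 / r ^ 3) with hF'
  have hN0 : 0 ≤ N := by rcases hN with h | h <;> simp [h]
  have hderiv : ∀ r ∈ Ioo 0 δ, ∀ t, HasDerivAt (fun r => F r t) (F' r t) r := by
    intro r hr t
    have hr0 : r ≠ 0 := hr.1.ne'
    have e1 : HasDerivAt (fun r => ar r t) (-(1 / c)) r := by
      have := ((hasDerivAt_id r).div_const c).const_sub B
      exact (this.sub_const (√(1 + t ^ 2)))
    have e2 : HasDerivAt (fun r => Dar_ph (ar r t)) (Dar_ps (ar r t) * (-(1 / c))) r :=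
      HasDerivAt.comp (h₂ := Dar_ph) (h := fun r => ar r t) r (Dar_ph_deriv (ar r t)) e1
    have e3 : HasDerivAt (fun r => (vr r t) ^ 2) (2 * vr r t * vrr r t) r := by
      have := (h3 r hr t).pow 2
      refine this.congr_deriv ?_
      simp
    have e4 : HasDerivAt (fun r => (vt r t) ^ 2 / c ^ 2) (2 * vt r t * vrt r t / c ^ 2) r := by
      have := ((h5 r hr t).pow 2).div_const (c ^ 2)
      refine this.congr_deriv ?_
      simp
    have e5 : HasDerivAt (fun r => N * (v r t) ^ 2 / r ^ 2)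
        (2 * N * v r t * vr r t / r ^ 2 - 2 * N * (v r t) ^ 2 / r ^ 3) r := by
      have a1 := ((h1 r hr t).pow 2).const_mul N
      have a2 := hasDerivAt_pow 2 r
      have := a1.div a2 (pow_ne_zero 2 hr0)
      refine this.congr_deriv ?_
      simp
      field_simp
    have e6 := e2.mul ((e3.add e4).add e5)
    refine e6.congr_deriv ?_
    simp only [hF', hee, Pi.add_apply]
    ring
  have hpairF : ContinuousOn (fun q : ℝ × ℝ => F q.1 q.2) (Ioo 0 δ ×ˢ univ) := by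
    have hne : ∀ q ∈ (Ioo 0 δ ×ˢ univ : Set (ℝ × ℝ)), q.1 ^ 2 ≠ 0 := by
      intro q hq
      exact pow_ne_zero 2 (ne_of_gt hq.1.1)
    have k1 : ContinuousOn (fun q : ℝ × ℝ => Dar_ph (ar q.1 q.2)) (Ioo 0 δ ×ˢ univ) := by
      refine (Dar_ph_cont.comp ?_).continuousOn
      simp only [har]
      fun_prop
    refine k1.mul ?_
    refine ((hc1.pow 2).add ((hc2.pow 2).div_const _)).add ?_
    refine ContinuousOn.div (continuousOn_const.mul (hc0.pow 2)) ?_ hne
    fun_prop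
  have hpairF' : ContinuousOn (fun q : ℝ × ℝ => F' q.1 q.2) (Ioo 0 δ ×ˢ univ) := by
    have hne : ∀ q ∈ (Ioo 0 δ ×ˢ univ : Set (ℝ × ℝ)), q.1 ^ 2 ≠ 0 := by
      intro q hq
      exact pow_ne_zero 2 (ne_of_gt hq.1.1)
    have hne3 : ∀ q ∈ (Ioo 0 δ ×ˢ univ : Set (ℝ × ℝ)), q.1 ^ 3 ≠ 0 := by
      intro q hq
      exact pow_ne_zero 3 (ne_of_gt hq.1.1)
    have k1 : ContinuousOn (fun q : ℝ × ℝ => Dar_ph (ar q.1 q.2)) (Ioo 0 δ ×ˢ univ) := by
      refine (Dar_ph_cont.comp ?_).continuousOn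
      simp only [har]
      fun_prop
    have k2 : ContinuousOn (fun q : ℝ × ℝ => Dar_ps (ar q.1 q.2)) (Ioo 0 δ ×ˢ univ) := by
      refine (Dar_ps_cont.comp ?_).continuousOn
      simp only [har]
      fun_prop
    have k3 : ContinuousOn (fun q : ℝ × ℝ => ee q.1 q.2) (Ioo 0 δ ×ˢ univ) := by
      refine ((hc1.pow 2).add ((hc2.pow 2).div_const _)).add ?_
      refine ContinuousOn.div (continuousOn_const.mul (hc0.pow 2)) ?_ hne
      fun_prop
    refine ((k2.div_const c).neg.mul k3).add (k1.mul ?_)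
    refine ContinuousOn.sub ?_ ?_
    · refine (((continuousOn_const.mul hc1).mul hc3).add
        (((continuousOn_const.mul hc2).mul hc4).div_const _)).add ?_
      refine ContinuousOn.div ((continuousOn_const.mul hc0).mul hc1) ?_ hne
      fun_prop
    · refine ContinuousOn.div (continuousOn_const.mul (hc0.pow 2)) ?_ hne3
      fun_prop
  have hEderiv : ∀ r ∈ Ioo 0 δ, HasDerivAt (fun r => ∫ t in (-M)..M, F r t)
      (∫ t in (-M)..M, F' r t) r := by
    intro r hr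
    obtain ⟨ρ, hρ, hball⟩ := Metric.isOpen_iff.1 isOpen_Ioo r hr
    have hcb : Metric.closedBall r (ρ / 2) ⊆ Ioo 0 δ :=
      (Metric.closedBall_subset_ball (by linarith)).trans hball
    have hcomp : IsCompact (Metric.closedBall r (ρ / 2) ×ˢ Icc (-M) M) :=
      (isCompact_closedBall r (ρ / 2)).prod isCompact_Icc
    obtain ⟨C, hC⟩ := hcomp.exists_bound_of_continuousOn
      (hpairF'.mono (prod_mono hcb (subset_univ _)))
    refine (intervalIntegral.hasDerivAt_integral_of_dominated_loc_of_deriv_le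
      (F := F) (F' := F') (s := Metric.closedBall r (ρ / 2)) (bound := fun _ => C)
      (Metric.closedBall_mem_nhds r (by linarith)) ?_ ?_ ?_ ?_ ?_ ?_).2
    · filter_upwards [isOpen_Ioo.mem_nhds hr] with r' hr'
      exact (Dar_slice hpairF hr').aestronglyMeasurable
    · exact (Dar_slice hpairF hr).intervalIntegrable _ _
    · exact (Dar_slice hpairF' hr).aestronglyMeasurable
    · refine ae_of_all _ fun t ht r' hr' => ?_
      rw [uIoc_of_le (by linarith : -M ≤ M)] at ht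
      exact hC (r', t) ⟨hr', ht.1.le, ht.2⟩
    · exact intervalIntegrable_const
    · exact ae_of_all _ fun t _ r' hr' => hderiv r' (hcb hr') t
  have hneg : ∀ r ∈ Ioo 0 δ, ∫ t in (-M)..M, F' r t ≤ 0 := by
    intro r hr
    set G : ℝ → ℝ := fun t => Dar_ph (ar r t) * ((2 / c ^ 2) * (vr r t * vt r t)) with hG
    set G' : ℝ → ℝ := fun t => Dar_ps (ar r t) * (-(t / √(1 + t ^ 2))) *
      ((2 / c ^ 2) * (vr r t * vt r t)) +
      Dar_ph (ar r t) * ((2 / c ^ 2) * (vrt r t * vt r t + vr r t * vtt r t)) with hG'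
    have g1 : ∀ t, HasDerivAt G (G' t) t := by
      intro t
      have e1 : HasDerivAt (fun t => ar r t) (-(t / √(1 + t ^ 2))) t :=
        (Dar_s_deriv t).const_sub (B - r / c)
      have e2 : HasDerivAt (fun t => Dar_ph (ar r t)) (Dar_ps (ar r t) * (-(t / √(1 + t ^ 2)))) t :=
        (Dar_ph_deriv (ar r t)).comp t e1
      exact e2.mul (((h4 r hr t).mul (h6 r hr t)).const_mul (2 / c ^ 2))
    have g2 : Continuous G' := by
      have k1 := Dar_slice hc1 hr
      have k2 := Dar_slice hc2 hr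
      have k4 := Dar_slice hc4 hr
      have k5 := Dar_slice hc5 hr
      have k6 : Continuous fun t => Dar_ph (ar r t) := by
        refine Dar_ph_cont.comp ?_
        simp only [har]
        fun_prop
      have k7 : Continuous fun t => Dar_ps (ar r t) := by
        refine Dar_ps_cont.comp ?_
        simp only [har]
        fun_prop
      have k8 : Continuous fun t : ℝ => t / √(1 + t ^ 2) := by
        refine continuous_id.div ?_ ?_
        · fun_prop
        · intro t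
          positivity
      exact ((k7.mul k8.neg).mul (continuous_const.mul (k1.mul k2))).add
        (k6.mul (continuous_const.mul ((k4.mul k2).add (k1.mul k5))))
    have g3 : ∫ t in (-M)..M, G' t = 0 := by
      rw [intervalIntegral.integral_eq_sub_of_hasDerivAt (fun t _ => g1 t)
        (g2.intervalIntegrable _ _)]
      have z1 : ar r M ≤ 0 := by
        have := Dar_s_le M
        have h7 : M ≤ |M| := le_abs_self M
        have h8 : 0 < r / c := div_pos hr.1 hc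
        simp only [har]
        linarith
      have z2 : ar r (-M) ≤ 0 := by
        have := Dar_s_le (-M)
        rw [abs_neg] at this
        have h7 : M ≤ |M| := le_abs_self M
        have h8 : 0 < r / c := div_pos hr.1 hc
        simp only [har]
        linarith
      simp only [hG]
      rw [Dar_ph_zero z1, Dar_ph_zero z2]
      ring
    have g4 : ∫ t in (-M)..M, F' r t = ∫ t in (-M)..M, (F' r t - G' t) := by
      rw [intervalIntegral.integral_sub ((Dar_slice hpairF' hr).intervalIntegrable _ _)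
        (g2.intervalIntegrable _ _), g3, sub_zero]
    rw [g4]
    have g5 : ∀ t, F' r t - G' t ≤ 0 := by
      intro t
      have hr0 : (0 : ℝ) < r := hr.1
      have hvrr : vrr r t = vtt r t / c ^ 2 - vr r t / r + N * v r t / r ^ 2 := by
        have := hpde r hr t
        linarith
      have hpt := Dar_ptwise (V := v r t) (R := vr r t) (T := vt r t) hc hr0 hN (Dar_s_abs t)
        (Dar_ps_nonneg (ar r t)) (Dar_ph_nonneg (ar r t))
      refine le_of_eq_of_le ?_ hpt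
      simp only [hF', hG', hee]
      rw [hvrr]
      field_simp
      ring
    have g6 : 0 ≤ ∫ t in (-M)..M, -(F' r t - G' t) :=
      intervalIntegral.integral_nonneg (by linarith) fun t _ => by linarith [g5 t]
    rw [intervalIntegral.integral_neg] at g6
    linarith
  have hanti : AntitoneOn (fun r => ∫ t in (-M)..M, F r t) (Ioo 0 δ) := by
    refine antitoneOn_of_deriv_nonpos (convex_Ioo 0 δ) ?_ ?_ ?_
    · exact fun r hr => (hEderiv r hr).continuousAt.continuousWithinAt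
    · rw [interior_Ioo]
      exact fun r hr => (hEderiv r hr).differentiableAt.differentiableWithinAt
    · rw [interior_Ioo]
      intro r hr
      rw [(hEderiv r hr).deriv]
      exact hneg r hr
  have hFnn : ∀ r ∈ Ioo 0 δ, ∀ t, 0 ≤ F r t := by
    intro r hr t
    refine mul_nonneg (Dar_ph_nonneg _) ?_
    have hr0 : (0 : ℝ) < r := hr.1
    simp only [hee]
    positivity
  have hle : ∫ t in (-M)..M, F r t ≤ 0 := by
    refine le_of_forall_pos_le_add fun κ hκ => ?_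
    set K : ℝ := (M - -M) * (B ^ 2 * (2 + 1 / c ^ 2)) with hK
    have hK0 : 0 < K := by
      have : 0 < M - -M := by linarith
      positivity
    set ε : ℝ := √(κ / K) with hε
    have hε0 : 0 < ε := Real.sqrt_pos.2 (div_pos hκ hK0)
    have hε2 : ε ^ 2 = κ / K := Real.sq_sqrt (div_pos hκ hK0).le
    obtain ⟨r₀, hr₀, hr₀'⟩ := hlim M hB0 ε hε0
    set r' : ℝ := min (r₀ / 2) r with hr'
    have hr'0 : 0 < r' := lt_min (by linarith) hr.1
    have hr'1 : r' < r₀ := lt_of_le_of_lt (min_le_left _ _) (by linarith)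
    have hr'2 : r' ≤ r := min_le_right _ _
    have hr'3 : r' < δ := lt_of_le_of_lt hr'2 hr.2
    have hmem : r' ∈ Ioo 0 δ := ⟨hr'0, hr'3⟩
    have hstep : ∫ t in (-M)..M, F r t ≤ ∫ t in (-M)..M, F r' t := hanti hmem hr hr'2
    have hbd : ∫ t in (-M)..M, F r' t ≤ ∫ t in (-M)..M, B ^ 2 * (2 + 1 / c ^ 2) * ε ^ 2 := by
      refine intervalIntegral.integral_mono_on (by linarith)
        ((Dar_slice hpairF hmem).intervalIntegrable _ _) intervalIntegrable_const ?_
      intro s hs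
      obtain ⟨b1, b2, b3⟩ := hr₀' r' ⟨hr'0, hr'1⟩ hr'3 s hs
      have c1 : (vr r' s) ^ 2 ≤ ε ^ 2 := by
        rw [← sq_abs]; exact pow_le_pow_left₀ (abs_nonneg _) b1 2
      have c2 : (vt r' s) ^ 2 ≤ ε ^ 2 := by
        rw [← sq_abs]; exact pow_le_pow_left₀ (abs_nonneg _) b2 2
      have c3 : ee r' s ≤ (2 + 1 / c ^ 2) * ε ^ 2 := by
        simp only [hee]
        have c4 : (vt r' s) ^ 2 / c ^ 2 ≤ ε ^ 2 / c ^ 2 :=
          div_le_div_of_nonneg_right c2 (by positivity)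
        calc _ ≤ ε ^ 2 + ε ^ 2 / c ^ 2 + ε ^ 2 := by linarith
          _ = (2 + 1 / c ^ 2) * ε ^ 2 := by ring
      have c5 : Dar_ph (ar r' s) ≤ B ^ 2 := by
        refine Dar_ph_le hB0.le ?_
        have h8 : 0 < r' / c := div_pos hr'0 hc
        have h9 : 0 ≤ √(1 + s ^ 2) := Real.sqrt_nonneg _
        simp only [har]
        linarith
      have c6 : 0 ≤ ee r' s := by
        simp only [hee]
        positivity
      calc F r' s = Dar_ph (ar r' s) * ee r' s := rfl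
        _ ≤ B ^ 2 * ((2 + 1 / c ^ 2) * ε ^ 2) := mul_le_mul c5 c3 c6 (by positivity)
        _ = B ^ 2 * (2 + 1 / c ^ 2) * ε ^ 2 := by ring
    rw [intervalIntegral.integral_const, smul_eq_mul, hε2] at hbd
    have hfin : (M - -M) * (B ^ 2 * (2 + 1 / c ^ 2) * (κ / K)) = κ := by
      have : (M - -M) * (B ^ 2 * (2 + 1 / c ^ 2) * (κ / K)) = K * (κ / K) := by
        rw [hK]; ring
      rw [this, mul_div_cancel₀ κ hK0.ne']
    rw [hfin] at hbd
    linarith
  by_contra hne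
  have htM : t ∈ Icc (-M) M := by
    have h7 := Dar_s_le t
    have h8 : 0 < r / c := div_pos hr.1 hc
    rw [mem_Icc, ← abs_le]
    linarith
  have hpos : 0 < ∫ t in (-M)..M, F r t := by
    refine intervalIntegral.integral_pos (by linarith) (Dar_slice hpairF hr).continuousOn
      (fun s _ => hFnn r hr s) ⟨t, htM, ?_⟩
    have h9 : 0 < ar r t := by
      simp only [har]
      linarith
    refine mul_pos (Dar_ph_pos h9) ?_
    have hr0 : (0 : ℝ) < r := hr.1
    have h10 : 0 < (vr r t) ^ 2 := by positivity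
    have h11 : 0 ≤ (vt r t) ^ 2 / c ^ 2 := by positivity
    have h12 : 0 ≤ N * (v r t) ^ 2 / r ^ 2 := by positivity
    simp only [hee]
    linarith
  linarith

/-- A solution of `v_rr + v_r/r - n² v/r² = v_tt/c²`, `n = 0, 1`, for `0 < r < δ`, `t ∈ ℝ`, such that `v, v_r, v_t, n v/r` tend
to zero as `r → 0`, is zero. -/
theorem radial_uniq {c δ : ℝ} (hc : 0 < c) (hδ : 0 < δ) {n : ℕ} (hn : n = 0 ∨ n = 1)
    {v vr vt vrr vrt vtt : ℝ → ℝ → ℝ}
    (h1 : ∀ r ∈ Ioo 0 δ, ∀ t, HasDerivAt (fun r => v r t) (vr r t) r)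
    (h2 : ∀ r ∈ Ioo 0 δ, ∀ t, HasDerivAt (fun t => v r t) (vt r t) t)
    (h3 : ∀ r ∈ Ioo 0 δ, ∀ t, HasDerivAt (fun r => vr r t) (vrr r t) r)
    (h4 : ∀ r ∈ Ioo 0 δ, ∀ t, HasDerivAt (fun t => vr r t) (vrt r t) t)
    (h5 : ∀ r ∈ Ioo 0 δ, ∀ t, HasDerivAt (fun r => vt r t) (vrt r t) r)
    (h6 : ∀ r ∈ Ioo 0 δ, ∀ t, HasDerivAt (fun t => vt r t) (vtt r t) t)
    (hc0 : ContinuousOn (fun q : ℝ × ℝ => v q.1 q.2) (Ioo 0 δ ×ˢ univ))
    (hc1 : ContinuousOn (fun q : ℝ × ℝ => vr q.1 q.2) (Ioo 0 δ ×ˢ univ))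
    (hc2 : ContinuousOn (fun q : ℝ × ℝ => vt q.1 q.2) (Ioo 0 δ ×ˢ univ))
    (hc3 : ContinuousOn (fun q : ℝ × ℝ => vrr q.1 q.2) (Ioo 0 δ ×ˢ univ))
    (hc4 : ContinuousOn (fun q : ℝ × ℝ => vrt q.1 q.2) (Ioo 0 δ ×ˢ univ))
    (hc5 : ContinuousOn (fun q : ℝ × ℝ => vtt q.1 q.2) (Ioo 0 δ ×ˢ univ))
    (hpde : ∀ r ∈ Ioo 0 δ, ∀ t, vrr r t + vr r t / r - (n : ℝ) ^ 2 * v r t / r ^ 2 = vtt r t / c ^ 2)
    (hlim : ∀ T > 0, ∀ ε > 0, ∃ r₀ > 0, ∀ r ∈ Ioo 0 r₀, r < δ → ∀ t ∈ Icc (-T) T,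
      |v r t| ≤ ε ∧ |vr r t| ≤ ε ∧ |vt r t| ≤ ε ∧ (n : ℝ) * |v r t| / r ≤ ε)
    {r t : ℝ} (hr : r ∈ Ioo 0 δ) : v r t = 0 := by
  have hN : (n : ℝ) ^ 2 = 0 ∨ (n : ℝ) ^ 2 = 1 := by
    rcases hn with h | h
    · left; rw [h]; norm_num
    · right; rw [h]; norm_num
  have hvr : ∀ r ∈ Ioo 0 δ, ∀ t, vr r t = 0 := by
    intro r hr t
    refine Dar_energy hc hδ hN h1 h3 h4 h5 h6 hc0 hc1 hc2 hc3 hc4 hc5 hpde ?_ hr
    intro T hT ε hε
    obtain ⟨r₀, hr₀, hb⟩ := hlim T hT ε hε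
    refine ⟨r₀, hr₀, fun r hr hrδ t ht => ?_⟩
    obtain ⟨-, b2, b3, b4⟩ := hb r hr hrδ t ht
    refine ⟨b2, b3, ?_⟩
    have hr0 : (0 : ℝ) < r := hr.1
    have e1 : (n : ℝ) ^ 2 * (v r t) ^ 2 / r ^ 2 = ((n : ℝ) * |v r t| / r) ^ 2 := by
      rw [div_pow, mul_pow, sq_abs]
    rw [e1]
    exact pow_le_pow_left₀ (by positivity) b4 2
  have hconst : ∀ r' ∈ Ioo 0 δ, v r' t = v r t := by
    intro r' hr'
    have hd : DifferentiableOn ℝ (fun r => v r t) (Ioo 0 δ) :=
      fun r hr => (h1 r hr t).differentiableAt.differentiableWithinAt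
    have hz : EqOn (deriv fun r => v r t) 0 (Ioo 0 δ) := by
      intro r hr
      rw [(h1 r hr t).deriv, hvr r hr t]
      rfl
    exact isOpen_Ioo.is_const_of_deriv_eq_zero isPreconnected_Ioo hd hz hr' hr
  have hall : ∀ ε > 0, |v r t| ≤ ε := by
    intro ε hε
    obtain ⟨r₀, hr₀, hb⟩ := hlim (|t| + 1) (by positivity) ε hε
    have hmem : min (r₀ / 2) r ∈ Ioo 0 δ :=
      ⟨lt_min (by linarith) hr.1, lt_of_le_of_lt (min_le_right _ _) hr.2⟩
    have hlt : min (r₀ / 2) r < r₀ := lt_of_le_of_lt (min_le_left _ _) (by linarith)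
    have htT : t ∈ Icc (-(|t| + 1)) (|t| + 1) := by
      rw [mem_Icc, ← abs_le]
      linarith
    have := (hb _ ⟨hmem.1, hlt⟩ hmem.2 t htT).1
    rwa [hconst _ hmem] at this
  have h0 : |v r t| ≤ 0 := le_of_forall_pos_le_add fun ε hε => by
    rw [zero_add]; exact hall ε hε
  exact abs_eq_zero.1 (le_antisymm h0 (abs_nonneg _))

end DrumL
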