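import Pool.Agent.Lib.MP_d92c84_anF.Par

/-!
# The zero extension and Killing fields
-/

set_option autoImplicit false

namespace DrumL

open MeasureTheory Set Filter Topology
open scoped ContDiff Real

private theorem Dga_pd (α : ℂ) (β : ℝ) (g : ℂ → ℝ) (x : ℂ) :
    pd (α + β * Complex.I * x) g x =
      (α.re - β * x.im) * pd 1 g x + (α.im + β * x.re) * pd Complex.I g x := by
  unfold pd
  have h1 : α + β * Complex.I * x =
      (α.re - β * x.im) • (1 : ℂ) + (α.im + β * x.re) • Complex.I := by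
    apply Complex.ext
    · simp
      ring
    · simp
  rw [h1, map_add, map_smul, map_smul, smul_eq_mul, smul_eq_mul]

private theorem Dga_a (α : ℂ) (β : ℝ) (x : ℂ) :
    HasFDerivAt (fun x : ℂ => α.re - β * x.im) (-(β • Complex.imCLM)) x := by
  have h1 : HasFDerivAt (fun x : ℂ => x.im) Complex.imCLM x := Complex.imCLM.hasFDerivAt
  exact (h1.const_mul β).const_sub α.re

private theorem Dga_b (α : ℂ) (β : ℝ) (x : ℂ) :
    HasFDerivAt (fun x : ℂ => α.im + β * x.re) (β • Complex.reCLM) x := by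
  have h1 : HasFDerivAt (fun x : ℂ => x.re) Complex.reCLM x := Complex.reCLM.hasFDerivAt
  exact (h1.const_mul β).const_add α.im

/-- The zero extension of `u` is annihilated by the Killing field in the weak sense. -/
theorem killing_weak {D : Set ℂ} (hD : IsOpen D) (hb : Bornology.IsBounded D) {u : ℂ → ℝ} (hi : IntegrableOn u D)
    (hi₁ : IntegrableOn (pd 1 u) D) (hi₂ : IntegrableOn (pd Complex.I u) D)
    (hib₁ : ∀ ψ : ℂ → ℝ, ContDiff ℝ 1 ψ → ∫ x in D, u x * pd 1 ψ x = -∫ x in D, pd 1 u x * ψ x)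
    (hib₂ : ∀ ψ : ℂ → ℝ, ContDiff ℝ 1 ψ → ∫ x in D, u x * pd Complex.I ψ x = -∫ x in D, pd Complex.I u x * ψ x)
    {α : ℂ} {β : ℝ} (hk : ∀ x ∈ D, kd α β u x = 0) {ψ : ℂ → ℝ} (hψ : ContDiff ℝ 1 ψ) :
    ∫ x in D, u x * pd (α + β * Complex.I * x) ψ x = 0 := by
  have hmul : ∀ {f g : ℂ → ℝ}, IntegrableOn f D → Continuous g → IntegrableOn (fun x => f x * g x) D := by
    intro f g hf hg
    exact hf.mul_continuousOn_of_subset hg.continuousOn hD.measurableSet hb.isCompact_closure subset_closure
  have hψd : Differentiable ℝ ψ := hψ.differentiable (by norm_num)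
  have ha : ContDiff ℝ 1 (fun x : ℂ => α.re - β * x.im) :=
    contDiff_const.sub (contDiff_const.mul Complex.imCLM.contDiff)
  have hbc : ContDiff ℝ 1 (fun x : ℂ => α.im + β * x.re) :=
    contDiff_const.add (contDiff_const.mul Complex.reCLM.contDiff)
  have h1 := hib₁ (fun x => (α.re - β * x.im) * ψ x) (ha.mul hψ)
  have h2 := hib₂ (fun x => (α.im + β * x.re) * ψ x) (hbc.mul hψ)
  have e1 : ∀ x, pd 1 (fun x => (α.re - β * x.im) * ψ x) x = (α.re - β * x.im) * pd 1 ψ x := by
    intro x
    rw [pd_mul (Dga_a α β x).differentiableAt (hψd x)]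
    have h3 : pd 1 (fun x : ℂ => α.re - β * x.im) x = 0 := by
      unfold pd
      rw [(Dga_a α β x).fderiv]
      simp
    rw [h3]
    ring
  have e2 : ∀ x, pd Complex.I (fun x => (α.im + β * x.re) * ψ x) x =
      (α.im + β * x.re) * pd Complex.I ψ x := by
    intro x
    rw [pd_mul (Dga_b α β x).differentiableAt (hψd x)]
    have h3 : pd Complex.I (fun x : ℂ => α.im + β * x.re) x = 0 := by
      unfold pd
      rw [(Dga_b α β x).fderiv]
      simp
    rw [h3]
    ring
  simp only [e1] at h1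
  simp only [e2] at h2
  have c1 : Continuous fun x : ℂ => (α.re - β * x.im) * pd 1 ψ x := ha.continuous.mul (continuous_pd hψ 1)
  have c2 : Continuous fun x : ℂ => (α.im + β * x.re) * pd Complex.I ψ x :=
    hbc.continuous.mul (continuous_pd hψ Complex.I)
  have h3 : ∫ x in D, u x * pd (α + β * Complex.I * x) ψ x =
      (∫ x in D, u x * ((α.re - β * x.im) * pd 1 ψ x)) +
        ∫ x in D, u x * ((α.im + β * x.re) * pd Complex.I ψ x) := by
    rw [← integral_add (hmul hi c1) (hmul hi c2)]
    refine integral_congr_ae (Eventually.of_forall fun x => ?_)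
    simp only [Dga_pd]
    ring
  have c3 : Continuous fun x : ℂ => (α.re - β * x.im) * ψ x := ha.continuous.mul hψ.continuous
  have c4 : Continuous fun x : ℂ => (α.im + β * x.re) * ψ x := hbc.continuous.mul hψ.continuous
  rw [h3, h1, h2, ← neg_add, ← integral_add (hmul hi₁ c3) (hmul hi₂ c4), neg_eq_zero]
  rw [setIntegral_congr_fun (g := fun _ => (0 : ℝ)) hD.measurableSet, integral_zero]
  intro x hx
  have h4 := hk x hx
  unfold kd at h4
  rw [Dga_pd] at h4
  change pd 1 u x * ((α.re - β * x.im) * ψ x) + pd Complex.I u x * ((α.im + β * x.re) * ψ x) = 0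
  calc pd 1 u x * ((α.re - β * x.im) * ψ x) + pd Complex.I u x * ((α.im + β * x.re) * ψ x)
      = ((α.re - β * x.im) * pd 1 u x + (α.im + β * x.re) * pd Complex.I u x) * ψ x := by ring
    _ = 0 := by rw [h4, zero_mul]

end DrumL
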