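import Pool.Agent.Lib.MP_d92c84_anF.Pol

/-!
# A function all of whose modes vanish is zero
-/

set_option autoImplicit false

namespace DrumL

open MeasureTheory Set Filter Topology
open scoped ContDiff Real

private theorem Fun_neg {g : ℝ → ℝ} 
    (h : ∀ n : ℕ, ∫ θ in (0 : ℝ)..(2 * π), (g θ : ℂ) * Complex.exp (-(n * θ * Complex.I)) = 0) (n : ℕ) :
    ∫ θ in (0 : ℝ)..(2 * π), (g θ : ℂ) * Complex.exp (n * θ * Complex.I) = 0 := by
  have h1 := congrArg (starRingEnd ℂ) (h n)
  rw [map_zero, intervalIntegral.integral_of_le Real.two_pi_pos.le, ← integral_conj,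
    ← intervalIntegral.integral_of_le Real.two_pi_pos.le] at h1
  rw [← h1]
  refine intervalIntegral.integral_congr fun θ _ => ?_
  simp only [map_mul, Complex.conj_ofReal, ← Complex.exp_conj, map_neg, Complex.conj_I, Complex.conj_natCast]
  ring_nf

private theorem Fun_int {g : ℝ → ℝ} 
    (h : ∀ n : ℕ, ∫ θ in (0 : ℝ)..(2 * π), (g θ : ℂ) * Complex.exp (-(n * θ * Complex.I)) = 0) (n : ℤ) :
    ∫ θ in (0 : ℝ)..(2 * π), (g θ : ℂ) * Complex.exp (-(n * θ * Complex.I)) = 0 := by
  obtain ⟨m, rfl | rfl⟩ := n.eq_nat_or_neg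
  · have := h m
    simpa using this
  · have := Fun_neg h m
    rw [← this]
    refine intervalIntegral.integral_congr fun θ _ => ?_
    simp only [Int.cast_neg, Int.cast_natCast]
    ring_nf

/-- A continuous periodic real function with vanishing Fourier coefficients is zero. -/
theorem fourier_uniq {g : ℝ → ℝ} (hg : Continuous g) (hper : Function.Periodic g (2 * π))
    (h : ∀ n : ℕ, ∫ θ in (0 : ℝ)..(2 * π), (g θ : ℂ) * Complex.exp (-(n * θ * Complex.I)) = 0) (θ : ℝ) : g θ = 0 := by
  have hT : Fact (0 < 2 * π) := ⟨Real.two_pi_pos⟩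
  have hper' : Function.Periodic (fun x : ℝ => (g x : ℂ)) (2 * π) := fun x => by
    simp only [hper x]
  have hcont : Continuous (hper'.lift : AddCircle (2 * π) → ℂ) :=
    continuous_coinduced_dom.2 (Complex.continuous_ofReal.comp hg)
  let f : C(AddCircle (2 * π), ℂ) := ⟨hper'.lift, hcont⟩
  have hf : ∀ x : ℝ, f (x : AddCircle (2 * π)) = (g x : ℂ) := fun x => rfl
  have hpi : (2 * π : ℝ) ≠ 0 := Real.two_pi_pos.ne'
  have hpi' : ((2 * π : ℝ) : ℂ) ≠ 0 := by exact_mod_cast hpi
  have hco : fourierCoeff f = 0 := by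
    funext n
    rw [fourierCoeff_eq_intervalIntegral f n 0, zero_add]
    have h2 : (∫ x in (0 : ℝ)..(2 * π), @fourier (2 * π) (-n) x • f x) =
        ∫ θ in (0 : ℝ)..(2 * π), (g θ : ℂ) * Complex.exp (-(n * θ * Complex.I)) := by
      refine intervalIntegral.integral_congr fun x _ => ?_
      simp only [hf, fourier_coe_apply, smul_eq_mul]
      rw [mul_comm]
      have h3 : 2 * (π : ℂ) * Complex.I * ((-n : ℤ) : ℂ) * (x : ℂ) / ((2 * π : ℝ) : ℂ) = -(n * x * Complex.I) := by
        rw [div_eq_iff hpi']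
        push_cast
        ring
      rw [h3]
    rw [h2, Fun_int h n]
    simp
  have hs : Summable (fourierCoeff f) := by
    rw [hco]
    exact summable_zero
  have h4 := has_pointwise_sum_fourier_series_of_summable hs (θ : AddCircle (2 * π))
  rw [hco] at h4
  simp only [Pi.zero_apply, zero_smul] at h4
  have h5 := h4.unique hasSum_zero
  rw [hf] at h5
  exact_mod_cast h5

/-- A continuous function on a disc all of whose modes on the circles about the centre vanish is zero. -/
theorem zero_of_modes {w : ℂ → ℝ} {x : ℂ} {δ : ℝ} (hw : ContinuousOn w (Metric.ball x δ))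
    (h : ∀ n, ∀ r ∈ Ioo 0 δ, md n x w r = 0) {y : ℂ} (hy : y ∈ Metric.ball x δ) : w y = 0 := by
  have hδ : 0 < δ := Metric.pos_of_mem_ball hy
  have hcis : Continuous cis := by
    unfold cis
    fun_prop
  have hn : ∀ θ, ‖cis θ‖ = 1 := fun θ => by
    unfold cis
    exact Complex.norm_exp_ofReal_mul_I θ
  have hball : ∀ r ∈ Ico 0 δ, ∀ θ, x + r * cis θ ∈ Metric.ball x δ := by
    intro r hr θ
    rw [Metric.mem_ball, dist_eq_norm, add_sub_cancel_left, norm_mul, hn, mul_one, Complex.norm_real,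
      Real.norm_of_nonneg hr.1]
    exact hr.2
  have hmain : ∀ r ∈ Ioo 0 δ, ∀ θ, w (x + r * cis θ) = 0 := by
    intro r hr θ
    have hc : Continuous fun θ : ℝ => w (x + r * cis θ) := by
      rw [← continuousOn_univ]
      refine hw.comp (Continuous.continuousOn (by fun_prop)) fun θ _ => hball r ⟨hr.1.le, hr.2⟩ θ
    refine fourier_uniq hc ?_ (fun n => h n r hr) θ
    intro θ
    have h1 : cis (θ + 2 * π) = cis θ := by
      unfold cis
      push_cast
      rw [add_mul, Complex.exp_add, Complex.exp_two_pi_mul_I, mul_one]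
    simp only [h1]
  have hoff : ∀ z ∈ Metric.ball x δ, z ≠ x → w z = 0 := by
    intro z hz hzx
    have h1 : z = x + (‖z - x‖ : ℝ) * cis (Complex.arg (z - x)) := by
      unfold cis
      rw [Complex.norm_mul_exp_arg_mul_I]
      ring
    rw [h1]
    refine hmain _ ⟨norm_pos_iff.2 (sub_ne_zero.2 hzx), ?_⟩ _
    rwa [← dist_eq_norm]
  rcases eq_or_ne y x with rfl | hyx
  · have hat : ContinuousAt w y := hw.continuousAt (Metric.isOpen_ball.mem_nhds hy)
    have h2 : Tendsto w (𝓝[≠] y) (𝓝 (w y)) := hat.tendsto.mono_left nhdsWithin_le_nhds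
    have h3 : w =ᶠ[𝓝[≠] y] fun _ => 0 := by
      have h4 : ∀ᶠ z in 𝓝[≠] y, z ∈ Metric.ball y δ :=
        (Metric.isOpen_ball.eventually_mem hy).filter_mono nhdsWithin_le_nhds
      filter_upwards [h4, self_mem_nhdsWithin] with z hz hz'
      exact hoff z hz hz'
    exact tendsto_nhds_unique h2 (tendsto_const_nhds.congr' h3.symm)
  · exact hoff y hy hyx

end DrumL
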