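import Pool.Agent.Lib.MP_d92c84_anF.Fbb
import Pool.Agent.Lib.MP_d92c84_anF.Fun

/-!
# Unique continuation for the Helmholtz equation
-/

set_option autoImplicit false

namespace DrumL

open MeasureTheory Set Filter Topology DrumF
open scoped ContDiff Real

private theorem Ucn_norm_cis (θ : ℝ) : ‖cis θ‖ = 1 := by
  unfold cis
  exact Complex.norm_exp_ofReal_mul_I θ

private theorem Ucn_md_zero {n : ℕ} {p : ℂ} {f : ℂ → ℝ} {ε r : ℝ} (h0 : ∀ y ∈ Metric.ball p ε, f y = 0)
    (hr0 : 0 ≤ r) (hr : r < ε) : md n p f r = 0 := by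
  have h1 : ∀ θ : ℝ, f (p + r * cis θ) = 0 := by
    intro θ
    apply h0
    rw [mem_ball_iff_norm, add_sub_cancel_left, norm_mul, Ucn_norm_cis, mul_one, Complex.norm_real,
      Real.norm_of_nonneg hr0]
    exact hr
  unfold md
  simp only [h1, Complex.ofReal_zero, zero_mul, intervalIntegral.integral_zero]

/-- A solution on a disc that vanishes near the centre vanishes on the disc. -/
theorem uc_ball {l : ℝ} (hl : 0 < l) {p : ℂ} {ρ : ℝ} (hρ : 0 < ρ) {f : ℂ → ℝ} (hf : Hz l (Metric.ball p ρ) f) {ε : ℝ}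
    (hε : 0 < ε) (h0 : ∀ y ∈ Metric.ball p ε, f y = 0) {y : ℂ} (hy : y ∈ Metric.ball p ρ) : f y = 0 := by
  have hs : 0 < √l := Real.sqrt_pos.2 hl
  have hm : ∀ n : ℕ, ∀ r ∈ Ioo 0 ρ, md n p f r = 0 := by
    intro n
    obtain ⟨a, ha⟩ := mode_bessel hl hρ hf n
    have ha0 : a = 0 := by
      set r : ℝ := min (min (ε / 2) (ρ / 2)) (1 / √l) with hr
      have hr0 : 0 < r := lt_min (lt_min (by linarith) (by linarith)) (by positivity)
      have hr1 : r < ε := lt_of_le_of_lt ((min_le_left _ _).trans (min_le_left _ _)) (by linarith)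
      have hr2 : r < ρ := lt_of_le_of_lt ((min_le_left _ _).trans (min_le_right _ _)) (by linarith)
      have hr3 : √l * r ≤ 1 := by
        have : r ≤ 1 / √l := min_le_right _ _
        calc √l * r ≤ √l * (1 / √l) := mul_le_mul_of_nonneg_left this hs.le
          _ = 1 := by field_simp
      have h1 := ha r ⟨hr0, hr2⟩
      rw [Ucn_md_zero h0 hr0.le hr1] at h1
      have h2 : 0 < J n (√l * r) := J_pos n (mul_pos hs hr0) hr3
      rcases mul_eq_zero.1 h1.symm with h3 | h3
      · exact h3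
      · exact absurd (Complex.ofReal_eq_zero.1 h3) h2.ne'
    intro r hr
    rw [ha r hr, ha0, zero_mul]
  exact zero_of_modes hf.smooth.continuousOn hm hy

/-- Unique continuation: a solution on a connected open set that vanishes on a nonempty open subset vanishes. -/
theorem uc {l : ℝ} (hl : 0 < l) {D : Set ℂ} (hD : IsOpen D) (hDc : IsPreconnected D) {f : ℂ → ℝ} (hf : Hz l D f)
    {V : Set ℂ} (hV : IsOpen V) (hVn : (V ∩ D).Nonempty) (h0 : ∀ x ∈ V ∩ D, f x = 0) {x : ℂ} (hx : x ∈ D) : f x = 0 := by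
  set S : Set ℂ := {x | ∀ᶠ y in 𝓝 x, f y = 0} with hS
  have hSo : IsOpen S := by
    rw [isOpen_iff_mem_nhds]
    intro x hx
    exact eventually_eventually_nhds.2 hx
  have hcl : ∀ x ∈ D, x ∈ closure S → x ∈ S := by
    intro x hxD hxS
    obtain ⟨δ, hδ, hball⟩ := Metric.isOpen_iff.1 hD x hxD
    obtain ⟨x₁, hx₁S, hx₁⟩ := Metric.mem_closure_iff.1 hxS (δ / 2) (by linarith)
    obtain ⟨ε, hε, hε0⟩ := Metric.eventually_nhds_iff_ball.1 (show ∀ᶠ y in 𝓝 x₁, f y = 0 from hx₁S)
    have hsub : Metric.ball x₁ (δ / 2) ⊆ D := by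
      intro y hy
      apply hball
      rw [Metric.mem_ball] at hy ⊢
      have := dist_triangle y x₁ x
      rw [dist_comm x x₁] at hx₁
      linarith
    have h1 : ∀ y ∈ Metric.ball x₁ (δ / 2), f y = 0 := fun y hy =>
      uc_ball hl (by linarith) (hf.mono hsub) hε hε0 hy
    have h2 : Metric.ball x₁ (δ / 2) ∈ 𝓝 x := Metric.isOpen_ball.mem_nhds (by rw [Metric.mem_ball]; exact hx₁)
    exact Filter.mem_of_superset h2 h1
  have hDS : D ⊆ S := by
    refine hDc.subset_of_closure_inter_subset hSo ?_ ?_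
    · obtain ⟨z, hz⟩ := hVn
      exact ⟨z, hz.2, Filter.mem_of_superset ((hV.inter hD).mem_nhds hz) h0⟩
    · rintro z ⟨hz1, hz2⟩
      exact hcl z hz2 hz1
  exact (show ∀ᶠ y in 𝓝 x, f y = 0 from hDS hx).self_of_nhds

end DrumL
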