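import Pool.Agent.Lib.MP_d92c84_anF.Dga
import Pool.Agent.Lib.MP_d92c84_anF.Ucn

/-!
# The degenerate case: a Killing derivative vanishes identically
-/

set_option autoImplicit false

namespace DrumL

open MeasureTheory Set Filter Topology
open scoped ContDiff Real

/-- Differentiation under the integral sign. -/
private theorem Dgb_deriv {D : Set ℂ} (hD : IsOpen D) {u : ℂ → ℝ} (hi : IntegrableOn u D) {ψ : ℂ → ℝ}
    (hψ : ContDiff ℝ 1 ψ) (hc : HasCompactSupport ψ) {T T' : ℝ → ℂ → ℂ} (hT : ∀ s, Continuous (T s))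
    (hT' : ∀ s, Continuous (T' s)) (hd : ∀ x s, HasDerivAt (fun s => T s x) (T' s x) s) {M : ℝ}
    (hM : ∀ x ∈ D, ∀ s, ‖T' s x‖ ≤ M) (s : ℝ) :
    HasDerivAt (fun s => ∫ x in D, u x * ψ (T s x)) (∫ x in D, u x * fderiv ℝ ψ (T s x) (T' s x)) s := by
  obtain ⟨C, hC⟩ := hψ.continuous.bounded_above_of_compact_support hc
  obtain ⟨C', hC'⟩ := (hψ.continuous_fderiv (by norm_num)).bounded_above_of_compact_support
    (hc.fderiv (𝕜 := ℝ))
  have hC'0 : 0 ≤ C' := (norm_nonneg _).trans (hC' 0)
  have hi' : Integrable u (volume.restrict D) := hi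
  have hcont : ∀ s, Continuous fun x => ψ (T s x) := fun s => hψ.continuous.comp (hT s)
  have hcont' : Continuous fun x => fderiv ℝ ψ (T s x) (T' s x) :=
    ((hψ.continuous_fderiv (by norm_num)).comp (hT s)).clm_apply (hT' s)
  refine (hasDerivAt_integral_of_dominated_loc_of_deriv_le (μ := volume.restrict D)
    (s := Metric.ball s 1) (bound := fun x => ‖u x‖ * (C' * M)) (Metric.ball_mem_nhds s one_pos)
    ?_ ?_ ?_ ?_ ?_ ?_ (F := fun s x => u x * ψ (T s x))
    (F' := fun s x => u x * fderiv ℝ ψ (T s x) (T' s x))).2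
  · exact Eventually.of_forall fun s =>
      hi'.aestronglyMeasurable.mul (hcont s).aestronglyMeasurable
  · refine (hi'.norm.mul_const C).mono' (hi'.aestronglyMeasurable.mul (hcont s).aestronglyMeasurable)
      (Eventually.of_forall fun x => ?_)
    rw [norm_mul]
    exact mul_le_mul_of_nonneg_left (hC _) (norm_nonneg _)
  · exact hi'.aestronglyMeasurable.mul hcont'.aestronglyMeasurable
  · rw [ae_restrict_iff' hD.measurableSet]
    refine Eventually.of_forall fun x hx s' _ => ?_
    rw [norm_mul]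
    refine mul_le_mul_of_nonneg_left ?_ (norm_nonneg _)
    exact ((fderiv ℝ ψ (T s' x)).le_opNorm _).trans
      (mul_le_mul (hC' _) (hM x hx s') (norm_nonneg _) hC'0)
  · exact hi'.norm.mul_const _
  · refine Eventually.of_forall fun x s' _ => ?_
    have h1 := ((hψ.differentiable (by norm_num)) (T s' x)).hasFDerivAt.comp_hasDerivAt s' (hd x s')
    exact h1.const_mul (u x)

/-- A continuous function which is orthogonal to the test functions is zero. -/
private theorem Dgb_zero {D V : Set ℂ} (hV : IsOpen V) (hVD : V ⊆ D) {u : ℂ → ℝ}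
    (hi : IntegrableOn u D) (hu : ContinuousOn u V)
    (h : ∀ φ : ℂ → ℝ, Tst V φ → ∫ x in D, u x * φ x = 0) : ∀ x ∈ V, u x = 0 := by
  have hi' : Integrable u (volume.restrict D) := hi
  have h1 : ∀ᵐ x ∂(volume.restrict D), x ∈ V → u x = 0 := by
    refine hV.ae_eq_zero_of_integral_contDiff_smul_eq_zero
      (hi'.locallyIntegrable.locallyIntegrableOn V) fun g hg hgc hgV => ?_
    rw [← h g ⟨hg, hgc, hgV⟩]
    refine integral_congr_ae (Eventually.of_forall fun x => ?_)
    change g x * u x = u x * g x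
    ring
  have h2 : ∀ᵐ x ∂(volume.restrict V), x ∈ V → u x = 0 :=
    ae_restrict_of_ae_restrict_of_subset hVD h1
  have h3 : u =ᵐ[volume.restrict V] fun _ => 0 := by
    filter_upwards [h2, ae_restrict_mem hV.measurableSet] with x hx hxV
    exact hx hxV
  exact fun x hx => Measure.eqOn_open_of_ae_eq h3 hV hu continuousOn_const hx

private theorem Dgb_cis (s : ℝ) : HasDerivAt (fun s : ℝ => cis s) (cis s * Complex.I) s := by
  unfold cis
  have h1 : HasDerivAt (fun s : ℝ => (s : ℂ) * Complex.I) Complex.I s := by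
    simpa using (Complex.ofRealCLM.hasDerivAt (x := s)).mul_const Complex.I
  exact h1.cexp

private theorem Dgb_norm (s : ℝ) : ‖cis s‖ = 1 := by
  unfold cis
  exact Complex.norm_exp_ofReal_mul_I s

private theorem Dgb_inv (s : ℝ) : cis (-s) * cis s = 1 := by
  unfold cis
  rw [← Complex.exp_add]
  have h1 : ((-s : ℝ) : ℂ) * Complex.I + (s : ℂ) * Complex.I = 0 := by
    push_cast
    ring
  rw [h1, Complex.exp_zero]

/-- The derivative of a function composed with an affine map. -/
private theorem Dgb_pd {ψ : ℂ → ℝ} (hψ : ContDiff ℝ 1 ψ) (c b v x : ℂ) :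
    pd v (fun y => ψ (b + c * y)) x = fderiv ℝ ψ (b + c * x) (c * v) := by
  unfold pd
  have h1 : HasFDerivAt (fun y : ℂ => b + c * y) (c • (ContinuousLinearMap.id ℝ ℂ)) x := by
    exact ((hasFDerivAt_id x).const_mul c).const_add b
  have h2 := ((hψ.differentiable (by norm_num)) (b + c * x)).hasFDerivAt.comp x h1
  have h3 : fderiv ℝ (fun y => ψ (b + c * y)) x =
      (fderiv ℝ ψ (b + c * x)).comp (c • (ContinuousLinearMap.id ℝ ℂ)) := h2.fderiv
  rw [h3]
  rfl

private theorem Dgb_smooth {n : WithTop ℕ∞} {ψ : ℂ → ℝ} (hψ : ContDiff ℝ n ψ) (c b : ℂ) :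
    ContDiff ℝ n fun y => ψ (b + c * y) :=
  hψ.comp (contDiff_const.add (contDiff_const.mul contDiff_id))

/-- The rotation about `q`. -/
private theorem Dgb_T (q : ℂ) (s : ℝ) (x : ℂ) :
    q + cis s * (x - q) = (q - cis s * q) + cis s * x := by ring

/-- If a Killing derivative of `u` vanishes identically in `D` then the closure of `D` contains the images
of `D` under all rotations about a point `q`. -/
theorem deg_inv {l : ℝ} (hl : 0 < l) {D : Set ℂ} (hD : IsOpen D) (hb : Bornology.IsBounded D) (hDc : IsPreconnected D)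
    {u : ℂ → ℝ} (hu : Hz l D u) (hne : ∃ x ∈ D, u x ≠ 0) (hi : IntegrableOn u D)
    (hi₁ : IntegrableOn (pd 1 u) D) (hi₂ : IntegrableOn (pd Complex.I u) D)
    (hib₁ : ∀ ψ : ℂ → ℝ, ContDiff ℝ 1 ψ → ∫ x in D, u x * pd 1 ψ x = -∫ x in D, pd 1 u x * ψ x)
    (hib₂ : ∀ ψ : ℂ → ℝ, ContDiff ℝ 1 ψ → ∫ x in D, u x * pd Complex.I ψ x = -∫ x in D, pd Complex.I u x * ψ x)
    {α : ℂ} {β : ℝ} (hαβ : ¬ (α = 0 ∧ β = 0)) (hk : ∀ x ∈ D, kd α β u x = 0) :
    ∃ q : ℂ, ∀ s : ℝ, ∀ x ∈ D, q + cis s * (x - q) ∈ closure D := by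
  have hcu : ContinuousOn u D := hu.smooth.continuousOn
  obtain ⟨R', hR'⟩ := hb.exists_norm_le
  by_cases hβ : β = 0
  · -- translations
    exfalso
    subst hβ
    have hα : α ≠ 0 := fun h => hαβ ⟨h, rfl⟩
    obtain ⟨x₀, hx₀, hux⟩ := hne
    refine hux (Dgb_zero hD Subset.rfl hi hcu (fun φ hφ => ?_) x₀ hx₀)
    have hφ1 : ContDiff ℝ 1 φ := hφ.smooth.of_le (by exact_mod_cast le_top)
    have hW : ∀ s : ℝ, HasDerivAt (fun s : ℝ => ∫ x in D, u x * φ (x + s * α)) 0 s := by
      intro s
      have h1 := Dgb_deriv hD hi hφ1 hφ.comp (T := fun s x => x + s * α) (T' := fun _ _ => α)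
        (fun s => continuous_id.add continuous_const) (fun _ => continuous_const)
        (fun x s => by
          have h2 : HasDerivAt (fun s : ℝ => (s : ℂ) * α) α s := by
            simpa using (Complex.ofRealCLM.hasDerivAt (x := s)).mul_const α
          exact h2.const_add x) (M := ‖α‖) (fun _ _ _ => le_rfl) s
      have h3 := killing_weak hD hb hi hi₁ hi₂ hib₁ hib₂ hk (Dgb_smooth hφ1 1 (s * α))
      have h4 : ∫ x in D, u x * fderiv ℝ φ (x + s * α) α = 0 := by
        rw [← h3]
        refine integral_congr_ae (Eventually.of_forall fun x => ?_)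
        change _ = u x * pd (α + ((0 : ℝ) : ℂ) * Complex.I * x) (fun y => φ (s * α + 1 * y)) x
        rw [Dgb_pd hφ1]
        have e1 : (s : ℂ) * α + 1 * x = x + s * α := by ring
        have e2 : 1 * (α + ((0 : ℝ) : ℂ) * Complex.I * x) = α := by
          rw [Complex.ofReal_zero]
          ring
        rw [e1, e2]
      have h5 : HasDerivAt (fun s : ℝ => ∫ x in D, u x * φ (x + s * α))
          (∫ x in D, u x * fderiv ℝ φ (x + s * α) α) s := h1
      rwa [h4] at h5
    obtain ⟨R, hR⟩ := hφ.comp.isCompact.isBounded.exists_norm_le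
    have hφ0 : ∀ y, R < ‖y‖ → φ y = 0 := by
      intro y hy
      by_contra h
      exact absurd (hR y (subset_tsupport φ h)) (not_le.2 hy)
    have hαn : 0 < ‖α‖ := norm_pos_iff.2 hα
    have h1 := is_const_of_deriv_eq_zero (fun s => (hW s).differentiableAt) (fun s => (hW s).deriv) 0
      ((R + R' + 1) / ‖α‖)
    have h2 : ∫ x in D, u x * φ (x + (((R + R' + 1) / ‖α‖ : ℝ) : ℂ) * α) = 0 := by
      rw [setIntegral_congr_fun hD.measurableSet (g := fun _ => (0 : ℝ)) ?_]
      · exact integral_zero _ _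
      · intro x hx
        have h3 : R < ‖x + (((R + R' + 1) / ‖α‖ : ℝ) : ℂ) * α‖ := by
          have h4 : R + R' + 1 ≤ ‖(((R + R' + 1) / ‖α‖ : ℝ) : ℂ) * α‖ := by
            rw [norm_mul, Complex.norm_real, Real.norm_eq_abs]
            have h5 : (R + R' + 1) / ‖α‖ * ‖α‖ = R + R' + 1 := div_mul_cancel₀ _ hαn.ne'
            calc R + R' + 1 = (R + R' + 1) / ‖α‖ * ‖α‖ := h5.symm
              _ ≤ |(R + R' + 1) / ‖α‖| * ‖α‖ :=
                mul_le_mul_of_nonneg_right (le_abs_self _) hαn.le
          have h5 : ‖(((R + R' + 1) / ‖α‖ : ℝ) : ℂ) * α‖ ≤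
              ‖x + (((R + R' + 1) / ‖α‖ : ℝ) : ℂ) * α‖ + ‖x‖ := by
            have h6 := norm_sub_le (x + (((R + R' + 1) / ‖α‖ : ℝ) : ℂ) * α) x
            rwa [add_sub_cancel_left] at h6
          linarith [hR' x hx]
        change u x * φ (x + (((R + R' + 1) / ‖α‖ : ℝ) : ℂ) * α) = 0
        rw [hφ0 _ h3, mul_zero]
    change (∫ x in D, u x * φ (x + ((0 : ℝ) : ℂ) * α)) =
      ∫ x in D, u x * φ (x + (((R + R' + 1) / ‖α‖ : ℝ) : ℂ) * α) at h1
    rw [h2] at h1
    rw [← h1]
    refine integral_congr_ae (Eventually.of_forall fun x => ?_)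
    change u x * φ x = u x * φ (x + ((0 : ℝ) : ℂ) * α)
    rw [Complex.ofReal_zero, zero_mul, add_zero]
  · -- rotations
    have hβ' : (β : ℂ) ≠ 0 := Complex.ofReal_ne_zero.2 hβ
    obtain ⟨q, hq⟩ : ∃ q : ℂ, ∀ x : ℂ, α + β * Complex.I * x = β * (Complex.I * (x - q)) := by
      refine ⟨Complex.I * α / β, fun x => ?_⟩
      field_simp
      linear_combination α * Complex.I_mul_I
    have hrot : ∀ ψ : ℂ → ℝ, ContDiff ℝ 1 ψ → HasCompactSupport ψ → ∀ s : ℝ,
        ∫ x in D, u x * ψ (q + cis s * (x - q)) = ∫ x in D, u x * ψ x := by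
      intro ψ hψ hψc s
      have hW : ∀ s : ℝ, HasDerivAt (fun s : ℝ => ∫ x in D, u x * ψ (q + cis s * (x - q))) 0 s := by
        intro s
        have h1 := Dgb_deriv hD hi hψ hψc (T := fun s x => q + cis s * (x - q))
          (T' := fun s x => cis s * Complex.I * (x - q))
          (fun s => continuous_const.add (continuous_const.mul (continuous_id.sub continuous_const)))
          (fun s => continuous_const.mul (continuous_id.sub continuous_const))
          (fun x s => ((Dgb_cis s).mul_const (x - q)).const_add q) (M := R' + ‖q‖)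
          (fun x hx s => by
            rw [norm_mul, norm_mul, Dgb_norm, Complex.norm_I, one_mul, one_mul]
            exact (norm_sub_le x q).trans (by linarith [hR' x hx])) s
        have h3 := killing_weak hD hb hi hi₁ hi₂ hib₁ hib₂ hk (Dgb_smooth hψ (cis s) (q - cis s * q))
        have h4 : ∫ x in D, u x * fderiv ℝ ψ (q + cis s * (x - q)) (cis s * Complex.I * (x - q)) = 0 := by
          have h5 : β * ∫ x in D, u x * fderiv ℝ ψ (q + cis s * (x - q))
              (cis s * Complex.I * (x - q)) = 0 := by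
            rw [← integral_const_mul, ← h3]
            refine integral_congr_ae (Eventually.of_forall fun x => ?_)
            change β * (u x * fderiv ℝ ψ (q + cis s * (x - q)) (cis s * Complex.I * (x - q))) =
              u x * pd (α + β * Complex.I * x) (fun y => ψ ((q - cis s * q) + cis s * y)) x
            rw [Dgb_pd hψ, hq, ← Dgb_T]
            have e1 : cis s * ((β : ℂ) * (Complex.I * (x - q))) =
                β • (cis s * Complex.I * (x - q)) := by
              rw [Complex.real_smul]
              ring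
            rw [e1, map_smul, smul_eq_mul]
            ring
          exact (mul_eq_zero.1 h5).resolve_left hβ
        have h5 : HasDerivAt (fun s : ℝ => ∫ x in D, u x * ψ (q + cis s * (x - q)))
            (∫ x in D, u x * fderiv ℝ ψ (q + cis s * (x - q)) (cis s * Complex.I * (x - q))) s := h1
        rwa [h4] at h5
      have h1 := is_const_of_deriv_eq_zero (fun s => (hW s).differentiableAt) (fun s => (hW s).deriv) s 0
      change (∫ x in D, u x * ψ (q + cis s * (x - q))) =
        ∫ x in D, u x * ψ (q + cis 0 * (x - q)) at h1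
      rw [h1]
      refine integral_congr_ae (Eventually.of_forall fun x => ?_)
      change u x * ψ (q + cis 0 * (x - q)) = u x * ψ x
      have e1 : cis 0 = 1 := by
        unfold cis
        rw [Complex.ofReal_zero, zero_mul, Complex.exp_zero]
      rw [e1]
      congr 2
      ring
    refine ⟨q, fun s x hx => ?_⟩
    by_contra hy
    have hTc : Continuous fun x : ℂ => q + cis s * (x - q) :=
      continuous_const.add (continuous_const.mul (continuous_id.sub continuous_const))
    have hV : IsOpen (D ∩ (fun x : ℂ => q + cis s * (x - q)) ⁻¹' (closure D)ᶜ) :=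
      hD.inter (isClosed_closure.isOpen_compl.preimage hTc)
    have hVD : D ∩ (fun x : ℂ => q + cis s * (x - q)) ⁻¹' (closure D)ᶜ ⊆ D := inter_subset_left
    have h0 : ∀ y ∈ D ∩ (fun x : ℂ => q + cis s * (x - q)) ⁻¹' (closure D)ᶜ, u y = 0 := by
      refine Dgb_zero hV hVD hi (hcu.mono hVD) fun φ hφ => ?_
      have hφ1 : ContDiff ℝ 1 φ := hφ.smooth.of_le (by exact_mod_cast le_top)
      obtain ⟨R, hR⟩ := hφ.comp.isCompact.isBounded.exists_norm_le
      -- the rotated test function
      have hψ1 : ContDiff ℝ 1 fun y => φ (q + cis (-s) * (y - q)) := by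
        have h1 := Dgb_smooth hφ1 (cis (-s)) (q - cis (-s) * q)
        have h2 : (fun y => φ ((q - cis (-s) * q) + cis (-s) * y)) =
            fun y => φ (q + cis (-s) * (y - q)) := by
          funext y
          rw [Dgb_T]
        rwa [h2] at h1
      have hψc : HasCompactSupport fun y => φ (q + cis (-s) * (y - q)) := by
        refine HasCompactSupport.of_support_subset_isCompact
          (isCompact_closedBall (0 : ℂ) (R + ‖q‖ + ‖q‖)) fun y hy' => ?_
        have h1 := hR _ (subset_tsupport φ hy')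
        rw [mem_closedBall_zero_iff]
        have h2 : ‖cis (-s) * (y - q)‖ ≤ R + ‖q‖ := by
          have h3 := norm_sub_le (q + cis (-s) * (y - q)) q
          rw [add_sub_cancel_left] at h3
          linarith
        rw [norm_mul, Dgb_norm, one_mul] at h2
        have h3 : ‖y‖ ≤ ‖y - q‖ + ‖q‖ := by
          have h4 := norm_add_le (y - q) q
          rwa [sub_add_cancel] at h4
        linarith
      have h1 := hrot _ hψ1 hψc s
      have h2 : ∀ y : ℂ, q + cis (-s) * (q + cis s * (y - q) - q) = y := by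
        intro y
        linear_combination (y - q) * Dgb_inv s
      have h2' : ∀ y : ℂ, q + cis s * (q + cis (-s) * (y - q) - q) = y := by
        intro y
        linear_combination (y - q) * Dgb_inv s
      simp only [h2] at h1
      rw [h1]
      rw [setIntegral_congr_fun hD.measurableSet (g := fun _ => (0 : ℝ)) ?_]
      · exact integral_zero _ _
      · intro y hyD
        change u y * φ (q + cis (-s) * (y - q)) = 0
        by_cases h3 : q + cis (-s) * (y - q) ∈
            D ∩ (fun x : ℂ => q + cis s * (x - q)) ⁻¹' (closure D)ᶜ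
        · exfalso
          have h4 : q + cis s * (q + cis (-s) * (y - q) - q) ∈ (closure D)ᶜ := h3.2
          rw [h2' y] at h4
          exact h4 (subset_closure hyD)
        · rw [hφ.zero_of_notMem h3, mul_zero]
    obtain ⟨x₁, hx₁, hux₁⟩ := hne
    exact hux₁ (uc hl hD hDc hu hV ⟨x, ⟨hx, hy⟩, hx⟩ (fun y hy' => h0 y hy'.1) hx₁)

end DrumL
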