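import Pool.Agent.Lib.MP_d92c84_anF.Pol

/-!
# A region whose rotations stay in its closure
-/

set_option autoImplicit false

namespace DrumL

open MeasureTheory Set Filter Topology
open scoped ContDiff Real

/-- If all rotations of a bounded region about a point stay in its closure, the boundary contains a circle about this point. -/
theorem deg_circle {D : Set ℂ} (hD : IsOpen D) (hb : Bornology.IsBounded D) (hne : D.Nonempty) {q : ℂ}
    (h : ∀ s : ℝ, ∀ x ∈ D, q + cis s * (x - q) ∈ closure D) : ∃ ρ : ℝ, 0 < ρ ∧ Metric.sphere q ρ ⊆ frontier D := by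
  have hbd : BddAbove ((fun x : ℂ => ‖x - q‖) '' D) := by
    obtain ⟨R, hR⟩ := hb.subset_closedBall q
    refine ⟨R, ?_⟩
    rintro _ ⟨x, hx, rfl⟩
    have h1 := hR hx
    rwa [Metric.mem_closedBall, dist_eq_norm] at h1
  have hle : ∀ x ∈ D, ‖x - q‖ ≤ sSup ((fun x : ℂ => ‖x - q‖) '' D) := fun x hx => le_csSup hbd ⟨x, hx, rfl⟩
  -- a point of `D` different from `q`
  have hpos : ∃ x ∈ D, 0 < ‖x - q‖ := by
    obtain ⟨x0, hx0⟩ := hne
    by_cases hx : x0 = q
    · obtain ⟨ε, hε, hball⟩ := Metric.isOpen_iff.1 hD x0 hx0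
      refine ⟨x0 + (ε / 2 : ℝ), hball ?_, ?_⟩
      · rw [Metric.mem_ball, dist_eq_norm, add_sub_cancel_left, Complex.norm_real, Real.norm_eq_abs, abs_of_pos (by linarith)]
        linarith
      · rw [hx, add_sub_cancel_left, Complex.norm_real, Real.norm_eq_abs, abs_of_pos (by linarith)]
        linarith
    · exact ⟨x0, hx0, norm_pos_iff.2 (sub_ne_zero.2 hx)⟩
  obtain ⟨x1, hx1, hx1p⟩ := hpos
  set ρ := sSup ((fun x : ℂ => ‖x - q‖) '' D) with hρ
  have hρp : 0 < ρ := hx1p.trans_le (hle x1 hx1)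
  refine ⟨ρ, hρp, fun y hy => ?_⟩
  rw [Metric.mem_sphere, dist_eq_norm] at hy
  rw [frontier, hD.interior_eq]
  refine ⟨?_, fun hyD => ?_⟩
  · rw [← closure_closure, Metric.mem_closure_iff]
    intro ε hε
    have hmax : max (ρ - ε) 0 < ρ := max_lt (by linarith) hρp
    obtain ⟨_, ⟨x, hx, rfl⟩, hxl⟩ := exists_lt_of_lt_csSup (s := (fun x : ℂ => ‖x - q‖) '' D) ⟨_, ⟨x1, hx1, rfl⟩⟩ (hρ ▸ hmax)
    simp only at hxl
    have hxp : 0 < ‖x - q‖ := (le_max_right _ _).trans_lt hxl
    have hxε : ρ - ε < ‖x - q‖ := (le_max_left _ _).trans_lt hxl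
    have hxq : x - q ≠ 0 := norm_pos_iff.1 hxp
    set c : ℂ := (y - q) * (‖x - q‖ / ρ : ℝ) / (x - q) with hc
    have hcn : ‖c‖ = 1 := by
      rw [hc, norm_div, norm_mul, hy, Complex.norm_real, Real.norm_eq_abs, abs_of_pos (div_pos hxp hρp)]
      field_simp
    have hcis : cis (Complex.arg c) = c := by
      have h1 := Complex.norm_mul_exp_arg_mul_I c
      rw [hcn, Complex.ofReal_one, one_mul] at h1
      exact h1
    refine ⟨q + cis (Complex.arg c) * (x - q), h _ x hx, ?_⟩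
    have h2 : q + cis (Complex.arg c) * (x - q) = q + (y - q) * (‖x - q‖ / ρ : ℝ) := by
      rw [hcis, hc, div_mul_cancel₀ _ hxq]
    rw [h2, dist_eq_norm]
    have h3 : y - (q + (y - q) * ((‖x - q‖ / ρ : ℝ) : ℂ)) = (y - q) * ((1 - ‖x - q‖ / ρ : ℝ) : ℂ) := by
      push_cast
      ring
    rw [h3, norm_mul, hy, Complex.norm_real, Real.norm_eq_abs]
    have h4 : 0 ≤ 1 - ‖x - q‖ / ρ := by
      rw [sub_nonneg, div_le_one hρp]
      exact hle x hx
    rw [abs_of_nonneg h4, mul_sub, mul_one, mul_div_cancel₀ _ hρp.ne']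
    linarith
  · obtain ⟨ε, hε, hball⟩ := Metric.isOpen_iff.1 hD y hyD
    have h1 : y + (y - q) * ((ε / (2 * ρ) : ℝ) : ℂ) ∈ D := by
      refine hball ?_
      rw [Metric.mem_ball, dist_eq_norm, add_sub_cancel_left, norm_mul, hy, Complex.norm_real, Real.norm_eq_abs,
        abs_of_pos (by positivity)]
      have : ρ * (ε / (2 * ρ)) = ε / 2 := by field_simp
      rw [this]
      linarith
    have h2 := hle _ h1
    have h3 : y + (y - q) * ((ε / (2 * ρ) : ℝ) : ℂ) - q = (y - q) * ((1 + ε / (2 * ρ) : ℝ) : ℂ) := by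
      push_cast
      ring
    rw [h3, norm_mul, hy, Complex.norm_real, Real.norm_eq_abs, abs_of_pos (by positivity)] at h2
    have h4 : 0 < ρ * (ε / (2 * ρ)) := by positivity
    linarith

end DrumL
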