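import Pool.Agent.Lib.MP_d92c84_anF.Par

/-!
# Drum solutions and their time smoothings

`Dz`: the properties of a drum solution. `WS`: a family `Z k`, `k = 0, 1, 2, …`, of solutions, `Z (k + 1)` being the
time derivative of `Z k`. `sm η k f` is the convolution in time of `f` with the `k`-th derivative of `η`.
-/

set_option autoImplicit false

namespace DrumL

open MeasureTheory Set Filter Topology
open scoped ContDiff

/-- A solution of the wave equation in `D` vanishing on the boundary; `G = z_x + i z_y`. -/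
structure Dz (c : ℝ) (D : Set ℂ) (z : ℂ → ℝ → ℝ) (G : ℂ → ℝ → ℂ) : Prop where
  c2 : ContDiffOn ℝ 2 (fun q : ℂ × ℝ => z q.1 q.2) (D ×ˢ univ)
  cont : ContinuousOn (fun q : ℂ × ℝ => z q.1 q.2) (closure D ×ˢ univ)
  contG : ContinuousOn (fun q : ℂ × ℝ => G q.1 q.2) (closure D ×ˢ univ)
  grad : ∀ x ∈ D, ∀ t, pd 1 (fun y => z y t) x = (G x t).re ∧ pd Complex.I (fun y => z y t) x = (G x t).im
  wave : ∀ x ∈ D, ∀ t, deriv (deriv (z x)) t = c ^ 2 * lap (fun y => z y t) x
  bdry : ∀ x ∈ frontier D, ∀ t, z x t = 0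

/-- A family of solutions, each the time derivative of the preceding one. -/
structure WS (c : ℝ) (D : Set ℂ) (Z : ℕ → ℂ → ℝ → ℝ) (G : ℕ → ℂ → ℝ → ℂ) : Prop where
  cont : ∀ k, ContinuousOn (fun q : ℂ × ℝ => Z k q.1 q.2) (closure D ×ˢ univ)
  contG : ∀ k, ContinuousOn (fun q : ℂ × ℝ => G k q.1 q.2) (closure D ×ˢ univ)
  c2 : ∀ k t, ContDiffOn ℝ 2 (fun x => Z k x t) D
  grad : ∀ k, ∀ x ∈ D, ∀ t, pd 1 (fun y => Z k y t) x = (G k x t).re ∧
    pd Complex.I (fun y => Z k y t) x = (G k x t).im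
  dt : ∀ k, ∀ x ∈ closure D, ∀ t, HasDerivAt (Z k x) (Z (k + 1) x t) t
  dtG : ∀ k, ∀ x ∈ closure D, ∀ t, HasDerivAt (G k x) (G (k + 1) x t) t
  wave : ∀ k, ∀ x ∈ D, ∀ t, Z (k + 2) x t = c ^ 2 * lap (fun y => Z k y t) x
  bdry : ∀ k, ∀ x ∈ frontier D, ∀ t, Z k x t = 0

theorem WS.shift {c : ℝ} {D : Set ℂ} {Z : ℕ → ℂ → ℝ → ℝ} {G : ℕ → ℂ → ℝ → ℂ} (h : WS c D Z G) :
    WS c D (fun k => Z (k + 1)) (fun k => G (k + 1)) where
  cont k := h.cont (k + 1)
  contG k := h.contG (k + 1)
  c2 k := h.c2 (k + 1)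
  grad k := h.grad (k + 1)
  dt k := h.dt (k + 1)
  dtG k := h.dtG (k + 1)
  wave k := h.wave (k + 1)
  bdry k := h.bdry (k + 1)

/-- Convolution in time with the `k`-th derivative of the kernel `η`. -/
noncomputable def sm {E : Type*} [NormedAddCommGroup E] [NormedSpace ℝ E] (η : ℝ → ℝ) (k : ℕ) (f : ℂ → ℝ → E) (x : ℂ)
    (t : ℝ) : E := ∫ s, iteratedDeriv k η s • f x (t - s)

/-- Zero extension of a function vanishing on the boundary. -/
theorem zero_ext {D : Set ℂ} (hD : IsOpen D) {f : ℂ → ℝ} (hf : ContinuousOn f (closure D))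
    (h0 : ∀ x ∈ frontier D, f x = 0) : Continuous (indicator D f) := by
  rw [continuous_iff_continuousAt]
  intro x
  by_cases hx : x ∈ closure D
  · have h1 : ContinuousWithinAt f (closure D) x := hf x hx
    have h2 : indicator D f x = f x := by
      by_cases hxD : x ∈ D
      · rw [indicator_of_mem hxD]
      · rw [indicator_of_notMem hxD, h0 x (by rw [frontier, hD.interior_eq]; exact ⟨hx, hxD⟩)]
    rw [ContinuousAt, h2, Metric.tendsto_nhds]
    intro ε hε
    have h3 := (Metric.tendsto_nhds.1 h1) ε hε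
    rw [eventually_nhdsWithin_iff] at h3
    by_cases hxD : x ∈ D
    · filter_upwards [h3, hD.mem_nhds hxD] with y hy hyD
      rw [indicator_of_mem hyD]
      exact hy (subset_closure hyD)
    · have h4 : f x = 0 := h0 x (by rw [frontier, hD.interior_eq]; exact ⟨hx, hxD⟩)
      filter_upwards [h3] with y hy
      by_cases hyD : y ∈ D
      · rw [indicator_of_mem hyD]
        exact hy (subset_closure hyD)
      · rw [indicator_of_notMem hyD, h4, dist_self]
        exact hε
  · have h1 : indicator D f =ᶠ[𝓝 x] fun _ => 0 := by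
      filter_upwards [isClosed_closure.isOpen_compl.mem_nhds hx] with y hy
      exact indicator_of_notMem (fun h => hy (subset_closure h)) f
    exact continuousAt_const.congr h1.symm

theorem compact_ext {D : Set ℂ} (hb : Bornology.IsBounded D) (f : ℂ → ℝ) : HasCompactSupport (indicator D f) :=
  HasCompactSupport.of_support_subset_isCompact hb.isCompact_closure fun x hx => by
    by_contra h
    exact hx (indicator_of_notMem (fun h1 => h (subset_closure h1)) f)

end DrumL
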