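import Pool.Agent.Lib.MP_d92c84_anF.Poi
import Pool.Agent.Lib.MP_d92c84_anF.Wsd

/-!
# Energy conservation on an arbitrary bounded open set
-/

set_option autoImplicit false

namespace DrumL

open MeasureTheory Set Filter Topology
open scoped ContDiff

section
variable {c : ℝ} {D : Set ℂ} {Z : ℕ → ℂ → ℝ → ℝ} {G : ℕ → ℂ → ℝ → ℂ}

private theorem Eng_opNorm (L : ℂ →L[ℝ] ℝ) : ‖L‖ ≤ |L 1| + |L Complex.I| := by
  refine ContinuousLinearMap.opNorm_le_bound L (by positivity) fun v => ?_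
  have h1 : L v = v.re * L 1 + v.im * L Complex.I := by
    have h2 : v = v.re • (1 : ℂ) + v.im • Complex.I := by
      apply Complex.ext <;> simp
    conv_lhs => rw [h2]
    rw [map_add, map_smul, map_smul, smul_eq_mul, smul_eq_mul]
  rw [h1, Real.norm_eq_abs]
  calc |v.re * L 1 + v.im * L Complex.I| ≤ |v.re * L 1| + |v.im * L Complex.I| := abs_add_le _ _
    _ = |v.re| * |L 1| + |v.im| * |L Complex.I| := by rw [abs_mul, abs_mul]
    _ ≤ ‖v‖ * |L 1| + ‖v‖ * |L Complex.I| :=
      add_le_add (mul_le_mul_of_nonneg_right (Complex.abs_re_le_norm v) (abs_nonneg _))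
        (mul_le_mul_of_nonneg_right (Complex.abs_im_le_norm v) (abs_nonneg _))
    _ = (|L 1| + |L Complex.I|) * ‖v‖ := by ring

private theorem Eng_bd (hb : Bornology.IsBounded D) (h : WS c D Z G) (k : ℕ) (t : ℝ) :
    ∃ C : ℝ, 0 ≤ C ∧ (∀ x ∈ closure D, ‖G k x t‖ ≤ C) ∧ ∀ x ∈ D, ‖fderiv ℝ (fun y => Z k y t) x‖ ≤ 2 * C := by
  obtain ⟨C, hC⟩ := hb.isCompact_closure.exists_bound_of_continuousOn (slice (h.contG k) t)
  refine ⟨|C|, abs_nonneg _, fun x hx => (hC x hx).trans (le_abs_self _), fun x hx => ?_⟩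
  refine (Eng_opNorm _).trans ?_
  have h1 := h.grad k x hx t
  have h2 : |fderiv ℝ (fun y => Z k y t) x 1| ≤ ‖G k x t‖ := by
    have h3 : fderiv ℝ (fun y => Z k y t) x 1 = (G k x t).re := h1.1
    rw [h3]
    exact Complex.abs_re_le_norm _
  have h3 : |fderiv ℝ (fun y => Z k y t) x Complex.I| ≤ ‖G k x t‖ := by
    have h4 : fderiv ℝ (fun y => Z k y t) x Complex.I = (G k x t).im := h1.2
    rw [h4]
    exact Complex.abs_im_le_norm _
  have h4 := hC x (subset_closure hx)
  linarith [le_abs_self C]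

private theorem Eng_dot (h : WS c D Z G) (j k : ℕ) (s t : ℝ) :
    ContinuousOn (fun x => (G k x s).re * (G j x t).re + (G k x s).im * (G j x t).im) (closure D) := by
  have h1 := slice (h.contG k) s
  have h2 := slice (h.contG j) t
  exact ((Complex.continuous_re.comp_continuousOn h1).mul (Complex.continuous_re.comp_continuousOn h2)).add
    ((Complex.continuous_im.comp_continuousOn h1).mul (Complex.continuous_im.comp_continuousOn h2))

/-- Green's formula for members of the family at two times. -/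
theorem WS.green (hD : IsOpen D) (hb : Bornology.IsBounded D) (hc : 0 < c) (h : WS c D Z G) (j k : ℕ) (s t : ℝ) :
    ∫ x in D, Z k x s * Z (j + 2) x t =
      -(c ^ 2 * ∫ x in D, ((G k x s).re * (G j x t).re + (G k x s).im * (G j x t).im)) := by
  obtain ⟨C1, hC1, hG1, hF1⟩ := Eng_bd hb h k s
  obtain ⟨C2, hC2, hG2, -⟩ := Eng_bd hb h j t
  obtain ⟨C3, hC3⟩ := hb.isCompact_closure.exists_bound_of_continuousOn (slice (h.cont (j + 2)) t)
  have hc2 : (0 : ℝ) < c ^ 2 := by positivity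
  have hdiv : ∀ x ∈ D, pd 1 (pd 1 fun y => Z j y t) x + pd Complex.I (pd Complex.I fun y => Z j y t) x =
      (c ^ 2)⁻¹ * Z (j + 2) x t := by
    intro x hx
    have h1 := h.wave j x hx t
    rw [h1, ← mul_assoc, inv_mul_cancel₀ hc2.ne', one_mul]
    rfl
  have hg := DrumL.green (ψ := fun x => Z k x s) (P := pd 1 fun y => Z j y t) (Qf := pd Complex.I fun y => Z j y t)
    (C := 2 * C1 + C2 + (c ^ 2)⁻¹ * |C3|) hD hb (slice (h.cont k) s) ((h.c2 k s).of_le (by norm_num))
    (fun x hx => h.bdry k x hx s) (contDiffOn_pd hD (h.c2 j t) (by norm_num) 1)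
    (contDiffOn_pd hD (h.c2 j t) (by norm_num) Complex.I)
    (fun x hx => by
      have h1 := hF1 x hx
      have h2 : 0 ≤ (c ^ 2)⁻¹ * |C3| := by positivity
      linarith)
    (fun x hx => by
      have h2 : 0 ≤ (c ^ 2)⁻¹ * |C3| := by positivity
      have h3 := Complex.abs_re_le_norm (G j x t)
      rw [(h.grad j x hx t).1]
      linarith [hG2 x (subset_closure hx)])
    (fun x hx => by
      have h2 : 0 ≤ (c ^ 2)⁻¹ * |C3| := by positivity
      have h3 := Complex.abs_im_le_norm (G j x t)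
      rw [(h.grad j x hx t).2]
      linarith [hG2 x (subset_closure hx)])
    (fun x hx => by
      rw [hdiv x hx, abs_mul, abs_of_pos (inv_pos.2 hc2)]
      have h1 : |Z (j + 2) x t| ≤ |C3| := (hC3 x (subset_closure hx)).trans (le_abs_self _)
      have h2 := mul_le_mul_of_nonneg_left h1 (inv_pos.2 hc2).le
      linarith)
  have h1 : ∀ x ∈ D, Z k x s * (pd 1 (pd 1 fun y => Z j y t) x + pd Complex.I (pd Complex.I fun y => Z j y t) x) +
      (pd 1 (fun y => Z k y s) x * pd 1 (fun y => Z j y t) x +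
        pd Complex.I (fun y => Z k y s) x * pd Complex.I (fun y => Z j y t) x) =
      (c ^ 2)⁻¹ * (Z k x s * Z (j + 2) x t) + ((G k x s).re * (G j x t).re + (G k x s).im * (G j x t).im) := by
    intro x hx
    rw [hdiv x hx, (h.grad k x hx s).1, (h.grad k x hx s).2, (h.grad j x hx t).1, (h.grad j x hx t).2]
    ring
  rw [setIntegral_congr_fun hD.measurableSet h1, integral_add, integral_const_mul] at hg
  · have h2 : c ^ 2 * ((c ^ 2)⁻¹ * ∫ x in D, Z k x s * Z (j + 2) x t) = ∫ x in D, Z k x s * Z (j + 2) x t := by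
      rw [← mul_assoc, mul_inv_cancel₀ hc2.ne', one_mul]
    rw [← h2, eq_neg_of_add_eq_zero_left hg]
    ring
  · exact (intOn hb ((slice (h.cont k) s).mul (slice (h.cont (j + 2)) t))).const_mul _
  · exact intOn hb (Eng_dot h j k s t)

private theorem Eng_nsq (z : ℂ) : ‖z‖ ^ 2 = z.re * z.re + z.im * z.im := by
  rw [Complex.sq_norm, Complex.normSq_apply]

/-- Conservation of energy. -/
theorem WS.energy (hD : IsOpen D) (hb : Bornology.IsBounded D) (hc : 0 < c) (h : WS c D Z G) (k : ℕ) (s t : ℝ) :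
    ∫ x in D, (Z (k + 1) x t ^ 2 + c ^ 2 * ‖G k x t‖ ^ 2) = ∫ x in D, (Z (k + 1) x s ^ 2 + c ^ 2 * ‖G k x s‖ ^ 2) := by
  have hder : ∀ u : ℝ, HasDerivAt (fun u => ∫ x in D, (Z (k + 1) x u ^ 2 + c ^ 2 * ‖G k x u‖ ^ 2)) 0 u := by
    intro u
    have h1 := hasDerivAt_intD hb hD.measurableSet
      (f := fun x u => Z (k + 1) x u ^ 2 + c ^ 2 * ‖G k x u‖ ^ 2)
      (f' := fun x u => 2 * (Z (k + 1) x u * Z (k + 2) x u) +
        2 * c ^ 2 * ((G (k + 1) x u).re * (G k x u).re + (G (k + 1) x u).im * (G k x u).im))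
      (((h.cont (k + 1)).pow 2).add (continuousOn_const.mul ((h.contG k).norm.pow 2)))
      ((continuousOn_const.mul ((h.cont (k + 1)).mul (h.cont (k + 2)))).add (continuousOn_const.mul
        (((Complex.continuous_re.comp_continuousOn (h.contG (k + 1))).mul
          (Complex.continuous_re.comp_continuousOn (h.contG k))).add
        ((Complex.continuous_im.comp_continuousOn (h.contG (k + 1))).mul
          (Complex.continuous_im.comp_continuousOn (h.contG k))))))
      (fun x hx u => by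
        have hx' := subset_closure hx
        have h2 := h.dt (k + 1) x hx' u
        have h3 := h.dtG k x hx' u
        have h4 : HasDerivAt (fun u => (G k x u).re) (G (k + 1) x u).re u :=
          Complex.reCLM.hasFDerivAt.comp_hasDerivAt u h3
        have h5 : HasDerivAt (fun u => (G k x u).im) (G (k + 1) x u).im u :=
          Complex.imCLM.hasFDerivAt.comp_hasDerivAt u h3
        have h6 := (h2.mul h2).add (((h4.mul h4).add (h5.mul h5)).const_mul (c ^ 2))
        have h7 : (fun u => Z (k + 1) x u ^ 2 + c ^ 2 * ‖G k x u‖ ^ 2) = fun u => Z (k + 1) x u * Z (k + 1) x u +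
            c ^ 2 * ((G k x u).re * (G k x u).re + (G k x u).im * (G k x u).im) := by
          funext u
          rw [Eng_nsq, pow_two]
        rw [h7]
        refine h6.congr_deriv ?_
        ring) u
    refine h1.congr_deriv ?_
    have h8 := WS.green hD hb hc h k (k + 1) u u
    rw [integral_add, integral_const_mul, integral_const_mul, h8]
    · ring
    · exact (intOn hb ((slice (h.cont (k + 1)) u).mul (slice (h.cont (k + 2)) u))).const_mul _
    · exact (intOn hb (Eng_dot h k (k + 1) u u)).const_mul _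
  exact is_const_of_deriv_eq_zero (fun u => (hder u).differentiableAt) (fun u => (hder u).deriv) t s

/-- Bounds uniform in time. -/
theorem WS.bound (hD : IsOpen D) (hb : Bornology.IsBounded D) (hc : 0 < c) (h : WS c D Z G) :
    ∃ C : ℝ, ∀ t, ∫ x in D, Z 0 x t ^ 2 ≤ C ∧ ∫ x in D, Z 1 x t ^ 2 ≤ C ∧ ∫ x in D, ‖G 0 x t‖ ^ 2 ≤ C := by
  obtain ⟨B, hB⟩ := hb.exists_norm_le
  set E : ℝ := ∫ x in D, (Z 1 x 0 ^ 2 + c ^ 2 * ‖G 0 x 0‖ ^ 2) with hE
  have hc2 : (0 : ℝ) < c ^ 2 := by positivity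
  have key : ∀ t, ∫ x in D, Z 1 x t ^ 2 ≤ E ∧ ∫ x in D, ‖G 0 x t‖ ^ 2 ≤ (c ^ 2)⁻¹ * E := by
    intro t
    have h1 : ∫ x in D, (Z 1 x t ^ 2 + c ^ 2 * ‖G 0 x t‖ ^ 2) = E := WS.energy hD hb hc h 0 0 t
    have hi1 : IntegrableOn (fun x => Z 1 x t ^ 2) D := intOn hb ((slice (h.cont 1) t).pow 2)
    have hi2 : IntegrableOn (fun x => ‖G 0 x t‖ ^ 2) D := intOn hb ((slice (h.contG 0) t).norm.pow 2)
    rw [integral_add hi1 (hi2.const_mul _), integral_const_mul] at h1
    have h2 : 0 ≤ ∫ x in D, Z 1 x t ^ 2 := integral_nonneg fun x => sq_nonneg _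
    have h3 : 0 ≤ ∫ x in D, ‖G 0 x t‖ ^ 2 := integral_nonneg fun x => sq_nonneg _
    refine ⟨by nlinarith, ?_⟩
    rw [← div_eq_inv_mul, le_div_iff₀ hc2]
    nlinarith
  have hpoi : ∀ t, ∫ x in D, Z 0 x t ^ 2 ≤ B ^ 2 * ((c ^ 2)⁻¹ * E) := by
    intro t
    obtain ⟨C, -, -, hC⟩ := Eng_bd hb h 0 t
    have h1 := poincare hD hb (ψ := fun x => Z 0 x t) (slice (h.cont 0) t) ((h.c2 0 t).of_le (by norm_num))
      (fun x hx => h.bdry 0 x hx t) hC hB
    refine h1.trans (mul_le_mul_of_nonneg_left ?_ (sq_nonneg _))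
    refine le_trans (le_of_eq ?_) (key t).2
    refine setIntegral_congr_fun hD.measurableSet fun x hx => ?_
    simp only [(h.grad 0 x hx t).1, (h.grad 0 x hx t).2, Eng_nsq]
    ring
  refine ⟨max E (max ((c ^ 2)⁻¹ * E) (B ^ 2 * ((c ^ 2)⁻¹ * E))), fun t => ⟨?_, ?_, ?_⟩⟩
  · exact (hpoi t).trans ((le_max_right _ _).trans (le_max_right _ _))
  · exact (key t).1.trans (le_max_left _ _)
  · exact (key t).2.trans ((le_max_left _ _).trans (le_max_right _ _))

end

end DrumL
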