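import Pool.Agent.Lib.MP_d92c84_an.Bes

/-!
# The Bessel equation
-/

set_option autoImplicit false

namespace DrumL

open Filter Topology Set DrumF

/-- The value at zero. -/
theorem J_zero (n : ℕ) : J n 0 = if n = 0 then 1 else 0 := by
  rw [J, tsum_eq_single 0]
  · by_cases h : n = 0
    · subst h
      simp
    · simp [h]
  · intro j hj
    have h : 2 * j + n ≠ 0 := by omega
    rw [zero_div, zero_pow h, mul_zero, zero_div]

/-- The second order equation: `J_n'' = -J_n'/x - (1 - n²/x²) J_n`. -/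
theorem J_ode (n : ℕ) {x : ℝ} (hx : x ≠ 0) :
    HasDerivAt (J n) (deriv (J n) x) x ∧
      HasDerivAt (deriv (J n)) (-(deriv (J n) x / x) - (1 - (n : ℝ) ^ 2 / x ^ 2) * J n x) x := by
  have h1 := hasDerivAt_J n hx
  have h2 := hasDerivAt_J' n hx
  refine ⟨by rw [h1.deriv]; exact h1, ?_⟩
  have h3 : deriv (J n) =ᶠ[𝓝 x] fun y => (n : ℝ) / y * J n y - J (n + 1) y := by
    filter_upwards [isOpen_ne.mem_nhds hx] with y hy
    exact (hasDerivAt_J n hy).deriv
  have h4 : HasDerivAt (fun y : ℝ => (n : ℝ) / y) (-(n : ℝ) / x ^ 2) x := by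
    have h5 := (hasDerivAt_inv hx).const_mul (n : ℝ)
    have h6 : (fun y : ℝ => (n : ℝ) * y⁻¹) = fun y : ℝ => (n : ℝ) / y := by
      funext y
      rw [div_eq_mul_inv]
    rw [h6] at h5
    have h7 : (n : ℝ) * (-(x ^ 2)⁻¹) = -(n : ℝ) / x ^ 2 := by
      rw [div_eq_mul_inv]
      ring
    rw [h7] at h5
    exact h5
  have h8 := (h4.mul h1).sub h2
  refine (h8.congr_of_eventuallyEq h3).congr_deriv ?_
  rw [h1.deriv]
  field_simp
  ring

end DrumL
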