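import Pool.Agent.Lib.MP_d92c84_anF.Jba
import Pool.Agent.Lib.MP_d92c84_anF.Jbb

/-!
# The regular solutions of the radial Helmholtz equation
-/

set_option autoImplicit false

namespace DrumL

open MeasureTheory Set Filter Topology DrumF
open scoped ContDiff Real

private theorem Fba_lip {l a : ℝ} (ha : 0 < a) (n : ℕ) {t : ℝ} (ht : a < t) :
    LipschitzWith (1 + a⁻¹ + |l| + (n : ℝ) ^ 2 / a ^ 2).toNNReal
      fun p : ℂ × ℂ => (p.2, -(p.2 / t) - ((l : ℂ) - (n : ℂ) ^ 2 / t ^ 2) * p.1) := by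
  have ht0 : 0 < t := ha.trans ht
  have hC : 0 ≤ 1 + a⁻¹ + |l| + (n : ℝ) ^ 2 / a ^ 2 := by positivity
  refine LipschitzWith.of_dist_le_mul fun p p' => ?_
  rw [Real.coe_toNNReal _ hC, dist_eq_norm, dist_eq_norm, Prod.norm_def]
  have e1 : ‖p.1 - p'.1‖ ≤ ‖p - p'‖ := norm_fst_le (p - p')
  have e2 : ‖p.2 - p'.2‖ ≤ ‖p - p'‖ := norm_snd_le (p - p')
  have e3 : 0 ≤ ‖p - p'‖ := norm_nonneg _
  have e4 : ‖(l : ℂ) - (n : ℂ) ^ 2 / t ^ 2‖ ≤ |l| + (n : ℝ) ^ 2 / a ^ 2 := by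
    refine (norm_sub_le _ _).trans (add_le_add ?_ ?_)
    · rw [Complex.norm_real, Real.norm_eq_abs]
    · rw [norm_div, norm_pow, norm_pow, Complex.norm_natCast, Complex.norm_real, Real.norm_eq_abs,
        abs_of_pos ht0]
      gcongr
  have e5 : ‖(t : ℂ)‖ = t := by rw [Complex.norm_real, Real.norm_eq_abs, abs_of_pos ht0]
  refine max_le ?_ ?_
  · change ‖p.2 - p'.2‖ ≤ _
    refine e2.trans (le_mul_of_one_le_left e3 ?_)
    have : 0 ≤ a⁻¹ + |l| + (n : ℝ) ^ 2 / a ^ 2 := by positivity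
    linarith
  · have e6 : (-(p.2 / t) - ((l : ℂ) - (n : ℂ) ^ 2 / t ^ 2) * p.1) -
        (-(p'.2 / t) - ((l : ℂ) - (n : ℂ) ^ 2 / t ^ 2) * p'.1) =
        -((p.2 - p'.2) / t) - ((l : ℂ) - (n : ℂ) ^ 2 / t ^ 2) * (p.1 - p'.1) := by ring
    change ‖(-(p.2 / t) - ((l : ℂ) - (n : ℂ) ^ 2 / t ^ 2) * p.1) -
        (-(p'.2 / t) - ((l : ℂ) - (n : ℂ) ^ 2 / t ^ 2) * p'.1)‖ ≤ _
    rw [e6]
    refine (norm_sub_le _ _).trans ?_
    rw [norm_neg, norm_div, norm_mul, e5]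
    have e7 : ‖p.2 - p'.2‖ / t ≤ a⁻¹ * ‖p - p'‖ := by
      rw [div_eq_inv_mul]
      gcongr
    have e8 : ‖(l : ℂ) - (n : ℂ) ^ 2 / t ^ 2‖ * ‖p.1 - p'.1‖ ≤ (|l| + (n : ℝ) ^ 2 / a ^ 2) * ‖p - p'‖ := by
      gcongr
    nlinarith

private theorem Fba_unique {l ρ : ℝ} (n : ℕ) {y y' z z' : ℝ → ℂ}
    (h1 : ∀ r ∈ Ioo 0 ρ, HasDerivAt y (y' r) r)
    (h2 : ∀ r ∈ Ioo 0 ρ, HasDerivAt y' (-(y' r / r) - (l - (n : ℂ) ^ 2 / r ^ 2) * y r) r)
    (h3 : ∀ r ∈ Ioo 0 ρ, HasDerivAt z (z' r) r)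
    (h4 : ∀ r ∈ Ioo 0 ρ, HasDerivAt z' (-(z' r / r) - (l - (n : ℂ) ^ 2 / r ^ 2) * z r) r)
    {t : ℝ} (ht : t ∈ Ioo 0 ρ) (e : y t = z t) (e' : y' t = z' t) : ∀ r ∈ Ioo 0 ρ, y r = z r := by
  intro r hr
  have hm : 0 < min r t := lt_min hr.1 ht.1
  obtain ⟨a, ha⟩ : ∃ a, a = min r t / 2 := ⟨_, rfl⟩
  have ha0 : 0 < a := by rw [ha]; exact half_pos hm
  have ha1 : a < min r t := by rw [ha]; exact half_lt_self hm
  have har : a < r := ha1.trans_le (min_le_left _ _)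
  have hat : a < t := ha1.trans_le (min_le_right _ _)
  have key := ODE_solution_unique_of_mem_Ioo (K := (1 + a⁻¹ + |l| + (n : ℝ) ^ 2 / a ^ 2).toNNReal)
    (s := fun _ => (univ : Set (ℂ × ℂ)))
    (v := fun (t : ℝ) (p : ℂ × ℂ) => (p.2, -(p.2 / t) - ((l : ℂ) - (n : ℂ) ^ 2 / t ^ 2) * p.1))
    (a := a) (b := ρ) (t₀ := t) (f := fun t => (y t, y' t)) (g := fun t => (z t, z' t))
    (fun s hs => (Fba_lip ha0 n hs.1).lipschitzOnWith) ⟨hat, ht.2⟩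
    (fun s hs => ⟨(h1 s ⟨ha0.trans hs.1, hs.2⟩).prodMk (h2 s ⟨ha0.trans hs.1, hs.2⟩), mem_univ _⟩)
    (fun s hs => ⟨(h3 s ⟨ha0.trans hs.1, hs.2⟩).prodMk (h4 s ⟨ha0.trans hs.1, hs.2⟩), mem_univ _⟩)
    (Prod.ext e e')
  exact congrArg Prod.fst (key ⟨har, hr.2⟩)

private theorem Fba_alg {c r D j N : ℝ} (hc : c ≠ 0) (hr : r ≠ 0) :
    c * ((-(D / (c * r)) - (1 - N / (c * r) ^ 2) * j) * c) = -((c * D) / r) - (c * c - N / r ^ 2) * j := by
  field_simp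

/-- A solution of the radial Helmholtz equation of order `n` on `(0, ρ)` which is bounded near `0` with its derivative is
a multiple of `J_n(√l r)`. -/
theorem ode_bessel {l ρ : ℝ} (hl : 0 < l) (hρ : 0 < ρ) (n : ℕ) {y y' : ℝ → ℂ}
    (h1 : ∀ r ∈ Ioo 0 ρ, HasDerivAt y (y' r) r)
    (h2 : ∀ r ∈ Ioo 0 ρ, HasDerivAt y' (-(y' r / r) - (l - (n : ℂ) ^ 2 / r ^ 2) * y r) r)
    (hlim : ∃ M : ℝ, ∀ r ∈ Ioo 0 (ρ / 2), ‖y r‖ ≤ M ∧ ‖y' r‖ ≤ M) :
    ∃ a : ℂ, ∀ r ∈ Ioo 0 ρ, y r = a * (J n (√l * r) : ℂ) := by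
  have hs : 0 < √l := Real.sqrt_pos.2 hl
  have hss : √l * √l = l := Real.mul_self_sqrt hl.le
  -- the derivatives of the Bessel function
  have h3 : ∀ r : ℝ, 0 < r → HasDerivAt (fun r : ℝ => (J n (√l * r) : ℂ)) ((√l * deriv (J n) (√l * r) : ℝ) : ℂ) r := by
    intro r hr
    have e1 := (J_ode n (x := √l * r) (by positivity)).1
    have e2 : HasDerivAt (fun r : ℝ => √l * r) √l r := by
      simpa using (hasDerivAt_id r).const_mul √l
    have e3 := e1.comp r e2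
    rw [mul_comm] at e3
    exact e3.ofReal_comp
  have h4 : ∀ r : ℝ, 0 < r → HasDerivAt (fun r : ℝ => ((√l * deriv (J n) (√l * r) : ℝ) : ℂ))
      (-(((√l * deriv (J n) (√l * r) : ℝ) : ℂ) / r) - (l - (n : ℂ) ^ 2 / r ^ 2) * (J n (√l * r) : ℂ)) r := by
    intro r hr
    have e1 := (J_ode n (x := √l * r) (by positivity)).2
    have e2 : HasDerivAt (fun r : ℝ => √l * r) √l r := by
      simpa using (hasDerivAt_id r).const_mul √l
    have e3 := ((e1.comp r e2).const_mul √l).ofReal_comp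
    have e4 : √l * ((-(deriv (J n) (√l * r) / (√l * r)) - (1 - (n : ℝ) ^ 2 / (√l * r) ^ 2) * J n (√l * r)) * √l) =
        -((√l * deriv (J n) (√l * r)) / r) - (l - (n : ℝ) ^ 2 / r ^ 2) * J n (√l * r) := by
      rw [Fba_alg hs.ne' hr.ne', hss]
    rw [e4] at e3
    have e5 : ((-((√l * deriv (J n) (√l * r)) / r) - (l - (n : ℝ) ^ 2 / r ^ 2) * J n (√l * r) : ℝ) : ℂ) =
        -(((√l * deriv (J n) (√l * r) : ℝ) : ℂ) / r) - (l - (n : ℂ) ^ 2 / r ^ 2) * (J n (√l * r) : ℂ) := by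
      push_cast
      ring
    rw [e5] at e3
    exact e3
  -- a point where the Bessel function is positive
  obtain ⟨t, ht0, htρ, hJt⟩ : ∃ t : ℝ, 0 < t ∧ t < ρ ∧ 0 < J n (√l * t) := by
    refine ⟨min (ρ / 2) (√l)⁻¹, by positivity, (min_le_left _ _).trans_lt (half_lt_self hρ), J_pos n (by positivity) ?_⟩
    calc √l * min (ρ / 2) (√l)⁻¹ ≤ √l * (√l)⁻¹ := by gcongr; exact min_le_right _ _
      _ = 1 := mul_inv_cancel₀ hs.ne'
  -- the Wronskian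
  obtain ⟨W, hW⟩ : ∃ W : ℝ → ℂ, W = fun r : ℝ => (r : ℂ) * (y r * ((√l * deriv (J n) (√l * r) : ℝ) : ℂ) -
      y' r * (J n (√l * r) : ℂ)) := ⟨_, rfl⟩
  have hWd : ∀ r ∈ Ioo 0 ρ, HasDerivAt W 0 r := by
    intro r hr
    have e1 := ((h1 r hr).mul (h4 r hr.1)).sub ((h2 r hr).mul (h3 r hr.1))
    have e2 : HasDerivAt (fun r : ℝ => (r : ℂ)) 1 r := by
      simpa using (hasDerivAt_id r).ofReal_comp
    have e3 := e2.mul e1
    have hr' : (r : ℂ) ≠ 0 := by exact_mod_cast hr.1.ne'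
    rw [hW]
    refine e3.congr_deriv ?_
    simp only [Pi.sub_apply, Pi.mul_apply]
    field_simp
    ring
  have hWc : ∀ s ∈ Ioo 0 t, W t = W s := by
    intro s hs
    refine constant_of_has_deriv_right_zero (a := s) (b := t) ?_ ?_ t ⟨hs.2.le, le_rfl⟩
    · intro x hx
      exact (hWd x ⟨hs.1.trans_le hx.1, hx.2.trans_lt htρ⟩).continuousAt.continuousWithinAt
    · intro x hx
      exact (hWd x ⟨hs.1.trans_le hx.1, hx.2.trans htρ⟩).hasDerivWithinAt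
  -- it vanishes
  have hW0 : W t = 0 := by
    obtain ⟨M, hM⟩ := hlim
    have c1 : Continuous (deriv (J n)) :=
      continuous_iff_continuousAt.2 fun x => (analytic_J n x).deriv.continuousAt
    obtain ⟨B, hB⟩ := (isCompact_Icc (a := (0 : ℝ)) (b := √l * t)).exists_bound_of_continuousOn
      (continuous_J n).continuousOn
    obtain ⟨B', hB'⟩ := (isCompact_Icc (a := (0 : ℝ)) (b := √l * t)).exists_bound_of_continuousOn
      c1.continuousOn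
    have hM0 : 0 ≤ M := (norm_nonneg _).trans (hM (ρ / 4) ⟨by positivity, by linarith⟩).1
    have hB0 : 0 ≤ B := (norm_nonneg _).trans (hB 0 ⟨le_rfl, by positivity⟩)
    have hB'0 : 0 ≤ B' := (norm_nonneg _).trans (hB' 0 ⟨le_rfl, by positivity⟩)
    have hle : ∀ s ∈ Ioo 0 (min t (ρ / 2)), ‖W t‖ ≤ s * (M * (√l * B') + M * B) := by
      intro s hs
      have hst : s < t := hs.2.trans_le (min_le_left _ _)
      have hsρ : s < ρ / 2 := hs.2.trans_le (min_le_right _ _)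
      rw [hWc s ⟨hs.1, hst⟩, hW]
      change ‖(s : ℂ) * (y s * ((√l * deriv (J n) (√l * s) : ℝ) : ℂ) - y' s * (J n (√l * s) : ℂ))‖ ≤ _
      rw [norm_mul, Complex.norm_real, Real.norm_eq_abs, abs_of_pos hs.1]
      refine mul_le_mul_of_nonneg_left ((norm_sub_le _ _).trans ?_) hs.1.le
      have hmem : √l * s ∈ Icc (0 : ℝ) (√l * t) := ⟨by have := hs.1; positivity, by gcongr⟩
      have m1 := hM s ⟨hs.1, hsρ⟩
      have m2 := hB _ hmem
      have m3 := hB' _ hmem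
      rw [norm_mul, norm_mul, Complex.norm_real, Complex.norm_real, norm_mul, Real.norm_of_nonneg (Real.sqrt_nonneg l)]
      gcongr
      · exact m1.1
      · exact m1.2
    by_contra hne
    have hpos : 0 < ‖W t‖ := norm_pos_iff.2 hne
    obtain ⟨C, hC⟩ : ∃ C, C = M * (√l * B') + M * B := ⟨_, rfl⟩
    have hC0 : 0 ≤ C := by rw [hC]; positivity
    have hmin : 0 < min t (ρ / 2) := lt_min ht0 (by positivity)
    obtain ⟨s, hs0⟩ : ∃ s, s = min (min t (ρ / 2) / 2) (‖W t‖ / (2 * (C + 1))) := ⟨_, rfl⟩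
    have hspos : 0 < s := by rw [hs0]; positivity
    have hs1 : s < min t (ρ / 2) := by
      rw [hs0]
      exact (min_le_left _ _).trans_lt (half_lt_self hmin)
    have hs2 : s ≤ ‖W t‖ / (2 * (C + 1)) := by rw [hs0]; exact min_le_right _ _
    have h5 := hle s ⟨hspos, hs1⟩
    rw [← hC] at h5
    have h6 : s * C ≤ ‖W t‖ / (2 * (C + 1)) * (C + 1) := by
      gcongr
      linarith
    have h7 : ‖W t‖ / (2 * (C + 1)) * (C + 1) = ‖W t‖ / 2 := by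
      field_simp
    linarith
  -- conclusion
  have hJc : (J n (√l * t) : ℂ) ≠ 0 := by exact_mod_cast hJt.ne'
  have htc : (t : ℂ) ≠ 0 := by exact_mod_cast ht0.ne'
  refine ⟨y t / (J n (√l * t) : ℂ), ?_⟩
  refine Fba_unique n h1 h2 (z := fun r => y t / (J n (√l * t) : ℂ) * (J n (√l * r) : ℂ))
    (z' := fun r => y t / (J n (√l * t) : ℂ) * ((√l * deriv (J n) (√l * r) : ℝ) : ℂ)) ?_ ?_ ⟨ht0, htρ⟩ ?_ ?_
  · intro r hr
    exact (h3 r hr.1).const_mul _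
  · intro r hr
    refine ((h4 r hr.1).const_mul (y t / (J n (√l * t) : ℂ))).congr_deriv ?_
    ring
  · change y t = y t / (J n (√l * t) : ℂ) * (J n (√l * t) : ℂ)
    rw [div_mul_cancel₀ _ hJc]
  · change y' t = y t / (J n (√l * t) : ℂ) * ((√l * deriv (J n) (√l * t) : ℝ) : ℂ)
    rw [hW] at hW0
    have h8 : y t * ((√l * deriv (J n) (√l * t) : ℝ) : ℂ) - y' t * (J n (√l * t) : ℂ) = 0 :=
      (mul_eq_zero.1 hW0).resolve_left htc
    rw [div_mul_eq_mul_div, eq_div_iff hJc]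
    exact (sub_eq_zero.1 h8).symm

end DrumL
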