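import Pool.Agent.Lib.MP_d92c84_anF.Hes

/-!
# The polar form of the Laplacian for the Fourier modes
-/

set_option autoImplicit false
set_option linter.unusedSectionVars false

namespace DrumL

open MeasureTheory Set Filter Topology
open scoped ContDiff Real

private theorem Pod_cis (θ : ℝ) : HasDerivAt cis (Complex.I * cis θ) θ := by
  have h1 : HasDerivAt (fun t : ℂ => Complex.exp (t * Complex.I))
      (Complex.exp ((θ : ℂ) * Complex.I) * Complex.I) (θ : ℂ) := by
    simpa using ((hasDerivAt_id (θ : ℂ)).mul_const Complex.I).cexp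
  have h2 := h1.comp_ofReal
  rw [mul_comm] at h2
  exact h2

private theorem Pod_cont : Continuous cis :=
  continuous_iff_continuousAt.2 fun θ => (Pod_cis θ).continuousAt

private theorem Pod_norm (θ : ℝ) : ‖cis θ‖ = 1 := Complex.norm_exp_ofReal_mul_I θ

private theorem Pod_per : cis (2 * π) = cis 0 := by
  unfold cis
  have h : ((2 * π : ℝ) : ℂ) * Complex.I = 2 * π * Complex.I := by push_cast; ring
  rw [h, Complex.exp_two_pi_mul_I]
  simp

private theorem Pod_mem {p : ℂ} {ρ r : ℝ} (hr : r ∈ Ioo (-ρ) ρ) (θ : ℝ) :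
    p + r * cis θ ∈ Metric.ball p ρ := by
  rw [Metric.mem_ball, dist_eq_norm, add_sub_cancel_left, norm_mul, Pod_norm, mul_one,
    Complex.norm_real, Real.norm_eq_abs]
  exact abs_lt.2 hr

private theorem Pod_exp (n : ℕ) : Continuous fun θ : ℝ => Complex.exp (-(n * θ * Complex.I)) := by
  fun_prop

/-- Differentiation of an integral over circles with respect to the radius. -/
private theorem Pod_diff {p : ℂ} {ρ : ℝ} {g : ℂ → ℝ} (hg : ContDiffOn ℝ 1 g (Metric.ball p ρ))
    {w : ℝ → ℂ} (hw : Continuous w) {r : ℝ} (hr : r ∈ Ioo (-ρ) ρ) :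
    HasDerivAt (fun s : ℝ => ∫ θ in (0 : ℝ)..(2 * π), (g (p + s * cis θ) : ℂ) * w θ)
      (∫ θ in (0 : ℝ)..(2 * π), (pd (cis θ) g (p + r * cis θ) : ℂ) * w θ) r := by
  obtain ⟨ε, hε, hball⟩ := Metric.mem_nhds_iff.1 (isOpen_Ioo.mem_nhds hr)
  have hK : Metric.closedBall r (ε / 2) ⊆ Ioo (-ρ) ρ :=
    (Metric.closedBall_subset_ball (by linarith)).trans hball
  have hF : ContinuousOn (fderiv ℝ g) (Metric.ball p ρ) :=
    hg.continuousOn_fderiv_of_isOpen Metric.isOpen_ball le_rfl
  have hmap : Continuous fun q : ℝ × ℝ => p + (q.1 : ℂ) * cis q.2 := by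
    have := Pod_cont
    fun_prop
  have hj : ContinuousOn (fun q : ℝ × ℝ => ((pd (cis q.2) g (p + (q.1 : ℂ) * cis q.2) : ℝ) : ℂ) * w q.2)
      (Ioo (-ρ) ρ ×ˢ univ) := by
    have h1 : ContinuousOn (fun q : ℝ × ℝ => fderiv ℝ g (p + (q.1 : ℂ) * cis q.2) (cis q.2))
        (Ioo (-ρ) ρ ×ˢ univ) := by
      refine ContinuousOn.clm_apply (hF.comp hmap.continuousOn ?_)
        (Pod_cont.comp continuous_snd).continuousOn
      intro q hq
      exact Pod_mem hq.1 q.2
    refine ContinuousOn.mul (Complex.continuous_ofReal.comp_continuousOn h1) ?_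
    exact (hw.comp continuous_snd).continuousOn
  have hcomp : IsCompact (Metric.closedBall r (ε / 2) ×ˢ Icc (0 : ℝ) (2 * π)) :=
    (isCompact_closedBall _ _).prod isCompact_Icc
  obtain ⟨C, hC⟩ := hcomp.exists_bound_of_continuousOn (hj.mono (prod_mono hK (subset_univ _)))
  have hslice : ∀ s ∈ Ioo (-ρ) ρ, Continuous fun θ : ℝ => (g (p + s * cis θ) : ℂ) * w θ := by
    intro s hs
    refine Continuous.mul (Complex.continuous_ofReal.comp ?_) hw
    have h2 : Continuous fun θ : ℝ => p + (s : ℂ) * cis θ := by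
      have := Pod_cont
      fun_prop
    exact hg.continuousOn.comp_continuous h2 fun θ => Pod_mem hs θ
  have hslice' : Continuous fun θ : ℝ => (pd (cis θ) g (p + r * cis θ) : ℂ) * w θ :=
    hj.comp_continuous (f := fun θ : ℝ => (r, θ)) (by fun_prop) fun θ => ⟨hr, mem_univ _⟩
  refine (intervalIntegral.hasDerivAt_integral_of_dominated_loc_of_deriv_le (𝕜 := ℝ)
    (s := Metric.closedBall r (ε / 2)) (bound := fun _ => C)
    (F := fun (s : ℝ) (θ : ℝ) => (g (p + (s : ℂ) * cis θ) : ℂ) * w θ)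
    (F' := fun (s : ℝ) (θ : ℝ) => (pd (cis θ) g (p + (s : ℂ) * cis θ) : ℂ) * w θ)
    (Metric.closedBall_mem_nhds r (by positivity)) ?_ ?_ ?_ ?_ ?_ ?_).2
  · filter_upwards [isOpen_Ioo.mem_nhds hr] with s hs
    exact (hslice s hs).aestronglyMeasurable
  · exact (hslice r hr).intervalIntegrable _ _
  · exact hslice'.aestronglyMeasurable
  · refine Eventually.of_forall fun θ hθ s hs => ?_
    rw [uIoc_of_le (by positivity)] at hθ
    exact hC (s, θ) ⟨hs, hθ.1.le, hθ.2⟩
  · exact intervalIntegrable_const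
  · refine Eventually.of_forall fun θ hθ s hs => ?_
    have hs' := hK hs
    have h3 : HasFDerivAt g (fderiv ℝ g (p + s * cis θ)) (p + s * cis θ) :=
      ((hg.differentiableOn one_ne_zero).differentiableAt
        (Metric.isOpen_ball.mem_nhds (Pod_mem hs' θ))).hasFDerivAt
    have h4 : HasDerivAt (fun s : ℝ => p + (s : ℂ) * cis θ) (cis θ) s := by
      have h5 : HasDerivAt (fun s : ℝ => (s : ℂ)) 1 s := Complex.ofRealCLM.hasDerivAt
      simpa using (h5.mul_const (cis θ)).const_add p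
    exact ((h3.comp_hasDerivAt s h4).ofReal_comp).mul_const (w θ)

/-- The polar form of the Laplacian, for the modes. -/
theorem md_ode {p : ℂ} {ρ : ℝ} {f : ℂ → ℝ} (hf : ContDiffOn ℝ 2 f (Metric.ball p ρ)) (n : ℕ) {r : ℝ}
    (hr : r ∈ Ioo 0 ρ) :
    HasDerivAt (md' n p f) (md n p (lap f) r - md' n p f r / r + (n : ℂ) ^ 2 * md n p f r / r ^ 2) r := by
  have hr' : r ∈ Ioo (-ρ) ρ := ⟨by linarith [hr.1, hr.2], hr.2⟩
  have hr0 : (r : ℂ) ≠ 0 := by exact_mod_cast hr.1.ne'
  have hB : IsOpen (Metric.ball p ρ) := Metric.isOpen_ball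
  set E : ℝ → ℂ := fun θ => Complex.exp (-(n * θ * Complex.I)) with hE
  have hEc : Continuous E := Pod_exp n
  have hcis := Pod_cont
  -- the derivatives
  have hfd : ∀ x ∈ Metric.ball p ρ, HasFDerivAt f (fderiv ℝ f x) x := fun x hx =>
    ((hf.differentiableOn two_ne_zero).differentiableAt (hB.mem_nhds hx)).hasFDerivAt
  have hF1 : ContDiffOn ℝ 1 (fderiv ℝ f) (Metric.ball p ρ) :=
    hf.fderiv_of_isOpen hB (by norm_num)
  have hFd : ∀ x ∈ Metric.ball p ρ, HasFDerivAt (fderiv ℝ f) (fderiv ℝ (fderiv ℝ f) x) x :=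
    fun x hx => ((hF1.differentiableOn one_ne_zero).differentiableAt (hB.mem_nhds hx)).hasFDerivAt
  have hGc : ContinuousOn (fderiv ℝ (fderiv ℝ f)) (Metric.ball p ρ) :=
    hF1.continuousOn_fderiv_of_isOpen hB le_rfl
  have hpd1 : ∀ v, ContDiffOn ℝ 1 (pd v f) (Metric.ball p ρ) := fun v =>
    contDiffOn_pd hB hf (by norm_num) v
  have hx : ∀ θ, p + (r : ℂ) * cis θ ∈ Metric.ball p ρ := Pod_mem hr'
  have hxc : Continuous fun θ : ℝ => p + (r : ℂ) * cis θ := by fun_prop
  have hcs : ∀ θ : ℝ, cis θ = (Real.cos θ : ℂ) + (Real.sin θ : ℂ) * Complex.I := by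
    intro θ
    unfold cis
    rw [Complex.exp_mul_I]
    push_cast
    rfl
  have hlin : ∀ (L : ℂ →L[ℝ] ℝ) (θ : ℝ), L (cis θ) = Real.cos θ * L 1 + Real.sin θ * L Complex.I := by
    intro L θ
    rw [hcs]
    have e1 : (Real.cos θ : ℂ) + (Real.sin θ : ℂ) * Complex.I =
        (Real.cos θ) • (1 : ℂ) + (Real.sin θ) • Complex.I := by simp
    rw [e1, map_add, map_smul, map_smul, smul_eq_mul, smul_eq_mul]
  have hxd : ∀ θ : ℝ, HasDerivAt (fun θ : ℝ => p + (r : ℂ) * cis θ) ((r : ℂ) * (Complex.I * cis θ)) θ :=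
    fun θ => ((Pod_cis θ).const_mul (r : ℂ)).const_add p
  -- the derivative of the mode of the radial derivative
  have key1 : HasDerivAt (md' n p f)
      (∫ θ in (0 : ℝ)..(2 * π), (fderiv ℝ (fderiv ℝ f) (p + r * cis θ) (cis θ) (cis θ) : ℂ) * E θ) r := by
    have c1 : Continuous fun θ : ℝ => (Real.cos θ : ℂ) * E θ := by fun_prop
    have c2 : Continuous fun θ : ℝ => (Real.sin θ : ℂ) * E θ := by fun_prop
    have d1 := Pod_diff (hpd1 1) c1 hr'
    have d2 := Pod_diff (hpd1 Complex.I) c2 hr'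
    have d3 := d1.add d2
    have e0 : ∀ (v : ℂ) (θ : ℝ), pd (cis θ) (pd v f) (p + r * cis θ) =
        fderiv ℝ (fderiv ℝ f) (p + r * cis θ) (cis θ) v := fun v θ =>
      (hess_trace hB hf (hx θ)).1 _ _
    have i0 : ∀ v : ℂ, Continuous fun θ : ℝ => pd (cis θ) (pd v f) (p + r * cis θ) := by
      intro v
      simp only [e0]
      exact ((hGc.comp_continuous hxc hx).clm_apply hcis).clm_apply continuous_const
    have i1 := i0 1
    have i2 := i0 Complex.I
    have e1 : (∫ θ in (0 : ℝ)..(2 * π), (fderiv ℝ (fderiv ℝ f) (p + r * cis θ) (cis θ) (cis θ) : ℂ) * E θ) =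
        (∫ θ in (0 : ℝ)..(2 * π), (pd (cis θ) (pd 1 f) (p + r * cis θ) : ℂ) * ((Real.cos θ : ℂ) * E θ)) +
        ∫ θ in (0 : ℝ)..(2 * π), (pd (cis θ) (pd Complex.I f) (p + r * cis θ) : ℂ) *
          ((Real.sin θ : ℂ) * E θ) := by
      rw [← intervalIntegral.integral_add]
      · refine intervalIntegral.integral_congr fun θ _ => ?_
        simp only [e0]
        rw [hlin (fderiv ℝ (fderiv ℝ f) (p + r * cis θ) (cis θ)) θ]
        push_cast
        ring
      · exact Continuous.intervalIntegrable (by fun_prop) _ _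
      · exact Continuous.intervalIntegrable (by fun_prop) _ _
    rw [e1]
    refine d3.congr_of_eventuallyEq ?_
    filter_upwards [isOpen_Ioo.mem_nhds hr'] with s hs
    have j0 : ∀ v : ℂ, Continuous fun θ : ℝ => pd v f (p + s * cis θ) := fun v =>
      (hpd1 v).continuousOn.comp_continuous (by fun_prop) (Pod_mem hs)
    have j1 := j0 1
    have j2 := j0 Complex.I
    unfold md'
    rw [Pi.add_apply, ← intervalIntegral.integral_add]
    · refine intervalIntegral.integral_congr fun θ _ => ?_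
      have e2 : pd (cis θ) f (p + s * cis θ) =
          Real.cos θ * pd 1 f (p + s * cis θ) + Real.sin θ * pd Complex.I f (p + s * cis θ) :=
        hlin (fderiv ℝ f (p + s * cis θ)) θ
      simp only [e2, hE]
      push_cast
      ring
    · exact Continuous.intervalIntegrable (by fun_prop) _ _
    · exact Continuous.intervalIntegrable (by fun_prop) _ _
  -- integration by parts
  have hEd : ∀ θ : ℝ, HasDerivAt E (-(n * Complex.I) * E θ) θ := by
    intro θ
    have h1 : HasDerivAt (fun t : ℂ => Complex.exp (-(n * t * Complex.I)))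
        (Complex.exp (-(n * (θ : ℂ) * Complex.I)) * (-(n * Complex.I))) (θ : ℂ) := by
      have h2 : HasDerivAt (fun t : ℂ => -(n * t * Complex.I)) (-(n * 1 * Complex.I)) (θ : ℂ) :=
        (((hasDerivAt_id (θ : ℂ)).const_mul (n : ℂ)).mul_const Complex.I).neg
      rw [mul_one] at h2
      exact h2.cexp
    have h2 := h1.comp_ofReal
    rw [mul_comm] at h2
    exact h2
  have hEp : E (2 * π) = E 0 := by
    simp only [hE]
    have h1 : -((n : ℂ) * ((2 * π : ℝ) : ℂ) * Complex.I) = ((-(n : ℤ) : ℤ) : ℂ) * (2 * π * Complex.I) := by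
      push_cast
      ring
    rw [h1, Complex.exp_int_mul_two_pi_mul_I]
    simp
  have hh : ∀ θ : ℝ, HasDerivAt (fun θ : ℝ => (f (p + (r : ℂ) * cis θ) : ℂ))
      ((fderiv ℝ f (p + r * cis θ) ((r : ℂ) * (Complex.I * cis θ)) : ℝ) : ℂ) θ := fun θ =>
    ((hfd _ (hx θ)).comp_hasDerivAt θ (hxd θ)).ofReal_comp
  have hu : ∀ θ : ℝ, HasDerivAt
      (fun θ : ℝ => ((fderiv ℝ f (p + r * cis θ) ((r : ℂ) * (Complex.I * cis θ)) : ℝ) : ℂ))
      (((fderiv ℝ (fderiv ℝ f) (p + r * cis θ) ((r : ℂ) * (Complex.I * cis θ))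
        ((r : ℂ) * (Complex.I * cis θ)) +
        fderiv ℝ f (p + r * cis θ) ((r : ℂ) * (Complex.I * (Complex.I * cis θ))) : ℝ)) : ℂ) θ := by
    intro θ
    have a1 : HasDerivAt (fun θ : ℝ => fderiv ℝ f (p + r * cis θ))
        (fderiv ℝ (fderiv ℝ f) (p + r * cis θ) ((r : ℂ) * (Complex.I * cis θ))) θ :=
      (hFd _ (hx θ)).comp_hasDerivAt θ (hxd θ)
    have a2 : HasDerivAt (fun θ : ℝ => (r : ℂ) * (Complex.I * cis θ))
        ((r : ℂ) * (Complex.I * (Complex.I * cis θ))) θ :=
      ((Pod_cis θ).const_mul Complex.I).const_mul (r : ℂ)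
    exact (a1.clm_apply a2).ofReal_comp
  have hscale : ∀ (L : ℂ →L[ℝ] ℝ) (v : ℂ), L ((r : ℂ) * v) = r * L v := by
    intro L v
    have e1 : (r : ℂ) * v = r • v := by simp
    rw [e1, map_smul, smul_eq_mul]
  have hscale2 : ∀ (G : ℂ →L[ℝ] ℂ →L[ℝ] ℝ) (v : ℂ), G ((r : ℂ) * v) = r • G v := by
    intro G v
    have e1 : (r : ℂ) * v = r • v := by simp
    rw [e1, map_smul]
  have hu2 : ∀ θ : ℝ, fderiv ℝ (fderiv ℝ f) (p + r * cis θ) ((r : ℂ) * (Complex.I * cis θ))
        ((r : ℂ) * (Complex.I * cis θ)) +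
        fderiv ℝ f (p + r * cis θ) ((r : ℂ) * (Complex.I * (Complex.I * cis θ))) =
      r ^ 2 * fderiv ℝ (fderiv ℝ f) (p + r * cis θ) (Complex.I * cis θ) (Complex.I * cis θ) -
        r * fderiv ℝ f (p + r * cis θ) (cis θ) := by
    intro θ
    have e1 : Complex.I * (Complex.I * cis θ) = -cis θ := by
      rw [← mul_assoc, Complex.I_mul_I, neg_one_mul]
    have e2 : fderiv ℝ (fderiv ℝ f) (p + r * cis θ) ((r : ℂ) * (Complex.I * cis θ))
        ((r : ℂ) * (Complex.I * cis θ)) = r * (r *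
        fderiv ℝ (fderiv ℝ f) (p + r * cis θ) (Complex.I * cis θ) (Complex.I * cis θ)) := by
      rw [hscale, hscale2]
      rfl
    have e3 : fderiv ℝ f (p + r * cis θ) ((r : ℂ) * -cis θ) =
        -(r * fderiv ℝ f (p + r * cis θ) (cis θ)) := by
      rw [hscale, map_neg]
      ring
    rw [e1, e2, e3]
    ring
  have gI : Continuous fun θ : ℝ =>
      fderiv ℝ (fderiv ℝ f) (p + r * cis θ) (Complex.I * cis θ) (Complex.I * cis θ) :=
    ((hGc.comp_continuous hxc hx).clm_apply (by fun_prop)).clm_apply (by fun_prop)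
  have gE : Continuous fun θ : ℝ =>
      fderiv ℝ (fderiv ℝ f) (p + r * cis θ) (cis θ) (cis θ) :=
    ((hGc.comp_continuous hxc hx).clm_apply (by fun_prop)).clm_apply (by fun_prop)
  have gF : Continuous fun θ : ℝ => fderiv ℝ f (p + r * cis θ) (cis θ) :=
    (hF1.continuousOn.comp_continuous hxc hx).clm_apply (by fun_prop)
  have gf : Continuous fun θ : ℝ => f (p + r * cis θ) :=
    hf.continuousOn.comp_continuous hxc hx
  have cI := Complex.continuous_ofReal.comp gI
  have cE := Complex.continuous_ofReal.comp gE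
  have cF := Complex.continuous_ofReal.comp gF
  have cf := Complex.continuous_ofReal.comp gf
  have key2 : (∫ θ in (0 : ℝ)..(2 * π),
      (((r ^ 2 * fderiv ℝ (fderiv ℝ f) (p + r * cis θ) (Complex.I * cis θ) (Complex.I * cis θ) -
        r * fderiv ℝ f (p + r * cis θ) (cis θ) : ℝ) : ℂ) * E θ +
        (n : ℂ) ^ 2 * ((f (p + r * cis θ) : ℂ) * E θ))) = 0 := by
    have h1 : ∀ θ ∈ uIcc (0 : ℝ) (2 * π), HasDerivAt
        (fun θ : ℝ => ((fderiv ℝ f (p + r * cis θ) ((r : ℂ) * (Complex.I * cis θ)) : ℝ) : ℂ) * E θ +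
          (n * Complex.I) * ((f (p + (r : ℂ) * cis θ) : ℂ) * E θ))
        (((r ^ 2 * fderiv ℝ (fderiv ℝ f) (p + r * cis θ) (Complex.I * cis θ) (Complex.I * cis θ) -
        r * fderiv ℝ f (p + r * cis θ) (cis θ) : ℝ) : ℂ) * E θ +
        (n : ℂ) ^ 2 * ((f (p + r * cis θ) : ℂ) * E θ)) θ := by
      intro θ _
      have h2 := ((hu θ).mul (hEd θ)).add (((hh θ).mul (hEd θ)).const_mul (n * Complex.I))
      rw [hu2 θ] at h2
      refine h2.congr_deriv ?_
      ring_nf
      rw [Complex.I_sq]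
      ring
    rw [intervalIntegral.integral_eq_sub_of_hasDerivAt h1]
    · simp only [Pod_per, hEp, sub_self]
    · refine Continuous.intervalIntegrable ?_ _ _
      refine Continuous.add (Continuous.mul (Complex.continuous_ofReal.comp ?_) hEc)
        (continuous_const.mul (cf.mul hEc))
      exact (continuous_const.mul gI).sub (continuous_const.mul gF)
  -- conclusion
  have s1 : (∫ θ in (0 : ℝ)..(2 * π),
      (((r ^ 2 * fderiv ℝ (fderiv ℝ f) (p + r * cis θ) (Complex.I * cis θ) (Complex.I * cis θ) -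
        r * fderiv ℝ f (p + r * cis θ) (cis θ) : ℝ) : ℂ) * E θ +
        (n : ℂ) ^ 2 * ((f (p + r * cis θ) : ℂ) * E θ))) =
      (r : ℂ) ^ 2 * (∫ θ in (0 : ℝ)..(2 * π),
        (fderiv ℝ (fderiv ℝ f) (p + r * cis θ) (Complex.I * cis θ) (Complex.I * cis θ) : ℂ) * E θ) -
      (r : ℂ) * md' n p f r + (n : ℂ) ^ 2 * md n p f r := by
    unfold md' md
    rw [← intervalIntegral.integral_const_mul, ← intervalIntegral.integral_const_mul,
      ← intervalIntegral.integral_const_mul, ← intervalIntegral.integral_sub,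
      ← intervalIntegral.integral_add]
    · refine intervalIntegral.integral_congr fun θ _ => ?_
      simp only [hE, pd]
      push_cast
      ring
    · exact ((continuous_const.mul (cI.mul hEc)).sub
        (continuous_const.mul (cF.mul hEc))).intervalIntegrable _ _
    · exact (continuous_const.mul (cf.mul hEc)).intervalIntegrable _ _
    · exact (continuous_const.mul (cI.mul hEc)).intervalIntegrable _ _
    · exact (continuous_const.mul (cF.mul hEc)).intervalIntegrable _ _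
  have s2 : (∫ θ in (0 : ℝ)..(2 * π),
      (fderiv ℝ (fderiv ℝ f) (p + r * cis θ) (cis θ) (cis θ) : ℂ) * E θ) =
      md n p (lap f) r - ∫ θ in (0 : ℝ)..(2 * π),
        (fderiv ℝ (fderiv ℝ f) (p + r * cis θ) (Complex.I * cis θ) (Complex.I * cis θ) : ℂ) * E θ := by
    unfold md
    have s3 : (∫ θ in (0 : ℝ)..(2 * π), (lap f (p + r * cis θ) : ℂ) * Complex.exp (-(n * θ * Complex.I))) =
        ∫ θ in (0 : ℝ)..(2 * π), ((fderiv ℝ (fderiv ℝ f) (p + r * cis θ) (cis θ) (cis θ) : ℂ) * E θ +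
          (fderiv ℝ (fderiv ℝ f) (p + r * cis θ) (Complex.I * cis θ) (Complex.I * cis θ) : ℂ) * E θ) := by
      refine intervalIntegral.integral_congr fun θ _ => ?_
      have s4 := (hess_trace hB hf (hx θ)).2.2 θ
      simp only [← s4, hE]
      push_cast
      ring
    rw [s3, intervalIntegral.integral_add]
    · ring
    · exact (cE.mul hEc).intervalIntegrable _ _
    · exact (cI.mul hEc).intervalIntegrable _ _
  rw [s1] at key2
  refine key1.congr_deriv ?_
  rw [s2]
  generalize (∫ θ in (0 : ℝ)..(2 * π),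
    (fderiv ℝ (fderiv ℝ f) (p + r * cis θ) (Complex.I * cis θ) (Complex.I * cis θ) : ℂ) * E θ) = J
    at key2
  field_simp
  linear_combination (-1 : ℂ) * key2

end DrumL
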