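import Pool.Agent.Lib.MP_d92c84_anF.Fba
import Pool.Agent.Lib.MP_d92c84_anF.Pod

/-!
# The modes of a solution of the Helmholtz equation are multiples of Bessel functions
-/

set_option autoImplicit false

namespace DrumL

open MeasureTheory Set Filter Topology DrumF
open scoped ContDiff Real

private theorem Fbb_norm_cis (θ : ℝ) : ‖cis θ‖ = 1 := by
  unfold cis
  exact Complex.norm_exp_ofReal_mul_I θ

private theorem Fbb_norm_exp (n : ℕ) (θ : ℝ) : ‖Complex.exp (-(n * θ * Complex.I))‖ = 1 := by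
  have h : (-(n * θ * Complex.I) : ℂ) = ((-(n * θ) : ℝ) : ℂ) * Complex.I := by
    push_cast
    ring
  rw [h, Complex.norm_exp_ofReal_mul_I]

private theorem Fbb_mem {p : ℂ} {s r : ℝ} (hr : 0 ≤ r) (hrs : r ≤ s) (θ : ℝ) :
    p + r * cis θ ∈ Metric.closedBall p s := by
  rw [Metric.mem_closedBall, dist_eq_norm, add_sub_cancel_left, norm_mul, Fbb_norm_cis, mul_one, Complex.norm_real,
    Real.norm_eq_abs, abs_of_nonneg hr]
  exact hrs

private theorem Fbb_mem' {p : ℂ} {ρ r : ℝ} (hr : r ∈ Ioo 0 ρ) (θ : ℝ) : p + r * cis θ ∈ Metric.ball p ρ := by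
  rw [Metric.mem_ball, dist_eq_norm, add_sub_cancel_left, norm_mul, Fbb_norm_cis, mul_one, Complex.norm_real,
    Real.norm_eq_abs, abs_of_pos hr.1]
  exact hr.2

private theorem Fbb_lap {l : ℝ} {p : ℂ} {ρ : ℝ} {f : ℂ → ℝ} (hf : Hz l (Metric.ball p ρ) f) (n : ℕ) {r : ℝ}
    (hr : r ∈ Ioo 0 ρ) : md n p (lap f) r = -(l : ℂ) * md n p f r := by
  unfold md
  rw [← intervalIntegral.integral_const_mul]
  refine intervalIntegral.integral_congr fun θ _ => ?_
  show ((lap f (p + r * cis θ) : ℝ) : ℂ) * Complex.exp (-(n * θ * Complex.I)) =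
    -(l : ℂ) * ((f (p + r * cis θ) : ℂ) * Complex.exp (-(n * θ * Complex.I)))
  rw [hf.eq _ (Fbb_mem' hr θ)]
  push_cast
  ring

private theorem Fbb_bdd {p : ℂ} {ρ : ℝ} (hρ : 0 < ρ) {f : ℂ → ℝ} (hf : ContDiffOn ℝ ∞ f (Metric.ball p ρ)) (n : ℕ) :
    ∃ M : ℝ, ∀ r ∈ Ioo 0 (ρ / 2), ‖md n p f r‖ ≤ M ∧ ‖md' n p f r‖ ≤ M := by
  have hsub : Metric.closedBall p (ρ / 2) ⊆ Metric.ball p ρ := Metric.closedBall_subset_ball (by linarith)
  have hc1 : ContinuousOn f (Metric.closedBall p (ρ / 2)) := hf.continuousOn.mono hsub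
  have hc2 : ContinuousOn (fderiv ℝ f) (Metric.closedBall p (ρ / 2)) :=
    (hf.continuousOn_fderiv_of_isOpen Metric.isOpen_ball (by simp)).mono hsub
  obtain ⟨A, hA⟩ := (isCompact_closedBall p (ρ / 2)).exists_bound_of_continuousOn hc1
  obtain ⟨B, hB⟩ := (isCompact_closedBall p (ρ / 2)).exists_bound_of_continuousOn hc2
  refine ⟨max A B * |2 * π - 0|, fun r hr => ⟨?_, ?_⟩⟩
  · refine intervalIntegral.norm_integral_le_of_norm_le_const fun θ _ => ?_
    rw [norm_mul, Fbb_norm_exp, mul_one, Complex.norm_real]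
    exact (hA _ (Fbb_mem hr.1.le hr.2.le θ)).trans (le_max_left _ _)
  · refine intervalIntegral.norm_integral_le_of_norm_le_const fun θ _ => ?_
    rw [norm_mul, Fbb_norm_exp, mul_one, Complex.norm_real]
    refine (((fderiv ℝ f (p + r * cis θ)).le_opNorm (cis θ)).trans ?_).trans (le_max_right A B)
    rw [Fbb_norm_cis, mul_one]
    exact hB _ (Fbb_mem hr.1.le hr.2.le θ)

/-- The modes of a solution of the Helmholtz equation on a disc are multiples of Bessel functions. -/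
theorem mode_bessel {l : ℝ} (hl : 0 < l) {p : ℂ} {ρ : ℝ} (hρ : 0 < ρ) {f : ℂ → ℝ} (hf : Hz l (Metric.ball p ρ) f)
    (n : ℕ) : ∃ a : ℂ, ∀ r ∈ Ioo 0 ρ, md n p f r = a * (J n (√l * r) : ℂ) := by
  have hf1 : ContDiffOn ℝ 1 f (Metric.ball p ρ) := hf.smooth.of_le (by exact_mod_cast le_top)
  have hf2 : ContDiffOn ℝ 2 f (Metric.ball p ρ) := hf.smooth.of_le (by
    have : ((2 : ℕ∞) : WithTop ℕ∞) ≤ ((⊤ : ℕ∞) : WithTop ℕ∞) := by exact_mod_cast le_top
    exact this)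
  refine ode_bessel hl hρ n (y := md n p f) (y' := md' n p f) (fun r hr => ?_) (fun r hr => ?_)
    (Fbb_bdd hρ hf.smooth n)
  · exact md_deriv hf1 n ⟨by linarith [hr.1], hr.2⟩
  · have h := md_ode hf2 n hr
    rw [Fbb_lap hf n hr] at h
    have h2 : -(l : ℂ) * md n p f r - md' n p f r / r + (n : ℂ) ^ 2 * md n p f r / r ^ 2 =
        -(md' n p f r / r) - (l - (n : ℂ) ^ 2 / r ^ 2) * md n p f r := by
      ring
    rwa [h2] at h

/-- The mean value property of the solutions of the Helmholtz equation. -/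
theorem mean_circle {l : ℝ} (hl : 0 < l) {p : ℂ} {ρ : ℝ} {f : ℂ → ℝ} (hf : Hz l (Metric.ball p ρ) f) {r : ℝ}
    (hr : r ∈ Ioo 0 ρ) : md 0 p f r = 2 * π * (f p : ℂ) * (J 0 (√l * r) : ℂ) := by
  have hρ : 0 < ρ := hr.1.trans hr.2
  have hf1 : ContDiffOn ℝ 1 f (Metric.ball p ρ) := hf.smooth.of_le (by exact_mod_cast le_top)
  obtain ⟨a, ha⟩ := mode_bessel hl hρ hf 0
  have hsl : 0 < √l := Real.sqrt_pos.2 hl
  have h0 : md 0 p f 0 = 2 * π * (f p : ℂ) := by
    unfold md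
    have h1 : ∀ θ : ℝ, ((f (p + (0 : ℝ) * cis θ) : ℝ) : ℂ) * Complex.exp (-((0 : ℕ) * θ * Complex.I)) = (f p : ℂ) := by
      intro θ
      simp
    simp only [h1]
    rw [intervalIntegral.integral_const]
    simp [mul_comm]
  have hlim1 : Tendsto (md 0 p f) (𝓝[>] 0) (𝓝 (md 0 p f 0)) :=
    ((md_deriv hf1 0 (r := 0) ⟨by linarith, hρ⟩).continuousAt.tendsto).mono_left nhdsWithin_le_nhds
  have hJ : Tendsto (fun s : ℝ => J 0 (√l * s)) (𝓝[>] 0) (𝓝 1) := by
    have hb : Tendsto (fun s : ℝ => (√l * s / 2) ^ 2) (𝓝[>] 0) (𝓝 0) := by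
      have hc : Continuous fun s : ℝ => (√l * s / 2) ^ 2 := by fun_prop
      have := hc.tendsto 0
      simp only [mul_zero, zero_div, ne_eq, OfNat.ofNat_ne_zero, not_false_eq_true, zero_pow] at this
      exact this.mono_left nhdsWithin_le_nhds
    have h2 : Tendsto (fun s : ℝ => J 0 (√l * s) - 1) (𝓝[>] 0) (𝓝 0) := by
      refine squeeze_zero_norm' ?_ hb
      filter_upwards [Ioo_mem_nhdsGT (show (0 : ℝ) < 1 / √l by positivity)] with s hs
      have h3 : 0 < √l * s := mul_pos hsl hs.1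
      have h4 : √l * s ≤ 1 := by
        have := (lt_div_iff₀ hsl).1 hs.2
        rw [mul_comm]
        exact this.le
      have h5 := J_lead 0 h3 h4
      simpa using h5
    have h6 := h2.add_const 1
    simpa using h6
  have hlim2 : Tendsto (md 0 p f) (𝓝[>] 0) (𝓝 (a * ((1 : ℝ) : ℂ))) := by
    have h7 : Tendsto (fun s : ℝ => a * ((J 0 (√l * s) : ℝ) : ℂ)) (𝓝[>] 0) (𝓝 (a * ((1 : ℝ) : ℂ))) :=
      ((Complex.continuous_ofReal.tendsto 1).comp hJ).const_mul a
    refine h7.congr' ?_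
    filter_upwards [Ioo_mem_nhdsGT hρ] with s hs
    exact (ha s hs).symm
  have h8 := tendsto_nhds_unique hlim1 hlim2
  rw [ha r hr, ← h0, h8]
  simp

end DrumL
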