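import Pool.Agent.Lib.MP_d92c84_anF.Par

/-!
# The integral of the Laplacian of a function with vanishing gradient on the boundary
-/

set_option autoImplicit false

namespace DrumL

open MeasureTheory Set Filter Topology
open scoped ContDiff

private theorem Flx_aux {D E : Set ℂ} (hD : IsOpen D) (hE : IsOpen E) (hb : Bornology.IsBounded E)
    (hED : closure E ⊆ D) {P : ℂ → ℝ} (hP : ContDiffOn ℝ 1 P D) (h0 : ∀ x ∈ frontier E, P x = 0) (w : ℂ) :
    IntegrableOn (pd w P) E ∧ ∫ x in E, pd w P x = 0 := by
  have hPE : ContDiffOn ℝ 1 P E := hP.mono (subset_closure.trans hED)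
  have hPc : ContinuousOn P (closure E) := hP.continuousOn.mono hED
  have hdc : ContinuousOn (pd w P) (closure E) :=
    (contDiffOn_pd hD (m := 0) hP (by norm_num) w).continuousOn.mono hED
  have hint : IntegrableOn (pd w P) E := intOn hb hdc
  refine ⟨hint, ?_⟩
  obtain ⟨C, hC⟩ := hb.isCompact_closure.exists_bound_of_continuousOn hdc
  have hzero : ∀ N : ℕ, ∫ x in E, sg (P x / eN N) * pd w P x = 0 := by
    intro N
    have hS0 : ∀ s, |s| ≤ eN N → Se (eN N) s = 0 := fun s hs => Se_zero (eN_pos N) hs
    have h1 := integral_pd (trunc_contDiff (n := 1) hb hPc h0 hE (eN_pos N) hS0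
      ((contDiff_Se (eN N)).of_le (by exact_mod_cast le_top)) hPE)
      (trunc_support hb hPc h0 hE (eN_pos N) hS0).1 w
    have h2 : ∀ x, pd w (indicator E fun x => Se (eN N) (P x)) x =
        indicator E (fun x => sg (P x / eN N) * pd w P x) x := fun x =>
      trunc_pd hb hPc h0 hE (eN_pos N) hS0 (hasDerivAt_Se (eN_pos N))
        (hPE.differentiableOn (by norm_num)) w x
    simp only [h2] at h1
    rwa [integral_indicator hE.measurableSet] at h1
  have hlim : Tendsto (fun N : ℕ => ∫ x in E, sg (P x / eN N) * pd w P x) atTop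
      (𝓝 (∫ x in E, pd w P x)) := by
    refine tendsto_integral_of_dominated_convergence (fun _ => C) ?_ ?_ ?_ ?_
    · intro N
      have h1 : ContinuousOn (fun x => sg (P x / eN N) * pd w P x) (closure E) :=
        (continuous_sg.comp_continuousOn (hPc.div_const _)).mul hdc
      exact (intOn hb h1).aestronglyMeasurable
    · have : IsFiniteMeasure (volume.restrict E) :=
        ⟨by rw [Measure.restrict_apply_univ]; exact hb.measure_lt_top⟩
      exact integrable_const C
    · intro N
      rw [ae_restrict_iff' hE.measurableSet]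
      refine Eventually.of_forall fun x hx => ?_
      have h1 := hC x (subset_closure hx)
      rw [norm_mul, Real.norm_eq_abs, abs_of_nonneg (sg_nonneg _)]
      have h2 := sg_le_one (P x / eN N)
      have h3 := norm_nonneg (pd w P x)
      calc sg (P x / eN N) * ‖pd w P x‖ ≤ 1 * ‖pd w P x‖ := mul_le_mul_of_nonneg_right h2 h3
        _ ≤ C := by rw [one_mul]; exact h1
    · have h1 := ae_crit hE (hPE.differentiableOn (by norm_num))
      filter_upwards [h1] with x hx
      by_cases h2 : P x = 0
      · have h3 : pd w P x = 0 := by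
          unfold pd
          rw [hx h2]
          rfl
        simp only [h3, mul_zero]
        exact tendsto_const_nhds
      · have h3 := (tendsto_sg h2).mul_const (pd w P x)
        rwa [one_mul] at h3
  simp only [hzero] at hlim
  exact (tendsto_nhds_unique hlim tendsto_const_nhds)

/-- If `v` is `C²` on the open set `D`, `closure E ⊆ D`, `E` open and bounded, and the derivative of `v` is `0`
on the boundary of `E`, then `∫_E Δv = 0`. -/
theorem flux {D E : Set ℂ} (hD : IsOpen D) (hE : IsOpen E) (hb : Bornology.IsBounded E) (hED : closure E ⊆ D)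
    {v : ℂ → ℝ} (hv : ContDiffOn ℝ 2 v D) (h0 : ∀ x ∈ frontier E, pd 1 v x = 0 ∧ pd Complex.I v x = 0) :
    ∫ x in E, lap v x = 0 := by
  have h1 := Flx_aux hD hE hb hED (contDiffOn_pd hD (m := 1) hv (by norm_num) 1) (fun x hx => (h0 x hx).1) 1
  have h2 := Flx_aux hD hE hb hED (contDiffOn_pd hD (m := 1) hv (by norm_num) Complex.I)
    (fun x hx => (h0 x hx).2) Complex.I
  unfold lap
  rw [integral_add h1.1 h2.1, h1.2, h2.2, add_zero]

end DrumL
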