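import Pool.Agent.Lib.MP_d92c84_anF.Mdp
import Pool.Agent.Lib.MP_d92c84_anF.Dar

/-!
# The modes of a drum solution about a point where it vanishes at all times
-/

set_option autoImplicit false

namespace DrumL

open MeasureTheory Set Filter Topology
open scoped ContDiff Real

private theorem Mdz_norm_cis (θ : ℝ) : ‖cis θ‖ = 1 := by
  unfold cis
  exact Complex.norm_exp_ofReal_mul_I θ

private theorem Mdz_norm_e (n : ℕ) (θ : ℝ) : ‖Complex.exp (-(n * θ * Complex.I))‖ = 1 := by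
  have h : -((n : ℂ) * θ * Complex.I) = ((-(n * θ) : ℝ) : ℂ) * Complex.I := by push_cast; ring
  rw [h]
  exact Complex.norm_exp_ofReal_mul_I _

private theorem Mdz_mem {x₀ : ℂ} {r : ℝ} (hr : 0 ≤ r) (θ : ℝ) : ‖x₀ + r * cis θ - x₀‖ = r := by
  rw [add_sub_cancel_left, norm_mul, Mdz_norm_cis, mul_one, Complex.norm_real, Real.norm_of_nonneg hr]

private theorem Mdz_bound {F : ℝ → ℂ} {C : ℝ} (h : ∀ θ, ‖F θ‖ ≤ C) :
    ‖∫ θ in (0 : ℝ)..(2 * π), F θ‖ ≤ C * (2 * π) := by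
  have h1 := intervalIntegral.norm_integral_le_of_norm_le_const (a := (0 : ℝ)) (b := 2 * π) (f := F) (C := C)
    fun θ _ => h θ
  rwa [sub_zero, abs_of_pos Real.two_pi_pos] at h1

private theorem Mdz_md_le {x₀ : ℂ} {r ε : ℝ} (hr : 0 ≤ r) {f : ℂ → ℝ} (n : ℕ)
    (h : ∀ y, ‖y - x₀‖ = r → |f y| ≤ ε) : ‖md n x₀ f r‖ ≤ ε * (2 * π) := by
  unfold md
  refine Mdz_bound fun θ => ?_
  rw [norm_mul, Mdz_norm_e, mul_one, Complex.norm_real, Real.norm_eq_abs]
  exact h _ (Mdz_mem hr θ)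

private theorem Mdz_int_one :
    ∫ θ in (0 : ℝ)..(2 * π), Complex.exp (-(((1 : ℕ) : ℂ) * θ * Complex.I)) = 0 := by
  have h := integral_exp_mul_complex (a := 0) (b := 2 * π) (c := -Complex.I) (by simp)
  have h1 : ∀ θ : ℝ, Complex.exp (-(((1 : ℕ) : ℂ) * θ * Complex.I)) = Complex.exp (-Complex.I * θ) := by
    intro θ
    congr 1
    push_cast
    ring
  simp only [h1]
  rw [h]
  have h2 : Complex.exp (-Complex.I * ((2 * π : ℝ) : ℂ)) = 1 := by
    have h3 : -Complex.I * ((2 * π : ℝ) : ℂ) = -(2 * π * Complex.I) := by push_cast; ring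
    rw [h3, Complex.exp_neg, Complex.exp_two_pi_mul_I, inv_one]
  rw [h2]
  simp

private theorem Mdz_cont_circle {E : Type*} [TopologicalSpace E] {x₀ : ℂ} {δ r : ℝ} (hr : r ∈ Ioo 0 δ) {f : ℂ → E}
    (hf : ContinuousOn f (Metric.ball x₀ δ)) : Continuous fun θ : ℝ => f (x₀ + r * cis θ) := by
  have hc : Continuous fun θ : ℝ => x₀ + r * cis θ := by
    unfold cis
    fun_prop
  refine hf.comp_continuous hc fun θ => ?_
  rw [Metric.mem_ball, dist_eq_norm, Mdz_mem hr.1.le]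
  exact hr.2

private theorem Mdz_md_one {x₀ : ℂ} {δ r a ε : ℝ} (hr : r ∈ Ioo 0 δ) {f : ℂ → ℝ}
    (hf : ContinuousOn f (Metric.ball x₀ δ)) (h : ∀ y, ‖y - x₀‖ = r → |f y - a| ≤ ε) :
    ‖md 1 x₀ f r‖ ≤ ε * (2 * π) := by
  have hc := Mdz_cont_circle hr hf
  have h1 : md 1 x₀ f r = md 1 x₀ (fun y => f y - a) r := by
    unfold md
    have h2 : ∀ θ : ℝ, ((f (x₀ + r * cis θ) - a : ℝ) : ℂ) * Complex.exp (-(((1 : ℕ) : ℂ) * θ * Complex.I)) =
        (f (x₀ + r * cis θ) : ℂ) * Complex.exp (-(((1 : ℕ) : ℂ) * θ * Complex.I)) -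
          (a : ℂ) * Complex.exp (-(((1 : ℕ) : ℂ) * θ * Complex.I)) := by
      intro θ
      push_cast
      ring
    simp only [h2]
    rw [intervalIntegral.integral_sub, intervalIntegral.integral_const_mul, Mdz_int_one, mul_zero, sub_zero]
    · refine Continuous.intervalIntegrable ?_ _ _
      exact (Complex.continuous_ofReal.comp hc).mul (by fun_prop)
    · refine Continuous.intervalIntegrable ?_ _ _
      fun_prop
  rw [h1]
  exact Mdz_md_le hr.1.le 1 h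

private theorem Mdz_pd {c : ℝ} {D : Set ℂ} {z : ℂ → ℝ → ℝ} {G : ℂ → ℝ → ℂ} (h : Dz c D z G) {y : ℂ} (hy : y ∈ D)
    (t : ℝ) (v : ℂ) : fderiv ℝ (fun y => z y t) y v = v.re * (G y t).re + v.im * (G y t).im := by
  have h1 := (h.grad y hy t).1
  have h2 := (h.grad y hy t).2
  unfold pd at h1 h2
  have hv : v = v.re • (1 : ℂ) + v.im • Complex.I := by
    apply Complex.ext <;> simp
  conv_lhs => rw [hv]
  rw [map_add, map_smul, map_smul, h1, h2, smul_eq_mul, smul_eq_mul]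

private theorem Mdz_unif {E : Type*} [NormedAddCommGroup E] {D : Set ℂ} {g : ℂ → ℝ → E}
    (hg : ContinuousOn (fun q : ℂ × ℝ => g q.1 q.2) (D ×ˢ univ)) {x₀ : ℂ} {δ : ℝ} (hδ : 0 < δ)
    (hb : Metric.ball x₀ δ ⊆ D) (T : ℝ) {ε : ℝ} (hε : 0 < ε) :
    ∃ r₀ > 0, r₀ ≤ δ ∧ ∀ y, ‖y - x₀‖ < r₀ → ∀ t ∈ Icc (-T) T, ‖g y t - g x₀ t‖ ≤ ε := by
  have hK : IsCompact (Metric.closedBall x₀ (δ / 2) ×ˢ Icc (-T) T) :=
    (isCompact_closedBall x₀ (δ / 2)).prod isCompact_Icc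
  have hsub : Metric.closedBall x₀ (δ / 2) ⊆ D := (Metric.closedBall_subset_ball (by linarith)).trans hb
  have hu := hK.uniformContinuousOn_of_continuous (hg.mono (prod_mono hsub (subset_univ _)))
  rw [Metric.uniformContinuousOn_iff] at hu
  obtain ⟨ρ, hρ, hρ1⟩ := hu ε hε
  refine ⟨min ρ (δ / 2), lt_min hρ (by linarith), (min_le_right _ _).trans (by linarith), ?_⟩
  intro y hy t ht
  have m1 : y ∈ Metric.closedBall x₀ (δ / 2) := by
    rw [Metric.mem_closedBall, dist_eq_norm]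
    exact hy.le.trans (min_le_right _ _)
  have m2 : x₀ ∈ Metric.closedBall x₀ (δ / 2) := Metric.mem_closedBall_self (by linarith)
  have m3 : dist ((y, t) : ℂ × ℝ) (x₀, t) < ρ := by
    rw [Prod.dist_eq]
    simp only [dist_self]
    rw [max_eq_left dist_nonneg, dist_eq_norm]
    exact hy.trans_le (min_le_left _ _)
  have h1 := hρ1 (y, t) ⟨m1, ht⟩ (x₀, t) ⟨m2, ht⟩ m3
  rw [dist_eq_norm] at h1
  exact h1.le

private theorem Mdz_dt_cont {c : ℝ} {D : Set ℂ} (hD : IsOpen D) {z : ℂ → ℝ → ℝ} {G : ℂ → ℝ → ℂ} (h : Dz c D z G) :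
    ContinuousOn (fun q : ℂ × ℝ => deriv (z q.1) q.2) (D ×ˢ univ) := by
  have hO : IsOpen (D ×ˢ (univ : Set ℝ)) := hD.prod isOpen_univ
  have h1 : ContinuousOn (fun q : ℂ × ℝ => fderiv ℝ (fun q : ℂ × ℝ => z q.1 q.2) q ((0 : ℂ), (1 : ℝ))) (D ×ˢ univ) :=
    (h.c2.continuousOn_fderiv_of_isOpen hO (by norm_num)).clm_apply continuousOn_const
  refine h1.congr ?_
  rintro ⟨y, t⟩ ⟨hy, -⟩
  have h2 := ((h.c2.contDiffAt (hO.mem_nhds ⟨hy, mem_univ t⟩)).differentiableAt (by norm_num)).hasFDerivAt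
  have h3 : HasDerivAt (fun s : ℝ => ((y, s) : ℂ × ℝ)) ((0 : ℂ), (1 : ℝ)) t :=
    (hasDerivAt_const t y).prodMk (hasDerivAt_id t)
  exact (h2.comp_hasDerivAt t h3).deriv

private theorem Mdz_z_cont {c : ℝ} {D : Set ℂ} {z : ℂ → ℝ → ℝ} {G : ℂ → ℝ → ℂ} (h : Dz c D z G) :
    ContinuousOn (fun q : ℂ × ℝ => z q.1 q.2) (D ×ˢ univ) :=
  h.cont.mono (prod_mono subset_closure Subset.rfl)

private theorem Mdz_G_cont {c : ℝ} {D : Set ℂ} {z : ℂ → ℝ → ℝ} {G : ℂ → ℝ → ℂ} (h : Dz c D z G) :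
    ContinuousOn (fun q : ℂ × ℝ => G q.1 q.2) (D ×ˢ univ) :=
  h.contG.mono (prod_mono subset_closure Subset.rfl)

private theorem Mdz_slice {E : Type*} [TopologicalSpace E] {D : Set ℂ} {g : ℂ → ℝ → E}
    (hg : ContinuousOn (fun q : ℂ × ℝ => g q.1 q.2) (D ×ˢ univ)) {x₀ : ℂ} {δ : ℝ}
    (hb : Metric.ball x₀ δ ⊆ D) (t : ℝ) : ContinuousOn (fun y => g y t) (Metric.ball x₀ δ) :=
  hg.comp (f := fun x : ℂ => (x, t)) (by fun_prop) fun _ hx => ⟨hb hx, mem_univ t⟩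

private theorem Mdz_main {c : ℝ} {D : Set ℂ} (hD : IsOpen D) (hc : 0 < c) {z : ℂ → ℝ → ℝ} {G : ℂ → ℝ → ℂ}
    (h : Dz c D z G) {x₀ : ℂ} {δ : ℝ} (hδ : 0 < δ) (hb : Metric.ball x₀ δ ⊆ D) {n : ℕ} (hn : n = 0 ∨ n = 1)
    (hlim : ∀ T > 0, ∀ ε > 0, ∃ r₀ > 0, ∀ r ∈ Ioo 0 r₀, r < δ → ∀ t ∈ Icc (-T) T,
      ‖md n x₀ (fun y => z y t) r‖ ≤ ε ∧ ‖md' n x₀ (fun y => z y t) r‖ ≤ ε ∧
      ‖md n x₀ (fun y => deriv (z y) t) r‖ ≤ ε ∧ (n : ℝ) * ‖md n x₀ (fun y => z y t) r‖ / r ≤ ε)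
    {r : ℝ} (hr : r ∈ Ioo 0 δ) (t : ℝ) : md n x₀ (fun y => z y t) r = 0 := by
  obtain ⟨vrr, vrt, vtt, h1, h2, h3, h4, h5, h6, k0, k1, k2, k3, k4, k5, hp⟩ := modes_c2 hD hc h hb n
  have key : ∀ L : ℂ →L[ℝ] ℝ, (∀ w, |L w| ≤ ‖w‖) → L (md n x₀ (fun y => z y t) r) = 0 := by
    intro L hL
    have hmul : ∀ (s : ℝ) (w : ℂ), L ((s : ℂ) * w) = s * L w := fun s w => by
      rw [← Complex.real_smul, map_smul, smul_eq_mul]
    refine radial_uniq (c := c) (δ := δ) (n := n) (v := fun r t => L (md n x₀ (fun y => z y t) r))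
      (vr := fun r t => L (md' n x₀ (fun y => z y t) r))
      (vt := fun r t => L (md n x₀ (fun y => deriv (z y) t) r)) (vrr := fun r t => L (vrr r t))
      (vrt := fun r t => L (vrt r t)) (vtt := fun r t => L (vtt r t)) hc hδ hn
      (fun r hr t => L.hasFDerivAt.comp_hasDerivAt r (h1 r hr t))
      (fun r hr t => L.hasFDerivAt.comp_hasDerivAt t (h2 r hr t))
      (fun r hr t => L.hasFDerivAt.comp_hasDerivAt r (h3 r hr t))
      (fun r hr t => L.hasFDerivAt.comp_hasDerivAt t (h4 r hr t))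
      (fun r hr t => L.hasFDerivAt.comp_hasDerivAt r (h5 r hr t))
      (fun r hr t => L.hasFDerivAt.comp_hasDerivAt t (h6 r hr t))
      (L.continuous.comp_continuousOn k0) (L.continuous.comp_continuousOn k1) (L.continuous.comp_continuousOn k2)
      (L.continuous.comp_continuousOn k3) (L.continuous.comp_continuousOn k4) (L.continuous.comp_continuousOn k5)
      ?_ ?_ hr
    · intro r hr t
      have e := congrArg L (hp r hr t)
      have e1 : vrr r t + md' n x₀ (fun y => z y t) r / r - (n : ℂ) ^ 2 * md n x₀ (fun y => z y t) r / r ^ 2 =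
          vrr r t + ((r⁻¹ : ℝ) : ℂ) * md' n x₀ (fun y => z y t) r -
            (((n : ℝ) ^ 2 / r ^ 2 : ℝ) : ℂ) * md n x₀ (fun y => z y t) r := by
        push_cast
        ring
      have e2 : vtt r t / (c : ℂ) ^ 2 = (((c ^ 2)⁻¹ : ℝ) : ℂ) * vtt r t := by
        push_cast
        ring
      rw [e1, e2, map_sub, map_add, hmul, hmul, hmul] at e
      have e3 : L (vrr r t) + L (md' n x₀ (fun y => z y t) r) / r -
          (n : ℝ) ^ 2 * L (md n x₀ (fun y => z y t) r) / r ^ 2 =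
          L (vrr r t) + r⁻¹ * L (md' n x₀ (fun y => z y t) r) -
            (n : ℝ) ^ 2 / r ^ 2 * L (md n x₀ (fun y => z y t) r) := by
        ring
      rw [e3, e]
      ring
    · intro T hT ε hε
      obtain ⟨r₀, hr₀, hh⟩ := hlim T hT ε hε
      refine ⟨r₀, hr₀, fun r hr hrδ t ht => ?_⟩
      obtain ⟨a1, a2, a3, a4⟩ := hh r hr hrδ t ht
      refine ⟨(hL _).trans a1, (hL _).trans a2, (hL _).trans a3, ?_⟩
      refine le_trans ?_ a4
      exact div_le_div_of_nonneg_right (mul_le_mul_of_nonneg_left (hL _) (Nat.cast_nonneg n)) hr.1.le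
  apply Complex.ext
  · exact key Complex.reCLM Complex.abs_re_le_norm
  · exact key Complex.imCLM Complex.abs_im_le_norm

private theorem Mdz_pd_le {c : ℝ} {D : Set ℂ} {z : ℂ → ℝ → ℝ} {G : ℂ → ℝ → ℂ} (h : Dz c D z G) {y : ℂ} (hy : y ∈ D)
    (t : ℝ) (v : ℂ) : |fderiv ℝ (fun y => z y t) y v| ≤ 2 * ‖G y t‖ * ‖v‖ := by
  rw [Mdz_pd h hy]
  have a1 := Complex.abs_re_le_norm v
  have a2 := Complex.abs_im_le_norm v
  have a3 := Complex.abs_re_le_norm (G y t)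
  have a4 := Complex.abs_im_le_norm (G y t)
  have a5 : |v.re * (G y t).re + v.im * (G y t).im| ≤ |v.re| * |(G y t).re| + |v.im| * |(G y t).im| := by
    rw [← abs_mul, ← abs_mul]
    exact abs_add_le _ _
  have a6 : |v.re| * |(G y t).re| ≤ ‖v‖ * ‖G y t‖ := mul_le_mul a1 a3 (abs_nonneg _) (norm_nonneg _)
  have a7 : |v.im| * |(G y t).im| ≤ ‖v‖ * ‖G y t‖ := mul_le_mul a2 a4 (abs_nonneg _) (norm_nonneg _)
  linarith

private theorem Mdz_md'_zero {c : ℝ} {D : Set ℂ} {z : ℂ → ℝ → ℝ} {G : ℂ → ℝ → ℂ} (h : Dz c D z G)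
    {x₀ : ℂ} {δ r ε : ℝ} (hb : Metric.ball x₀ δ ⊆ D) (hr : r ∈ Ioo 0 δ) (t : ℝ)
    (hG : ∀ y, ‖y - x₀‖ = r → ‖G y t - G x₀ t‖ ≤ ε) : ‖md' 0 x₀ (fun y => z y t) r‖ ≤ 2 * ε * (2 * π) := by
  have hcG : Continuous fun θ : ℝ => G (x₀ + r * cis θ) t := Mdz_cont_circle hr (Mdz_slice (Mdz_G_cont h) hb t)
  have hin : ∀ θ, x₀ + r * cis θ ∈ D := by
    intro θ
    refine hb ?_
    rw [Metric.mem_ball, dist_eq_norm, Mdz_mem hr.1.le]
    exact hr.2
  have h1 : md' 0 x₀ (fun y => z y t) r = ∫ θ in (0 : ℝ)..(2 * π),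
      (((Real.cos θ * ((G (x₀ + r * cis θ) t).re - (G x₀ t).re) +
        Real.sin θ * ((G (x₀ + r * cis θ) t).im - (G x₀ t).im) : ℝ)) : ℂ) := by
    unfold md'
    have e1 : ∀ θ : ℝ, (pd (cis θ) (fun y => z y t) (x₀ + r * cis θ) : ℂ) *
        Complex.exp (-(((0 : ℕ) : ℂ) * θ * Complex.I)) =
        ((Real.cos θ * (G (x₀ + r * cis θ) t).re + Real.sin θ * (G (x₀ + r * cis θ) t).im : ℝ) : ℂ) := by
      intro θ
      have e2 : pd (cis θ) (fun y => z y t) (x₀ + r * cis θ) =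
          Real.cos θ * (G (x₀ + r * cis θ) t).re + Real.sin θ * (G (x₀ + r * cis θ) t).im := by
        unfold pd
        rw [Mdz_pd h (hin θ)]
        unfold cis
        rw [Complex.exp_ofReal_mul_I_re, Complex.exp_ofReal_mul_I_im]
      rw [e2]
      simp
    simp only [e1]
    rw [intervalIntegral.integral_ofReal, intervalIntegral.integral_ofReal]
    congr 1
    have e3 : ∀ θ : ℝ, Real.cos θ * ((G (x₀ + r * cis θ) t).re - (G x₀ t).re) +
        Real.sin θ * ((G (x₀ + r * cis θ) t).im - (G x₀ t).im) =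
        (Real.cos θ * (G (x₀ + r * cis θ) t).re + Real.sin θ * (G (x₀ + r * cis θ) t).im) -
          ((G x₀ t).re * Real.cos θ + (G x₀ t).im * Real.sin θ) := by
      intro θ
      ring
    have e4 : ∫ θ in (0 : ℝ)..(2 * π), ((G x₀ t).re * Real.cos θ + (G x₀ t).im * Real.sin θ) = 0 := by
      rw [intervalIntegral.integral_add, intervalIntegral.integral_const_mul,
        intervalIntegral.integral_const_mul, integral_cos, integral_sin]
      · simp
      · exact Continuous.intervalIntegrable (by fun_prop) _ _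
      · exact Continuous.intervalIntegrable (by fun_prop) _ _
    simp only [e3]
    rw [intervalIntegral.integral_sub, e4, sub_zero]
    · refine Continuous.intervalIntegrable ?_ _ _
      exact (Real.continuous_cos.mul (Complex.continuous_re.comp hcG)).add
        (Real.continuous_sin.mul (Complex.continuous_im.comp hcG))
    · exact Continuous.intervalIntegrable (by fun_prop) _ _
  rw [h1]
  refine Mdz_bound fun θ => ?_
  rw [Complex.norm_real, Real.norm_eq_abs]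
  have b1 := hG _ (Mdz_mem hr.1.le θ)
  have b2 := (Complex.abs_re_le_norm (G (x₀ + r * cis θ) t - G x₀ t)).trans b1
  have b3 := (Complex.abs_im_le_norm (G (x₀ + r * cis θ) t - G x₀ t)).trans b1
  rw [Complex.sub_re] at b2
  rw [Complex.sub_im] at b3
  have hε : 0 ≤ ε := (norm_nonneg _).trans b1
  have c1 := Real.abs_cos_le_one θ
  have c2 := Real.abs_sin_le_one θ
  refine (abs_add_le _ _).trans ?_
  rw [abs_mul, abs_mul]
  have d1 := mul_le_mul c1 b2 (abs_nonneg _) zero_le_one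
  have d2 := mul_le_mul c2 b3 (abs_nonneg _) zero_le_one
  linarith

/-- The zeroth mode of a drum solution about a point where it vanishes at all times is zero. -/
theorem mode_zero {c : ℝ} {D : Set ℂ} (hD : IsOpen D) (hc : 0 < c) {z : ℂ → ℝ → ℝ} {G : ℂ → ℝ → ℂ} (h : Dz c D z G)
    {x₀ : ℂ} {δ : ℝ} (hδ : 0 < δ) (hb : Metric.ball x₀ δ ⊆ D) (hz : ∀ t, z x₀ t = 0) {r : ℝ} (hr : r ∈ Ioo 0 δ) (t : ℝ) :
    md 0 x₀ (fun y => z y t) r = 0 := by
  refine Mdz_main hD hc h hδ hb (Or.inl rfl) ?_ hr t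
  intro T hT ε hε
  have hpi := Real.pi_pos
  set η : ℝ := ε / (4 * π) with hη
  have hη0 : 0 < η := by positivity
  have hη1 : 2 * η * (2 * π) = ε := by
    rw [hη]
    field_simp
    ring
  obtain ⟨r₁, hr₁, -, H1⟩ := Mdz_unif (Mdz_z_cont h) hδ hb T hη0
  obtain ⟨r₂, hr₂, -, H2⟩ := Mdz_unif (Mdz_G_cont h) hδ hb T hη0
  obtain ⟨r₃, hr₃, -, H3⟩ := Mdz_unif (g := fun y t => deriv (z y) t) (Mdz_dt_cont hD h) hδ hb T hη0
  refine ⟨min r₁ (min r₂ r₃), lt_min hr₁ (lt_min hr₂ hr₃), fun r hr hrδ t ht => ?_⟩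
  have s1 : r < r₁ := hr.2.trans_le (min_le_left _ _)
  have s2 : r < r₂ := hr.2.trans_le ((min_le_right _ _).trans (min_le_left _ _))
  have s3 : r < r₃ := hr.2.trans_le ((min_le_right _ _).trans (min_le_right _ _))
  have hle : η * (2 * π) ≤ ε := by
    rw [← hη1]
    nlinarith
  refine ⟨?_, ?_, ?_, ?_⟩
  · refine (Mdz_md_le hr.1.le 0 (ε := η) fun y hy => ?_).trans hle
    have := H1 y (by rw [hy]; exact s1) t ht
    rwa [hz t, sub_zero, Real.norm_eq_abs] at this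
  · refine (Mdz_md'_zero h hb ⟨hr.1, hrδ⟩ t (ε := η) fun y hy => ?_).trans hη1.le
    exact H2 y (by rw [hy]; exact s2) t ht
  · refine (Mdz_md_le hr.1.le 0 (ε := η) fun y hy => ?_).trans hle
    have h1 := H3 y (by rw [hy]; exact s3) t ht
    have h2 : z x₀ = fun _ => 0 := funext hz
    simp only [h2, deriv_const, sub_zero, Real.norm_eq_abs] at h1
    exact h1
  · rw [Nat.cast_zero, zero_mul, zero_div]
    exact hε.le

/-- The first mode of a drum solution about a point where its gradient vanishes at all times is zero. -/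
theorem mode_one {c : ℝ} {D : Set ℂ} (hD : IsOpen D) (hc : 0 < c) {z : ℂ → ℝ → ℝ} {G : ℂ → ℝ → ℂ} (h : Dz c D z G)
    {x₀ : ℂ} {δ : ℝ} (hδ : 0 < δ) (hb : Metric.ball x₀ δ ⊆ D) (hG : ∀ t, G x₀ t = 0) {r : ℝ} (hr : r ∈ Ioo 0 δ) (t : ℝ) :
    md 1 x₀ (fun y => z y t) r = 0 := by
  refine Mdz_main hD hc h hδ hb (Or.inr rfl) ?_ hr t
  intro T hT ε hε
  have hpi := Real.pi_pos
  set η : ℝ := ε / (4 * π) with hη
  have hη0 : 0 < η := by positivity
  have hη1 : 2 * η * (2 * π) = ε := by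
    rw [hη]
    field_simp
    ring
  obtain ⟨r₂, hr₂, hr₂δ, H2⟩ := Mdz_unif (Mdz_G_cont h) hδ hb T hη0
  obtain ⟨r₃, hr₃, -, H3⟩ := Mdz_unif (g := fun y t => deriv (z y) t) (Mdz_dt_cont hD h) hδ hb T hη0
  refine ⟨min 1 (min r₂ r₃), lt_min one_pos (lt_min hr₂ hr₃), fun r hr hrδ t ht => ?_⟩
  have s1 : r < 1 := hr.2.trans_le (min_le_left _ _)
  have s2 : r < r₂ := hr.2.trans_le ((min_le_right _ _).trans (min_le_left _ _))
  have s3 : r < r₃ := hr.2.trans_le ((min_le_right _ _).trans (min_le_right _ _))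
  have hGy : ∀ y, ‖y - x₀‖ < r₂ → ‖G y t‖ ≤ η := by
    intro y hy
    have := H2 y hy t ht
    rwa [hG t, sub_zero] at this
  have hyD : ∀ y, ‖y - x₀‖ < r₂ → y ∈ D := by
    intro y hy
    refine hb ?_
    rw [Metric.mem_ball, dist_eq_norm]
    exact hy.trans_le hr₂δ
  have hle : η * (2 * π) ≤ ε := by
    rw [← hη1]
    nlinarith
  have hzt : ∀ y, ‖y - x₀‖ = r → |z y t - z x₀ t| ≤ 2 * η * r := by
    intro y hy
    have hO : IsOpen (D ×ˢ (univ : Set ℝ)) := hD.prod isOpen_univ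
    have hd : ∀ w ∈ Metric.ball x₀ r₂, DifferentiableAt ℝ (fun y => z y t) w := by
      intro w hw
      rw [Metric.mem_ball, dist_eq_norm] at hw
      have h2 : DifferentiableAt ℝ (fun q : ℂ × ℝ => z q.1 q.2) (w, t) :=
        (h.c2.contDiffAt (hO.mem_nhds ⟨hyD w hw, mem_univ t⟩)).differentiableAt (by norm_num)
      have h3 : DifferentiableAt ℝ (fun y : ℂ => ((y, t) : ℂ × ℝ)) w :=
        differentiableAt_id.prodMk (differentiableAt_const t)
      exact DifferentiableAt.comp w h2 h3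
    have hbd : ∀ w ∈ Metric.ball x₀ r₂, ‖fderiv ℝ (fun y => z y t) w‖ ≤ 2 * η := by
      intro w hw
      rw [Metric.mem_ball, dist_eq_norm] at hw
      refine ContinuousLinearMap.opNorm_le_bound _ (by positivity) fun v => ?_
      rw [Real.norm_eq_abs]
      refine (Mdz_pd_le h (hyD w hw) t v).trans ?_
      have := hGy w hw
      have hv := norm_nonneg v
      nlinarith
    have h4 := Convex.norm_image_sub_le_of_norm_fderiv_le (𝕜 := ℝ) hd hbd (convex_ball x₀ r₂)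
      (Metric.mem_ball_self hr₂) (y := y) (by rw [Metric.mem_ball, dist_eq_norm, hy]; exact s2)
    rw [hy, Real.norm_eq_abs] at h4
    exact h4
  have hmd : ‖md 1 x₀ (fun y => z y t) r‖ ≤ ε * r := by
    have h5 := Mdz_md_one (a := z x₀ t) (ε := 2 * η * r) ⟨hr.1, hrδ⟩ (Mdz_slice (Mdz_z_cont h) hb t) hzt
    refine h5.trans (le_of_eq ?_)
    rw [← hη1]
    ring
  refine ⟨?_, ?_, ?_, ?_⟩
  · refine hmd.trans ?_
    nlinarith [hr.1]
  · unfold md'
    refine (Mdz_bound (C := 2 * η) fun θ => ?_).trans hη1.le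
    rw [norm_mul, Mdz_norm_e, mul_one, Complex.norm_real, Real.norm_eq_abs]
    have hn : ‖x₀ + r * cis θ - x₀‖ < r₂ := by
      rw [Mdz_mem hr.1.le]
      exact s2
    have h6 := Mdz_pd_le h (hyD _ hn) t (cis θ)
    rw [Mdz_norm_cis, mul_one] at h6
    have h7 := hGy _ hn
    unfold pd
    linarith
  · refine (Mdz_md_one (a := deriv (z x₀) t) (ε := η) ⟨hr.1, hrδ⟩
      (Mdz_slice (g := fun y t => deriv (z y) t) (Mdz_dt_cont hD h) hb t) fun y hy => ?_).trans hle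
    have := H3 y (by rw [hy]; exact s3) t ht
    rwa [Real.norm_eq_abs] at this
  · rw [Nat.cast_one, one_mul, div_le_iff₀ hr.1]
    exact hmd

end DrumL
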