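import Pool.Agent.Lib.MP_d92c84_anF.Rdk

/-!
# The derivative of the bump function as a kernel
-/

set_option autoImplicit false

namespace DrumL

open MeasureTheory Set Filter Topology
open scoped ContDiff Real ComplexConjugate

private theorem Pdb_prf (δ : ℝ) : Prf δ (fun s => expNegInvGlue (δ ^ 2 - s)) :=
  ⟨expNegInvGlue.contDiff.comp (contDiff_const.sub contDiff_id),
    fun s hs => expNegInvGlue.zero_of_nonpos (by linarith)⟩

private theorem Pdb_kern (k : ℝ → ℝ) (y : ℂ) : kern 1 k y = conj y * ((deriv k (‖y‖ ^ 2) : ℝ) : ℂ) := by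
  unfold kern
  rw [pow_one, iteratedDeriv_one]

/-- The profile of the bump function and the derivatives of the bump function. -/
theorem prf_bmp (δ : ℝ) : Prf δ (fun s => expNegInvGlue (δ ^ 2 - s)) ∧
    ∀ v y : ℂ, pd v (bmp δ) y = 2 * (v * kern 1 (fun s => expNegInvGlue (δ ^ 2 - s)) y).re := by
  refine ⟨Pdb_prf δ, fun v y => ?_⟩
  set k : ℝ → ℝ := fun s => expNegInvGlue (δ ^ 2 - s) with hk
  have hks : ContDiff ℝ ∞ k := (Pdb_prf δ).smooth
  have h1 : HasDerivAt k (deriv k (‖y‖ ^ 2)) (‖y‖ ^ 2) := ((hks.differentiable (by simp)) _).hasDerivAt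
  have h2 : HasFDerivAt (fun x : ℂ => ‖x‖ ^ 2) (2 • innerSL ℝ y) y := (hasStrictFDerivAt_norm_sq y).hasFDerivAt
  have h30 := h1.comp_hasFDerivAt y h2
  have h3 : HasFDerivAt (bmp δ) (deriv k (‖y‖ ^ 2) • (2 • innerSL ℝ y)) y := h30
  unfold pd
  rw [h3.fderiv, Pdb_kern]
  have h4 : (deriv k (‖y‖ ^ 2) • (2 • innerSL ℝ y)) v = deriv k (‖y‖ ^ 2) * (2 * (conj y * v).re) := by
    show deriv k (‖y‖ ^ 2) • (2 • inner ℝ y v) = _
    rw [Complex.inner]
    simp only [smul_eq_mul, nsmul_eq_mul, Nat.cast_ofNat]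
    rw [mul_comm (conj y) v]
  rw [h4]
  simp only [Complex.mul_re, Complex.mul_im, Complex.conj_re, Complex.conj_im, Complex.ofReal_re, Complex.ofReal_im]
  ring

private theorem Pdb_deriv_zero {δ : ℝ} {k : ℝ → ℝ} (hk : Prf δ k) {s : ℝ} (hs : δ ^ 2 < s) : deriv k s = 0 := by
  have h1 : k =ᶠ[𝓝 s] fun _ => 0 := by
    filter_upwards [lt_mem_nhds hs] with t ht
    exact hk.zero t ht.le
  rw [h1.deriv_eq]
  simp

private theorem Pdb_int {δ : ℝ} (hδ : 0 < δ) {k : ℝ → ℝ} (hk : Prf δ k) {w : ℂ → ℝ} (hw : Continuous w) (x : ℂ) :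
    Integrable fun y => (w y : ℂ) * kern 1 k (x - y) := by
  have hd : Continuous (deriv k) := hk.smooth.continuous_deriv (by simp)
  have hc : Continuous fun y => (w y : ℂ) * kern 1 k (x - y) := by
    have h1 : (fun y => (w y : ℂ) * kern 1 k (x - y)) =
        fun y => (w y : ℂ) * (conj (x - y) * ((deriv k (‖x - y‖ ^ 2) : ℝ) : ℂ)) := by
      funext y
      rw [Pdb_kern]
    rw [h1]
    have h2 : Continuous fun y : ℂ => deriv k (‖x - y‖ ^ 2) := hd.comp (by fun_prop)
    have h3 : Continuous fun y : ℂ => conj (x - y) := Complex.continuous_conj.comp (by fun_prop)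
    exact (Complex.continuous_ofReal.comp hw).mul (h3.mul (Complex.continuous_ofReal.comp h2))
  refine hc.integrable_of_hasCompactSupport (HasCompactSupport.intro (isCompact_closedBall x δ) fun y hy => ?_)
  rw [Metric.mem_closedBall, dist_comm, dist_eq_norm, not_le] at hy
  rw [Pdb_kern, Pdb_deriv_zero hk (by nlinarith)]
  simp

/-- If the first mode of `w` vanishes on the small circles about `x` then the convolution of `w` with the derivatives of the
bump function vanishes at `x`. -/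
theorem kill_bmp {δ : ℝ} (hδ : 0 < δ) {w : ℂ → ℝ} (hw : Continuous w) {x : ℂ}
    (h : ∀ r ∈ Ioo 0 δ, md 1 x w r = 0) (v : ℂ) : ∫ y, w y * pd v (bmp δ) (x - y) = 0 := by
  obtain ⟨hP, hf⟩ := prf_bmp δ
  set k : ℝ → ℝ := fun s => expNegInvGlue (δ ^ 2 - s) with hk
  have hA : An 1 k w x = 0 := by
    rw [An_polar hδ hP 1 hw x, intervalIntegral.integral_of_le hδ.le, integral_Ioc_eq_integral_Ioo,
      setIntegral_eq_zero_of_forall_eq_zero, mul_zero]
    intro r hr
    rw [h r hr, mul_zero]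
  have hI := Pdb_int hδ hP hw x
  have h1 : ∀ y, w y * pd v (bmp δ) (x - y) = Complex.reCLM (2 * v * ((w y : ℂ) * kern 1 k (x - y))) := by
    intro y
    rw [hf v (x - y), Complex.reCLM_apply]
    have h2 : 2 * v * ((w y : ℂ) * kern 1 k (x - y)) = ((w y * 2 : ℝ) : ℂ) * (v * kern 1 k (x - y)) := by
      push_cast
      ring
    rw [h2, Complex.re_ofReal_mul]
    ring
  simp_rw [h1]
  rw [Complex.reCLM.integral_comp_comm (hI.const_mul (2 * v)), integral_const_mul]
  have h3 : ∫ y, (w y : ℂ) * kern 1 k (x - y) = 0 := hA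
  rw [h3, mul_zero, map_zero]

end DrumL
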