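import Pool.Agent.Lib.MP_d92c84_anF.Rga

/-!
# The smooth representative of a weak solution
-/

set_option autoImplicit false

namespace DrumL

open MeasureTheory Set Filter Topology
open scoped ContDiff Real

/-- A closed disc in an open set can be enlarged. -/
theorem Rgb_room {D : Set ℂ} (hD : IsOpen D) {x : ℂ} {δ : ℝ} (hδ : 0 ≤ δ) (h : Metric.closedBall x δ ⊆ D) :
    ∃ ε : ℝ, 0 < ε ∧ ∀ ε', 0 ≤ ε' → ε' ≤ ε → Metric.closedBall x (δ + ε') ⊆ D := by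
  obtain ⟨ε, hε, hε'⟩ := (isCompact_closedBall x δ).exists_cthickening_subset_open hD h
  refine ⟨ε, hε, fun ε' h0 h1 => ?_⟩
  rw [cthickening_closedBall hε.le hδ] at hε'
  exact (Metric.closedBall_subset_closedBall (by linarith)).trans hε'

/-- The quotients `cv D u δ x / kap l δ` do not depend on `δ`. -/
theorem Rgb_indep {D : Set ℂ} (hD : IsOpen D) {l : ℝ} (hl : 0 < l) {u : ℂ → ℝ} (hu : IntegrableOn u D)
    (hw : ∀ φ : ℂ → ℝ, Tst D φ → ∫ x in D, u x * (lap φ x + l * φ x) = 0) {x : ℂ} {δ δ' : ℝ}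
    (hδ : 0 < δ) (hδ' : 0 < δ') (h1 : √l * δ ≤ 1) (h1' : √l * δ' ≤ 1) (hx : Metric.closedBall x δ ⊆ D)
    (hx' : Metric.closedBall x δ' ⊆ D) : cv D u δ x / kap l δ = cv D u δ' x / kap l δ' := by
  obtain ⟨ε, hε, hε2⟩ := Rgb_room hD hδ.le hx
  obtain ⟨ε', hε', hε2'⟩ := Rgb_room hD hδ'.le hx'
  have hsl : 0 < √l := Real.sqrt_pos.mpr hl
  obtain ⟨η, hη, h2, h3, h4⟩ : ∃ η : ℝ, 0 < η ∧ η ≤ ε ∧ η ≤ ε' ∧ √l * η ≤ 1 := by
    refine ⟨min (min ε ε') (√l)⁻¹, lt_min (lt_min hε hε') (inv_pos.mpr hsl), ?_, ?_, ?_⟩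
    · exact (min_le_left _ _).trans (min_le_left _ _)
    · exact (min_le_left _ _).trans (min_le_right _ _)
    · calc √l * min (min ε ε') (√l)⁻¹ ≤ √l * (√l)⁻¹ :=
            mul_le_mul_of_nonneg_left (min_le_right _ _) hsl.le
        _ = 1 := mul_inv_cancel₀ hsl.ne'
  have k0 := (kap_pos (l := l) hη h4).ne'
  have k1 := (kap_pos (l := l) hδ h1).ne'
  have k2 := (kap_pos (l := l) hδ' h1').ne'
  have c1 := cv_comm hD hl hu hw hδ hη (hε2 η hη.le h2)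
  have c2 := cv_comm hD hl hu hw hδ' hη (hε2' η hη.le h3)
  have e1 : cv D u δ x / kap l δ = cv D u η x / kap l η := by
    rw [div_eq_div_iff k1 k0]
    linarith
  have e2 : cv D u δ' x / kap l δ' = cv D u η x / kap l η := by
    rw [div_eq_div_iff k2 k0]
    linarith
  rw [e1, e2]

/-- A weak solution of the Helmholtz equation has a smooth representative; its convolutions with the bump
functions are multiples of it. -/
theorem reg_rep {D : Set ℂ} (hD : IsOpen D) {l : ℝ} (hl : 0 < l) {u : ℂ → ℝ} (hu : IntegrableOn u D)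
    (hw : ∀ φ : ℂ → ℝ, Tst D φ → ∫ x in D, u x * (lap φ x + l * φ x) = 0) :
    ∃ v : ℂ → ℝ, Hz l D v ∧ ∀ x δ, 0 < δ → √l * δ ≤ 1 → Metric.closedBall x δ ⊆ D → cv D u δ x = kap l δ * v x := by
  classical
  have hsl : 0 < √l := Real.sqrt_pos.mpr hl
  have hex : ∀ x ∈ D, ∃ δ : ℝ, 0 < δ ∧ √l * δ ≤ 1 ∧ Metric.closedBall x δ ⊆ D := fun x hx => by
    obtain ⟨ρ, hρ, hball⟩ := Metric.isOpen_iff.mp hD x hx
    refine ⟨min (ρ / 2) (√l)⁻¹, lt_min (by linarith) (inv_pos.mpr hsl), ?_, ?_⟩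
    · calc √l * min (ρ / 2) (√l)⁻¹ ≤ √l * (√l)⁻¹ :=
            mul_le_mul_of_nonneg_left (min_le_right _ _) hsl.le
        _ = 1 := mul_inv_cancel₀ hsl.ne'
    · refine (Metric.closedBall_subset_ball ?_).trans hball
      exact lt_of_le_of_lt (min_le_left _ _) (by linarith)
  choose! d hd0 hd1 hd2 using hex
  let v : ℂ → ℝ := fun x => cv D u (d x) x / kap l (d x)
  have hv : ∀ x δ, 0 < δ → √l * δ ≤ 1 → Metric.closedBall x δ ⊆ D → cv D u δ x = kap l δ * v x := by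
    intro x δ hδ h1 hx
    have hxD : x ∈ D := hx (Metric.mem_closedBall_self hδ.le)
    have e1 := Rgb_indep hD hl hu hw hδ (hd0 x hxD) h1 (hd1 x hxD) hx (hd2 x hxD)
    have e2 : v x = cv D u δ x / kap l δ := e1.symm
    rw [e2, mul_div_cancel₀ _ (kap_pos (l := l) hδ h1).ne']
  refine ⟨v, ?_, hv⟩
  -- near a point of `D` the function is a multiple of a convolution
  have hloc : ∀ x₀ ∈ D, ∃ δ : ℝ, 0 < δ ∧ Metric.closedBall x₀ δ ⊆ D ∧
      ∀ᶠ x in 𝓝 x₀, v x = (kap l δ)⁻¹ * cv D u δ x := fun x₀ hx₀ => by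
    refine ⟨d x₀, hd0 x₀ hx₀, hd2 x₀ hx₀, ?_⟩
    have ho := (hz_cv hD hu hw (hd0 x₀ hx₀)).1
    filter_upwards [ho.mem_nhds (hd2 x₀ hx₀)] with x hx
    rw [hv x (d x₀) (hd0 x₀ hx₀) (hd1 x₀ hx₀) hx,
      inv_mul_cancel_left₀ (kap_pos (l := l) (hd0 x₀ hx₀) (hd1 x₀ hx₀)).ne']
  constructor
  · intro x₀ hx₀
    obtain ⟨δ, hδ, -, hev⟩ := hloc x₀ hx₀
    have h1 : ContDiffAt ℝ ∞ (fun x => (kap l δ)⁻¹ * cv D u δ x) x₀ :=
      (contDiff_const.mul (contDiff_cv hD hu hδ)).contDiffAt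
    exact (h1.congr_of_eventuallyEq hev).contDiffWithinAt
  · intro x₀ hx₀
    obtain ⟨δ, hδ, hball, hev⟩ := hloc x₀ hx₀
    have hsm := contDiff_cv hD hu hδ
    have hdiff : Differentiable ℝ (cv D u δ) := hsm.differentiable (by simp)
    have hlap : lap (cv D u δ) x₀ = -l * cv D u δ x₀ := (hz_cv hD hu hw hδ).2.eq x₀ hball
    have hpd : ∀ w : ℂ, ∀ᶠ x in 𝓝 x₀, pd w v x = (kap l δ)⁻¹ * pd w (cv D u δ) x := fun w => by
      filter_upwards [hev.eventually_nhds] with x hx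
      have e1 : fderiv ℝ v x = fderiv ℝ (fun y => (kap l δ)⁻¹ * cv D u δ y) x :=
        Filter.EventuallyEq.fderiv_eq hx
      have e2 := pd_const_mul (hdiff x) (kap l δ)⁻¹ w
      rw [← e2, pd, e1, pd]
    have hpd2 : ∀ w : ℂ, pd w (pd w v) x₀ = (kap l δ)⁻¹ * pd w (pd w (cv D u δ)) x₀ := fun w => by
      have e1 : fderiv ℝ (pd w v) x₀ = fderiv ℝ (fun y => (kap l δ)⁻¹ * pd w (cv D u δ) y) x₀ :=
        Filter.EventuallyEq.fderiv_eq (hpd w)
      have hd1' : Differentiable ℝ (pd w (cv D u δ)) :=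
        (contDiff_pd (n := ⊤) hsm w).differentiable (by simp)
      have e2 := pd_const_mul (hd1' x₀) (kap l δ)⁻¹ w
      rw [← e2, pd, e1, pd]
    rw [lap, hpd2, hpd2, ← mul_add]
    have e3 : pd 1 (pd 1 (cv D u δ)) x₀ + pd Complex.I (pd Complex.I (cv D u δ)) x₀ =
        -l * cv D u δ x₀ := hlap
    rw [e3, hev.self_of_nhds]
    ring

end DrumL
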