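import Pool.Agent.Lib.MP_d92c84_anF.Fbb

/-!
# Convolution of a solution of the Helmholtz equation with the radial bump function
-/

set_option autoImplicit false

namespace DrumL

open MeasureTheory Set Filter Topology DrumF
open scoped ContDiff Real

/-- The multiplier of the bump function. -/
noncomputable def kap (l δ : ℝ) : ℝ := ∫ y : ℂ, bmp δ y * J 0 (√l * ‖y‖)

private theorem Mvl_J0 {t : ℝ} (h0 : 0 ≤ t) (h1 : t ≤ 1) : 0 < J 0 t := by
  rcases h0.eq_or_lt with h | h
  · rw [← h, J_zero]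
    simp
  · exact J_pos 0 h h1

private theorem Mvl_cont (l δ : ℝ) : Continuous fun y : ℂ => bmp δ y * J 0 (√l * ‖y‖) :=
  (contDiff_bmp δ).continuous.mul ((continuous_J 0).comp (continuous_const.mul continuous_norm))

/-- The multiplier of the bump function is positive if its radius is small. -/
theorem kap_pos {l δ : ℝ} (hδ : 0 < δ) (h : √l * δ ≤ 1) : 0 < kap l δ := by
  unfold kap
  have h0 : ∀ y : ℂ, ‖y‖ ≤ δ → 0 < J 0 (√l * ‖y‖) := fun y hy =>
    Mvl_J0 (mul_nonneg (Real.sqrt_nonneg l) (norm_nonneg y))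
      ((mul_le_mul_of_nonneg_left hy (Real.sqrt_nonneg l)).trans h)
  refine (Mvl_cont l δ).integral_pos_of_hasCompactSupport_nonneg_nonzero (x := 0)
    (compact_bmp hδ.le).mul_right ?_ ?_
  · intro y
    rcases le_total ‖y‖ δ with hy | hy
    · exact mul_nonneg (bmp_nonneg δ y) (h0 y hy).le
    · simp [bmp_zero hδ.le hy]
  · have h1 := h0 0 (by simpa using hδ.le)
    exact (mul_pos (bmp_pos (by simpa using hδ)) h1).ne'

private theorem Mvl_symm (r θ : ℝ) : Complex.polarCoord.symm (r, θ) = r * cis θ := by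
  rw [Complex.polarCoord_symm_apply, cis, Complex.exp_mul_I, Complex.ofReal_cos, Complex.ofReal_sin]

private theorem Mvl_cis_cont : Continuous cis := by
  unfold cis
  fun_prop

private theorem Mvl_cis_norm (θ : ℝ) : ‖cis θ‖ = 1 := by
  unfold cis
  exact Complex.norm_exp_ofReal_mul_I θ

private theorem Mvl_cis_per : Function.Periodic cis (2 * π) := by
  intro θ
  unfold cis
  push_cast
  rw [add_mul, Complex.exp_add, Complex.exp_two_pi_mul_I, mul_one]

/-- Polar coordinates. -/
private theorem Mvl_polar {g : ℂ → ℝ} (hg : Continuous g) (hs : HasCompactSupport g) :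
    ∫ y, g y = ∫ r in Ioi (0 : ℝ), r * ∫ θ in (0 : ℝ)..(2 * π), g (r * cis θ) := by
  have hc : Continuous fun p : ℝ × ℝ => p.1 * g (p.1 * cis p.2) := by
    have := Mvl_cis_cont
    fun_prop
  have hint : IntegrableOn (fun p : ℝ × ℝ => p.1 * g (p.1 * cis p.2)) (Ioi (0 : ℝ) ×ˢ Ioo (-π) π)
      (volume.prod volume) := by
    obtain ⟨R, hR⟩ := hs.isBounded.subset_closedBall (0 : ℂ)
    have h1 : IntegrableOn (fun p : ℝ × ℝ => p.1 * g (p.1 * cis p.2)) (Icc 0 R ×ˢ Icc (-π) π)
        (volume.prod volume) :=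
      hc.continuousOn.integrableOn_compact (isCompact_Icc.prod isCompact_Icc)
    refine h1.of_forall_sdiff_eq_zero (measurableSet_Ioi.prod measurableSet_Ioo) ?_
    rintro ⟨r, θ⟩ ⟨⟨hr, hθ⟩, h2⟩
    have h3 : ¬ r ≤ R := fun h3 => h2 ⟨⟨le_of_lt hr, h3⟩, ⟨hθ.1.le, hθ.2.le⟩⟩
    have h4 : g (r * cis θ) = 0 := by
      refine image_eq_zero_of_notMem_tsupport fun h4 => h3 ?_
      have h5 := hR h4
      rw [mem_closedBall_zero_iff, norm_mul, Mvl_cis_norm, mul_one, Complex.norm_real, Real.norm_eq_abs] at h5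
      exact (le_abs_self r).trans h5
    simp [h4]
  rw [← Complex.integral_comp_polarCoord_symm, polarCoord_target, Measure.volume_eq_prod]
  have h1 : ∀ p : ℝ × ℝ, p.1 • g (Complex.polarCoord.symm p) = p.1 * g (p.1 * cis p.2) := by
    rintro ⟨r, θ⟩
    rw [Mvl_symm, smul_eq_mul]
  simp_rw [h1]
  rw [setIntegral_prod _ hint]
  refine setIntegral_congr_fun measurableSet_Ioi fun r _ => ?_
  simp only
  rw [integral_const_mul]
  congr 1
  rw [← integral_Ioc_eq_integral_Ioo, ← intervalIntegral.integral_of_le (by linarith [Real.pi_pos])]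
  have h2 : Function.Periodic (fun θ : ℝ => g (r * cis θ)) (2 * π) := fun θ => by
    simp only [Mvl_cis_per θ]
  have h3 := h2.intervalIntegral_add_eq (-π) 0
  rw [zero_add] at h3
  rw [← h3]
  congr 1
  ring

/-- The mean value property: the convolution of a solution of the Helmholtz equation with the radial bump function is
a multiple of the solution. -/
theorem mv_bmp {l : ℝ} (hl : 0 < l) {p : ℂ} {ρ δ : ℝ} (hδ : 0 < δ) (hδρ : δ < ρ) {f : ℂ → ℝ}
    (hf : Hz l (Metric.ball p ρ) f) : ∫ y, f y * bmp δ (p - y) = kap l δ * f p := by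
  have h1 : ∫ y, f y * bmp δ (p - y) = ∫ y, bmp δ y * f (p + y) := by
    rw [← integral_add_left_eq_self (fun y => f y * bmp δ (p - y)) p]
    refine integral_congr_ae (Eventually.of_forall fun y => ?_)
    simp only
    rw [show p - (p + y) = -y by ring, bmp_neg, mul_comm]
  have hsm : ContDiff ℝ ∞ fun y => bmp δ y * f (p + y) := by
    refine mul_contDiff (D := Metric.ball 0 ρ) Metric.isOpen_ball (contDiff_bmp δ)
      ((tsupport_bmp hδ.le).trans (Metric.closedBall_subset_ball hδρ)) ?_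
    refine hf.smooth.comp (contDiff_const.add contDiff_id).contDiffOn ?_
    intro y hy
    rw [mem_ball_iff_norm]
    simpa using hy
  rw [h1, Mvl_polar hsm.continuous (compact_bmp hδ.le).mul_right, kap,
    Mvl_polar (Mvl_cont l δ) (compact_bmp hδ.le).mul_right, ← integral_mul_const]
  refine setIntegral_congr_fun measurableSet_Ioi fun r hr => ?_
  have hr : 0 < r := hr
  have hn : ∀ θ : ℝ, ‖(r : ℂ) * cis θ‖ = r := fun θ => by
    rw [norm_mul, Mvl_cis_norm, mul_one, Complex.norm_real, Real.norm_eq_abs, abs_of_pos hr]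
  have hb : ∀ θ : ℝ, bmp δ (r * cis θ) = expNegInvGlue (δ ^ 2 - r ^ 2) := fun θ => by
    rw [bmp, hn]
  simp only [hb, hn]
  rw [intervalIntegral.integral_const_mul, intervalIntegral.integral_const, smul_eq_mul, sub_zero]
  rcases lt_or_ge r ρ with hρ | hρ
  · have h2 := mean_circle hl hf ⟨hr, hρ⟩
    have h3 : md 0 p f r = ((∫ θ in (0 : ℝ)..(2 * π), f (p + r * cis θ) : ℝ) : ℂ) := by
      rw [md, ← intervalIntegral.integral_ofReal]
      simp
    rw [h3] at h2
    have h4 : ∫ θ in (0 : ℝ)..(2 * π), f (p + r * cis θ) = 2 * π * f p * J 0 (√l * r) := by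
      exact_mod_cast h2
    rw [h4]
    ring
  · have h2 : expNegInvGlue (δ ^ 2 - r ^ 2) = 0 :=
      expNegInvGlue.zero_of_nonpos (by nlinarith)
    rw [h2]
    ring

end DrumL
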