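import Pool.Agent.Lib.MP_d92c84_anF.Cva
import Pool.Agent.Lib.MP_d92c84_anF.Mvl

/-!
# A weak solution agrees almost everywhere with its smooth representative
-/

set_option autoImplicit false

namespace DrumL

open MeasureTheory Set Filter Topology
open scoped ContDiff Real

private theorem Rgc_J_ge {t : ℝ} (h0 : 0 ≤ t) (h1 : t ≤ 1) : 3 / 4 ≤ DrumF.J 0 t := by
  rcases h0.eq_or_lt with h | h
  · rw [← h, J_zero]
    norm_num
  · have h2 := (J_bounds 0 h h1).1
    simpa using h2

private theorem Rgc_J_sub {t : ℝ} (h0 : 0 ≤ t) (h1 : t ≤ 1) : |1 - DrumF.J 0 t| ≤ (t / 2) ^ 2 := by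
  rcases h0.eq_or_lt with h | h
  · rw [← h, J_zero]
    norm_num
  · have h2 := J_lead 0 h h1
    rw [abs_sub_comm]
    simpa using h2

private theorem Rgc_int_bmp {δ : ℝ} (hδ : 0 < δ) : Integrable (bmp δ) :=
  ((contDiff_bmp δ).continuous).integrable_of_hasCompactSupport (compact_bmp hδ.le)

/-- The multiplier is at least three quarters of the mass. -/
private theorem Rgc_kap_ge {l δ : ℝ} (hδ : 0 < δ) (h : √l * δ ≤ 1) :
    3 / 4 * ∫ y : ℂ, bmp δ y ≤ kap l δ := by
  unfold kap
  rw [← integral_const_mul]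
  refine integral_mono ((Rgc_int_bmp hδ).const_mul _) ?_ fun y => ?_
  · refine Continuous.integrable_of_hasCompactSupport ?_ ((compact_bmp hδ.le).mul_right)
    exact (contDiff_bmp δ).continuous.mul ((DrumF.continuous_J 0).comp (continuous_const.mul continuous_norm))
  · by_cases hy : ‖y‖ < δ
    · have h1 : √l * ‖y‖ ≤ 1 := (mul_le_mul_of_nonneg_left hy.le (Real.sqrt_nonneg l)).trans h
      have h2 := Rgc_J_ge (mul_nonneg (Real.sqrt_nonneg l) (norm_nonneg y)) h1
      have h3 := bmp_nonneg δ y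
      show 3 / 4 * bmp δ y ≤ bmp δ y * DrumF.J 0 (√l * ‖y‖)
      nlinarith
    · show 3 / 4 * bmp δ y ≤ bmp δ y * DrumF.J 0 (√l * ‖y‖)
      rw [bmp_zero hδ.le (not_lt.1 hy)]
      simp

/-- The smoothed test function is uniformly close to the multiple of the test function. -/
private theorem Rgc_close {φ : ℂ → ℝ} (hφ : Continuous φ) (hc : HasCompactSupport φ) {l : ℝ} {η : ℝ}
    (hη : 0 < η) : ∃ δ₀ : ℝ, 0 < δ₀ ∧ ∀ δ : ℝ, 0 < δ → δ ≤ δ₀ → √l * δ ≤ 1 → ∀ y : ℂ,
      |(∫ x, φ x * bmp δ (x - y)) - kap l δ * φ y| ≤ η * kap l δ := by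
  obtain ⟨M, hM⟩ := hc.exists_bound_of_continuous hφ
  have hM0 : 0 ≤ M := (norm_nonneg (φ 0)).trans (hM 0)
  have hu := hφ.uniformContinuous_of_tendsto_cocompact (hc.is_zero_at_infty)
  rw [Metric.uniformContinuous_iff] at hu
  obtain ⟨δ₁, hδ₁, h1⟩ := hu (3 / 8 * η) (by positivity)
  set L : ℝ := M * √l ^ 2 + 1 with hL
  have hL0 : 0 < L := by positivity
  refine ⟨min (δ₁ / 2) (min 1 (η / L)), by positivity, ?_⟩
  intro δ hδ hδ0 hδl y
  have hδ1 : δ < δ₁ := by
    have := hδ0.trans (min_le_left _ _)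
    linarith
  have hδ2 : δ ≤ 1 := hδ0.trans ((min_le_right _ _).trans (min_le_left _ _))
  have hδ3 : δ * L ≤ η := by
    have h2 := hδ0.trans ((min_le_right _ _).trans (min_le_right _ _))
    rwa [le_div_iff₀ hL0] at h2
  have hJc : Continuous fun z : ℂ => DrumF.J 0 (√l * ‖z‖) :=
    (DrumF.continuous_J 0).comp (continuous_const.mul continuous_norm)
  have hbc := (contDiff_bmp δ).continuous
  have e1 : (∫ x, φ x * bmp δ (x - y)) = ∫ z, φ (z + y) * bmp δ z := by
    rw [← integral_add_right_eq_self (fun x => φ x * bmp δ (x - y)) y]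
    simp
  have i1 : Integrable fun z => φ (z + y) * bmp δ z :=
    Continuous.integrable_of_hasCompactSupport ((hφ.comp (continuous_id.add continuous_const)).mul hbc)
      ((compact_bmp hδ.le).mul_left)
  have i2 : Integrable fun z => bmp δ z * DrumF.J 0 (√l * ‖z‖) * φ y :=
    (Continuous.integrable_of_hasCompactSupport (hbc.mul hJc) ((compact_bmp hδ.le).mul_right)).mul_const _
  have e2 : (∫ x, φ x * bmp δ (x - y)) - kap l δ * φ y =
      ∫ z, (φ (z + y) * bmp δ z - bmp δ z * DrumF.J 0 (√l * ‖z‖) * φ y) := by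
    rw [integral_sub i1 i2, e1, integral_mul_const]
    rfl
  rw [e2, ← Real.norm_eq_abs]
  have h4 : ∀ z, ‖φ (z + y) * bmp δ z - bmp δ z * DrumF.J 0 (√l * ‖z‖) * φ y‖ ≤ 3 / 4 * η * bmp δ z := by
    intro z
    by_cases hz : ‖z‖ < δ
    · have h5 : √l * ‖z‖ ≤ 1 := (mul_le_mul_of_nonneg_left hz.le (Real.sqrt_nonneg l)).trans hδl
      have h6 := Rgc_J_sub (mul_nonneg (Real.sqrt_nonneg l) (norm_nonneg z)) h5
      have h7 : |φ (z + y) - φ y| < 3 / 8 * η := by
        have := h1 (a := z + y) (b := y) (by rw [dist_eq_norm, add_sub_cancel_right]; exact hz.trans hδ1)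
        rwa [Real.dist_eq] at this
      have h8 : |φ y| ≤ M := hM y
      have h9 : |φ y * (1 - DrumF.J 0 (√l * ‖z‖))| ≤ 3 / 8 * η := by
        rw [abs_mul]
        have h10 : (√l * ‖z‖ / 2) ^ 2 ≤ √l ^ 2 * δ / 4 := by
          have h11 : ‖z‖ ^ 2 ≤ δ := by nlinarith [norm_nonneg z]
          have h12 : (√l * ‖z‖ / 2) ^ 2 = √l ^ 2 * ‖z‖ ^ 2 / 4 := by ring
          rw [h12]
          have := mul_le_mul_of_nonneg_left h11 (sq_nonneg (√l))
          linarith
        have h13 : |φ y| * |1 - DrumF.J 0 (√l * ‖z‖)| ≤ M * (√l ^ 2 * δ / 4) :=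
          mul_le_mul h8 (h6.trans h10) (abs_nonneg _) hM0
        have h14 : M * (√l ^ 2 * δ / 4) ≤ 3 / 8 * η := by
          have : M * √l ^ 2 * δ ≤ η := by
            have h15 : δ * L = M * √l ^ 2 * δ + δ := by rw [hL]; ring
            linarith
          nlinarith
        exact h13.trans h14
      have h15 : φ (z + y) * bmp δ z - bmp δ z * DrumF.J 0 (√l * ‖z‖) * φ y =
          ((φ (z + y) - φ y) + φ y * (1 - DrumF.J 0 (√l * ‖z‖))) * bmp δ z := by ring
      rw [h15, Real.norm_eq_abs, abs_mul, abs_of_nonneg (bmp_nonneg δ z)]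
      refine mul_le_mul_of_nonneg_right ?_ (bmp_nonneg δ z)
      have h16 := abs_add_le (φ (z + y) - φ y) (φ y * (1 - DrumF.J 0 (√l * ‖z‖)))
      linarith
    · rw [bmp_zero hδ.le (not_lt.1 hz)]
      simp
  refine (norm_integral_le_of_norm_le ((Rgc_int_bmp hδ).const_mul _) (Eventually.of_forall h4)).trans ?_
  rw [integral_const_mul]
  have h17 := Rgc_kap_ge (l := l) hδ hδl
  have h18 : 3 / 4 * η * (∫ z : ℂ, bmp δ z) = η * (3 / 4 * ∫ z : ℂ, bmp δ z) := by ring
  rw [h18]
  exact mul_le_mul_of_nonneg_left h17 hη.le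

/-- Fubini for the convolution with the bump function. -/
private theorem Rgc_fubini {D : Set ℂ} {u : ℂ → ℝ} (hu : IntegrableOn u D) {φ : ℂ → ℝ} (hφ : Continuous φ)
    (hc : HasCompactSupport φ) {δ : ℝ} (hδ : 0 < δ) :
    ∫ x, φ x * cv D u δ x = ∫ y in D, u y * ∫ x, φ x * bmp δ (x - y) := by
  have hI : Integrable (fun p : ℂ × ℂ => φ p.1 * u p.2 * bmp δ (p.1 - p.2))
      ((volume : Measure ℂ).prod (volume.restrict D)) := by
    have h1 : Integrable (fun p : ℂ × ℂ => φ p.1 * u p.2) ((volume : Measure ℂ).prod (volume.restrict D)) :=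
      Integrable.mul_prod (hφ.integrable_of_hasCompactSupport hc) hu
    obtain ⟨M, hM⟩ := (compact_bmp hδ.le).exists_bound_of_continuous (contDiff_bmp δ).continuous
    refine h1.mul_bdd (c := M) ?_ (Eventually.of_forall fun p => hM _)
    exact ((contDiff_bmp δ).continuous.comp (continuous_fst.sub continuous_snd)).aestronglyMeasurable
  have h2 : ∫ x, φ x * cv D u δ x = ∫ x, ∫ y in D, φ x * u y * bmp δ (x - y) := by
    refine integral_congr_ae (Eventually.of_forall fun x => ?_)
    show φ x * cv D u δ x = ∫ y in D, φ x * u y * bmp δ (x - y)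
    unfold cv
    rw [← integral_const_mul]
    simp only [mul_assoc]
  rw [h2, integral_integral_swap hI]
  refine integral_congr_ae (Eventually.of_forall fun y => ?_)
  show ∫ x, φ x * u y * bmp δ (x - y) = u y * ∫ x, φ x * bmp δ (x - y)
  rw [← integral_const_mul]
  refine integral_congr_ae (Eventually.of_forall fun x => ?_)
  show φ x * u y * bmp δ (x - y) = u y * (φ x * bmp δ (x - y))
  ring

private theorem Rgc_weak {D : Set ℂ} (hD : IsOpen D) {l : ℝ} (hl : 0 < l) {u v : ℂ → ℝ} (hu : IntegrableOn u D)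
    (hrep : ∀ x δ, 0 < δ → √l * δ ≤ 1 → Metric.closedBall x δ ⊆ D → cv D u δ x = kap l δ * v x)
    {φ : ℂ → ℝ} (hφ : Continuous φ) (hc : HasCompactSupport φ) (hs : tsupport φ ⊆ D) :
    ∫ y in D, u y * φ y = ∫ x, φ x * v x := by
  obtain ⟨ρ, hρ, hρD⟩ := hc.isCompact.exists_cthickening_subset_open hD hs
  have hball : ∀ δ, δ ≤ ρ → ∀ x ∈ tsupport φ, Metric.closedBall x δ ⊆ D := by
    intro δ hδ x hx
    exact (Metric.closedBall_subset_closedBall hδ).trans
      ((Metric.closedBall_subset_cthickening hx ρ).trans hρD)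
  set K : ℝ := ∫ y in D, |u y| with hK
  have hK0 : 0 ≤ K := integral_nonneg fun y => abs_nonneg _
  have key : ∀ η : ℝ, 0 < η → |(∫ x, φ x * v x) - ∫ y in D, u y * φ y| ≤ η * K := by
    intro η hη
    obtain ⟨δ₀, hδ₀, h1⟩ := Rgc_close hφ hc (l := l) hη
    set δ : ℝ := min δ₀ (min ρ (1 / (√l + 1))) with hδdef
    have hsl : 0 ≤ √l := Real.sqrt_nonneg l
    have hδ : 0 < δ := by positivity
    have hδ1 : δ ≤ δ₀ := min_le_left _ _
    have hδ2 : δ ≤ ρ := (min_le_right _ _).trans (min_le_left _ _)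
    have hδ3 : √l * δ ≤ 1 := by
      have h2 : δ ≤ 1 / (√l + 1) := (min_le_right _ _).trans (min_le_right _ _)
      rw [le_div_iff₀ (by positivity)] at h2
      nlinarith
    have hk := kap_pos hδ hδ3
    have h2 : ∫ x, φ x * cv D u δ x = kap l δ * ∫ x, φ x * v x := by
      rw [← integral_const_mul]
      refine integral_congr_ae (Eventually.of_forall fun x => ?_)
      show φ x * cv D u δ x = kap l δ * (φ x * v x)
      by_cases hx : x ∈ tsupport φ
      · rw [hrep x δ hδ hδ3 (hball δ hδ2 x hx)]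
        ring
      · rw [image_eq_zero_of_notMem_tsupport hx]
        ring
    rw [Rgc_fubini hu hφ hc hδ] at h2
    obtain ⟨M, hM⟩ := hc.exists_bound_of_continuous hφ
    have i1 : IntegrableOn (fun y => u y * φ y) D :=
      Integrable.mul_bdd (c := M) hu hφ.aestronglyMeasurable (Eventually.of_forall hM)
    have i2 : IntegrableOn (fun y => u y * ∫ x, φ x * bmp δ (x - y)) D := by
      have hψc : Continuous fun y => ∫ x, φ x * bmp δ (x - y) := by
        have e1 : (fun y => ∫ x, φ x * bmp δ (x - y)) = fun y => ∫ z, φ (z + y) * bmp δ z := by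
          ext y
          rw [← integral_add_right_eq_self (fun x => φ x * bmp δ (x - y)) y]
          simp
        rw [e1]
        refine continuous_of_dominated (bound := fun z => M * bmp δ z) (fun y => ?_) (fun y => ?_) ?_ ?_
        · exact ((hφ.comp (continuous_id.add continuous_const)).mul (contDiff_bmp δ).continuous).aestronglyMeasurable
        · refine Eventually.of_forall fun z => ?_
          rw [norm_mul, Real.norm_eq_abs (bmp δ z), abs_of_nonneg (bmp_nonneg δ z)]
          exact mul_le_mul_of_nonneg_right (hM _) (bmp_nonneg δ z)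
        · exact (Rgc_int_bmp hδ).const_mul _
        · exact Eventually.of_forall fun z => (hφ.comp (continuous_const.add continuous_id)).mul continuous_const
      refine Integrable.mul_bdd (c := kap l δ * M + η * kap l δ) hu hψc.aestronglyMeasurable
        (Eventually.of_forall fun y => ?_)
      have h3 := h1 δ hδ hδ1 hδ3 y
      have h4 : |kap l δ * φ y| ≤ kap l δ * M := by
        rw [abs_mul, abs_of_pos hk]
        exact mul_le_mul_of_nonneg_left (hM y) hk.le
      rw [Real.norm_eq_abs]
      have h5 := abs_sub_abs_le_abs_sub (∫ x, φ x * bmp δ (x - y)) (kap l δ * φ y)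
      linarith
    have h3 : kap l δ * ((∫ x, φ x * v x) - ∫ y in D, u y * φ y) =
        ∫ y in D, u y * ((∫ x, φ x * bmp δ (x - y)) - kap l δ * φ y) := by
      have e3 : ∀ y, u y * ((∫ x, φ x * bmp δ (x - y)) - kap l δ * φ y) =
          u y * (∫ x, φ x * bmp δ (x - y)) - kap l δ * (u y * φ y) := fun y => by ring
      simp only [e3]
      rw [integral_sub i2 (i1.const_mul _), integral_const_mul, h2]
      ring
    have h4 : ‖∫ y in D, u y * ((∫ x, φ x * bmp δ (x - y)) - kap l δ * φ y)‖ ≤ η * kap l δ * K := by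
      rw [hK, ← integral_const_mul]
      refine norm_integral_le_of_norm_le ((hu.abs).const_mul _) (Eventually.of_forall fun y => ?_)
      rw [norm_mul, Real.norm_eq_abs, Real.norm_eq_abs, mul_comm]
      exact mul_le_mul_of_nonneg_right (h1 δ hδ hδ1 hδ3 y) (abs_nonneg _)
    rw [← h3, norm_mul, Real.norm_eq_abs, Real.norm_eq_abs, abs_of_pos hk] at h4
    have h5 : kap l δ * |(∫ x, φ x * v x) - ∫ y in D, u y * φ y| ≤ kap l δ * (η * K) := by
      calc _ ≤ η * kap l δ * K := h4
        _ = kap l δ * (η * K) := by ring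
    exact le_of_mul_le_mul_left h5 hk
  have h0 : |(∫ x, φ x * v x) - ∫ y in D, u y * φ y| ≤ 0 := by
    refine le_of_forall_pos_le_add fun ε hε => ?_
    have h1 := key (ε / (K + 1)) (by positivity)
    have h2 : ε / (K + 1) * K ≤ ε := by
      rw [div_mul_eq_mul_div, div_le_iff₀ (by positivity)]
      nlinarith
    linarith
  have h1 := abs_nonpos_iff.1 h0
  linarith

/-- A weak solution agrees almost everywhere with its smooth representative. -/
theorem reg_ae {D : Set ℂ} (hD : IsOpen D) {l : ℝ} (hl : 0 < l) {u v : ℂ → ℝ} (hu : IntegrableOn u D)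
    (hv : Hz l D v)
    (hrep : ∀ x δ, 0 < δ → √l * δ ≤ 1 → Metric.closedBall x δ ⊆ D → cv D u δ x = kap l δ * v x) :
    ∀ᵐ x ∂(volume.restrict D), u x = v x := by
  have hvc : ContinuousOn v D := hv.smooth.continuousOn
  have hloc : LocallyIntegrableOn (fun x => u x - v x) D volume :=
    (hu.locallyIntegrableOn).sub (hvc.locallyIntegrableOn hD.measurableSet)
  have h1 := IsOpen.ae_eq_zero_of_integral_contDiff_smul_eq_zero hD hloc ?_
  · rw [ae_restrict_iff' hD.measurableSet]
    filter_upwards [h1] with x hx hxD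
    exact sub_eq_zero.1 (hx hxD)
  · intro φ hφ hc hs
    have hφc : Continuous φ := hφ.continuous
    have h2 := Rgc_weak hD hl hu hrep hφc hc hs
    obtain ⟨M, hM⟩ := hc.exists_bound_of_continuous hφc
    have hsupp : ∀ w : ℂ → ℝ, Function.support (fun x => w x * φ x) ⊆ tsupport φ := by
      intro w x hx
      by_contra h3
      exact hx (by simp [image_eq_zero_of_notMem_tsupport h3])
    have i1 : Integrable fun x => u x * φ x := by
      have h3 : IntegrableOn (fun y => u y * φ y) D :=
        Integrable.mul_bdd (c := M) hu hφc.aestronglyMeasurable (Eventually.of_forall hM)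
      exact (integrableOn_iff_integrable_of_support_subset ((hsupp u).trans hs)).1 h3
    have i2 : Integrable fun x => v x * φ x := by
      have h3 : IntegrableOn v (tsupport φ) := (hvc.mono hs).integrableOn_compact hc.isCompact
      have h4 : IntegrableOn (fun y => v y * φ y) (tsupport φ) :=
        Integrable.mul_bdd (c := M) h3 hφc.aestronglyMeasurable (Eventually.of_forall hM)
      exact (integrableOn_iff_integrable_of_support_subset (hsupp v)).1 h4
    have h5 : ∫ y in D, u y * φ y = ∫ y, u y * φ y := by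
      refine setIntegral_eq_integral_of_forall_compl_eq_zero fun x hx => ?_
      rw [image_eq_zero_of_notMem_tsupport fun h => hx (hs h), mul_zero]
    have h6 : ∫ x, φ x • (u x - v x) = (∫ x, u x * φ x) - ∫ x, v x * φ x := by
      rw [← integral_sub i1 i2]
      refine integral_congr_ae (Eventually.of_forall fun x => ?_)
      show φ x • (u x - v x) = u x * φ x - v x * φ x
      rw [smul_eq_mul]
      ring
    have h7 : ∫ x, φ x * v x = ∫ x, v x * φ x := by
      simp only [mul_comm]
    rw [h6, ← h5, h2, h7, sub_self]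

end DrumL
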