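import Pool.Agent.Lib.MP_d92c84_anF.Cva
import Pool.Agent.Lib.MP_d92c84_anF.Mvl

/-!
# The gradient of a weak solution
-/

set_option autoImplicit false

namespace DrumL

open MeasureTheory Set Filter Topology
open scoped ContDiff Real

/-- If `g` is the weak derivative of `u` in the direction `w` and `u = v` almost everywhere with `v` smooth, then `g` is the
derivative of `v` almost everywhere. -/
theorem grad_ae {D : Set ℂ} (hD : IsOpen D) {u v g : ℂ → ℝ} (hg : IntegrableOn g D) (hv : ContDiffOn ℝ ∞ v D)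
    (hae : ∀ᵐ x ∂(volume.restrict D), u x = v x) {w : ℂ}
    (hib : ∀ ψ : ℂ → ℝ, ContDiff ℝ 1 ψ → ∫ x in D, u x * pd w ψ x = -∫ x in D, g x * ψ x) :
    ∀ᵐ x ∂(volume.restrict D), g x = pd w v x := by
  have hpv : ContDiffOn ℝ 1 (pd w v) D := contDiffOn_pd hD hv (by
    have h : (((1 : ℕ∞) : WithTop ℕ∞) + 1) ≤ ∞ := by exact_mod_cast le_top
    exact h) w
  have hv1 : ContDiffOn ℝ 1 v D := hv.of_le (by norm_num)
  have hli : LocallyIntegrableOn (fun x => g x - pd w v x) D :=
    hg.locallyIntegrableOn.sub (hpv.continuousOn.locallyIntegrableOn hD.measurableSet)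
  have key := hD.ae_eq_zero_of_integral_contDiff_smul_eq_zero hli ?_
  · rw [ae_restrict_iff' hD.measurableSet]
    filter_upwards [key] with x hx hxD
    exact sub_eq_zero.mp (hx hxD)
  · intro φ hφ hφc hφD
    have hφ1 : ContDiff ℝ 1 φ := hφ.of_le (by norm_num)
    have hz : ∀ x, x ∉ D → φ x = 0 := fun x hx => image_eq_zero_of_notMem_tsupport fun h => hx (hφD h)
    have h1 : ∫ x, φ x • (g x - pd w v x) = ∫ x in D, φ x • (g x - pd w v x) := by
      symm
      exact setIntegral_eq_integral_of_forall_compl_eq_zero fun x hx => by rw [hz x hx, zero_smul]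
    have i1 : IntegrableOn (fun x => g x * φ x) D := by
      obtain ⟨C, hC⟩ := hφ1.continuous.bounded_above_of_compact_support hφc
      exact Integrable.mul_bdd (c := C) hg hφ1.continuous.aestronglyMeasurable (Eventually.of_forall hC)
    have i2 : IntegrableOn (fun x => φ x * pd w v x) D := by
      have h2 : ContDiff ℝ 1 fun x => φ x * pd w v x := mul_contDiff hD hφ1 hφD hpv
      exact (integrable_of_comp h2.continuous hφc.mul_right).integrableOn
    have h3 : ∫ x in D, φ x • (g x - pd w v x) = (∫ x in D, g x * φ x) - ∫ x in D, φ x * pd w v x := by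
      rw [← integral_sub i1 i2]
      refine integral_congr_ae (Eventually.of_forall fun x => ?_)
      show φ x • (g x - pd w v x) = g x * φ x - φ x * pd w v x
      rw [smul_eq_mul]
      ring
    have h4 := integral_mul_pd_on hD hφ1 hφc hφD hv1 w
    have h5 := hib φ hφ1
    have h6 : ∫ x in D, u x * pd w φ x = ∫ x in D, pd w φ x * v x := by
      refine integral_congr_ae ?_
      filter_upwards [hae] with x hx
      rw [hx, mul_comm]
    rw [h1, h3, h4, ← h6, h5]
    ring

/-- Points near `x` still have their closed balls in `D`. -/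
theorem Rgd_near {D : Set ℂ} (hD : IsOpen D) {x : ℂ} {δ : ℝ} (hx : Metric.closedBall x δ ⊆ D) :
    ∀ᶠ y in 𝓝 x, Metric.closedBall y δ ⊆ D := by
  obtain ⟨ε, hε, h⟩ := (isCompact_closedBall x δ).exists_thickening_subset_open hD hx
  filter_upwards [Metric.ball_mem_nhds x hε] with y hy
  intro z hz
  refine h (Metric.mem_thickening_iff.mpr ⟨z + (x - y), ?_, ?_⟩)
  · rw [Metric.mem_closedBall, dist_eq_norm] at hz ⊢
    have h1 : z + (x - y) - x = z - y := by ring
    rw [h1]
    exact hz
  · rw [Metric.mem_ball, dist_eq_norm] at hy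
    rw [dist_eq_norm]
    have h1 : z - (z + (x - y)) = y - x := by ring
    rw [h1]
    exact hy

/-- If the derivative of the mollified function is zero then the derivative of the smooth representative is zero. -/
theorem grad_rep {D : Set ℂ} (hD : IsOpen D) {l : ℝ} {u v : ℂ → ℝ} (hu : IntegrableOn u D) (hv : Hz l D v)
    (hrep : ∀ x δ, 0 < δ → √l * δ ≤ 1 → Metric.closedBall x δ ⊆ D → cv D u δ x = kap l δ * v x) {x w : ℂ} {δ : ℝ}
    (hδ : 0 < δ) (hlδ : √l * δ ≤ 1) (hx : Metric.closedBall x δ ⊆ D)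
    (h0 : ∫ y in D, u y * pd w (bmp δ) (x - y) = 0) : pd w v x = 0 := by
  have hxD : x ∈ D := hx (Metric.mem_closedBall_self hδ.le)
  have hvd : DifferentiableAt ℝ v x :=
    (hv.smooth.contDiffAt (hD.mem_nhds hxD)).differentiableAt (by norm_num)
  have h1 : cv D u δ =ᶠ[𝓝 x] fun y => kap l δ * v y := by
    filter_upwards [Rgd_near hD hx] with y hy
    exact hrep y δ hδ hlδ hy
  have h2 : pd w (cv D u δ) x = kap l δ * pd w v x := by
    rw [← pd_const_mul hvd]
    unfold pd
    rw [h1.fderiv_eq]
  rw [pd_cv hD hu hδ w x, h0] at h2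
  exact (mul_eq_zero.mp h2.symm).resolve_left (kap_pos hδ hlδ).ne'

end DrumL
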