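import Pool.Agent.Lib.MP_d92c84_anF.Wsd

/-!
# Weak solutions, and continuous functions as curves in L²
-/

set_option autoImplicit false

namespace DrumL

open MeasureTheory Set Filter Topology
open scoped ContDiff

/-- Weak solutions of `Δ u = -l u` in `D`, zero on the boundary in the weak sense, with weak gradient `(g₁, g₂)`. -/
structure SD (l : ℝ) (D : Set ℂ) (u g₁ g₂ : ℂ → ℝ) : Prop where
  mem : MemLp u 2 (volume.restrict D)
  mem₁ : MemLp g₁ 2 (volume.restrict D)
  mem₂ : MemLp g₂ 2 (volume.restrict D)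
  weak : ∀ φ : ℂ → ℝ, Tst D φ → ∫ x in D, u x * (lap φ x + l * φ x) = 0
  ibp₁ : ∀ ψ : ℂ → ℝ, ContDiff ℝ 1 ψ → ∫ x in D, u x * pd 1 ψ x = -∫ x in D, g₁ x * ψ x
  ibp₂ : ∀ ψ : ℂ → ℝ, ContDiff ℝ 1 ψ → ∫ x in D, u x * pd Complex.I ψ x = -∫ x in D, g₂ x * ψ x

private theorem L2c_bound {D : Set ℂ} (hb : Bornology.IsBounded D) {f : ℂ → ℝ → ℝ}
    (hf : ContinuousOn (fun q : ℂ × ℝ => f q.1 q.2) (closure D ×ˢ univ)) (t₀ : ℝ) :
    ∃ M : ℝ, ∀ x ∈ closure D, ∀ t ∈ Metric.closedBall t₀ 1, ‖f x t‖ ≤ M := by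
  have hK : IsCompact (closure D ×ˢ Metric.closedBall t₀ 1) := hb.isCompact_closure.prod (isCompact_closedBall t₀ 1)
  have hc : ContinuousOn (fun q : ℂ × ℝ => f q.1 q.2) (closure D ×ˢ Metric.closedBall t₀ 1) :=
    hf.mono (prod_mono Subset.rfl (subset_univ _))
  obtain ⟨M, hM⟩ := hK.exists_bound_of_continuousOn hc
  exact ⟨M, fun x hx t ht => hM (x, t) ⟨hx, ht⟩⟩

private theorem L2c_slice {D : Set ℂ} {f : ℂ → ℝ → ℝ}
    (hf : ContinuousOn (fun q : ℂ × ℝ => f q.1 q.2) (closure D ×ˢ univ)) (t : ℝ) :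
    ContinuousOn (fun x => f x t) D := by
  have h1 : ContinuousOn (fun x : ℂ => ((x, t) : ℂ × ℝ)) D := by fun_prop
  exact hf.comp h1 fun x hx => ⟨subset_closure hx, mem_univ _⟩

private theorem L2c_time {D : Set ℂ} {f : ℂ → ℝ → ℝ}
    (hf : ContinuousOn (fun q : ℂ × ℝ => f q.1 q.2) (closure D ×ˢ univ)) {x : ℂ} (hx : x ∈ closure D) :
    Continuous (fun t => f x t) := by
  have h1 : ContinuousOn (fun t : ℝ => ((x, t) : ℂ × ℝ)) univ := by fun_prop
  exact continuousOn_univ.1 (hf.comp h1 fun t _ => ⟨hx, mem_univ _⟩)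

/-- The curves `Z k · t` and `G k · t` in `L²(D)`: pairing with `φ` in `L²(D)` is continuous, and for bounded measurable
data the pairing is the integral. -/
theorem l2curve {D : Set ℂ} (hD : IsOpen D) (hb : Bornology.IsBounded D) {f : ℂ → ℝ → ℝ}
    (hf : ContinuousOn (fun q : ℂ × ℝ => f q.1 q.2) (closure D ×ˢ univ)) {C : ℝ}
    (hC : ∀ t, ∫ x in D, f x t ^ 2 ≤ C ^ 2) (hC0 : 0 ≤ C) :
    ∃ v : ℝ → Lp ℝ 2 (volume.restrict D), (∀ t, ‖v t‖ ≤ C) ∧
      (∀ (φ : Lp ℝ 2 (volume.restrict D)) (t : ℝ), (inner ℝ (v t) φ : ℝ) = ∫ x in D, f x t * φ x) ∧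
      (∀ φ : Lp ℝ 2 (volume.restrict D), Continuous fun t => (inner ℝ (v t) φ : ℝ)) := by
  have hfin : volume D < ⊤ := hb.measure_lt_top
  have : IsFiniteMeasure (volume.restrict D) := ⟨by rw [Measure.restrict_apply_univ]; exact hfin⟩
  have hms : ∀ t, AEStronglyMeasurable (fun x => f x t) (volume.restrict D) := fun t =>
    (L2c_slice hf t).aestronglyMeasurable hD.measurableSet
  have hL : ∀ t, MemLp (fun x => f x t) 2 (volume.restrict D) := by
    intro t
    obtain ⟨M, hM⟩ := L2c_bound hb hf t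
    refine MemLp.of_bound (hms t) M ?_
    rw [ae_restrict_iff' hD.measurableSet]
    exact Filter.Eventually.of_forall fun x hx => hM x (subset_closure hx) t (Metric.mem_closedBall_self zero_le_one)
  have hin : ∀ (φ : Lp ℝ 2 (volume.restrict D)) (t : ℝ),
      (inner ℝ ((hL t).toLp (fun x => f x t)) φ : ℝ) = ∫ x in D, f x t * φ x := by
    intro φ t
    rw [MeasureTheory.L2.inner_def]
    refine integral_congr_ae ?_
    filter_upwards [(hL t).coeFn_toLp] with x hx
    rw [hx]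
    simp [mul_comm]
  refine ⟨fun t => (hL t).toLp (fun x => f x t), fun t => ?_, hin, fun φ => ?_⟩
  · have h1 : ‖(hL t).toLp (fun x => f x t)‖ ^ 2 ≤ C ^ 2 := by
      rw [← real_inner_self_eq_norm_sq, hin]
      refine le_trans (le_of_eq ?_) (hC t)
      refine integral_congr_ae ?_
      filter_upwards [(hL t).coeFn_toLp] with x hx
      rw [hx, sq]
    exact (sq_le_sq₀ (norm_nonneg _) hC0).1 h1
  · have hφ : Integrable φ (volume.restrict D) := (Lp.memLp φ).integrable (by norm_num)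
    simp only [hin]
    rw [continuous_iff_continuousAt]
    intro t₀
    obtain ⟨M, hM⟩ := L2c_bound hb hf t₀
    refine continuousAt_of_dominated (bound := fun x => M * ‖φ x‖) ?_ ?_ (hφ.norm.const_mul M) ?_
    · exact Filter.Eventually.of_forall fun t => (hms t).mul hφ.aestronglyMeasurable
    · filter_upwards [Metric.closedBall_mem_nhds t₀ zero_lt_one] with t ht
      rw [ae_restrict_iff' hD.measurableSet]
      refine Filter.Eventually.of_forall fun x hx => ?_
      rw [norm_mul]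
      exact mul_le_mul_of_nonneg_right (hM x (subset_closure hx) t ht) (norm_nonneg _)
    · rw [ae_restrict_iff' hD.measurableSet]
      refine Filter.Eventually.of_forall fun x hx => ?_
      exact ((L2c_time hf (subset_closure hx)).mul continuous_const).continuousAt

end DrumL
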