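import Mathlib

/-!
# Limits of time averages in a Hilbert space
-/

set_option autoImplicit false

namespace DrumL

open MeasureTheory Set Filter Topology

/-- Time averages of a bounded curve, multiplied by a bounded function, converge weakly along an ultrafilter. -/
theorem lim_functional {H : Type*} [NormedAddCommGroup H] [InnerProductSpace ℝ H] [CompleteSpace H]
    (𝒰 : Ultrafilter ℝ) (h𝒰 : (𝒰 : Filter ℝ) ≤ atTop) {v : ℝ → H} {C : ℝ} (hv : ∀ t, ‖v t‖ ≤ C)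
    (hc : ∀ φ : H, Continuous fun t => (inner ℝ (v t) φ : ℝ)) {w : ℝ → ℝ} (hw : Continuous w) (hw1 : ∀ t, |w t| ≤ 1) :
    ∃ u : H, ∀ φ : H, Tendsto (fun T : ℝ => (1 / T) * ∫ t in (0 : ℝ)..T, (inner ℝ (v t) φ : ℝ) * w t) 𝒰
      (𝓝 (inner ℝ u φ)) := by
  have hC : 0 ≤ C := (norm_nonneg _).trans (hv 0)
  have hbd : ∀ φ : H, ∀ T : ℝ, 0 < T →
      |(1 / T) * ∫ t in (0 : ℝ)..T, (inner ℝ (v t) φ : ℝ) * w t| ≤ C * ‖φ‖ := by
    intro φ T hT
    have h1 : ∀ t ∈ Set.uIoc (0 : ℝ) T, ‖(inner ℝ (v t) φ : ℝ) * w t‖ ≤ C * ‖φ‖ := by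
      intro t _
      rw [norm_mul, Real.norm_eq_abs (w t)]
      have h2 : ‖(inner ℝ (v t) φ : ℝ)‖ ≤ C * ‖φ‖ :=
        (norm_inner_le_norm _ _).trans (mul_le_mul_of_nonneg_right (hv t) (norm_nonneg _))
      calc ‖(inner ℝ (v t) φ : ℝ)‖ * |w t| ≤ (C * ‖φ‖) * 1 :=
            mul_le_mul h2 (hw1 t) (abs_nonneg _) (mul_nonneg hC (norm_nonneg _))
        _ = C * ‖φ‖ := mul_one _
    have h2 := intervalIntegral.norm_integral_le_of_norm_le_const h1
    rw [sub_zero, abs_of_pos hT, Real.norm_eq_abs] at h2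
    rw [abs_mul, abs_of_pos (one_div_pos.2 hT)]
    calc (1 / T) * |∫ t in (0 : ℝ)..T, (inner ℝ (v t) φ : ℝ) * w t| ≤ (1 / T) * (C * ‖φ‖ * T) :=
          mul_le_mul_of_nonneg_left h2 (one_div_pos.2 hT).le
      _ = C * ‖φ‖ := by field_simp
  have hex : ∀ φ : H, ∃ L : ℝ, |L| ≤ C * ‖φ‖ ∧
      Tendsto (fun T : ℝ => (1 / T) * ∫ t in (0 : ℝ)..T, (inner ℝ (v t) φ : ℝ) * w t) 𝒰 (𝓝 L) := by
    intro φ
    have h1 : ((𝒰.map fun T : ℝ => (1 / T) * ∫ t in (0 : ℝ)..T, (inner ℝ (v t) φ : ℝ) * w t : Ultrafilter ℝ) :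
        Filter ℝ) ≤ 𝓟 (Icc (-(C * ‖φ‖)) (C * ‖φ‖)) := by
      rw [Filter.le_principal_iff, Ultrafilter.mem_coe, Ultrafilter.mem_map]
      have h2 : ∀ᶠ T : ℝ in (𝒰 : Filter ℝ), 0 < T := h𝒰 (eventually_gt_atTop 0)
      exact h2.mono fun T hT => abs_le.1 (hbd φ T hT)
    obtain ⟨L, hL, hL2⟩ := isCompact_Icc.ultrafilter_le_nhds _ h1
    exact ⟨L, abs_le.2 hL, hL2⟩
  choose L hLb hLt using hex
  have hint : ∀ φ : H, ∀ T : ℝ, IntervalIntegrable (fun t => (inner ℝ (v t) φ : ℝ) * w t) volume 0 T :=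
    fun φ T => ((hc φ).mul hw).intervalIntegrable 0 T
  have hadd : ∀ φ ψ, L (φ + ψ) = L φ + L ψ := by
    intro φ ψ
    refine tendsto_nhds_unique (hLt (φ + ψ)) ?_
    refine ((hLt φ).add (hLt ψ)).congr fun T => ?_
    rw [← mul_add, ← intervalIntegral.integral_add (hint φ T) (hint ψ T)]
    congr 1
    apply intervalIntegral.integral_congr
    intro t _
    simp only [inner_add_right, add_mul]
  have hsmul : ∀ (a : ℝ) (φ : H), L (a • φ) = a * L φ := by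
    intro a φ
    refine tendsto_nhds_unique (hLt (a • φ)) ?_
    refine ((hLt φ).const_mul a).congr fun T => ?_
    have h1 : ∫ t in (0 : ℝ)..T, (inner ℝ (v t) (a • φ) : ℝ) * w t =
        a * ∫ t in (0 : ℝ)..T, (inner ℝ (v t) φ : ℝ) * w t := by
      rw [← intervalIntegral.integral_const_mul]
      apply intervalIntegral.integral_congr
      intro t _
      simp only [inner_smul_right, mul_assoc]
    rw [h1]
    ring
  let Λ : H →ₗ[ℝ] ℝ :=
    { toFun := L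
      map_add' := hadd
      map_smul' := fun a φ => by
        rw [hsmul]
        rfl }
  let Λ' : H →L[ℝ] ℝ := Λ.mkContinuous C fun φ => by
    rw [Real.norm_eq_abs]
    exact hLb φ
  refine ⟨(InnerProductSpace.toDual ℝ H).symm Λ', fun φ => ?_⟩
  rw [InnerProductSpace.toDual_symm_apply]
  exact hLt φ

end DrumL
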