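import Mathlib

/-!
# Time averages and the oscillator equation
-/

set_option autoImplicit false

namespace DrumL

open MeasureTheory Set Filter Topology

/-- A bounded function with bounded second derivative has bounded first derivative. -/
theorem deriv_bound {a a' a'' : ℝ → ℝ} (h1 : ∀ t, HasDerivAt a (a' t) t) (h2 : ∀ t, HasDerivAt a' (a'' t) t) {C : ℝ}
    (hb : ∀ t, |a t| ≤ C) (hb2 : ∀ t, |a'' t| ≤ C) (t : ℝ) : |a' t| ≤ 3 * C := by
  have hlt : t < t + 1 := by linarith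
  obtain ⟨ξ, hξ, hξe⟩ := exists_hasDerivAt_eq_slope a a' hlt
    (fun x _ => (h1 x).continuousAt.continuousWithinAt) (fun x _ => h1 x)
  have hξ1 : a' ξ = a (t + 1) - a t := by
    rw [hξe]
    have : t + 1 - t = 1 := by ring
    rw [this, div_one]
  have hξb : |a' ξ| ≤ 2 * C := by
    rw [hξ1]
    calc |a (t + 1) - a t| ≤ |a (t + 1)| + |a t| := abs_sub _ _
      _ ≤ C + C := add_le_add (hb _) (hb _)
      _ = 2 * C := by ring
  obtain ⟨η, hη, hηe⟩ := exists_hasDerivAt_eq_slope a' a'' hξ.1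
    (fun x _ => (h2 x).continuousAt.continuousWithinAt) (fun x _ => h2 x)
  have hpos : 0 < ξ - t := by linarith [hξ.1]
  have hle : ξ - t ≤ 1 := by linarith [hξ.2]
  have hηe2 : a' ξ - a' t = a'' η * (ξ - t) := by
    rw [hηe]
    field_simp
  have hC : 0 ≤ C := (abs_nonneg _).trans (hb t)
  have hd : |a' ξ - a' t| ≤ C := by
    rw [hηe2, abs_mul, abs_of_pos hpos]
    calc |a'' η| * (ξ - t) ≤ C * 1 := mul_le_mul (hb2 η) hle hpos.le hC
      _ = C := mul_one C
  have hsplit : a' t = a' ξ - (a' ξ - a' t) := by ring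
  calc |a' t| = |a' ξ - (a' ξ - a' t)| := by rw [← hsplit]
    _ ≤ |a' ξ| + |a' ξ - a' t| := abs_sub _ _
    _ ≤ 2 * C + C := add_le_add hξb hd
    _ = 3 * C := by ring

/-- The average of `(a'' + μ² a) w` tends to zero if `w'' = -μ² w`. -/
theorem avg_ode {a a' a'' w w' : ℝ → ℝ} {μ : ℝ} (h1 : ∀ t, HasDerivAt a (a' t) t) (h2 : ∀ t, HasDerivAt a' (a'' t) t)
    (hw1 : ∀ t, HasDerivAt w (w' t) t) (hw2 : ∀ t, HasDerivAt w' (-(μ ^ 2 * w t)) t) (hc : Continuous a'') {C : ℝ}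
    (hb : ∀ t, |a t| ≤ C) (hb1 : ∀ t, |a' t| ≤ C) (hwb : ∀ t, |w t| ≤ C) (hwb1 : ∀ t, |w' t| ≤ C) :
    Tendsto (fun T : ℝ => (1 / T) * ∫ t in (0 : ℝ)..T, (a'' t + μ ^ 2 * a t) * w t) atTop (𝓝 0) := by
  have hca : Continuous a := continuous_iff_continuousAt.2 fun t => (h1 t).continuousAt
  have hcw : Continuous w := continuous_iff_continuousAt.2 fun t => (hw1 t).continuousAt
  have hcont : Continuous fun t => (a'' t + μ ^ 2 * a t) * w t :=
    (hc.add (continuous_const.mul hca)).mul hcw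
  have hder : ∀ t, HasDerivAt (fun s => a' s * w s - a s * w' s) ((a'' t + μ ^ 2 * a t) * w t) t := by
    intro t
    have h := ((h2 t).mul (hw1 t)).sub ((h1 t).mul (hw2 t))
    have he : a'' t * w t + a' t * w' t - (a' t * w' t + a t * -(μ ^ 2 * w t)) = (a'' t + μ ^ 2 * a t) * w t := by
      ring
    rw [← he]
    exact h
  have hint : ∀ T : ℝ, ∫ t in (0 : ℝ)..T, (a'' t + μ ^ 2 * a t) * w t
      = (a' T * w T - a T * w' T) - (a' 0 * w 0 - a 0 * w' 0) := by
    intro T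
    exact intervalIntegral.integral_eq_sub_of_hasDerivAt (fun t _ => hder t) (hcont.intervalIntegrable _ _)
  have hC : 0 ≤ C := (abs_nonneg _).trans (hb 0)
  have hbd : ∀ T, |a' T * w T - a T * w' T| ≤ 2 * (C * C) := by
    intro T
    calc |a' T * w T - a T * w' T| ≤ |a' T * w T| + |a T * w' T| := abs_sub _ _
      _ = |a' T| * |w T| + |a T| * |w' T| := by rw [abs_mul, abs_mul]
      _ ≤ C * C + C * C := add_le_add (mul_le_mul (hb1 T) (hwb T) (abs_nonneg _) hC)
          (mul_le_mul (hb T) (hwb1 T) (abs_nonneg _) hC)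
      _ = 2 * (C * C) := by ring
  have hlim : Tendsto (fun T : ℝ => (4 * (C * C)) * T⁻¹) atTop (𝓝 0) := by
    have := (tendsto_inv_atTop_zero (𝕜 := ℝ)).const_mul (4 * (C * C))
    rwa [mul_zero] at this
  refine squeeze_zero_norm' ?_ hlim
  filter_upwards [eventually_gt_atTop (0 : ℝ)] with T hT
  rw [hint T, Real.norm_eq_abs, abs_mul, abs_of_pos (by positivity : (0 : ℝ) < 1 / T), one_div, mul_comm]
  refine mul_le_mul_of_nonneg_right ?_ (by positivity)
  calc |(a' T * w T - a T * w' T) - (a' 0 * w 0 - a 0 * w' 0)|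
      ≤ |a' T * w T - a T * w' T| + |a' 0 * w 0 - a 0 * w' 0| := abs_sub _ _
    _ ≤ 2 * (C * C) + 2 * (C * C) := add_le_add (hbd T) (hbd 0)
    _ = 4 * (C * C) := by ring

end DrumL
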