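import Mathlib

/-!
# Time averages of a solution of the oscillator equation
-/

set_option autoImplicit false

namespace DrumL

open MeasureTheory Set Filter Topology

/-- The solution of the oscillator equation is a combination of a cosine and a sine. -/
private theorem Lmc_form {a a' : ℝ → ℝ} {μ : ℝ} (hμ : 0 < μ) (h1 : ∀ t, HasDerivAt a (a' t) t)
    (h2 : ∀ t, HasDerivAt a' (-(μ ^ 2 * a t)) t) (t : ℝ) :
    a t = a 0 * Real.cos (μ * t) + a' 0 / μ * Real.sin (μ * t) := by
  have hc : ∀ s : ℝ, HasDerivAt (fun s => Real.cos (μ * s)) (-(μ * Real.sin (μ * s))) s := by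
    intro s
    have h := (Real.hasDerivAt_cos (μ * s)).comp s ((hasDerivAt_id s).const_mul μ)
    refine h.congr_deriv ?_
    ring
  have hs : ∀ s : ℝ, HasDerivAt (fun s => Real.sin (μ * s)) (μ * Real.cos (μ * s)) s := by
    intro s
    have h := (Real.hasDerivAt_sin (μ * s)).comp s ((hasDerivAt_id s).const_mul μ)
    refine h.congr_deriv ?_
    ring
  set f : ℝ → ℝ := fun s => a s - a 0 * Real.cos (μ * s) - a' 0 / μ * Real.sin (μ * s) with hf
  set f' : ℝ → ℝ := fun s => a' s + a 0 * (μ * Real.sin (μ * s)) - a' 0 * Real.cos (μ * s) with hf'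
  have hμ0 : μ ≠ 0 := hμ.ne'
  have d1 : ∀ s, HasDerivAt f (f' s) s := by
    intro s
    have h := ((h1 s).sub ((hc s).const_mul (a 0))).sub ((hs s).const_mul (a' 0 / μ))
    refine h.congr_deriv ?_
    simp only [hf']
    field_simp
    ring
  have d2 : ∀ s, HasDerivAt f' (-(μ ^ 2 * f s)) s := by
    intro s
    have h := ((h2 s).add (((hs s).const_mul μ).const_mul (a 0))).sub ((hc s).const_mul (a' 0))
    refine h.congr_deriv ?_
    simp only [hf]
    field_simp
    ring
  have d3 : ∀ s, HasDerivAt (fun s => f' s ^ 2 + μ ^ 2 * f s ^ 2) 0 s := by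
    intro s
    have h := ((d2 s).pow 2).add (((d1 s).pow 2).const_mul (μ ^ 2))
    refine h.congr_deriv ?_
    simp only [Nat.cast_ofNat]
    ring
  have e1 : f' t ^ 2 + μ ^ 2 * f t ^ 2 = f' 0 ^ 2 + μ ^ 2 * f 0 ^ 2 :=
    is_const_of_deriv_eq_zero (fun s => (d3 s).differentiableAt) (fun s => (d3 s).deriv) t 0
  have e2 : f 0 = 0 := by
    simp [hf]
  have e3 : f' 0 = 0 := by
    simp [hf']
  rw [e2, e3] at e1
  have e4 : μ ^ 2 * f t ^ 2 = 0 := by
    have p1 : 0 ≤ f' t ^ 2 := sq_nonneg _
    have p2 : 0 ≤ μ ^ 2 * f t ^ 2 := by positivity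
    nlinarith
  have e5 : f t = 0 := by
    have h := (mul_eq_zero.1 e4).resolve_left (pow_ne_zero 2 hμ0)
    exact pow_eq_zero_iff (two_ne_zero) |>.1 h
  have e6 : a t - a 0 * Real.cos (μ * t) - a' 0 / μ * Real.sin (μ * t) = 0 := e5
  linarith

/-- The mean of a continuous function with an antiderivative of the form linear plus bounded. -/
private theorem Lmc_mean {g b : ℝ → ℝ} {L C : ℝ} (hg : Continuous g)
    (hb : ∀ t, HasDerivAt (fun t => L * t + b t) (g t) t) (hC : ∀ t, |b t| ≤ C) :
    Tendsto (fun T : ℝ => (1 / T) * ∫ t in (0 : ℝ)..T, g t) atTop (𝓝 L) := by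
  have e1 : ∀ T : ℝ, ∫ t in (0 : ℝ)..T, g t = L * T + (b T - b 0) := by
    intro T
    rw [intervalIntegral.integral_eq_sub_of_hasDerivAt (fun t _ => hb t) (hg.intervalIntegrable 0 T)]
    ring
  have e2 : Tendsto (fun T : ℝ => (b T - b 0) / T) atTop (𝓝 0) := by
    have h3 : Tendsto (fun T : ℝ => (2 * C) / T) atTop (𝓝 0) :=
      tendsto_const_nhds.div_atTop tendsto_id
    refine squeeze_zero_norm' ?_ h3
    filter_upwards [eventually_gt_atTop (0 : ℝ)] with T hT
    rw [Real.norm_eq_abs, abs_div, abs_of_pos hT]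
    refine div_le_div_of_nonneg_right ?_ hT.le
    calc |b T - b 0| ≤ |b T| + |b 0| := abs_sub _ _
      _ ≤ 2 * C := by linarith [hC T, hC 0]
  have e3 : Tendsto (fun T : ℝ => L + (b T - b 0) / T) atTop (𝓝 L) := by
    have h := (tendsto_const_nhds (x := L) (f := atTop)).add e2
    rwa [add_zero] at h
  refine e3.congr' ?_
  filter_upwards [eventually_gt_atTop (0 : ℝ)] with T hT
  rw [e1]
  field_simp

/-- A nonzero solution of the oscillator equation has a nonzero mean product with a cosine or a sine. -/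
theorem avg_osc {a a' : ℝ → ℝ} {μ : ℝ} (hμ : 0 < μ) (h1 : ∀ t, HasDerivAt a (a' t) t)
    (h2 : ∀ t, HasDerivAt a' (-(μ ^ 2 * a t)) t) {t₀ : ℝ} (hne : a t₀ ≠ 0) :
    ∃ w w' : ℝ → ℝ, (∀ t, HasDerivAt w (w' t) t) ∧ (∀ t, HasDerivAt w' (-(μ ^ 2 * w t)) t) ∧ (∀ t, |w t| ≤ 1) ∧
      (∀ t, |w' t| ≤ μ) ∧ ∃ L : ℝ, L ≠ 0 ∧
        Tendsto (fun T : ℝ => (1 / T) * ∫ t in (0 : ℝ)..T, a t * w t) atTop (𝓝 L) := by
  have hμ0 : μ ≠ 0 := hμ.ne'
  have hc : ∀ s : ℝ, HasDerivAt (fun s => Real.cos (μ * s)) (-(μ * Real.sin (μ * s))) s := by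
    intro s
    have h := (Real.hasDerivAt_cos (μ * s)).comp s ((hasDerivAt_id s).const_mul μ)
    refine h.congr_deriv ?_
    ring
  have hs : ∀ s : ℝ, HasDerivAt (fun s => Real.sin (μ * s)) (μ * Real.cos (μ * s)) s := by
    intro s
    have h := (Real.hasDerivAt_sin (μ * s)).comp s ((hasDerivAt_id s).const_mul μ)
    refine h.congr_deriv ?_
    ring
  have hform := Lmc_form hμ h1 h2
  set A := a 0 with hA
  set B := a' 0 / μ with hB
  have cb : ∀ t, |Real.cos (μ * t)| ≤ 1 := fun t => Real.abs_cos_le_one _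
  have sb : ∀ t, |Real.sin (μ * t)| ≤ 1 := fun t => Real.abs_sin_le_one _
  by_cases hA0 : A = 0
  · have hB0 : B ≠ 0 := by
      intro hB0
      apply hne
      rw [hform, hA0, hB0]
      ring
    refine ⟨fun s => Real.sin (μ * s), fun s => μ * Real.cos (μ * s), hs, ?_, sb, ?_, B / 2,
      div_ne_zero hB0 two_ne_zero, ?_⟩
    · intro t
      refine ((hc t).const_mul μ).congr_deriv ?_
      ring
    · intro t
      rw [abs_mul, abs_of_pos hμ]
      exact mul_le_of_le_one_right hμ.le (cb t)
    · have e0 : (fun t => a t * Real.sin (μ * t)) =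
          fun t => B * Real.sin (μ * t) * Real.sin (μ * t) := by
        funext t
        rw [hform, hA0]
        ring
      have e1 : ∀ t, HasDerivAt (fun t => B / 2 * t + (-(B / (2 * μ)) * (Real.sin (μ * t) * Real.cos (μ * t))))
          (a t * Real.sin (μ * t)) t := by
        intro t
        have h := ((hasDerivAt_id t).const_mul (B / 2)).add (((hs t).mul (hc t)).const_mul (-(B / (2 * μ))))
        refine h.congr_deriv ?_
        rw [hform, hA0]
        have h5 := Real.sin_sq_add_cos_sq (μ * t)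
        field_simp
        linear_combination (-B) * h5
      refine Lmc_mean (C := |B / (2 * μ)|) ?_ e1 ?_
      · rw [e0]
        fun_prop
      · intro t
        rw [abs_mul, abs_neg, abs_mul]
        have h6 : |Real.sin (μ * t)| * |Real.cos (μ * t)| ≤ 1 :=
          mul_le_one₀ (sb t) (abs_nonneg _) (cb t)
        exact mul_le_of_le_one_right (abs_nonneg _) h6
  · refine ⟨fun s => Real.cos (μ * s), fun s => -(μ * Real.sin (μ * s)), hc, ?_, cb, ?_, A / 2,
      div_ne_zero hA0 two_ne_zero, ?_⟩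
    · intro t
      refine (((hs t).const_mul μ).neg).congr_deriv ?_
      ring
    · intro t
      rw [abs_neg, abs_mul, abs_of_pos hμ]
      exact mul_le_of_le_one_right hμ.le (sb t)
    · have e0 : (fun t => a t * Real.cos (μ * t)) =
          fun t => (A * Real.cos (μ * t) + B * Real.sin (μ * t)) * Real.cos (μ * t) := by
        funext t
        rw [hform]
      have e1 : ∀ t, HasDerivAt (fun t => A / 2 * t + (A / (2 * μ) * (Real.sin (μ * t) * Real.cos (μ * t)) +
          B / (2 * μ) * (Real.sin (μ * t) * Real.sin (μ * t)))) (a t * Real.cos (μ * t)) t := by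
        intro t
        have h := ((hasDerivAt_id t).const_mul (A / 2)).add
          ((((hs t).mul (hc t)).const_mul (A / (2 * μ))).add (((hs t).mul (hs t)).const_mul (B / (2 * μ))))
        refine h.congr_deriv ?_
        rw [hform]
        have h5 := Real.sin_sq_add_cos_sq (μ * t)
        field_simp
        linear_combination (-A) * h5
      refine Lmc_mean (C := |A / (2 * μ)| + |B / (2 * μ)|) ?_ e1 ?_
      · rw [e0]
        fun_prop
      · intro t
        have h6 : |Real.sin (μ * t)| * |Real.cos (μ * t)| ≤ 1 :=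
          mul_le_one₀ (sb t) (abs_nonneg _) (cb t)
        have h7 : |Real.sin (μ * t)| * |Real.sin (μ * t)| ≤ 1 :=
          mul_le_one₀ (sb t) (abs_nonneg _) (sb t)
        refine (abs_add_le _ _).trans (add_le_add ?_ ?_)
        · rw [abs_mul, abs_mul]
          exact mul_le_of_le_one_right (abs_nonneg _) h6
        · rw [abs_mul, abs_mul]
          exact mul_le_of_le_one_right (abs_nonneg _) h7

end DrumL
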