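import Pool.Agent.Lib.MP_d92c84_anF.Wsd

/-!
# Time smoothing and pairing with a function of the space variable
-/

set_option autoImplicit false

namespace DrumL

open MeasureTheory Set Filter Topology
open scoped ContDiff

/-- A bound on a compact interval of time. -/
theorem Smb_bound {D : Set ℂ} (hb : Bornology.IsBounded D) {z : ℂ → ℝ → ℝ}
    (hz : ContinuousOn (fun q : ℂ × ℝ => z q.1 q.2) (closure D ×ˢ univ)) (a b : ℝ) :
    ∃ C : ℝ, 0 ≤ C ∧ ∀ x ∈ D, ∀ t ∈ Icc a b, |z x t| ≤ C := by
  have hK : IsCompact (closure D ×ˢ Icc a b) := hb.isCompact_closure.prod isCompact_Icc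
  obtain ⟨C, hC⟩ := hK.exists_bound_of_continuousOn
    (hz.mono (prod_mono_right (subset_univ _)))
  refine ⟨|C|, abs_nonneg C, fun x hx t ht => ?_⟩
  exact (hC (x, t) ⟨subset_closure hx, ht⟩).trans (le_abs_self C)

/-- Pairing of the smoothing with an integrable function. -/
theorem sm_pair {D : Set ℂ} (hD : IsOpen D) (hb : Bornology.IsBounded D) {z : ℂ → ℝ → ℝ}
    (hz : ContinuousOn (fun q : ℂ × ℝ => z q.1 q.2) (closure D ×ˢ univ)) {η : ℝ → ℝ} (hη : ContDiff ℝ ∞ η)
    (hs : HasCompactSupport η) {ψ : ℂ → ℝ} (hψ : IntegrableOn ψ D) :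
    Continuous (fun t => ∫ x in D, z x t * ψ x) ∧ ∀ t, ∫ x in D, sm η 0 z x t * ψ x =
      ∫ s, η s * ∫ x in D, z x (t - s) * ψ x := by
  have hzt : ∀ t, ContinuousOn (fun x => z x t) D := by
    intro t
    have h1 : ContinuousOn (fun x : ℂ => (x, t)) D := by fun_prop
    exact hz.comp h1 fun x hx => ⟨subset_closure hx, mem_univ _⟩
  have hzx : ∀ x ∈ D, Continuous (z x) := by
    intro x hx
    have h1 : Continuous (fun t : ℝ => (x, t)) := by fun_prop
    exact hz.comp_continuous h1 fun t => ⟨subset_closure hx, mem_univ _⟩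
  constructor
  · rw [continuous_iff_continuousAt]
    intro t₀
    obtain ⟨C, hC0, hC⟩ := Smb_bound hb hz (t₀ - 1) (t₀ + 1)
    refine continuousAt_of_dominated (bound := fun x => C * ‖ψ x‖) ?_ ?_ ?_ ?_
    · filter_upwards with t
      exact ((hzt t).aestronglyMeasurable hD.measurableSet).mul hψ.aestronglyMeasurable
    · have h1 : Icc (t₀ - 1) (t₀ + 1) ∈ 𝓝 t₀ := Icc_mem_nhds (by linarith) (by linarith)
      filter_upwards [h1] with t ht
      filter_upwards [ae_restrict_mem hD.measurableSet] with x hx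
      rw [norm_mul]
      exact mul_le_mul_of_nonneg_right (hC x hx t ht) (norm_nonneg _)
    · exact hψ.norm.const_mul C
    · filter_upwards [ae_restrict_mem hD.measurableSet] with x hx
      exact ((hzx x hx).continuousAt).mul continuousAt_const
  · intro t
    have h1 : ∀ x, sm η 0 z x t * ψ x = ∫ s, η s * z x (t - s) * ψ x := by
      intro x
      unfold sm
      rw [iteratedDeriv_zero, ← integral_mul_const]
      rfl
    have h2 : ∀ s, η s * ∫ x in D, z x (t - s) * ψ x = ∫ x in D, η s * z x (t - s) * ψ x := by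
      intro s
      rw [← integral_const_mul]
      simp only [mul_assoc]
    simp only [h1, h2]
    refine integral_integral_swap ?_
    obtain ⟨A, hA⟩ := hs.isCompact.isBounded.subset_closedBall (0 : ℝ)
    obtain ⟨C, hC0, hC⟩ := Smb_bound hb hz (t - A) (t + A)
    have hprod : (volume.restrict D).prod (volume : Measure ℝ) =
        ((volume : Measure ℂ).prod (volume : Measure ℝ)).restrict (D ×ˢ univ) := by
      rw [← Measure.prod_restrict, Measure.restrict_univ]
    have hbd : Integrable (fun q : ℂ × ℝ => ‖ψ q.1‖ * (C * ‖η q.2‖))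
        ((volume.restrict D).prod (volume : Measure ℝ)) := by
      refine Integrable.mul_prod (f := fun x => ‖ψ x‖) (g := fun s => C * ‖η s‖) hψ.norm ?_
      exact ((hη.continuous.integrable_of_hasCompactSupport hs).norm).const_mul C
    refine Integrable.mono' hbd ?_ ?_
    · have h3 : AEStronglyMeasurable (fun q : ℂ × ℝ => η q.2 * z q.1 (t - q.2))
          ((volume.restrict D).prod (volume : Measure ℝ)) := by
        rw [hprod]
        refine ContinuousOn.aestronglyMeasurable ?_ (hD.measurableSet.prod MeasurableSet.univ)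
        refine ContinuousOn.mul (hη.continuous.comp continuous_snd).continuousOn ?_
        have h4 : ContinuousOn (fun q : ℂ × ℝ => (q.1, t - q.2)) (D ×ˢ univ) := by fun_prop
        exact hz.comp h4 fun q hq => ⟨subset_closure hq.1, mem_univ _⟩
      exact h3.mul hψ.aestronglyMeasurable.comp_fst
    · rw [hprod]
      filter_upwards [ae_restrict_mem (hD.measurableSet.prod MeasurableSet.univ)] with q hq
      show ‖η q.2 * z q.1 (t - q.2) * ψ q.1‖ ≤ ‖ψ q.1‖ * (C * ‖η q.2‖)
      rw [norm_mul, norm_mul]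
      by_cases h5 : η q.2 = 0
      · rw [h5, norm_zero, zero_mul, zero_mul, mul_zero, mul_zero]
      · have h6 : q.2 ∈ Metric.closedBall (0 : ℝ) A := hA (subset_tsupport _ h5)
        rw [mem_closedBall_zero_iff, Real.norm_eq_abs, abs_le] at h6
        have h7 := hC q.1 hq.1 (t - q.2) ⟨by linarith [h6.2], by linarith [h6.1]⟩
        have h8 : ‖η q.2‖ * ‖z q.1 (t - q.2)‖ ≤ ‖η q.2‖ * C :=
          mul_le_mul_of_nonneg_left h7 (norm_nonneg _)
        calc ‖η q.2‖ * ‖z q.1 (t - q.2)‖ * ‖ψ q.1‖ ≤ ‖η q.2‖ * C * ‖ψ q.1‖ :=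
              mul_le_mul_of_nonneg_right h8 (norm_nonneg _)
          _ = ‖ψ q.1‖ * (C * ‖η q.2‖) := by ring

end DrumL
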