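import Pool.Agent.Lib.MP_d92c84_anF.Eng
import Pool.Agent.Lib.MP_d92c84_anF.Lma
import Pool.Agent.Lib.MP_d92c84_anF.Lmb
import Pool.Agent.Lib.MP_d92c84_anF.Lmc
import Pool.Agent.Lib.MP_d92c84_anF.L2c
import Pool.Agent.Lib.MP_d92c84_anF.Hqc
import Pool.Agent.Lib.MP_d92c84_anF.Smb

/-!
# Extraction of an eigenfunction in the closure of the test functions
-/

set_option autoImplicit false

namespace DrumL

open MeasureTheory Set Filter Topology
open scoped ContDiff

/-- A function continuous on the closure is square integrable. -/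
private theorem Sd3_mem {D : Set ℂ} (hD : IsOpen D) (hb : Bornology.IsBounded D) {ψ : ℂ → ℝ}
    (hψ : ContinuousOn ψ (closure D)) : MemLp ψ 2 (volume.restrict D) := by
  have hfin : volume D < ⊤ := hb.measure_lt_top
  have : IsFiniteMeasure (volume.restrict D) := ⟨by rwa [Measure.restrict_apply_univ]⟩
  obtain ⟨C, hC⟩ := hb.isCompact_closure.exists_bound_of_continuousOn hψ
  refine MemLp.of_bound (intOn hb hψ).aestronglyMeasurable C ?_
  rw [ae_restrict_iff' hD.measurableSet]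
  exact Eventually.of_forall fun x hx => hC x (subset_closure hx)

/-- The scalar product with the class of a function. -/
private theorem Sd3_inner {D : Set ℂ} (u : Lp ℝ 2 (volume.restrict D)) {ψ : ℂ → ℝ}
    (hψ : MemLp ψ 2 (volume.restrict D)) : (inner ℝ u (hψ.toLp ψ) : ℝ) = ∫ x in D, u x * ψ x := by
  rw [L2.inner_def]
  refine integral_congr_ae ?_
  filter_upwards [hψ.coeFn_toLp] with x hx
  rw [hx]
  simp [mul_comm]

/-- Averages of a curve: pairing with a square integrable function. -/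
private theorem Sd3_lim {D : Set ℂ} (hD : IsOpen D) (hb : Bornology.IsBounded D) {f : ℂ → ℝ → ℝ}
    (hf : ContinuousOn (fun q : ℂ × ℝ => f q.1 q.2) (closure D ×ˢ univ)) {C : ℝ}
    (hC : ∀ t, ∫ x in D, f x t ^ 2 ≤ C) (𝒰 : Ultrafilter ℝ) (h𝒰 : (𝒰 : Filter ℝ) ≤ atTop) {w : ℝ → ℝ}
    (hw : Continuous w) (hw1 : ∀ t, |w t| ≤ 1) :
    (∃ u : Lp ℝ 2 (volume.restrict D), ∀ ψ : ℂ → ℝ, MemLp ψ 2 (volume.restrict D) →
      Tendsto (fun T : ℝ => (1 / T) * ∫ t in (0 : ℝ)..T, (∫ x in D, f x t * ψ x) * w t) 𝒰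
        (𝓝 (∫ x in D, u x * ψ x))) ∧
      ∀ ψ : ℂ → ℝ, MemLp ψ 2 (volume.restrict D) → ∃ B : ℝ, ∀ t, |∫ x in D, f x t * ψ x| ≤ B := by
  have hC' : ∀ t, ∫ x in D, f x t ^ 2 ≤ (Real.sqrt |C|) ^ 2 := by
    intro t
    rw [Real.sq_sqrt (abs_nonneg C)]
    exact (hC t).trans (le_abs_self C)
  obtain ⟨v, hv1, hv2, hv3⟩ := l2curve hD hb hf hC' (Real.sqrt_nonneg _)
  have hpair : ∀ ψ : ℂ → ℝ, ∀ hψ : MemLp ψ 2 (volume.restrict D), ∀ t,
      (inner ℝ (v t) (hψ.toLp ψ) : ℝ) = ∫ x in D, f x t * ψ x := by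
    intro ψ hψ t
    rw [hv2]
    refine integral_congr_ae ?_
    filter_upwards [hψ.coeFn_toLp] with x hx
    rw [hx]
  obtain ⟨u, hu⟩ := lim_functional 𝒰 h𝒰 hv1 hv3 hw hw1
  refine ⟨⟨u, fun ψ hψ => ?_⟩, fun ψ hψ => ⟨Real.sqrt |C| * ‖hψ.toLp ψ‖, fun t => ?_⟩⟩
  · have h1 := hu (hψ.toLp ψ)
    rw [Sd3_inner u hψ] at h1
    simp only [hpair ψ hψ] at h1
    exact h1
  · rw [← hpair ψ hψ t]
    have h1 := abs_real_inner_le_norm (v t) (hψ.toLp ψ)
    exact h1.trans (mul_le_mul_of_nonneg_right (hv1 t) (norm_nonneg _))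

/-- Integration by parts twice. -/
private theorem Sd3_pp {D : Set ℂ} (hD : IsOpen D) {f φ : ℂ → ℝ} (hf : ContDiffOn ℝ 2 f D) (hφ : Tst D φ) :
    ∫ x in D, lap f x * φ x = ∫ x in D, f x * lap φ x := by
  have h1 : ∀ v : ℂ, ∫ x in D, φ x * pd v (pd v f) x = ∫ x in D, pd v (pd v φ) x * f x := by
    intro v
    rw [integral_mul_pd_on hD (hφ.smooth.of_le (by exact_mod_cast le_top)) hφ.comp hφ.sub
      (contDiffOn_pd hD (m := 1) hf (by norm_num) v) v]
    rw [integral_mul_pd_on hD ((hφ.pd v).smooth.of_le (by exact_mod_cast le_top)) (hφ.pd v).comp (hφ.pd v).sub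
      (hf.of_le (by norm_num)) v]
    rw [neg_neg]
  have hint : ∀ {a b : ℂ → ℝ}, Tst D a → ContinuousOn b D → IntegrableOn (fun x => a x * b x) D := by
    intro a b ha hb
    have h4 : ContDiff ℝ 0 fun x => a x * b x :=
      mul_contDiff hD (contDiff_zero.2 ha.cont) ha.sub (contDiffOn_zero.2 hb)
    exact (h4.continuous.integrable_of_hasCompactSupport ha.comp.mul_right).integrableOn
  have hpp : ∀ v : ℂ, ContinuousOn (pd v (pd v f)) D := fun v =>
    (contDiffOn_pd hD (m := 0) (contDiffOn_pd hD (m := 1) hf (by norm_num) v) (by norm_num) v).continuousOn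
  have h2 : ∫ x in D, lap f x * φ x = (∫ x in D, φ x * pd 1 (pd 1 f) x) + ∫ x in D, φ x * pd Complex.I (pd Complex.I f) x := by
    rw [← integral_add (hint hφ (hpp 1)) (hint hφ (hpp Complex.I))]
    refine integral_congr_ae (Eventually.of_forall fun x => ?_)
    simp only [lap]
    ring
  have h3 : ∫ x in D, f x * lap φ x = (∫ x in D, pd 1 (pd 1 φ) x * f x) + ∫ x in D, pd Complex.I (pd Complex.I φ) x * f x := by
    rw [← integral_add (hint ((hφ.pd 1).pd 1) hf.continuousOn) (hint ((hφ.pd Complex.I).pd Complex.I) hf.continuousOn)]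
    refine integral_congr_ae (Eventually.of_forall fun x => ?_)
    simp only [lap]
    ring
  rw [h2, h3, h1, h1]

/-- The norm of a functional on the plane. -/
private theorem Sd3_norm (L : ℂ →L[ℝ] ℝ) : ‖L‖ ≤ |L 1| + |L Complex.I| := by
  refine L.opNorm_le_bound (by positivity) fun x => ?_
  have h1 : L x = x.re * L 1 + x.im * L Complex.I := by
    have h2 : x = x.re • (1 : ℂ) + x.im • Complex.I := by
      apply Complex.ext <;> simp
    conv_lhs => rw [h2]
    rw [map_add, map_smul, map_smul, smul_eq_mul, smul_eq_mul]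
  rw [h1, Real.norm_eq_abs]
  have h3 := Complex.abs_re_le_norm x
  have h4 := Complex.abs_im_le_norm x
  calc |x.re * L 1 + x.im * L Complex.I| ≤ |x.re| * |L 1| + |x.im| * |L Complex.I| := by
        rw [← abs_mul, ← abs_mul]
        exact abs_add_le _ _
    _ ≤ ‖x‖ * |L 1| + ‖x‖ * |L Complex.I| := by gcongr
    _ = (|L 1| + |L Complex.I|) * ‖x‖ := by ring

/-- Extraction of a weak eigenfunction from a family of solutions of the wave equation, one of which has a nonzero
pairing with `φ₀`; it is orthogonal to everything which is orthogonal to the solution at all times. -/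
theorem exists_SD3 {c : ℝ} {D : Set ℂ} {Z : ℕ → ℂ → ℝ → ℝ} {G : ℕ → ℂ → ℝ → ℂ} (hD : IsOpen D)
    (hb : Bornology.IsBounded D) (hc : 0 < c) (h : WS c D Z G) {l : ℝ} (hl : 0 < l) {φ₀ : ℂ → ℝ}
    (hφ : ContinuousOn φ₀ (closure D)) (hcoef : ∀ t, ∫ x in D, Z 2 x t * φ₀ x = -(c ^ 2 * l) * ∫ x in D, Z 0 x t * φ₀ x)
    {t₀ : ℝ} (hne : ∫ x in D, Z 0 x t₀ * φ₀ x ≠ 0) :
    ∃ u g₁ g₂ : ℂ → ℝ, SD l D u g₁ g₂ ∧ Hq D u g₁ g₂ ∧ ∫ x in D, u x * φ₀ x ≠ 0 ∧
      ∀ ψ : ℂ → ℝ, MemLp ψ 2 (volume.restrict D) → (∀ t, ∫ x in D, Z 0 x t * ψ x = 0) → ∫ x in D, u x * ψ x = 0 := by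
  have hm : MeasurableSet D := hD.measurableSet
  set μ : ℝ := c * Real.sqrt l with hμ
  have hμ0 : 0 < μ := mul_pos hc (Real.sqrt_pos.2 hl)
  have hμ2 : μ ^ 2 = c ^ 2 * l := by
    rw [hμ, mul_pow, Real.sq_sqrt hl.le]
  -- derivatives of the coefficients
  have hda : ∀ (k : ℕ) {φ : ℂ → ℝ}, ContinuousOn φ (closure D) → ∀ t,
      HasDerivAt (fun t => ∫ x in D, Z k x t * φ x) (∫ x in D, Z (k + 1) x t * φ x) t := by
    intro k φ hφ' t
    have hφc : ContinuousOn (fun q : ℂ × ℝ => φ q.1) (closure D ×ˢ univ) :=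
      hφ'.comp continuousOn_fst fun q hq => hq.1
    exact hasDerivAt_intD hb hm (f := fun x t => Z k x t * φ x) (f' := fun x t => Z (k + 1) x t * φ x)
      ((h.cont k).mul hφc) ((h.cont (k + 1)).mul hφc)
      (fun x hx t => (h.dt k x (subset_closure hx) t).mul_const (φ x)) t
  obtain ⟨w, w', hw1, hw2, hwb, hwb', L, hL, hlimL⟩ := avg_osc (a := fun t => ∫ x in D, Z 0 x t * φ₀ x)
    (a' := fun t => ∫ x in D, Z 1 x t * φ₀ x) hμ0 (hda 0 hφ) (fun t => by
      have h1 := hda 1 hφ t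
      rw [hcoef t, ← hμ2, neg_mul] at h1
      exact h1) hne
  have hwc : Continuous w := continuous_iff_continuousAt.2 fun t => (hw1 t).continuousAt
  set 𝒰 : Ultrafilter ℝ := Ultrafilter.of atTop with h𝒰d
  have h𝒰 : (𝒰 : Filter ℝ) ≤ atTop := Ultrafilter.of_le _
  obtain ⟨C, hC⟩ := WS.bound hD hb hc h
  have hre : ContinuousOn (fun q : ℂ × ℝ => (G 0 q.1 q.2).re) (closure D ×ˢ univ) :=
    Complex.continuous_re.comp_continuousOn (h.contG 0)
  have him : ContinuousOn (fun q : ℂ × ℝ => (G 0 q.1 q.2).im) (closure D ×ˢ univ) :=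
    Complex.continuous_im.comp_continuousOn (h.contG 0)
  have hn2 : ∀ t, ContinuousOn (fun x => ‖G 0 x t‖ ^ 2) (closure D) := fun t => ((slice (h.contG 0) t).norm).pow 2
  have hCre : ∀ t, ∫ x in D, (G 0 x t).re ^ 2 ≤ C := by
    intro t
    refine le_trans ?_ (hC t).2.2
    refine integral_mono (intOn hb ((slice (h := fun x t => (G 0 x t).re) hre t).pow 2)) (intOn hb (hn2 t)) fun x => ?_
    have h1 := Complex.abs_re_le_norm (G 0 x t)
    have h2 := abs_nonneg (G 0 x t).re
    show (G 0 x t).re ^ 2 ≤ ‖G 0 x t‖ ^ 2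
    rw [← sq_abs (G 0 x t).re]
    gcongr
  have hCim : ∀ t, ∫ x in D, (G 0 x t).im ^ 2 ≤ C := by
    intro t
    refine le_trans ?_ (hC t).2.2
    refine integral_mono (intOn hb ((slice (h := fun x t => (G 0 x t).im) him t).pow 2)) (intOn hb (hn2 t)) fun x => ?_
    have h1 := Complex.abs_im_le_norm (G 0 x t)
    have h2 := abs_nonneg (G 0 x t).im
    show (G 0 x t).im ^ 2 ≤ ‖G 0 x t‖ ^ 2
    rw [← sq_abs (G 0 x t).im]
    gcongr
  obtain ⟨⟨u, hu⟩, hbd⟩ := Sd3_lim hD hb (h.cont 0) (fun t => (hC t).1) 𝒰 h𝒰 hwc hwb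
  obtain ⟨⟨g₁, hg₁⟩, -⟩ := Sd3_lim (f := fun x t => (G 0 x t).re) hD hb hre hCre 𝒰 h𝒰 hwc hwb
  obtain ⟨⟨g₂, hg₂⟩, -⟩ := Sd3_lim (f := fun x t => (G 0 x t).im) hD hb him hCim 𝒰 h𝒰 hwc hwb
  have hφm := Sd3_mem hD hb hφ
  -- the boundary terms
  have hgt : ∀ t, ∀ ψ : ℂ → ℝ, ContDiff ℝ 1 ψ →
      (∫ x in D, Z 0 x t * pd 1 ψ x = -∫ x in D, (G 0 x t).re * ψ x) ∧
        (∫ x in D, Z 0 x t * pd Complex.I ψ x = -∫ x in D, (G 0 x t).im * ψ x) := by
    intro t ψ hψ
    obtain ⟨B, hB⟩ := hb.isCompact_closure.exists_bound_of_continuousOn (slice (h.contG 0) t)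
    have h1 : ∀ x ∈ D, ‖fderiv ℝ (fun y => Z 0 y t) x‖ ≤ B + B := by
      intro x hx
      refine (Sd3_norm _).trans ?_
      obtain ⟨e1, e2⟩ := h.grad 0 x hx t
      unfold pd at e1 e2
      rw [e1, e2]
      exact add_le_add ((Complex.abs_re_le_norm _).trans (hB x (subset_closure hx)))
        ((Complex.abs_im_le_norm _).trans (hB x (subset_closure hx)))
    obtain ⟨e1, e2⟩ := green_test hD hb (ψ := fun y => Z 0 y t) (slice (h.cont 0) t) ((h.c2 0 t).of_le (by norm_num))
      (fun x hx => h.bdry 0 x hx t) h1 hψ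
    constructor
    · rw [e1]
      congr 1
      exact setIntegral_congr_fun hm fun x hx => by
        show pd 1 (fun y => Z 0 y t) x * ψ x = _
        rw [(h.grad 0 x hx t).1]
    · rw [e2]
      congr 1
      exact setIntegral_congr_fun hm fun x hx => by
        show pd Complex.I (fun y => Z 0 y t) x * ψ x = _
        rw [(h.grad 0 x hx t).2]
  have hHq : Hq D u g₁ g₂ := by
    refine hq_of_orth (Lp.memLp u) (Lp.memLp g₁) (Lp.memLp g₂) fun a b e ho => ?_
    have hZ : ∀ t, Hq D (fun x => Z 0 x t) (fun x => (G 0 x t).re) (fun x => (G 0 x t).im) := by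
      intro t
      obtain ⟨B, hB⟩ := hb.isCompact_closure.exists_bound_of_continuousOn (slice (h.contG 0) t)
      have h1 : ∀ x ∈ D, ‖fderiv ℝ (fun y => Z 0 y t) x‖ ≤ B + B := by
        intro x hx
        refine (Sd3_norm _).trans ?_
        obtain ⟨e1, e2⟩ := h.grad 0 x hx t
        unfold pd at e1 e2
        rw [e1, e2]
        exact add_le_add ((Complex.abs_re_le_norm _).trans (hB x (subset_closure hx)))
          ((Complex.abs_im_le_norm _).trans (hB x (subset_closure hx)))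
      have h2 := hq_of_zero hD hb (f := fun y => Z 0 y t) (slice (h.cont 0) t) ((h.c2 0 t).of_le (by norm_num))
        (fun x hx => h.bdry 0 x hx t) h1
      exact h2.congr hD (fun x hx => rfl) (fun x hx => (h.grad 0 x hx t).1) (fun x hx => (h.grad 0 x hx t).2)
    have hzero : ∀ t, (∫ x in D, Z 0 x t * a x) + (∫ x in D, (G 0 x t).re * b x) + ∫ x in D, (G 0 x t).im * e x = 0 := by
      intro t
      have h1 := (hZ t).orth ho
      have i1 : Integrable (fun x => a x * Z 0 x t) (volume.restrict D) := ho.mem.integrable_mul (hZ t).mem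
      have i2 : Integrable (fun x => b x * (G 0 x t).re) (volume.restrict D) := ho.mem₁.integrable_mul (hZ t).mem₁
      have i3 : Integrable (fun x => e x * (G 0 x t).im) (volume.restrict D) := ho.mem₂.integrable_mul (hZ t).mem₂
      have h2 : ∫ x in D, (a x * Z 0 x t + b x * (G 0 x t).re + e x * (G 0 x t).im) =
          (∫ x in D, a x * Z 0 x t) + (∫ x in D, b x * (G 0 x t).re) + ∫ x in D, e x * (G 0 x t).im := by
        rw [← integral_add i1 i2]
        exact integral_add (i1.add i2) i3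
      rw [h2] at h1
      have e1 : ∀ p q : ℂ → ℝ, ∫ x in D, p x * q x = ∫ x in D, q x * p x := fun p q =>
        integral_congr_ae (Eventually.of_forall fun x => mul_comm _ _)
      rw [e1 (fun x => Z 0 x t) a, e1 (fun x => (G 0 x t).re) b, e1 (fun x => (G 0 x t).im) e]
      exact h1
    have l1 := hu a ho.mem
    have l2 := hg₁ b ho.mem₁
    have l3 := hg₂ e ho.mem₂
    have hsum := (l1.add l2).add l3
    have hc1 : ∀ (f : ℂ → ℝ → ℝ), ContinuousOn (fun q : ℂ × ℝ => f q.1 q.2) (closure D ×ˢ univ) →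
        ∀ p : ℂ → ℝ, MemLp p 2 (volume.restrict D) → Continuous fun t => ∫ x in D, f x t * p x := by
      intro f hf p hp
      have hfin : IsFiniteMeasure (volume.restrict D) := ⟨by
        rw [Measure.restrict_apply_univ]
        exact hb.measure_lt_top⟩
      exact (sm_pair hD hb hf (η := fun _ => (0 : ℝ)) contDiff_const HasCompactSupport.zero
        (hp.integrable (by norm_num))).1
    have h0 : ∀ T : ℝ, (1 / T) * (∫ t in (0 : ℝ)..T, (∫ x in D, Z 0 x t * a x) * w t) +
        (1 / T) * (∫ t in (0 : ℝ)..T, (∫ x in D, (G 0 x t).re * b x) * w t) +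
        (1 / T) * (∫ t in (0 : ℝ)..T, (∫ x in D, (G 0 x t).im * e x) * w t) = 0 := by
      intro T
      have j1 : IntervalIntegrable (fun t => (∫ x in D, Z 0 x t * a x) * w t) volume 0 T :=
        ((hc1 _ (h.cont 0) a ho.mem).mul hwc).intervalIntegrable 0 T
      have j2 : IntervalIntegrable (fun t => (∫ x in D, (G 0 x t).re * b x) * w t) volume 0 T :=
        ((hc1 (fun x t => (G 0 x t).re) hre b ho.mem₁).mul hwc).intervalIntegrable 0 T
      have j3 : IntervalIntegrable (fun t => (∫ x in D, (G 0 x t).im * e x) * w t) volume 0 T :=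
        ((hc1 (fun x t => (G 0 x t).im) him e ho.mem₂).mul hwc).intervalIntegrable 0 T
      rw [← mul_add, ← mul_add, ← intervalIntegral.integral_add j1 j2,
        ← intervalIntegral.integral_add (j1.add j2) j3]
      have h2 : (fun t => (∫ x in D, Z 0 x t * a x) * w t + (∫ x in D, (G 0 x t).re * b x) * w t +
          (∫ x in D, (G 0 x t).im * e x) * w t) = fun _ => 0 := by
        funext t
        rw [← add_mul, ← add_mul, hzero t, zero_mul]
      rw [h2, intervalIntegral.integral_zero, mul_zero]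
    have h3 : (∫ x in D, u x * a x) + (∫ x in D, g₁ x * b x) + ∫ x in D, g₂ x * e x = 0 := by
      refine tendsto_nhds_unique hsum ?_
      simp only [h0]
      exact tendsto_const_nhds
    have i1 : Integrable (fun x => a x * u x) (volume.restrict D) := ho.mem.integrable_mul (Lp.memLp u)
    have i2 : Integrable (fun x => b x * g₁ x) (volume.restrict D) := ho.mem₁.integrable_mul (Lp.memLp g₁)
    have i3 : Integrable (fun x => e x * g₂ x) (volume.restrict D) := ho.mem₂.integrable_mul (Lp.memLp g₂)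
    have h4 : ∫ x in D, (a x * u x + b x * g₁ x + e x * g₂ x) =
        (∫ x in D, a x * u x) + (∫ x in D, b x * g₁ x) + ∫ x in D, e x * g₂ x := by
      rw [← integral_add i1 i2]
      exact integral_add (i1.add i2) i3
    have e1 : ∀ p q : ℂ → ℝ, ∫ x in D, p x * q x = ∫ x in D, q x * p x := fun p q =>
      integral_congr_ae (Eventually.of_forall fun x => mul_comm _ _)
    rw [h4, e1 a u, e1 b g₁, e1 e g₂]
    exact h3
  refine ⟨u, g₁, g₂, ⟨Lp.memLp u, Lp.memLp g₁, Lp.memLp g₂, ?_, ?_, ?_⟩, hHq, ?_, ?_⟩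
  · intro φ hφt
    have hφc : ContinuousOn φ (closure D) := hφt.cont.continuousOn
    have hlc : ContinuousOn (lap φ) (closure D) := hφt.lap.cont.continuousOn
    have hgc : ContinuousOn (fun x => lap φ x + l * φ x) (closure D) := hlc.add (continuousOn_const.mul hφc)
    have hz2 : ∀ t, ∫ x in D, Z 2 x t * φ x = c ^ 2 * ∫ x in D, Z 0 x t * lap φ x := by
      intro t
      rw [← Sd3_pp hD (h.c2 0 t) hφt, ← integral_const_mul]
      exact setIntegral_congr_fun hm fun x hx => by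
        show Z 2 x t * φ x = c ^ 2 * (lap (fun y => Z 0 y t) x * φ x)
        rw [h.wave 0 x hx t]
        ring
    obtain ⟨B0, hB0⟩ := hbd φ (Sd3_mem hD hb hφc)
    obtain ⟨B1, hB1⟩ := hbd (lap φ) (Sd3_mem hD hb hlc)
    set B : ℝ := max B0 (c ^ 2 * B1) with hBd
    have hba : ∀ t, |∫ x in D, Z 0 x t * φ x| ≤ B := fun t => (hB0 t).trans (le_max_left _ _)
    have hba2 : ∀ t, |∫ x in D, Z 2 x t * φ x| ≤ B := by
      intro t
      rw [hz2, abs_mul, abs_of_nonneg (sq_nonneg c)]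
      exact (mul_le_mul_of_nonneg_left (hB1 t) (sq_nonneg c)).trans (le_max_right _ _)
    have hB00 : 0 ≤ B := (abs_nonneg _).trans (hba 0)
    have hba1 : ∀ t, |∫ x in D, Z 1 x t * φ x| ≤ 3 * B := fun t =>
      deriv_bound (hda 0 hφc) (hda 1 hφc) hba hba2 t
    set K : ℝ := max (3 * B) (max 1 μ) with hK
    have hlim := avg_ode (a := fun t => ∫ x in D, Z 0 x t * φ x) (a' := fun t => ∫ x in D, Z 1 x t * φ x)
      (a'' := fun t => ∫ x in D, Z 2 x t * φ x) (C := K) (hda 0 hφc) (hda 1 hφc) hw1 hw2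
      (continuous_iff_continuousAt.2 fun t => (hda 2 hφc t).continuousAt)
      (fun t => ((hba t).trans (by linarith)).trans (le_max_left _ _))
      (fun t => (hba1 t).trans (le_max_left _ _))
      (fun t => (hwb t).trans ((le_max_left _ _).trans (le_max_right _ _)))
      (fun t => (hwb' t).trans ((le_max_right _ _).trans (le_max_right _ _)))
    have hlim2 := hu (fun x => lap φ x + l * φ x) (Sd3_mem hD hb hgc)
    have heq : ∀ t, (∫ x in D, Z 2 x t * φ x) + μ ^ 2 * ∫ x in D, Z 0 x t * φ x =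
        c ^ 2 * ∫ x in D, Z 0 x t * (lap φ x + l * φ x) := by
      intro t
      rw [hz2, hμ2]
      have i1 : IntegrableOn (fun x => Z 0 x t * lap φ x) D := intOn hb ((slice (h.cont 0) t).mul hlc)
      have i2 : IntegrableOn (fun x => l * (Z 0 x t * φ x)) D :=
        intOn hb (continuousOn_const.mul ((slice (h.cont 0) t).mul hφc))
      have e1 : ∫ x in D, Z 0 x t * (lap φ x + l * φ x) =
          (∫ x in D, Z 0 x t * lap φ x) + ∫ x in D, l * (Z 0 x t * φ x) := by
        rw [← integral_add i1 i2]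
        refine integral_congr_ae (Eventually.of_forall fun x => ?_)
        simp only
        ring
      rw [e1, integral_const_mul]
      ring
    have hlim3 : Tendsto (fun T : ℝ => (1 / T) * ∫ t in (0 : ℝ)..T,
        ((∫ x in D, Z 2 x t * φ x) + μ ^ 2 * ∫ x in D, Z 0 x t * φ x) * w t) 𝒰
        (𝓝 (c ^ 2 * ∫ x in D, u x * (lap φ x + l * φ x))) := by
      have e1 := hlim2.const_mul (c ^ 2)
      refine e1.congr fun T => ?_
      simp only [heq]
      have e2 : ∀ t, c ^ 2 * (∫ x in D, Z 0 x t * (lap φ x + l * φ x)) * w t =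
          c ^ 2 * ((∫ x in D, Z 0 x t * (lap φ x + l * φ x)) * w t) := fun t => by ring
      simp only [e2, intervalIntegral.integral_const_mul]
      ring
    have hz : c ^ 2 * ∫ x in D, u x * (lap φ x + l * φ x) = 0 :=
      tendsto_nhds_unique hlim3 (hlim.mono_left h𝒰)
    exact (mul_eq_zero.1 hz).resolve_left (pow_pos hc 2).ne'
  · intro ψ hψ
    have h1 := hu (pd 1 ψ) (Sd3_mem hD hb (continuous_pd hψ 1).continuousOn)
    have h2 := (hg₁ ψ (Sd3_mem hD hb hψ.continuous.continuousOn)).neg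
    refine tendsto_nhds_unique h1 (h2.congr fun T => ?_)
    simp only [(hgt _ ψ hψ).1, neg_mul, intervalIntegral.integral_neg, mul_neg]
  · intro ψ hψ
    have h1 := hu (pd Complex.I ψ) (Sd3_mem hD hb (continuous_pd hψ Complex.I).continuousOn)
    have h2 := (hg₂ ψ (Sd3_mem hD hb hψ.continuous.continuousOn)).neg
    refine tendsto_nhds_unique h1 (h2.congr fun T => ?_)
    simp only [(hgt _ ψ hψ).2, neg_mul, intervalIntegral.integral_neg, mul_neg]
  · have h1 := hu φ₀ hφm
    rw [tendsto_nhds_unique h1 (hlimL.mono_left h𝒰)]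
    exact hL
  · intro ψ hψ h0
    have h1 := hu ψ hψ
    simp only [h0, zero_mul, intervalIntegral.integral_zero, mul_zero] at h1
    exact tendsto_nhds_unique h1 tendsto_const_nhds

end DrumL
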