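import Pool.Agent.Lib.MP_d92c84_anF.Wsd

/-!
# Time smoothing: smoothness in space
-/

set_option autoImplicit false

namespace DrumL

open MeasureTheory Set Filter Topology
open scoped ContDiff

/-- Smoothness in space of time averages. -/
theorem smk_contDiff {D : Set ℂ} (hD : IsOpen D) {z : ℂ → ℝ → ℝ} {n : ℕ}
    (hz : ContDiffOn ℝ n (fun q : ℂ × ℝ => z q.1 q.2) (D ×ˢ univ)) {k : ℝ → ℝ} (hk : Continuous k)
    (hs : HasCompactSupport k) (t : ℝ) : ContDiffOn ℝ n (fun x => ∫ s, k s * z x (t - s)) D := by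
  obtain ⟨A, hA⟩ := hs.isBounded.subset_closedBall (0 : ℝ)
  set R : ℝ := max A 0 + 1 with hR
  have hR0 : 0 < R := by
    have := le_max_right A 0
    rw [hR]
    linarith
  let χ : ContDiffBump t := ⟨R, R + 1, hR0, lt_add_one R⟩
  set g : ℂ → ℝ → ℝ := fun x s => χ s * z x s with hg
  have hgz : ∀ p : ℂ, ∀ x : ℝ, p ∈ D → x ∉ Metric.closedBall t (R + 1) → g p x = 0 := by
    intro p x _ hx
    have h1 : χ.rOut ≤ dist x t := by
      rw [Metric.mem_closedBall, not_le] at hx
      exact hx.le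
    rw [hg]
    show χ x * z p x = 0
    rw [χ.zero_of_le_dist h1, zero_mul]
  have hgc : ContDiffOn ℝ ((n : ℕ∞) : WithTop ℕ∞) (Function.HasUncurry.uncurry g) (D ×ˢ univ) := by
    have h1 : ContDiffOn ℝ ((n : ℕ∞) : WithTop ℕ∞) (fun q : ℂ × ℝ => χ q.2) (D ×ˢ univ) :=
      (χ.contDiff.comp contDiff_snd).contDiffOn
    exact h1.mul hz
  have hmain := contDiffOn_convolution_right_with_param (μ := volume) (f := k) (n := (n : ℕ∞))
    (ContinuousLinearMap.mul ℝ ℝ) hD (isCompact_closedBall t (R + 1)) hgz hk.locallyIntegrable hgc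
  have h2 : ContDiffOn ℝ ((n : ℕ∞) : WithTop ℕ∞) (fun x : ℂ => (x, t)) D :=
    (contDiff_id.prodMk contDiff_const).contDiffOn
  have h3 := hmain.comp h2 (fun x hx => ⟨hx, mem_univ _⟩)
  refine h3.congr fun x _ => ?_
  show (∫ s, k s * z x (t - s)) = ∫ s, k s * (χ (t - s) * z x (t - s))
  refine integral_congr_ae (Filter.Eventually.of_forall fun s => ?_)
  show k s * z x (t - s) = k s * (χ (t - s) * z x (t - s))
  by_cases hks : k s = 0
  · rw [hks, zero_mul, zero_mul]
  · have h4 : s ∈ Metric.closedBall (0 : ℝ) A := hA (subset_tsupport k hks)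
    have h5 : t - s ∈ Metric.closedBall t χ.rIn := by
      rw [Metric.mem_closedBall, dist_zero_right] at h4
      rw [Metric.mem_closedBall, dist_eq_norm]
      have h6 : t - s - t = -s := by ring
      rw [h6, norm_neg]
      have := le_max_left A 0
      show ‖s‖ ≤ R
      linarith
    rw [χ.one_of_mem_closedBall h5, one_mul]

end DrumL
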