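import Pool.Agent.Lib.MP_d92c84_anF.Wsd

/-!
# Time smoothing: spatial derivatives
-/

set_option autoImplicit false

namespace DrumL

open MeasureTheory Set Filter Topology
open scoped ContDiff

private theorem Smd_slice {D : Set ℂ} (hD : IsOpen D) {z : ℂ → ℝ → ℝ}
    (hz : DifferentiableOn ℝ (fun q : ℂ × ℝ => z q.1 q.2) (D ×ˢ univ)) {x : ℂ} (hx : x ∈ D) (t : ℝ) :
    HasFDerivAt (fun y => z y t)
      ((fderiv ℝ (fun q : ℂ × ℝ => z q.1 q.2) (x, t)).comp (ContinuousLinearMap.inl ℝ ℂ ℝ)) x := by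
  have h1 : HasFDerivAt (fun q : ℂ × ℝ => z q.1 q.2)
      (fderiv ℝ (fun q : ℂ × ℝ => z q.1 q.2) (x, t)) (x, t) :=
    (hz.differentiableAt ((hD.prod isOpen_univ).mem_nhds ⟨hx, mem_univ t⟩)).hasFDerivAt
  have h2 : HasFDerivAt (fun y : ℂ => (y, t)) (ContinuousLinearMap.inl ℝ ℂ ℝ) x :=
    hasFDerivAt_prodMk_left x t
  exact h1.comp x h2

private theorem Smd_pd {D : Set ℂ} (hD : IsOpen D) {z : ℂ → ℝ → ℝ}
    (hz : DifferentiableOn ℝ (fun q : ℂ × ℝ => z q.1 q.2) (D ×ˢ univ)) {x : ℂ} (hx : x ∈ D) (t : ℝ)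
    (v : ℂ) : pd v (fun y => z y t) x = fderiv ℝ (fun q : ℂ × ℝ => z q.1 q.2) (x, t) (v, 0) := by
  unfold pd
  rw [(Smd_slice hD hz hx t).fderiv]
  rfl

/-- Differentiation in space under the integral sign. -/
theorem smk_pd {D : Set ℂ} (hD : IsOpen D) {z : ℂ → ℝ → ℝ}
    (hz : ContDiffOn ℝ 1 (fun q : ℂ × ℝ => z q.1 q.2) (D ×ˢ univ)) {k : ℝ → ℝ} (hk : Continuous k)
    (hs : HasCompactSupport k) (t : ℝ) (v : ℂ) {x : ℂ} (hx : x ∈ D) :
    pd v (fun x => ∫ s, k s * z x (t - s)) x = ∫ s, k s * pd v (fun y => z y (t - s)) x := by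
  have hO : IsOpen (D ×ˢ (univ : Set ℝ)) := hD.prod isOpen_univ
  have hd : DifferentiableOn ℝ (fun q : ℂ × ℝ => z q.1 q.2) (D ×ˢ univ) :=
    hz.differentiableOn (by norm_num)
  have hfc : ContinuousOn (fderiv ℝ (fun q : ℂ × ℝ => z q.1 q.2)) (D ×ˢ univ) :=
    hz.continuousOn_fderiv_of_isOpen hO (by norm_num)
  -- continuity of the slices
  have hc0 : ∀ y ∈ D, Continuous fun s => z y (t - s) := by
    intro y hy
    have h1 : Continuous fun s : ℝ => ((y, t - s) : ℂ × ℝ) := by fun_prop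
    exact hd.continuousOn.comp_continuous h1 fun s => ⟨hy, mem_univ _⟩
  have hc1 : Continuous fun s => fderiv ℝ (fun q : ℂ × ℝ => z q.1 q.2) (x, t - s) := by
    have h1 : Continuous fun s : ℝ => ((x, t - s) : ℂ × ℝ) := by fun_prop
    exact hfc.comp_continuous h1 fun s => ⟨hx, mem_univ _⟩
  set F' : ℂ → ℝ → (ℂ →L[ℝ] ℝ) := fun y s =>
    k s • (fderiv ℝ (fun q : ℂ × ℝ => z q.1 q.2) (y, t - s)).comp (ContinuousLinearMap.inl ℝ ℂ ℝ)
    with hF'
  have hF'c : Continuous (F' x) := by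
    have h1 : Continuous fun s => (fderiv ℝ (fun q : ℂ × ℝ => z q.1 q.2) (x, t - s)).comp
        (ContinuousLinearMap.inl ℝ ℂ ℝ) := hc1.clm_comp continuous_const
    exact hk.smul h1
  have hF's : HasCompactSupport (F' x) := by
    refine hs.mono fun s hs' => ?_
    rw [Function.mem_support] at hs' ⊢
    intro h0
    apply hs'
    show k s • _ = 0
    rw [h0, zero_smul]
  -- a closed ball in `D`
  obtain ⟨r, hr, hrD⟩ := Metric.nhds_basis_closedBall.mem_iff.1 (hD.mem_nhds hx)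
  have hcomp : IsCompact (Metric.closedBall x r ×ˢ ((fun s => t - s) '' tsupport k)) :=
    (isCompact_closedBall x r).prod (hs.isCompact.image (by fun_prop))
  obtain ⟨C, hC⟩ := hcomp.exists_bound_of_continuousOn
    (f := fderiv ℝ (fun q : ℂ × ℝ => z q.1 q.2))
    (hfc.mono (prod_mono hrD (subset_univ _)))
  have key : HasFDerivAt (fun y => ∫ s, k s * z y (t - s)) (∫ s, F' x s) x := by
    refine hasFDerivAt_integral_of_dominated_of_fderiv_le
      (F := fun y s => k s * z y (t - s)) (F' := F')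
      (bound := fun s => |k s| * (C * ‖ContinuousLinearMap.inl ℝ ℂ ℝ‖))
      (Metric.closedBall_mem_nhds x hr) ?_ ?_ ?_ ?_ ?_ ?_
    · filter_upwards [hD.mem_nhds hx] with y hy
      exact (hk.mul (hc0 y hy)).aestronglyMeasurable
    · exact (hk.mul (hc0 x hx)).integrable_of_hasCompactSupport hs.mul_right
    · exact hF'c.aestronglyMeasurable
    · refine Filter.Eventually.of_forall fun s y hy => ?_
      show ‖k s • _‖ ≤ _
      rw [norm_smul, Real.norm_eq_abs]
      by_cases hks : k s = 0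
      · rw [hks, abs_zero, zero_mul, zero_mul]
      · refine mul_le_mul_of_nonneg_left ?_ (abs_nonneg _)
        have h1 : ((y, t - s) : ℂ × ℝ) ∈
            Metric.closedBall x r ×ˢ ((fun s => t - s) '' tsupport k) :=
          ⟨hy, s, subset_tsupport k hks, rfl⟩
        exact (ContinuousLinearMap.opNorm_comp_le _ _).trans
          (mul_le_mul_of_nonneg_right (hC _ h1) (norm_nonneg _))
    · exact (hk.abs.mul continuous_const).integrable_of_hasCompactSupport
        (HasCompactSupport.mul_right (hs.comp_left (g := fun u : ℝ => |u|) abs_zero))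
    · refine Filter.Eventually.of_forall fun s y hy => ?_
      exact (Smd_slice hD hd (hrD hy) (t - s)).const_smul (k s)
  show fderiv ℝ (fun x => ∫ s, k s * z x (t - s)) x v = _
  rw [key.fderiv, ContinuousLinearMap.integral_apply
    (hF'c.integrable_of_hasCompactSupport hF's)]
  refine integral_congr_ae (Filter.Eventually.of_forall fun s => ?_)
  show k s • _ = k s * _
  rw [Smd_pd hD hd hx, smul_eq_mul]
  rfl

/-- The spatial derivative of a `C^(n+1)` function of space and time is `C^n` in space and time. -/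
theorem contDiffOn_pd_slice {D : Set ℂ} (hD : IsOpen D) {z : ℂ → ℝ → ℝ} {n : ℕ}
    (hz : ContDiffOn ℝ (n + 1 : ℕ) (fun q : ℂ × ℝ => z q.1 q.2) (D ×ˢ univ)) (v : ℂ) :
    ContDiffOn ℝ n (fun q : ℂ × ℝ => pd v (fun y => z y q.2) q.1) (D ×ˢ univ) := by
  have hO : IsOpen (D ×ˢ (univ : Set ℝ)) := hD.prod isOpen_univ
  have hd : DifferentiableOn ℝ (fun q : ℂ × ℝ => z q.1 q.2) (D ×ˢ univ) :=
    hz.differentiableOn (by simp)
  have h1 : ContDiffOn ℝ n (fun q : ℂ × ℝ =>
      fderiv ℝ (fun q : ℂ × ℝ => z q.1 q.2) q ((v, 0) : ℂ × ℝ)) (D ×ˢ univ) :=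
    (hz.fderiv_of_isOpen hO (by push_cast; exact le_rfl)).clm_apply contDiffOn_const
  refine h1.congr fun q hq => ?_
  exact Smd_pd hD hd hq.1 q.2 v

end DrumL
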