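import Pool.Agent.Lib.MP_d92c84_anF.Sma
import Pool.Agent.Lib.MP_d92c84_anF.Smc
import Pool.Agent.Lib.MP_d92c84_anF.Smd

/-!
# The time smoothing of a drum solution
-/

set_option autoImplicit false

namespace DrumL

open MeasureTheory Set Filter Topology
open scoped ContDiff

/-- Derivatives of the kernel: smooth. -/
private theorem Sme_smooth {η : ℝ → ℝ} (hη : ContDiff ℝ ∞ η) (k : ℕ) : ContDiff ℝ ∞ (iteratedDeriv k η) := by
  induction k with
  | zero => simpa using hη
  | succ k ih =>
    rw [iteratedDeriv_succ]
    exact (contDiff_infty_iff_deriv.1 ih).2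

/-- Derivatives of the kernel: compact support. -/
private theorem Sme_comp {η : ℝ → ℝ} (hs : HasCompactSupport η) (k : ℕ) : HasCompactSupport (iteratedDeriv k η) := by
  induction k with
  | zero => simpa using hs
  | succ k ih =>
    rw [iteratedDeriv_succ]
    exact ih.deriv

/-- Integration by parts in time. -/
private theorem Sme_ibp {κ b : ℝ → ℝ} (hκ : ContDiff ℝ ∞ κ) (hs : HasCompactSupport κ) (hb : ContDiff ℝ 1 b) (t : ℝ) :
    ∫ s, κ s * deriv b (t - s) = ∫ s, deriv κ s * b (t - s) := by
  have hb0 : Continuous b := hb.continuous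
  have hb1 : Continuous (deriv b) := hb.continuous_deriv le_rfl
  have hκ1 : ContDiff ℝ 1 κ := hκ.of_le (by exact_mod_cast le_top)
  have hsub : Continuous fun s : ℝ => t - s := continuous_const.sub continuous_id
  have h := integral_mul_deriv_eq_deriv_mul_of_integrable (u := κ) (u' := deriv κ) (v := fun s => -b (t - s))
    (v' := fun s => deriv b (t - s)) (fun x _ => (hκ1.differentiable one_ne_zero x).hasDerivAt) (fun x _ => ?_) ?_ ?_ ?_
  · rw [h, ← integral_neg]
    refine integral_congr_ae (Eventually.of_forall fun s => ?_)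
    simp
  · have h1 : HasDerivAt (fun s : ℝ => t - s) (-1) x := by
      simpa using (hasDerivAt_id x).const_sub t
    have h2 : HasDerivAt b (deriv b (t - x)) (t - x) := (hb.differentiable one_ne_zero _).hasDerivAt
    have h3 := (h2.comp x h1).neg
    rw [mul_neg_one, neg_neg] at h3
    exact h3
  · exact (hκ1.continuous.mul (hb1.comp hsub)).integrable_of_hasCompactSupport hs.mul_right
  · exact ((hκ1.continuous_deriv le_rfl).mul (hb0.comp hsub).neg).integrable_of_hasCompactSupport hs.deriv.mul_right
  · exact (hκ1.continuous.mul (hb0.comp hsub).neg).integrable_of_hasCompactSupport hs.mul_right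

/-- The time smoothing of a drum solution is a family of solutions. -/
theorem ws_sm {c : ℝ} {D : Set ℂ} (hD : IsOpen D) (hb : Bornology.IsBounded D) {z : ℂ → ℝ → ℝ} {G : ℂ → ℝ → ℂ}
    (h : Dz c D z G) {η : ℝ → ℝ} (hη : ContDiff ℝ ∞ η) (hs : HasCompactSupport η) :
    WS c D (fun k => sm η k z) (fun k => sm η k G) := by
  have hk : ∀ k, ContDiff ℝ ∞ (iteratedDeriv k η) := Sme_smooth hη
  have hkc : ∀ k, Continuous (iteratedDeriv k η) := fun k => (hk k).continuous
  have hks : ∀ k, HasCompactSupport (iteratedDeriv k η) := Sme_comp hs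
  have hsl : ∀ x ∈ closure D, Continuous (z x) := by
    intro x hx
    rw [← continuousOn_univ]
    exact h.cont.comp (f := fun t : ℝ => ((x, t) : ℂ × ℝ)) (continuous_const.prodMk continuous_id).continuousOn fun t _ => ⟨hx, mem_univ _⟩
  have hslG : ∀ x ∈ closure D, Continuous (G x) := by
    intro x hx
    rw [← continuousOn_univ]
    exact h.contG.comp (f := fun t : ℝ => ((x, t) : ℂ × ℝ)) (continuous_const.prodMk continuous_id).continuousOn fun t _ => ⟨hx, mem_univ _⟩
  have hsub : ∀ t : ℝ, Continuous fun s : ℝ => t - s := fun t => continuous_const.sub continuous_id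
  have hz1 : ContDiffOn ℝ 1 (fun q : ℂ × ℝ => z q.1 q.2) (D ×ˢ univ) := h.c2.of_le one_le_two
  have hpd : ∀ k v x, x ∈ D → ∀ t, pd v (fun y => sm η k z y t) x = ∫ s, iteratedDeriv k η s * pd v (fun y => z y (t - s)) x := by
    intro k v x hx t
    exact smk_pd hD hz1 (hkc k) (hks k) t v hx
  have hsl1 : ∀ v, ContDiffOn ℝ 1 (fun q : ℂ × ℝ => pd v (fun y => z y q.2) q.1) (D ×ˢ univ) := by
    intro v
    have h1 := contDiffOn_pd_slice hD (z := z) (n := 1) (by exact_mod_cast h.c2) v
    exact_mod_cast h1
  have hsl0 : ∀ v, ContinuousOn (fun q : ℂ × ℝ => pd v (fun y => pd v (fun y' => z y' q.2) y) q.1) (D ×ˢ univ) := by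
    intro v
    have h1 := contDiffOn_pd_slice hD (z := fun y t => pd v (fun y' => z y' t) y) (n := 0) (by simpa using hsl1 v) v
    exact h1.continuousOn
  have hpd2 : ∀ k v x, x ∈ D → ∀ t, pd v (pd v (fun y => sm η k z y t)) x =
      ∫ s, iteratedDeriv k η s * pd v (pd v (fun y => z y (t - s))) x := by
    intro k v x hx t
    have h1 : pd v (fun y => sm η k z y t) =ᶠ[𝓝 x] fun y => ∫ s, iteratedDeriv k η s * pd v (fun y' => z y' (t - s)) y := by
      filter_upwards [hD.mem_nhds hx] with y hy
      exact hpd k v y hy t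
    have h2 : pd v (pd v (fun y => sm η k z y t)) x = pd v (fun y => ∫ s, iteratedDeriv k η s * pd v (fun y' => z y' (t - s)) y) x := by
      show fderiv ℝ _ x v = fderiv ℝ _ x v
      rw [h1.fderiv_eq]
    rw [h2]
    exact smk_pd hD (z := fun y t => pd v (fun y' => z y' t) y) (hsl1 v) (hkc k) (hks k) t v hx
  refine ⟨fun k => sm_cont hb h.cont hη hs k, fun k => sm_cont hb h.contG hη hs k, fun k t => ?_, fun k x hx t => ?_,
    fun k x hx t => sm_dt (hsl x hx) hη hs k t, fun k x hx t => sm_dt (hslG x hx) hη hs k t, fun k x hx t => ?_, fun k x hx t => ?_⟩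
  · exact smk_contDiff hD (n := 2) (by exact_mod_cast h.c2) (hkc k) (hks k) t
  · have hint : Integrable fun s => iteratedDeriv k η s • G x (t - s) :=
      ((hkc k).smul ((hslG x (subset_closure hx)).comp (hsub t))).integrable_of_hasCompactSupport (hks k).smul_right
    constructor
    · rw [hpd k 1 x hx t]
      have h1 : (sm η k G x t).re = ∫ s, (iteratedDeriv k η s • G x (t - s)).re :=
        (Complex.reCLM.integral_comp_comm hint).symm
      rw [h1]
      refine integral_congr_ae (Eventually.of_forall fun s => ?_)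
      simp only
      rw [(h.grad x hx (t - s)).1, Complex.smul_re, smul_eq_mul]
    · rw [hpd k Complex.I x hx t]
      have h1 : (sm η k G x t).im = ∫ s, (iteratedDeriv k η s • G x (t - s)).im :=
        (Complex.imCLM.integral_comp_comm hint).symm
      rw [h1]
      refine integral_congr_ae (Eventually.of_forall fun s => ?_)
      simp only
      rw [(h.grad x hx (t - s)).2, Complex.smul_im, smul_eq_mul]
  · -- the wave equation
    have hb2 : ContDiff ℝ 2 (z x) := by
      rw [← contDiffOn_univ]
      exact h.c2.comp (f := fun t : ℝ => ((x, t) : ℂ × ℝ)) (contDiff_const.prodMk contDiff_id).contDiffOn fun t _ => ⟨hx, mem_univ _⟩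
    have hb1 : ContDiff ℝ 1 (deriv (z x)) := by
      have h1 : ContDiff ℝ (1 + 1) (z x) := by
        rw [one_add_one_eq_two]
        exact hb2
      exact (contDiff_succ_iff_deriv.1 h1).2.2
    have hint : ∀ v, Integrable fun s => iteratedDeriv k η s * pd v (pd v (fun y => z y (t - s))) x := by
      intro v
      have h1 : Continuous fun τ : ℝ => pd v (pd v (fun y => z y τ)) x := by
        rw [← continuousOn_univ]
        exact (hsl0 v).comp (f := fun t : ℝ => ((x, t) : ℂ × ℝ)) (continuous_const.prodMk continuous_id).continuousOn fun t _ => ⟨hx, mem_univ _⟩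
      exact ((hkc k).mul (h1.comp (hsub t))).integrable_of_hasCompactSupport (hks k).mul_right
    have h1 : lap (fun y => sm η k z y t) x = ∫ s, iteratedDeriv k η s * lap (fun y => z y (t - s)) x := by
      show pd 1 (pd 1 (fun y => sm η k z y t)) x + pd Complex.I (pd Complex.I (fun y => sm η k z y t)) x = _
      rw [hpd2 k 1 x hx t, hpd2 k Complex.I x hx t, ← integral_add (hint 1) (hint Complex.I)]
      refine integral_congr_ae (Eventually.of_forall fun s => ?_)
      show _ = iteratedDeriv k η s * (pd 1 (pd 1 (fun y => z y (t - s))) x + pd Complex.I (pd Complex.I (fun y => z y (t - s))) x)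
      ring
    have h2 : c ^ 2 * lap (fun y => sm η k z y t) x = ∫ s, iteratedDeriv k η s * deriv (deriv (z x)) (t - s) := by
      rw [h1, ← integral_const_mul]
      refine integral_congr_ae (Eventually.of_forall fun s => ?_)
      simp only
      rw [h.wave x hx (t - s)]
      ring
    show sm η (k + 2) z x t = _
    rw [h2, Sme_ibp (hk k) (hks k) hb1 t]
    have h3 : deriv (iteratedDeriv k η) = iteratedDeriv (k + 1) η := (iteratedDeriv_succ).symm
    rw [h3, Sme_ibp (hk (k + 1)) (hks (k + 1)) (hb2.of_le one_le_two) t]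
    have h4 : deriv (iteratedDeriv (k + 1) η) = iteratedDeriv (k + 2) η := (iteratedDeriv_succ).symm
    rw [h4]
    rfl
  · show ∫ s, iteratedDeriv k η s • z x (t - s) = 0
    have h1 : ∀ s, iteratedDeriv k η s • z x (t - s) = 0 := fun s => by rw [h.bdry x hx (t - s), smul_zero]
    exact (integral_congr_ae (Eventually.of_forall h1)).trans (integral_zero _ _)

end DrumL
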