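import Pool.Agent.Lib.MP_d92c84_anF.Smb
import Pool.Agent.Lib.MP_d92c84_anF.Sme
import Pool.Agent.Lib.MP_d92c84_anF.Cfb
import Pool.Agent.Lib.MP_d92c84_anF.Sd3
import Pool.Agent.Lib.MP_d92c84_anF.Rgb
import Pool.Agent.Lib.MP_d92c84_anF.Rgc
import Pool.Agent.Lib.MP_d92c84_anF.Rgd
import Pool.Agent.Lib.MP_d92c84_anF.Mdz
import Pool.Agent.Lib.MP_d92c84_anF.Pdb

/-!
# The eigenfunction extracted from a drum solution is in the closure of the test functions
-/

set_option autoImplicit false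

namespace DrumL

open MeasureTheory Set Filter Topology
open scoped ContDiff Real

/-- A real linear map on the plane which vanishes at `1` and `I` is zero. -/
private theorem Fn3_lin {L : ℂ →L[ℝ] ℝ} (h1 : L 1 = 0) (h2 : L Complex.I = 0) : L = 0 := by
  ext w
  have h3 : w = w.re • (1 : ℂ) + w.im • Complex.I := by
    rw [Complex.real_smul, Complex.real_smul, mul_one]
    exact (Complex.re_add_im w).symm
  have h4 : L w = L (w.re • (1 : ℂ) + w.im • Complex.I) := congrArg L h3
  rw [h4, map_add, map_smul, map_smul, h1, h2, smul_zero, smul_zero, add_zero]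
  rfl

/-- A point of the circle is in the ball. -/
private theorem Fn3_circ {x : ℂ} {r δ : ℝ} (hr : r ∈ Ioo 0 δ) (θ : ℝ) : x + r * cis θ ∈ Metric.ball x δ := by
  rw [Metric.mem_ball, dist_eq_norm, add_sub_cancel_left, norm_mul]
  have h1 : ‖cis θ‖ = 1 := by
    unfold cis
    exact Complex.norm_exp_ofReal_mul_I θ
  rw [h1, mul_one, Complex.norm_real, Real.norm_eq_abs, abs_of_pos hr.1]
  exact hr.2

/-- The derivative of the bump function as a function of the other variable. -/
private theorem Fn3_psi {δ : ℝ} (hδ : 0 < δ) (x w : ℂ) :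
    Continuous (fun y => pd w (bmp δ) (x - y)) ∧ HasCompactSupport (fun y => pd w (bmp δ) (x - y)) := by
  have hc : Continuous (pd w (bmp δ)) := continuous_pd ((contDiff_bmp δ).of_le (by simp)) w
  have hs : HasCompactSupport (pd w (bmp δ)) := compact_pd (compact_bmp hδ.le) w
  refine ⟨hc.comp (continuous_const.sub continuous_id), ?_⟩
  exact hs.comp_homeomorph (Homeomorph.subLeft x)

/-- The pairing of a drum solution with the derivative of a bump function about a critical point. -/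
private theorem Fn3_kill {c : ℝ} {D : Set ℂ} (hD : IsOpen D) (hc : 0 < c) {z : ℂ → ℝ → ℝ}
    {G : ℂ → ℝ → ℂ} (h : Dz c D z G) {x : ℂ} {δ : ℝ} (hδ : 0 < δ) (hx : Metric.closedBall x δ ⊆ D)
    (hG : ∀ t, G x t = 0) (w : ℂ) (t : ℝ) : ∫ y in D, z y t * pd w (bmp δ) (x - y) = 0 := by
  have hball : Metric.ball x δ ⊆ D := Metric.ball_subset_closedBall.trans hx
  have hW : Continuous (indicator D (fun y => z y t)) :=
    zero_ext hD (slice h.cont t) (fun y hy => h.bdry y hy t)
  have hmd : ∀ r ∈ Ioo 0 δ, md 1 x (indicator D (fun y => z y t)) r = 0 := by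
    intro r hr
    rw [← mode_one hD hc h hδ hball hG hr t]
    unfold md
    apply intervalIntegral.integral_congr
    intro θ _
    have h1 : x + r * cis θ ∈ D := hball (Fn3_circ hr θ)
    simp only [indicator_of_mem h1]
  have h2 := kill_bmp hδ hW hmd w
  rw [← integral_indicator hD.measurableSet, ← h2]
  congr 1
  funext y
  by_cases hy : y ∈ D
  · rw [indicator_of_mem hy, indicator_of_mem hy]
  · rw [indicator_of_notMem hy, indicator_of_notMem hy, zero_mul]

/-- The eigenfunction extracted from a drum solution. -/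
theorem extract3 {c : ℝ} {D : Set ℂ} (hD : IsOpen D) (hb : Bornology.IsBounded D) (hc : 0 < c) {z : ℂ → ℝ → ℝ}
    {G : ℂ → ℝ → ℂ} (h : Dz c D z G) {l : ℝ} {φ : ℂ → ℝ} (hφc : ContinuousOn φ (closure D)) (hφ : ContDiffOn ℝ 2 φ D)
    (hφ0 : ∀ x ∈ frontier D, φ x = 0) (he : ∀ x ∈ D, lap φ x = -l * φ x) {t₀ : ℝ}
    (hne : ∫ x in D, z x t₀ * φ x ≠ 0) :
    0 < l ∧ ∃ v : ℂ → ℝ, Hz l D v ∧ (∃ x ∈ D, v x ≠ 0) ∧ Hq D v (pd 1 v) (pd Complex.I v) ∧ IntegrableOn v D ∧
      IntegrableOn (pd 1 v) D ∧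
      IntegrableOn (pd Complex.I v) D ∧
      (∀ ψ : ℂ → ℝ, ContDiff ℝ 1 ψ → ∫ x in D, v x * pd 1 ψ x = -∫ x in D, pd 1 v x * ψ x) ∧
      (∀ ψ : ℂ → ℝ, ContDiff ℝ 1 ψ → ∫ x in D, v x * pd Complex.I ψ x = -∫ x in D, pd Complex.I v x * ψ x) ∧
      ∀ x ∈ D, (∀ t, G x t = 0) → fderiv ℝ v x = 0 := by
  have hφD : IntegrableOn φ D := intOn hb hφc
  have hfin : IsFiniteMeasure (volume.restrict D) := ⟨by
    rw [Measure.restrict_apply_univ]
    exact hb.measure_lt_top⟩
  -- the kernel
  have hac : Continuous (fun t => ∫ x in D, z x t * φ x) :=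
    (sm_pair hD hb h.cont (η := fun _ => (0 : ℝ)) contDiff_const HasCompactSupport.zero hφD).1
  obtain ⟨η, hη, hs, hη0⟩ := exists_kernel hac hne
  have hWS := ws_sm hD hb h hη hs
  have hne' : ∫ x in D, (fun k => sm η k z) 0 x t₀ * φ x ≠ 0 := by
    have h1 := (sm_pair hD hb h.cont hη hs hφD).2 t₀
    rw [← h1] at hη0
    exact hη0
  obtain ⟨x₀, hx₀, hx₀'⟩ : ∃ x ∈ D, φ x ≠ 0 := by
    by_contra hcon
    push Not at hcon
    apply hne
    rw [setIntegral_congr_fun hD.measurableSet (g := fun _ => (0 : ℝ))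
      (fun x hx => by simp only [hcon x hx, mul_zero])]
    simp
  have hl : 0 < l := eig_pos hD hb hφc hφ hφ0 he hx₀ hx₀'
  obtain ⟨u, g₁, g₂, hSD, hHq, hu0, hlast⟩ := exists_SD3 hD hb hc hWS hl hφc
    (fun t => hWS.coef hD hb hc hφc hφ hφ0 he t) hne'
  have hu : IntegrableOn u D := hSD.mem.integrable one_le_two
  have hg₁ : IntegrableOn g₁ D := hSD.mem₁.integrable one_le_two
  have hg₂ : IntegrableOn g₂ D := hSD.mem₂.integrable one_le_two
  obtain ⟨v, hv, hrep⟩ := reg_rep hD hl hu hSD.weak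
  have hae := reg_ae hD hl hu hv hrep
  have hae₁ := grad_ae hD hg₁ hv.smooth hae hSD.ibp₁
  have hae₂ := grad_ae hD hg₂ hv.smooth hae hSD.ibp₂
  refine ⟨hl, v, hv, ?_, hHq.congr_ae hae hae₁ hae₂, hu.congr hae, hg₁.congr hae₁, hg₂.congr hae₂, ?_, ?_, ?_⟩
  · by_contra hcon
    push Not at hcon
    apply hu0
    have h1 : ∫ x in D, u x * φ x = ∫ x in D, v x * φ x :=
      integral_congr_ae (hae.mono fun x hx => by simp only [hx])
    rw [h1, setIntegral_congr_fun hD.measurableSet (g := fun _ => (0 : ℝ))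
      (fun x hx => by simp only [hcon x hx, zero_mul])]
    simp
  · intro ψ hψ
    have h1 : ∫ x in D, v x * pd 1 ψ x = ∫ x in D, u x * pd 1 ψ x :=
      integral_congr_ae (hae.mono fun x hx => by simp only [hx])
    have h2 : ∫ x in D, pd 1 v x * ψ x = ∫ x in D, g₁ x * ψ x :=
      integral_congr_ae (hae₁.mono fun x hx => by simp only [hx])
    rw [h1, h2]
    exact hSD.ibp₁ ψ hψ
  · intro ψ hψ
    have h1 : ∫ x in D, v x * pd Complex.I ψ x = ∫ x in D, u x * pd Complex.I ψ x :=
      integral_congr_ae (hae.mono fun x hx => by simp only [hx])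
    have h2 : ∫ x in D, pd Complex.I v x * ψ x = ∫ x in D, g₂ x * ψ x :=
      integral_congr_ae (hae₂.mono fun x hx => by simp only [hx])
    rw [h1, h2]
    exact hSD.ibp₂ ψ hψ
  · intro x hx hG
    obtain ⟨ε, hε, hεD⟩ := Metric.isOpen_iff.1 hD x hx
    have hsl : 0 < √l := Real.sqrt_pos.2 hl
    have hδ : 0 < min (ε / 2) (1 / √l) := lt_min (by linarith) (by positivity)
    have hlδ : √l * min (ε / 2) (1 / √l) ≤ 1 := by
      have h1 : √l * min (ε / 2) (1 / √l) ≤ √l * (1 / √l) :=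
        mul_le_mul_of_nonneg_left (min_le_right _ _) hsl.le
      rwa [mul_one_div_cancel hsl.ne'] at h1
    have hxD : Metric.closedBall x (min (ε / 2) (1 / √l)) ⊆ D := by
      refine (Metric.closedBall_subset_ball ?_).trans hεD
      exact lt_of_le_of_lt (min_le_left _ _) (by linarith)
    generalize min (ε / 2) (1 / √l) = δ at hδ hlδ hxD
    have hpd : ∀ w : ℂ, pd w v x = 0 := by
      intro w
      obtain ⟨hψc, hψs⟩ := Fn3_psi hδ x w
      have hψD : IntegrableOn (fun y => pd w (bmp δ) (x - y)) D := intOn hb hψc.continuousOn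
      have hψ2 : MemLp (fun y => pd w (bmp δ) (x - y)) 2 (volume.restrict D) :=
        (hψc.memLp_of_hasCompactSupport hψs).restrict D
      have h0 := hlast _ hψ2 (by
        intro t
        have h1 := (sm_pair hD hb h.cont hη hs hψD).2 t
        have h2 : ∫ s, η s * ∫ y in D, z y (t - s) * pd w (bmp δ) (x - y) = 0 := by
          have h3 : ∀ s, ∫ y in D, z y (t - s) * pd w (bmp δ) (x - y) = 0 := fun s =>
            Fn3_kill hD hc h hδ hxD hG w (t - s)
          simp only [h3, mul_zero, integral_zero]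
        exact h1.trans h2)
      exact grad_rep hD hu hv hrep hδ hlδ hxD h0
    exact Fn3_lin (hpd 1) (hpd Complex.I)

end DrumL
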