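import Pool.Agent.Lib.MP_d92c84_anF.Par

/-!
# The Rellich identity when the gradient vanishes on the boundary
-/

set_option autoImplicit false

namespace DrumL

open MeasureTheory Set Filter Topology
open scoped ContDiff

/-- The mixed second derivatives agree. -/
private theorem Rel_symm {D : Set ℂ} (hD : IsOpen D) {v : ℂ → ℝ} (hv : ContDiffOn ℝ 2 v D) {x : ℂ} (hx : x ∈ D) :
    pd Complex.I (pd 1 v) x = pd 1 (pd Complex.I v) x := by
  have hc : ContDiffAt ℝ 2 v x := hv.contDiffAt (hD.mem_nhds hx)
  have hs : IsSymmSndFDerivAt ℝ v x := hc.isSymmSndFDerivAt (by simp)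
  have hd : DifferentiableAt ℝ (fderiv ℝ v) x :=
    (hc.fderiv_right (m := 1) (by norm_num)).differentiableAt (by norm_num)
  have key : ∀ a b : ℂ, pd a (pd b v) x = fderiv ℝ (fderiv ℝ v) x a b := by
    intro a b
    unfold pd
    rw [(hd.hasFDerivAt.clm_apply (hasFDerivAt_const b x)).fderiv]
    simp
  rw [key, key]
  exact hs _ _

/-- The coordinates. -/
private theorem Rel_re (x : ℂ) : DifferentiableAt ℝ (fun y : ℂ => y.re) x ∧ pd 1 (fun y : ℂ => y.re) x = 1 ∧
    pd Complex.I (fun y : ℂ => y.re) x = 0 := by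
  have h : HasFDerivAt (fun y : ℂ => y.re) Complex.reCLM x := Complex.reCLM.hasFDerivAt
  refine ⟨h.differentiableAt, ?_, ?_⟩ <;> unfold pd <;> rw [h.fderiv] <;> simp

private theorem Rel_im (x : ℂ) : DifferentiableAt ℝ (fun y : ℂ => y.im) x ∧ pd 1 (fun y : ℂ => y.im) x = 0 ∧
    pd Complex.I (fun y : ℂ => y.im) x = 1 := by
  have h : HasFDerivAt (fun y : ℂ => y.im) Complex.imCLM x := Complex.imCLM.hasFDerivAt
  refine ⟨h.differentiableAt, ?_, ?_⟩ <;> unfold pd <;> rw [h.fderiv] <;> simp

/-- The product of a continuous function with compact support in `D` and a function continuous on `D`. -/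
private theorem Rel_int {D : Set ℂ} (hD : IsOpen D) {a b : ℂ → ℝ} (ha : Continuous a) (hac : HasCompactSupport a)
    (haD : tsupport a ⊆ D) (hb : ContinuousOn b D) : IntegrableOn (fun x => a x * b x) D := by
  have h4 : ContDiff ℝ 0 fun x => a x * b x := mul_contDiff hD (contDiff_zero.2 ha) haD (contDiffOn_zero.2 hb)
  exact (h4.continuous.integrable_of_hasCompactSupport hac.mul_right).integrableOn

/-- The derivative of the cut-off vanishes on `[-1, 1]`. -/
private theorem Rel_dsg {s : ℝ} (h : |s| ≤ 1) : deriv sg s = 0 := by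
  have h1 : IsClosed {t : ℝ | deriv sg t = 0} :=
    isClosed_eq (contDiff_sg.continuous_deriv (by simp)) continuous_const
  have h2 : Ioo (-1 : ℝ) 1 ⊆ {t : ℝ | deriv sg t = 0} := by
    intro t ht
    have h3 : sg =ᶠ[𝓝 t] fun _ => 0 := by
      filter_upwards [isOpen_Ioo.mem_nhds ht] with y hy
      exact sg_zero (abs_le.2 ⟨hy.1.le, hy.2.le⟩)
    change deriv sg t = 0
    rw [h3.deriv_eq]
    simp
  have h3 := closure_minimal h2 h1
  rw [closure_Ioo (by norm_num)] at h3
  exact h3 (abs_le.1 h)

private theorem Rel_dsg_supp : HasCompactSupport (deriv sg) := by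
  refine HasCompactSupport.of_support_subset_isCompact (isCompact_Icc (a := (-2 : ℝ)) (b := 2)) ?_
  intro s hs
  by_contra h
  refine hs ?_
  have h1 : 2 < |s| := by
    rw [mem_Icc, ← abs_le, not_le] at h
    exact h
  have h3 : sg =ᶠ[𝓝 s] fun _ => 1 := by
    have h4 : ∀ᶠ y in 𝓝 s, 2 < |y| := (continuous_abs.tendsto s).eventually (lt_mem_nhds h1)
    filter_upwards [h4] with y hy
    refine sg_one ?_
    rw [← sq_abs]
    nlinarith
  rw [h3.deriv_eq]
  simp

private theorem Rel_hasDeriv (s : ℝ) : HasDerivAt sg (deriv sg s) s :=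
  (contDiff_sg.differentiable (by simp) s).hasDerivAt

private theorem Rel_hasDeriv_div {ε : ℝ} (s : ℝ) : HasDerivAt (fun s => sg (s / ε)) (deriv sg (s / ε) / ε) s := by
  have h1 := (Rel_hasDeriv (s / ε)).comp s ((hasDerivAt_id s).div_const ε)
  refine h1.congr_deriv ?_
  ring

/-- The primitive of the absolute value of the derivative of the cut-off. -/
private noncomputable def Rel_Th (s : ℝ) : ℝ := ∫ t in (0 : ℝ)..s, |deriv sg t|

private theorem Rel_cont : Continuous fun t => |deriv sg t| := (contDiff_sg.continuous_deriv (by simp)).abs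

private theorem Rel_Th_deriv (s : ℝ) : HasDerivAt Rel_Th |deriv sg s| s := by
  unfold Rel_Th
  exact intervalIntegral.integral_hasDerivAt_right (Rel_cont.intervalIntegrable _ _)
    (Rel_cont.stronglyMeasurableAtFilter _ _) Rel_cont.continuousAt

private theorem Rel_Th_contDiff : ContDiff ℝ 1 Rel_Th := by
  rw [contDiff_one_iff_deriv]
  refine ⟨fun s => (Rel_Th_deriv s).differentiableAt, ?_⟩
  have h : deriv Rel_Th = fun s => |deriv sg s| := funext fun s => (Rel_Th_deriv s).deriv
  rw [h]
  exact Rel_cont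

private theorem Rel_Th_zero {s : ℝ} (h : |s| ≤ 1) : Rel_Th s = 0 := by
  unfold Rel_Th
  have h1 : ∀ t ∈ Set.uIcc 0 s, |deriv sg t| = 0 := by
    intro t ht
    rw [abs_eq_zero]
    refine Rel_dsg ?_
    rw [abs_le] at h ⊢
    rcases le_total 0 s with h0 | h0
    · rw [uIcc_of_le h0] at ht
      constructor <;> linarith [ht.1, ht.2]
    · rw [uIcc_of_ge h0] at ht
      constructor <;> linarith [ht.1, ht.2]
  rw [intervalIntegral.integral_congr (g := fun _ => 0) h1]
  simp

private theorem Rel_Th_le (s : ℝ) : |Rel_Th s| ≤ ∫ t, |deriv sg t| := by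
  unfold Rel_Th
  have h0 : Integrable fun t => |deriv sg t| :=
    Rel_cont.integrable_of_hasCompactSupport Rel_dsg_supp.abs
  have h1 : ‖∫ t in (0 : ℝ)..s, |deriv sg t|‖ ≤ ∫ t in Set.uIoc 0 s, ‖|deriv sg t|‖ :=
    intervalIntegral.norm_integral_le_integral_norm_uIoc
  rw [Real.norm_eq_abs] at h1
  refine h1.trans ?_
  simp only [Real.norm_eq_abs, abs_abs]
  exact setIntegral_le_integral h0 (Eventually.of_forall fun t => abs_nonneg _)

/-- A smooth cut-off. -/
private theorem Rel_kappa {D K : Set ℂ} (hD : IsOpen D) (hK : IsCompact K) (hKD : K ⊆ D) :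
    ∃ κ : ℂ → ℝ, ContDiff ℝ 1 κ ∧ HasCompactSupport κ ∧ tsupport κ ⊆ D ∧ (∀ x, 0 ≤ κ x ∧ κ x ≤ 1) ∧
      ∀ x ∈ K, κ x = 1 := by
  obtain ⟨V, hV, hKV, hVD, hVc⟩ := exists_open_between_and_isCompact_closure hK hD hKD
  obtain ⟨f, hf, hfr, hfs, hft⟩ := exists_contMDiff_support_eq_eq_one_iff (n := 1) (modelWithCornersSelf ℝ ℂ) hV
    hK.isClosed hKV
  refine ⟨f, hf.contDiff, ?_, ?_, fun x => ?_, fun x hx => (hft x).1 hx⟩
  · exact HasCompactSupport.of_support_subset_isCompact hVc (by rw [hfs]; exact subset_closure)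
  · unfold tsupport
    rw [hfs]
    exact hVD
  · have := hfr ⟨x, rfl⟩
    exact this

/-- Passage to the limit in the truncation. -/
private theorem Rel_lim {D : Set ℂ} (hD : IsOpen D) {v b : ℂ → ℝ} (hv : ContinuousOn v D) (hb : IntegrableOn b D)
    (h0 : ∀ᵐ x ∂(volume.restrict D), v x = 0 → b x = 0) :
    Tendsto (fun N => ∫ x in D, sg (v x / eN N) * b x) atTop (𝓝 (∫ x in D, b x)) := by
  refine tendsto_integral_of_dominated_convergence (fun x => |b x|) (fun N => ?_) hb.abs (fun N => ?_) ?_
  · have h1 : ContinuousOn (fun x => sg (v x / eN N)) D := continuous_sg.comp_continuousOn (hv.div_const _)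
    exact (h1.aestronglyMeasurable hD.measurableSet).mul hb.aestronglyMeasurable
  · refine Eventually.of_forall fun x => ?_
    rw [Real.norm_eq_abs, abs_mul, abs_of_nonneg (sg_nonneg _)]
    exact mul_le_of_le_one_left (abs_nonneg _) (sg_le_one _)
  · filter_upwards [h0] with x hx
    by_cases h : v x = 0
    · simp [hx h]
    · have h1 := (tendsto_sg h).mul_const (b x)
      rwa [one_mul] at h1

/-- Integrability after truncation. -/
private theorem Rel_S {D : Set ℂ} (hD : IsOpen D) (hb : Bornology.IsBounded D) {v : ℂ → ℝ} (hvc : ContinuousOn v (closure D))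
    (hv0 : ∀ x ∈ frontier D, v x = 0) {ε : ℝ} (hε : 0 < ε) {θ : ℝ → ℝ} (hθ : Continuous θ) (hθ0 : ∀ s, |s| ≤ ε → θ s = 0)
    {b : ℂ → ℝ} (hbc : ContinuousOn b D) : IntegrableOn (fun x => θ (v x) * b x) D := by
  obtain ⟨h1, h2⟩ := trunc_support hb hvc hv0 hD hε hθ0
  have h3 : ContDiff ℝ 0 (indicator D fun x => θ (v x)) := trunc_contDiff hb hvc hv0 hD hε hθ0 (contDiff_zero.2 hθ)
    (contDiffOn_zero.2 (hvc.mono subset_closure))
  refine (Rel_int hD h3.continuous h1 h2 hbc).congr_fun (fun x hx => ?_) hD.measurableSet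
  simp only [indicator_of_mem hx]

private theorem Rel_pdm {p q : ℂ → ℝ} {x : ℂ} (hp : DifferentiableAt ℝ p x) (hq : DifferentiableAt ℝ q x) (w : ℂ) :
    pd w (fun y => y.re * p y + y.im * q y) x = (pd w (fun y => y.re) x * p x + x.re * pd w p x) +
      (pd w (fun y => y.im) x * q x + x.im * pd w q x) := by
  rw [pd_add ((Rel_re x).1.fun_mul hp) ((Rel_im x).1.fun_mul hq), pd_mul (Rel_re x).1 hp, pd_mul (Rel_im x).1 hq]

private theorem Rel_pde {p q : ℂ → ℝ} {x : ℂ} (hp : DifferentiableAt ℝ p x) (hq : DifferentiableAt ℝ q x) (w : ℂ) :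
    pd w (fun y => p y * p y + q y * q y) x = 2 * (p x * pd w p x + q x * pd w q x) := by
  rw [pd_add (hp.fun_mul hp) (hq.fun_mul hq), pd_mul hp hp, pd_mul hq hq]
  ring

/-- The divergence of the Rellich field. -/
private theorem Rel_div {p q : ℂ → ℝ} {x : ℂ} (hp : DifferentiableAt ℝ p x) (hq : DifferentiableAt ℝ q x)
    (hs : pd Complex.I p x = pd 1 q x) :
    pd 1 (fun y => p y * (y.re * p y + y.im * q y) + (-(1 / 2)) * ((p y * p y + q y * q y) * y.re)) x +
      pd Complex.I (fun y => q y * (y.re * p y + y.im * q y) + (-(1 / 2)) * ((p y * p y + q y * q y) * y.im)) x =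
      (pd 1 p x + pd Complex.I q x) * (x.re * p x + x.im * q x) := by
  have hm : DifferentiableAt ℝ (fun y : ℂ => y.re * p y + y.im * q y) x :=
    ((Rel_re x).1.fun_mul hp).fun_add ((Rel_im x).1.fun_mul hq)
  have he : DifferentiableAt ℝ (fun y : ℂ => p y * p y + q y * q y) x := (hp.fun_mul hp).fun_add (hq.fun_mul hq)
  have h1 : DifferentiableAt ℝ (fun y : ℂ => (p y * p y + q y * q y) * y.re) x := he.fun_mul (Rel_re x).1
  have h2 : DifferentiableAt ℝ (fun y : ℂ => (p y * p y + q y * q y) * y.im) x := he.fun_mul (Rel_im x).1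
  rw [pd_add (hp.fun_mul hm) (h1.const_mul _), pd_add (hq.fun_mul hm) (h2.const_mul _), pd_mul hp hm, pd_mul hq hm,
    pd_const_mul h1, pd_const_mul h2, pd_mul he (Rel_re x).1, pd_mul he (Rel_im x).1, Rel_pdm hp hq, Rel_pdm hp hq,
    Rel_pde hp hq, Rel_pde hp hq, (Rel_re x).2.1, (Rel_re x).2.2, (Rel_im x).2.1, (Rel_im x).2.2, hs]
  ring

/-- The energy between the truncation levels is bounded. -/
private theorem Rel_energy {D : Set ℂ} (hD : IsOpen D) (hb : Bornology.IsBounded D) {v : ℂ → ℝ}
    (hv : ContDiffOn ℝ 2 v D) (hvc : ContinuousOn v (closure D)) (hv0 : ∀ x ∈ frontier D, v x = 0)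
    {C : ℝ} (hl : ∀ x ∈ D, |lap v x| ≤ C) {ε : ℝ} (hε : 0 < ε) :
    ∫ x in D, (|deriv sg (v x / ε)| / ε) * (pd 1 v x * pd 1 v x + pd Complex.I v x * pd Complex.I v x) ≤
      ((∫ t, |deriv sg t|) * C) * volume.real D := by
  have hp : ContDiffOn ℝ 1 (pd 1 v) D := contDiffOn_pd hD hv (by norm_num) 1
  have hq : ContDiffOn ℝ 1 (pd Complex.I v) D := contDiffOn_pd hD hv (by norm_num) Complex.I
  have hp1 : ContinuousOn (pd 1 (pd 1 v)) D := (contDiffOn_pd hD (m := 0) hp (by norm_num) 1).continuousOn
  have hq1 : ContinuousOn (pd Complex.I (pd Complex.I v)) D :=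
    (contDiffOn_pd hD (m := 0) hq (by norm_num) Complex.I).continuousOn
  have hθ0 : ∀ s, |s| ≤ ε → (fun s => Rel_Th (s / ε)) s = 0 := by
    intro s hs
    refine Rel_Th_zero ?_
    rw [abs_div, abs_of_pos hε, div_le_one hε]
    exact hs
  have hθ : ∀ s, HasDerivAt (fun s => Rel_Th (s / ε)) ((fun s => |deriv sg (s / ε)| / ε) s) s := by
    intro s
    have h1 := (Rel_Th_deriv (s / ε)).comp s ((hasDerivAt_id s).div_const ε)
    refine h1.congr_deriv ?_
    ring
  have hT : ContDiff ℝ 1 (indicator D fun x => (fun s => Rel_Th (s / ε)) (v x)) :=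
    trunc_contDiff (θ := fun s => Rel_Th (s / ε)) (ψ := v) hb hvc hv0 hD hε hθ0
      (Rel_Th_contDiff.comp (contDiff_id.div_const ε)) (hv.of_le one_le_two)
  obtain ⟨hTc, hTs⟩ := trunc_support (ψ := v) hb hvc hv0 hD hε hθ0
  have hTp := fun w x => trunc_pd (ψ := v) hb hvc hv0 hD hε hθ0 hθ (hv.differentiableOn (by norm_num)) w x
  set T := indicator D fun x => (fun s => Rel_Th (s / ε)) (v x) with hTdef
  have I1 := integral_mul_pd_on hD hT hTc hTs hp 1
  have I2 := integral_mul_pd_on hD hT hTc hTs hq Complex.I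
  have J1 : IntegrableOn (fun x => T x * pd 1 (pd 1 v) x) D := Rel_int hD hT.continuous hTc hTs hp1
  have J2 : IntegrableOn (fun x => T x * pd Complex.I (pd Complex.I v) x) D := Rel_int hD hT.continuous hTc hTs hq1
  have J3 : IntegrableOn (fun x => pd 1 T x * pd 1 v x) D :=
    Rel_int hD (continuous_pd hT 1) (compact_pd hTc 1) ((tsupport_pd _ _).trans hTs) hp.continuousOn
  have J4 : IntegrableOn (fun x => pd Complex.I T x * pd Complex.I v x) D :=
    Rel_int hD (continuous_pd hT _) (compact_pd hTc _) ((tsupport_pd _ _).trans hTs) hq.continuousOn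
  have E1 : ∫ x in D, (|deriv sg (v x / ε)| / ε) * (pd 1 v x * pd 1 v x + pd Complex.I v x * pd Complex.I v x) =
      (∫ x in D, pd 1 T x * pd 1 v x) + ∫ x in D, pd Complex.I T x * pd Complex.I v x := by
    rw [← integral_add J3 J4]
    refine setIntegral_congr_fun hD.measurableSet fun x hx => ?_
    simp only [hTp, indicator_of_mem hx]
    ring
  have E2 : ∫ x in D, T x * lap v x =
      (∫ x in D, T x * pd 1 (pd 1 v) x) + ∫ x in D, T x * pd Complex.I (pd Complex.I v) x := by
    rw [← integral_add J1 J2]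
    refine setIntegral_congr_fun hD.measurableSet fun x hx => ?_
    simp only [lap]
    ring
  have E3 : ∫ x in D, (|deriv sg (v x / ε)| / ε) * (pd 1 v x * pd 1 v x + pd Complex.I v x * pd Complex.I v x) =
      -∫ x in D, T x * lap v x := by
    rw [E1, E2, I1, I2]
    ring
  rw [E3]
  have h1 : ‖∫ x in D, T x * lap v x‖ ≤ ((∫ t, |deriv sg t|) * C) * volume.real D := by
    refine norm_setIntegral_le_of_norm_le_const hb.measure_lt_top fun x hx => ?_
    rw [Real.norm_eq_abs, abs_mul]
    refine mul_le_mul ?_ (hl x hx) (abs_nonneg _) (integral_nonneg fun t => abs_nonneg _)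
    rw [hTdef, indicator_of_mem hx]
    exact Rel_Th_le _
  rw [Real.norm_eq_abs] at h1
  exact (neg_le_abs _).trans h1

/-- The Rellich identity for the truncated function. -/
private theorem Rel_step {D : Set ℂ} (hD : IsOpen D) (hb : Bornology.IsBounded D) {v : ℂ → ℝ}
    (hv : ContDiffOn ℝ 2 v D) (hvc : ContinuousOn v (closure D)) (hv0 : ∀ x ∈ frontier D, v x = 0)
    {ε : ℝ} (hε : 0 < ε) :
    ∫ x in D, sg (v x / ε) * (lap v x * (x.re * pd 1 v x + x.im * pd Complex.I v x)) =
      -(1 / 2) * ∫ x in D, (deriv sg (v x / ε) / ε) * ((pd 1 v x * pd 1 v x + pd Complex.I v x * pd Complex.I v x) *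
        (x.re * pd 1 v x + x.im * pd Complex.I v x)) := by
  have hp : ContDiffOn ℝ 1 (pd 1 v) D := contDiffOn_pd hD hv (by norm_num) 1
  have hq : ContDiffOn ℝ 1 (pd Complex.I v) D := contDiffOn_pd hD hv (by norm_num) Complex.I
  have hre : ContDiffOn ℝ 1 (fun x : ℂ => x.re) D := Complex.reCLM.contDiff.contDiffOn
  have him : ContDiffOn ℝ 1 (fun x : ℂ => x.im) D := Complex.imCLM.contDiff.contDiffOn
  have hm : ContDiffOn ℝ 1 (fun x : ℂ => x.re * pd 1 v x + x.im * pd Complex.I v x) D := (hre.mul hp).add (him.mul hq)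
  have he : ContDiffOn ℝ 1 (fun x => pd 1 v x * pd 1 v x + pd Complex.I v x * pd Complex.I v x) D :=
    (hp.mul hp).add (hq.mul hq)
  have hF1 : ContDiffOn ℝ 1 (fun y => pd 1 v y * (y.re * pd 1 v y + y.im * pd Complex.I v y) +
      (-(1 / 2)) * ((pd 1 v y * pd 1 v y + pd Complex.I v y * pd Complex.I v y) * y.re)) D :=
    (hp.mul hm).add (contDiffOn_const.mul (he.mul hre))
  have hF2 : ContDiffOn ℝ 1 (fun y => pd Complex.I v y * (y.re * pd 1 v y + y.im * pd Complex.I v y) +
      (-(1 / 2)) * ((pd 1 v y * pd 1 v y + pd Complex.I v y * pd Complex.I v y) * y.im)) D :=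
    (hq.mul hm).add (contDiffOn_const.mul (he.mul him))
  have hθ0 : ∀ s, |s| ≤ ε → (fun s => sg (s / ε)) s = 0 := by
    intro s hs
    refine sg_zero ?_
    rw [abs_div, abs_of_pos hε, div_le_one hε]
    exact hs
  have hT : ContDiff ℝ 1 (indicator D fun x => (fun s => sg (s / ε)) (v x)) :=
    trunc_contDiff (θ := fun s => sg (s / ε)) (ψ := v) hb hvc hv0 hD hε hθ0
      ((contDiff_sg.of_le (by simp)).comp (contDiff_id.div_const ε)) (hv.of_le one_le_two)
  obtain ⟨hTc, hTs⟩ := trunc_support (ψ := v) hb hvc hv0 hD hε hθ0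
  have hTp := fun w x => trunc_pd (ψ := v) hb hvc hv0 hD hε hθ0 (fun s => Rel_hasDeriv_div s)
    (hv.differentiableOn (by norm_num)) w x
  set T := indicator D fun x => (fun s => sg (s / ε)) (v x) with hTdef
  have I1 := integral_mul_pd_on hD hT hTc hTs hF1 1
  have I2 := integral_mul_pd_on hD hT hTc hTs hF2 Complex.I
  have J1 := Rel_int hD hT.continuous hTc hTs (contDiffOn_pd hD (m := 0) hF1 (by norm_num) 1).continuousOn
  have J2 := Rel_int hD hT.continuous hTc hTs (contDiffOn_pd hD (m := 0) hF2 (by norm_num) Complex.I).continuousOn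
  have J3 := Rel_int hD (continuous_pd hT 1) (compact_pd hTc 1) ((tsupport_pd _ _).trans hTs) hF1.continuousOn
  have J4 := Rel_int hD (continuous_pd hT Complex.I) (compact_pd hTc _) ((tsupport_pd _ _).trans hTs) hF2.continuousOn
  have E1 := integral_add J1 J2
  have E2 := integral_add J3 J4
  rw [I1, I2] at E1
  have E3 : ∫ x in D, sg (v x / ε) * (lap v x * (x.re * pd 1 v x + x.im * pd Complex.I v x)) =
      ∫ x in D, (T x * pd 1 (fun y => pd 1 v y * (y.re * pd 1 v y + y.im * pd Complex.I v y) +
      (-(1 / 2)) * ((pd 1 v y * pd 1 v y + pd Complex.I v y * pd Complex.I v y) * y.re)) x +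
      T x * pd Complex.I (fun y => pd Complex.I v y * (y.re * pd 1 v y + y.im * pd Complex.I v y) +
      (-(1 / 2)) * ((pd 1 v y * pd 1 v y + pd Complex.I v y * pd Complex.I v y) * y.im)) x) := by
    refine setIntegral_congr_fun hD.measurableSet fun x hx => ?_
    have h1 := Rel_div ((hp.differentiableOn (by norm_num)).differentiableAt (hD.mem_nhds hx))
      ((hq.differentiableOn (by norm_num)).differentiableAt (hD.mem_nhds hx)) (Rel_symm hD hv hx)
    rw [← mul_add, h1, hTdef, indicator_of_mem hx]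
    rfl
  have E4 : (1 / 2) * ∫ x in D, (deriv sg (v x / ε) / ε) * ((pd 1 v x * pd 1 v x + pd Complex.I v x * pd Complex.I v x) *
        (x.re * pd 1 v x + x.im * pd Complex.I v x)) =
      ∫ x in D, (pd 1 T x * (fun y => pd 1 v y * (y.re * pd 1 v y + y.im * pd Complex.I v y) +
      (-(1 / 2)) * ((pd 1 v y * pd 1 v y + pd Complex.I v y * pd Complex.I v y) * y.re)) x +
      pd Complex.I T x * (fun y => pd Complex.I v y * (y.re * pd 1 v y + y.im * pd Complex.I v y) +
      (-(1 / 2)) * ((pd 1 v y * pd 1 v y + pd Complex.I v y * pd Complex.I v y) * y.im)) x) := by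
    rw [← integral_const_mul]
    refine setIntegral_congr_fun hD.measurableSet fun x hx => ?_
    simp only [hTp, indicator_of_mem hx]
    ring
  rw [E3, E1, ← neg_add, ← E2, ← E4]
  ring

/-- Rellich. If `v` and its gradient `g` are continuous up to the boundary and zero there, and `Δv` is bounded, then
`∫_D Δv (x·∇v) = 0`. No regularity of the boundary is assumed. -/
theorem rellich {D : Set ℂ} (hD : IsOpen D) (hb : Bornology.IsBounded D) {v : ℂ → ℝ} {g : ℂ → ℂ}
    (hv : ContDiffOn ℝ 2 v D) (hvc : ContinuousOn v (closure D)) (hgc : ContinuousOn g (closure D))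
    (hg : ∀ x ∈ D, pd 1 v x = (g x).re ∧ pd Complex.I v x = (g x).im) (hv0 : ∀ x ∈ frontier D, v x = 0)
    (hg0 : ∀ x ∈ frontier D, g x = 0) {C : ℝ} (hl : ∀ x ∈ D, |lap v x| ≤ C) :
    ∫ x in D, lap v x * (x.re * (g x).re + x.im * (g x).im) = 0 := by
  have hl' : ∀ x ∈ D, |lap v x| ≤ |C| := fun x hx => (hl x hx).trans (le_abs_self C)
  have hp : ContDiffOn ℝ 1 (pd 1 v) D := contDiffOn_pd hD hv (by norm_num) 1
  have hq : ContDiffOn ℝ 1 (pd Complex.I v) D := contDiffOn_pd hD hv (by norm_num) Complex.I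
  have hre : ContDiffOn ℝ 1 (fun x : ℂ => x.re) D := Complex.reCLM.contDiff.contDiffOn
  have him : ContDiffOn ℝ 1 (fun x : ℂ => x.im) D := Complex.imCLM.contDiff.contDiffOn
  have hm : ContDiffOn ℝ 1 (fun x : ℂ => x.re * pd 1 v x + x.im * pd Complex.I v x) D := (hre.mul hp).add (him.mul hq)
  have he : ContDiffOn ℝ 1 (fun x => pd 1 v x * pd 1 v x + pd Complex.I v x * pd Complex.I v x) D :=
    (hp.mul hp).add (hq.mul hq)
  have hlap : ContinuousOn (lap v) D :=
    ((contDiffOn_pd hD (m := 0) hp (by norm_num) 1).continuousOn).add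
      ((contDiffOn_pd hD (m := 0) hq (by norm_num) Complex.I).continuousOn)
  have hvD : ContinuousOn v D := hvc.mono subset_closure
  have hcrit := ae_crit hD (hv.differentiableOn (by norm_num))
  -- the function `x·g`
  have hmgc : ContinuousOn (fun x => x.re * (g x).re + x.im * (g x).im) (closure D) := by fun_prop
  have hmg0 : ∀ x ∈ frontier D, (fun x => x.re * (g x).re + x.im * (g x).im) x = 0 := by
    intro x hx
    simp [hg0 x hx]
  have hmg : ∀ x ∈ D, x.re * pd 1 v x + x.im * pd Complex.I v x = x.re * (g x).re + x.im * (g x).im := by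
    intro x hx
    rw [(hg x hx).1, (hg x hx).2]
  obtain ⟨M, hM⟩ := hb.isCompact_closure.exists_bound_of_continuousOn hmgc
  have hA : ∫ x in D, lap v x * (x.re * (g x).re + x.im * (g x).im) =
      ∫ x in D, lap v x * (x.re * pd 1 v x + x.im * pd Complex.I v x) :=
    setIntegral_congr_fun hD.measurableSet fun x hx => by simp only [hmg x hx]
  rw [hA]
  have hfin : IsFiniteMeasure (volume.restrict D) := ⟨by
    rw [Measure.restrict_apply_univ]
    exact hb.measure_lt_top⟩
  have hint : IntegrableOn (fun x => lap v x * (x.re * pd 1 v x + x.im * pd Complex.I v x)) D := by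
    refine Integrable.of_bound (C := |C| * M)
      ((hlap.mul hm.continuousOn).aestronglyMeasurable hD.measurableSet) ?_
    rw [ae_restrict_iff' hD.measurableSet]
    refine Eventually.of_forall fun x hx => ?_
    rw [Real.norm_eq_abs, abs_mul, hmg x hx]
    exact mul_le_mul (hl' x hx) (hM x (subset_closure hx)) (abs_nonneg _) (abs_nonneg _)
  have hLim := Rel_lim hD hvD hint (by
    filter_upwards [hcrit] with x hx h0
    simp [pd, hx h0])
  simp only [fun N => Rel_step hD hb hv hvc hv0 (eN_pos N)] at hLim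
  set A := ∫ x in D, lap v x * (x.re * pd 1 v x + x.im * pd Complex.I v x) with hAdef
  set C1 : ℝ := ((∫ t, |deriv sg t|) * |C|) * volume.real D with hC1
  have hC1n : 0 ≤ C1 := mul_nonneg (mul_nonneg (integral_nonneg fun t => abs_nonneg _) (abs_nonneg _))
    measureReal_nonneg
  have main : ∀ η : ℝ, 0 < η → |A| ≤ 1 / 2 * (η * C1) := by
    intro η hη
    obtain ⟨hK, hKD⟩ := trunc_compact hb hmgc hmg0 hD hη
    obtain ⟨κ, hκ, hκc, hκs, hκ01, hκ1⟩ := Rel_kappa hD hK hKD
    have hf1 : ContDiff ℝ 1 fun x => κ x * ((pd 1 v x * pd 1 v x + pd Complex.I v x * pd Complex.I v x) * x.re) :=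
      mul_contDiff hD hκ hκs (he.mul hre)
    have hf2 : ContDiff ℝ 1 fun x => κ x * ((pd 1 v x * pd 1 v x + pd Complex.I v x * pd Complex.I v x) * x.im) :=
      mul_contDiff hD hκ hκs (he.mul him)
    set f1 := fun x => κ x * ((pd 1 v x * pd 1 v x + pd Complex.I v x * pd Complex.I v x) * x.re) with hf1def
    set f2 := fun x => κ x * ((pd 1 v x * pd 1 v x + pd Complex.I v x * pd Complex.I v x) * x.im) with hf2def
    have hf1c : HasCompactSupport f1 := hκc.mul_right
    have hf2c : HasCompactSupport f2 := hκc.mul_right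
    have hf1s : tsupport f1 ⊆ D := (tsupport_mul_subset_left (f := κ)).trans hκs
    have hf2s : tsupport f2 ⊆ D := (tsupport_mul_subset_left (f := κ)).trans hκs
    have hbi1 : IntegrableOn (pd 1 f1) D :=
      (integrable_of_comp (continuous_pd hf1 1) (compact_pd hf1c 1)).integrableOn
    have hbi2 : IntegrableOn (pd Complex.I f2) D :=
      (integrable_of_comp (continuous_pd hf2 Complex.I) (compact_pd hf2c Complex.I)).integrableOn
    have hz : ∀ f : ℂ → ℝ, ContDiff ℝ 1 f → HasCompactSupport f → tsupport f ⊆ D → ∀ w, ∫ x in D, pd w f x = 0 := by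
      intro f h1 h2 h3 w
      rw [setIntegral_eq_integral_of_forall_compl_eq_zero fun x hx =>
        image_eq_zero_of_notMem_tsupport fun h => hx (h3 (tsupport_pd w f h))]
      exact integral_pd h1 h2 w
    have hb0 : ∫ x in D, (pd 1 f1 x + pd Complex.I f2 x) = 0 := by
      rw [integral_add hbi1 hbi2, hz f1 hf1 hf1c hf1s, hz f2 hf2 hf2c hf2s, add_zero]
    have hae : ∀ᵐ x ∂(volume.restrict D), v x = 0 → pd 1 f1 x + pd Complex.I f2 x = 0 := by
      have hD' : ∀ᵐ x ∂(volume.restrict D), x ∈ D := ae_restrict_mem hD.measurableSet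
      filter_upwards [hcrit, hD'] with x hx hxD h0
      have a1 : pd 1 v x = 0 := by simp [pd, hx h0]
      have a2 : pd Complex.I v x = 0 := by simp [pd, hx h0]
      have dp := (hp.differentiableOn (by norm_num)).differentiableAt (hD.mem_nhds hxD)
      have dq := (hq.differentiableOn (by norm_num)).differentiableAt (hD.mem_nhds hxD)
      have de := (dp.fun_mul dp).fun_add (dq.fun_mul dq)
      have dκ := (hκ.differentiable (by norm_num)) x
      rw [hf1def, hf2def, pd_mul dκ (de.fun_mul (Rel_re x).1), pd_mul dκ (de.fun_mul (Rel_im x).1),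
        pd_mul de (Rel_re x).1, pd_mul de (Rel_im x).1, Rel_pde dp dq, Rel_pde dp dq, a1, a2]
      ring
    have hU := Rel_lim hD hvD (hbi1.add hbi2) hae
    have hU' : Tendsto (fun N => ∫ x in D, sg (v x / eN N) * (pd 1 f1 x + pd Complex.I f2 x)) atTop (𝓝 0) := by
      rw [← hb0]
      exact hU
    -- the integral with the cut-off
    have hstep : ∀ N, ∫ x in D, κ x * ((deriv sg (v x / eN N) / eN N) *
        ((pd 1 v x * pd 1 v x + pd Complex.I v x * pd Complex.I v x) *
          (x.re * pd 1 v x + x.im * pd Complex.I v x))) =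
        -∫ x in D, sg (v x / eN N) * (pd 1 f1 x + pd Complex.I f2 x) := by
      intro N
      have hε := eN_pos N
      have hθ0 : ∀ s, |s| ≤ eN N → (fun s => sg (s / eN N)) s = 0 := by
        intro s hs
        refine sg_zero ?_
        rw [abs_div, abs_of_pos hε, div_le_one hε]
        exact hs
      have hT : ContDiff ℝ 1 (indicator D fun x => (fun s => sg (s / eN N)) (v x)) :=
        trunc_contDiff (θ := fun s => sg (s / eN N)) (ψ := v) hb hvc hv0 hD hε hθ0
          ((contDiff_sg.of_le (by simp)).comp (contDiff_id.div_const (eN N))) (hv.of_le one_le_two)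
      obtain ⟨hTc, hTs⟩ := trunc_support (ψ := v) hb hvc hv0 hD hε hθ0
      have hTp := fun w x => trunc_pd (ψ := v) hb hvc hv0 hD hε hθ0 (fun s => Rel_hasDeriv_div s)
        (hv.differentiableOn (by norm_num)) w x
      set T := indicator D fun x => (fun s => sg (s / eN N)) (v x) with hTdef
      have I1 := integral_mul_pd_on hD hf1 hf1c hf1s hT.contDiffOn 1
      have I2 := integral_mul_pd_on hD hf2 hf2c hf2s hT.contDiffOn Complex.I
      have J1 := Rel_int hD hf1.continuous hf1c hf1s (continuous_pd hT 1).continuousOn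
      have J2 := Rel_int hD hf2.continuous hf2c hf2s (continuous_pd hT Complex.I).continuousOn
      have J3 := Rel_int hD (continuous_pd hf1 1) (compact_pd hf1c 1) ((tsupport_pd _ _).trans hf1s)
        hT.continuous.continuousOn
      have J4 := Rel_int hD (continuous_pd hf2 Complex.I) (compact_pd hf2c Complex.I) ((tsupport_pd _ _).trans hf2s)
        hT.continuous.continuousOn
      have E1 := integral_add J1 J2
      have E2 := integral_add J3 J4
      rw [I1, I2] at E1
      have E3 : ∫ x in D, κ x * ((deriv sg (v x / eN N) / eN N) *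
          ((pd 1 v x * pd 1 v x + pd Complex.I v x * pd Complex.I v x) *
          (x.re * pd 1 v x + x.im * pd Complex.I v x))) =
          ∫ x in D, (f1 x * pd 1 T x + f2 x * pd Complex.I T x) := by
        refine setIntegral_congr_fun hD.measurableSet fun x hx => ?_
        simp only [hTp, indicator_of_mem hx, hf1def, hf2def]
        ring
      have E4 : ∫ x in D, sg (v x / eN N) * (pd 1 f1 x + pd Complex.I f2 x) =
          ∫ x in D, (pd 1 f1 x * T x + pd Complex.I f2 x * T x) := by
        refine setIntegral_congr_fun hD.measurableSet fun x hx => ?_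
        have hTx : T x = sg (v x / eN N) := by
          rw [hTdef, indicator_of_mem hx]
        simp only [hTx]
        ring
      rw [E3, E1, E4, E2]
      ring
    -- the remainder
    have hrem : ∀ N, |(∫ x in D, (deriv sg (v x / eN N) / eN N) *
        ((pd 1 v x * pd 1 v x + pd Complex.I v x * pd Complex.I v x) *
          (x.re * pd 1 v x + x.im * pd Complex.I v x))) +
        ∫ x in D, sg (v x / eN N) * (pd 1 f1 x + pd Complex.I f2 x)| ≤ η * C1 := by
      intro N
      have hε := eN_pos N
      have hdc : Continuous (deriv sg) := contDiff_sg.continuous_deriv (by simp)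
      have hθc : Continuous fun s => deriv sg (s / eN N) / eN N :=
        (hdc.comp (continuous_id.div_const _)).div_const _
      have hθ0 : ∀ s, |s| ≤ eN N → (fun s => deriv sg (s / eN N) / eN N) s = 0 := by
        intro s hs
        have h1 : deriv sg (s / eN N) = 0 := Rel_dsg (by
          rw [abs_div, abs_of_pos hε, div_le_one hε]
          exact hs)
        simp [h1]
      have hθc' : Continuous fun s => |deriv sg (s / eN N)| / eN N :=
        (hdc.comp (continuous_id.div_const _)).abs.div_const _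
      have hθ0' : ∀ s, |s| ≤ eN N → (fun s => |deriv sg (s / eN N)| / eN N) s = 0 := by
        intro s hs
        have h1 : deriv sg (s / eN N) = 0 := Rel_dsg (by
          rw [abs_div, abs_of_pos hε, div_le_one hε]
          exact hs)
        simp [h1]
      have K1 : IntegrableOn (fun x => (deriv sg (v x / eN N) / eN N) *
          ((pd 1 v x * pd 1 v x + pd Complex.I v x * pd Complex.I v x) *
          (x.re * pd 1 v x + x.im * pd Complex.I v x))) D :=
        Rel_S hD hb hvc hv0 hε hθc hθ0 (he.continuousOn.mul hm.continuousOn)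
      have K2 : IntegrableOn (fun x => (deriv sg (v x / eN N) / eN N) * (κ x *
          ((pd 1 v x * pd 1 v x + pd Complex.I v x * pd Complex.I v x) *
          (x.re * pd 1 v x + x.im * pd Complex.I v x)))) D :=
        Rel_S hD hb hvc hv0 hε hθc hθ0 (hκ.continuous.continuousOn.mul (he.continuousOn.mul hm.continuousOn))
      have K2' : IntegrableOn (fun x => κ x * ((deriv sg (v x / eN N) / eN N) *
          ((pd 1 v x * pd 1 v x + pd Complex.I v x * pd Complex.I v x) *
          (x.re * pd 1 v x + x.im * pd Complex.I v x)))) D := by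
        refine K2.congr_fun (fun x _ => ?_) hD.measurableSet
        ring
      have K3 := Rel_S hD hb hvc hv0 hε hθc' hθ0' he.continuousOn
      have e1 : ∫ x in D, sg (v x / eN N) * (pd 1 f1 x + pd Complex.I f2 x) =
          -∫ x in D, κ x * ((deriv sg (v x / eN N) / eN N) *
            ((pd 1 v x * pd 1 v x + pd Complex.I v x * pd Complex.I v x) *
            (x.re * pd 1 v x + x.im * pd Complex.I v x))) := by
        rw [hstep N, neg_neg]
      rw [e1, ← sub_eq_add_neg, ← integral_sub K1 K2', ← Real.norm_eq_abs]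
      have e2 := Rel_energy hD hb hv hvc hv0 hl' hε
      refine (norm_integral_le_of_norm_le (K3.const_mul η) ?_).trans ?_
      · rw [ae_restrict_iff' hD.measurableSet]
        refine Eventually.of_forall fun x hx => ?_
        have hen : 0 ≤ pd 1 v x * pd 1 v x + pd Complex.I v x * pd Complex.I v x :=
          add_nonneg (mul_self_nonneg _) (mul_self_nonneg _)
        have e3 : (deriv sg (v x / eN N) / eN N) *
            ((pd 1 v x * pd 1 v x + pd Complex.I v x * pd Complex.I v x) *
            (x.re * pd 1 v x + x.im * pd Complex.I v x)) - κ x * ((deriv sg (v x / eN N) / eN N) *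
            ((pd 1 v x * pd 1 v x + pd Complex.I v x * pd Complex.I v x) *
            (x.re * pd 1 v x + x.im * pd Complex.I v x))) =
            ((1 - κ x) * (x.re * pd 1 v x + x.im * pd Complex.I v x)) * ((deriv sg (v x / eN N) / eN N) *
            (pd 1 v x * pd 1 v x + pd Complex.I v x * pd Complex.I v x)) := by ring
        rw [e3, Real.norm_eq_abs, abs_mul, abs_mul (deriv sg (v x / eN N) / eN N), abs_div, abs_of_pos hε,
          abs_of_nonneg hen]
        refine mul_le_mul_of_nonneg_right ?_ (mul_nonneg (div_nonneg (abs_nonneg _) hε.le) hen)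
        rw [abs_mul, abs_of_nonneg (by linarith [(hκ01 x).2])]
        by_cases hxK : η ≤ |x.re * (g x).re + x.im * (g x).im|
        · rw [hκ1 x ⟨subset_closure hx, hxK⟩]
          simpa using hη.le
        · rw [not_le, ← hmg x hx] at hxK
          calc (1 - κ x) * |x.re * pd 1 v x + x.im * pd Complex.I v x| ≤
              1 * |x.re * pd 1 v x + x.im * pd Complex.I v x| :=
                mul_le_mul_of_nonneg_right (by linarith [(hκ01 x).1]) (abs_nonneg _)
            _ ≤ η := by linarith
      · rw [integral_const_mul]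
        exact mul_le_mul_of_nonneg_left e2 hη.le
    have hfin : Tendsto (fun N => |-(1 / 2) * (∫ x in D, (deriv sg (v x / eN N) / eN N) *
        ((pd 1 v x * pd 1 v x + pd Complex.I v x * pd Complex.I v x) *
          (x.re * pd 1 v x + x.im * pd Complex.I v x))) -
        1 / 2 * ∫ x in D, sg (v x / eN N) * (pd 1 f1 x + pd Complex.I f2 x)|) atTop (𝓝 |A|) := by
      have h1 := (hLim.sub (hU'.const_mul (1 / 2))).abs
      rw [mul_zero, sub_zero] at h1
      exact h1
    refine le_of_tendsto hfin (Eventually.of_forall fun N => ?_)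
    have h1 := hrem N
    have h2 : -(1 / 2) * (∫ x in D, (deriv sg (v x / eN N) / eN N) *
        ((pd 1 v x * pd 1 v x + pd Complex.I v x * pd Complex.I v x) *
          (x.re * pd 1 v x + x.im * pd Complex.I v x))) -
        1 / 2 * ∫ x in D, sg (v x / eN N) * (pd 1 f1 x + pd Complex.I f2 x) =
        -(1 / 2) * ((∫ x in D, (deriv sg (v x / eN N) / eN N) *
        ((pd 1 v x * pd 1 v x + pd Complex.I v x * pd Complex.I v x) *
          (x.re * pd 1 v x + x.im * pd Complex.I v x))) +
        ∫ x in D, sg (v x / eN N) * (pd 1 f1 x + pd Complex.I f2 x)) := by ring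
    rw [h2, abs_mul, abs_neg, abs_of_pos (by norm_num : (0 : ℝ) < 1 / 2)]
    exact mul_le_mul_of_nonneg_left h1 (by norm_num)
  by_contra hne
  have hpos : 0 < |A| := abs_pos.2 hne
  have h1 := main (|A| / (C1 + 1)) (div_pos hpos (by linarith))
  have h2 : |A| / (C1 + 1) * C1 ≤ |A| := by
    rw [div_mul_eq_mul_div, div_le_iff₀ (by linarith)]
    nlinarith
  linarith

end DrumL
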