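import Pool.Agent.Lib.MP_d92c84_anF.Eng
import Pool.Agent.Lib.MP_d92c84_anF.Rel

/-!
# A solution with vanishing gradient on the whole boundary is zero
-/

set_option autoImplicit false

namespace DrumL

open MeasureTheory Set Filter Topology
open scoped ContDiff

private theorem Mor_opNorm (L : ℂ →L[ℝ] ℝ) : ‖L‖ ≤ |L 1| + |L Complex.I| := by
  refine L.opNorm_le_bound (by positivity) ?_
  intro z
  have h1 : L z = z.re * L 1 + z.im * L Complex.I := by
    have h2 : z = z.re • (1 : ℂ) + z.im • Complex.I := by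
      apply Complex.ext <;> simp
    conv_lhs => rw [h2]
    rw [map_add, map_smul, map_smul, smul_eq_mul, smul_eq_mul]
  rw [Real.norm_eq_abs, h1]
  have h3 : |z.re * L 1 + z.im * L Complex.I| ≤ |z.re| * |L 1| + |z.im| * |L Complex.I| := by
    refine (abs_add_le _ _).trans ?_
    rw [abs_mul, abs_mul]
  nlinarith [Complex.abs_re_le_norm z, Complex.abs_im_le_norm z, abs_nonneg (L 1),
    abs_nonneg (L Complex.I), mul_le_mul_of_nonneg_right (Complex.abs_re_le_norm z) (abs_nonneg (L 1)),
    mul_le_mul_of_nonneg_right (Complex.abs_im_le_norm z) (abs_nonneg (L Complex.I))]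

private theorem Mor_fderiv {c : ℝ} {D : Set ℂ} {Z : ℕ → ℂ → ℝ → ℝ} {G : ℕ → ℂ → ℝ → ℂ}
    (hb : Bornology.IsBounded D) (h : WS c D Z G) (k : ℕ) (t : ℝ) :
    ∃ C : ℝ, (∀ x ∈ closure D, ‖G k x t‖ ≤ C) ∧ (∀ x ∈ closure D, |Z k x t| ≤ C) ∧
      ∀ x ∈ D, ‖fderiv ℝ (fun x => Z k x t) x‖ ≤ C := by
  obtain ⟨C₁, h1⟩ := hb.isCompact_closure.exists_bound_of_continuousOn (slice (h.contG k) t)
  obtain ⟨C₂, h2⟩ := hb.isCompact_closure.exists_bound_of_continuousOn (slice (h.cont k) t)
  refine ⟨max (2 * |C₁|) |C₂|, fun x hx => ?_, fun x hx => ?_, fun x hx => ?_⟩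
  · have := h1 x hx
    have h3 := le_abs_self C₁
    have h4 := abs_nonneg C₁
    exact (this.trans (by linarith)).trans (le_max_left _ _)
  · have := h2 x hx
    rw [Real.norm_eq_abs] at this
    exact (this.trans (le_abs_self C₂)).trans (le_max_right _ _)
  · have h3 := Mor_opNorm (fderiv ℝ (fun x => Z k x t) x)
    obtain ⟨h4, h5⟩ := h.grad k x hx t
    unfold pd at h4 h5
    rw [h4, h5] at h3
    have h6 := Complex.abs_re_le_norm (G k x t)
    have h7 := Complex.abs_im_le_norm (G k x t)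
    have h8 := h1 x (subset_closure hx)
    have h9 := le_abs_self C₁
    exact (h3.trans (by linarith)).trans (le_max_left _ _)

/-- The multiplier `x`: a half of the integral of the derivative of the square. -/
private theorem Mor_mult {c : ℝ} {D : Set ℂ} {Z : ℕ → ℂ → ℝ → ℝ} {G : ℕ → ℂ → ℝ → ℂ} (hD : IsOpen D)
    (hb : Bornology.IsBounded D) (h : WS c D Z G) (k : ℕ) (t : ℝ) :
    ∫ x in D, Z k x t * (x.re * (G k x t).re + x.im * (G k x t).im) = -∫ x in D, Z k x t ^ 2 := by
  obtain ⟨C, hC1, hC2, hC3⟩ := Mor_fderiv hb h k t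
  obtain ⟨B, hB⟩ := hb.exists_norm_le
  have hdiff : ∀ x ∈ D, DifferentiableAt ℝ (fun x => Z k x t) x := fun x hx =>
    ((h.c2 k t).differentiableOn (by norm_num) x hx).differentiableAt (hD.mem_nhds hx)
  have hfd : ∀ x ∈ D, fderiv ℝ (fun x => Z k x t ^ 2) x = (2 * Z k x t) • fderiv ℝ (fun x => Z k x t) x := by
    intro x hx
    rw [fderiv_fun_pow 2 (hdiff x hx)]
    simp
  have hC0 : ∀ x ∈ D, 0 ≤ C := fun x hx => (norm_nonneg _).trans (hC1 x (subset_closure hx))
  have hre : ∀ x : ℂ, pd 1 (fun x : ℂ => x.re) x = 1 := by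
    intro x
    unfold pd
    have : (fun x : ℂ => x.re) = Complex.reCLM := rfl
    rw [this, ContinuousLinearMap.fderiv]
    simp
  have him : ∀ x : ℂ, pd Complex.I (fun x : ℂ => x.im) x = 1 := by
    intro x
    unfold pd
    have : (fun x : ℂ => x.im) = Complex.imCLM := rfl
    rw [this, ContinuousLinearMap.fderiv]
    simp
  have hg := green hD hb (ψ := fun x => Z k x t ^ 2) (P := fun x => x.re) (Qf := fun x => x.im)
    (C := max (max (2 * C * C) |B|) 2) ((slice (h.cont k) t).pow 2)
    (((h.c2 k t).of_le (by norm_num)).pow 2) (fun x hx => by simp [h.bdry k x hx t])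
    (Complex.reCLM.contDiff.contDiffOn) (Complex.imCLM.contDiff.contDiffOn) ?_ ?_ ?_ ?_
  · have h1 : ∫ x in D, (Z k x t ^ 2 * (pd 1 (fun x : ℂ => x.re) x + pd Complex.I (fun x : ℂ => x.im) x) +
        (pd 1 (fun x => Z k x t ^ 2) x * x.re + pd Complex.I (fun x => Z k x t ^ 2) x * x.im)) =
        ∫ x in D, (2 * Z k x t ^ 2 +
          2 * (Z k x t * (x.re * (G k x t).re + x.im * (G k x t).im))) := by
      apply setIntegral_congr_fun hD.measurableSet
      intro x hx
      have h2 : pd 1 (fun x => Z k x t ^ 2) x = 2 * Z k x t * (G k x t).re := by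
        unfold pd
        rw [hfd x hx]
        have := (h.grad k x hx t).1
        unfold pd at this
        simp [this]
      have h3 : pd Complex.I (fun x => Z k x t ^ 2) x = 2 * Z k x t * (G k x t).im := by
        unfold pd
        rw [hfd x hx]
        have := (h.grad k x hx t).2
        unfold pd at this
        simp [this]
      simp only [hre, him, h2, h3]
      ring
    rw [h1, integral_add, integral_const_mul, integral_const_mul] at hg
    · linarith
    · exact (intOn hb ((slice (h.cont k) t).pow 2)).const_mul 2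
    · refine (intOn hb ?_).const_mul 2
      have hc := slice (h.cont k) t
      have hcG := slice (h.contG k) t
      exact hc.mul ((Complex.continuous_re.continuousOn.mul (Complex.continuous_re.comp_continuousOn hcG)).add
        (Complex.continuous_im.continuousOn.mul (Complex.continuous_im.comp_continuousOn hcG)))
  · intro x hx
    rw [hfd x hx, norm_smul]
    have h1 := hC2 x (subset_closure hx)
    have h2 := hC3 x hx
    have h3 := hC0 x hx
    have h4 : ‖2 * Z k x t‖ ≤ 2 * C := by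
      rw [Real.norm_eq_abs, abs_mul, abs_two]
      linarith
    exact ((mul_le_mul h4 h2 (norm_nonneg _) (by linarith)).trans (le_max_left _ _)).trans (le_max_left _ _)
  · intro x hx
    have h1 := hB x hx
    exact (((Complex.abs_re_le_norm x).trans (h1.trans (le_abs_self B))).trans (le_max_right _ _)).trans
      (le_max_left _ _)
  · intro x hx
    have h1 := hB x hx
    exact (((Complex.abs_im_le_norm x).trans (h1.trans (le_abs_self B))).trans (le_max_right _ _)).trans
      (le_max_left _ _)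
  · intro x hx
    rw [hre, him]
    norm_num

/-- A solution all of whose gradient vanishes on the boundary of `D` at all times is zero. -/
theorem WS.all_crit {c : ℝ} {D : Set ℂ} {Z : ℕ → ℂ → ℝ → ℝ} {G : ℕ → ℂ → ℝ → ℂ} (hD : IsOpen D)
    (hb : Bornology.IsBounded D) (hc : 0 < c) (h : WS c D Z G) (hG : ∀ x ∈ frontier D, ∀ t, G 0 x t = 0) {x : ℂ}
    (hx : x ∈ D) (t : ℝ) : Z 0 x t = 0 := by
  obtain ⟨B₀, hB₀⟩ := hb.exists_norm_le
  set B : ℝ := |B₀| with hBdef
  have hB : ∀ x ∈ D, ‖x‖ ≤ B := fun x hx => (hB₀ x hx).trans (le_abs_self _)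
  have hB0 : 0 ≤ B := abs_nonneg _
  obtain ⟨C, hC⟩ := h.bound hD hb hc
  -- continuity
  have cZ := h.cont
  have cG := h.contG
  have cre : ∀ k, ContinuousOn (fun q : ℂ × ℝ => (G k q.1 q.2).re) (closure D ×ˢ univ) := fun k =>
    Complex.continuous_re.comp_continuousOn (cG k)
  have cim : ∀ k, ContinuousOn (fun q : ℂ × ℝ => (G k q.1 q.2).im) (closure D ×ˢ univ) := fun k =>
    Complex.continuous_im.comp_continuousOn (cG k)
  have cxr : ContinuousOn (fun q : ℂ × ℝ => q.1.re) (closure D ×ˢ univ) := by fun_prop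
  have cxi : ContinuousOn (fun q : ℂ × ℝ => q.1.im) (closure D ×ˢ univ) := by fun_prop
  have cin : ∀ k, ContinuousOn (fun q : ℂ × ℝ => q.1.re * (G k q.1 q.2).re + q.1.im * (G k q.1 q.2).im)
      (closure D ×ˢ univ) := fun k => (cxr.mul (cre k)).add (cxi.mul (cim k))
  have sin : ∀ k t, ContinuousOn (fun x => x.re * (G k x t).re + x.im * (G k x t).im) (closure D) := fun k t =>
    slice (h := fun x t => x.re * (G k x t).re + x.im * (G k x t).im) (cin k) t
  have iIn : ∀ j k t, IntegrableOn (fun x => Z j x t * (x.re * (G k x t).re + x.im * (G k x t).im)) D :=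
    fun j k t => intOn hb ((slice (cZ j) t).mul (sin k t))
  have iZZ : ∀ j k t, IntegrableOn (fun x => Z j x t * Z k x t) D := fun j k t =>
    intOn hb ((slice (cZ j) t).mul (slice (cZ k) t))
  have iZ : ∀ k t, IntegrableOn (fun x => Z k x t ^ 2) D := fun k t => intOn hb ((slice (cZ k) t).pow 2)
  have iG : ∀ k t, IntegrableOn (fun x => ‖G k x t‖ ^ 2) D := fun k t =>
    intOn hb ((slice (cG k) t).norm.pow 2)
  -- the function `A`
  have hA : ∀ t, HasDerivAt (fun t => ∫ x in D, Z 1 x t * (x.re * (G 0 x t).re + x.im * (G 0 x t).im))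
      (-∫ x in D, Z 1 x t ^ 2) t := by
    intro t
    have h1 := hasDerivAt_intD hb hD.measurableSet
      (f := fun x t => Z 1 x t * (x.re * (G 0 x t).re + x.im * (G 0 x t).im))
      (f' := fun x t => Z 2 x t * (x.re * (G 0 x t).re + x.im * (G 0 x t).im) +
        Z 1 x t * (x.re * (G 1 x t).re + x.im * (G 1 x t).im))
      ((cZ 1).mul (cin 0)) (((cZ 2).mul (cin 0)).add ((cZ 1).mul (cin 1))) (by
        intro x hx s
        have hx' := subset_closure hx
        have d1 := h.dt 1 x hx' s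
        have d2 := h.dtG 0 x hx' s
        have d3 : HasDerivAt (fun s => (G 0 x s).re) (G 1 x s).re s :=
          (Complex.reCLM.hasFDerivAt.comp_hasDerivAt s d2)
        have d4 : HasDerivAt (fun s => (G 0 x s).im) (G 1 x s).im s :=
          (Complex.imCLM.hasFDerivAt.comp_hasDerivAt s d2)
        exact d1.mul ((d3.const_mul x.re).add (d4.const_mul x.im))) t
    have h2 : ∫ x in D, (Z 2 x t * (x.re * (G 0 x t).re + x.im * (G 0 x t).im) +
        Z 1 x t * (x.re * (G 1 x t).re + x.im * (G 1 x t).im)) = -∫ x in D, Z 1 x t ^ 2 := by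
      rw [integral_add (iIn 2 0 t) (iIn 1 1 t)]
      rw [Mor_mult hD hb h 1 t]
      have h3 : ∫ x in D, Z 2 x t * (x.re * (G 0 x t).re + x.im * (G 0 x t).im) = 0 := by
        have h4 : ∫ x in D, Z 2 x t * (x.re * (G 0 x t).re + x.im * (G 0 x t).im) =
            ∫ x in D, c ^ 2 * (lap (fun y => Z 0 y t) x * (x.re * (G 0 x t).re + x.im * (G 0 x t).im)) := by
          apply setIntegral_congr_fun hD.measurableSet
          intro x hx
          simp only
          rw [h.wave 0 x hx t]
          ring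
        obtain ⟨C₂, hC₂⟩ := hb.isCompact_closure.exists_bound_of_continuousOn (slice (cZ 2) t)
        have h5 := rellich hD hb (v := fun y => Z 0 y t) (g := fun y => G 0 y t) (h.c2 0 t)
          (slice (cZ 0) t) (slice (cG 0) t) (fun x hx => h.grad 0 x hx t) (fun x hx => h.bdry 0 x hx t)
          (fun x hx => hG x hx t) (C := C₂ / c ^ 2) (by
            intro x hx
            have h6 := hC₂ x (subset_closure hx)
            rw [h.wave 0 x hx t, Real.norm_eq_abs, abs_mul, abs_of_pos (by positivity)] at h6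
            rw [le_div_iff₀ (by positivity)]
            linarith)
        rw [h4, integral_const_mul, h5, mul_zero]
      rw [h3, zero_add]
    rw [h2] at h1
    exact h1
  -- the function `B`
  have hBd : ∀ t, HasDerivAt (fun t => ∫ x in D, Z 0 x t * Z 1 x t)
      ((∫ x in D, Z 1 x t ^ 2) - c ^ 2 * ∫ x in D, ‖G 0 x t‖ ^ 2) t := by
    intro t
    have h1 := hasDerivAt_intD hb hD.measurableSet (f := fun x t => Z 0 x t * Z 1 x t)
      (f' := fun x t => Z 1 x t * Z 1 x t + Z 0 x t * Z 2 x t)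
      ((cZ 0).mul (cZ 1)) (((cZ 1).mul (cZ 1)).add ((cZ 0).mul (cZ 2))) (by
        intro x hx s
        have hx' := subset_closure hx
        exact (h.dt 0 x hx' s).mul (h.dt 1 x hx' s)) t
    have h2 : ∫ x in D, (Z 1 x t * Z 1 x t + Z 0 x t * Z 2 x t) =
        (∫ x in D, Z 1 x t ^ 2) - c ^ 2 * ∫ x in D, ‖G 0 x t‖ ^ 2 := by
      rw [integral_add (iZZ 1 1 t) (iZZ 0 2 t), h.green hD hb hc 0 0 t t, sub_eq_add_neg]
      congr 1
      · apply setIntegral_congr_fun hD.measurableSet
        intro x _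
        simp only
        ring
      · congr 2
        apply setIntegral_congr_fun hD.measurableSet
        intro x _
        simp only
        rw [← Complex.normSq_eq_norm_sq, Complex.normSq_apply]
    rw [h2] at h1
    exact h1
  -- the energy
  set E : ℝ := ∫ x in D, (Z 1 x 0 ^ 2 + c ^ 2 * ‖G 0 x 0‖ ^ 2) with hE
  have hsplit : ∀ t, ∫ x in D, (Z 1 x t ^ 2 + c ^ 2 * ‖G 0 x t‖ ^ 2) =
      (∫ x in D, Z 1 x t ^ 2) + c ^ 2 * ∫ x in D, ‖G 0 x t‖ ^ 2 := by
    intro t
    rw [integral_add (iZ 1 t)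
      ((iG 0 t).const_mul (c ^ 2)), integral_const_mul]
  have hEt : ∀ t, (∫ x in D, Z 1 x t ^ 2) + c ^ 2 * ∫ x in D, ‖G 0 x t‖ ^ 2 = E := by
    intro t
    rw [← hsplit t]
    exact h.energy hD hb hc 0 0 t
  set Φ : ℝ → ℝ := fun t => (∫ x in D, Z 0 x t * Z 1 x t) +
    2 * (∫ x in D, Z 1 x t * (x.re * (G 0 x t).re + x.im * (G 0 x t).im)) + E * t with hΦ
  have hΦd : ∀ t, HasDerivAt Φ 0 t := by
    intro t
    have h1 := ((hBd t).add ((hA t).const_mul 2)).add ((hasDerivAt_id t).const_mul E)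
    have h2 := hEt t
    have h3 : ((∫ x in D, Z 1 x t ^ 2) - c ^ 2 * ∫ x in D, ‖G 0 x t‖ ^ 2) + 2 * (-∫ x in D, Z 1 x t ^ 2) + E * 1 = 0 := by
      linarith
    rw [h3] at h1
    exact h1
  have hΦc : ∀ t, Φ t = Φ 0 := fun t =>
    is_const_of_deriv_eq_zero (fun s => (hΦd s).differentiableAt) (fun s => (hΦd s).deriv) t 0
  have hnn : ∀ t, 0 ≤ ∫ x in D, ‖G 0 x t‖ ^ 2 := fun t => integral_nonneg fun x => by positivity
  have hnn1 : ∀ t, 0 ≤ ∫ x in D, Z 1 x t ^ 2 := fun t => integral_nonneg fun x => by positivity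
  have hE0 : 0 ≤ E := by
    rw [← hEt 0]
    have := hnn 0
    have := hnn1 0
    positivity
  have hbd : ∀ t, |(∫ x in D, Z 0 x t * Z 1 x t) +
      2 * (∫ x in D, Z 1 x t * (x.re * (G 0 x t).re + x.im * (G 0 x t).im))| ≤ C + 2 * (B * C) := by
    intro t
    obtain ⟨b1, b2, b3⟩ := hC t
    have h1 : |∫ x in D, Z 0 x t * Z 1 x t| ≤ C := by
      have h2 : |∫ x in D, Z 0 x t * Z 1 x t| ≤ ∫ x in D, ((1 / 2) * Z 0 x t ^ 2 + (1 / 2) * Z 1 x t ^ 2) := by
        rw [← Real.norm_eq_abs]
        refine norm_integral_le_of_norm_le ?_ ?_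
        · exact ((iZ 0 t).const_mul (1 / 2)).add
            ((iZ 1 t).const_mul (1 / 2))
        · refine Eventually.of_forall fun x => ?_
          rw [Real.norm_eq_abs, abs_le]
          constructor <;> nlinarith [sq_nonneg (Z 0 x t + Z 1 x t), sq_nonneg (Z 0 x t - Z 1 x t)]
      rw [integral_add ((iZ 0 t).const_mul (1 / 2))
        ((iZ 1 t).const_mul (1 / 2)), integral_const_mul, integral_const_mul] at h2
      linarith
    have h3 : |∫ x in D, Z 1 x t * (x.re * (G 0 x t).re + x.im * (G 0 x t).im)| ≤ B * C := by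
      have h2 : |∫ x in D, Z 1 x t * (x.re * (G 0 x t).re + x.im * (G 0 x t).im)| ≤
          ∫ x in D, (B / 2 * Z 1 x t ^ 2 + B / 2 * ‖G 0 x t‖ ^ 2) := by
        rw [← Real.norm_eq_abs]
        refine norm_integral_le_of_norm_le ?_ ?_
        · exact ((iZ 1 t).const_mul (B / 2)).add
            ((iG 0 t).const_mul (B / 2))
        · refine (ae_restrict_iff' hD.measurableSet).2 (Eventually.of_forall fun x hx => ?_)
          rw [norm_mul, Real.norm_eq_abs, Real.norm_eq_abs]
          have h4 : |x.re * (G 0 x t).re + x.im * (G 0 x t).im| ≤ B * ‖G 0 x t‖ := by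
            have h5 : x.re * (G 0 x t).re + x.im * (G 0 x t).im = ((starRingEnd ℂ x) * G 0 x t).re := by
              simp [Complex.mul_re]
            rw [h5]
            refine (Complex.abs_re_le_norm _).trans ?_
            rw [norm_mul, Complex.norm_conj]
            exact mul_le_mul_of_nonneg_right (hB x hx) (norm_nonneg _)
          have h6 : |Z 1 x t| * |x.re * (G 0 x t).re + x.im * (G 0 x t).im| ≤ |Z 1 x t| * (B * ‖G 0 x t‖) :=
            mul_le_mul_of_nonneg_left h4 (abs_nonneg _)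
          refine h6.trans ?_
          have h7 : |Z 1 x t| ^ 2 = Z 1 x t ^ 2 := sq_abs _
          have h8 := mul_nonneg hB0 (sq_nonneg (|Z 1 x t| - ‖G 0 x t‖))
          nlinarith
      rw [integral_add ((iZ 1 t).const_mul (B / 2))
        ((iG 0 t).const_mul (B / 2)), integral_const_mul, integral_const_mul] at h2
      refine h2.trans ?_
      have h5 := mul_le_mul_of_nonneg_left b2 (by positivity : (0 : ℝ) ≤ B / 2)
      have h6 := mul_le_mul_of_nonneg_left b3 (by positivity : (0 : ℝ) ≤ B / 2)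
      linarith
    refine (abs_add_le _ _).trans ?_
    rw [abs_mul, abs_two]
    linarith
  have hEz : E = 0 := by
    by_contra hne
    have hpos : 0 < E := lt_of_le_of_ne hE0 (Ne.symm hne)
    set T : ℝ := (|Φ 0| + (C + 2 * (B * C)) + 1) / E with hT
    have h1 := hΦc T
    have h2 := hbd T
    have h3 : E * T = |Φ 0| + (C + 2 * (B * C)) + 1 := by
      rw [hT]
      field_simp
    have h4 : Φ T = ((∫ x in D, Z 0 x T * Z 1 x T) +
      2 * (∫ x in D, Z 1 x T * (x.re * (G 0 x T).re + x.im * (G 0 x T).im))) + E * T := rfl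
    have h5 := (abs_le.1 h2).1
    have h6 := le_abs_self (Φ 0)
    linarith
  -- conclusion
  have hGz : ∫ x in D, ‖G 0 x t‖ ^ 2 = 0 := by
    have h1 := hEt t
    rw [hEz] at h1
    have h2 := hnn t
    have h3 := hnn1 t
    have h4 : c ^ 2 * ∫ x in D, ‖G 0 x t‖ ^ 2 ≤ 0 := by linarith
    have h5 : 0 < c ^ 2 := by positivity
    nlinarith
  obtain ⟨C₃, -, -, hC₃⟩ := Mor_fderiv hb h 0 t
  have hZz : ∫ x in D, Z 0 x t ^ 2 ≤ 0 := by
    have h1 := poincare hD hb (slice (cZ 0) t) ((h.c2 0 t).of_le (by norm_num))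
      (fun x hx => h.bdry 0 x hx t) hC₃ hB
    have h2 : ∫ x in D, (pd 1 (fun x => Z 0 x t) x ^ 2 + pd Complex.I (fun x => Z 0 x t) x ^ 2) =
        ∫ x in D, ‖G 0 x t‖ ^ 2 := by
      apply setIntegral_congr_fun hD.measurableSet
      intro x hx
      simp only
      rw [(h.grad 0 x hx t).1, (h.grad 0 x hx t).2, ← Complex.normSq_eq_norm_sq, Complex.normSq_apply]
      ring
    rw [h2, hGz, mul_zero] at h1
    exact h1
  have hZz' : ∫ x in D, Z 0 x t ^ 2 = 0 := le_antisymm hZz (integral_nonneg fun x => by positivity)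
  have hae : (fun x => Z 0 x t ^ 2) =ᵐ[volume.restrict D] 0 :=
    (integral_eq_zero_iff_of_nonneg (fun x => by positivity) (iZ 0 t)).1 hZz'
  have heq := MeasureTheory.Measure.eqOn_open_of_ae_eq hae hD
    (((slice (cZ 0) t).mono subset_closure).pow 2) continuousOn_const
  have h9 : Z 0 x t ^ 2 = 0 := heq hx
  exact pow_eq_zero_iff (two_ne_zero) |>.1 h9

end DrumL
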