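import Pool.Agent.Lib.MP_d92c84_anF.Smb
import Pool.Agent.Lib.MP_d92c84_anF.Sme
import Pool.Agent.Lib.MP_d92c84_anF.Mor

/-!
# A drum solution with vanishing gradient on the whole boundary is zero
-/

set_option autoImplicit false

namespace DrumL

open MeasureTheory Set Filter Topology
open scoped ContDiff Real

/-- A drum solution whose gradient vanishes on the whole boundary at all times is zero. -/
theorem no_full_crit {c : ℝ} {D : Set ℂ} (hD : IsOpen D) (hb : Bornology.IsBounded D) (hc : 0 < c) {z : ℂ → ℝ → ℝ}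
    {G : ℂ → ℝ → ℂ} (h : Dz c D z G) (hG : ∀ x ∈ frontier D, ∀ t, G x t = 0) {x : ℂ} (hx : x ∈ D) (t : ℝ) :
    z x t = 0 := by
  by_contra hne
  have hzc : Continuous (z x) := by
    rw [← continuousOn_univ]
    exact h.cont.comp (f := fun s : ℝ => (x, s)) (by fun_prop) fun s _ => ⟨subset_closure hx, mem_univ s⟩
  obtain ⟨η, hη, hs, hn⟩ := exists_kernel hzc hne
  have h1 := ws_sm hD hb h hη hs
  have h2 := h1.all_crit hD hb hc (fun y hy s => ?_) hx t
  · refine hn ?_
    have h3 : sm η 0 z x t = ∫ s, η s * z x (t - s) := by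
      unfold sm
      simp only [iteratedDeriv_zero, smul_eq_mul]
    rw [← h3]
    exact h2
  · unfold sm
    simp only [hG y hy, smul_zero, integral_zero]

end DrumL
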