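import Mathlib

/-!
# An arc of a simple closed curve that reaches the boundary
-/

set_option autoImplicit false

namespace DrumL

open Filter Topology Set

/-- An arc of a simple closed curve in the open set `D` that reaches the boundary. -/
theorem touch_arc {g : Circle → ℂ} (hg : Continuous g) (hinj : Function.Injective g) {D : Set ℂ} (hD : IsOpen D)
    (h1 : ∃ s, g s ∈ D) (h2 : ∃ s, g s ∉ D) :
    ∃ K : Set ℂ, K ⊆ range g ∧ K ⊆ D ∧ IsPreconnected K ∧ K.Nontrivial ∧ ∃ y ∈ closure K, y ∈ range g ∧ y ∉ D := by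
  obtain ⟨s₀, hs₀⟩ := h1
  obtain ⟨s₁, hs₁⟩ := h2
  obtain ⟨θ₀, hθ₀⟩ : ∃ θ₀ : ℝ, Circle.exp θ₀ = s₀ := ⟨_, Circle.exp_arg s₀⟩
  obtain ⟨θ₁, hθ₁⟩ : ∃ θ₁ : ℝ, Circle.exp θ₁ = s₁ := ⟨_, Circle.exp_arg s₁⟩
  obtain ⟨h, hh⟩ : ∃ h : ℝ → ℂ, h = fun t => g (Circle.exp (θ₀ + t)) := ⟨_, rfl⟩
  have hhc : Continuous h := by
    rw [hh]
    exact hg.comp (Circle.exp.continuous.comp (continuous_const.add continuous_id))
  have hh0 : h 0 ∈ D := by
    rw [hh]
    simp only [add_zero]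
    rw [hθ₀]
    exact hs₀
  obtain ⟨T, hT⟩ : ∃ T : Set ℝ, T = Ici 0 ∩ h ⁻¹' Dᶜ := ⟨_, rfl⟩
  have hTc : IsClosed T := by
    rw [hT]
    exact isClosed_Ici.inter (hD.isClosed_compl.preimage hhc)
  have hTne : T.Nonempty := by
    obtain ⟨m, hm⟩ := exists_nat_ge ((θ₀ - θ₁) / (2 * Real.pi))
    refine ⟨θ₁ - θ₀ + m * (2 * Real.pi), ?_⟩
    rw [hT]
    constructor
    · rw [div_le_iff₀ (by positivity)] at hm
      rw [mem_Ici]
      linarith
    · rw [mem_preimage, hh]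
      have h3 : Circle.exp (θ₀ + (θ₁ - θ₀ + m * (2 * Real.pi))) = s₁ := by
        rw [← hθ₁, Circle.exp_eq_exp]
        exact ⟨m, by push_cast; ring⟩
      simp only [h3]
      exact hs₁
  have hTb : BddBelow T := ⟨0, fun t ht => by rw [hT] at ht; exact ht.1⟩
  obtain ⟨t₁, ht₁⟩ : ∃ t₁ : ℝ, t₁ = sInf T := ⟨_, rfl⟩
  have ht₁T : t₁ ∈ T := by
    rw [ht₁]
    exact hTc.csInf_mem hTne hTb
  have ht₁D : h t₁ ∉ D := by
    rw [hT] at ht₁T
    exact ht₁T.2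
  have ht₁0 : 0 < t₁ := by
    have h3 : 0 ≤ t₁ := by
      rw [hT] at ht₁T
      exact ht₁T.1
    refine lt_of_le_of_ne h3 fun h4 => ?_
    rw [← h4] at ht₁D
    exact ht₁D hh0
  have hlt : ∀ t ∈ Ico 0 t₁, h t ∈ D := by
    intro t ht
    by_contra h3
    have h4 : t ∈ T := by
      rw [hT]
      exact ⟨ht.1, h3⟩
    have h5 := csInf_le hTb h4
    rw [← ht₁] at h5
    exact absurd ht.2 (not_lt.2 h5)
  have hr : ∀ t, h t ∈ range g := fun t => by
    rw [hh]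
    exact mem_range_self _
  refine ⟨h '' Ico 0 t₁, ?_, ?_, ?_, ?_, h t₁, ?_, hr t₁, ht₁D⟩
  · rintro _ ⟨t, _, rfl⟩
    exact hr t
  · rintro _ ⟨t, ht, rfl⟩
    exact hlt t ht
  · exact isPreconnected_Ico.image h hhc.continuousOn
  · obtain ⟨t, ht⟩ : ∃ t : ℝ, t = min (t₁ / 2) Real.pi := ⟨_, rfl⟩
    have h3 : 0 < t := by
      rw [ht]
      exact lt_min (by linarith) Real.pi_pos
    have h4 : t < t₁ := by
      rw [ht]
      exact (min_le_left _ _).trans_lt (by linarith)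
    have h5 : t ≤ Real.pi := by
      rw [ht]
      exact min_le_right _ _
    refine ⟨h 0, ⟨0, ⟨le_rfl, ht₁0⟩, rfl⟩, h t, ⟨t, ⟨h3.le, h4⟩, rfl⟩, fun h6 => ?_⟩
    rw [hh] at h6
    have h7 := hinj h6
    rw [Circle.exp_eq_exp] at h7
    obtain ⟨m, hm⟩ := h7
    have h8 : t = -m * (2 * Real.pi) := by linarith
    have hpi := Real.pi_pos
    have h9 : (0 : ℝ) < -m := by
      by_contra h10
      have h11 : (-m : ℝ) * (2 * Real.pi) ≤ 0 := mul_nonpos_of_nonpos_of_nonneg (not_lt.1 h10) (by positivity)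
      linarith
    have h10 : (1 : ℝ) ≤ -m := by
      have h11 : (0 : ℤ) < -m := by exact_mod_cast h9
      have h12 : (1 : ℤ) ≤ -m := h11
      exact_mod_cast h12
    nlinarith
  · have h3 : t₁ ∈ closure (Ico 0 t₁) := by
      rw [closure_Ico ht₁0.ne]
      exact ⟨ht₁0.le, le_rfl⟩
    exact image_closure_subset_closure_image hhc ⟨t₁, h3, rfl⟩

end DrumL
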