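import Mathlib

/-!
# A simple closed curve contained in another one
-/

set_option autoImplicit false

namespace DrumL

open Filter Topology Set

/-- There is no injective continuous map from the circle to the line. -/
theorem no_line {ψ : Circle → ℝ} (hc : Continuous ψ) (hi : Function.Injective ψ) : False := by
  set f : ℝ → ℝ := fun θ => ψ (Circle.exp θ) - ψ (Circle.exp (θ + Real.pi)) with hf
  have hfc : Continuous f := by
    have h1 : Continuous fun θ : ℝ => Circle.exp θ := Circle.exp.continuous
    have h2 : Continuous fun θ : ℝ => Circle.exp (θ + Real.pi) := h1.comp (continuous_add_const Real.pi)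
    exact (hc.comp h1).sub (hc.comp h2)
  have hper : f Real.pi = -f 0 := by
    simp only [hf]
    have h1 : Circle.exp (Real.pi + Real.pi) = Circle.exp 0 := by
      rw [← two_mul, Circle.exp_two_pi, Circle.exp_zero]
    rw [h1, zero_add]
    ring
  have h0 : (0 : ℝ) ∈ range f := by
    rcases le_total (f 0) 0 with h | h
    · exact mem_range_of_exists_le_of_exists_ge hfc ⟨0, h⟩ ⟨Real.pi, by rw [hper]; linarith⟩
    · exact mem_range_of_exists_le_of_exists_ge hfc ⟨Real.pi, by rw [hper]; linarith⟩ ⟨0, h⟩
  obtain ⟨θ, hθ⟩ := h0
  have h1 : Circle.exp θ = Circle.exp (θ + Real.pi) := hi (by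
    have : ψ (Circle.exp θ) - ψ (Circle.exp (θ + Real.pi)) = 0 := hθ
    linarith)
  have h2 : ((Circle.exp θ : Circle) : ℂ) = ((Circle.exp (θ + Real.pi) : Circle) : ℂ) := by rw [← h1]
  rw [Circle.coe_exp, Circle.coe_exp] at h2
  push_cast at h2
  rw [add_mul, Complex.exp_add, Complex.exp_pi_mul_I] at h2
  have h3 : Complex.exp (θ * Complex.I) = 0 := by linear_combination h2 / 2
  exact Complex.exp_ne_zero _ h3

/-- A continuous injective map of the circle to itself is surjective. -/
theorem Inc_surj {ψ : Circle → Circle} (hc : Continuous ψ) (hi : Function.Injective ψ) : Function.Surjective ψ := by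
  intro c
  by_contra hne
  push Not at hne
  have hslit : ∀ s, ((Circle.exp Real.pi * (ψ s / c) : Circle) : ℂ) ∈ Complex.slitPlane := by
    intro s
    rw [Complex.mem_slitPlane_iff_arg]
    refine ⟨fun h => hne s ?_, Circle.coe_ne_zero _⟩
    have h1 : Complex.arg ((Circle.exp Real.pi : Circle) : ℂ) = Real.pi := by
      rw [Circle.coe_exp, Complex.exp_pi_mul_I, Complex.arg_neg_one]
    have h2 : Circle.exp Real.pi * (ψ s / c) = Circle.exp Real.pi := Circle.injective_arg (h.trans h1.symm)
    exact div_eq_one.mp (mul_eq_left.mp h2)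
  refine no_line (ψ := fun s => Complex.arg ((Circle.exp Real.pi * (ψ s / c) : Circle) : ℂ)) ?_ ?_
  · rw [continuous_iff_continuousAt]
    intro s
    have h1 : Continuous fun s => ((Circle.exp Real.pi * (ψ s / c) : Circle) : ℂ) :=
      continuous_subtype_val.comp (continuous_const.mul (hc.div' continuous_const))
    exact ContinuousAt.comp (f := fun s => ((Circle.exp Real.pi * (ψ s / c) : Circle) : ℂ))
      (Complex.continuousAt_arg (hslit s)) h1.continuousAt
  · intro s t hst
    have h1 : Circle.exp Real.pi * (ψ s / c) = Circle.exp Real.pi * (ψ t / c) := Circle.injective_arg hst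
    exact hi (div_left_injective (mul_left_cancel h1))

/-- A simple closed curve contained in another one is equal to it. -/
theorem curve_eq {g h : Circle → ℂ} (hg : Continuous g) (hgi : Function.Injective g) (hh : Continuous h)
    (hhi : Function.Injective h) (hsub : range g ⊆ range h) : range g = range h := by
  choose ψ hψ using fun s => hsub (mem_range_self s)
  have hemb : IsClosedEmbedding h := hh.isClosedEmbedding hhi
  have hψc : Continuous ψ := by
    rw [hemb.isInducing.continuous_iff]
    have h1 : h ∘ ψ = g := funext hψ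
    rw [h1]
    exact hg
  have hψi : Function.Injective ψ := by
    intro s t hst
    apply hgi
    rw [← hψ s, ← hψ t, hst]
  refine subset_antisymm hsub ?_
  rintro _ ⟨t, rfl⟩
  obtain ⟨s, hs⟩ := Inc_surj hψc hψi t
  exact ⟨s, by rw [← hψ s, hs]⟩

end DrumL
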