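import Pool.Agent.Lib.MP_d92c84_anF.Pea

/-!
# Functions whose radial averages vanish on a perfect set
-/

set_option autoImplicit false

namespace DrumL

open MeasureTheory Set Filter Topology
open scoped ContDiff Real ComplexConjugate

/-- A differentiable function vanishing on a set accumulating at `x` has a direction of zero derivative. -/
theorem exists_dir {f : ℂ → ℂ} {L : ℂ →L[ℝ] ℂ} {x : ℂ} (hf : HasFDerivAt f L x) {Γ : Set ℂ} (hacc : AccPt x (𝓟 Γ))
    (hx : f x = 0) (h0 : ∀ y ∈ Γ, f y = 0) : ∃ e : ℂ, ‖e‖ = 1 ∧ L e = 0 := by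
  by_contra hc
  push Not at hc
  have hker : LinearMap.ker (L : ℂ →ₗ[ℝ] ℂ) = ⊥ := by
    rw [LinearMap.ker_eq_bot']
    intro z hz
    by_contra hne
    have hn : ‖z‖ ≠ 0 := norm_ne_zero_iff.2 hne
    refine hc ((‖z‖⁻¹ : ℝ) • z) ?_ ?_
    · rw [norm_smul, norm_inv, norm_norm, inv_mul_cancel₀ hn]
    · rw [map_smul]
      have hz' : L z = 0 := hz
      rw [hz', smul_zero]
  obtain ⟨K, -, hK⟩ := (L : ℂ →ₗ[ℝ] ℂ).exists_antilipschitzWith hker
  have hev := hf.eventually_ne (c := 0) ⟨K, hK⟩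
  rw [accPt_iff_frequently] at hacc
  rw [eventually_nhdsWithin_iff] at hev
  obtain ⟨y, ⟨hy1, hy2⟩, hy3⟩ := (hacc.and_eventually hev).exists
  exact hy3 hy1 (h0 y hy2)

/-- All the averages with the kernels of an admissible profile vanish on a perfect set, if the first
two families do. -/
theorem An_zero {δ : ℝ} (hδ : 0 < δ) {w : ℂ → ℝ} (hw : Continuous w) (hs : HasCompactSupport w) {Γ : Set ℂ}
    (hacc : ∀ x ∈ Γ, AccPt x (𝓟 Γ)) (h0 : ∀ k, Prf δ k → ∀ x ∈ Γ, An 0 k w x = 0)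
    (h1 : ∀ k, Prf δ k → ∀ x ∈ Γ, An 1 k w x = 0) (n : ℕ) : ∀ k, Prf δ k → ∀ x ∈ Γ, An n k w x = 0 := by
  have hC : ∀ n : ℕ, (∀ k, Prf δ k → ∀ x ∈ Γ, An n k w x = 0) ∧
      ∀ k, Prf δ k → ∀ x ∈ Γ, An (n + 1) k w x = 0 := by
    intro n
    induction n with
    | zero => exact ⟨h0, h1⟩
    | succ n ih =>
      refine ⟨ih.2, fun k hk x hx => ?_⟩
      obtain ⟨L, hL, hLe⟩ := An_fderiv hδ hk (n := n) hw hs x
      obtain ⟨e, he, he0⟩ := exists_dir hL (hacc x hx) (ih.2 k hk x hx) fun y hy => ih.2 k hk y hy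
      rw [hLe, ih.1 (lapk k) (prf_lapk hk) x hx, mul_zero, add_zero] at he0
      rcases mul_eq_zero.1 he0 with h2 | h2
      · rw [h2, norm_zero] at he
        exact absurd he.symm one_ne_zero
      · exact h2
  exact (hC n).1

end DrumL
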