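import Pool.Agent.Lib.MP_d92c84_anF.Rdk

/-!
# If all radial profiles give zero then the mode is zero
-/

set_option autoImplicit false

namespace DrumL

open MeasureTheory Set Filter Topology
open scoped ContDiff Real ComplexConjugate

private lemma Rdm_prim {c : ℝ} : ∀ (n : ℕ) (h : ℝ → ℝ), ContDiff ℝ ∞ h → (∀ s, c ≤ s → h s = 0) →
    ∃ k : ℝ → ℝ, ContDiff ℝ ∞ k ∧ (∀ s, c ≤ s → k s = 0) ∧ iteratedDeriv n k = h := by
  intro n
  induction n with
  | zero =>
    intro h hh h0
    exact ⟨h, hh, h0, iteratedDeriv_zero⟩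
  | succ n ih =>
    intro h hh h0
    set k1 : ℝ → ℝ := fun s => ∫ u in c..s, h u with hk1
    have hd : ∀ s, HasDerivAt k1 (h s) s := fun s =>
      intervalIntegral.integral_hasDerivAt_right (hh.continuous.intervalIntegrable _ _)
        (hh.continuous.stronglyMeasurableAtFilter _ _) hh.continuous.continuousAt
    have hder : deriv k1 = h := funext fun s => (hd s).deriv
    have hk1s : ContDiff ℝ ∞ k1 := by
      rw [contDiff_infty_iff_deriv]
      exact ⟨fun s => (hd s).differentiableAt, by rw [hder]; exact hh⟩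
    have hk10 : ∀ s, c ≤ s → k1 s = 0 := by
      intro s hs
      simp only [hk1]
      rw [intervalIntegral.integral_congr (g := fun _ => (0 : ℝ)) (fun u hu => ?_)]
      · simp
      · rw [uIcc_of_le hs] at hu
        exact h0 u hu.1
    obtain ⟨k, hk, hk0, hke⟩ := ih k1 hk1s hk10
    refine ⟨k, hk, hk0, ?_⟩
    rw [iteratedDeriv_succ, hke, hder]

private lemma Rdm_cont {n : ℕ} {w : ℂ → ℝ} (hw : Continuous w) (x : ℂ) : Continuous (md n x w) := by
  unfold md
  apply intervalIntegral.continuous_parametric_intervalIntegral_of_continuous'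
  have h1 : Continuous fun q : ℝ × ℝ => x + (q.1 : ℂ) * cis q.2 := by
    unfold cis
    fun_prop
  have h2 : Continuous fun q : ℝ × ℝ => ((w (x + (q.1 : ℂ) * cis q.2) : ℝ) : ℂ) :=
    Complex.continuous_ofReal.comp (hw.comp h1)
  exact h2.mul (by fun_prop)

/-- If all profiles give zero then the mode is zero. -/
theorem md_zero_of_An {δ : ℝ} (hδ : 0 < δ) {n : ℕ} {w : ℂ → ℝ} (hw : Continuous w) {x : ℂ}
    (h : ∀ k, Prf δ k → An n k w x = 0) {r : ℝ} (hr : r ∈ Ioo 0 δ) : md n x w r = 0 := by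
  by_contra hne
  have hmc : Continuous (md n x w) := Rdm_cont hw x
  set c : ℂ := conj (md n x w r) with hc
  have hgc : Continuous fun s : ℝ => (c * md n x w s).re :=
    Complex.continuous_re.comp (continuous_const.mul hmc)
  have hpos : 0 < (c * md n x w r).re := by
    rw [hc, mul_comm, Complex.mul_conj, Complex.ofReal_re]
    exact Complex.normSq_pos.2 hne
  have hev : ∀ᶠ s in 𝓝 r, 0 < (c * md n x w s).re := hgc.continuousAt.eventually (lt_mem_nhds hpos)
  obtain ⟨η0, hη0, hball⟩ := Metric.eventually_nhds_iff.1 hev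
  set η := min η0 (δ - r) with hη
  have hηpos : 0 < η := lt_min hη0 (by linarith [hr.2])
  set ρ := η * r with hρ
  have hρpos : 0 < ρ := mul_pos hηpos hr.1
  set f : ℝ → ℝ := fun s => expNegInvGlue (ρ ^ 2 - (s - r ^ 2) ^ 2) with hf
  have hfs : ContDiff ℝ ∞ f := by
    rw [hf]
    exact expNegInvGlue.contDiff.comp (by fun_prop)
  have hf0 : ∀ s, δ ^ 2 ≤ s → f s = 0 := by
    intro s hs
    apply expNegInvGlue.zero_of_nonpos
    have h1 : ρ ≤ s - r ^ 2 := by
      have h2 : η ≤ δ - r := min_le_right _ _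
      have h3 : η * r ≤ (δ - r) * r := mul_le_mul_of_nonneg_right h2 hr.1.le
      have h4 : (δ - r) * r ≤ (δ - r) * (δ + r) := mul_le_mul_of_nonneg_left (by linarith) (by linarith [hr.2])
      nlinarith
    nlinarith
  obtain ⟨k, hk, hk0, hke⟩ := Rdm_prim n f hfs hf0
  have hA := h k ⟨hk, hk0⟩
  rw [An_polar hδ ⟨hk, hk0⟩ n hw x, hke] at hA
  have hI : ∫ s in (0 : ℝ)..δ, ((s ^ (n + 1) * f (s ^ 2) : ℝ) : ℂ) * md n x w s = 0 := by
    rcases mul_eq_zero.1 hA with h1 | h1
    · exact absurd h1 (pow_ne_zero _ (by norm_num))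
    · exact h1
  have hFc : Continuous fun s : ℝ => c * (((s ^ (n + 1) * f (s ^ 2) : ℝ) : ℂ) * md n x w s) := by
    refine continuous_const.mul (Continuous.mul (Complex.continuous_ofReal.comp ?_) hmc)
    exact (continuous_pow _).mul (hfs.continuous.comp (continuous_pow 2))
  have hI2 : ∫ s in (0 : ℝ)..δ, c * (((s ^ (n + 1) * f (s ^ 2) : ℝ) : ℂ) * md n x w s) = 0 := by
    rw [intervalIntegral.integral_const_mul, hI, mul_zero]
  have hI3 : ∫ s in (0 : ℝ)..δ, (c * (((s ^ (n + 1) * f (s ^ 2) : ℝ) : ℂ) * md n x w s)).re = 0 := by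
    have h1 := Complex.reCLM.intervalIntegral_comp_comm (hFc.intervalIntegrable (μ := volume) 0 δ)
    rw [hI2, map_zero] at h1
    exact h1
  have hpt : ∀ s : ℝ, (c * (((s ^ (n + 1) * f (s ^ 2) : ℝ) : ℂ) * md n x w s)).re =
      s ^ (n + 1) * f (s ^ 2) * (c * md n x w s).re := by
    intro s
    rw [← mul_assoc, mul_comm c, mul_assoc, Complex.re_ofReal_mul]
  have hlt : 0 < ∫ s in (0 : ℝ)..δ, (c * (((s ^ (n + 1) * f (s ^ 2) : ℝ) : ℂ) * md n x w s)).re := by
    apply intervalIntegral.integral_pos hδ (Complex.continuous_re.comp hFc).continuousOn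
    · intro s hs
      rw [Function.comp_apply, hpt]
      rcases eq_or_ne (f (s ^ 2)) 0 with h1 | h1
      · rw [h1]; simp
      · have h2 : (s ^ 2 - r ^ 2) ^ 2 < ρ ^ 2 := by
          by_contra h3
          exact h1 (expNegInvGlue.zero_of_nonpos (by linarith [not_lt.1 h3]))
        have h4 : |s ^ 2 - r ^ 2| < ρ := by
          have := sq_lt_sq.1 h2
          rwa [abs_of_pos hρpos] at this
        have h5 : |s - r| * r < η * r := by
          have h6 : |s ^ 2 - r ^ 2| = |s - r| * (s + r) := by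
            rw [show s ^ 2 - r ^ 2 = (s - r) * (s + r) by ring, abs_mul, abs_of_pos (by linarith [hs.1, hr.1] : (0 : ℝ) < s + r)]
          have h7 : |s - r| * r ≤ |s - r| * (s + r) := mul_le_mul_of_nonneg_left (by linarith [hs.1]) (abs_nonneg _)
          linarith
        have h8 : |s - r| < η0 := lt_of_lt_of_le (lt_of_mul_lt_mul_right h5 hr.1.le) (min_le_left _ _)
        have h9 := hball (y := s) (by rw [Real.dist_eq]; exact h8)
        exact mul_nonneg (mul_nonneg (pow_nonneg hs.1.le _) (expNegInvGlue.nonneg _)) h9.le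
    · refine ⟨r, ⟨hr.1.le, hr.2.le⟩, ?_⟩
      rw [Function.comp_apply, hpt]
      refine mul_pos (mul_pos (pow_pos hr.1 _) (expNegInvGlue.pos_of_pos ?_)) hpos
      have h1 : r ^ 2 - r ^ 2 = 0 := sub_self _
      rw [h1]
      nlinarith
  linarith

end DrumL
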