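import Pool.Agent.Lib.MP_d92c84_anF.Mdz
import Pool.Agent.Lib.MP_d92c84_anF.Peb
import Pool.Agent.Lib.MP_d92c84_anF.Rdm
import Pool.Agent.Lib.MP_d92c84_anF.Fun

/-!
# A drum solution that vanishes with its gradient on a perfect set, at all times, is zero
-/

set_option autoImplicit false

namespace DrumL

open MeasureTheory Set Filter Topology
open scoped ContDiff Real

theorem Pro_circle {x : ℂ} {r δ : ℝ} (hr : r ∈ Ioo 0 δ) (θ : ℝ) : x + r * cis θ ∈ Metric.ball x δ := by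
  rw [Metric.mem_ball, dist_eq_norm, add_sub_cancel_left, norm_mul, cis, Complex.norm_exp_ofReal_mul_I,
    mul_one, Complex.norm_real, Real.norm_of_nonneg hr.1.le]
  exact hr.2

/-- The mode depends only on the values on the circle. -/
theorem Pro_md {n : ℕ} {x : ℂ} {r : ℝ} {f g : ℂ → ℝ} (h : ∀ θ : ℝ, f (x + r * cis θ) = g (x + r * cis θ)) :
    md n x f r = md n x g r := by
  unfold md
  refine intervalIntegral.integral_congr fun θ _ => ?_
  simp only [h θ]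

/-- If the mode vanishes then the convolution with the kernel vanishes. -/
theorem Pro_An {δ : ℝ} (hδ : 0 < δ) {n : ℕ} {w : ℂ → ℝ} (hw : Continuous w) {x : ℂ}
    (h : ∀ r ∈ Ioo 0 δ, md n x w r = 0) (k : ℝ → ℝ) (hk : Prf δ k) : An n k w x = 0 := by
  rw [An_polar hδ hk n hw x, intervalIntegral.integral_zero_ae, mul_zero]
  have h1 : ({δ} : Set ℝ)ᶜ ∈ ae (volume : Measure ℝ) :=
    compl_mem_ae_iff.mpr (measure_singleton δ)
  filter_upwards [h1] with r hr hr2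
  rw [uIoc_of_le hδ.le] at hr2
  rw [h r ⟨hr2.1, lt_of_le_of_ne hr2.2 hr⟩, mul_zero]

/-- Accumulation points of the part of a set in an open set. -/
theorem Pro_acc {Γ U : Set ℂ} {x : ℂ} (hU : IsOpen U) (hx : x ∈ U) (h : AccPt x (𝓟 Γ)) :
    AccPt x (𝓟 (Γ ∩ U)) := by
  rw [accPt_iff_nhds] at h ⊢
  intro V hV
  obtain ⟨y, hy, hne⟩ := h (V ∩ U) (inter_mem hV (hU.mem_nhds hx))
  exact ⟨y, ⟨hy.1.1, hy.2, hy.1.2⟩, hne⟩

/-- The points of an open set are accumulation points of it. -/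
theorem Pro_acc_open {U : Set ℂ} {x : ℂ} (hU : IsOpen U) (hx : x ∈ U) : AccPt x (𝓟 U) := by
  rw [accPt_iff_nhds]
  intro V hV
  have h1 : V ∩ U ∈ 𝓝 x := inter_mem hV (hU.mem_nhds hx)
  have h2 : V ∩ U ∩ {x}ᶜ ∈ 𝓝[≠] x := inter_mem (mem_nhdsWithin_of_mem_nhds h1) self_mem_nhdsWithin
  obtain ⟨y, hy, hne⟩ := (inferInstance : (𝓝[≠] x).NeBot).nonempty_of_mem h2
  exact ⟨y, hy, hne⟩

/-- A drum solution which vanishes with its gradient at the points of a perfect set, at all times, vanishes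
on every disc about a point of the set which is contained in the drum. -/
theorem loc_zero {c : ℝ} {D : Set ℂ} (hD : IsOpen D) (hb : Bornology.IsBounded D) (hc : 0 < c) {z : ℂ → ℝ → ℝ}
    {G : ℂ → ℝ → ℂ} (h : Dz c D z G) {Γ : Set ℂ} (hΓD : Γ ⊆ D) (hacc : ∀ x ∈ Γ, AccPt x (𝓟 Γ))
    (hz : ∀ x ∈ Γ, ∀ t, z x t = 0) (hG : ∀ x ∈ Γ, ∀ t, G x t = 0) {x₀ : ℂ} (hx₀ : x₀ ∈ Γ) {ρ : ℝ}
    (hρ : Metric.ball x₀ ρ ⊆ D) {y : ℂ} (hy : y ∈ Metric.ball x₀ ρ) (t : ℝ) : z y t = 0 := by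
  have hyD : y ∈ D := hρ hy
  rw [Metric.mem_ball] at hy
  obtain ⟨ρ', h0, h1, h2⟩ : ∃ ρ' : ℝ, 0 < ρ' ∧ dist y x₀ < ρ' ∧ ρ' < ρ :=
    ⟨(dist y x₀ + ρ) / 2, by linarith [dist_nonneg (x := y) (y := x₀)], by linarith, by linarith⟩
  let Γ' : Set ℂ := Γ ∩ Metric.ball x₀ (ρ - ρ')
  have hΓ' : ∀ x ∈ Γ', Metric.ball x ρ' ⊆ D := fun x hx => by
    refine Subset.trans ?_ hρ
    intro u hu
    have h3 : dist x x₀ < ρ - ρ' := hx.2
    have h4 : dist u x < ρ' := hu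
    have h5 := dist_triangle u x x₀
    rw [Metric.mem_ball]
    linarith
  have hacc' : ∀ x ∈ Γ', AccPt x (𝓟 Γ') := fun x hx => Pro_acc Metric.isOpen_ball hx.2 (hacc x hx.1)
  let w : ℂ → ℝ := indicator D fun y => z y t
  have hw : Continuous w := zero_ext hD (slice h.cont t) fun x hx => h.bdry x hx t
  have hws : HasCompactSupport w := compact_ext hb _
  have hmd : ∀ x ∈ Γ', ∀ n, ∀ r ∈ Ioo 0 ρ', md n x w r = md n x (fun y => z y t) r := fun x hx n r hr =>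
    Pro_md fun θ => indicator_of_mem (hΓ' x hx (Pro_circle hr θ)) _
  have hA0 : ∀ k, Prf ρ' k → ∀ x ∈ Γ', An 0 k w x = 0 := fun k hk x hx =>
    Pro_An h0 hw (fun r hr => by
      rw [hmd x hx 0 r hr]
      exact mode_zero hD hc h h0 (hΓ' x hx) (hz x hx.1) hr t) k hk
  have hA1 : ∀ k, Prf ρ' k → ∀ x ∈ Γ', An 1 k w x = 0 := fun k hk x hx =>
    Pro_An h0 hw (fun r hr => by
      rw [hmd x hx 1 r hr]
      exact mode_one hD hc h h0 (hΓ' x hx) (hG x hx.1) hr t) k hk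
  have hx₀' : x₀ ∈ Γ' := ⟨hx₀, Metric.mem_ball_self (by linarith)⟩
  have h3 : w y = 0 := zero_of_modes (x := x₀) (δ := ρ') hw.continuousOn
    (fun n r hr => md_zero_of_An h0 hw
      (fun k hk => An_zero h0 hw hws hacc' hA0 hA1 n k hk x₀ hx₀') hr) h1
  rwa [show w y = z y t from indicator_of_mem hyD _] at h3

/-- A drum solution which vanishes with its gradient at the points of a perfect set, at all times, is zero. -/
theorem prop_zero {c : ℝ} {D : Set ℂ} (hD : IsOpen D) (hb : Bornology.IsBounded D) (hDc : IsPreconnected D) (hc : 0 < c)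
    {z : ℂ → ℝ → ℝ} {G : ℂ → ℝ → ℂ} (h : Dz c D z G) {Γ : Set ℂ} (hΓD : Γ ⊆ D) (hne : Γ.Nonempty)
    (hacc : ∀ x ∈ Γ, AccPt x (𝓟 Γ)) (hz : ∀ x ∈ Γ, ∀ t, z x t = 0) (hG : ∀ x ∈ Γ, ∀ t, G x t = 0) {x : ℂ}
    (hx : x ∈ D) (t : ℝ) : z x t = 0 := by
  let S : Set ℂ := {x | ∃ ε > 0, Metric.ball x ε ⊆ D ∧ ∀ y ∈ Metric.ball x ε, ∀ t, z y t = 0}
  have hSo : IsOpen S := by
    rw [Metric.isOpen_iff]
    rintro x ⟨ε, hε, h1, h2⟩
    refine ⟨ε, hε, fun y hy => ?_⟩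
    have hsub : Metric.ball y (ε - dist y x) ⊆ Metric.ball x ε := by
      intro u hu
      have h4 : dist u y < ε - dist y x := hu
      have h5 := dist_triangle u y x
      rw [Metric.mem_ball]
      linarith
    have hy' : dist y x < ε := hy
    exact ⟨ε - dist y x, by linarith, hsub.trans h1, fun u hu => h2 u (hsub hu)⟩
  have hSn : (D ∩ S).Nonempty := by
    obtain ⟨x₁, hx₁⟩ := hne
    obtain ⟨ρ, hρ, hball⟩ := Metric.isOpen_iff.mp hD x₁ (hΓD hx₁)
    exact ⟨x₁, hΓD hx₁, ρ, hρ, hball, fun y hy t => loc_zero hD hb hc h hΓD hacc hz hG hx₁ hball hy t⟩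
  have hcl : closure S ∩ D ⊆ S := by
    rintro x ⟨hxS, hxD⟩
    obtain ⟨ρ, hρ, hball⟩ := Metric.isOpen_iff.mp hD x hxD
    obtain ⟨x₁, hx₁, hd⟩ := Metric.mem_closure_iff.mp hxS (ρ / 3) (by linarith)
    obtain ⟨ε, hε, h1, h2⟩ := hx₁
    have hb2 : Metric.ball x₁ (2 * (ρ / 3)) ⊆ D := by
      refine Subset.trans ?_ hball
      intro u hu
      have h4 : dist u x₁ < 2 * (ρ / 3) := hu
      have h5 := dist_triangle u x₁ x
      rw [dist_comm x₁ x] at h5
      rw [Metric.mem_ball]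
      linarith
    have hG1 : ∀ y ∈ Metric.ball x₁ ε, ∀ t, G y t = 0 := fun y hy t => by
      have hev : (fun u => z u t) =ᶠ[𝓝 y] fun _ => 0 := by
        filter_upwards [Metric.isOpen_ball.mem_nhds hy] with u hu
        exact h2 u hu t
      have hfd : fderiv ℝ (fun u => z u t) y = 0 := by
        rw [hev.fderiv_eq]
        simp
      have h3 := h.grad y (h1 hy) t
      unfold pd at h3
      rw [hfd] at h3
      refine Complex.ext ?_ ?_
      · rw [← h3.1]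
        rfl
      · rw [← h3.2]
        rfl
    refine ⟨ρ / 3, by linarith, (Metric.ball_subset_ball (by linarith)).trans hball, fun y hy t => ?_⟩
    refine loc_zero hD hb hc h (Γ := Metric.ball x₁ ε) h1
      (fun u hu => Pro_acc_open Metric.isOpen_ball hu) h2 hG1 (Metric.mem_ball_self hε) hb2 ?_ t
    have h4 : dist y x < ρ / 3 := hy
    have h5 := dist_triangle y x x₁
    rw [Metric.mem_ball]
    linarith
  obtain ⟨ε, hε, -, h2⟩ := hDc.subset_of_closure_inter_subset hSo hSn hcl hx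
  exact h2 x (Metric.mem_ball_self hε) t

end DrumL
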