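import Pool.Agent.Lib.MP_d92c84_anF.Par

/-!
# Sard's theorem for C² functions on the plane: points where the second derivative vanishes
-/

set_option autoImplicit false

namespace DrumL

open MeasureTheory Set Filter Topology
open scoped ContDiff

/-- The second order expansion at a point where the first two derivatives vanish. -/
private theorem Sa2_taylor {D : Set ℂ} (hD : IsOpen D) {f : ℂ → ℝ} (hf : ContDiffOn ℝ 2 f D) {x : ℂ}
    (hx : x ∈ D) (h1 : fderiv ℝ f x = 0) (h2 : fderiv ℝ (fderiv ℝ f) x = 0) {ε : ℝ} (hε : 0 < ε) :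
    ∃ δ > 0, ∀ y ∈ D, dist y x < δ → |f y - f x| ≤ ε * dist y x ^ 2 := by
  have hd1 : DifferentiableOn ℝ (fderiv ℝ f) D :=
    (hf.fderiv_of_isOpen hD (m := 1) (by norm_num)).differentiableOn (by norm_num)
  have hd2 : HasFDerivAt (fderiv ℝ f) (0 : ℂ →L[ℝ] ℂ →L[ℝ] ℝ) x := by
    rw [← h2]
    exact (hd1.differentiableAt (hD.mem_nhds hx)).hasFDerivAt
  have h3 := (hasFDerivAt_iff_isLittleO.1 hd2).def hε
  rw [Metric.eventually_nhds_iff] at h3
  obtain ⟨δ₁, hδ₁, h4⟩ := h3
  obtain ⟨δ₂, hδ₂, h5⟩ := Metric.isOpen_iff.1 hD x hx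
  refine ⟨min δ₁ δ₂, lt_min hδ₁ hδ₂, fun y _ hy => ?_⟩
  have hy1 : dist y x < δ₁ := hy.trans_le (min_le_left _ _)
  have hy2 : dist y x < δ₂ := hy.trans_le (min_le_right _ _)
  have hsub : Metric.closedBall x (dist y x) ⊆ D :=
    (Metric.closedBall_subset_ball hy2).trans h5
  have hdf : DifferentiableOn ℝ f D := hf.differentiableOn (by norm_num)
  have h6 : ∀ z ∈ Metric.closedBall x (dist y x), ‖fderiv ℝ f z‖ ≤ ε * dist y x := by
    intro z hz
    have hz1 : dist z x ≤ dist y x := Metric.mem_closedBall.1 hz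
    have h7 := h4 (hz1.trans_lt hy1)
    rw [h1] at h7
    simp only [sub_zero, zero_apply] at h7
    refine h7.trans ?_
    rw [← dist_eq_norm]
    exact mul_le_mul_of_nonneg_left hz1 hε.le
  have h8 := (convex_closedBall x (dist y x)).norm_image_sub_le_of_norm_fderiv_le
    (𝕜 := ℝ) (fun z hz => hdf.differentiableAt (hD.mem_nhds (hsub hz))) h6
    (Metric.mem_closedBall_self dist_nonneg) (Metric.mem_closedBall.2 le_rfl)
  rw [Real.norm_eq_abs, ← dist_eq_norm] at h8
  calc |f y - f x| ≤ ε * dist y x * dist y x := h8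
    _ = ε * dist y x ^ 2 := by ring

/-- A set on which `f` has small second order increments has a small image. -/
private theorem Sa2_piece {f : ℂ → ℝ} {F : Set ℂ} {B : Set ℂ} (hB : MeasurableSet B) (hFB : F ⊆ B)
    (ε : NNReal) {r : ℝ} (hr : 0 < r)
    (h : ∀ x ∈ F, ∀ y ∈ F, dist x y < r → |f x - f y| ≤ ε * dist x y ^ 2) :
    volume (f '' F) ≤ ε * Measure.hausdorffMeasure 2 B := by
  set A : ℕ → Set ℂ := disjointed fun i => Metric.ball (TopologicalSpace.denseSeq ℂ i) (r / 2) with hA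
  have hAm : ∀ i, MeasurableSet (A i) := fun i =>
    MeasurableSet.disjointed (fun i => Metric.isOpen_ball.measurableSet) i
  have hAU : ⋃ i, A i = univ := by
    rw [hA, iUnion_disjointed, eq_univ_iff_forall]
    intro x
    obtain ⟨i, hi⟩ := (TopologicalSpace.denseRange_denseSeq ℂ).exists_dist_lt x (half_pos hr)
    exact mem_iUnion.2 ⟨i, hi⟩
  have hAd : ∀ i, ∀ x ∈ A i, ∀ y ∈ A i, dist x y < r := by
    intro i x hx y hy
    have hx1 := disjointed_subset _ i hx
    have hy1 := disjointed_subset _ i hy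
    rw [Metric.mem_ball] at hx1 hy1
    calc dist x y ≤ dist x _ + dist y _ := dist_triangle_right _ _ _
      _ < r / 2 + r / 2 := add_lt_add hx1 hy1
      _ = r := add_halves r
  have h1 : ∀ i, volume (f '' (F ∩ A i)) ≤ ε * Measure.hausdorffMeasure 2 (B ∩ A i) := by
    intro i
    have hH : HolderOnWith ε 2 f (F ∩ A i) := by
      intro x hx y hy
      have h2 := h x hx.1 y hy.1 (hAd i x hx.2 y hy.2)
      rw [edist_dist, edist_dist, Real.dist_eq, NNReal.coe_ofNat,
        ENNReal.ofReal_rpow_of_nonneg dist_nonneg (by norm_num), ← ENNReal.ofReal_coe_nnreal,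
        ← ENNReal.ofReal_mul ε.coe_nonneg]
      refine ENNReal.ofReal_le_ofReal ?_
      rw [show ((2 : ℝ)) = ((2 : ℕ) : ℝ) by norm_num, Real.rpow_natCast]
      exact h2
    have h3 := hH.hausdorffMeasure_image_le (by norm_num) (d := 1) zero_le_one
    rw [ENNReal.rpow_one, mul_one, hausdorffMeasure_real, NNReal.coe_ofNat] at h3
    refine h3.trans ?_
    gcongr
  have hF : f '' F = ⋃ i, f '' (F ∩ A i) := by
    rw [← image_iUnion, ← inter_iUnion, hAU, inter_univ]
  calc volume (f '' F) = volume (⋃ i, f '' (F ∩ A i)) := by rw [hF]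
    _ ≤ ∑' i, volume (f '' (F ∩ A i)) := measure_iUnion_le _
    _ ≤ ∑' i, ε * Measure.hausdorffMeasure 2 (B ∩ A i) := ENNReal.tsum_le_tsum h1
    _ = ε * ∑' i, Measure.hausdorffMeasure 2 (B ∩ A i) := ENNReal.tsum_mul_left
    _ = ε * Measure.hausdorffMeasure 2 (⋃ i, B ∩ A i) := by
      rw [measure_iUnion]
      · intro i j hij
        exact (disjoint_disjointed _ hij).mono inter_subset_right inter_subset_right
      · exact fun i => hB.inter (hAm i)
    _ = ε * Measure.hausdorffMeasure 2 B := by rw [← inter_iUnion, hAU, inter_univ]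

/-- Sard's theorem at the points where the first and the second derivative vanish. -/
theorem sard_two {D : Set ℂ} (hD : IsOpen D) {f : ℂ → ℝ} (hf : ContDiffOn ℝ 2 f D) :
    volume (f '' {x | x ∈ D ∧ fderiv ℝ f x = 0 ∧ fderiv ℝ (fderiv ℝ f) x = 0}) = 0 := by
  set E : Set ℂ := {x | x ∈ D ∧ fderiv ℝ f x = 0 ∧ fderiv ℝ (fderiv ℝ f) x = 0} with hE
  have hfin : ∀ k : ℕ, Measure.hausdorffMeasure 2 (Metric.closedBall (0 : ℂ) k) < ⊤ := by
    intro k
    have h1 : (Module.finrank ℝ ℂ : ℝ) = 2 := by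
      rw [Complex.finrank_real_complex]
      norm_num
    have h2 : Measure.IsAddHaarMeasure (Measure.hausdorffMeasure 2 : Measure ℂ) := by
      rw [← h1]
      infer_instance
    exact (isCompact_closedBall (0 : ℂ) k).measure_lt_top
  have hEk : E = ⋃ k : ℕ, E ∩ Metric.closedBall 0 k := by
    rw [← inter_iUnion]
    refine (inter_eq_left.2 fun x _ => ?_).symm
    obtain ⟨k, hk⟩ := exists_nat_ge (dist x 0)
    exact mem_iUnion.2 ⟨k, hk⟩
  rw [hEk, image_iUnion, measure_iUnion_null_iff]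
  intro k
  have key : ∀ ε : NNReal, 0 < ε →
      volume (f '' (E ∩ Metric.closedBall 0 k)) ≤ ε * Measure.hausdorffMeasure 2 (Metric.closedBall (0 : ℂ) k) := by
    intro ε hε
    set F : ℕ → Set ℂ := fun n => {x | x ∈ E ∩ Metric.closedBall 0 k ∧
      ∀ y ∈ D, dist y x < 1 / ((n : ℝ) + 1) → |f y - f x| ≤ ε * dist y x ^ 2} with hF
    have hFU : E ∩ Metric.closedBall 0 k = ⋃ n, F n := by
      apply Subset.antisymm
      · intro x hx
        obtain ⟨δ, hδ, h1⟩ := Sa2_taylor hD hf hx.1.1 hx.1.2.1 hx.1.2.2 (ε := ε) (by exact_mod_cast hε)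
        obtain ⟨n, hn⟩ := exists_nat_one_div_lt hδ
        exact mem_iUnion.2 ⟨n, hx, fun y hy hyx => h1 y hy (hyx.trans hn)⟩
      · exact iUnion_subset fun n x hx => hx.1
    have hmono : Monotone fun n => f '' F n := by
      intro n n' hnn
      refine image_mono fun x hx => ⟨hx.1, fun y hy hyx => hx.2 y hy (hyx.trans_le ?_)⟩
      exact one_div_le_one_div_of_le (by positivity) (by
        have : (n : ℝ) ≤ n' := by exact_mod_cast hnn
        linarith)
    rw [hFU, image_iUnion, hmono.measure_iUnion]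
    refine iSup_le fun n => ?_
    refine Sa2_piece (Metric.isClosed_closedBall.measurableSet) (fun x hx => hx.1.2) ε
      (r := 1 / ((n : ℝ) + 1)) (by positivity) ?_
    intro x hx y hy hxy
    exact hy.2 x hx.1.1.1 hxy
  obtain ⟨M, hM⟩ : ∃ M : NNReal, Measure.hausdorffMeasure 2 (Metric.closedBall (0 : ℂ) k) = M :=
    ⟨_, (ENNReal.coe_toNNReal (hfin k).ne).symm⟩
  rw [hM] at key
  refine le_antisymm (ENNReal.le_of_forall_pos_le_add fun η hη _ => ?_) zero_le
  rw [zero_add]
  have hM1 : (0 : NNReal) < M + 1 := by positivity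
  refine (key (η / (M + 1)) (div_pos hη hM1)).trans ?_
  rw [← ENNReal.coe_mul]
  refine ENNReal.coe_le_coe.2 ?_
  rw [div_mul_eq_mul_div, div_le_iff₀ hM1]
  exact mul_le_mul_of_nonneg_left (le_add_of_nonneg_right zero_le_one) hη.le

end DrumL
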