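import Pool.Agent.Lib.MP_d92c84_anF.Sa1
import Pool.Agent.Lib.MP_d92c84_anF.Sa2

/-!
# A C² function is constant on a connected set of critical points
-/

set_option autoImplicit false

namespace DrumL

open MeasureTheory Set Filter Topology
open scoped ContDiff

/-- A `C²` function on an open subset of the plane is constant on every connected set of critical points. -/
theorem const_of_crit {D : Set ℂ} (hD : IsOpen D) {f : ℂ → ℝ} (hf : ContDiffOn ℝ 2 f D) {K : Set ℂ} (hKD : K ⊆ D)
    (hK : IsPreconnected K) (h0 : ∀ x ∈ K, fderiv ℝ f x = 0) {x y : ℂ} (hx : x ∈ K) (hy : y ∈ K) : f x = f y := by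
  have h1 : volume (f '' K) = 0 := by
    refine measure_mono_null ?_ (measure_union_null (sard_one hD hf) (sard_two hD hf))
    rw [← image_union]
    refine image_mono fun x hx => ?_
    by_cases h : fderiv ℝ (fderiv ℝ f) x = 0
    · exact Or.inr ⟨hKD hx, h0 x hx, h⟩
    · exact Or.inl ⟨hKD hx, h0 x hx, h⟩
  have h2 : IsPreconnected (f '' K) := hK.image f (hf.continuousOn.mono hKD)
  by_contra hne
  wlog hlt : f x < f y generalizing x y
  · exact this hy hx (Ne.symm hne) (lt_of_le_of_ne (not_lt.1 hlt) (Ne.symm hne))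
  have h3 : Icc (f x) (f y) ⊆ f '' K := h2.Icc_subset ⟨x, hx, rfl⟩ ⟨y, hy, rfl⟩
  have h4 : volume (Icc (f x) (f y)) = 0 := measure_mono_null h3 h1
  rw [Real.volume_Icc, ENNReal.ofReal_eq_zero] at h4
  linarith

end DrumL
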