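import Pool.Agent.Lib.MP_d92c84_anF.Fna
import Pool.Agent.Lib.MP_d92c84_anF.Pro
import Pool.Agent.Lib.MP_d92c84_anF.Sa3
import Pool.Agent.Lib.MP_d92c84_anF.Inb
import Pool.Agent.Lib.MP_d92c84_anF.Inc

/-!
# The curve lies in the open region
-/

set_option autoImplicit false

namespace DrumL

open MeasureTheory Set Filter Topology
open scoped ContDiff Real

/-- The derivative in space at a zero of the gradient vanishes. -/
private theorem Fnb_fderiv {c : ℝ} {D : Set ℂ} {z : ℂ → ℝ → ℝ} {G : ℂ → ℝ → ℂ} (h : Dz c D z G) {a : ℂ} (ha : a ∈ D) {t : ℝ}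
    (h0 : G a t = 0) : fderiv ℝ (fun y => z y t) a = 0 := by
  have h1 := h.grad a ha t
  rw [h0, Complex.zero_re, Complex.zero_im] at h1
  ext v
  have hv : v = v.re • (1 : ℂ) + v.im • Complex.I := by
    rw [Complex.real_smul, Complex.real_smul, mul_one]
    exact (Complex.re_add_im v).symm
  rw [hv, map_add, map_smul, map_smul]
  have h2 : fderiv ℝ (fun y => z y t) a 1 = 0 := h1.1
  have h3 : fderiv ℝ (fun y => z y t) a Complex.I = 0 := h1.2
  rw [h2, h3]
  simp

/-- A critical curve lies in the open region: it does not touch the boundary. -/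
theorem curve_inside {c : ℝ} {D : Set ℂ} (hD : IsOpen D) (hb : Bornology.IsBounded D) (hDc : IsConnected D)
    (hc : 0 < c) {z : ℂ → ℝ → ℝ} {G : ℂ → ℝ → ℂ} (h : Dz c D z G) (hne : ∃ x ∈ D, ∃ t, z x t ≠ 0) {gR gγ : Circle → ℂ}
    (hR : Continuous gR) (hRi : Function.Injective gR) (hRr : range gR = frontier D) (hγ : Continuous gγ)
    (hγi : Function.Injective gγ) (hγD : range gγ ⊆ closure D) (hcrit : ∀ x ∈ range gγ, ∀ t, G x t = 0) :
    range gγ ⊆ D := by
  obtain ⟨x, hxD, t, hzt⟩ := hne
  by_contra hno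
  rw [range_subset_iff] at hno
  push Not at hno
  by_cases hin : ∃ s, gγ s ∈ D
  · obtain ⟨K, hKr, hKD, hKc, hKn, y, hyK, hyr, hyD⟩ := touch_arc hγ hγi hD hin hno
    have hyf : y ∈ frontier D := by
      rw [frontier, hD.interior_eq]
      exact ⟨hγD hyr, hyD⟩
    have hz : ∀ a ∈ K, ∀ t, z a t = 0 := by
      intro a ha t
      have hcd : ContDiffOn ℝ 2 (fun y => z y t) D := by
        have h1 : ContDiffOn ℝ 2 (fun y : ℂ => ((y, t) : ℂ × ℝ)) D := (contDiff_id.prodMk contDiff_const).contDiffOn
        exact h.c2.comp h1 fun y hy => ⟨hy, mem_univ _⟩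
      have hconst : ∀ b ∈ K, z b t = z a t := fun b hb' =>
        const_of_crit hD hcd hKD hKc (fun w hw => Fnb_fderiv h (hKD hw) (hcrit w (hKr hw) t)) hb' ha
      have hcont : ContinuousWithinAt (fun y => z y t) K y := by
        have h1 : ContinuousOn (fun y : ℂ => z y t) (closure D) := by
          have h2 : ContinuousOn (fun y : ℂ => ((y, t) : ℂ × ℝ)) (closure D) := (continuous_id.prodMk continuous_const).continuousOn
          exact h.cont.comp h2 fun y hy => ⟨hy, mem_univ _⟩
        exact (h1 y (hγD hyr)).mono (hKD.trans subset_closure)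
      have hcl : z y t = z a t := by
        have h1 : Tendsto (fun y => z y t) (𝓝[K] y) (𝓝 (z y t)) := hcont
        have h2 : Tendsto (fun y => z y t) (𝓝[K] y) (𝓝 (z a t)) := by
          refine tendsto_const_nhds.congr' ?_
          filter_upwards [self_mem_nhdsWithin] with b hb'
          exact (hconst b hb').symm
        have : (𝓝[K] y).NeBot := mem_closure_iff_nhdsWithin_neBot.1 hyK
        exact tendsto_nhds_unique h1 h2
      rw [← hcl]
      exact h.bdry y hyf t
    refine hzt (prop_zero hD hb hDc.isPreconnected hc h hKD hKn.nonempty (fun w hw => hKc.preperfect_of_nontrivial hKn w hw) hz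
      (fun w hw t => hcrit w (hKr hw) t) hxD t)
  · push Not at hin
    have hsub : range gγ ⊆ range gR := by
      rw [hRr]
      rintro _ ⟨s, rfl⟩
      rw [frontier, hD.interior_eq]
      exact ⟨hγD ⟨s, rfl⟩, hin s⟩
    have heq := curve_eq hγ hγi hR hRi hsub
    refine hzt (no_full_crit hD hb hc h (fun w hw t => hcrit w ?_ t) hxD t)
    rw [heq, hRr]
    exact hw

end DrumL
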