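import Pool.Agent.Lib.MP_d92c84_anF.Mza
import Pool.Agent.Lib.MP_d92c84_anF.Flx

/-!
# The mean over the inner region is zero
-/

set_option autoImplicit false

namespace DrumL

open MeasureTheory Set Filter Topology
open scoped ContDiff

/-- The mean of a solution over a region on whose boundary its gradient vanishes at all times is zero. -/
theorem WS.mean_zero {c : ℝ} {D E : Set ℂ} {Z : ℕ → ℂ → ℝ → ℝ} {G : ℕ → ℂ → ℝ → ℂ} (hD : IsOpen D)
    (hb : Bornology.IsBounded D) (hc : 0 < c) (h : WS c D Z G) (hE : IsOpen E) (hED : closure E ⊆ D)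
    (hG : ∀ x ∈ frontier E, ∀ t, G 0 x t = 0) (t : ℝ) : ∫ x in E, Z 0 x t = 0 := by
  have hED' : E ⊆ D := subset_closure.trans hED
  have hbE : Bornology.IsBounded E := hb.subset hED'
  have hd : ∀ (k : ℕ) (t : ℝ), HasDerivAt (fun t => ∫ x in E, Z k x t) (∫ x in E, Z (k + 1) x t) t := by
    intro k t
    have hmono : closure E ×ˢ (univ : Set ℝ) ⊆ closure D ×ˢ univ := prod_mono (closure_mono hED') Subset.rfl
    exact hasDerivAt_intD hbE hE.measurableSet ((h.cont k).mono hmono) ((h.cont (k + 1)).mono hmono)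
      (fun x hx t => h.dt k x (subset_closure (hED' hx)) t) t
  have h2 : ∀ t, ∫ x in E, Z 2 x t = 0 := by
    intro t
    have h3 : ∫ x in E, Z 2 x t = ∫ x in E, c ^ 2 * lap (fun y => Z 0 y t) x :=
      setIntegral_congr_fun hE.measurableSet fun x hx => h.wave 0 x (hED' hx) t
    rw [h3, integral_const_mul, flux hD hE hbE hED (h.c2 0 t), mul_zero]
    intro x hx
    have hxD : x ∈ D := hED (frontier_subset_closure hx)
    obtain ⟨e1, e2⟩ := h.grad 0 x hxD t
    rw [e1, e2, hG x hx t]
    simp
  set B : ℝ := ∫ x in E, Z 1 x 0 with hB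
  set A : ℝ := ∫ x in E, Z 0 x 0 with hA
  have hB1 : ∀ t, ∫ x in E, Z 1 x t = B := by
    intro t
    refine is_const_of_deriv_eq_zero (f := fun t => ∫ x in E, Z 1 x t) (fun t => (hd 1 t).differentiableAt) ?_ t 0
    intro t
    rw [(hd 1 t).deriv]
    exact h2 t
  have hA1 : ∀ t, ∫ x in E, Z 0 x t = A + B * t := by
    intro t
    have h3 : ∀ t, HasDerivAt (fun t => (∫ x in E, Z 0 x t) - B * t) 0 t := by
      intro t
      have h4 := (hd 0 t).sub ((hasDerivAt_id t).const_mul B)
      rw [show (∫ x in E, Z (0 + 1) x t) - B * 1 = 0 by rw [zero_add, hB1 t]; ring] at h4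
      exact h4
    have h5 := is_const_of_deriv_eq_zero (f := fun t => (∫ x in E, Z 0 x t) - B * t)
      (fun t => (h3 t).differentiableAt) (fun t => (h3 t).deriv) t 0
    simp only [mul_zero, sub_zero] at h5
    linarith
  have hfin : volume D < ⊤ := hb.measure_lt_top
  have hind : MemLp (indicator E fun _ => (1 : ℝ)) 2 (volume.restrict D) := by
    refine memLp_indicator_const 2 hE.measurableSet 1 (Or.inr ?_)
    exact ne_of_lt (lt_of_le_of_lt (measure_mono (subset_univ E)) (by rwa [Measure.restrict_apply_univ]))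
  have hav := WS.avg_zero hD hb hc h hind
  have heq : ∀ t, ∫ x in D, Z 0 x t * indicator E (fun _ => (1 : ℝ)) x = A + B * t := by
    intro t
    rw [← hA1 t]
    have h3 : ∀ x, Z 0 x t * indicator E (fun _ => (1 : ℝ)) x = indicator E (fun x => Z 0 x t) x := by
      intro x
      by_cases hx : x ∈ E
      · rw [indicator_of_mem hx, indicator_of_mem hx, mul_one]
      · rw [indicator_of_notMem hx, indicator_of_notMem hx, mul_zero]
    simp only [h3]
    rw [setIntegral_indicator hE.measurableSet, inter_eq_right.2 hED']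
  simp only [heq] at hav
  have hav2 : Tendsto (fun T : ℝ => A + B * T / 2) atTop (𝓝 0) := by
    refine hav.congr' ?_
    filter_upwards [eventually_gt_atTop 0] with T hT
    have h3 : ∫ t in (0 : ℝ)..T, (A + B * t) = A * T + B * T ^ 2 / 2 := by
      rw [intervalIntegral.integral_add (by simp) (by
        exact (continuous_const.mul continuous_id).intervalIntegrable _ _)]
      have h4 : ∫ t in (0 : ℝ)..T, B * t = B * ((T ^ 2 - 0 ^ 2) / 2) := by
        rw [← integral_id]
        exact intervalIntegral.integral_const_mul B (fun x : ℝ => x)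
      rw [h4, intervalIntegral.integral_const, smul_eq_mul]
      ring
    rw [h3]
    field_simp
  have hav3 : Tendsto (fun T : ℝ => A + B * (T + 2) / 2) atTop (𝓝 0) :=
    hav2.comp (tendsto_atTop_add_const_right atTop (2 : ℝ) tendsto_id)
  have hB0 : B = 0 := by
    have h3 := hav3.sub hav2
    rw [sub_zero] at h3
    refine tendsto_nhds_unique ?_ h3
    refine tendsto_const_nhds.congr fun T => ?_
    ring
  rw [hB0] at hav2
  have hA0 : A = 0 := by
    refine tendsto_nhds_unique ?_ hav2
    refine tendsto_const_nhds.congr fun T => ?_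
    ring
  rw [hA1, hA0, hB0]
  ring

end DrumL
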