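import Pool.Agent.Lib.MP_d92c84_anF.Smb
import Pool.Agent.Lib.MP_d92c84_anF.Sme
import Pool.Agent.Lib.MP_d92c84_anF.Mzb

/-!
# The mean over the inside of the curve is zero
-/

set_option autoImplicit false

namespace DrumL

open MeasureTheory Set Filter Topology
open scoped ContDiff Real

/-- If the gradient of a drum solution vanishes at all times on the boundary of an open set `E` whose closure is in `D`,
then the integral of the solution over `E` is zero at all times. -/
theorem drum_mean_zero {c : ℝ} {D E : Set ℂ} (hD : IsOpen D) (hb : Bornology.IsBounded D) (hc : 0 < c) {z : ℂ → ℝ → ℝ}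
    {G : ℂ → ℝ → ℂ} (h : Dz c D z G) (hE : IsOpen E) (hED : closure E ⊆ D)
    (hG : ∀ x ∈ frontier E, ∀ t, G x t = 0) (t : ℝ) : ∫ x in E, z x t = 0 := by
  by_contra hne
  have hEsub : E ⊆ D := subset_closure.trans hED
  have hfin : volume D < ⊤ := hb.measure_lt_top
  have hψ : IntegrableOn (indicator E fun _ : ℂ => (1 : ℝ)) D := by
    rw [integrableOn_indicator_iff hE.measurableSet]
    exact integrableOn_const (measure_lt_top_of_subset inter_subset_right hfin.ne).ne
  have hpair : ∀ f : ℂ → ℝ, ∫ x in D, f x * indicator E (fun _ : ℂ => (1 : ℝ)) x = ∫ x in E, f x := by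
    intro f
    have h1 : (fun x => f x * indicator E (fun _ : ℂ => (1 : ℝ)) x) = indicator E f := by
      funext x
      by_cases hx : x ∈ E
      · simp [hx]
      · simp [hx]
    rw [h1, setIntegral_indicator hE.measurableSet, inter_eq_self_of_subset_right hEsub]
  obtain ⟨hcont, -⟩ := sm_pair hD hb h.cont (η := fun _ => 0) contDiff_const HasCompactSupport.zero hψ
  simp only [hpair] at hcont
  obtain ⟨η, hη, hs, hn⟩ := exists_kernel hcont hne
  obtain ⟨-, h2⟩ := sm_pair hD hb h.cont hη hs hψ
  have h3 := h2 t
  simp only [hpair] at h3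
  have h4 := (ws_sm hD hb h hη hs).mean_zero hD hb hc hE hED (fun y hy s => ?_) t
  · refine hn ?_
    rw [← h3]
    exact h4
  · unfold sm
    simp only [hG y hy, smul_zero, integral_zero]

end DrumL
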