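import Pool.Agent.Lib.MP_d92c84_anF.Pol

/-!
# The trace of the Hessian
-/

set_option autoImplicit false

namespace DrumL

open MeasureTheory Set Filter Topology
open scoped ContDiff Real

/-- The trace of the Hessian in a rotated basis. -/
theorem hess_trace {D : Set ℂ} (hD : IsOpen D) {f : ℂ → ℝ} (hf : ContDiffOn ℝ 2 f D) {x : ℂ} (hx : x ∈ D) :
    (∀ v w, pd v (pd w f) x = fderiv ℝ (fderiv ℝ f) x v w) ∧ (∀ v w, pd v (pd w f) x = pd w (pd v f) x) ∧
      ∀ θ : ℝ, fderiv ℝ (fderiv ℝ f) x (cis θ) (cis θ) +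
        fderiv ℝ (fderiv ℝ f) x (Complex.I * cis θ) (Complex.I * cis θ) = lap f x := by
  have hc : ContDiffAt ℝ 2 f x := hf.contDiffAt (hD.mem_nhds hx)
  have hd : DifferentiableAt ℝ (fderiv ℝ f) x :=
    (hc.fderiv_right (m := 1) (by norm_num)).differentiableAt (by norm_num)
  have h1 : ∀ v w, pd v (pd w f) x = fderiv ℝ (fderiv ℝ f) x v w := by
    intro v w
    have h2 := (hd.hasFDerivAt.clm_apply (hasFDerivAt_const w x)).fderiv
    unfold pd
    rw [h2]
    simp
  have hs : ∀ v w, fderiv ℝ (fderiv ℝ f) x v w = fderiv ℝ (fderiv ℝ f) x w v :=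
    fun v w => (hc.isSymmSndFDerivAt (by simp)) v w
  refine ⟨h1, fun v w => ?_, fun θ => ?_⟩
  · rw [h1, h1, hs]
  · have c1 : cis θ = Real.cos θ • (1 : ℂ) + Real.sin θ • Complex.I := by
      unfold cis
      rw [Complex.exp_mul_I, ← Complex.ofReal_cos, ← Complex.ofReal_sin]
      simp [Complex.real_smul]
    have c2 : Complex.I * cis θ = (-Real.sin θ) • (1 : ℂ) + Real.cos θ • Complex.I := by
      rw [c1]
      simp only [Complex.real_smul, Complex.ofReal_neg]
      linear_combination (Real.sin θ : ℂ) * Complex.I_mul_I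
    have h3 := Real.sin_sq_add_cos_sq θ
    unfold lap
    rw [c2, c1, h1, h1]
    simp only [map_add, map_smul, add_apply, smul_apply, smul_eq_mul]
    rw [hs Complex.I 1]
    linear_combination (fderiv ℝ (fderiv ℝ f) x 1 1 + fderiv ℝ (fderiv ℝ f) x Complex.I Complex.I) * h3

end DrumL
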