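import Pool.Agent.Lib.MP_d92c84_anF.Bel
import Pool.Agent.Lib.MP_d92c84_anF.Kia

/-!
# The closure of the test functions, pieces, functions critical on the boundary of a set
-/

set_option autoImplicit false

namespace DrumL

open MeasureTheory Set Filter Topology
open scoped ContDiff

/-- `(f, g₁, g₂)` is in the closure of the test functions of `D` with their gradients, in the space `L²(D)³`. -/
structure Hq (D : Set ℂ) (f g₁ g₂ : ℂ → ℝ) : Prop where
  mem : MemLp f 2 (volume.restrict D)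
  mem₁ : MemLp g₁ 2 (volume.restrict D)
  mem₂ : MemLp g₂ 2 (volume.restrict D)
  seq : ∃ φ : ℕ → ℂ → ℝ, (∀ N, Tst D (φ N)) ∧
    Tendsto (fun N => ∫ x in D, (φ N x - f x) ^ 2) atTop (𝓝 0) ∧
    Tendsto (fun N => ∫ x in D, (pd 1 (φ N) x - g₁ x) ^ 2) atTop (𝓝 0) ∧
    Tendsto (fun N => ∫ x in D, (pd Complex.I (φ N) x - g₂ x) ^ 2) atTop (𝓝 0)

/-- `(a, b, c)` is orthogonal in `L²(D)³` to the test functions of `D` with their gradients. -/
structure Op (D : Set ℂ) (a b c : ℂ → ℝ) : Prop where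
  mem : MemLp a 2 (volume.restrict D)
  mem₁ : MemLp b 2 (volume.restrict D)
  mem₂ : MemLp c 2 (volume.restrict D)
  orth : ∀ φ : ℂ → ℝ, Tst D φ → ∫ x in D, (a x * φ x + b x * pd 1 φ x + c x * pd Complex.I φ x) = 0

/-- `f` is smooth in `D`, and vanishes on the boundary of the open set `A`, whose closure is in `D`. -/
structure Pz (D A : Set ℂ) (f : ℂ → ℝ) : Prop where
  isOpen : IsOpen A
  sub : closure A ⊆ D
  smooth : ContDiffOn ℝ ∞ f D
  zero : ∀ x ∈ frontier A, f x = 0

/-- A solution of eigenvalue `l` in `D` with zero gradient and the value `c` on the boundary of the open set `A`, whose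
closure is in `D`. -/
structure Sc (l c : ℝ) (D A : Set ℂ) (v : ℂ → ℝ) : Prop where
  isOpen : IsOpen A
  sub : closure A ⊆ D
  hz : Hz l D v
  crit : ∀ x ∈ frontier A, fderiv ℝ v x = 0
  val : ∀ x ∈ frontier A, v x = c

/-- The Killing derivatives vanish on the boundary. -/
theorem Sc.pzkd {l c : ℝ} {D A : Set ℂ} {v : ℂ → ℝ} (hD : IsOpen D) (h : Sc l c D A v) (α : ℂ) (β : ℝ) :
    Pz D A (kd α β v) :=
  ⟨h.isOpen, h.sub, (hz_kd hD h.hz α β).smooth, fun x hx => by
    unfold kd pd
    rw [h.crit x hx]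
    rfl⟩

/-- The function minus its boundary value vanishes on the boundary. -/
theorem Sc.pzv {l c : ℝ} {D A : Set ℂ} {v : ℂ → ℝ} (h : Sc l c D A v) : Pz D A (fun x => v x - c) :=
  ⟨h.isOpen, h.sub, h.hz.smooth.sub contDiffOn_const, fun x hx => by rw [h.val x hx, sub_self]⟩

end DrumL
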