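import Pool.Agent.Lib.MP_d92c84_anF.Trn

/-!
# Integration by parts, null sets, differentiation under the integral sign
-/

set_option autoImplicit false

namespace DrumL

open MeasureTheory Set Filter Topology
open scoped ContDiff

/-- Almost everywhere on the zero set of `f` the derivative of `f` is `0`. -/
theorem ae_crit {D : Set ℂ} (hD : IsOpen D) {f : ℂ → ℝ} (hf : DifferentiableOn ℝ f D) :
    ∀ᵐ x ∂(volume.restrict D), f x = 0 → fderiv ℝ f x = 0 := by
  set s : Set ℂ := D ∩ f ⁻¹' {0} with hs
  have hsm : MeasurableSet s := by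
    have h1 : D ∩ f ⁻¹' ({0}ᶜ) ∈ {t : Set ℂ | IsOpen t} := hf.continuousOn.isOpen_inter_preimage hD isOpen_compl_singleton
    have h2 : s = D \ (D ∩ f ⁻¹' ({0}ᶜ)) := by
      ext x
      simp only [hs, mem_inter_iff, mem_preimage, mem_singleton_iff, Set.mem_sdiff, mem_compl_iff]
      tauto
    rw [h2]
    exact hD.measurableSet.diff (IsOpen.measurableSet h1)
  have h1 : ApproximatesLinearOn (fun x => (f x : ℂ)) (0 : ℂ →L[ℝ] ℂ) s 0 := by
    intro x hx y hy
    have hx0 : f x = 0 := hx.2
    have hy0 : f y = 0 := hy.2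
    simp [hx0, hy0]
  have h2 : ∀ x ∈ s, HasFDerivWithinAt (fun x => (f x : ℂ)) (Complex.ofRealCLM.comp (fderiv ℝ f x)) s x := by
    intro x hx
    have h3 := (hf.differentiableAt (hD.mem_nhds hx.1)).hasFDerivAt
    exact (Complex.ofRealCLM.hasFDerivAt.comp x h3).hasFDerivWithinAt
  have h3 := h1.norm_fderiv_sub_le volume hsm _ h2
  rw [ae_restrict_iff' hsm] at h3
  rw [ae_restrict_iff' hD.measurableSet]
  filter_upwards [h3] with x hx hxD hx0
  have h4 := hx ⟨hxD, hx0⟩
  have h5 : Complex.ofRealCLM.comp (fderiv ℝ f x) = 0 := by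
    have h6 : ‖Complex.ofRealCLM.comp (fderiv ℝ f x) - 0‖₊ = 0 := le_antisymm h4 zero_le
    rw [nnnorm_eq_zero, sub_zero] at h6
    exact h6
  ext v
  have h6 := DFunLike.congr_fun h5 v
  simp only [ContinuousLinearMap.comp_apply, Complex.ofRealCLM_apply, zero_apply] at h6
  simpa using h6

theorem continuous_pd {f : ℂ → ℝ} (hf : ContDiff ℝ 1 f) (v : ℂ) : Continuous (pd v f) := by
  unfold pd
  exact (hf.continuous_fderiv (by norm_num)).clm_apply continuous_const

theorem compact_pd {f : ℂ → ℝ} (hf : HasCompactSupport f) (v : ℂ) : HasCompactSupport (pd v f) :=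
  hf.of_isClosed_subset (isClosed_tsupport _) (tsupport_pd v f)

theorem integrable_of_comp {f : ℂ → ℝ} (hf : Continuous f) (hs : HasCompactSupport f) : Integrable f :=
  hf.integrable_of_hasCompactSupport hs

theorem pd_mul {f g : ℂ → ℝ} {x : ℂ} (hf : DifferentiableAt ℝ f x) (hg : DifferentiableAt ℝ g x) (v : ℂ) :
    pd v (fun y => f y * g y) x = pd v f x * g x + f x * pd v g x := by
  unfold pd
  rw [fderiv_fun_mul hf hg]
  simp
  ring

theorem pd_add {f g : ℂ → ℝ} {x : ℂ} (hf : DifferentiableAt ℝ f x) (hg : DifferentiableAt ℝ g x) (v : ℂ) :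
    pd v (fun y => f y + g y) x = pd v f x + pd v g x := by
  unfold pd
  rw [fderiv_fun_add hf hg]
  simp

theorem pd_const_mul {f : ℂ → ℝ} {x : ℂ} (hf : DifferentiableAt ℝ f x) (a : ℝ) (v : ℂ) :
    pd v (fun y => a * f y) x = a * pd v f x := by
  unfold pd
  rw [fderiv_const_mul hf]
  simp

/-- The integral of a derivative of a compactly supported function is zero. -/
theorem integral_pd {f : ℂ → ℝ} (hf : ContDiff ℝ 1 f) (hs : HasCompactSupport f) (v : ℂ) : ∫ x, pd v f x = 0 := by
  have hd : Differentiable ℝ f := hf.differentiable (by norm_num)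
  have h1 := integral_mul_fderiv_eq_neg_fderiv_mul_of_integrable (μ := (volume : Measure ℂ)) (𝕜 := ℝ)
    (f := fun _ : ℂ => (1 : ℝ)) (g := f) (v := v) (by simp) ?_ ?_ (fun x _ => differentiableAt_const _)
    (fun x _ => hd x)
  · simpa [pd] using h1
  · have h2 := integrable_of_comp (continuous_pd hf v) (compact_pd hs v)
    unfold pd at h2
    simpa using h2
  · simpa using integrable_of_comp hf.continuous hs

/-- Integration by parts, one factor having compact support. -/
theorem integral_mul_pd {f g : ℂ → ℝ} (hf : ContDiff ℝ 1 f) (hg : ContDiff ℝ 1 g) (hs : HasCompactSupport f) (v : ℂ) :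
    ∫ x, f x * pd v g x = -∫ x, pd v f x * g x := by
  have hfd : Differentiable ℝ f := hf.differentiable (by norm_num)
  have hgd : Differentiable ℝ g := hg.differentiable (by norm_num)
  exact integral_mul_fderiv_eq_neg_fderiv_mul_of_integrable (μ := (volume : Measure ℂ)) (𝕜 := ℝ)
    (integrable_of_comp ((continuous_pd hf v).mul hg.continuous) (compact_pd hs v).mul_right)
    (integrable_of_comp (hf.continuous.mul (continuous_pd hg v)) hs.mul_right)
    (integrable_of_comp (hf.continuous.mul hg.continuous) hs.mul_right) (fun x _ => hfd x) (fun x _ => hgd x)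

/-- Integration by parts against a function that is only defined on `D`. -/
theorem integral_mul_pd_on {D : Set ℂ} (hD : IsOpen D) {f g : ℂ → ℝ} (hf : ContDiff ℝ 1 f) (hs : HasCompactSupport f)
    (hsD : tsupport f ⊆ D) (hg : ContDiffOn ℝ 1 g D) (v : ℂ) :
    ∫ x in D, f x * pd v g x = -∫ x in D, pd v f x * g x := by
  have h0 : ContDiff ℝ 1 fun x => f x * g x := mul_contDiff hD hf hsD hg
  have h1 := integral_pd h0 hs.mul_right v
  have hfz : ∀ x, x ∉ D → f x = 0 := fun x hx => image_eq_zero_of_notMem_tsupport fun h => hx (hsD h)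
  have hfz' : ∀ x, x ∉ D → pd v f x = 0 := fun x hx =>
    image_eq_zero_of_notMem_tsupport fun h => hx (hsD (tsupport_pd v f h))
  have hpz : ∀ x, x ∉ D → pd v (fun x => f x * g x) x = 0 := fun x hx =>
    image_eq_zero_of_notMem_tsupport fun h => hx (hsD (tsupport_mul_subset_left (f := f) (tsupport_pd v _ h)))
  have h2 : ∫ x in D, pd v (fun x => f x * g x) x = 0 := by
    rw [setIntegral_eq_integral_of_forall_compl_eq_zero hpz]
    exact h1
  have h3 : ∀ x ∈ D, pd v (fun x => f x * g x) x = pd v f x * g x + f x * pd v g x := fun x hx =>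
    pd_mul ((hf.differentiable (by norm_num)) x) ((hg.differentiableOn (by norm_num)).differentiableAt (hD.mem_nhds hx)) v
  have hint : ∀ {a b : ℂ → ℝ}, Continuous a → HasCompactSupport a → tsupport a ⊆ D → ContinuousOn b D →
      Integrable fun x => a x * b x := by
    intro a b ha hac haD hb
    have h4 : ContDiff ℝ 0 fun x => a x * b x :=
      mul_contDiff hD (contDiff_zero.2 ha) haD (contDiffOn_zero.2 hb)
    exact h4.continuous.integrable_of_hasCompactSupport hac.mul_right
  have h4 : IntegrableOn (fun x => pd v f x * g x) D :=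
    (hint (continuous_pd hf v) (compact_pd hs v) ((tsupport_pd v f).trans hsD) hg.continuousOn).integrableOn
  have h5 : IntegrableOn (fun x => f x * pd v g x) D :=
    (hint hf.continuous hs hsD (contDiffOn_pd hD (m := 0) hg (by norm_num) v).continuousOn).integrableOn
  rw [setIntegral_congr_fun hD.measurableSet h3, integral_add h4 h5] at h2
  linarith

/-- Differentiation under the integral sign over a bounded set. -/
theorem hasDerivAt_intD {D : Set ℂ} (hb : Bornology.IsBounded D) (hDm : MeasurableSet D) {f f' : ℂ → ℝ → ℝ}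
    (hf : ContinuousOn (fun q : ℂ × ℝ => f q.1 q.2) (closure D ×ˢ univ))
    (hf' : ContinuousOn (fun q : ℂ × ℝ => f' q.1 q.2) (closure D ×ˢ univ))
    (hd : ∀ x ∈ D, ∀ t, HasDerivAt (f x) (f' x t) t) (t : ℝ) :
    HasDerivAt (fun t => ∫ x in D, f x t) (∫ x in D, f' x t) t := by
  have hK : IsCompact (closure D ×ˢ Icc (t - 1) (t + 1)) := hb.isCompact_closure.prod isCompact_Icc
  obtain ⟨C, hC⟩ := hK.exists_bound_of_continuousOn (hf'.mono (prod_mono Subset.rfl (subset_univ _)))
  have hslice : ∀ {h : ℂ → ℝ → ℝ}, ContinuousOn (fun q : ℂ × ℝ => h q.1 q.2) (closure D ×ˢ univ) → ∀ s,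
      ContinuousOn (fun x => h x s) (closure D) := by
    intro h hh s
    exact hh.comp (f := fun x : ℂ => (x, s)) (by fun_prop) fun x hx => ⟨hx, mem_univ s⟩
  have hfin : volume D < ⊤ := hb.measure_lt_top
  have hint : ∀ {h : ℂ → ℝ}, ContinuousOn h (closure D) → IntegrableOn h D := by
    intro h hh
    exact (hh.integrableOn_compact hb.isCompact_closure).mono_set subset_closure
  refine (hasDerivAt_integral_of_dominated_loc_of_deriv_le (μ := volume.restrict D) (s := Metric.ball t 1)
    (bound := fun _ => C) (Metric.ball_mem_nhds t one_pos) ?_ ?_ ?_ ?_ ?_ ?_ (F := fun t x => f x t)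
    (F' := fun t x => f' x t)).2
  · exact Eventually.of_forall fun s => (hint (hslice hf s)).aestronglyMeasurable
  · exact hint (hslice hf t)
  · exact (hint (hslice hf' t)).aestronglyMeasurable
  · rw [ae_restrict_iff' hDm]
    refine Eventually.of_forall fun x hx s hs => ?_
    refine hC (x, s) ⟨subset_closure hx, ?_⟩
    rw [Metric.mem_ball, Real.dist_eq, abs_lt] at hs
    constructor <;> linarith [hs.1, hs.2]
  · have : IsFiniteMeasure (volume.restrict D) := ⟨by rwa [Measure.restrict_apply_univ]⟩
    exact integrable_const C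
  · rw [ae_restrict_iff' hDm]
    exact Eventually.of_forall fun x hx s _ => hd x hx s

/-- A continuous function on the closure of a bounded set is integrable on it. -/
theorem intOn {D : Set ℂ} (hb : Bornology.IsBounded D) {h : ℂ → ℝ} (hh : ContinuousOn h (closure D)) :
    IntegrableOn h D :=
  (hh.integrableOn_compact hb.isCompact_closure).mono_set subset_closure

/-- Slices of a jointly continuous function. -/
theorem slice {E : Type*} [TopologicalSpace E] {D : Set ℂ} {h : ℂ → ℝ → E}
    (hh : ContinuousOn (fun q : ℂ × ℝ => h q.1 q.2) (closure D ×ˢ univ)) (t : ℝ) :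
    ContinuousOn (fun x => h x t) (closure D) :=
  hh.comp (f := fun x : ℂ => (x, t)) (by fun_prop) fun _ hx => ⟨hx, mem_univ t⟩

/-- If `a` is continuous and not zero at `t₀` then some smoothing of `a` is not zero at `t₀`. -/
theorem exists_kernel {a : ℝ → ℝ} (ha : Continuous a) {t₀ : ℝ} (h : a t₀ ≠ 0) :
    ∃ η : ℝ → ℝ, ContDiff ℝ ∞ η ∧ HasCompactSupport η ∧ ∫ s, η s * a (t₀ - s) ≠ 0 := by
  obtain ⟨δ, hδ, hδ1⟩ := Metric.continuousAt_iff.1 (ha.continuousAt (x := t₀)) |a t₀| (abs_pos.2 h)
  let b : ContDiffBump (0 : ℝ) := ⟨δ / 4, δ / 2, by positivity, by linarith⟩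
  have hbs : ∀ s, b s ≠ 0 → |s| < δ := by
    intro s hs
    have h1 : s ∈ Function.support b := hs
    rw [b.support_eq, mem_ball_zero_iff, Real.norm_eq_abs] at h1
    have h2 : b.rOut = δ / 2 := rfl
    rw [h2] at h1
    linarith
  have hsign : ∀ s, |s| < δ → 0 < a t₀ * a (t₀ - s) := by
    intro s hs
    have h1 := hδ1 (x := t₀ - s) (by rw [Real.dist_eq]; simpa using hs)
    rw [Real.dist_eq] at h1
    rcases lt_or_gt_of_ne h with h2 | h2
    · rw [abs_of_neg h2, abs_lt] at h1
      nlinarith [h1.1, h1.2]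
    · rw [abs_of_pos h2, abs_lt] at h1
      nlinarith [h1.1, h1.2]
  refine ⟨b, b.contDiff, b.hasCompactSupport, ?_⟩
  have hc : Continuous fun s => b s * (a t₀ * a (t₀ - s)) :=
    b.continuous.mul (continuous_const.mul (ha.comp (continuous_const.sub continuous_id)))
  have h1 : 0 < ∫ s, b s * (a t₀ * a (t₀ - s)) := by
    refine hc.integral_pos_of_hasCompactSupport_nonneg_nonzero b.hasCompactSupport.mul_right ?_ (x := 0) ?_
    · intro s
      by_cases hs : b s = 0
      · simp [hs]
      · exact mul_nonneg b.nonneg (hsign s (hbs s hs)).le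
    · have h2 : 0 < b 0 := b.pos_of_mem_ball (by simp [b.rOut_pos])
      have h3 := hsign 0 (by simpa using hδ)
      exact (mul_pos h2 h3).ne'
  intro h2
  have h3 : ∫ s, b s * (a t₀ * a (t₀ - s)) = a t₀ * ∫ s, b s * a (t₀ - s) := by
    rw [← integral_const_mul]
    exact integral_congr_ae (Eventually.of_forall fun s => by ring)
  rw [h3, h2, mul_zero] at h1
  exact lt_irrefl _ h1

end DrumL
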