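import Pool.Agent.Lib.MP_d92c84_anF.Hqd
import Pool.Agent.Lib.MP_d92c84_anF.Par

/-!
# Limits in L²
-/

set_option autoImplicit false

namespace DrumL

open MeasureTheory Set Filter Topology
open scoped ContDiff

private theorem Hqo_mul {μ : Measure ℂ} {p q : ℂ → ℝ} (hp : MemLp p 2 μ) (hq : MemLp q 2 μ) :
    Integrable (fun x => p x * q x) μ := hp.integrable_mul hq

private theorem Hqo_sq {μ : Measure ℂ} {p : ℂ → ℝ} (hp : MemLp p 2 μ) : Integrable (fun x => p x ^ 2) μ := by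
  simpa [sq] using Hqo_mul hp hp

private theorem Hqo_add {μ : Measure ℂ} {p q : ℂ → ℝ} (hp : Integrable p μ) (hq : Integrable q μ) :
    ∫ x, (p x + q x) ∂μ = ∫ x, p x ∂μ + ∫ x, q x ∂μ := integral_add hp hq

private theorem Hqo_iadd {μ : Measure ℂ} {p q : ℂ → ℝ} (hp : Integrable p μ) (hq : Integrable q μ) :
    Integrable (fun x => p x + q x) μ := hp.add hq

/-- Cauchy-Schwarz. -/
private theorem Hqo_cs {μ : Measure ℂ} {p q : ℂ → ℝ} (hp : MemLp p 2 μ) (hq : MemLp q 2 μ) :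
    |∫ x, p x * q x ∂μ| ≤ Real.sqrt (∫ x, p x ^ 2 ∂μ) * Real.sqrt (∫ x, q x ^ 2 ∂μ) := by
  set A := ∫ x, p x ^ 2 ∂μ with hA
  set B := ∫ x, q x ^ 2 ∂μ with hB
  set C := ∫ x, p x * q x ∂μ with hC
  have hA0 : 0 ≤ A := integral_nonneg fun x => sq_nonneg _
  have hB0 : 0 ≤ B := integral_nonneg fun x => sq_nonneg _
  have h1 : ∀ s t : ℝ, 0 ≤ s ^ 2 * A + 2 * (s * t) * C + t ^ 2 * B := by
    intro s t
    have h2 : ∫ x, (s * p x + t * q x) ^ 2 ∂μ = s ^ 2 * A + 2 * (s * t) * C + t ^ 2 * B := by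
      have h3 : ∀ x, (s * p x + t * q x) ^ 2 = (s ^ 2 * p x ^ 2 + 2 * (s * t) * (p x * q x)) + t ^ 2 * q x ^ 2 := fun x => by
        ring
      simp_rw [h3]
      rw [Hqo_add (Hqo_iadd ((Hqo_sq hp).const_mul _) ((Hqo_mul hp hq).const_mul _)) ((Hqo_sq hq).const_mul _),
        Hqo_add ((Hqo_sq hp).const_mul _) ((Hqo_mul hp hq).const_mul _), integral_const_mul, integral_const_mul,
        integral_const_mul]
    rw [← h2]
    exact integral_nonneg fun x => sq_nonneg _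
  have h3 : C ^ 2 ≤ A * B := by
    rcases eq_or_lt_of_le hB0 with h4 | h4
    · have h5 : C = 0 := by
        by_contra h6
        have h7 := h1 1 (-(A + 1) / (2 * C))
        rw [← h4] at h7
        have h8 : 2 * (1 * (-(A + 1) / (2 * C))) * C = -(A + 1) := by
          field_simp
        rw [h8] at h7
        linarith
      rw [h5, ← h4]
      simp
    · have h5 := h1 B (-C)
      nlinarith [h5, h4]
  rw [← Real.sqrt_mul hA0, ← Real.sqrt_sq_eq_abs]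
  exact Real.sqrt_le_sqrt h3

/-- The integral of a product is continuous for convergence in the mean. -/
theorem l2_pair {D : Set ℂ} {f g : ℂ → ℝ} {F G : ℕ → ℂ → ℝ} (hf : MemLp f 2 (volume.restrict D))
    (hg : MemLp g 2 (volume.restrict D)) (hF : ∀ N, MemLp (F N) 2 (volume.restrict D))
    (hG : ∀ N, MemLp (G N) 2 (volume.restrict D)) (h1 : Tendsto (fun N => ∫ x in D, (F N x - f x) ^ 2) atTop (𝓝 0))
    (h2 : Tendsto (fun N => ∫ x in D, (G N x - g x) ^ 2) atTop (𝓝 0)) :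
    Tendsto (fun N => ∫ x in D, F N x * G N x) atTop (𝓝 (∫ x in D, f x * g x)) := by
  set μ := volume.restrict D with hμ
  have hFf : ∀ N, MemLp (fun x => F N x - f x) 2 μ := fun N => (hF N).sub hf
  have hGg : ∀ N, MemLp (fun x => G N x - g x) 2 μ := fun N => (hG N).sub hg
  have e1 : ∀ N, ∫ x, F N x * G N x ∂μ - ∫ x, f x * g x ∂μ = ∫ x, (F N x - f x) * (G N x - g x) ∂μ +
      ∫ x, f x * (G N x - g x) ∂μ + ∫ x, (F N x - f x) * g x ∂μ := by
    intro N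
    rw [← integral_sub (Hqo_mul (hF N) (hG N)) (Hqo_mul hf hg), ← Hqo_add (Hqo_mul (hFf N) (hGg N)) (Hqo_mul hf (hGg N)),
      ← Hqo_add (Hqo_iadd (Hqo_mul (hFf N) (hGg N)) (Hqo_mul hf (hGg N))) (Hqo_mul (hFf N) hg)]
    exact integral_congr_ae (Eventually.of_forall fun x => by
      show F N x * G N x - f x * g x = (F N x - f x) * (G N x - g x) + f x * (G N x - g x) + (F N x - f x) * g x
      ring)
  have s1 : Tendsto (fun N => Real.sqrt (∫ x, (F N x - f x) ^ 2 ∂μ)) atTop (𝓝 0) := by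
    have h3 := (Real.continuous_sqrt.tendsto 0).comp h1
    rw [Real.sqrt_zero] at h3
    exact h3
  have s2 : Tendsto (fun N => Real.sqrt (∫ x, (G N x - g x) ^ 2 ∂μ)) atTop (𝓝 0) := by
    have h3 := (Real.continuous_sqrt.tendsto 0).comp h2
    rw [Real.sqrt_zero] at h3
    exact h3
  rw [tendsto_iff_norm_sub_tendsto_zero]
  have hb : Tendsto (fun N => Real.sqrt (∫ x, (F N x - f x) ^ 2 ∂μ) * Real.sqrt (∫ x, (G N x - g x) ^ 2 ∂μ) +
      Real.sqrt (∫ x, f x ^ 2 ∂μ) * Real.sqrt (∫ x, (G N x - g x) ^ 2 ∂μ) +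
      Real.sqrt (∫ x, (F N x - f x) ^ 2 ∂μ) * Real.sqrt (∫ x, g x ^ 2 ∂μ)) atTop (𝓝 0) := by
    simpa using ((s1.mul s2).add (s2.const_mul (Real.sqrt (∫ x, f x ^ 2 ∂μ)))).add (s1.mul_const (Real.sqrt (∫ x, g x ^ 2 ∂μ)))
  refine squeeze_zero (fun N => norm_nonneg _) (fun N => ?_) hb
  rw [Real.norm_eq_abs, e1 N]
  refine (abs_add_three _ _ _).trans ?_
  exact add_le_add (add_le_add (Hqo_cs (hFf N) (hGg N)) (Hqo_cs hf (hGg N))) (Hqo_cs (hFf N) hg)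

/-- A test function is square integrable, with its derivatives. -/
theorem Tst.memLp {D : Set ℂ} {φ : ℂ → ℝ} (h : Tst D φ) :
    MemLp φ 2 (volume.restrict D) ∧ ∀ v, MemLp (DrumL.pd v φ) 2 (volume.restrict D) :=
  ⟨(h.cont.memLp_of_hasCompactSupport h.comp).restrict D,
    fun v => ((h.pd v).cont.memLp_of_hasCompactSupport (h.pd v).comp).restrict D⟩

/-- Triples that agree almost everywhere in `D`. -/
private theorem Hqo_congr_ae {D : Set ℂ} {f g₁ g₂ f' g₁' g₂' : ℂ → ℝ} (h : Hq D f g₁ g₂)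
    (h0 : ∀ᵐ x ∂(volume.restrict D), f x = f' x) (h1 : ∀ᵐ x ∂(volume.restrict D), g₁ x = g₁' x)
    (h2 : ∀ᵐ x ∂(volume.restrict D), g₂ x = g₂' x) : Hq D f' g₁' g₂' := by
  obtain ⟨φ, hφ, k0, k1, k2⟩ := h.seq
  refine ⟨h.mem.ae_eq h0, h.mem₁.ae_eq h1, h.mem₂.ae_eq h2, φ, hφ, ?_, ?_, ?_⟩
  · refine k0.congr fun N => integral_congr_ae ?_
    filter_upwards [h0] with x hx
    rw [hx]
  · refine k1.congr fun N => integral_congr_ae ?_
    filter_upwards [h1] with x hx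
    rw [hx]
  · refine k2.congr fun N => integral_congr_ae ?_
    filter_upwards [h2] with x hx
    rw [hx]

/-- Triples that agree in `D`. -/
theorem Hq.congr {D : Set ℂ} (hD : IsOpen D) {f g₁ g₂ f' g₁' g₂' : ℂ → ℝ} (h : Hq D f g₁ g₂) (h0 : ∀ x ∈ D, f x = f' x)
    (h1 : ∀ x ∈ D, g₁ x = g₁' x) (h2 : ∀ x ∈ D, g₂ x = g₂' x) : Hq D f' g₁' g₂' :=
  Hqo_congr_ae h ((ae_restrict_iff' hD.measurableSet).2 (Eventually.of_forall h0))
    ((ae_restrict_iff' hD.measurableSet).2 (Eventually.of_forall h1))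
    ((ae_restrict_iff' hD.measurableSet).2 (Eventually.of_forall h2))

/-- Triples that agree almost everywhere in `D`. -/
theorem Hq.congr_ae {D : Set ℂ} {f g₁ g₂ f' g₁' g₂' : ℂ → ℝ} (h : Hq D f g₁ g₂)
    (h0 : ∀ᵐ x ∂(volume.restrict D), f x = f' x) (h1 : ∀ᵐ x ∂(volume.restrict D), g₁ x = g₁' x)
    (h2 : ∀ᵐ x ∂(volume.restrict D), g₂ x = g₂' x) : Hq D f' g₁' g₂' := Hqo_congr_ae h h0 h1 h2

private theorem Hqo_const {D : Set ℂ} {f g : ℂ → ℝ} {G : ℕ → ℂ → ℝ} (hf : MemLp f 2 (volume.restrict D))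
    (hg : MemLp g 2 (volume.restrict D)) (hG : ∀ N, MemLp (G N) 2 (volume.restrict D))
    (h2 : Tendsto (fun N => ∫ x in D, (G N x - g x) ^ 2) atTop (𝓝 0)) :
    Tendsto (fun N => ∫ x in D, f x * G N x) atTop (𝓝 (∫ x in D, f x * g x)) :=
  l2_pair hf hg (fun _ => hf) hG (by simp) h2

private theorem Hqo_int3 {μ : Measure ℂ} {a b c f g h : ℂ → ℝ} (ha : MemLp a 2 μ) (hb : MemLp b 2 μ) (hc : MemLp c 2 μ)
    (hf : MemLp f 2 μ) (hg : MemLp g 2 μ) (hh : MemLp h 2 μ) :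
    ∫ x, (a x * f x + b x * g x + c x * h x) ∂μ = ∫ x, a x * f x ∂μ + ∫ x, b x * g x ∂μ + ∫ x, c x * h x ∂μ := by
  rw [Hqo_add (Hqo_iadd (Hqo_mul ha hf) (Hqo_mul hb hg)) (Hqo_mul hc hh), Hqo_add (Hqo_mul ha hf) (Hqo_mul hb hg)]

/-- What is orthogonal to the test functions is orthogonal to their closure. -/
theorem Hq.orth {D : Set ℂ} {f g₁ g₂ a b c : ℂ → ℝ} (h : Hq D f g₁ g₂) (ho : Op D a b c) :
    ∫ x in D, (a x * f x + b x * g₁ x + c x * g₂ x) = 0 := by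
  obtain ⟨φ, hφ, k0, k1, k2⟩ := h.seq
  have t0 := Hqo_const ho.mem h.mem (fun N => (hφ N).memLp.1) k0
  have t1 := Hqo_const ho.mem₁ h.mem₁ (fun N => (hφ N).memLp.2 1) k1
  have t2 := Hqo_const ho.mem₂ h.mem₂ (fun N => (hφ N).memLp.2 Complex.I) k2
  have t3 := (t0.add t1).add t2
  rw [← Hqo_int3 ho.mem ho.mem₁ ho.mem₂ h.mem h.mem₁ h.mem₂] at t3
  refine tendsto_nhds_unique t3 ?_
  refine tendsto_const_nhds.congr fun N => ?_
  rw [← Hqo_int3 ho.mem ho.mem₁ ho.mem₂ (hφ N).memLp.1 ((hφ N).memLp.2 1) ((hφ N).memLp.2 Complex.I)]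
  exact (ho.orth (φ N) (hφ N)).symm

/-- The form of two triples is the limit of the form of the approximations. -/
theorem Hq.form {D : Set ℂ} {f g₁ g₂ f' g₁' g₂' : ℂ → ℝ} (h : Hq D f g₁ g₂) (h' : Hq D f' g₁' g₂')
    {φ φ' : ℕ → ℂ → ℝ} (hT : ∀ N, Tst D (φ N)) (hT' : ∀ N, Tst D (φ' N))
    (h0 : Tendsto (fun N => ∫ x in D, (φ N x - f x) ^ 2) atTop (𝓝 0))
    (h1 : Tendsto (fun N => ∫ x in D, (pd 1 (φ N) x - g₁ x) ^ 2) atTop (𝓝 0))
    (h2 : Tendsto (fun N => ∫ x in D, (pd Complex.I (φ N) x - g₂ x) ^ 2) atTop (𝓝 0))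
    (h0' : Tendsto (fun N => ∫ x in D, (φ' N x - f' x) ^ 2) atTop (𝓝 0))
    (h1' : Tendsto (fun N => ∫ x in D, (pd 1 (φ' N) x - g₁' x) ^ 2) atTop (𝓝 0))
    (h2' : Tendsto (fun N => ∫ x in D, (pd Complex.I (φ' N) x - g₂' x) ^ 2) atTop (𝓝 0)) (l : ℝ) :
    Tendsto (fun N => Q l (φ N) (φ' N)) atTop
      (𝓝 (∫ x in D, (g₁ x * g₁' x + g₂ x * g₂' x - l * (f x * f' x)))) := by
  have m : ∀ N, MemLp (φ N) 2 (volume.restrict D) := fun N => (hT N).memLp.1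
  have m1 : ∀ N, MemLp (pd 1 (φ N)) 2 (volume.restrict D) := fun N => (hT N).memLp.2 1
  have m2 : ∀ N, MemLp (pd Complex.I (φ N)) 2 (volume.restrict D) := fun N => (hT N).memLp.2 Complex.I
  have n : ∀ N, MemLp (φ' N) 2 (volume.restrict D) := fun N => (hT' N).memLp.1
  have n1 : ∀ N, MemLp (pd 1 (φ' N)) 2 (volume.restrict D) := fun N => (hT' N).memLp.2 1
  have n2 : ∀ N, MemLp (pd Complex.I (φ' N)) 2 (volume.restrict D) := fun N => (hT' N).memLp.2 Complex.I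
  have t0 := l2_pair h.mem h'.mem m n h0 h0'
  have t1 := l2_pair h.mem₁ h'.mem₁ m1 n1 h1 h1'
  have t2 := l2_pair h.mem₂ h'.mem₂ m2 n2 h2 h2'
  have key : ∀ {a b c a' b' c' : ℂ → ℝ}, MemLp a 2 (volume.restrict D) → MemLp b 2 (volume.restrict D) →
      MemLp c 2 (volume.restrict D) → MemLp a' 2 (volume.restrict D) → MemLp b' 2 (volume.restrict D) →
      MemLp c' 2 (volume.restrict D) → ∫ x in D, (b x * b' x + c x * c' x - l * (a x * a' x)) =
      (∫ x in D, b x * b' x) + (∫ x in D, c x * c' x) - l * ∫ x in D, a x * a' x := by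
    intro a b c a' b' c' ha hb hc ha' hb' hc'
    rw [integral_sub (Hqo_iadd (Hqo_mul hb hb') (Hqo_mul hc hc')) ((Hqo_mul ha ha').const_mul l),
      Hqo_add (Hqo_mul hb hb') (Hqo_mul hc hc'), integral_const_mul]
  rw [key h.mem h.mem₁ h.mem₂ h'.mem h'.mem₁ h'.mem₂]
  refine ((t1.add t2).sub (t0.const_mul l)).congr fun N => ?_
  rw [← key (m N) (m1 N) (m2 N) (n N) (n1 N) (n2 N)]
  unfold Q
  refine setIntegral_eq_integral_of_forall_compl_eq_zero fun x hx => ?_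
  rw [(hT N).zero_of_notMem hx, ((hT N).pd 1).zero_of_notMem hx, ((hT N).pd Complex.I).zero_of_notMem hx]
  ring

end DrumL
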