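import Mathlib

/-!
# Position of two regions
-/

set_option autoImplicit false

namespace DrumL

open Filter Topology Set

private theorem Ina_clopen {U : Set ℂ} (hne : U.Nonempty)
    (hb : Bornology.IsBounded U) : (frontier U).Nonempty := by
  by_contra h
  rw [Set.not_nonempty_iff_eq_empty] at h
  have hc : IsClopen U := isClopen_iff_frontier_eq_empty.2 h
  rcases isClopen_iff.1 hc with h1 | h1
  · exact hne.ne_empty h1
  · rw [h1] at hb
    exact noncompact_univ ℂ (Metric.isCompact_of_isClosed_isBounded isClosed_univ hb)

/-- If the boundary of a connected bounded open set `Ω` of the plane is contained in the bounded open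
set `D`, whose boundary is connected, then the closure of `Ω` is contained in `D`. -/
theorem inside_sub {D Ω : Set ℂ} (hD : IsOpen D) (hDb : Bornology.IsBounded D) (hR : IsPreconnected (frontier D))
    (hΩ : IsOpen Ω) (hΩc : IsConnected Ω) (hΩb : Bornology.IsBounded Ω) (hfr : frontier Ω ⊆ D) : closure Ω ⊆ D := by
  have hdis : ∀ y ∈ frontier D, y ∉ D := fun y hy hyD => by
    rw [hD.frontier_eq] at hy
    exact hy.2 hyD
  have hcov : frontier D ⊆ Ω ∪ (closure Ω)ᶜ := by
    intro y hy
    by_cases h : y ∈ closure Ω
    · left
      by_contra h2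
      have h3 : y ∈ frontier Ω := by
        rw [hΩ.frontier_eq]
        exact ⟨h, h2⟩
      exact hdis y hy (hfr h3)
    · exact Or.inr h
  have hd : Disjoint Ω (closure Ω)ᶜ := by
    rw [Set.disjoint_compl_right_iff_subset]
    exact subset_closure
  by_cases hm : (frontier D ∩ Ω).Nonempty
  · have h1 : frontier D ⊆ Ω :=
      hR.subset_left_of_subset_union hΩ isClosed_closure.isOpen_compl hd hcov hm
    exfalso
    obtain ⟨y, hy⟩ := Ina_clopen (hΩc.nonempty.mono Set.subset_union_right)
      (hDb.union hΩb)
    have hy2 := hy
    rw [(hD.union hΩ).frontier_eq] at hy2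
    apply hy2.2
    rcases frontier_union_subset D Ω hy with h2 | h2
    · exact Or.inr (h1 h2.1)
    · exact Or.inl (hfr h2.2)
  · have h1 : ∀ y ∈ frontier D, y ∉ closure Ω := by
      intro y hy
      rcases hcov hy with h2 | h2
      · exact absurd ⟨y, hy, h2⟩ hm
      · exact h2
    obtain ⟨y, hy⟩ := Ina_clopen hΩc.nonempty hΩb
    have hyc : y ∈ closure Ω := frontier_subset_closure hy
    obtain ⟨w, hwD, hwΩ⟩ := mem_closure_iff.1 hyc D hD (hfr hy)
    have hd2 : Disjoint D (closure D)ᶜ := by
      rw [Set.disjoint_compl_right_iff_subset]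
      exact subset_closure
    have h2 : Ω ⊆ D := by
      refine hΩc.isPreconnected.subset_left_of_subset_union hD isClosed_closure.isOpen_compl hd2
        ?_ ⟨w, hwΩ, hwD⟩
      intro x hx
      by_cases h : x ∈ closure D
      · left
        by_contra h3
        have h4 : x ∈ frontier D := by
          rw [hD.frontier_eq]
          exact ⟨h, h3⟩
        exact h1 x h4 (subset_closure hx)
      · exact Or.inr h
    rw [closure_eq_self_union_frontier]
    exact Set.union_subset h2 hfr

end DrumL
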