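import Pool.Agent.Lib.MP_d92c84_an.Bes

/-!
# Bounds for Bessel functions near zero
-/

set_option autoImplicit false

namespace DrumL

open Filter Topology Set DrumF

/-- The absolute values of the terms of the Bessel series. -/
noncomputable def Jba_b (n : ℕ) (x : ℝ) (j : ℕ) : ℝ :=
  (x / 2) ^ (2 * j + n) / (j.factorial * (j + n).factorial)

theorem Jba_summable (n : ℕ) (x : ℝ) : Summable fun j : ℕ => (-1 : ℝ) ^ j * Jba_b n x j := by
  have h := (Real.summable_pow_div_factorial ((x / 2) ^ 2)).mul_left (|x / 2| ^ n)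
  refine Summable.of_norm_bounded h fun j => ?_
  have h3 : (0 : ℝ) < j.factorial := by exact_mod_cast j.factorial_pos
  have h4 : (1 : ℝ) ≤ (j + n).factorial := by exact_mod_cast (j + n).factorial_pos
  have h5 : ‖(-1 : ℝ) ^ j * Jba_b n x j‖ =
      |x / 2| ^ n * (((x / 2) ^ 2) ^ j / (j.factorial * (j + n).factorial)) := by
    rw [Jba_b, norm_mul, norm_pow, norm_neg, norm_one, one_pow, one_mul, norm_div, norm_pow,
      Real.norm_eq_abs, Real.norm_eq_abs, abs_of_pos (mul_pos h3 (by linarith)), pow_add, pow_mul,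
      sq_abs]
    ring
  rw [h5]
  refine mul_le_mul_of_nonneg_left ?_ (by positivity)
  apply div_le_div_of_nonneg_left (by positivity) h3
  nlinarith

theorem Jba_eq (n : ℕ) (x : ℝ) : J n x = ∑' j : ℕ, (-1 : ℝ) ^ j * Jba_b n x j := by
  rw [J]
  refine tsum_congr fun j => ?_
  rw [Jba_b, mul_div_assoc]

theorem Jba_tendsto (n : ℕ) (x : ℝ) :
    Tendsto (fun N => ∑ i ∈ Finset.range N, (-1 : ℝ) ^ i * Jba_b n x i) atTop (𝓝 (J n x)) := by
  rw [Jba_eq]
  exact (Jba_summable n x).hasSum.tendsto_sum_nat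

theorem Jba_pos (n : ℕ) {x : ℝ} (h0 : 0 < x) (j : ℕ) : 0 < Jba_b n x j := by
  have h3 : (0 : ℝ) < j.factorial := by exact_mod_cast j.factorial_pos
  have h4 : (0 : ℝ) < (j + n).factorial := by exact_mod_cast (j + n).factorial_pos
  rw [Jba_b]
  positivity

theorem Jba_succ (n : ℕ) (x : ℝ) (j : ℕ) :
    Jba_b n x (j + 1) = Jba_b n x j * ((x / 2) ^ 2 / ((j + 1) * (j + n + 1))) := by
  have h3 : (j.factorial : ℝ) ≠ 0 := by exact_mod_cast j.factorial_ne_zero
  have h4 : ((j + n).factorial : ℝ) ≠ 0 := by exact_mod_cast (j + n).factorial_ne_zero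
  have h5 : (j : ℝ) + 1 ≠ 0 := by positivity
  have h6 : (j : ℝ) + n + 1 ≠ 0 := by positivity
  have h7 : j + 1 + n = (j + n) + 1 := by ring
  rw [Jba_b, Jba_b, h7, Nat.factorial_succ, Nat.factorial_succ]
  push_cast
  have h8 : 2 * (j + 1) + n = (2 * j + n) + 2 := by ring
  rw [h8, pow_add]
  field_simp

theorem Jba_step (n : ℕ) {x : ℝ} (h0 : 0 < x) (h1 : x ≤ 1) (j : ℕ) :
    Jba_b n x (j + 1) ≤ Jba_b n x j * (x / 2) ^ 2 ∧ Jba_b n x (j + 1) ≤ Jba_b n x j / 4 := by
  have hb := Jba_pos n h0 j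
  have h5 : (1 : ℝ) ≤ (j + 1) * (j + n + 1) := by
    have a1 : (0 : ℝ) ≤ j := by positivity
    have a2 : (0 : ℝ) ≤ n := by positivity
    nlinarith [mul_nonneg a1 a1, mul_nonneg a1 a2]
  have h6 : (x / 2) ^ 2 / ((j + 1) * (j + n + 1)) ≤ (x / 2) ^ 2 := div_le_self (by positivity) h5
  have h7 : (x / 2) ^ 2 ≤ 1 / 4 := by nlinarith
  rw [Jba_succ]
  refine ⟨mul_le_mul_of_nonneg_left h6 hb.le, ?_⟩
  calc Jba_b n x j * ((x / 2) ^ 2 / ((j + 1) * (j + n + 1))) ≤ Jba_b n x j * (1 / 4) :=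
        mul_le_mul_of_nonneg_left (h6.trans h7) hb.le
    _ = Jba_b n x j / 4 := by ring

theorem Jba_anti (n : ℕ) {x : ℝ} (h0 : 0 < x) (h1 : x ≤ 1) : Antitone (Jba_b n x) := by
  refine antitone_nat_of_succ_le fun j => ?_
  have hb := Jba_pos n h0 j
  have := (Jba_step n h0 h1 j).2
  linarith

theorem Jba_zero (n : ℕ) (x : ℝ) : Jba_b n x 0 = (x / 2) ^ n / n.factorial := by
  rw [Jba_b]
  simp

theorem Jba_le (n : ℕ) {x : ℝ} (h0 : 0 < x) (h1 : x ≤ 1) :
    Jba_b n x 0 - Jba_b n x 1 ≤ J n x ∧ J n x ≤ Jba_b n x 0 := by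
  have e1 := (Jba_anti n h0 h1).alternating_series_le_tendsto (Jba_tendsto n x) 1
  have e2 := (Jba_anti n h0 h1).tendsto_le_alternating_series (Jba_tendsto n x) 0
  rw [mul_one, Finset.sum_range_succ, Finset.sum_range_one] at e1
  rw [mul_zero, zero_add, Finset.sum_range_one] at e2
  constructor
  · calc Jba_b n x 0 - Jba_b n x 1 = (-1) ^ 0 * Jba_b n x 0 + (-1) ^ 1 * Jba_b n x 1 := by ring
      _ ≤ J n x := e1
  · calc J n x ≤ (-1) ^ 0 * Jba_b n x 0 := e2
      _ = Jba_b n x 0 := by ring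

/-- Bounds of the Bessel function on the unit interval by the first term of its series. -/
theorem J_bounds (n : ℕ) {x : ℝ} (h0 : 0 < x) (h1 : x ≤ 1) :
    3 / 4 * ((x / 2) ^ n / n.factorial) ≤ J n x ∧ J n x ≤ (x / 2) ^ n / n.factorial := by
  have h := Jba_le n h0 h1
  have h2 := (Jba_step n h0 h1 0).2
  rw [zero_add] at h2
  rw [← Jba_zero]
  exact ⟨by linarith [h.1], h.2⟩

/-- The Bessel functions are positive on the unit interval. -/
theorem J_pos (n : ℕ) {x : ℝ} (h0 : 0 < x) (h1 : x ≤ 1) : 0 < J n x := by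
  refine lt_of_lt_of_le ?_ (J_bounds n h0 h1).1
  have h4 : (0 : ℝ) < n.factorial := by exact_mod_cast n.factorial_pos
  positivity

/-- Comparison of the values of a Bessel function at two points of the unit interval. -/
theorem J_ratio (n : ℕ) {x y : ℝ} (h0 : 0 < x) (hxy : x ≤ y) (h1 : y ≤ 1) : J n x ≤ 4 / 3 * (x / y) ^ n * J n y := by
  have hy : 0 < y := h0.trans_le hxy
  have h2 := (J_bounds n h0 (hxy.trans h1)).2
  have h3 := (J_bounds n hy h1).1
  have h4 : (0 : ℝ) < n.factorial := by exact_mod_cast n.factorial_pos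
  have h5 : (x / 2) ^ n / n.factorial =
      4 / 3 * (x / y) ^ n * (3 / 4 * ((y / 2) ^ n / n.factorial)) := by
    rw [div_pow, div_pow, div_pow]
    field_simp
  calc J n x ≤ (x / 2) ^ n / n.factorial := h2
    _ = 4 / 3 * (x / y) ^ n * (3 / 4 * ((y / 2) ^ n / n.factorial)) := h5
    _ ≤ 4 / 3 * (x / y) ^ n * J n y := mul_le_mul_of_nonneg_left h3 (by positivity)

/-- The first term of the Bessel series approximates the Bessel function. -/
theorem J_lead (n : ℕ) {x : ℝ} (h0 : 0 < x) (h1 : x ≤ 1) :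
    |J n x - (x / 2) ^ n / n.factorial| ≤ (x / 2) ^ (n + 2) / n.factorial := by
  have h := Jba_le n h0 h1
  have h2 := (Jba_step n h0 h1 0).1
  rw [zero_add] at h2
  have h3 : (x / 2) ^ (n + 2) / n.factorial = Jba_b n x 0 * (x / 2) ^ 2 := by
    rw [Jba_zero, pow_add]
    ring
  rw [← Jba_zero, h3, abs_le]
  exact ⟨by linarith [h.1], by
    have := Jba_pos n h0 0
    have h5 : 0 ≤ Jba_b n x 0 * (x / 2) ^ 2 := by positivity
    linarith [h.2]⟩

end DrumL
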