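import Pool.Agent.Lib.MP_d92c84_anF.Mib

/-!
# Arcs of a simple closed curve
-/

set_option autoImplicit false

namespace DrumL

open Filter Topology Set

/-- Crossing, in terms of path-connectedness: in the rectangle `E = [-1, 1] × [-2, 2]` a curve from `-1` to `1` meets
every connected (path) set joining the top to the bottom. -/
theorem arc_cross {α : ℝ → ℂ} (hα : ContinuousOn α (Icc 0 1)) (h0 : α 0 = -1) (h1 : α 1 = 1)
    (hE : ∀ s ∈ Icc (0 : ℝ) 1, |(α s).im| ≤ 2) {S : Set ℂ} (hS : ∀ x ∈ S, |x.re| ≤ 1)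
    (hdis : ∀ s ∈ Icc (0 : ℝ) 1, α s ∉ S) : ¬ JoinedIn S (2 * Complex.I) (-(2 * Complex.I)) := by
  rintro ⟨γ, hγ⟩
  have hv : Continuous γ.symm.extend := γ.symm.continuous_extend
  have hmem : ∀ t ∈ Icc (0 : ℝ) 1, γ.symm.extend t ∈ S := by
    intro t ht
    rw [Path.extend_apply _ ht, Path.symm_apply]
    exact hγ _
  obtain ⟨s, hs, t, ht, hst⟩ := rect_cross hα hv.continuousOn (fun t ht => by
    have := abs_le.1 (hS _ (hmem t ht))
    rw [h0, h1]
    exact ⟨by simpa using this.1, by simpa using this.2⟩) (fun s hs => by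
    have := abs_le.1 (hE s hs)
    rw [Path.extend_zero, Path.extend_one]
    exact ⟨by simpa using this.1, by simpa using this.2⟩)
  exact hdis s hs (hst ▸ hmem t ht)

/-- The two arcs of a simple closed curve between two of its points. -/
theorem two_arcs {g : Circle → ℂ} (hg : Continuous g) (hinj : Function.Injective g) {A B : ℂ} (hA : A ∈ range g)
    (hB : B ∈ range g) (hAB : A ≠ B) :
    ∃ α β : ℝ → ℂ, Continuous α ∧ Continuous β ∧ α 0 = A ∧ α 1 = B ∧ β 0 = A ∧ β 1 = B ∧
      InjOn α (Icc 0 1) ∧ InjOn β (Icc 0 1) ∧ α '' Icc 0 1 ∪ β '' Icc 0 1 = range g ∧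
      α '' Icc 0 1 ∩ β '' Icc 0 1 = {A, B} := by
  obtain ⟨a, rfl⟩ := hA
  obtain ⟨b, rfl⟩ := hB
  have hab : a ≠ b := fun h => hAB (h ▸ rfl)
  have hpi := Real.pi_pos
  have h2pi : (0 : ℝ) < 2 * Real.pi := by positivity
  have hlift : ∀ (c : Circle) (x : ℝ), ∃ θ ∈ Ico x (x + 2 * Real.pi), Circle.exp θ = c := by
    intro c x
    refine ⟨toIcoMod h2pi x (Complex.arg c), toIcoMod_mem_Ico _ _ _, ?_⟩
    have h1 : Circle.exp (Complex.arg c) = c := Circle.exp_arg c
    conv_rhs => rw [← h1]
    rw [Circle.exp_eq_exp]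
    refine ⟨-toIcoDiv h2pi x (Complex.arg c), ?_⟩
    rw [toIcoMod]
    simp only [zsmul_eq_mul, Int.cast_neg]
    ring
  obtain ⟨p, -, hp⟩ := hlift a 0
  obtain ⟨q, hq, hqb⟩ := hlift b p
  have hpq : p < q := by
    rcases hq.1.lt_or_eq with h | h
    · exact h
    · exact absurd (by rw [← hp, ← hqb, h]) hab
  set u := q - p with hu
  set w := p + 2 * Real.pi - q with hw
  have hu0 : 0 < u := by simp only [hu]; linarith
  have hw0 : 0 < w := by simp only [hw]; linarith [hq.2]
  have huw : u + w = 2 * Real.pi := by simp only [hu, hw]; ring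
  have hper : ∀ x : ℝ, Circle.exp (x - 2 * Real.pi) = Circle.exp x := by
    intro x
    rw [Circle.exp_eq_exp]
    exact ⟨-1, by push_cast; ring⟩
  have hint : ∀ m : ℤ, (0 : ℝ) ≤ 2 * Real.pi * m → 2 * Real.pi * m ≤ 2 * Real.pi → m = 0 ∨ m = 1 := by
    intro m h1 h2
    have h3 : (0 : ℝ) ≤ m := nonneg_of_mul_nonneg_right h1 h2pi
    have h4 : (m : ℝ) ≤ 1 := by
      have : 2 * Real.pi * (m : ℝ) ≤ 2 * Real.pi * 1 := by linarith
      exact le_of_mul_le_mul_left this h2pi
    have h5 : 0 ≤ m := by exact_mod_cast h3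
    have h6 : m ≤ 1 := by exact_mod_cast h4
    omega
  have hint0 : ∀ m : ℤ, |2 * Real.pi * (m : ℝ)| < 2 * Real.pi → m = 0 := by
    intro m h1
    rw [abs_lt] at h1
    have h3 : (-1 : ℝ) < m := by
      have : 2 * Real.pi * (-1 : ℝ) < 2 * Real.pi * m := by linarith
      exact lt_of_mul_lt_mul_left this h2pi.le
    have h4 : (m : ℝ) < 1 := by
      have : 2 * Real.pi * (m : ℝ) < 2 * Real.pi * 1 := by linarith
      exact lt_of_mul_lt_mul_left this h2pi.le
    have h5 : -1 < m := by exact_mod_cast h3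
    have h6 : m < 1 := by exact_mod_cast h4
    omega
  refine ⟨fun s => g (Circle.exp (p + s * u)), fun s => g (Circle.exp (p - s * w)), ?_, ?_, ?_, ?_, ?_, ?_, ?_, ?_, ?_, ?_⟩
  · exact hg.comp (Circle.exp.continuous.comp (by fun_prop))
  · exact hg.comp (Circle.exp.continuous.comp (by fun_prop))
  · simp [hp]
  · have : p + 1 * u = q := by simp only [hu]; ring
    simp only [this, hqb]
  · simp [hp]
  · have : p - 1 * w = q - 2 * Real.pi := by simp only [hw]; ring
    simp only [this, hper, hqb]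
  · intro s hs t ht hst
    have h1 := Circle.exp_eq_exp.1 (hinj hst)
    obtain ⟨m, hm⟩ := h1
    have h2 : (s - t) * u = 2 * Real.pi * m := by linarith
    have h3 : |(s - t) * u| < 2 * Real.pi := by
      rw [abs_mul, abs_of_pos hu0]
      have h4 : |s - t| ≤ 1 := by
        rw [abs_le]; constructor <;> linarith [hs.1, hs.2, ht.1, ht.2]
      nlinarith [abs_nonneg (s - t)]
    rw [h2] at h3
    have h5 := hint0 m h3
    rw [h5] at h2
    have h6 : (s - t) * u = 0 := by simpa using h2
    have h7 := (mul_eq_zero.1 h6).resolve_right hu0.ne'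
    linarith
  · intro s hs t ht hst
    have h1 := Circle.exp_eq_exp.1 (hinj hst)
    obtain ⟨m, hm⟩ := h1
    have h2 : (t - s) * w = 2 * Real.pi * m := by linarith
    have h3 : |(t - s) * w| < 2 * Real.pi := by
      rw [abs_mul, abs_of_pos hw0]
      have h4 : |t - s| ≤ 1 := by
        rw [abs_le]; constructor <;> linarith [hs.1, hs.2, ht.1, ht.2]
      nlinarith [abs_nonneg (t - s)]
    rw [h2] at h3
    have h5 := hint0 m h3
    rw [h5] at h2
    have h6 : (t - s) * w = 0 := by simpa using h2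
    have h7 := (mul_eq_zero.1 h6).resolve_right hw0.ne'
    linarith
  · apply Subset.antisymm
    · rintro x (⟨s, -, rfl⟩ | ⟨s, -, rfl⟩) <;> exact mem_range_self _
    · rintro x ⟨c, rfl⟩
      obtain ⟨θ, hθ, rfl⟩ := hlift c (q - 2 * Real.pi)
      rcases le_total p θ with h | h
      · left
        refine ⟨(θ - p) / u, ⟨by apply div_nonneg; linarith; exact hu0.le, ?_⟩, ?_⟩
        · rw [div_le_one hu0]; simp only [hu]; linarith [hθ.2]
        · simp only [div_mul_cancel₀ _ hu0.ne']
          congr 2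
          ring
      · right
        refine ⟨(p - θ) / w, ⟨by apply div_nonneg; linarith; exact hw0.le, ?_⟩, ?_⟩
        · rw [div_le_one hw0]; simp only [hw]; linarith [hθ.1]
        · simp only [div_mul_cancel₀ _ hw0.ne']
          congr 2
          ring
  · apply Subset.antisymm
    · rintro x ⟨⟨s, hs, rfl⟩, ⟨t, ht, hst⟩⟩
      obtain ⟨m, hm⟩ := Circle.exp_eq_exp.1 (hinj hst)
      have h1 : s * u + t * w = 2 * Real.pi * ((-m : ℤ) : ℝ) := by push_cast; linarith
      have h2 : 0 ≤ s * u := mul_nonneg hs.1 hu0.le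
      have h3 : 0 ≤ t * w := mul_nonneg ht.1 hw0.le
      have h4 : s * u ≤ u := by nlinarith [hs.2]
      have h5 : t * w ≤ w := by nlinarith [ht.2]
      rcases hint (-m) (by rw [← h1]; linarith) (by rw [← h1]; linarith) with h | h
      · left
        rw [h] at h1
        have h6 : s * u = 0 := by
          have : s * u + t * w = 0 := by simpa using h1
          linarith
        show g (Circle.exp (p + s * u)) = g a
        rw [h6, add_zero, hp]
      · right
        rw [h] at h1
        have h6 : s * u = u := by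
          have : s * u + t * w = 2 * Real.pi := by simpa using h1
          linarith
        show g (Circle.exp (p + s * u)) = g b
        rw [h6]
        have : p + u = q := by simp only [hu]; ring
        rw [this, hqb]
    · rintro x (rfl | rfl)
      · exact ⟨⟨0, by simp, by simp [hp]⟩, ⟨0, by simp, by simp [hp]⟩⟩
      · refine ⟨⟨1, by simp, ?_⟩, ⟨1, by simp, ?_⟩⟩
        · have : p + 1 * u = q := by simp only [hu]; ring
          simp only [this, hqb]
        · have : p - 1 * w = q - 2 * Real.pi := by simp only [hw]; ring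
          simp only [this, hper, hqb]

end DrumL
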