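import Pool.Agent.Lib.MP_d92c84_anF.Joa

/-!
# The complement of a simple closed curve has a bounded component: normalised case
-/

set_option autoImplicit false

namespace DrumL

open Filter Topology Set

/-- A curve in a set joins its endpoints. -/
private theorem Job_join {f : ℝ → ℂ} (hf : Continuous f) {S : Set ℂ} {a b : ℝ}
    (h : ∀ y ∈ uIcc a b, f y ∈ S) : JoinedIn S (f a) (f b) := by
  have hcont : Continuous fun t : ℝ => f (a + t * (b - a)) :=
    hf.comp (continuous_const.add (continuous_id.mul continuous_const))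
  refine JoinedIn.ofLine (f := fun t : ℝ => f (a + t * (b - a))) hcont.continuousOn (by simp) (by simp) ?_
  rintro _ ⟨t, ht, rfl⟩
  apply h
  rw [mem_uIcc]
  have ht0 : 0 ≤ t := ht.1
  have ht1 : t ≤ 1 := ht.2
  rcases le_total a b with hab | hab
  · left
    constructor
    · nlinarith
    · nlinarith
  · right
    constructor
    · nlinarith
    · nlinarith

/-- The boundary of the rectangle. -/
private theorem Job_bdry {J : Set ℂ} (him : ∀ x ∈ J, |x.im| < 2)
    (hre1 : ∀ x ∈ J, |x.re| = 1 → x = 1 ∨ x = -1) {w : ℂ} (hw1 : |w.re| ≤ 1) (hw2 : |w.im| ≤ 2)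
    (hwb : |w.re| = 1 ∨ |w.im| = 2) {s : ℝ} (hs : |s| = 2) (hsw : 0 < s * w.im) :
    JoinedIn {z : ℂ | |z.re| ≤ 1 ∧ |z.im| ≤ 2 ∧ z ∉ J} w ((s : ℂ) * Complex.I) := by
  have hs' : s = 2 ∨ s = -2 := by
    rcases abs_choice s with h | h
    · left; linarith
    · right; linarith
  have c1 : Continuous fun y : ℝ => (w.re : ℂ) + (y : ℂ) * Complex.I := by fun_prop
  have c2 : Continuous fun x : ℝ => (x : ℂ) + (s : ℂ) * Complex.I := by fun_prop
  have hw2' := abs_le.mp hw2
  have hw1' := abs_le.mp hw1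
  have j1 : JoinedIn {z : ℂ | |z.re| ≤ 1 ∧ |z.im| ≤ 2 ∧ z ∉ J} ((w.re : ℂ) + (w.im : ℂ) * Complex.I)
      ((w.re : ℂ) + (s : ℂ) * Complex.I) := by
    refine Job_join c1 ?_
    intro y hy
    have hy2 : |y| ≤ 2 ∧ 0 < s * y ∧ |w.im| ≤ |y| := by
      rw [mem_uIcc] at hy
      rcases hs' with h | h
      · subst h
        have hwpos : 0 < w.im := by nlinarith
        have hy' : w.im ≤ y ∧ y ≤ 2 := by
          rcases hy with hy | hy
          · exact hy
          · constructor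
            · linarith [hw2'.2]
            · linarith [hw2'.2]
        have hypos : 0 < y := by linarith [hy'.1]
        refine ⟨abs_le.mpr ⟨by linarith, hy'.2⟩, by nlinarith, ?_⟩
        rw [abs_of_pos hwpos, abs_of_pos hypos]
        exact hy'.1
      · subst h
        have hwneg : w.im < 0 := by nlinarith
        have hy' : -2 ≤ y ∧ y ≤ w.im := by
          rcases hy with hy | hy
          · constructor
            · linarith [hw2'.1]
            · linarith [hw2'.1]
          · exact hy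
        have hyneg : y < 0 := by linarith [hy'.2]
        refine ⟨abs_le.mpr ⟨hy'.1, by linarith⟩, by nlinarith, ?_⟩
        rw [abs_of_neg hwneg, abs_of_neg hyneg]
        linarith [hy'.2]
    obtain ⟨hya, hyb, hyc⟩ := hy2
    refine ⟨by simpa using hw1, by simpa using hya, ?_⟩
    intro hJ
    have e1 : ((w.re : ℂ) + (y : ℂ) * Complex.I).re = w.re := by simp
    have e2 : ((w.re : ℂ) + (y : ℂ) * Complex.I).im = y := by simp
    rcases hwb with hb | hb
    · have hy0 : y = 0 := by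
        rcases hre1 _ hJ (by rw [e1]; exact hb) with h | h
        · have h3 := congrArg Complex.im h
          rw [e2] at h3
          simpa using h3
        · have h3 := congrArg Complex.im h
          rw [e2] at h3
          simpa using h3
      rw [hy0] at hyb
      simp at hyb
    · have h3 := him _ hJ
      rw [e2] at h3
      linarith
  have j2 : JoinedIn {z : ℂ | |z.re| ≤ 1 ∧ |z.im| ≤ 2 ∧ z ∉ J} ((w.re : ℂ) + (s : ℂ) * Complex.I)
      (((0 : ℝ) : ℂ) + (s : ℂ) * Complex.I) := by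
    refine Job_join c2 ?_
    intro x hx
    have hx1 : |x| ≤ 1 := by
      rw [mem_uIcc] at hx
      rw [abs_le]
      rcases hx with hx | hx
      · exact ⟨by linarith [hx.1], by linarith [hx.2]⟩
      · exact ⟨by linarith [hx.1], by linarith [hx.2]⟩
    have e1 : ((x : ℂ) + (s : ℂ) * Complex.I).re = x := by simp
    have e2 : ((x : ℂ) + (s : ℂ) * Complex.I).im = s := by simp
    refine ⟨by rw [e1]; exact hx1, by rw [e2]; exact hs.le, ?_⟩
    intro hJ
    have h3 := him _ hJ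
    rw [e2] at h3
    linarith
  have j3 := j1.trans j2
  rw [Complex.re_add_im] at j3
  have e4 : ((0 : ℝ) : ℂ) + (s : ℂ) * Complex.I = (s : ℂ) * Complex.I := by simp
  rw [e4] at j3
  exact j3

/-- The component, when the highest point on the axis is on the first arc. -/
private theorem Job_main {J : Set ℂ} {α β : ℝ → ℂ} (hJ : α '' Icc 0 1 ∪ β '' Icc 0 1 = J) (hα : Continuous α)
    (hβ : Continuous β) (hα0 : α 0 = -1) (hα1 : α 1 = 1) (hβ0 : β 0 = -1) (hβ1 : β 1 = 1)
    (hαi : InjOn α (Icc 0 1)) (hint : α '' Icc 0 1 ∩ β '' Icc 0 1 = {-1, 1})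
    (hre : ∀ x ∈ J, |x.re| ≤ 1) (him : ∀ x ∈ J, |x.im| < 2)
    (hre1 : ∀ x ∈ J, |x.re| = 1 → x = 1 ∨ x = -1) {l : ℝ} (hl : (l : ℂ) * Complex.I ∈ α '' Icc 0 1)
    (hlmax : ∀ y : ℝ, l < y → (y : ℂ) * Complex.I ∉ J) :
    ∃ Ω : Set ℂ, IsOpen Ω ∧ IsConnected Ω ∧ Bornology.IsBounded Ω ∧ frontier Ω ⊆ J ∧ Disjoint Ω J := by
  set A : Set ℂ := α '' Icc 0 1 with hA
  set B : Set ℂ := β '' Icc 0 1 with hB
  have hAJ : A ⊆ J := by rw [← hJ]; exact subset_union_left
  have hBJ : B ⊆ J := by rw [← hJ]; exact subset_union_right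
  have hAc : IsCompact A := isCompact_Icc.image hα
  have hBc : IsCompact B := isCompact_Icc.image hβ
  have hJc : IsCompact J := by rw [← hJ]; exact hAc.union hBc
  have hax : Continuous fun y : ℝ => (y : ℂ) * Complex.I := by fun_prop
  have axre : ∀ y : ℝ, ((y : ℂ) * Complex.I).re = 0 := by intro y; simp
  have axim : ∀ y : ℝ, ((y : ℂ) * Complex.I).im = y := by intro y; simp
  -- the open arc avoids the other arc
  have harc : ∀ s ∈ Ioo (0 : ℝ) 1, α s ∉ B := by
    intro s hs hsB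
    have h1 : α s ∈ A ∩ B := ⟨⟨s, ⟨hs.1.le, hs.2.le⟩, rfl⟩, hsB⟩
    rw [hint] at h1
    rcases h1 with h | h
    · have h2 : s = 0 := hαi ⟨hs.1.le, hs.2.le⟩ ⟨le_refl _, zero_le_one⟩ (h.trans hα0.symm)
      linarith [hs.1]
    · have h2 : s = 1 := hαi ⟨hs.1.le, hs.2.le⟩ ⟨zero_le_one, le_refl _⟩ (h.trans hα1.symm)
      linarith [hs.2]
  -- points of the axis on the arc
  have haxs : ∀ y : ℝ, (y : ℂ) * Complex.I ∈ A → ∃ s ∈ Ioo (0 : ℝ) 1, α s = (y : ℂ) * Complex.I := by
    rintro y ⟨s, hs, hsy⟩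
    refine ⟨s, ⟨lt_of_le_of_ne hs.1 ?_, lt_of_le_of_ne hs.2 ?_⟩, hsy⟩
    · rintro rfl
      rw [hα0] at hsy
      have h3 := congrArg Complex.re hsy
      rw [axre] at h3
      norm_num at h3
    · rintro rfl
      rw [hα1] at hsy
      have h3 := congrArg Complex.re hsy
      rw [axre] at h3
      norm_num at h3
  -- the lowest point of the first arc
  have hKc : IsCompact {y : ℝ | (y : ℂ) * Complex.I ∈ A} := by
    refine (isCompact_Icc (a := (-2 : ℝ)) (b := 2)).of_isClosed_subset (hAc.isClosed.preimage hax) ?_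
    intro y hy
    have h3 := him _ (hAJ hy)
    rw [axim] at h3
    exact ⟨(abs_lt.mp h3).1.le, (abs_lt.mp h3).2.le⟩
  obtain ⟨m, hm, hmin⟩ := hKc.exists_isLeast ⟨l, hl⟩
  have hmin' : ∀ y : ℝ, y < m → (y : ℂ) * Complex.I ∉ A := by
    intro y hy hyA
    exact absurd (hmin hyA) (not_le.mpr hy)
  have hm2 : |m| < 2 := by
    have h3 := him _ (hAJ hm)
    rwa [axim] at h3
  have hl2 : |l| < 2 := by
    have h3 := him _ (hAJ hl)
    rwa [axim] at h3
  have hm2' := abs_lt.mp hm2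
  have hl2' := abs_lt.mp hl2
  have hmB : (m : ℂ) * Complex.I ∉ B := by
    obtain ⟨s, hs, hsm⟩ := haxs m hm
    rw [← hsm]
    exact harc s hs
  have hlB : (l : ℂ) * Complex.I ∉ B := by
    obtain ⟨s, hs, hsl⟩ := haxs l hl
    rw [← hsl]
    exact harc s hs
  -- the base point
  obtain ⟨y0, hy02, hy0m, hy0B⟩ : ∃ y0 : ℝ, -2 < y0 ∧ y0 < m ∧
      ∀ y ∈ Icc y0 m, (y : ℂ) * Complex.I ∉ B := by
    have hop : IsOpen {y : ℝ | (y : ℂ) * Complex.I ∈ Bᶜ} := hBc.isClosed.isOpen_compl.preimage hax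
    obtain ⟨ε, hε, hball⟩ := Metric.isOpen_iff.mp hop m hmB
    refine ⟨max (m - ε / 2) ((m - 2) / 2), ?_, ?_, ?_⟩
    · exact lt_of_lt_of_le (by linarith) (le_max_right _ _)
    · exact max_lt (by linarith) (by linarith)
    · intro y hy
      apply hball
      rw [Metric.mem_ball, Real.dist_eq, abs_lt]
      have h4 : m - ε / 2 ≤ y := le_trans (le_max_left _ _) hy.1
      exact ⟨by linarith, by linarith [hy.2]⟩
  have hz0 : (y0 : ℂ) * Complex.I ∈ Jᶜ := by
    rw [← hJ]
    rintro (h | h)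
    · exact hmin' y0 hy0m h
    · exact hy0B y0 ⟨le_refl _, hy0m.le⟩ h
  set z0 : ℂ := (y0 : ℂ) * Complex.I with hz0d
  set Ω : Set ℂ := connectedComponentIn Jᶜ z0 with hΩ
  have hopen : IsOpen Ω := hJc.isClosed.isOpen_compl.connectedComponentIn
  have hconn : IsConnected Ω := isConnected_connectedComponentIn_iff.mpr hz0
  have hsub : Ω ⊆ Jᶜ := connectedComponentIn_subset _ _
  have hz0Ω : z0 ∈ Ω := mem_connectedComponentIn hz0
  refine ⟨Ω, hopen, hconn, ?_, ?_, ?_⟩
  · -- bounded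
    by_contra hunb
    have hEb : Bornology.IsBounded {z : ℂ | |z.re| ≤ 1 ∧ |z.im| ≤ 2} := by
      rw [isBounded_iff_forall_norm_le]
      refine ⟨3, ?_⟩
      intro z hz
      have h5 := Complex.norm_le_abs_re_add_abs_im z
      linarith [hz.1, hz.2]
    have hns : ¬ Ω ⊆ {z : ℂ | |z.re| ≤ 1 ∧ |z.im| ≤ 2} := fun h => hunb (hEb.subset h)
    obtain ⟨w0, hw0Ω, hw0E⟩ := not_subset.mp hns
    have hpc : IsPathConnected Ω := (hopen.isConnected_iff_isPathConnected).mp hconn
    obtain ⟨γ, hγ⟩ := hpc.joinedIn z0 hz0Ω w0 hw0Ω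
    obtain ⟨c, hc, hc0, hc1, hcΩ⟩ : ∃ c : ℝ → ℂ, Continuous c ∧ c 0 = z0 ∧ c 1 = w0 ∧ ∀ t, c t ∈ Ω := by
      refine ⟨γ.extend, γ.continuous_extend, γ.extend_zero, γ.extend_one, ?_⟩
      intro t
      have h6 : γ.extend t ∈ range γ := by
        rw [← γ.extend_range]
        exact mem_range_self t
      obtain ⟨u, hu⟩ := h6
      rw [← hu]
      exact hγ u
    set φ : ℝ → ℝ := fun t => max |(c t).re| (|(c t).im| / 2) with hφ
    have hφc : Continuous φ := by
      apply Continuous.max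
      · exact (Complex.continuous_re.comp hc).abs
      · exact ((Complex.continuous_im.comp hc).abs).div_const 2
    have hφ0 : φ 0 < 1 := by
      simp only [hφ, hc0, hz0d, axre, axim]
      rw [max_lt_iff]
      have h7 : |y0| < 2 := abs_lt.mpr ⟨hy02, by linarith [hm2'.2]⟩
      constructor
      · norm_num
      · linarith
    have hφ1 : 1 < φ 1 := by
      by_contra hcon
      push Not at hcon
      apply hw0E
      simp only [hφ, hc1] at hcon
      have h8 := max_le_iff.mp hcon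
      exact ⟨h8.1, by linarith [h8.2]⟩
    have hTc : IsCompact (Icc (0 : ℝ) 1 ∩ {t | φ t = 1}) :=
      isCompact_Icc.inter_right (isClosed_eq hφc continuous_const)
    have hTn : (Icc (0 : ℝ) 1 ∩ {t | φ t = 1}).Nonempty := by
      obtain ⟨t, ht, ht1⟩ := intermediate_value_Icc (zero_le_one : (0 : ℝ) ≤ 1) hφc.continuousOn
        (show (1 : ℝ) ∈ Icc (φ 0) (φ 1) from ⟨hφ0.le, hφ1.le⟩)
      exact ⟨t, ht, ht1⟩
    obtain ⟨t1, ht1, ht1min⟩ := hTc.exists_isLeast hTn
    have hle : ∀ t ∈ Icc (0 : ℝ) t1, φ t ≤ 1 := by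
      intro t ht
      by_contra hcon
      push Not at hcon
      obtain ⟨t2, ht2, ht21⟩ := intermediate_value_Icc ht.1 hφc.continuousOn
        (show (1 : ℝ) ∈ Icc (φ 0) (φ t) from ⟨hφ0.le, hcon.le⟩)
      have h9 : t1 ≤ t2 := ht1min ⟨⟨ht2.1, le_trans ht2.2 (le_trans ht.2 ht1.1.2)⟩, ht21⟩
      have h10 : t2 = t := le_antisymm ht2.2 (le_trans ht.2 h9)
      rw [h10] at ht21
      linarith
    have hE : ∀ t ∈ Icc (0 : ℝ) t1, |(c t).re| ≤ 1 ∧ |(c t).im| ≤ 2 ∧ c t ∉ J := by
      intro t ht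
      have h11 := max_le_iff.mp (hle t ht)
      exact ⟨h11.1, by linarith [h11.2], hsub (hcΩ t)⟩
    have hjw : JoinedIn {z : ℂ | |z.re| ≤ 1 ∧ |z.im| ≤ 2 ∧ z ∉ J} z0 (c t1) := by
      rw [← hc0]
      refine Job_join hc ?_
      intro y hy
      rw [uIcc_of_le ht1.1.1] at hy
      exact hE y hy
    have hwE := hE t1 ⟨ht1.1.1, le_refl _⟩
    have hwb : |(c t1).re| = 1 ∨ |(c t1).im| = 2 := by
      have h12 : max |(c t1).re| (|(c t1).im| / 2) = 1 := ht1.2
      rcases max_choice |(c t1).re| (|(c t1).im| / 2) with h | h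
      · left; rw [← h]; exact h12
      · right
        rw [h] at h12
        linarith
    have subβ : {z : ℂ | |z.re| ≤ 1 ∧ |z.im| ≤ 2 ∧ z ∉ J} ⊆ {z : ℂ | |z.re| ≤ 1 ∧ |z.im| ≤ 2 ∧ z ∉ B} :=
      fun z hz => ⟨hz.1, hz.2.1, fun h => hz.2.2 (hBJ h)⟩
    have subα : {z : ℂ | |z.re| ≤ 1 ∧ |z.im| ≤ 2 ∧ z ∉ J} ⊆ {z : ℂ | |z.re| ≤ 1 ∧ |z.im| ≤ 2 ∧ z ∉ A} :=
      fun z hz => ⟨hz.1, hz.2.1, fun h => hz.2.2 (hAJ h)⟩
    have im0 : (c t1).im ≠ 0 := by
      intro h0
      rcases hwb with h | h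
      · -- the point is one of the two marked points
        have h13 : c t1 = 1 ∨ c t1 = -1 := by
          rcases abs_choice (c t1).re with h14 | h14
          · left
            apply Complex.ext
            · rw [← h14, h]; simp
            · rw [h0]; simp
          · right
            apply Complex.ext
            · have h15 : (c t1).re = -1 := by linarith
              rw [h15]; simp
            · rw [h0]; simp
        apply hwE.2.2
        rcases h13 with h14 | h14
        · rw [h14]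
          exact hAJ ⟨1, ⟨zero_le_one, le_refl _⟩, hα1⟩
        · rw [h14]
          exact hAJ ⟨0, ⟨le_refl _, zero_le_one⟩, hα0⟩
      · rw [h0] at h
        norm_num at h
    rcases lt_or_gt_of_ne im0 with him0 | him0
    · -- lower half
      have k5 : JoinedIn {z : ℂ | |z.re| ≤ 1 ∧ |z.im| ≤ 2 ∧ z ∉ J} (c t1) (((-2 : ℝ) : ℂ) * Complex.I) :=
        Job_bdry him hre1 hwE.1 hwE.2.1 hwb (s := -2) (by norm_num) (by nlinarith)
      have k1 : JoinedIn {z : ℂ | |z.re| ≤ 1 ∧ |z.im| ≤ 2 ∧ z ∉ B} (((2 : ℝ) : ℂ) * Complex.I)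
          ((l : ℂ) * Complex.I) := by
        refine Job_join hax ?_
        intro y hy
        rw [uIcc_of_ge hl2'.2.le] at hy
        refine ⟨by rw [axre]; norm_num, by rw [axim, abs_le]; exact ⟨by linarith [hy.1], hy.2⟩, ?_⟩
        rcases eq_or_lt_of_le hy.1 with h | h
        · rw [← h]; exact hlB
        · exact fun hb => hlmax y h (hBJ hb)
      have k2 : JoinedIn {z : ℂ | |z.re| ≤ 1 ∧ |z.im| ≤ 2 ∧ z ∉ B} ((l : ℂ) * Complex.I)
          ((m : ℂ) * Complex.I) := by
        obtain ⟨s, hs, hsl⟩ := haxs l hl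
        obtain ⟨s', hs', hsm⟩ := haxs m hm
        rw [← hsl, ← hsm]
        refine Job_join hα ?_
        intro y hy
        have hy' : y ∈ Ioo (0 : ℝ) 1 := by
          rw [mem_uIcc] at hy
          rcases hy with hy | hy
          · exact ⟨lt_of_lt_of_le hs.1 hy.1, lt_of_le_of_lt hy.2 hs'.2⟩
          · exact ⟨lt_of_lt_of_le hs'.1 hy.1, lt_of_le_of_lt hy.2 hs.2⟩
        have hyJ : α y ∈ J := hAJ ⟨y, ⟨hy'.1.le, hy'.2.le⟩, rfl⟩
        exact ⟨hre _ hyJ, (him _ hyJ).le, harc y hy'⟩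
      have k3 : JoinedIn {z : ℂ | |z.re| ≤ 1 ∧ |z.im| ≤ 2 ∧ z ∉ B} ((m : ℂ) * Complex.I)
          ((y0 : ℂ) * Complex.I) := by
        refine Job_join hax ?_
        intro y hy
        rw [uIcc_of_ge hy0m.le] at hy
        refine ⟨by rw [axre]; norm_num,
          by rw [axim, abs_le]; exact ⟨by linarith [hy.1], by linarith [hy.2, hm2'.2]⟩, hy0B y hy⟩
      have k := ((k1.trans k2).trans k3).trans ((hjw.mono subβ).trans (k5.mono subβ))
      have e1 : ((2 : ℝ) : ℂ) * Complex.I = 2 * Complex.I := by norm_num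
      have e2 : ((-2 : ℝ) : ℂ) * Complex.I = -(2 * Complex.I) := by push_cast; ring
      rw [e1, e2] at k
      refine arc_cross hβ.continuousOn hβ0 hβ1 ?_ (fun x hx => hx.1) ?_ k
      · intro s hs
        exact (him _ (hBJ ⟨s, hs, rfl⟩)).le
      · intro s hs hmem
        exact hmem.2.2 ⟨s, hs, rfl⟩
    · -- upper half
      have k5 : JoinedIn {z : ℂ | |z.re| ≤ 1 ∧ |z.im| ≤ 2 ∧ z ∉ J} (c t1) (((2 : ℝ) : ℂ) * Complex.I) :=
        Job_bdry him hre1 hwE.1 hwE.2.1 hwb (s := 2) (by norm_num) (by nlinarith)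
      have k1 : JoinedIn {z : ℂ | |z.re| ≤ 1 ∧ |z.im| ≤ 2 ∧ z ∉ A} ((y0 : ℂ) * Complex.I)
          (((-2 : ℝ) : ℂ) * Complex.I) := by
        refine Job_join hax ?_
        intro y hy
        rw [uIcc_of_ge hy02.le] at hy
        refine ⟨by rw [axre]; norm_num,
          by rw [axim, abs_le]; exact ⟨hy.1, by linarith [hy.2, hm2'.2]⟩, ?_⟩
        exact hmin' y (lt_of_le_of_lt hy.2 hy0m)
      have k := ((hjw.mono subα).trans (k5.mono subα)).symm.trans k1
      have e1 : ((2 : ℝ) : ℂ) * Complex.I = 2 * Complex.I := by norm_num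
      have e2 : ((-2 : ℝ) : ℂ) * Complex.I = -(2 * Complex.I) := by push_cast; ring
      rw [e1, e2] at k
      refine arc_cross hα.continuousOn hα0 hα1 ?_ (fun x hx => hx.1) ?_ k
      · intro s hs
        exact (him _ (hAJ ⟨s, hs, rfl⟩)).le
      · intro s hs hmem
        exact hmem.2.2 ⟨s, hs, rfl⟩
  · -- frontier
    intro x hx
    by_contra hxJ
    have hxc : x ∈ closure Ω := hx.1
    have hxn : x ∉ Ω := by
      have h16 := hx.2
      rwa [hopen.interior_eq] at h16
    have hCo : IsOpen (connectedComponentIn Jᶜ x) := hJc.isClosed.isOpen_compl.connectedComponentIn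
    have hxC : x ∈ connectedComponentIn Jᶜ x := mem_connectedComponentIn hxJ
    obtain ⟨y, hyC, hyΩ⟩ := mem_closure_iff.mp hxc _ hCo hxC
    have h17 := connectedComponentIn_eq hyC
    have h18 := connectedComponentIn_eq hyΩ
    apply hxn
    rw [hΩ, h18, ← h17]
    exact hxC
  · rw [disjoint_left]
    intro x hx hxJ
    exact hsub hx hxJ

/-- The normalised case: the complement of the curve has a bounded component (Maehara's argument). -/
theorem inside_norm {g : Circle → ℂ} (hg : Continuous g) (hinj : Function.Injective g) (h1 : (-1 : ℂ) ∈ range g)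
    (h2 : (1 : ℂ) ∈ range g) (hre : ∀ x ∈ range g, |x.re| ≤ 1) (him : ∀ x ∈ range g, |x.im| < 2)
    (hre1 : ∀ x ∈ range g, |x.re| = 1 → x = 1 ∨ x = -1) :
    ∃ Ω : Set ℂ, IsOpen Ω ∧ IsConnected Ω ∧ Bornology.IsBounded Ω ∧ frontier Ω ⊆ range g ∧ Disjoint Ω (range g) := by
  obtain ⟨α, β, hα, hβ, hα0, hα1, hβ0, hβ1, hαi, hβi, hun, hint⟩ :=
    two_arcs hg hinj h1 h2 (by norm_num)
  have hax : Continuous fun y : ℝ => (y : ℂ) * Complex.I := by fun_prop
  have hJc : IsCompact (range g) := isCompact_range hg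
  have hKc : IsCompact {y : ℝ | (y : ℂ) * Complex.I ∈ range g} := by
    refine (isCompact_Icc (a := (-2 : ℝ)) (b := 2)).of_isClosed_subset (hJc.isClosed.preimage hax) ?_
    intro y hy
    have h3 := him _ hy
    have h4 : ((y : ℂ) * Complex.I).im = y := by simp
    rw [h4] at h3
    exact ⟨(abs_lt.mp h3).1.le, (abs_lt.mp h3).2.le⟩
  have hKn : {y : ℝ | (y : ℂ) * Complex.I ∈ range g}.Nonempty := by
    have hrc : Continuous fun s => (α s).re := Complex.continuous_re.comp hα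
    obtain ⟨s, hs, hs0⟩ := intermediate_value_Icc (zero_le_one : (0 : ℝ) ≤ 1) hrc.continuousOn
      (show (0 : ℝ) ∈ Icc (α 0).re (α 1).re from by rw [hα0, hα1]; constructor <;> norm_num)
    refine ⟨(α s).im, ?_⟩
    have h5 : ((α s).im : ℂ) * Complex.I = α s := by
      apply Complex.ext
      · have h6 : (α s).re = 0 := hs0
        rw [h6]; simp
      · simp
    show ((α s).im : ℂ) * Complex.I ∈ range g
    rw [h5, ← hun]
    exact Or.inl ⟨s, hs, rfl⟩
  obtain ⟨l, hl, hlmax⟩ := hKc.exists_isGreatest hKn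
  have hlmax' : ∀ y : ℝ, l < y → (y : ℂ) * Complex.I ∉ range g := by
    intro y hy hyJ
    exact absurd (hlmax hyJ) (not_le.mpr hy)
  have hl' : (l : ℂ) * Complex.I ∈ α '' Icc 0 1 ∪ β '' Icc 0 1 := by
    rw [hun]; exact hl
  rcases hl' with h | h
  · exact Job_main hun hα hβ hα0 hα1 hβ0 hβ1 hαi hint hre him hre1 h hlmax'
  · exact Job_main (by rw [union_comm]; exact hun) hβ hα hβ0 hβ1 hα0 hα1 hβi (by rw [inter_comm]; exact hint)
      hre him hre1 h hlmax'

end DrumL
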