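import Pool.Agent.Lib.MP_d92c84_anF.Job

/-!
# The complement of a simple closed curve has a bounded component
-/

set_option autoImplicit false

namespace DrumL

open Filter Topology Set

private theorem Joc_bounds {x : ℂ} (h1 : ‖x - 1‖ ≤ 2) (h2 : ‖x + 1‖ ≤ 2) :
    |x.re| ≤ 1 ∧ |x.im| < 2 ∧ (|x.re| = 1 → x = 1 ∨ x = -1) := by
  have e1 : (x.re - 1) ^ 2 + x.im ^ 2 ≤ 4 := by
    have h3 : ‖x - 1‖ ^ 2 = (x.re - 1) ^ 2 + x.im ^ 2 := by
      rw [Complex.sq_norm, Complex.normSq_apply]
      simp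
      ring
    nlinarith [norm_nonneg (x - 1)]
  have e2 : (x.re + 1) ^ 2 + x.im ^ 2 ≤ 4 := by
    have h3 : ‖x + 1‖ ^ 2 = (x.re + 1) ^ 2 + x.im ^ 2 := by
      rw [Complex.sq_norm, Complex.normSq_apply]
      simp
      ring
    nlinarith [norm_nonneg (x + 1)]
  have hre : |x.re| ≤ 1 := by
    rw [abs_le]
    constructor
    · nlinarith [sq_nonneg x.im]
    · nlinarith [sq_nonneg x.im]
  refine ⟨hre, ?_, fun h => ?_⟩
  · rw [abs_lt]
    constructor
    · nlinarith [sq_nonneg x.re]
    · nlinarith [sq_nonneg x.re]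
  · rcases (abs_eq (zero_le_one' ℝ)).1 h with h3 | h3
    · left
      rw [h3] at e2
      have h4 : x.im = 0 := by nlinarith [sq_nonneg x.im]
      exact Complex.ext (by simpa using h3) (by simpa using h4)
    · right
      rw [h3] at e1
      have h4 : x.im = 0 := by nlinarith [sq_nonneg x.im]
      exact Complex.ext (by simpa using h3) (by simpa using h4)

/-- The complement of a simple closed curve in the plane has a bounded component, with boundary in the curve. -/
theorem exists_inside {g : Circle → ℂ} (hg : Continuous g) (hinj : Function.Injective g) :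
    ∃ Ω : Set ℂ, IsOpen Ω ∧ IsConnected Ω ∧ Bornology.IsBounded Ω ∧ frontier Ω ⊆ range g ∧ Disjoint Ω (range g) := by
  have hJ : IsCompact (range g) := isCompact_range hg
  have hne : (range g ×ˢ range g).Nonempty := ⟨(g 1, g 1), mem_range_self _, mem_range_self _⟩
  obtain ⟨⟨A, B⟩, ⟨hA, hB⟩, hmax⟩ := (hJ.prod hJ).exists_isMaxOn hne
    (f := fun q : ℂ × ℂ => dist q.1 q.2) (by fun_prop)
  have hmax' : ∀ y ∈ range g, ∀ w ∈ range g, dist y w ≤ dist A B := fun y hy w hw => hmax (a := (y, w)) ⟨hy, hw⟩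
  have hAB : A ≠ B := by
    intro h
    have h1 := hmax' (g 1) (mem_range_self _) (g (-1)) (mem_range_self _)
    rw [h, dist_self] at h1
    have h2 : g 1 = g (-1) := dist_le_zero.1 h1
    have h3 := hinj h2
    have h4 : ((1 : Circle) : ℂ) = ((-1 : Circle) : ℂ) := by rw [← h3]
    rw [Circle.coe_neg, Circle.coe_one] at h4
    norm_num at h4
  have hBA : B - A ≠ 0 := sub_ne_zero.2 hAB.symm
  have hd : dist A B = ‖B - A‖ := by rw [dist_comm, dist_eq_norm]
  have hdpos : 0 < ‖B - A‖ := norm_pos_iff.2 hBA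
  -- the affine homeomorphism
  let a : ℂ := 2 / (B - A)
  have ha : a ≠ 0 := div_ne_zero two_ne_zero hBA
  let T : ℂ ≃ₜ ℂ := (Homeomorph.mulLeft₀ a ha).trans (Homeomorph.addRight (-((A + B) / (B - A))))
  have hT : ∀ y, T y = a * y + -((A + B) / (B - A)) := fun y => rfl
  have hT1 : ∀ y, T y - 1 = 2 * (y - B) / (B - A) := by
    intro y
    rw [hT]
    simp only [a]
    field_simp
    ring
  have hT2 : ∀ y, T y + 1 = 2 * (y - A) / (B - A) := by
    intro y
    rw [hT]
    simp only [a]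
    field_simp
    ring
  have hn : ∀ y w, y ∈ range g → w ∈ range g → ‖2 * (y - w) / (B - A)‖ ≤ 2 := by
    intro y w hy hw
    have h1 := hmax' y hy w hw
    rw [hd, dist_eq_norm] at h1
    rw [norm_div, norm_mul, div_le_iff₀ hdpos]
    have h2 : ‖(2 : ℂ)‖ = 2 := by simp
    rw [h2]
    linarith
  have hb : ∀ x ∈ range (T ∘ g), |x.re| ≤ 1 ∧ |x.im| < 2 ∧ (|x.re| = 1 → x = 1 ∨ x = -1) := by
    rintro x ⟨s, rfl⟩
    refine Joc_bounds ?_ ?_
    · change ‖T (g s) - 1‖ ≤ 2
      rw [hT1]
      exact hn _ _ (mem_range_self _) hB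
    · change ‖T (g s) + 1‖ ≤ 2
      rw [hT2]
      exact hn _ _ (mem_range_self _) hA
  have hTA : T A = -1 := by
    have h1 := hT2 A
    rw [sub_self, mul_zero, zero_div] at h1
    linear_combination h1
  have hTB : T B = 1 := by
    have h1 := hT1 B
    rw [sub_self, mul_zero, zero_div] at h1
    linear_combination h1
  have hmA : (-1 : ℂ) ∈ range (T ∘ g) := by
    obtain ⟨s, hs⟩ := hA
    exact ⟨s, by rw [Function.comp_apply, hs, hTA]⟩
  have hmB : (1 : ℂ) ∈ range (T ∘ g) := by
    obtain ⟨s, hs⟩ := hB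
    exact ⟨s, by rw [Function.comp_apply, hs, hTB]⟩
  obtain ⟨Ω, hΩ, hΩc, hΩb, hΩf, hΩd⟩ := inside_norm (T.continuous.comp hg) (T.injective.comp hinj) hmA hmB
    (fun x hx => (hb x hx).1) (fun x hx => (hb x hx).2.1) (fun x hx => (hb x hx).2.2)
  have hr : range (T ∘ g) = T '' range g := range_comp T g
  have hpre : T ⁻¹' (T '' range g) = range g := preimage_image_eq _ T.injective
  refine ⟨T ⁻¹' Ω, hΩ.preimage T.continuous, ?_, ?_, ?_, ?_⟩
  · rw [← T.image_symm]
    exact hΩc.image _ T.symm.continuous.continuousOn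
  · have h1 : IsCompact (closure Ω) := hΩb.isCompact_closure
    have h2 : IsCompact (T.symm '' closure Ω) := h1.image T.symm.continuous
    refine h2.isBounded.subset ?_
    rw [← T.image_symm]
    exact image_mono subset_closure
  · rw [← T.preimage_frontier, ← hpre, ← hr]
    exact preimage_mono hΩf
  · rw [← hpre, ← hr]
    exact hΩd.preimage T

end DrumL
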