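import Pool.Agent.Lib.MP_d92c84_anF.Pod

/-!
# Decay of the Fourier modes
-/

set_option autoImplicit false

namespace DrumL

open MeasureTheory Set Filter Topology
open scoped ContDiff Real

private theorem Lea_norm (θ : ℝ) : ‖cis θ‖ = 1 := Complex.norm_exp_ofReal_mul_I θ

private theorem Lea_exp (n : ℕ) (θ : ℝ) : ‖Complex.exp (-(n * θ * Complex.I))‖ = 1 := by
  rw [Complex.norm_exp]
  simp

private theorem Lea_cont : Continuous cis := by
  unfold cis
  fun_prop

private theorem Lea_mem {p : ℂ} {s t : ℝ} (hs : |s| ≤ t) (θ : ℝ) : p + s * cis θ ∈ Metric.closedBall p t := by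
  rw [Metric.mem_closedBall, dist_eq_norm, add_sub_cancel_left, norm_mul, Lea_norm, mul_one, Complex.norm_real,
    Real.norm_eq_abs]
  exact hs

/-- The modes of a `C²` function on a circle decay at least quadratically. -/
theorem md_decay {p : ℂ} {ρ : ℝ} {f : ℂ → ℝ} (hf : ContDiffOn ℝ 2 f (Metric.ball p ρ)) {r : ℝ} (hr : r ∈ Ioo 0 ρ) :
    ∃ C : ℝ, ∀ n : ℕ, ‖md n p f r‖ * (n : ℝ) ^ 2 ≤ C := by
  obtain ⟨t, hrt, htρ⟩ := exists_between hr.2
  have hr0 : 0 < r := hr.1
  have hK : IsCompact (Metric.closedBall p t) := isCompact_closedBall p t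
  have hKs : Metric.closedBall p t ⊆ Metric.ball p ρ := Metric.closedBall_subset_ball htρ
  have hfd : ContDiffOn ℝ 1 (fderiv ℝ f) (Metric.ball p ρ) := hf.fderiv_of_isOpen Metric.isOpen_ball (by norm_num)
  have hfdd : ContinuousOn (fderiv ℝ (fderiv ℝ f)) (Metric.ball p ρ) :=
    hfd.continuousOn_fderiv_of_isOpen Metric.isOpen_ball (by norm_num)
  obtain ⟨M, hM⟩ := hK.exists_bound_of_continuousOn (f := fderiv ℝ (fderiv ℝ f)) (hfdd.mono hKs)
  obtain ⟨N, hN⟩ := hK.exists_bound_of_continuousOn (f := fderiv ℝ f) (hfd.continuousOn.mono hKs)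
  have hlapc : ContinuousOn (lap f) (Metric.ball p ρ) := by
    have h1 : ∀ v : ℂ, ContDiffOn ℝ 1 (pd v f) (Metric.ball p ρ) := fun v =>
      contDiffOn_pd Metric.isOpen_ball hf (by norm_num) v
    have h2 : ∀ v : ℂ, ContinuousOn (pd v (pd v f)) (Metric.ball p ρ) := fun v =>
      (contDiffOn_pd (m := 0) Metric.isOpen_ball (h1 v) (by norm_num) v).continuousOn
    exact (h2 1).add (h2 Complex.I)
  obtain ⟨L, hL⟩ := hK.exists_bound_of_continuousOn (hlapc.mono hKs)
  have hp : p ∈ Metric.closedBall p t := Metric.mem_closedBall_self (hr0.trans hrt).le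
  have hM0 : 0 ≤ M := (norm_nonneg _).trans (hM p hp)
  have h2pi : |2 * π - 0| = 2 * π := by rw [sub_zero, abs_of_pos Real.two_pi_pos]
  -- the radial derivative is Lipschitz in the radius
  have hlip : ∀ s : ℝ, |s| ≤ t → ∀ θ : ℝ,
      |pd (cis θ) f (p + s * cis θ) - pd (cis θ) f (p + r * cis θ)| ≤ M * |s - r| := by
    intro s hs θ
    have hrt' : |r| ≤ t := by rw [abs_of_pos hr0]; exact hrt.le
    have h1 := (convex_closedBall p t).norm_image_sub_le_of_norm_fderiv_le (𝕜 := ℝ) (f := fderiv ℝ f) (C := M)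
      (fun x hx => (hfd.differentiableOn (by norm_num)).differentiableAt (Metric.isOpen_ball.mem_nhds (hKs hx)))
      (fun x hx => hM x hx) (Lea_mem hrt' θ) (Lea_mem hs θ)
    unfold pd
    have h2 : fderiv ℝ f (p + s * cis θ) (cis θ) - fderiv ℝ f (p + r * cis θ) (cis θ) =
        (fderiv ℝ f (p + s * cis θ) - fderiv ℝ f (p + r * cis θ)) (cis θ) := by simp
    rw [h2, ← Real.norm_eq_abs]
    refine ((fderiv ℝ f (p + s * cis θ) - fderiv ℝ f (p + r * cis θ)).le_opNorm (cis θ)).trans ?_
    rw [Lea_norm, mul_one]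
    refine h1.trans (le_of_eq ?_)
    have h3 : p + (s : ℂ) * cis θ - (p + (r : ℂ) * cis θ) = ((s - r : ℝ) : ℂ) * cis θ := by push_cast; ring
    rw [h3, norm_mul, Lea_norm, mul_one, Complex.norm_real, Real.norm_eq_abs]
  have hcontpd : ∀ s : ℝ, |s| ≤ t → Continuous fun θ : ℝ => pd (cis θ) f (p + s * cis θ) := by
    intro s hs
    unfold pd
    have h1 : Continuous fun θ : ℝ => fderiv ℝ f (p + s * cis θ) := by
      have h2 : Continuous fun θ : ℝ => p + (s : ℂ) * cis θ := by
        have := Lea_cont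
        fun_prop
      exact hfd.continuousOn.comp_continuous h2 fun θ => hKs (Lea_mem hs θ)
    exact h1.clm_apply Lea_cont
  refine ⟨r ^ 2 * (M * (2 * π) + L * (2 * π) + N * (2 * π) / r), fun n => ?_⟩
  have hexpc : Continuous fun θ : ℝ => Complex.exp (-(n * θ * Complex.I)) := by fun_prop
  have hF2 : ‖md n p (lap f) r - md' n p f r / r + (n : ℂ) ^ 2 * md n p f r / r ^ 2‖ ≤ M * (2 * π) := by
    refine (md_ode hf n hr).le_of_lip' (by positivity) ?_
    have hev : ∀ᶠ s in 𝓝 r, s ∈ Ioo (-t) t := isOpen_Ioo.mem_nhds ⟨by linarith, hrt⟩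
    filter_upwards [hev] with s hs
    have hs' : |s| ≤ t := (abs_lt.2 hs).le
    have hrt' : |r| ≤ t := by rw [abs_of_pos hr0]; exact hrt.le
    have h1 : md' n p f s - md' n p f r = ∫ θ in (0 : ℝ)..(2 * π),
        ((pd (cis θ) f (p + s * cis θ) - pd (cis θ) f (p + r * cis θ) : ℝ) : ℂ) *
          Complex.exp (-(n * θ * Complex.I)) := by
      unfold md'
      rw [← intervalIntegral.integral_sub]
      · refine intervalIntegral.integral_congr fun θ _ => ?_
        push_cast
        ring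
      · exact ((Complex.continuous_ofReal.comp (hcontpd s hs')).mul hexpc).intervalIntegrable _ _
      · exact ((Complex.continuous_ofReal.comp (hcontpd r hrt')).mul hexpc).intervalIntegrable _ _
    rw [h1]
    refine (intervalIntegral.norm_integral_le_of_norm_le_const (C := M * |s - r|) fun θ _ => ?_).trans
      (le_of_eq ?_)
    · rw [norm_mul, Lea_exp, mul_one, Complex.norm_real, Real.norm_eq_abs]
      exact hlip s hs' θ
    · rw [h2pi, Real.norm_eq_abs]
      ring
  have hLn : ‖md n p (lap f) r‖ ≤ L * (2 * π) := by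
    unfold md
    refine (intervalIntegral.norm_integral_le_of_norm_le_const (C := L) fun θ _ => ?_).trans (le_of_eq ?_)
    · rw [norm_mul, Lea_exp, mul_one, Complex.norm_real]
      exact hL _ (Lea_mem (by rw [abs_of_pos hr0]; exact hrt.le) θ)
    · rw [h2pi]
  have hNn : ‖md' n p f r‖ ≤ N * (2 * π) := by
    unfold md'
    refine (intervalIntegral.norm_integral_le_of_norm_le_const (C := N) fun θ _ => ?_).trans (le_of_eq ?_)
    · rw [norm_mul, Lea_exp, mul_one, Complex.norm_real]
      unfold pd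
      refine (ContinuousLinearMap.le_opNorm _ _).trans ?_
      rw [Lea_norm, mul_one]
      exact hN _ (Lea_mem (by rw [abs_of_pos hr0]; exact hrt.le) θ)
    · rw [h2pi]
  have hkey : (n : ℂ) ^ 2 * md n p f r = (r : ℂ) ^ 2 *
      ((md n p (lap f) r - md' n p f r / r + (n : ℂ) ^ 2 * md n p f r / r ^ 2) - md n p (lap f) r +
        md' n p f r / r) := by
    have hrc : (r : ℂ) ≠ 0 := by exact_mod_cast hr0.ne'
    field_simp
    ring
  have h3 : ‖md n p f r‖ * (n : ℝ) ^ 2 = ‖(n : ℂ) ^ 2 * md n p f r‖ := by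
    rw [norm_mul, norm_pow, Complex.norm_natCast]
    ring
  rw [h3, hkey, norm_mul, norm_pow, Complex.norm_real, Real.norm_eq_abs, abs_of_pos hr0]
  refine mul_le_mul_of_nonneg_left ?_ (by positivity)
  refine (norm_add_le _ _).trans (add_le_add ((norm_sub_le _ _).trans (add_le_add hF2 hLn)) ?_)
  rw [norm_div, Complex.norm_real, Real.norm_eq_abs, abs_of_pos hr0]
  exact div_le_div_of_nonneg_right hNn hr0.le

end DrumL
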