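import Pool.Agent.Lib.MP_d92c84_anF.Lea

/-!
# The Fourier series on a circle
-/

set_option autoImplicit false

namespace DrumL

open MeasureTheory Set Filter Topology
open scoped ContDiff Real

/-- The function on the circle. -/
theorem Leb_cont {p : ℂ} {ρ : ℝ} {f : ℂ → ℝ} (hf : ContDiffOn ℝ 2 f (Metric.ball p ρ)) {r : ℝ} (hr : r ∈ Ioo 0 ρ) :
    Continuous fun x : AddCircle (2 * π) => ((f (p + r * (AddCircle.toCircle x : ℂ)) : ℝ) : ℂ) := by
  refine Complex.continuous_ofReal.comp ?_
  refine hf.continuousOn.comp_continuous ?_ ?_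
  · exact continuous_const.add (continuous_const.mul
      (continuous_subtype_val.comp AddCircle.continuous_toCircle))
  · intro x
    rw [Metric.mem_ball, dist_eq_norm, add_sub_cancel_left, norm_mul, Circle.norm_coe, mul_one,
      Complex.norm_real, Real.norm_eq_abs, abs_of_pos hr.1]
    exact hr.2

theorem Leb_circle (θ : ℝ) : ((AddCircle.toCircle (θ : AddCircle (2 * π)) : Circle) : ℂ) = cis θ := by
  rw [AddCircle.toCircle_apply_mk, div_self Real.two_pi_pos.ne', one_mul, Circle.coe_exp]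
  rfl

theorem Leb_fourier (n : ℤ) (θ : ℝ) :
    (fourier n (θ : AddCircle (2 * π)) : ℂ) = Complex.exp (n * θ * Complex.I) := by
  rw [fourier_coe_apply]
  congr 1
  have h : (π : ℂ) ≠ 0 := Complex.ofReal_ne_zero.2 Real.pi_ne_zero
  push_cast
  field_simp

/-- The Fourier series on a circle. -/
theorem fourier_sum {p : ℂ} {ρ : ℝ} {f : ℂ → ℝ} (hf : ContDiffOn ℝ 2 f (Metric.ball p ρ)) {r : ℝ} (hr : r ∈ Ioo 0 ρ)
    (θ : ℝ) : HasSum (fun n : ℕ => (if n = 0 then (1 / (2 * π) : ℝ) else 1 / π) *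
      (md n p f r * Complex.exp (n * θ * Complex.I)).re) (f (p + r * cis θ)) := by
  have : Fact (0 < 2 * π) := ⟨Real.two_pi_pos⟩
  set G : C(AddCircle (2 * π), ℂ) := ⟨_, Leb_cont hf hr⟩ with hG
  have hGθ : ∀ t : ℝ, G (t : AddCircle (2 * π)) = ((f (p + r * cis t) : ℝ) : ℂ) := by
    intro t
    show ((f (p + r * (AddCircle.toCircle (t : AddCircle (2 * π)) : ℂ)) : ℝ) : ℂ) = _
    rw [Leb_circle]
  have hc : ∀ n : ℕ, fourierCoeff G (n : ℤ) = ((1 / (2 * π) : ℝ) : ℂ) * md n p f r := by
    intro n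
    rw [fourierCoeff_eq_intervalIntegral G (n : ℤ) 0, zero_add, Complex.real_smul, md]
    congr 1
    refine intervalIntegral.integral_congr fun t _ => ?_
    show fourier (-(n : ℤ)) (t : AddCircle (2 * π)) • G (t : AddCircle (2 * π)) = _
    rw [Leb_fourier, hGθ, smul_eq_mul, mul_comm]
    congr 2
    push_cast
    ring
  have hc' : ∀ n : ℕ, fourierCoeff G (-(n : ℤ)) =
      ((1 / (2 * π) : ℝ) : ℂ) * (starRingEnd ℂ) (md n p f r) := by
    intro n
    rw [fourierCoeff_eq_intervalIntegral G (-(n : ℤ)) 0, zero_add, Complex.real_smul, md]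
    congr 1
    have h1 : (starRingEnd ℂ) (∫ t in (0 : ℝ)..(2 * π), ((f (p + r * cis t) : ℝ) : ℂ) *
        Complex.exp (-(n * t * Complex.I))) = ∫ t in (0 : ℝ)..(2 * π), (starRingEnd ℂ)
          (((f (p + r * cis t) : ℝ) : ℂ) * Complex.exp (-(n * t * Complex.I))) := by
      rw [intervalIntegral.integral_of_le Real.two_pi_pos.le,
        intervalIntegral.integral_of_le Real.two_pi_pos.le, integral_conj]
    rw [h1]
    refine intervalIntegral.integral_congr fun t _ => ?_
    show fourier (-(-(n : ℤ))) (t : AddCircle (2 * π)) • G (t : AddCircle (2 * π)) = _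
    rw [Leb_fourier, hGθ, smul_eq_mul, mul_comm, map_mul, Complex.conj_ofReal, ← Complex.exp_conj]
    congr 2
    simp only [map_neg, map_mul, Complex.conj_ofReal, Complex.conj_I, map_natCast]
    push_cast
    ring
  obtain ⟨C, hC⟩ := md_decay hf hr
  have hbd : ∀ n : ℕ, 1 ≤ n → ‖((1 / (2 * π) : ℝ) : ℂ) * md n p f r‖ ≤
      (1 / (2 * π) * C) * (1 / (n : ℝ) ^ 2) := by
    intro n hn
    have h0 : (0 : ℝ) < (n : ℝ) ^ 2 := by
      have : (0 : ℝ) < n := by exact_mod_cast hn
      positivity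
    have h1 : ‖md n p f r‖ ≤ C * (1 / (n : ℝ) ^ 2) := by
      rw [mul_one_div, le_div_iff₀ h0]
      exact hC n
    have h2 : (0 : ℝ) ≤ 1 / (2 * π) := by positivity
    rw [norm_mul, Complex.norm_real, Real.norm_eq_abs, abs_of_nonneg h2, mul_assoc]
    exact mul_le_mul_of_nonneg_left h1 h2
  have hsum0 : Summable fun n : ℕ => (1 / (2 * π) * C) * (1 / (n : ℝ) ^ 2) :=
    (Real.summable_one_div_nat_pow.2 (by norm_num)).mul_left _
  have hs1 : Summable fun n : ℕ => fourierCoeff G (n : ℤ) := by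
    refine Summable.of_norm_bounded_eventually_nat hsum0 ?_
    filter_upwards [eventually_ge_atTop 1] with n hn
    rw [hc]
    exact hbd n hn
  have hs2 : Summable fun n : ℕ => fourierCoeff G (-(n : ℤ)) := by
    refine Summable.of_norm_bounded_eventually_nat hsum0 ?_
    filter_upwards [eventually_ge_atTop 1] with n hn
    rw [hc', norm_mul, RCLike.norm_conj, ← norm_mul]
    exact hbd n hn
  have hsum : Summable (fourierCoeff G) := Summable.of_nat_of_neg hs1 hs2
  have h1 := (has_pointwise_sum_fourier_series_of_summable hsum (θ : AddCircle (2 * π))).nat_add_neg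
  have h2 := h1.sub (hasSum_ite_eq (0 : ℕ) (fourierCoeff G 0 • fourier 0 (θ : AddCircle (2 * π))))
  rw [add_sub_cancel_right, hGθ] at h2
  have h3 := Complex.hasSum_re h2
  rw [Complex.ofReal_re] at h3
  have h4 : (fun n : ℕ => (if n = 0 then (1 / (2 * π) : ℝ) else 1 / π) *
      (md n p f r * Complex.exp (n * θ * Complex.I)).re) = fun n : ℕ =>
      (fourierCoeff G (n : ℤ) • fourier (n : ℤ) (θ : AddCircle (2 * π)) +
        fourierCoeff G (-(n : ℤ)) • fourier (-(n : ℤ)) (θ : AddCircle (2 * π)) -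
        if n = 0 then fourierCoeff G 0 • fourier 0 (θ : AddCircle (2 * π)) else 0).re := by
    funext n
    have h5 : fourierCoeff G (n : ℤ) • fourier (n : ℤ) (θ : AddCircle (2 * π)) =
        ((1 / (2 * π) : ℝ) : ℂ) * (md n p f r * Complex.exp (n * θ * Complex.I)) := by
      rw [hc, Leb_fourier, smul_eq_mul, mul_assoc]
      push_cast
      rfl
    have h6 : fourierCoeff G (-(n : ℤ)) • fourier (-(n : ℤ)) (θ : AddCircle (2 * π)) =
        ((1 / (2 * π) : ℝ) : ℂ) * (starRingEnd ℂ) (md n p f r * Complex.exp (n * θ * Complex.I)) := by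
      rw [hc', Leb_fourier, smul_eq_mul, mul_assoc, map_mul, ← Complex.exp_conj]
      congr 3
      simp only [map_mul, Complex.conj_ofReal, Complex.conj_I, map_natCast]
      push_cast
      ring
    rw [h5, h6, Complex.sub_re, Complex.add_re, Complex.re_ofReal_mul, Complex.re_ofReal_mul,
      Complex.conj_re]
    by_cases hn : n = 0
    · subst hn
      have h7 : fourierCoeff G 0 • fourier 0 (θ : AddCircle (2 * π)) =
          ((1 / (2 * π) : ℝ) : ℂ) * (md 0 p f r * Complex.exp ((0 : ℕ) * θ * Complex.I)) := h5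
      rw [if_pos rfl, if_pos rfl, h7, Complex.re_ofReal_mul]
      ring
    · rw [if_neg hn, if_neg hn, Complex.zero_re, sub_zero]
      have hpi : π ≠ 0 := Real.pi_ne_zero
      field_simp
      ring
  rw [h4]
  exact h3

end DrumL
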