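import Pool.Agent.Lib.MP_d92c84_anF.Leb
import Pool.Agent.Lib.MP_d92c84_anF.Fbb
import Pool.Agent.Lib.MP_d92c84_anF.Fun

/-!
# The leading term of a solution of the Helmholtz equation at a point
-/

set_option autoImplicit false

namespace DrumL

open MeasureTheory Set Filter Topology DrumF
open scoped ContDiff Real

/-- The exponential factor has norm one. -/
theorem Lec_norm_exp (n : ℕ) (θ : ℝ) : ‖Complex.exp (n * θ * Complex.I)‖ = 1 := by
  have h : ((n : ℂ) * (θ : ℂ) * Complex.I) = (((n : ℝ) * θ : ℝ) : ℂ) * Complex.I := by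
    push_cast
    ring
  rw [h]
  exact Complex.norm_exp_ofReal_mul_I _

/-- The mode of index zero is real. -/
theorem Lec_md_zero_im (p : ℂ) (f : ℂ → ℝ) (r : ℝ) : (md 0 p f r).im = 0 := by
  unfold md
  have h : (fun θ : ℝ => (f (p + r * cis θ) : ℂ) * Complex.exp (-(((0 : ℕ) : ℂ) * θ * Complex.I))) =
      fun θ : ℝ => ((f (p + r * cis θ) : ℝ) : ℂ) := by
    funext θ
    rw [Nat.cast_zero, zero_mul, zero_mul, neg_zero, Complex.exp_zero, mul_one]
  rw [h, intervalIntegral.integral_ofReal, Complex.ofReal_im]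

/-- The constant in front of a mode lies between zero and one. -/
theorem Lec_coef (n : ℕ) : 0 < (if n = 0 then (1 / (2 * π) : ℝ) else 1 / π) ∧
    (if n = 0 then (1 / (2 * π) : ℝ) else 1 / π) ≤ 1 := by
  have hpi := Real.pi_gt_three
  split_ifs
  · refine ⟨by positivity, ?_⟩
    rw [div_le_one (by positivity)]
    linarith
  · refine ⟨by positivity, ?_⟩
    rw [div_le_one (by positivity)]
    linarith

/-- A solution of the Helmholtz equation near a point vanishes identically or has a leading term, homogeneous and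
harmonic. -/
theorem leading {l : ℝ} (hl : 0 < l) {p : ℂ} {ρ : ℝ} (hρ : 0 < ρ) {f : ℂ → ℝ} (hf : Hz l (Metric.ball p ρ) f) :
    (∀ x ∈ Metric.ball p ρ, f x = 0) ∨ ∃ (m : ℕ) (A : ℂ) (C t₀ : ℝ), A ≠ 0 ∧ (m = 0 → A.im = 0) ∧ 0 < t₀ ∧ t₀ < ρ ∧
      ∀ t ∈ Ioc 0 t₀, ∀ θ : ℝ, |f (p + t * cis θ) - t ^ m * (A * Complex.exp (m * θ * Complex.I)).re| ≤ C * t ^ (m + 1) := by
  have hs : 0 < √l := Real.sqrt_pos.2 hl
  choose a ha using fun n => mode_bessel hl hρ hf n
  by_cases hall : ∀ n, a n = 0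
  · left
    intro x hx
    refine zero_of_modes hf.smooth.continuousOn (fun n r hr => ?_) hx
    rw [ha n r hr, hall n, zero_mul]
  right
  push Not at hall
  classical
  have hm := Nat.find_spec hall
  have hmin : ∀ k < Nat.find hall, a k = 0 := by
    intro k hk
    have h1 := Nat.find_min hall hk
    by_contra h2
    exact h1 h2
  generalize Nat.find hall = m at hm hmin
  have h2 : ContDiffOn ℝ 2 f (Metric.ball p ρ) := by exact_mod_cast contDiffOn_infty.1 hf.smooth 2
  -- the radius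
  obtain ⟨r₁, hr₁, hr₁ρ, hr₁s⟩ : ∃ r₁ : ℝ, 0 < r₁ ∧ r₁ < ρ ∧ √l * r₁ ≤ 1 := by
    refine ⟨min (ρ / 2) (1 / √l), lt_min (by positivity) (by positivity), ?_, ?_⟩
    · exact (min_le_left _ _).trans_lt (by linarith)
    · calc √l * min (ρ / 2) (1 / √l) ≤ √l * (1 / √l) := by
            exact mul_le_mul_of_nonneg_left (min_le_right _ _) hs.le
        _ = 1 := by
            field_simp
  obtain ⟨M, hM0, hM⟩ : ∃ M : ℝ, 0 ≤ M ∧ ∀ n : ℕ, n ≠ 0 → ‖md n p f r₁‖ ≤ M := by
    obtain ⟨C, hC⟩ := md_decay h2 (r := r₁) ⟨hr₁, hr₁ρ⟩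
    have hC0 : 0 ≤ C := by
      have h3 := hC 0
      refine le_trans ?_ h3
      positivity
    refine ⟨C, hC0, fun n hn => ?_⟩
    have h3 := hC n
    have h4 : (1 : ℝ) ≤ (n : ℝ) ^ 2 := by
      have h5 : (1 : ℝ) ≤ n := by exact_mod_cast Nat.one_le_iff_ne_zero.2 hn
      nlinarith
    have h5 := norm_nonneg (md n p f r₁)
    nlinarith
  obtain ⟨c, hc⟩ : ∃ c : ℕ → ℝ, c = fun n => (if n = 0 then (1 / (2 * π) : ℝ) else 1 / π) := ⟨_, rfl⟩
  have hc0 : ∀ n, 0 < c n := fun n => by rw [hc]; exact (Lec_coef n).1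
  have hc1 : ∀ n, c n ≤ 1 := fun n => by rw [hc]; exact (Lec_coef n).2
  have hfac : (0 : ℝ) < m.factorial := by exact_mod_cast m.factorial_pos
  refine ⟨m, ((c m * ((√l / 2) ^ m / m.factorial) : ℝ) : ℂ) * a m,
    2 * (4 / 3 * M) / r₁ ^ (m + 1) + (√l / 2) ^ (m + 2) / m.factorial * ‖a m‖ * (r₁ / 2), r₁ / 2, ?_, ?_, by positivity,
    by linarith, ?_⟩
  · refine mul_ne_zero ?_ hm
    have := hc0 m
    have h3 : (0 : ℝ) < c m * ((√l / 2) ^ m / m.factorial) := by positivity
    exact_mod_cast h3.ne'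
  · intro h0
    subst h0
    have h3 := Lec_md_zero_im p f r₁
    rw [ha 0 r₁ ⟨hr₁, hr₁ρ⟩, Complex.im_mul_ofReal] at h3
    have h4 := J_pos 0 (x := √l * r₁) (by positivity) hr₁s
    have h5 : (a 0).im = 0 := by
      rcases mul_eq_zero.1 h3 with h | h
      · exact h
      · exact absurd h h4.ne'
    rw [Complex.im_ofReal_mul, h5, mul_zero]
  · intro t ht θ
    have ht0 : 0 < t := ht.1
    have htr : t ≤ r₁ / 2 := ht.2
    have htρ : t ∈ Ioo 0 ρ := ⟨ht0, by linarith⟩
    have hst : √l * t ≤ 1 := by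
      refine le_trans ?_ hr₁s
      exact mul_le_mul_of_nonneg_left (by linarith) hs.le
    have hsum := fourier_sum h2 htρ θ
    rw [← hasSum_nat_add_iff' (m + 1)] at hsum
    have hS : ∀ n, (if n = 0 then (1 / (2 * π) : ℝ) else 1 / π) *
        (md n p f t * Complex.exp (n * θ * Complex.I)).re =
        c n * (md n p f t * Complex.exp (n * θ * Complex.I)).re := fun n => by rw [hc]
    simp only [hS] at hsum
    have hlow : ∑ i ∈ Finset.range (m + 1), c i * (md i p f t * Complex.exp (i * θ * Complex.I)).re =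
        c m * (md m p f t * Complex.exp (m * θ * Complex.I)).re := by
      rw [Finset.sum_range_succ, Finset.sum_eq_zero, zero_add]
      intro k hk
      rw [ha k t htρ, hmin k (Finset.mem_range.1 hk), zero_mul, zero_mul, Complex.zero_re, mul_zero]
    rw [hlow] at hsum
    have hterm : ∀ n : ℕ, ‖c (n + (m + 1)) * (md (n + (m + 1)) p f t *
        Complex.exp (((n + (m + 1) : ℕ) : ℂ) * θ * Complex.I)).re‖ ≤
        (4 / 3 * M) * (t / r₁) ^ (m + 1) * (1 / 2) ^ n := by
      intro n
      have h3 : |(md (n + (m + 1)) p f t * Complex.exp (((n + (m + 1) : ℕ) : ℂ) * θ * Complex.I)).re| ≤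
          ‖md (n + (m + 1)) p f t‖ := by
        refine (Complex.abs_re_le_norm _).trans ?_
        rw [norm_mul, Lec_norm_exp, mul_one]
      have h4 : ‖md (n + (m + 1)) p f t‖ ≤ 4 / 3 * (t / r₁) ^ (n + (m + 1)) * ‖md (n + (m + 1)) p f r₁‖ := by
        rw [ha _ t htρ, ha _ r₁ ⟨hr₁, hr₁ρ⟩, norm_mul, norm_mul, Complex.norm_real, Complex.norm_real,
          Real.norm_eq_abs, Real.norm_eq_abs, abs_of_pos (J_pos _ (by positivity) hst),
          abs_of_pos (J_pos _ (by positivity) hr₁s)]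
        have h5 := J_ratio (n + (m + 1)) (x := √l * t) (y := √l * r₁) (by positivity)
          (mul_le_mul_of_nonneg_left (by linarith) hs.le) hr₁s
        have h6 : √l * t / (√l * r₁) = t / r₁ := mul_div_mul_left _ _ hs.ne'
        rw [h6] at h5
        calc ‖a (n + (m + 1))‖ * J (n + (m + 1)) (√l * t)
            ≤ ‖a (n + (m + 1))‖ * (4 / 3 * (t / r₁) ^ (n + (m + 1)) * J (n + (m + 1)) (√l * r₁)) :=
              mul_le_mul_of_nonneg_left h5 (norm_nonneg _)
          _ = 4 / 3 * (t / r₁) ^ (n + (m + 1)) * (‖a (n + (m + 1))‖ * J (n + (m + 1)) (√l * r₁)) := by ring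
      have h7 : (t / r₁) ^ (n + (m + 1)) ≤ (t / r₁) ^ (m + 1) * (1 / 2) ^ n := by
        rw [pow_add, mul_comm]
        have h8 : t / r₁ ≤ 1 / 2 := by
          rw [div_le_iff₀ hr₁]
          linarith
        have h9 : 0 ≤ t / r₁ := by positivity
        exact mul_le_mul_of_nonneg_left (pow_le_pow_left₀ h9 h8 n) (by positivity)
      have h10 := hM (n + (m + 1)) (by omega)
      rw [norm_mul, Real.norm_eq_abs, Real.norm_eq_abs, abs_of_pos (hc0 _)]
      calc c (n + (m + 1)) * |(md (n + (m + 1)) p f t *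
              Complex.exp (((n + (m + 1) : ℕ) : ℂ) * θ * Complex.I)).re|
          ≤ 1 * |(md (n + (m + 1)) p f t * Complex.exp (((n + (m + 1) : ℕ) : ℂ) * θ * Complex.I)).re| :=
            mul_le_mul_of_nonneg_right (hc1 _) (abs_nonneg _)
        _ ≤ ‖md (n + (m + 1)) p f t‖ := by rw [one_mul]; exact h3
        _ ≤ 4 / 3 * (t / r₁) ^ (n + (m + 1)) * ‖md (n + (m + 1)) p f r₁‖ := h4
        _ ≤ 4 / 3 * ((t / r₁) ^ (m + 1) * (1 / 2) ^ n) * M := by
            apply mul_le_mul _ h10 (norm_nonneg _) (by positivity)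
            exact mul_le_mul_of_nonneg_left h7 (by norm_num)
        _ = (4 / 3 * M) * (t / r₁) ^ (m + 1) * (1 / 2) ^ n := by ring
    have hgeo : HasSum (fun n : ℕ => (4 / 3 * M) * (t / r₁) ^ (m + 1) * (1 / 2 : ℝ) ^ n)
        ((4 / 3 * M) * (t / r₁) ^ (m + 1) * 2) := by
      have h3 := (hasSum_geometric_of_lt_one (r := (1 / 2 : ℝ)) (by norm_num) (by norm_num)).mul_left
        ((4 / 3 * M) * (t / r₁) ^ (m + 1))
      have h4 : ((1 : ℝ) - 1 / 2)⁻¹ = 2 := by norm_num
      rw [h4] at h3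
      exact h3
    have htail := hsum.norm_le_of_bounded hgeo hterm
    rw [Real.norm_eq_abs] at htail
    -- the main term
    have hmain : |c m * (md m p f t * Complex.exp (m * θ * Complex.I)).re -
        t ^ m * (((c m * ((√l / 2) ^ m / m.factorial) : ℝ) : ℂ) * a m * Complex.exp (m * θ * Complex.I)).re| ≤
        (√l / 2) ^ (m + 2) / m.factorial * ‖a m‖ * (r₁ / 2) * t ^ (m + 1) := by
      have h3 : (md m p f t * Complex.exp (m * θ * Complex.I)).re =
          J m (√l * t) * (a m * Complex.exp (m * θ * Complex.I)).re := by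
        rw [ha m t htρ, mul_right_comm, mul_comm, Complex.re_ofReal_mul]
      have h4 : (((c m * ((√l / 2) ^ m / m.factorial) : ℝ) : ℂ) * a m * Complex.exp (m * θ * Complex.I)).re =
          c m * ((√l / 2) ^ m / m.factorial) * (a m * Complex.exp (m * θ * Complex.I)).re := by
        rw [mul_assoc, Complex.re_ofReal_mul]
      have h5 : |(a m * Complex.exp (m * θ * Complex.I)).re| ≤ ‖a m‖ := by
        refine (Complex.abs_re_le_norm _).trans ?_
        rw [norm_mul, Lec_norm_exp, mul_one]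
      rw [h3, h4]
      have h6 : c m * (J m (√l * t) * (a m * Complex.exp (m * θ * Complex.I)).re) -
          t ^ m * (c m * ((√l / 2) ^ m / m.factorial) * (a m * Complex.exp (m * θ * Complex.I)).re) =
          c m * (J m (√l * t) - (√l * t / 2) ^ m / m.factorial) *
            (a m * Complex.exp (m * θ * Complex.I)).re := by
        have h7 : (√l * t / 2) ^ m = t ^ m * (√l / 2) ^ m := by
          rw [← mul_pow]
          congr 1
          ring
        rw [h7]
        ring
      rw [h6, abs_mul, abs_mul, abs_of_pos (hc0 m)]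
      have h8 := J_lead m (x := √l * t) (by positivity) hst
      have h9 : (√l * t / 2) ^ (m + 2) = (√l / 2) ^ (m + 2) * (t * t ^ (m + 1)) := by
        have h10 : √l * t / 2 = √l / 2 * t := by ring
        rw [h10, mul_pow]
        ring
      rw [h9] at h8
      calc c m * |J m (√l * t) - (√l * t / 2) ^ m / m.factorial| * |(a m * Complex.exp (m * θ * Complex.I)).re|
          ≤ 1 * ((√l / 2) ^ (m + 2) * (t * t ^ (m + 1)) / m.factorial) * ‖a m‖ := by
            apply mul_le_mul _ h5 (abs_nonneg _) (by positivity)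
            exact mul_le_mul (hc1 m) h8 (abs_nonneg _) (by norm_num)
        _ = (√l / 2) ^ (m + 2) / m.factorial * ‖a m‖ * t * t ^ (m + 1) := by ring
        _ ≤ (√l / 2) ^ (m + 2) / m.factorial * ‖a m‖ * (r₁ / 2) * t ^ (m + 1) := by
            apply mul_le_mul_of_nonneg_right _ (by positivity)
            exact mul_le_mul_of_nonneg_left htr (by positivity)
    calc |f (p + t * cis θ) -
          t ^ m * (((c m * ((√l / 2) ^ m / m.factorial) : ℝ) : ℂ) * a m * Complex.exp (m * θ * Complex.I)).re|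
        ≤ |f (p + t * cis θ) - c m * (md m p f t * Complex.exp (m * θ * Complex.I)).re| +
          |c m * (md m p f t * Complex.exp (m * θ * Complex.I)).re -
        t ^ m * (((c m * ((√l / 2) ^ m / m.factorial) : ℝ) : ℂ) * a m * Complex.exp (m * θ * Complex.I)).re| :=
          abs_sub_le _ _ _
      _ ≤ (4 / 3 * M) * (t / r₁) ^ (m + 1) * 2 +
          (√l / 2) ^ (m + 2) / m.factorial * ‖a m‖ * (r₁ / 2) * t ^ (m + 1) := add_le_add htail hmain
      _ = (2 * (4 / 3 * M) / r₁ ^ (m + 1) + (√l / 2) ^ (m + 2) / m.factorial * ‖a m‖ * (r₁ / 2)) * t ^ (m + 1) := by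
          rw [div_pow]
          ring

end DrumL
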