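import Pool.Agent.Lib.MP_d92c84_anF.Wsd
import Pool.Agent.Lib.MP_d92c84_anF.Pod

/-!
# The radial wave equation for the modes of a drum solution
-/

set_option autoImplicit false

namespace DrumL

open MeasureTheory Set Filter Topology
open scoped ContDiff Real

private theorem Mdp_slice {X : Type*} [TopologicalSpace X] {U : Set X} {K : X × ℝ → ℂ}
    (hK : ContinuousOn K (U ×ˢ univ)) {x : X} (hx : x ∈ U) : Continuous fun θ => K (x, θ) := by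
  rw [← continuousOn_univ]
  exact hK.comp (f := fun θ : ℝ => (x, θ)) (by fun_prop) fun θ _ => ⟨hx, mem_univ θ⟩

private theorem Mdp_bound {X : Type*} [TopologicalSpace X] [LocallyCompactSpace X] {U : Set X} (hU : IsOpen U)
    {K : X × ℝ → ℂ} (hK : ContinuousOn K (U ×ˢ univ)) {x : X} (hx : x ∈ U) :
    ∃ V ∈ 𝓝 x, V ⊆ U ∧ ∃ C : ℝ, ∀ y ∈ V, ∀ θ ∈ Set.uIoc (0 : ℝ) (2 * π), ‖K (y, θ)‖ ≤ C := by
  obtain ⟨V, hV, hxV, hVU⟩ := exists_compact_subset hU hx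
  obtain ⟨C, hC⟩ := (hV.prod (isCompact_uIcc (a := (0 : ℝ)) (b := 2 * π))).exists_bound_of_continuousOn
    (hK.mono (prod_mono hVU (subset_univ _)))
  exact ⟨V, mem_interior_iff_mem_nhds.1 hxV, hVU, C, fun y hy θ hθ => hC (y, θ) ⟨hy, uIoc_subset_uIcc hθ⟩⟩

private theorem Mdp_cont {X : Type*} [TopologicalSpace X] [LocallyCompactSpace X] [FirstCountableTopology X]
    {U : Set X} (hU : IsOpen U)
    {K : X × ℝ → ℂ} (hK : ContinuousOn K (U ×ˢ univ)) :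
    ContinuousOn (fun x => ∫ θ in (0 : ℝ)..(2 * π), K (x, θ)) U := by
  intro x hx
  obtain ⟨V, hV, hVU, C, hC⟩ := Mdp_bound hU hK hx
  refine ContinuousAt.continuousWithinAt ?_
  refine intervalIntegral.continuousAt_of_dominated_interval (bound := fun _ => C) ?_ ?_ ?_ ?_
  · filter_upwards [hU.mem_nhds hx] with y hy
    exact (Mdp_slice hK hy).aestronglyMeasurable
  · filter_upwards [hV] with y hy
    exact Eventually.of_forall fun θ hθ => hC y hy θ hθ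
  · exact intervalIntegrable_const
  · refine Eventually.of_forall fun θ _ => ?_
    have h1 : ContinuousAt K (x, θ) := hK.continuousAt ((hU.prod isOpen_univ).mem_nhds ⟨hx, mem_univ θ⟩)
    exact ContinuousAt.comp (f := fun y : X => (y, θ)) h1 (by fun_prop)

private theorem Mdp_der {U : Set ℝ} (hU : IsOpen U) {K K' : ℝ × ℝ → ℂ} (hK : ContinuousOn K (U ×ˢ univ))
    (hK' : ContinuousOn K' (U ×ˢ univ)) (hd : ∀ s ∈ U, ∀ θ, HasDerivAt (fun s => K (s, θ)) (K' (s, θ)) s)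
    {s : ℝ} (hs : s ∈ U) :
    HasDerivAt (fun s => ∫ θ in (0 : ℝ)..(2 * π), K (s, θ)) (∫ θ in (0 : ℝ)..(2 * π), K' (s, θ)) s := by
  obtain ⟨V, hV, hVU, C, hC⟩ := Mdp_bound hU hK' hs
  refine (intervalIntegral.hasDerivAt_integral_of_dominated_loc_of_deriv_le (F := fun s θ => K (s, θ))
    (F' := fun s θ => K' (s, θ)) (s := V) (bound := fun _ => C) hV ?_ ?_ ?_ ?_ ?_ ?_).2
  · filter_upwards [hU.mem_nhds hs] with y hy
    exact (Mdp_slice hK hy).aestronglyMeasurable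
  · exact (Mdp_slice hK hs).intervalIntegrable _ _
  · exact (Mdp_slice hK' hs).aestronglyMeasurable
  · exact Eventually.of_forall fun θ hθ y hy => hC y hy θ hθ
  · exact intervalIntegrable_const
  · exact Eventually.of_forall fun θ _ y hy => hd y (hVU hy) θ

/-- The exponential factor. -/
private theorem Mdp_exp (n : ℕ) : Continuous fun θ : ℝ => Complex.exp (-(n * θ * Complex.I)) := by
  fun_prop

private theorem Mdp_contK (n : ℕ) {δ : ℝ} {k : (ℝ × ℝ) × ℝ → ℝ}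
    (hk : ContinuousOn k ((Ioo 0 δ ×ˢ univ) ×ˢ univ)) :
    ContinuousOn (fun q : ℝ × ℝ => ∫ θ in (0 : ℝ)..(2 * π), (k ((q.1, q.2), θ) : ℂ) *
      Complex.exp (-(n * θ * Complex.I))) (Ioo 0 δ ×ˢ univ) := by
  refine Mdp_cont (K := fun p : (ℝ × ℝ) × ℝ => (k p : ℂ) * Complex.exp (-(n * p.2 * Complex.I)))
    (isOpen_Ioo.prod isOpen_univ) ?_
  exact (Complex.continuous_ofReal.comp_continuousOn hk).mul
    ((Mdp_exp n).comp continuous_snd).continuousOn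

private theorem Mdp_derR (n : ℕ) {δ : ℝ} {k k' : (ℝ × ℝ) × ℝ → ℝ}
    (hk : ContinuousOn k ((Ioo 0 δ ×ˢ univ) ×ˢ univ)) (hk' : ContinuousOn k' ((Ioo 0 δ ×ˢ univ) ×ˢ univ))
    (hd : ∀ r ∈ Ioo 0 δ, ∀ t θ, HasDerivAt (fun r => k ((r, t), θ)) (k' ((r, t), θ)) r) {r : ℝ}
    (hr : r ∈ Ioo 0 δ) (t : ℝ) :
    HasDerivAt (fun r => ∫ θ in (0 : ℝ)..(2 * π), (k ((r, t), θ) : ℂ) * Complex.exp (-(n * θ * Complex.I)))
      (∫ θ in (0 : ℝ)..(2 * π), (k' ((r, t), θ) : ℂ) * Complex.exp (-(n * θ * Complex.I))) r := by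
  have hc : ∀ {k : (ℝ × ℝ) × ℝ → ℝ}, ContinuousOn k ((Ioo 0 δ ×ˢ univ) ×ˢ univ) →
      ContinuousOn (fun p : ℝ × ℝ => (k ((p.1, t), p.2) : ℂ) * Complex.exp (-(n * p.2 * Complex.I)))
        (Ioo 0 δ ×ˢ univ) := by
    intro k hk
    refine ContinuousOn.mul ?_ ((Mdp_exp n).comp continuous_snd).continuousOn
    refine Complex.continuous_ofReal.comp_continuousOn ?_
    exact hk.comp (f := fun p : ℝ × ℝ => (((p.1, t), p.2) : (ℝ × ℝ) × ℝ)) (by fun_prop)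
      fun p hp => ⟨⟨hp.1, mem_univ _⟩, mem_univ _⟩
  exact Mdp_der (K := fun p : ℝ × ℝ => (k ((p.1, t), p.2) : ℂ) * Complex.exp (-(n * p.2 * Complex.I)))
    (K' := fun p : ℝ × ℝ => (k' ((p.1, t), p.2) : ℂ) * Complex.exp (-(n * p.2 * Complex.I)))
    isOpen_Ioo (hc hk) (hc hk') (fun s hs θ =>
      ((hd s hs t θ).ofReal_comp).mul_const (Complex.exp (-(n * θ * Complex.I)))) hr

private theorem Mdp_derT (n : ℕ) {δ : ℝ} {k k' : (ℝ × ℝ) × ℝ → ℝ}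
    (hk : ContinuousOn k ((Ioo 0 δ ×ˢ univ) ×ˢ univ)) (hk' : ContinuousOn k' ((Ioo 0 δ ×ˢ univ) ×ˢ univ))
    (hd : ∀ r ∈ Ioo 0 δ, ∀ t θ, HasDerivAt (fun t => k ((r, t), θ)) (k' ((r, t), θ)) t) {r : ℝ}
    (hr : r ∈ Ioo 0 δ) (t : ℝ) :
    HasDerivAt (fun t => ∫ θ in (0 : ℝ)..(2 * π), (k ((r, t), θ) : ℂ) * Complex.exp (-(n * θ * Complex.I)))
      (∫ θ in (0 : ℝ)..(2 * π), (k' ((r, t), θ) : ℂ) * Complex.exp (-(n * θ * Complex.I))) t := by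
  have hc : ∀ {k : (ℝ × ℝ) × ℝ → ℝ}, ContinuousOn k ((Ioo 0 δ ×ˢ univ) ×ˢ univ) →
      ContinuousOn (fun p : ℝ × ℝ => (k ((r, p.1), p.2) : ℂ) * Complex.exp (-(n * p.2 * Complex.I)))
        (univ ×ˢ univ) := by
    intro k hk
    refine ContinuousOn.mul ?_ ((Mdp_exp n).comp continuous_snd).continuousOn
    refine Complex.continuous_ofReal.comp_continuousOn ?_
    exact hk.comp (f := fun p : ℝ × ℝ => (((r, p.1), p.2) : (ℝ × ℝ) × ℝ)) (by fun_prop)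
      fun p _ => ⟨⟨hr, mem_univ _⟩, mem_univ _⟩
  exact Mdp_der (K := fun p : ℝ × ℝ => (k ((r, p.1), p.2) : ℂ) * Complex.exp (-(n * p.2 * Complex.I)))
    (K' := fun p : ℝ × ℝ => (k' ((r, p.1), p.2) : ℂ) * Complex.exp (-(n * p.2 * Complex.I)))
    isOpen_univ (hc hk) (hc hk') (fun s _ θ =>
      ((hd r hr s θ).ofReal_comp).mul_const (Complex.exp (-(n * θ * Complex.I)))) (mem_univ t)

private theorem Mdp_clm {L : ℝ → ℂ × ℝ →L[ℝ] ℝ} {L' : ℂ × ℝ →L[ℝ] ℝ} {s : ℝ} (h : HasDerivAt L L' s)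
    (v : ℂ × ℝ) : HasDerivAt (fun s => L s v) (L' v) s := by
  have h1 := h.clm_apply (hasDerivAt_const s v)
  simpa using h1

private theorem Mdp_pathR (x₀ : ℂ) (t θ r : ℝ) :
    HasDerivAt (fun r : ℝ => ((x₀ + (r : ℂ) * cis θ, t) : ℂ × ℝ)) (cis θ, 0) r := by
  have h1 : HasDerivAt (fun r : ℝ => x₀ + (r : ℂ) * cis θ) (cis θ) r := by
    have h2 := (((hasDerivAt_id r).ofReal_comp).mul_const (cis θ)).const_add x₀
    simpa using h2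
  exact h1.prodMk (hasDerivAt_const r t)

private theorem Mdp_pathT (p : ℂ) (t : ℝ) :
    HasDerivAt (fun t : ℝ => ((p, t) : ℂ × ℝ)) (0, 1) t :=
  (hasDerivAt_const t p).prodMk (hasDerivAt_id t)

private theorem Mdp_cis (θ : ℝ) : ‖cis θ‖ = 1 := by
  unfold cis
  exact Complex.norm_exp_ofReal_mul_I θ

private theorem Mdp_cis_cont : Continuous cis := by
  unfold cis
  fun_prop

private theorem Mdp_mem {x₀ : ℂ} {δ r : ℝ} (hr : r ∈ Ioo 0 δ) (θ : ℝ) :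
    x₀ + (r : ℂ) * cis θ ∈ Metric.ball x₀ δ := by
  rw [Metric.mem_ball, dist_eq_norm, add_sub_cancel_left, norm_mul, Mdp_cis, mul_one, Complex.norm_real,
    Real.norm_eq_abs, abs_of_pos hr.1]
  exact hr.2

/-- The modes `v r t = md n x₀ (z · t) r`, their derivatives, and the radial wave equation. -/
theorem modes_c2 {c : ℝ} {D : Set ℂ} (hD : IsOpen D) (hc : 0 < c) {z : ℂ → ℝ → ℝ} {G : ℂ → ℝ → ℂ} (h : Dz c D z G)
    {x₀ : ℂ} {δ : ℝ} (hb : Metric.ball x₀ δ ⊆ D) (n : ℕ) :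
    ∃ vrr vrt vtt : ℝ → ℝ → ℂ,
      (∀ r ∈ Ioo 0 δ, ∀ t, HasDerivAt (fun r => md n x₀ (fun y => z y t) r) (md' n x₀ (fun y => z y t) r) r) ∧
      (∀ r ∈ Ioo 0 δ, ∀ t, HasDerivAt (fun t => md n x₀ (fun y => z y t) r)
        (md n x₀ (fun y => deriv (z y) t) r) t) ∧
      (∀ r ∈ Ioo 0 δ, ∀ t, HasDerivAt (fun r => md' n x₀ (fun y => z y t) r) (vrr r t) r) ∧
      (∀ r ∈ Ioo 0 δ, ∀ t, HasDerivAt (fun t => md' n x₀ (fun y => z y t) r) (vrt r t) t) ∧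
      (∀ r ∈ Ioo 0 δ, ∀ t, HasDerivAt (fun r => md n x₀ (fun y => deriv (z y) t) r) (vrt r t) r) ∧
      (∀ r ∈ Ioo 0 δ, ∀ t, HasDerivAt (fun t => md n x₀ (fun y => deriv (z y) t) r) (vtt r t) t) ∧
      ContinuousOn (fun q : ℝ × ℝ => md n x₀ (fun y => z y q.2) q.1) (Ioo 0 δ ×ˢ univ) ∧
      ContinuousOn (fun q : ℝ × ℝ => md' n x₀ (fun y => z y q.2) q.1) (Ioo 0 δ ×ˢ univ) ∧
      ContinuousOn (fun q : ℝ × ℝ => md n x₀ (fun y => deriv (z y) q.2) q.1) (Ioo 0 δ ×ˢ univ) ∧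
      ContinuousOn (fun q : ℝ × ℝ => vrr q.1 q.2) (Ioo 0 δ ×ˢ univ) ∧
      ContinuousOn (fun q : ℝ × ℝ => vrt q.1 q.2) (Ioo 0 δ ×ˢ univ) ∧
      ContinuousOn (fun q : ℝ × ℝ => vtt q.1 q.2) (Ioo 0 δ ×ˢ univ) ∧
      ∀ r ∈ Ioo 0 δ, ∀ t, vrr r t + md' n x₀ (fun y => z y t) r / r -
        (n : ℂ) ^ 2 * md n x₀ (fun y => z y t) r / r ^ 2 = vtt r t / c ^ 2 := by
  obtain ⟨F, hF⟩ : ∃ F : ℂ × ℝ → ℝ, F = fun q => z q.1 q.2 := ⟨_, rfl⟩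
  obtain ⟨D1, hD1⟩ : ∃ D1 : ℂ × ℝ → ℂ × ℝ →L[ℝ] ℝ, D1 = fderiv ℝ F := ⟨_, rfl⟩
  obtain ⟨D2, hD2⟩ : ∃ D2 : ℂ × ℝ → ℂ × ℝ →L[ℝ] ℂ × ℝ →L[ℝ] ℝ, D2 = fderiv ℝ D1 := ⟨_, rfl⟩
  have hΩ : IsOpen (D ×ˢ (univ : Set ℝ)) := hD.prod isOpen_univ
  have hc2 : ContDiffOn ℝ 2 F (D ×ˢ univ) := by
    rw [hF]
    exact h.c2
  have hc1 : ContDiffOn ℝ 1 D1 (D ×ˢ univ) := by
    rw [hD1]
    exact hc2.fderiv_of_isOpen hΩ (by norm_num)
  have hc0 : ContinuousOn D2 (D ×ˢ univ) := by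
    rw [hD2]
    exact hc1.continuousOn_fderiv_of_isOpen hΩ le_rfl
  have hF1 : ∀ p ∈ D, ∀ t : ℝ, HasFDerivAt F (D1 (p, t)) (p, t) := by
    intro p hp t
    rw [hD1]
    exact ((hc2.differentiableOn (by norm_num)).differentiableAt (hΩ.mem_nhds ⟨hp, mem_univ t⟩)).hasFDerivAt
  have hF2 : ∀ p ∈ D, ∀ t : ℝ, HasFDerivAt D1 (D2 (p, t)) (p, t) := by
    intro p hp t
    rw [hD2]
    exact ((hc1.differentiableOn (by norm_num)).differentiableAt (hΩ.mem_nhds ⟨hp, mem_univ t⟩)).hasFDerivAt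
  have hsym : ∀ p ∈ D, ∀ t : ℝ, ∀ v w, D2 (p, t) v w = D2 (p, t) w v := by
    intro p hp t v w
    have h1 : ContDiffAt ℝ 2 F (p, t) := hc2.contDiffAt (hΩ.mem_nhds ⟨hp, mem_univ t⟩)
    have h2 := h1.isSymmSndFDerivAt (by simp)
    rw [hD2, hD1]
    exact h2 v w
  have hpd : ∀ p ∈ D, ∀ t : ℝ, ∀ v, pd v (fun y => z y t) p = D1 (p, t) (v, 0) := by
    intro p hp t v
    have h1 : HasFDerivAt (fun y : ℂ => F (y, t)) ((D1 (p, t)).comp (ContinuousLinearMap.inl ℝ ℂ ℝ)) p :=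
      (hF1 p hp t).comp p (hasFDerivAt_prodMk_left p t)
    rw [hF] at h1
    unfold pd
    rw [h1.fderiv]
    rfl
  have hdt : ∀ p ∈ D, ∀ t : ℝ, deriv (z p) t = D1 (p, t) (0, 1) := by
    intro p hp t
    have h1 := (hF1 p hp t).comp_hasDerivAt t (Mdp_pathT p t)
    rw [hF] at h1
    exact h1.deriv
  have hdtt : ∀ p ∈ D, ∀ t : ℝ, HasDerivAt (deriv (z p)) (D2 (p, t) (0, 1) (0, 1)) t := by
    intro p hp t
    have h1 : deriv (z p) = fun t => D1 (p, t) (0, 1) := funext fun t => hdt p hp t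
    rw [h1]
    exact Mdp_clm ((hF2 p hp t).comp_hasDerivAt t (Mdp_pathT p t)) (0, 1)
  have hmem : ∀ r ∈ Ioo 0 δ, ∀ θ, x₀ + ((r : ℝ) : ℂ) * cis θ ∈ D := fun r hr θ => hb (Mdp_mem hr θ)
  -- continuity
  have hP : ContinuousOn (fun q : (ℝ × ℝ) × ℝ => ((x₀ + (q.1.1 : ℂ) * cis q.2, q.1.2) : ℂ × ℝ))
      ((Ioo 0 δ ×ˢ univ) ×ˢ univ) := by
    have h1 := Mdp_cis_cont
    fun_prop
  have hPm : ∀ q ∈ ((Ioo 0 δ ×ˢ univ) ×ˢ univ : Set ((ℝ × ℝ) × ℝ)),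
      ((x₀ + (q.1.1 : ℂ) * cis q.2, q.1.2) : ℂ × ℝ) ∈ D ×ˢ (univ : Set ℝ) := fun q hq =>
    ⟨hmem q.1.1 hq.1.1 q.2, mem_univ _⟩
  have hw1 : ContinuousOn (fun q : (ℝ × ℝ) × ℝ => ((cis q.2, 0) : ℂ × ℝ)) ((Ioo 0 δ ×ˢ univ) ×ˢ univ) := by
    have h1 := Mdp_cis_cont
    fun_prop
  have hw2 : ContinuousOn (fun _ : (ℝ × ℝ) × ℝ => ((0, 1) : ℂ × ℝ)) ((Ioo 0 δ ×ˢ univ) ×ˢ univ) :=
    continuousOn_const
  have hD1P := hc1.continuousOn.comp hP hPm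
  have hD2P := hc0.comp hP hPm
  have c0 : ContinuousOn (fun q : (ℝ × ℝ) × ℝ => z (x₀ + (q.1.1 : ℂ) * cis q.2) q.1.2)
      ((Ioo 0 δ ×ˢ univ) ×ˢ univ) := by
    have h1 := hc2.continuousOn.comp hP hPm
    rw [hF] at h1
    exact h1
  have cr : ContinuousOn (fun q : (ℝ × ℝ) × ℝ => pd (cis q.2) (fun y => z y q.1.2) (x₀ + (q.1.1 : ℂ) * cis q.2))
      ((Ioo 0 δ ×ˢ univ) ×ˢ univ) :=
    (hD1P.clm_apply hw1).congr fun q hq => hpd _ (hmem q.1.1 hq.1.1 q.2) _ _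
  have ct : ContinuousOn (fun q : (ℝ × ℝ) × ℝ => deriv (z (x₀ + (q.1.1 : ℂ) * cis q.2)) q.1.2)
      ((Ioo 0 δ ×ˢ univ) ×ˢ univ) :=
    (hD1P.clm_apply hw2).congr fun q hq => hdt _ (hmem q.1.1 hq.1.1 q.2) _
  have crr : ContinuousOn (fun q : (ℝ × ℝ) × ℝ => D2 (x₀ + (q.1.1 : ℂ) * cis q.2, q.1.2) (cis q.2, 0) (cis q.2, 0))
      ((Ioo 0 δ ×ˢ univ) ×ˢ univ) := (hD2P.clm_apply hw1).clm_apply hw1
  have crt : ContinuousOn (fun q : (ℝ × ℝ) × ℝ => D2 (x₀ + (q.1.1 : ℂ) * cis q.2, q.1.2) (0, 1) (cis q.2, 0))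
      ((Ioo 0 δ ×ˢ univ) ×ˢ univ) := (hD2P.clm_apply hw2).clm_apply hw1
  have ctt : ContinuousOn (fun q : (ℝ × ℝ) × ℝ => D2 (x₀ + (q.1.1 : ℂ) * cis q.2, q.1.2) (0, 1) (0, 1))
      ((Ioo 0 δ ×ˢ univ) ×ˢ univ) := (hD2P.clm_apply hw2).clm_apply hw2
  -- derivatives
  have d0r : ∀ r ∈ Ioo 0 δ, ∀ t θ : ℝ, HasDerivAt (fun r : ℝ => z (x₀ + (r : ℂ) * cis θ) t)
      (pd (cis θ) (fun y => z y t) (x₀ + (r : ℂ) * cis θ)) r := by
    intro r hr t θ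
    have h1 := (hF1 _ (hmem r hr θ) t).comp_hasDerivAt r (Mdp_pathR x₀ t θ r)
    rw [hpd _ (hmem r hr θ) t]
    rw [hF] at h1
    exact h1
  have d0t : ∀ r ∈ Ioo 0 δ, ∀ t θ : ℝ, HasDerivAt (fun t : ℝ => z (x₀ + (r : ℂ) * cis θ) t)
      (deriv (z (x₀ + (r : ℂ) * cis θ)) t) t := by
    intro r hr t θ
    have h1 := (hF1 _ (hmem r hr θ) t).comp_hasDerivAt t (Mdp_pathT (x₀ + (r : ℂ) * cis θ) t)
    rw [hdt _ (hmem r hr θ) t]
    rw [hF] at h1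
    exact h1
  have drr : ∀ r ∈ Ioo 0 δ, ∀ t θ : ℝ, HasDerivAt (fun r : ℝ => pd (cis θ) (fun y => z y t) (x₀ + (r : ℂ) * cis θ))
      (D2 (x₀ + (r : ℂ) * cis θ, t) (cis θ, 0) (cis θ, 0)) r := by
    intro r hr t θ
    have h1 := Mdp_clm ((hF2 _ (hmem r hr θ) t).comp_hasDerivAt r (Mdp_pathR x₀ t θ r)) (cis θ, 0)
    refine h1.congr_of_eventuallyEq ?_
    filter_upwards [isOpen_Ioo.mem_nhds hr] with s hs
    exact hpd _ (hmem s hs θ) t _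
  have drt : ∀ r ∈ Ioo 0 δ, ∀ t θ : ℝ, HasDerivAt (fun t : ℝ => pd (cis θ) (fun y => z y t) (x₀ + (r : ℂ) * cis θ))
      (D2 (x₀ + (r : ℂ) * cis θ, t) (0, 1) (cis θ, 0)) t := by
    intro r hr t θ
    have h1 := Mdp_clm ((hF2 _ (hmem r hr θ) t).comp_hasDerivAt t (Mdp_pathT (x₀ + (r : ℂ) * cis θ) t)) (cis θ, 0)
    refine h1.congr_of_eventuallyEq ?_
    exact Eventually.of_forall fun s => hpd _ (hmem r hr θ) s _
  have dtr : ∀ r ∈ Ioo 0 δ, ∀ t θ : ℝ, HasDerivAt (fun r : ℝ => deriv (z (x₀ + (r : ℂ) * cis θ)) t)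
      (D2 (x₀ + (r : ℂ) * cis θ, t) (0, 1) (cis θ, 0)) r := by
    intro r hr t θ
    have h1 := Mdp_clm ((hF2 _ (hmem r hr θ) t).comp_hasDerivAt r (Mdp_pathR x₀ t θ r)) (0, 1)
    rw [hsym _ (hmem r hr θ) t]
    refine h1.congr_of_eventuallyEq ?_
    filter_upwards [isOpen_Ioo.mem_nhds hr] with s hs
    exact hdt _ (hmem s hs θ) t
  have dtt : ∀ r ∈ Ioo 0 δ, ∀ t θ : ℝ, HasDerivAt (fun t : ℝ => deriv (z (x₀ + (r : ℂ) * cis θ)) t)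
      (D2 (x₀ + (r : ℂ) * cis θ, t) (0, 1) (0, 1)) t := fun r hr t θ => hdtt _ (hmem r hr θ) t
  have item3 : ∀ r ∈ Ioo 0 δ, ∀ t, HasDerivAt (fun r => md' n x₀ (fun y => z y t) r)
      (∫ θ in (0 : ℝ)..(2 * π), (D2 (x₀ + (r : ℂ) * cis θ, t) (cis θ, 0) (cis θ, 0) : ℂ) *
        Complex.exp (-(n * θ * Complex.I))) r := fun r hr t => Mdp_derR n cr crr drr hr t
  refine ⟨fun r t => ∫ θ in (0 : ℝ)..(2 * π), (D2 (x₀ + (r : ℂ) * cis θ, t) (cis θ, 0) (cis θ, 0) : ℂ) *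
      Complex.exp (-(n * θ * Complex.I)),
    fun r t => ∫ θ in (0 : ℝ)..(2 * π), (D2 (x₀ + (r : ℂ) * cis θ, t) (0, 1) (cis θ, 0) : ℂ) *
      Complex.exp (-(n * θ * Complex.I)),
    fun r t => ∫ θ in (0 : ℝ)..(2 * π), (D2 (x₀ + (r : ℂ) * cis θ, t) (0, 1) (0, 1) : ℂ) *
      Complex.exp (-(n * θ * Complex.I)),
    fun r hr t => Mdp_derR n c0 cr d0r hr t, fun r hr t => Mdp_derT n c0 ct d0t hr t, item3,
    fun r hr t => Mdp_derT n cr crt drt hr t, fun r hr t => Mdp_derR n ct crt dtr hr t,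
    fun r hr t => Mdp_derT n ct ctt dtt hr t, Mdp_contK n c0, Mdp_contK n cr, Mdp_contK n ct, Mdp_contK n crr,
    Mdp_contK n crt, Mdp_contK n ctt, ?_⟩
  intro r hr t
  have hzt : ContDiffOn ℝ 2 (fun y => z y t) (Metric.ball x₀ δ) :=
    (h.c2.comp (f := fun y : ℂ => (y, t)) (contDiff_prodMk_left t).contDiffOn
      fun y hy => ⟨hb hy, mem_univ t⟩)
  have h1 := md_ode hzt n hr
  have h2 := (item3 r hr t).unique h1
  beta_reduce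
  rw [h2]
  have h3 : md n x₀ (lap fun y => z y t) r = (∫ θ in (0 : ℝ)..(2 * π),
      (D2 (x₀ + (r : ℂ) * cis θ, t) (0, 1) (0, 1) : ℂ) * Complex.exp (-(n * θ * Complex.I))) / c ^ 2 := by
    unfold md
    rw [← intervalIntegral.integral_div]
    refine intervalIntegral.integral_congr fun θ _ => ?_
    have h4 := h.wave _ (hmem r hr θ) t
    rw [(hdtt _ (hmem r hr θ) t).deriv] at h4
    have hc' : (c : ℂ) ≠ 0 := by exact_mod_cast hc.ne'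
    have h5 : (D2 (x₀ + (r : ℂ) * cis θ, t) (0, 1) (0, 1) : ℂ) =
        (c : ℂ) ^ 2 * (lap (fun y => z y t) (x₀ + (r : ℂ) * cis θ) : ℂ) := by
      rw [h4]
      push_cast
      ring
    rw [h5]
    field_simp
  rw [h3]
  ring

end DrumL
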