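import Mathlib

/-!
# Continuous logarithms
-/

set_option autoImplicit false

namespace DrumL

open Filter Topology Set

/-- A continuous logarithm on the unit square. -/
theorem exists_log {F : ℝ × ℝ → ℂ} (hF : ContinuousOn F (Icc 0 1 ×ˢ Icc 0 1))
    (h0 : ∀ q ∈ Icc (0 : ℝ) 1 ×ˢ Icc (0 : ℝ) 1, F q ≠ 0) :
    ∃ L : ℝ × ℝ → ℂ, ContinuousOn L (Icc 0 1 ×ˢ Icc 0 1) ∧
      ∀ q ∈ Icc (0 : ℝ) 1 ×ˢ Icc (0 : ℝ) 1, Complex.exp (L q) = F q := by
  have zo : (0 : ℝ) ≤ 1 := zero_le_one
  set pr : ℝ → ℝ := fun t => (projIcc (0 : ℝ) 1 zo t : ℝ) with hpr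
  have hprc : Continuous pr := continuous_subtype_val.comp continuous_projIcc
  have hprm : ∀ t, pr t ∈ Icc (0 : ℝ) 1 := fun t => (projIcc (0 : ℝ) 1 zo t).2
  have hpre : ∀ t ∈ Icc (0 : ℝ) 1, pr t = t := fun t ht => by
    simp only [hpr, projIcc_of_mem zo ht]
  set G : ℝ × ℝ → ℂ := fun q => F (pr q.1, pr q.2) with hG
  have hGc : ContinuousOn G univ := by
    refine hF.comp (Continuous.continuousOn ?_) (fun q _ => ⟨hprm _, hprm _⟩)
    exact (hprc.comp continuous_fst).prodMk (hprc.comp continuous_snd)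
  have hsc : IsSimplyConnected (univ : Set (ℝ × ℝ)) := by
    have h1 : ContractibleSpace (univ : Set (ℝ × ℝ)) := (convex_univ (𝕜 := ℝ)).contractibleSpace univ_nonempty
    exact (inferInstance : SimplyConnectedSpace (univ : Set (ℝ × ℝ)))
  obtain ⟨L, hL, hexp⟩ := Complex.exists_continuousOn_eqOn_exp_comp hsc isOpen_univ hGc (by
    rintro ⟨q, -, hq⟩
    exact h0 _ ⟨hprm _, hprm _⟩ hq)
  refine ⟨L, hL.mono (subset_univ _), fun q hq => ?_⟩
  have := hexp (mem_univ q)
  simp only [Function.comp_apply, hG] at this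
  rw [this, hpre _ hq.1, hpre _ hq.2]

/-- On a connected set on which `F = exp L` stays in a closed half plane `{Re (F e^{-ia}) ≥ 0}`, the imaginary part of `L`
stays in one of the intervals `[a - π/2 + 2πk, a + π/2 + 2πk]`. -/
theorem im_log {X : Type*} [TopologicalSpace X] {S : Set X} (hS : IsPreconnected S) {L : X → ℂ} (hL : ContinuousOn L S)
    {a : ℝ} (h : ∀ q ∈ S, 0 ≤ (Complex.exp (L q) * Complex.exp (-(a * Complex.I))).re) :
    ∃ k : ℤ, ∀ q ∈ S, a - Real.pi / 2 + 2 * Real.pi * k ≤ (L q).im ∧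
      (L q).im ≤ a + Real.pi / 2 + 2 * Real.pi * k := by
  have hpi := Real.pi_pos
  have hcos : ∀ q ∈ S, 0 ≤ Real.cos ((L q).im - a) := by
    intro q hq
    have h1 := h q hq
    rw [← Complex.exp_add, Complex.exp_re] at h1
    have h2 : (L q + -((a : ℂ) * Complex.I)).im = (L q).im - a := by simp [sub_eq_add_neg]
    rw [h2] at h1
    by_contra h3
    exact absurd h1 (not_le.2 (mul_neg_of_pos_of_neg (Real.exp_pos _) (not_le.1 h3)))
  rcases S.eq_empty_or_nonempty with rfl | ⟨p, hp⟩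
  · exact ⟨0, fun q hq => absurd hq (notMem_empty q)⟩
  set k : ℤ := round (((L p).im - a) / (2 * Real.pi)) with hk
  have hconn : IsPreconnected ((fun q => (L q).im) '' S) :=
    hS.image _ (Complex.continuous_im.comp_continuousOn hL)
  have hord := hconn.ordConnected
  have hneg : ∀ x : ℝ, x ∈ Ioo (a + Real.pi / 2 + 2 * Real.pi * k) (a + 3 * Real.pi / 2 + 2 * Real.pi * k) →
      x ∉ (fun q => (L q).im) '' S := by
    rintro x ⟨hx1, hx2⟩ ⟨q, hq, rfl⟩
    have h1 := hcos q hq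
    have h2 : Real.cos ((L q).im - a) = Real.cos ((L q).im - a - k * (2 * Real.pi)) := (Real.cos_sub_int_mul_two_pi _ k).symm
    rw [h2] at h1
    have h3 := Real.cos_neg_of_pi_div_two_lt_of_lt (x := (L q).im - a - k * (2 * Real.pi)) (by linarith) (by linarith)
    exact absurd h1 (not_le.2 h3)
  have hneg' : ∀ x : ℝ, x ∈ Ioo (a - 3 * Real.pi / 2 + 2 * Real.pi * k) (a - Real.pi / 2 + 2 * Real.pi * k) →
      x ∉ (fun q => (L q).im) '' S := by
    rintro x ⟨hx1, hx2⟩ ⟨q, hq, rfl⟩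
    have h1 := hcos q hq
    have h2 : Real.cos ((L q).im - a) = Real.cos ((L q).im - a - k * (2 * Real.pi)) := (Real.cos_sub_int_mul_two_pi _ k).symm
    rw [h2, ← Real.cos_neg] at h1
    have h3 := Real.cos_neg_of_pi_div_two_lt_of_lt (x := -((L q).im - a - k * (2 * Real.pi))) (by linarith) (by linarith)
    exact absurd h1 (not_le.2 h3)
  have hround := abs_sub_round (((L p).im - a) / (2 * Real.pi))
  rw [← hk, abs_le] at hround
  have hp1 : a - Real.pi + 2 * Real.pi * k ≤ (L p).im := by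
    have h1 := hround.1
    have h2 : ((L p).im - a) / (2 * Real.pi) * (2 * Real.pi) = (L p).im - a := by field_simp
    nlinarith
  have hp2 : (L p).im ≤ a + Real.pi + 2 * Real.pi * k := by
    have h1 := hround.2
    have h2 : ((L p).im - a) / (2 * Real.pi) * (2 * Real.pi) = (L p).im - a := by field_simp
    nlinarith
  have hpS : (L p).im ∈ (fun q => (L q).im) '' S := ⟨p, hp, rfl⟩
  have hp3 : a - Real.pi / 2 + 2 * Real.pi * k ≤ (L p).im := by
    by_contra h1
    exact hneg' _ ⟨by linarith, not_le.1 h1⟩ hpS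
  have hp4 : (L p).im ≤ a + Real.pi / 2 + 2 * Real.pi * k := by
    by_contra h1
    exact hneg _ ⟨not_le.1 h1, by linarith⟩ hpS
  refine ⟨k, fun q hq => ?_⟩
  have hqS : (L q).im ∈ (fun q => (L q).im) '' S := ⟨q, hq, rfl⟩
  constructor
  · by_contra h1
    rw [not_le] at h1
    set y := max (L q).im (a - Real.pi + 2 * Real.pi * k) with hy
    have hy1 : y ∈ Icc (L q).im (L p).im := ⟨le_max_left _ _, max_le (h1.le.trans hp3) (by linarith)⟩
    exact hneg' y ⟨lt_of_lt_of_le (by linarith) (le_max_right _ _), max_lt h1 (by linarith)⟩ (hord.out hqS hpS hy1)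
  · by_contra h1
    rw [not_le] at h1
    set y := min (L q).im (a + Real.pi + 2 * Real.pi * k) with hy
    have hy1 : y ∈ Icc (L p).im (L q).im := ⟨le_min (hp4.trans h1.le) (by linarith), min_le_left _ _⟩
    exact hneg y ⟨lt_min h1 (by linarith), lt_of_le_of_lt (min_le_right _ _) (by linarith)⟩ (hord.out hpS hqS hy1)

end DrumL
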