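import Pool.Agent.Lib.MP_d92c84_anF.Mia

/-!
# Crossing in a rectangle
-/

set_option autoImplicit false

namespace DrumL

open Filter Topology Set

private lemma Mib_int {x y : ℤ} (h : 2 * Real.pi * (x : ℝ) < 2 * Real.pi * (y : ℝ) + 2 * Real.pi) : x ≤ y := by
  have h1 : 2 * Real.pi * (x : ℝ) < 2 * Real.pi * ((y : ℝ) + 1) := by linarith
  have h2 : (x : ℝ) < (y : ℝ) + 1 := lt_of_mul_lt_mul_left h1 (by positivity)
  have h3 : x < y + 1 := by exact_mod_cast h2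
  omega

/-- Crossing in a rectangle: a path from the left to the right side and a path from the bottom to the top side meet. -/
theorem rect_cross {h v : ℝ → ℂ} (hh : ContinuousOn h (Icc 0 1)) (hv : ContinuousOn v (Icc 0 1))
    (h1 : ∀ t ∈ Icc (0 : ℝ) 1, (h 0).re ≤ (v t).re ∧ (v t).re ≤ (h 1).re)
    (h2 : ∀ s ∈ Icc (0 : ℝ) 1, (v 0).im ≤ (h s).im ∧ (h s).im ≤ (v 1).im) :
    ∃ s ∈ Icc (0 : ℝ) 1, ∃ t ∈ Icc (0 : ℝ) 1, h s = v t := by
  by_contra hcon
  have hne : ∀ s ∈ Icc (0 : ℝ) 1, ∀ t ∈ Icc (0 : ℝ) 1, h s ≠ v t :=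
    fun s hs t ht he => hcon ⟨s, hs, t, ht, he⟩
  have hF : ContinuousOn (fun q : ℝ × ℝ => h q.1 - v q.2) (Icc 0 1 ×ˢ Icc 0 1) :=
    (hh.comp continuousOn_fst (fun q hq => hq.1)).sub (hv.comp continuousOn_snd (fun q hq => hq.2))
  obtain ⟨L, hL, hexp⟩ := exists_log hF (fun q hq => sub_ne_zero.2 (hne _ hq.1 _ hq.2))
  have z0 : (0 : ℝ) ∈ Icc (0 : ℝ) 1 := by simp
  have z1 : (1 : ℝ) ∈ Icc (0 : ℝ) 1 := by simp
  have c1 : ∀ t ∈ Icc (0 : ℝ) 1, ContinuousOn (fun s : ℝ => L (s, t)) (Icc 0 1) := fun t ht =>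
    hL.comp (by fun_prop) (fun s hs => ⟨hs, ht⟩)
  have c2 : ∀ s ∈ Icc (0 : ℝ) 1, ContinuousOn (fun t : ℝ => L (s, t)) (Icc 0 1) := fun s hs =>
    hL.comp (by fun_prop) (fun t ht => ⟨hs, ht⟩)
  have e1 : Complex.exp (-(((Real.pi / 2 : ℝ) : ℂ) * Complex.I)) = -Complex.I := by
    rw [Complex.exp_neg, Complex.exp_mul_I, ← Complex.ofReal_cos, ← Complex.ofReal_sin, Real.cos_pi_div_two,
      Real.sin_pi_div_two]
    simp
  have e2 : Complex.exp (-(((-(Real.pi / 2) : ℝ) : ℂ) * Complex.I)) = Complex.I := by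
    rw [Complex.exp_neg, Complex.exp_mul_I, ← Complex.ofReal_cos, ← Complex.ofReal_sin, Real.cos_neg, Real.sin_neg,
      Real.cos_pi_div_two, Real.sin_pi_div_two]
    simp
  have e3 : Complex.exp (-(((Real.pi : ℝ) : ℂ) * Complex.I)) = -1 := by
    rw [Complex.exp_neg, Complex.exp_pi_mul_I]; norm_num
  have e4 : Complex.exp (-(((0 : ℝ) : ℂ) * Complex.I)) = 1 := by simp
  obtain ⟨k, hk⟩ := im_log isPreconnected_Icc (c1 0 z0) (a := Real.pi / 2) (fun s hs => by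
    have := hexp (s, 0) ⟨hs, z0⟩
    rw [this, e1]
    have h3 := (h2 s hs).1
    simp
    linarith)
  obtain ⟨j, hj⟩ := im_log isPreconnected_Icc (c2 1 z1) (a := 0) (fun t ht => by
    have := hexp (1, t) ⟨z1, ht⟩
    rw [this, e4]
    have h3 := (h1 t ht).2
    simp
    linarith)
  obtain ⟨i, hi⟩ := im_log isPreconnected_Icc (c1 1 z1) (a := -(Real.pi / 2)) (fun s hs => by
    have := hexp (s, 1) ⟨hs, z1⟩
    rw [this, e2]
    have h3 := (h2 s hs).2
    simp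
    linarith)
  obtain ⟨m, hm⟩ := im_log isPreconnected_Icc (c2 0 z0) (a := Real.pi) (fun t ht => by
    have := hexp (0, t) ⟨z0, ht⟩
    rw [this, e3]
    have h3 := (h1 t ht).1
    simp
    linarith)
  have hpi := Real.pi_pos
  have a00 := hk 0 z0
  have b00 := hm 0 z0
  have a10 := hk 1 z1
  have b10 := hj 0 z0
  have a11 := hj 1 z1
  have b11 := hi 1 z1
  have a01 := hi 0 z0
  have b01 := hm 1 z1
  have r1 : k ≤ j := Mib_int (by linarith [a10.1, b10.2])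
  have r2 : j ≤ i := Mib_int (by linarith [a11.1, b11.2])
  have r3 : m + 1 ≤ i := Mib_int (by push_cast; linarith [a01.2, b01.1])
  have r4 : i ≤ j := Mib_int (by linarith [a11.2, b11.1])
  have r5 : j ≤ k := Mib_int (by linarith [a10.2, b10.1])
  have r6 : k ≤ m := Mib_int (by linarith [a00.1, b00.2])
  omega

end DrumL
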