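import Pool.Agent.Lib.MP_d92c84_anF.Hqd
import Pool.Agent.Lib.MP_d92c84_anF.Par

/-!
# Mollification
-/

set_option autoImplicit false

namespace DrumL

open MeasureTheory Set Filter Topology
open scoped ContDiff

/-- The mollified function. -/
private noncomputable def Mol_c (φ : ContDiffBump (0 : ℂ)) (f : ℂ → ℝ) : ℂ → ℝ :=
  convolution (φ.normed volume) f (ContinuousLinearMap.lsmul ℝ ℝ) volume

private theorem Mol_li (φ : ContDiffBump (0 : ℂ)) : LocallyIntegrable (φ.normed (volume : Measure ℂ)) :=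
  φ.continuous_normed.locallyIntegrable

private theorem Mol_smooth (φ : ContDiffBump (0 : ℂ)) {f : ℂ → ℝ} (hf : Continuous f) :
    ContDiff ℝ ∞ (Mol_c φ f) := by
  unfold Mol_c
  exact φ.hasCompactSupport_normed.contDiff_convolution_left (n := ⊤) _ φ.contDiff_normed hf.locallyIntegrable

private theorem Mol_pd (φ : ContDiffBump (0 : ℂ)) {f : ℂ → ℝ} (hf : ContDiff ℝ 1 f) (hs : HasCompactSupport f)
    (v : ℂ) : pd v (Mol_c φ f) = Mol_c φ (pd v f) := by
  funext x
  have h2 := hs.hasFDerivAt_convolution_right (ContinuousLinearMap.lsmul ℝ ℝ) (Mol_li φ) hf x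
  unfold pd Mol_c
  rw [h2.fderiv, convolution_precompR_apply _ (Mol_li φ) (hs.fderiv ℝ) (hf.continuous_fderiv (by norm_num))]

private theorem Mol_bdd (φ : ContDiffBump (0 : ℂ)) {f : ℂ → ℝ} {C : ℝ} (hC : ∀ x, ‖f x‖ ≤ C) (x : ℂ) :
    ‖Mol_c φ f x‖ ≤ C := by
  have h1 : Mol_c φ f x = ∫ t, φ.normed volume t * f (x - t) := rfl
  have h2 : ∀ t, ‖φ.normed volume t * f (x - t)‖ ≤ φ.normed volume t * C := by
    intro t
    rw [norm_mul, Real.norm_of_nonneg (φ.nonneg_normed t)]
    exact mul_le_mul_of_nonneg_left (hC _) (φ.nonneg_normed t)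
  rw [h1]
  refine (norm_integral_le_of_norm_le (φ.integrable_normed.mul_const C) (Eventually.of_forall h2)).trans ?_
  rw [integral_mul_const, φ.integral_normed, one_mul]

open scoped Pointwise in
private theorem Mol_sup (φ : ContDiffBump (0 : ℂ)) {f : ℂ → ℝ} {r : ℝ} (hr : φ.rOut ≤ r) :
    tsupport (Mol_c φ f) ⊆ Metric.cthickening r (tsupport f) := by
  refine closure_minimal ?_ Metric.isClosed_cthickening
  intro x hx
  have h1 : x ∈ Function.support (φ.normed (volume : Measure ℂ)) + Function.support f :=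
    support_convolution_subset (ContinuousLinearMap.lsmul ℝ ℝ) hx
  obtain ⟨t, ht, s, hs, rfl⟩ := h1
  rw [φ.support_normed_eq, mem_ball_zero_iff] at ht
  refine Metric.mem_cthickening_of_dist_le (t + s) s r _ (subset_tsupport f hs) ?_
  rw [dist_eq_norm, add_sub_cancel_right]
  exact (ht.le).trans hr

/-- What is orthogonal to the smooth test functions is orthogonal to the `C¹` functions with compact support. -/
theorem Op.orth_c1 {D : Set ℂ} (hD : IsOpen D) (hb : Bornology.IsBounded D) {a b c : ℂ → ℝ} (h : Op D a b c)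
    {f : ℂ → ℝ} (hf : ContDiff ℝ 1 f) (hs : HasCompactSupport f) (hsD : tsupport f ⊆ D) :
    ∫ x in D, (a x * f x + b x * pd 1 f x + c x * pd Complex.I f x) = 0 := by
  have : IsFiniteMeasure (volume.restrict D) := ⟨by
    rw [Measure.restrict_apply_univ]
    exact hb.measure_lt_top⟩
  have ia : Integrable a (volume.restrict D) := h.mem.integrable (by norm_num)
  have ib : Integrable b (volume.restrict D) := h.mem₁.integrable (by norm_num)
  have ic : Integrable c (volume.restrict D) := h.mem₂.integrable (by norm_num)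
  obtain ⟨δ, hδ, hδD⟩ := hs.isCompact.exists_cthickening_subset_open hD hsD
  have hp : ∀ n : ℕ, 0 < δ / ((n : ℝ) + 2) := fun n => by positivity
  have hp1 : ∀ n : ℕ, δ / ((n : ℝ) + 2) < δ / ((n : ℝ) + 1) := fun n => by
    gcongr
    norm_num
  have hle : ∀ n : ℕ, δ / ((n : ℝ) + 1) ≤ δ := fun n => by
    refine div_le_self hδ.le ?_
    have : (0 : ℝ) ≤ n := Nat.cast_nonneg n
    linarith
  let φ : ℕ → ContDiffBump (0 : ℂ) := fun n => ⟨δ / ((n : ℝ) + 2), δ / ((n : ℝ) + 1), hp n, hp1 n⟩
  have hφ : Tendsto (fun n => (φ n).rOut) atTop (𝓝 0) := by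
    have := (tendsto_one_div_add_atTop_nhds_zero_nat (𝕜 := ℝ)).const_mul δ
    rw [mul_zero] at this
    refine this.congr fun n => ?_
    show δ * (1 / ((n : ℝ) + 1)) = δ / ((n : ℝ) + 1)
    ring
  have hT : ∀ n, Tst D (Mol_c (φ n) f) := by
    intro n
    have h1 : tsupport (Mol_c (φ n) f) ⊆ Metric.cthickening δ (tsupport f) := Mol_sup (φ n) (hle n)
    refine ⟨Mol_smooth (φ n) hf.continuous, ?_, h1.trans hδD⟩
    exact (hs.isCompact.cthickening (r := δ)).of_isClosed_subset (isClosed_tsupport _) h1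
  have c1 := continuous_pd hf 1
  have c2 := continuous_pd hf Complex.I
  obtain ⟨A, hA⟩ := hf.continuous.bounded_above_of_compact_support hs
  obtain ⟨B, hB⟩ := c1.bounded_above_of_compact_support (compact_pd hs 1)
  obtain ⟨C, hC⟩ := c2.bounded_above_of_compact_support (compact_pd hs Complex.I)
  have h0 : ∀ n, ∫ x in D, (a x * Mol_c (φ n) f x + b x * Mol_c (φ n) (pd 1 f) x +
      c x * Mol_c (φ n) (pd Complex.I f) x) = 0 := by
    intro n
    rw [← Mol_pd (φ n) hf hs 1, ← Mol_pd (φ n) hf hs Complex.I]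
    exact h.orth _ (hT n)
  have hlim : Tendsto (fun n => ∫ x in D, (a x * Mol_c (φ n) f x + b x * Mol_c (φ n) (pd 1 f) x +
      c x * Mol_c (φ n) (pd Complex.I f) x)) atTop
      (𝓝 (∫ x in D, (a x * f x + b x * pd 1 f x + c x * pd Complex.I f x))) := by
    refine tendsto_integral_of_dominated_convergence (fun x => ‖a x‖ * A + ‖b x‖ * B + ‖c x‖ * C) ?_ ?_ ?_ ?_
    · intro n
      exact ((ia.aestronglyMeasurable.mul (Mol_smooth (φ n) hf.continuous).continuous.aestronglyMeasurable).add
        (ib.aestronglyMeasurable.mul (Mol_smooth (φ n) c1).continuous.aestronglyMeasurable)).add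
        (ic.aestronglyMeasurable.mul (Mol_smooth (φ n) c2).continuous.aestronglyMeasurable)
    · exact ((ia.norm.mul_const A).add (ib.norm.mul_const B)).add (ic.norm.mul_const C)
    · intro n
      refine Eventually.of_forall fun x => ?_
      refine (norm_add₃_le).trans ?_
      rw [norm_mul, norm_mul, norm_mul]
      exact add_le_add (add_le_add (mul_le_mul_of_nonneg_left (Mol_bdd (φ n) hA x) (norm_nonneg _))
        (mul_le_mul_of_nonneg_left (Mol_bdd (φ n) hB x) (norm_nonneg _)))
        (mul_le_mul_of_nonneg_left (Mol_bdd (φ n) hC x) (norm_nonneg _))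
    · refine Eventually.of_forall fun x => ?_
      have l1 : Tendsto (fun n => Mol_c (φ n) f x) atTop (𝓝 (f x)) :=
        ContDiffBump.convolution_tendsto_right_of_continuous hφ hf.continuous x
      have l2 : Tendsto (fun n => Mol_c (φ n) (pd 1 f) x) atTop (𝓝 (pd 1 f x)) :=
        ContDiffBump.convolution_tendsto_right_of_continuous hφ c1 x
      have l3 : Tendsto (fun n => Mol_c (φ n) (pd Complex.I f) x) atTop (𝓝 (pd Complex.I f x)) :=
        ContDiffBump.convolution_tendsto_right_of_continuous hφ c2 x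
      exact ((l1.const_mul _).add (l2.const_mul _)).add (l3.const_mul _)
  have hz : (fun n => ∫ x in D, (a x * Mol_c (φ n) f x + b x * Mol_c (φ n) (pd 1 f) x +
      c x * Mol_c (φ n) (pd Complex.I f) x)) = fun _ => (0 : ℝ) := funext h0
  rw [hz] at hlim
  exact (tendsto_nhds_unique hlim tendsto_const_nhds)

end DrumL
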