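import Pool.Agent.Lib.MP_d92c84_anF.Eng
import Pool.Agent.Lib.MP_d92c84_anF.Lma
import Pool.Agent.Lib.MP_d92c84_anF.L2c

/-!
# The time averages of a solution tend to zero
-/

set_option autoImplicit false

namespace DrumL

open MeasureTheory Set Filter Topology
open scoped ContDiff

theorem Mza_memLp {D : Set ℂ} (hb : Bornology.IsBounded D) {f : ℂ → ℝ} (hf : ContinuousOn f (closure D)) :
    MemLp f 2 (volume.restrict D) := by
  have hfin : IsFiniteMeasure (volume.restrict D) := ⟨by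
    rw [Measure.restrict_apply_univ]
    exact hb.measure_lt_top⟩
  obtain ⟨C, hC⟩ := hb.isCompact_closure.exists_bound_of_continuousOn hf
  have h1 : MemLp f 2 (volume.restrict (closure D)) := by
    have hfin' : IsFiniteMeasure (volume.restrict (closure D)) := ⟨by
      rw [Measure.restrict_apply_univ]
      exact hb.isCompact_closure.measure_lt_top⟩
    refine MemLp.of_bound (hf.aestronglyMeasurable isClosed_closure.measurableSet) C ?_
    rw [ae_restrict_iff' isClosed_closure.measurableSet]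
    exact Eventually.of_forall hC
  exact h1.mono_measure (Measure.restrict_mono subset_closure le_rfl)

/-- The limit of the averages as a function. -/
theorem Mza_lim {D : Set ℂ} (hD : IsOpen D) (hb : Bornology.IsBounded D) {f : ℂ → ℝ → ℝ}
    (hf : ContinuousOn (fun q : ℂ × ℝ => f q.1 q.2) (closure D ×ˢ univ)) {C : ℝ}
    (hC : ∀ t, ∫ x in D, f x t ^ 2 ≤ C) (𝒰 : Ultrafilter ℝ) (h𝒰 : (𝒰 : Filter ℝ) ≤ atTop) :
    ∃ u : ℂ → ℝ, MemLp u 2 (volume.restrict D) ∧ ∀ φ : ℂ → ℝ, MemLp φ 2 (volume.restrict D) →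
      (Continuous fun t => ∫ x in D, f x t * φ x) ∧
      Tendsto (fun T : ℝ => (1 / T) * ∫ t in (0 : ℝ)..T, ∫ x in D, f x t * φ x) 𝒰 (𝓝 (∫ x in D, u x * φ x)) := by
  have hC0 : 0 ≤ C := (integral_nonneg fun x => sq_nonneg (f x 0)).trans (hC 0)
  obtain ⟨v, hv1, hv2, hv3⟩ := l2curve hD hb hf (C := Real.sqrt C)
    (fun t => by rw [Real.sq_sqrt hC0]; exact hC t) (Real.sqrt_nonneg C)
  obtain ⟨u, hu⟩ := lim_functional 𝒰 h𝒰 hv1 hv3 (w := fun _ => 1) continuous_const (fun _ => by simp)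
  refine ⟨u, Lp.memLp u, fun φ hφ => ?_⟩
  have hae : ∀ g : ℂ → ℝ, ∫ x in D, g x * (hφ.toLp φ) x = ∫ x in D, g x * φ x := fun g =>
    integral_congr_ae (by
      filter_upwards [hφ.coeFn_toLp] with x hx
      rw [hx])
  have h1 : ∀ t, (inner ℝ (v t) (hφ.toLp φ) : ℝ) = ∫ x in D, f x t * φ x := fun t => by
    rw [hv2]
    exact hae fun x => f x t
  have h2 : (inner ℝ u (hφ.toLp φ) : ℝ) = ∫ x in D, u x * φ x := by
    rw [L2.inner_def, ← hae fun x => u x]
    refine integral_congr_ae (Eventually.of_forall fun x => ?_)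
    simp [mul_comm]
  constructor
  · have h3 := hv3 (hφ.toLp φ)
    simpa only [h1] using h3
  · have h3 := hu (hφ.toLp φ)
    rw [h2] at h3
    simpa only [h1, mul_one] using h3

theorem Mza_small {b : ℝ → ℝ} {K : ℝ} (h : ∀ T, |b T| ≤ K) :
    Tendsto (fun T : ℝ => (1 / T) * b T) atTop (𝓝 0) := by
  have h1 : Tendsto (fun T : ℝ => 1 / T) atTop (𝓝 0) := by
    simpa only [one_div] using tendsto_inv_atTop_zero
  refine h1.zero_mul_isBoundedUnder_le ⟨K, ?_⟩
  rw [eventually_map]
  exact Eventually.of_forall fun T => by simpa using h T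

/-- A primitive in the direction of the real axis. -/
theorem Mza_prim {χ : ℂ → ℝ} (hχ : ContDiff ℝ ∞ χ) (hc : HasCompactSupport χ) {A : ℝ} (hA : 0 ≤ A) :
    ContDiff ℝ 1 (fun x : ℂ => ∫ s in (0 : ℝ)..A, χ (x - s)) ∧
      ∀ x, pd 1 (fun x : ℂ => ∫ s in (0 : ℝ)..A, χ (x - s)) x = χ x - χ (x - A) := by
  have hcd : ContDiff ℝ 1 (fun x : ℂ => ∫ s in (0 : ℝ)..A, χ (x - s)) := by
    let μ : Measure ℂ := (volume.restrict (Ioc 0 A)).map (fun s : ℝ => (s : ℂ))
    have hμ : IsFiniteMeasure μ := by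
      have : IsFiniteMeasure (volume.restrict (Ioc 0 A) : Measure ℝ) := ⟨by
        rw [Measure.restrict_apply_univ]
        simp⟩
      exact Measure.isFiniteMeasure_map _ _
    have h1 := hc.contDiff_convolution_right (𝕜 := ℝ) (μ := μ) (n := 1) (ContinuousLinearMap.lsmul ℝ ℝ)
      (f := fun _ : ℂ => (1 : ℝ)) (locallyIntegrable_const 1) (hχ.of_le (by exact_mod_cast le_top))
    have h2 : (fun x : ℂ => ∫ s in (0 : ℝ)..A, χ (x - s)) =
        convolution (fun _ : ℂ => (1 : ℝ)) χ (ContinuousLinearMap.lsmul ℝ ℝ) μ := by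
      funext x
      rw [convolution, integral_map (by fun_prop) (by
        exact (Continuous.aestronglyMeasurable (by fun_prop (disch := exact hχ.continuous)))),
        intervalIntegral.integral_of_le hA]
      simp
    rw [h2]
    exact_mod_cast h1
  refine ⟨hcd, fun x => ?_⟩
  have hd : HasDerivAt (fun r : ℝ => ∫ s in (0 : ℝ)..A, χ (x + r - s))
      (pd 1 (fun x : ℂ => ∫ s in (0 : ℝ)..A, χ (x - s)) x) 0 := by
    have h1 := ((hcd.differentiable (by norm_num)) x).hasFDerivAt
    have h2 : HasDerivAt (fun r : ℝ => x + (r : ℂ)) 1 0 := by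
      have := (Complex.ofRealCLM.hasDerivAt (x := 0)).const_add x
      simpa using this
    have h3 := HasFDerivAt.comp_hasDerivAt (f := fun r : ℝ => x + (r : ℂ)) 0 (by simpa using h1) h2
    exact h3
  have hg : Continuous fun y : ℝ => χ (x + y) := hχ.continuous.comp (by fun_prop)
  have hP : ∀ r : ℝ, HasDerivAt (fun r : ℝ => ∫ y in (0 : ℝ)..r, χ (x + y)) (χ (x + r)) r := fun r =>
    intervalIntegral.integral_hasDerivAt_right (hg.intervalIntegrable _ _)
      (hg.stronglyMeasurableAtFilter _ _) hg.continuousAt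
  have h4 : (fun r : ℝ => ∫ s in (0 : ℝ)..A, χ (x + r - s)) =
      fun r => (∫ y in (0 : ℝ)..r, χ (x + y)) - ∫ y in (0 : ℝ)..(r - A), χ (x + y) := by
    funext r
    have h5 := intervalIntegral.integral_comp_sub_left (a := 0) (b := A) (fun y : ℝ => χ (x + y)) r
    rw [intervalIntegral.integral_interval_sub_left (hg.intervalIntegrable _ _) (hg.intervalIntegrable _ _)]
    rw [sub_zero] at h5
    rw [← h5]
    refine intervalIntegral.integral_congr fun s _ => ?_
    simp only [Complex.ofReal_sub]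
    congr 1
    ring
  rw [h4] at hd
  have h6 : HasDerivAt (fun r : ℝ => (∫ y in (0 : ℝ)..r, χ (x + y)) - ∫ y in (0 : ℝ)..(r - A), χ (x + y))
      (χ x - χ (x - A)) 0 := by
    have h7 := hP 0
    have h8 : HasDerivAt (fun r : ℝ => ∫ y in (0 : ℝ)..(r - A), χ (x + y)) (χ (x + ((0 - A : ℝ) : ℂ))) 0 :=
      HasDerivAt.comp_sub_const 0 A (hP (0 - A))
    have e : χ x - χ (x - A) = χ (x + ((0 : ℝ) : ℂ)) - χ (x + ((0 - A : ℝ) : ℂ)) := by
      simp [sub_eq_add_neg]
    rw [e]
    exact h7.sub h8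
  exact hd.unique h6

theorem Mza_fderiv_le (L : ℂ →L[ℝ] ℝ) : ‖L‖ ≤ |L 1| + |L Complex.I| := by
  refine L.opNorm_le_bound (by positivity) fun v => ?_
  have h1 : L v = v.re * L 1 + v.im * L Complex.I := by
    have h2 : v = v.re • (1 : ℂ) + v.im • Complex.I := by
      simp [Complex.re_add_im]
    conv_lhs => rw [h2]
    rw [map_add, map_smul, map_smul, smul_eq_mul, smul_eq_mul]
  rw [h1, Real.norm_eq_abs]
  calc |v.re * L 1 + v.im * L Complex.I| ≤ |v.re * L 1| + |v.im * L Complex.I| := abs_add_le _ _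
    _ = |v.re| * |L 1| + |v.im| * |L Complex.I| := by rw [abs_mul, abs_mul]
    _ ≤ ‖v‖ * |L 1| + ‖v‖ * |L Complex.I| := by
        gcongr
        · exact Complex.abs_re_le_norm v
        · exact Complex.abs_im_le_norm v
    _ = (|L 1| + |L Complex.I|) * ‖v‖ := by ring

/-- The time averages of a solution tend weakly to zero. -/
theorem WS.avg_zero {c : ℝ} {D : Set ℂ} {Z : ℕ → ℂ → ℝ → ℝ} {G : ℕ → ℂ → ℝ → ℂ} (hD : IsOpen D)
    (hb : Bornology.IsBounded D) (hc : 0 < c) (h : WS c D Z G) {ψ : ℂ → ℝ} (hψ : MemLp ψ 2 (volume.restrict D)) :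
    Tendsto (fun T : ℝ => (1 / T) * ∫ t in (0 : ℝ)..T, ∫ x in D, Z 0 x t * ψ x) atTop (𝓝 0) := by
  rw [tendsto_iff_ultrafilter]
  intro 𝒰 h𝒰
  obtain ⟨C, hC⟩ := h.bound hD hb hc
  have hfin : IsFiniteMeasure (volume.restrict D) := ⟨by
    rw [Measure.restrict_apply_univ]
    exact hb.measure_lt_top⟩
  have hGr : ∀ k, ContinuousOn (fun q : ℂ × ℝ => (G k q.1 q.2).re) (closure D ×ˢ univ) := fun k =>
    Complex.continuous_re.comp_continuousOn (h.contG k)
  have hGi : ∀ k, ContinuousOn (fun q : ℂ × ℝ => (G k q.1 q.2).im) (closure D ×ˢ univ) := fun k =>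
    Complex.continuous_im.comp_continuousOn (h.contG k)
  have hslr : ∀ s, ContinuousOn (fun x => (G 0 x s).re) (closure D) := fun s =>
    slice (h := fun x t => (G 0 x t).re) (hGr 0) s
  have hsli : ∀ s, ContinuousOn (fun x => (G 0 x s).im) (closure D) := fun s =>
    slice (h := fun x t => (G 0 x t).im) (hGi 0) s
  have hnG : ∀ t, IntegrableOn (fun x => ‖G 0 x t‖ ^ 2) D := fun t =>
    intOn hb ((slice (h.contG 0) t).norm.pow 2)
  have hre : ∀ t, ∫ x in D, (G 0 x t).re ^ 2 ≤ C := fun t => by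
    refine le_trans (integral_mono_of_nonneg (Eventually.of_forall fun x => sq_nonneg _) (hnG t)
      (Eventually.of_forall fun x => ?_)) (hC t).2.2
    have h1 := Complex.sq_norm (G 0 x t)
    rw [Complex.normSq_apply] at h1
    simp only
    nlinarith [mul_self_nonneg (G 0 x t).im]
  have him : ∀ t, ∫ x in D, (G 0 x t).im ^ 2 ≤ C := fun t => by
    refine le_trans (integral_mono_of_nonneg (Eventually.of_forall fun x => sq_nonneg _) (hnG t)
      (Eventually.of_forall fun x => ?_)) (hC t).2.2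
    have h1 := Complex.sq_norm (G 0 x t)
    rw [Complex.normSq_apply] at h1
    simp only
    nlinarith [mul_self_nonneg (G 0 x t).re]
  obtain ⟨u, hu, huL⟩ := Mza_lim hD hb (h.cont 0) (fun t => (hC t).1) 𝒰 h𝒰
  obtain ⟨g₁, hg₁, hg₁L⟩ := Mza_lim hD hb (f := fun x t => (G 0 x t).re) (hGr 0) hre 𝒰 h𝒰
  obtain ⟨g₂, hg₂, hg₂L⟩ := Mza_lim hD hb (f := fun x t => (G 0 x t).im) (hGi 0) him 𝒰 h𝒰
  have hmr : ∀ s, MemLp (fun x => (G 0 x s).re) 2 (volume.restrict D) := fun s =>
    Mza_memLp hb (hslr s)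
  have hmi : ∀ s, MemLp (fun x => (G 0 x s).im) 2 (volume.restrict D) := fun s =>
    Mza_memLp hb (hsli s)
  -- first step
  have hE : ∀ s, (∫ x in D, g₁ x * (G 0 x s).re) + ∫ x in D, g₂ x * (G 0 x s).im = 0 := by
    intro s
    obtain ⟨c1, l1⟩ := hg₁L _ (hmr s)
    obtain ⟨c2, l2⟩ := hg₂L _ (hmi s)
    have h1 := l1.add l2
    refine tendsto_nhds_unique h1 ?_
    refine Tendsto.mono_left ?_ h𝒰
    have hd : ∀ t, HasDerivAt (fun t => ∫ x in D, Z 0 x s * Z 1 x t) (∫ x in D, Z 0 x s * Z 2 x t) t := fun t =>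
      hasDerivAt_intD hb hD.measurableSet
        (((slice (h.cont 0) s).comp continuousOn_fst (fun q hq => hq.1)).mul (h.cont 1))
        (((slice (h.cont 0) s).comp continuousOn_fst (fun q hq => hq.1)).mul (h.cont 2))
        (fun x hx t => (h.dt 1 x (subset_closure hx) t).const_mul _) t
    have hd2 : ∀ t, HasDerivAt (fun t => ∫ x in D, Z 0 x s * Z 2 x t) (∫ x in D, Z 0 x s * Z 3 x t) t := fun t =>
      hasDerivAt_intD hb hD.measurableSet
        (((slice (h.cont 0) s).comp continuousOn_fst (fun q hq => hq.1)).mul (h.cont 2))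
        (((slice (h.cont 0) s).comp continuousOn_fst (fun q hq => hq.1)).mul (h.cont 3))
        (fun x hx t => (h.dt 2 x (subset_closure hx) t).const_mul _) t
    have hcont : Continuous fun t => ∫ x in D, Z 0 x s * Z 2 x t :=
      continuous_iff_continuousAt.2 fun t => (hd2 t).continuousAt
    have hFTC : ∀ T : ℝ, ∫ t in (0 : ℝ)..T, ∫ x in D, Z 0 x s * Z 2 x t =
        (∫ x in D, Z 0 x s * Z 1 x T) - ∫ x in D, Z 0 x s * Z 1 x 0 := fun T =>
      intervalIntegral.integral_eq_sub_of_hasDerivAt (fun t _ => hd t) (hcont.intervalIntegrable _ _)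
    have hbd : ∀ t, |∫ x in D, Z 0 x s * Z 1 x t| ≤ C := by
      intro t
      have hi0 : IntegrableOn (fun x => Z 0 x s ^ 2) D := intOn hb ((slice (h.cont 0) s).pow 2)
      have hi1 : IntegrableOn (fun x => Z 1 x t ^ 2) D := intOn hb ((slice (h.cont 1) t).pow 2)
      calc |∫ x in D, Z 0 x s * Z 1 x t| ≤ ∫ x in D, |Z 0 x s * Z 1 x t| := abs_integral_le_integral_abs
        _ ≤ ∫ x in D, (1 / 2 * (Z 0 x s ^ 2) + 1 / 2 * (Z 1 x t ^ 2)) := by
            refine integral_mono_of_nonneg (Eventually.of_forall fun x => abs_nonneg _)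
              ((hi0.const_mul _).add (hi1.const_mul _)) (Eventually.of_forall fun x => ?_)
            simp only
            rw [abs_mul]
            nlinarith [sq_nonneg (|Z 0 x s| - |Z 1 x t|), sq_abs (Z 0 x s), sq_abs (Z 1 x t)]
        _ = 1 / 2 * (∫ x in D, Z 0 x s ^ 2) + 1 / 2 * ∫ x in D, Z 1 x t ^ 2 := by
            rw [integral_add (hi0.const_mul _) (hi1.const_mul _), integral_const_mul, integral_const_mul]
        _ ≤ C := by linarith [(hC s).1, (hC t).2.1]
    have hkey : ∀ t, (∫ x in D, (G 0 x t).re * (G 0 x s).re) + ∫ x in D, (G 0 x t).im * (G 0 x s).im =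
        -(1 / c ^ 2) * ∫ x in D, Z 0 x s * Z 2 x t := by
      intro t
      have hg := h.green hD hb hc 0 0 s t
      have ha : (∫ x in D, ((G 0 x t).re * (G 0 x s).re + (G 0 x t).im * (G 0 x s).im)) =
          (∫ x in D, (G 0 x t).re * (G 0 x s).re) + ∫ x in D, (G 0 x t).im * (G 0 x s).im :=
        integral_add (intOn hb ((hslr t).mul (hslr s))) (intOn hb ((hsli t).mul (hsli s)))
      rw [← ha]
      rw [zero_add] at hg
      rw [hg]
      have hc2 : c ^ 2 ≠ 0 := by positivity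
      have h3 : ∫ x in D, ((G 0 x t).re * (G 0 x s).re + (G 0 x t).im * (G 0 x s).im) =
          ∫ x in D, ((G 0 x s).re * (G 0 x t).re + (G 0 x s).im * (G 0 x t).im) :=
        integral_congr_ae (Eventually.of_forall fun x => by ring)
      rw [h3]
      field_simp
    have hsum : ∀ T : ℝ, (1 / T) * (∫ t in (0 : ℝ)..T, ∫ x in D, (G 0 x t).re * (G 0 x s).re) +
        (1 / T) * (∫ t in (0 : ℝ)..T, ∫ x in D, (G 0 x t).im * (G 0 x s).im) =
        (1 / T) * (-(1 / c ^ 2) * ((∫ x in D, Z 0 x s * Z 1 x T) - ∫ x in D, Z 0 x s * Z 1 x 0)) := by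
      intro T
      rw [← mul_add, ← intervalIntegral.integral_add (c1.intervalIntegrable _ _) (c2.intervalIntegrable _ _)]
      simp only [hkey]
      rw [intervalIntegral.integral_const_mul, hFTC]
    simp only [hsum]
    refine Mza_small (K := 1 / c ^ 2 * (C + C)) fun T => ?_
    rw [abs_mul, abs_neg, abs_of_nonneg (by positivity : 0 ≤ 1 / c ^ 2)]
    refine mul_le_mul_of_nonneg_left ?_ (by positivity)
    exact (abs_sub _ _).trans (add_le_add (hbd T) (hbd 0))
  -- second step
  have hg0 : (∫ x in D, g₁ x * g₁ x) + ∫ x in D, g₂ x * g₂ x = 0 := by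
    obtain ⟨c1, l1⟩ := hg₁L _ hg₁
    obtain ⟨c2, l2⟩ := hg₂L _ hg₂
    refine tendsto_nhds_unique (l1.add l2) ?_
    have hsum : ∀ T : ℝ, (1 / T) * (∫ t in (0 : ℝ)..T, ∫ x in D, (G 0 x t).re * g₁ x) +
        (1 / T) * (∫ t in (0 : ℝ)..T, ∫ x in D, (G 0 x t).im * g₂ x) = 0 := by
      intro T
      rw [← mul_add, ← intervalIntegral.integral_add (c1.intervalIntegrable _ _) (c2.intervalIntegrable _ _)]
      have h1 : ∀ t, (∫ x in D, (G 0 x t).re * g₁ x) + ∫ x in D, (G 0 x t).im * g₂ x = 0 := fun t => by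
        rw [← hE t]
        congr 1
        · exact integral_congr_ae (Eventually.of_forall fun x => mul_comm _ _)
        · exact integral_congr_ae (Eventually.of_forall fun x => mul_comm _ _)
      simp only [h1]
      simp
    simp only [hsum]
    exact tendsto_const_nhds
  have hi1 : Integrable (fun x => g₁ x * g₁ x) (volume.restrict D) := hg₁.integrable_mul hg₁
  have hp1 : 0 ≤ ∫ x in D, g₁ x * g₁ x := integral_nonneg fun x => mul_self_nonneg _
  have hp2 : 0 ≤ ∫ x in D, g₂ x * g₂ x := integral_nonneg fun x => mul_self_nonneg _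
  have hg1z : g₁ =ᵐ[volume.restrict D] 0 := by
    have h1 : ∫ x in D, g₁ x * g₁ x = 0 := by linarith
    rw [integral_eq_zero_iff_of_nonneg (fun x => mul_self_nonneg _) hi1] at h1
    filter_upwards [h1] with x hx
    exact mul_self_eq_zero.1 hx
  -- third step
  have hu1 : ∀ φ : ℂ → ℝ, ContDiff ℝ 1 φ → ∫ x in D, u x * pd 1 φ x = 0 := by
    intro φ hφ
    have hφm : MemLp φ 2 (volume.restrict D) := Mza_memLp hb hφ.continuous.continuousOn
    have hpm : MemLp (pd 1 φ) 2 (volume.restrict D) := Mza_memLp hb (continuous_pd hφ 1).continuousOn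
    obtain ⟨-, l1⟩ := huL _ hpm
    obtain ⟨-, l2⟩ := hg₁L _ hφm
    have h1 : ∀ t, ∫ x in D, Z 0 x t * pd 1 φ x = -∫ x in D, (G 0 x t).re * φ x := by
      intro t
      obtain ⟨M, hM⟩ := hb.isCompact_closure.exists_bound_of_continuousOn (slice (h.contG 0) t)
      have h2 := (green_test hD hb (ψ := fun x => Z 0 x t) (slice (h.cont 0) t) ((h.c2 0 t).of_le (by norm_num))
        (fun x hx => h.bdry 0 x hx t) (C := M + M) (fun x hx => ?_) hφ).1
      · rw [h2]
        congr 1
        exact setIntegral_congr_fun hD.measurableSet fun x hx => by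
          rw [(h.grad 0 x hx t).1]
      · have h3 := Mza_fderiv_le (fderiv ℝ (fun x => Z 0 x t) x)
        have h4 := h.grad 0 x hx t
        unfold pd at h4
        rw [h4.1, h4.2] at h3
        have h5 := hM x (subset_closure hx)
        linarith [Complex.abs_re_le_norm (G 0 x t), Complex.abs_im_le_norm (G 0 x t)]
    have h2 : ∀ T : ℝ, (1 / T) * (∫ t in (0 : ℝ)..T, ∫ x in D, Z 0 x t * pd 1 φ x) =
        -((1 / T) * ∫ t in (0 : ℝ)..T, ∫ x in D, (G 0 x t).re * φ x) := fun T => by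
      simp only [h1]
      rw [intervalIntegral.integral_neg, mul_neg]
    simp only [h2] at l1
    have h3 := tendsto_nhds_unique l1 l2.neg
    rw [h3, neg_eq_zero]
    have h4 : ∫ x in D, g₁ x * φ x = ∫ x in D, 0 := integral_congr_ae (by
      filter_upwards [hg1z] with x hx
      rw [hx]
      simp)
    rw [h4, integral_zero]
  have huz : ∀ᵐ x ∂(volume : Measure ℂ), x ∈ D → u x = 0 := by
    have hui : IntegrableOn u D := hu.integrable (by norm_num)
    refine hD.ae_eq_zero_of_integral_contDiff_smul_eq_zero hui.locallyIntegrableOn fun χ hχ hχc hχD => ?_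
    obtain ⟨R, hR⟩ := hb.subset_closedBall (0 : ℂ)
    have hR0 : 0 ≤ |R| := abs_nonneg R
    obtain ⟨hcd, hpd⟩ := Mza_prim hχ hχc (A := 2 * |R| + 1) (by linarith)
    have h1 := hu1 _ hcd
    have h2 : ∫ x in D, u x * pd 1 (fun x : ℂ => ∫ s in (0 : ℝ)..(2 * |R| + 1), χ (x - s)) x =
        ∫ x in D, u x * χ x := by
      refine setIntegral_congr_fun hD.measurableSet fun x hx => ?_
      rw [hpd x]
      have h3 : χ (x - ((2 * |R| + 1 : ℝ) : ℂ)) = 0 := by
        refine image_eq_zero_of_notMem_tsupport fun h4 => ?_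
        have h5 := hR (hχD h4)
        have h6 := hR hx
        rw [mem_closedBall_zero_iff] at h5 h6
        have h7 : ‖((2 * |R| + 1 : ℝ) : ℂ)‖ ≤ ‖x‖ + ‖x - ((2 * |R| + 1 : ℝ) : ℂ)‖ := by
          have := norm_sub_le x (x - ((2 * |R| + 1 : ℝ) : ℂ))
          rwa [sub_sub_cancel] at this
        rw [Complex.norm_real, Real.norm_of_nonneg (by linarith)] at h7
        linarith [le_abs_self R]
      rw [h3, sub_zero]
    rw [h2] at h1
    have h4 : ∫ x, χ x • u x = ∫ x in D, u x * χ x := by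
      rw [← setIntegral_eq_integral_of_forall_compl_eq_zero (s := D)]
      · exact integral_congr_ae (Eventually.of_forall fun x => by simp [mul_comm])
      · intro x hx
        rw [image_eq_zero_of_notMem_tsupport fun h5 => hx (hχD h5), zero_smul]
    rw [h4, h1]
  have hfinal := (huL _ hψ).2
  have h5 : ∫ x in D, u x * ψ x = 0 := by
    have h6 : ∫ x in D, u x * ψ x = ∫ x in D, 0 := integral_congr_ae (by
      rw [← ae_restrict_iff' hD.measurableSet] at huz
      filter_upwards [huz] with x hx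
      rw [hx, zero_mul])
    rw [h6, integral_zero]
  rwa [h5] at hfinal

end DrumL
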