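import Pool.Agent.Lib.MP_d92c84_anF.Or1

/-!
# Orthogonality relations for different eigenvalues
-/

set_option autoImplicit false

namespace DrumL

open MeasureTheory Set Filter Topology
open scoped ContDiff

private theorem Or2_int {D A : Set ℂ} (hb : Bornology.IsBounded D) (hA : closure A ⊆ D) {f : ℂ → ℝ}
    (hf : ContinuousOn f D) : IntegrableOn f A :=
  intOn (hb.subset (subset_closure.trans hA)) (hf.mono hA)

private theorem Or2_green {l : ℝ} {D A : Set ℂ} (hD : IsOpen D) (hb : Bornology.IsBounded D) {f g : ℂ → ℝ}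
    (h : Pz D A f) (hg : Hz l D g) :
    ∫ x in A, (pd 1 f x * pd 1 g x + pd Complex.I f x * pd Complex.I g x) = l * ∫ x in A, f x * g x := by
  have h1 := Pz.green hD hb h hg.smooth 0
  have h2 : ∫ x in A, (pd 1 f x * pd 1 g x + pd Complex.I f x * pd Complex.I g x) =
      ∫ x in A, (pd 1 f x * pd 1 g x + pd Complex.I f x * pd Complex.I g x - 0 * (f x * g x)) := by
    refine setIntegral_congr_fun h.isOpen.measurableSet fun x _ => ?_
    ring
  rw [h2, h1, ← integral_const_mul, ← integral_neg]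
  refine setIntegral_congr_fun h.isOpen.measurableSet fun x hx => ?_
  have h3 := hg.eq x (h.sub (subset_closure hx))
  show -(f x * (lap g x + 0 * g x)) = l * (f x * g x)
  rw [h3]
  ring

private theorem Or2_sub {D A : Set ℂ} (hb : Bornology.IsBounded D) (hA : closure A ⊆ D)
    {f g : ℂ → ℝ} (hf : ContinuousOn f D) (hg : ContinuousOn g D) (c : ℝ) (h0 : ∫ x in A, g x = 0) :
    ∫ x in A, (f x - c) * g x = ∫ x in A, f x * g x := by
  have h1 : IntegrableOn (fun x => f x * g x) A := Or2_int hb hA (hf.mul hg)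
  have h2 : IntegrableOn (fun x => c * g x) A := Or2_int hb hA (continuousOn_const.mul hg)
  have h3 : ∫ x in A, (f x - c) * g x = ∫ x in A, (f x * g x - c * g x) := by
    congr 1
    funext x
    ring
  rw [h3, integral_sub h1 h2, integral_const_mul, h0, mul_zero, sub_zero]

private theorem Or2_pd (v : ℂ → ℝ) (c : ℝ) (w x : ℂ) : pd w (fun y => v y - c) x = pd w v x := by
  unfold pd
  rw [fderiv_sub_const]

/-- Orthogonality for different eigenvalues. -/
theorem Sc.orth {l l' c c' : ℝ} (hl : 0 < l) (hl' : 0 < l') (hll : l ≠ l') {D A : Set ℂ} (hD : IsOpen D)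
    (hb : Bornology.IsBounded D) {v v' : ℂ → ℝ} (h : Sc l c D A v) (h' : Sc l' c' D A v') :
    ∫ x in A, v x * v' x = 0 := by
  have e1 := Or2_green hD hb h.pzv h'.hz
  have e2 := Or2_green hD hb h'.pzv h.hz
  rw [Or2_sub hb h.sub h.hz.smooth.continuousOn h'.hz.smooth.continuousOn c (h'.mean hl' hD hb)] at e1
  rw [Or2_sub hb h.sub h'.hz.smooth.continuousOn h.hz.smooth.continuousOn c' (h.mean hl hD hb)] at e2
  simp only [Or2_pd] at e1 e2
  have e3 : ∫ x in A, (pd 1 v' x * pd 1 v x + pd Complex.I v' x * pd Complex.I v x) =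
      ∫ x in A, (pd 1 v x * pd 1 v' x + pd Complex.I v x * pd Complex.I v' x) := by
    congr 1
    funext x
    ring
  have e4 : ∫ x in A, v' x * v x = ∫ x in A, v x * v' x := by
    congr 1
    funext x
    ring
  rw [e3, e1, e4] at e2
  have e5 : (l' - l) * ∫ x in A, v x * v' x = 0 := by linarith
  rcases mul_eq_zero.1 e5 with h6 | h6
  · exact absurd (by linarith) hll
  · exact h6

/-- Orthogonality of a function and of a Killing derivative for different eigenvalues. -/
theorem Sc.orth_kd {l l' c c' : ℝ} (hl : 0 < l) (hl' : 0 < l') (hll : l ≠ l') {D A : Set ℂ} (hD : IsOpen D)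
    (hb : Bornology.IsBounded D) {v v' : ℂ → ℝ} (h : Sc l c D A v) (h' : Sc l' c' D A v') (hc' : c' ≠ 0)
    (α : ℂ) (β : ℝ) : ∫ x in A, v x * kd α β v' x = 0 := by
  have e1 := Or2_green hD hb h.pzv (hz_kd hD h'.hz α β)
  have e2 := Or2_green hD hb (h'.pzkd hD α β) h.hz
  rw [Or2_sub hb h.sub h.hz.smooth.continuousOn (hz_kd hD h'.hz α β).smooth.continuousOn c
    (h'.mean_kd hl' hD hb hc' α β)] at e1
  simp only [Or2_pd] at e1
  have e3 : ∫ x in A, (pd 1 (kd α β v') x * pd 1 v x + pd Complex.I (kd α β v') x * pd Complex.I v x) =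
      ∫ x in A, (pd 1 v x * pd 1 (kd α β v') x + pd Complex.I v x * pd Complex.I (kd α β v') x) := by
    congr 1
    funext x
    ring
  have e4 : ∫ x in A, kd α β v' x * v x = ∫ x in A, v x * kd α β v' x := by
    congr 1
    funext x
    ring
  rw [e3, e1, e4] at e2
  have e5 : (l' - l) * ∫ x in A, v x * kd α β v' x = 0 := by linarith
  rcases mul_eq_zero.1 e5 with h6 | h6
  · exact absurd (by linarith) hll
  · exact h6

/-- Orthogonality of Killing derivatives for different eigenvalues. -/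
theorem Sc.kd_kd {l l' c c' : ℝ} (hll : l ≠ l') {D A : Set ℂ} (hD : IsOpen D)
    (hb : Bornology.IsBounded D) {v v' : ℂ → ℝ} (h : Sc l c D A v) (h' : Sc l' c' D A v')
    (α α' : ℂ) (β β' : ℝ) : ∫ x in A, kd α β v x * kd α' β' v' x = 0 := by
  have e1 := Or2_green hD hb (h.pzkd hD α β) (hz_kd hD h'.hz α' β')
  have e2 := Or2_green hD hb (h'.pzkd hD α' β') (hz_kd hD h.hz α β)
  have e3 : ∫ x in A, (pd 1 (kd α' β' v') x * pd 1 (kd α β v) x +
        pd Complex.I (kd α' β' v') x * pd Complex.I (kd α β v) x) =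
      ∫ x in A, (pd 1 (kd α β v) x * pd 1 (kd α' β' v') x +
        pd Complex.I (kd α β v) x * pd Complex.I (kd α' β' v') x) := by
    congr 1
    funext x
    ring
  have e4 : ∫ x in A, kd α' β' v' x * kd α β v x = ∫ x in A, kd α β v x * kd α' β' v' x := by
    congr 1
    funext x
    ring
  rw [e3, e1, e4] at e2
  have e5 : (l' - l) * ∫ x in A, kd α β v x * kd α' β' v' x = 0 := by linarith
  rcases mul_eq_zero.1 e5 with h6 | h6
  · exact absurd (by linarith) hll
  · exact h6

end DrumL
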