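import Pool.Agent.Lib.MP_d92c84_anF.Vpt
import Pool.Agent.Lib.MP_d92c84_anF.Bst
import Pool.Agent.Lib.MP_d92c84_anF.Or2

/-!
# The inner part of the form of the total function
-/

set_option autoImplicit false

namespace DrumL

open MeasureTheory Set Filter Topology
open scoped ContDiff

/-- Integral of a product of two functions minus constants, when the means are zero. -/
private theorem Ng1_two {μ : Measure ℂ} [IsFiniteMeasure μ] {f g : ℂ → ℝ} (hf : Integrable f μ) (hg : Integrable g μ)
    (hfg : Integrable (fun x => f x * g x) μ) (hf0 : ∫ x, f x ∂μ = 0) (hg0 : ∫ x, g x ∂μ = 0) (c d : ℝ) :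
    ∫ x, (f x - c) * (g x - d) ∂μ = (∫ x, f x * g x ∂μ) + c * d * μ.real univ := by
  have e : ∀ x, (f x - c) * (g x - d) = f x * g x + (-d * f x + (-c * g x + c * d)) := fun x => by ring
  have h1 : Integrable (fun x => -d * f x) μ := hf.const_mul _
  have h2 : Integrable (fun x => -c * g x) μ := hg.const_mul _
  have h3 : Integrable (fun x => -c * g x + c * d) μ := h2.add (integrable_const _)
  have h4 : Integrable (fun x => -d * f x + (-c * g x + c * d)) μ := h1.add h3
  simp only [e]
  rw [integral_add hfg h4, integral_add h1 h3, integral_add h2 (integrable_const _), integral_const_mul,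
    integral_const_mul, hf0, hg0, integral_const, smul_eq_mul]
  ring

/-- Integral of a product of two combinations. -/
private theorem Ng1_gs {n : ℕ} {A : Set ℂ} {v k : Fin n → ℂ → ℝ}
    (i1 : ∀ i j, IntegrableOn (fun x => v i x * v j x) A) (i2 : ∀ i j, IntegrableOn (fun x => v i x * k j x) A)
    (i3 : ∀ i j, IntegrableOn (fun x => k i x * k j x) A) (o1 : ∀ i j, i ≠ j → ∫ x in A, v i x * v j x = 0)
    (o2 : ∀ i j, i ≠ j → ∫ x in A, v i x * k j x = 0) (o3 : ∀ i j, i ≠ j → ∫ x in A, k i x * k j x = 0)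
    (p q r s : Fin n → ℝ) :
    ∫ x in A, (∑ i, (p i * v i x + q i * k i x)) * (∑ i, (r i * v i x + s i * k i x)) =
      ∑ i, (p i * r i * (∫ x in A, v i x * v i x) + (p i * s i + q i * r i) * (∫ x in A, v i x * k i x) +
        q i * s i * ∫ x in A, k i x * k i x) := by
  have i2' : ∀ i j, IntegrableOn (fun x => k i x * v j x) A := fun i j => by
    have h1 := i2 j i
    simpa only [mul_comm] using h1
  have c2 : ∀ i j, ∫ x in A, k i x * v j x = ∫ x in A, v j x * k i x := fun i j => by
    simp only [mul_comm]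
  have ii : ∀ i j, IntegrableOn (fun x => (p i * v i x + q i * k i x) * (r j * v j x + s j * k j x)) A ∧
      ∫ x in A, (p i * v i x + q i * k i x) * (r j * v j x + s j * k j x) =
        p i * r j * (∫ x in A, v i x * v j x) + p i * s j * (∫ x in A, v i x * k j x) +
          (q i * r j * (∫ x in A, v j x * k i x) + q i * s j * (∫ x in A, k i x * k j x)) := by
    intro i j
    have e : (fun x => (p i * v i x + q i * k i x) * (r j * v j x + s j * k j x)) = fun x =>
        (p i * r j * (v i x * v j x) + p i * s j * (v i x * k j x)) +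
          (q i * r j * (k i x * v j x) + q i * s j * (k i x * k j x)) := by
      funext x
      ring
    have h1 : IntegrableOn (fun x => p i * r j * (v i x * v j x)) A := (i1 i j).const_mul _
    have h2 : IntegrableOn (fun x => p i * s j * (v i x * k j x)) A := (i2 i j).const_mul _
    have h3 : IntegrableOn (fun x => q i * r j * (k i x * v j x)) A := (i2' i j).const_mul _
    have h4 : IntegrableOn (fun x => q i * s j * (k i x * k j x)) A := (i3 i j).const_mul _
    have h5 : IntegrableOn (fun x => p i * r j * (v i x * v j x) + p i * s j * (v i x * k j x)) A := h1.add h2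
    have h6 : IntegrableOn (fun x => q i * r j * (k i x * v j x) + q i * s j * (k i x * k j x)) A := h3.add h4
    rw [e]
    refine ⟨h5.add h6, ?_⟩
    rw [integral_add h5 h6, integral_add h1 h2, integral_add h3 h4, integral_const_mul, integral_const_mul,
      integral_const_mul, integral_const_mul, c2]
  have h0 : ∀ i j, i ≠ j → ∫ x in A, (p i * v i x + q i * k i x) * (r j * v j x + s j * k j x) = 0 := by
    intro i j hij
    rw [(ii i j).2, o1 i j hij, o2 i j hij, o3 i j hij, o2 j i (Ne.symm hij)]
    ring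
  rw [int_sum_mul (μ := volume.restrict A) (f := fun i x => p i * v i x + q i * k i x)
    (g := fun i x => r i * v i x + s i * k i x) (fun i j => (ii i j).1) h0]
  refine Finset.sum_congr rfl fun i _ => ?_
  rw [(ii i i).2]
  ring

/-- The inner part: the quantity that the form of the total function is compared with. -/
theorem inner_part {m : ℕ} {l c : Fin (m + 1) → ℝ} (hl : ∀ i, 0 < l i) (hlm : StrictMono l) {D A : Set ℂ}
    (hD : IsOpen D) (hb : Bornology.IsBounded D) {v : Fin (m + 1) → ℂ → ℝ} (hv : ∀ i, Sc (l i) (c i) D A (v i))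
    (hc : ∀ i, c i ≠ 0) (a e : Fin (m + 1) → ℝ) (α : Fin (m + 1) → ℂ) (γ : Fin (m + 1) → ℝ) {L : ℝ}
    (hL : L = l (Fin.last m)) :
    ∫ x in A, (∑ i, ((a i + e i) * v i x + kd (α i) (γ i) (v i) x)) *
        (∑ i, (L - l i) * ((a i + e i) * v i x + kd (α i) (γ i) (v i) x)) ≤
      (∫ x in A, cP c v a α γ x * (lap (cP c v a α γ) x + L * cP c v a α γ x)) +
        2 * (∫ x in A, cP c v a α γ x * (lap (cV v e) x + L * cV v e x)) +
        ∑ i, (L - l i) * (e i ^ 2 * ∫ x in A, v i x * v i x) := by
  have hbA : Bornology.IsBounded A := hb.subset (subset_closure.trans (hv 0).sub)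
  have hAm : MeasurableSet A := (hv 0).isOpen.measurableSet
  have hAD : A ⊆ D := subset_closure.trans (hv 0).sub
  have hL0 : 0 < L := hL ▸ hl (Fin.last m)
  have hfin : IsFiniteMeasure (volume.restrict A) := ⟨by
    rw [Measure.restrict_apply_univ]
    exact hbA.measure_lt_top⟩
  obtain ⟨k, hk⟩ : ∃ k : Fin (m + 1) → ℂ → ℝ, k = fun i => kd (α i) (γ i) (v i) := ⟨_, rfl⟩
  have hk' : ∀ i x, kd (α i) (γ i) (v i) x = k i x := fun i x => by rw [hk]
  have cv : ∀ i, ContinuousOn (v i) (closure A) := fun i => (hv i).hz.smooth.continuousOn.mono (hv i).sub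
  have ck : ∀ i, ContinuousOn (k i) (closure A) := fun i => by
    rw [hk]
    exact (hz_kd hD (hv i).hz (α i) (γ i)).smooth.continuousOn.mono (hv i).sub
  have hne : ∀ {i j}, i ≠ j → l i ≠ l j := fun hij h => hij (hlm.injective h)
  have o1 : ∀ i j, i ≠ j → ∫ x in A, v i x * v j x = 0 := fun i j hij =>
    Sc.orth (hl i) (hl j) (hne hij) hD hb (hv i) (hv j)
  have o2 : ∀ i j, i ≠ j → ∫ x in A, v i x * k j x = 0 := fun i j hij => by
    rw [hk]
    exact Sc.orth_kd (hl i) (hl j) (hne hij) hD hb (hv i) (hv j) (hc j) (α j) (γ j)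
  have o3 : ∀ i j, i ≠ j → ∫ x in A, k i x * k j x = 0 := fun i j hij => by
    rw [hk]
    exact Sc.kd_kd (hne hij) hD hb (hv i) (hv j) (α i) (α j) (γ i) (γ j)
  have gs := Ng1_gs (fun i j => intOn hbA ((cv i).mul (cv j))) (fun i j => intOn hbA ((cv i).mul (ck j)))
    (fun i j => intOn hbA ((ck i).mul (ck j))) o1 o2 o3
  have cs : ∀ p q : Fin (m + 1) → ℝ, ContinuousOn (fun x => ∑ i, (p i * v i x + q i * k i x)) (closure A) :=
    fun p q => continuousOn_finsetSum _ fun i _ =>
      (continuousOn_const.mul (cv i)).add (continuousOn_const.mul (ck i))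
  have is : ∀ p q : Fin (m + 1) → ℝ, Integrable (fun x => ∑ i, (p i * v i x + q i * k i x)) (volume.restrict A) :=
    fun p q => intOn hbA (cs p q)
  have ip : ∀ p q r s : Fin (m + 1) → ℝ, Integrable (fun x => (∑ i, (p i * v i x + q i * k i x)) *
      (∑ i, (r i * v i x + s i * k i x))) (volume.restrict A) :=
    fun p q r s => intOn hbA ((cs p q).mul (cs r s))
  have ms : ∀ p q : Fin (m + 1) → ℝ, ∫ x in A, (∑ i, (p i * v i x + q i * k i x)) = 0 := by
    intro p q
    have h1 : ∀ i, IntegrableOn (fun x => p i * v i x) A := fun i => intOn hbA (continuousOn_const.mul (cv i))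
    have h2 : ∀ i, IntegrableOn (fun x => q i * k i x) A := fun i => intOn hbA (continuousOn_const.mul (ck i))
    have h0 : ∀ i, IntegrableOn (fun x => p i * v i x + q i * k i x) A := fun i => (h1 i).add (h2 i)
    rw [integral_finsetSum _ fun i _ => h0 i]
    refine Finset.sum_eq_zero fun i _ => ?_
    have h3 : ∫ x in A, v i x = 0 := Sc.mean (hl i) hD hb (hv i)
    have h4 : ∫ x in A, k i x = 0 := by
      rw [hk]
      exact Sc.mean_kd (hl i) hD hb (hv i) (hc i) (α i) (γ i)
    rw [integral_add (h1 i) (h2 i), integral_const_mul, integral_const_mul, h3, h4, mul_zero, mul_zero, add_zero]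
  -- the values on `A`
  have eP : ∀ x, cP c v a α γ x = (∑ i, (a i * v i x + 1 * k i x)) - ∑ i, a i * c i := by
    intro x
    unfold cP
    rw [← Finset.sum_sub_distrib]
    exact Finset.sum_congr rfl fun i _ => by rw [hk']; ring
  have eP' : ∀ x ∈ A, lap (cP c v a α γ) x + L * cP c v a α γ x =
      (∑ i, ((L - l i) * a i * v i x + (L - l i) * k i x)) - L * ∑ i, a i * c i := by
    intro x hx
    rw [cP_lap hD (fun i => (hv i).hz) a α γ L (hAD hx)]
    refine congrArg (fun t => t - L * ∑ i, a i * c i) (Finset.sum_congr rfl fun i _ => ?_)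
    rw [hk']
    ring
  have eV' : ∀ x ∈ A, lap (cV v e) x + L * cV v e x =
      (∑ i, ((L - l i) * e i * v i x + 0 * k i x)) - 0 := by
    intro x hx
    rw [cV_lap hD (fun i => (hv i).hz) e L (hAD hx), sub_zero]
    exact Finset.sum_congr rfl fun i _ => by ring
  have t1 : ∫ x in A, cP c v a α γ x * (lap (cP c v a α γ) x + L * cP c v a α γ x) =
      (∑ i, (a i * ((L - l i) * a i) * (∫ x in A, v i x * v i x) +
        (a i * (L - l i) + 1 * ((L - l i) * a i)) * (∫ x in A, v i x * k i x) +
        1 * (L - l i) * ∫ x in A, k i x * k i x)) +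
        (∑ i, a i * c i) * (L * ∑ i, a i * c i) * (volume.restrict A).real univ := by
    have h1 := gs a (fun _ => 1) (fun i => (L - l i) * a i) (fun i => L - l i)
    have h2 := Ng1_two (is a fun _ => 1) (is (fun i => (L - l i) * a i) fun i => L - l i)
      (ip a (fun _ => 1) (fun i => (L - l i) * a i) fun i => L - l i) (ms a fun _ => 1)
      (ms (fun i => (L - l i) * a i) fun i => L - l i) (∑ i, a i * c i) (L * ∑ i, a i * c i)
    rw [← h1, ← h2]
    refine setIntegral_congr_fun hAm fun x hx => ?_
    rw [eP' x hx, eP x]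
  have t2 : ∫ x in A, cP c v a α γ x * (lap (cV v e) x + L * cV v e x) =
      (∑ i, (a i * ((L - l i) * e i) * (∫ x in A, v i x * v i x) +
        (a i * 0 + 1 * ((L - l i) * e i)) * (∫ x in A, v i x * k i x) +
        1 * 0 * ∫ x in A, k i x * k i x)) +
        (∑ i, a i * c i) * 0 * (volume.restrict A).real univ := by
    have h1 := gs a (fun _ => 1) (fun i => (L - l i) * e i) (fun _ => 0)
    have h2 := Ng1_two (is a fun _ => 1) (is (fun i => (L - l i) * e i) fun _ => 0)
      (ip a (fun _ => 1) (fun i => (L - l i) * e i) fun _ => 0) (ms a fun _ => 1)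
      (ms (fun i => (L - l i) * e i) fun _ => 0) (∑ i, a i * c i) 0
    rw [← h1, ← h2]
    refine setIntegral_congr_fun hAm fun x hx => ?_
    rw [eV' x hx, eP x]
  have t0 : ∫ x in A, (∑ i, ((a i + e i) * v i x + kd (α i) (γ i) (v i) x)) *
        (∑ i, (L - l i) * ((a i + e i) * v i x + kd (α i) (γ i) (v i) x)) =
      ∑ i, ((a i + e i) * ((L - l i) * (a i + e i)) * (∫ x in A, v i x * v i x) +
        ((a i + e i) * (L - l i) + 1 * ((L - l i) * (a i + e i))) * (∫ x in A, v i x * k i x) +
        1 * (L - l i) * ∫ x in A, k i x * k i x) := by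
    rw [← gs (fun i => a i + e i) (fun _ => 1) (fun i => (L - l i) * (a i + e i)) (fun i => L - l i)]
    refine setIntegral_congr_fun hAm fun x _ => ?_
    have e1 : ∑ i, ((a i + e i) * v i x + kd (α i) (γ i) (v i) x) = ∑ i, ((a i + e i) * v i x + 1 * k i x) :=
      Finset.sum_congr rfl fun i _ => by rw [hk', one_mul]
    have e2 : ∑ i, (L - l i) * ((a i + e i) * v i x + kd (α i) (γ i) (v i) x) =
        ∑ i, ((L - l i) * (a i + e i) * v i x + (L - l i) * k i x) :=
      Finset.sum_congr rfl fun i _ => by rw [hk']; ring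
    change (∑ i, ((a i + e i) * v i x + kd (α i) (γ i) (v i) x)) *
      (∑ i, (L - l i) * ((a i + e i) * v i x + kd (α i) (γ i) (v i) x)) = _
    rw [e1, e2]
  rw [t0, t1, t2]
  have t3 : ∑ i, ((a i + e i) * ((L - l i) * (a i + e i)) * (∫ x in A, v i x * v i x) +
        ((a i + e i) * (L - l i) + 1 * ((L - l i) * (a i + e i))) * (∫ x in A, v i x * k i x) +
        1 * (L - l i) * ∫ x in A, k i x * k i x) =
      (∑ i, (a i * ((L - l i) * a i) * (∫ x in A, v i x * v i x) +
        (a i * (L - l i) + 1 * ((L - l i) * a i)) * (∫ x in A, v i x * k i x) +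
        1 * (L - l i) * ∫ x in A, k i x * k i x)) +
      2 * (∑ i, (a i * ((L - l i) * e i) * (∫ x in A, v i x * v i x) +
        (a i * 0 + 1 * ((L - l i) * e i)) * (∫ x in A, v i x * k i x) +
        1 * 0 * ∫ x in A, k i x * k i x)) +
      ∑ i, (L - l i) * (e i ^ 2 * ∫ x in A, v i x * v i x) := by
    rw [Finset.mul_sum, ← Finset.sum_add_distrib, ← Finset.sum_add_distrib]
    exact Finset.sum_congr rfl fun i _ => by ring
  rw [t3]
  have h5 : 0 ≤ (∑ i, a i * c i) * (L * ∑ i, a i * c i) * (volume.restrict A).real univ := by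
    have h6 : (∑ i, a i * c i) * (L * ∑ i, a i * c i) = L * (∑ i, a i * c i) ^ 2 := by ring
    rw [h6]
    exact mul_nonneg (mul_nonneg hL0.le (sq_nonneg _)) measureReal_nonneg
  linarith

end DrumL
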