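import Pool.Agent.Lib.MP_d92c84_anF.Gpr
import Pool.Agent.Lib.MP_d92c84_anF.Flx
import Pool.Agent.Lib.MP_d92c84_anF.Wea

/-!
# Orthogonality relations for functions critical on the boundary
-/

set_option autoImplicit false

namespace DrumL

open MeasureTheory Set Filter Topology
open scoped ContDiff

private theorem Or1_cpd {D : Set ℂ} (hD : IsOpen D) {f : ℂ → ℝ} (hf : ContDiffOn ℝ ∞ f D) (w : ℂ) :
    ContDiffOn ℝ ∞ (pd w f) D := contDiffOn_pd hD hf (by simp) w

private theorem Or1_da {D : Set ℂ} (hD : IsOpen D) {f : ℂ → ℝ} (hf : ContDiffOn ℝ ∞ f D) {y : ℂ} (hy : y ∈ D) :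
    DifferentiableAt ℝ f y := (hf.differentiableOn (by simp)).differentiableAt (hD.mem_nhds hy)

private theorem Or1_lapc {D : Set ℂ} (hD : IsOpen D) {f : ℂ → ℝ} (hf : ContDiffOn ℝ ∞ f D) :
    ContinuousOn (lap f) D :=
  (Or1_cpd hD (Or1_cpd hD hf 1) 1).continuousOn.add (Or1_cpd hD (Or1_cpd hD hf Complex.I) Complex.I).continuousOn

private theorem Or1_pdpd {D : Set ℂ} (hD : IsOpen D) {f g : ℂ → ℝ} (hf : ContDiffOn ℝ ∞ f D) (hg : ContDiffOn ℝ ∞ g D)
    (w : ℂ) {x : ℂ} (hx : x ∈ D) : pd w (pd w (fun y => f y * g y)) x =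
      pd w (pd w f) x * g x + 2 * (pd w f x * pd w g x) + f x * pd w (pd w g) x := by
  have h1 : pd w (fun y => f y * g y) =ᶠ[𝓝 x] fun y => pd w f y * g y + f y * pd w g y := by
    filter_upwards [hD.mem_nhds hx] with y hy
    exact pd_mul (Or1_da hD hf hy) (Or1_da hD hg hy) w
  have h2 : pd w (pd w (fun y => f y * g y)) x = pd w (fun y => pd w f y * g y + f y * pd w g y) x := by
    show fderiv ℝ (pd w (fun y => f y * g y)) x w = fderiv ℝ (fun y => pd w f y * g y + f y * pd w g y) x w
    rw [h1.fderiv_eq]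
  have d1 := Or1_da hD hf hx
  have d2 := Or1_da hD hg hx
  have d3 := Or1_da hD (Or1_cpd hD hf w) hx
  have d4 := Or1_da hD (Or1_cpd hD hg w) hx
  rw [h2, pd_add (f := fun y => pd w f y * g y) (g := fun y => f y * pd w g y) (d3.mul d2) (d1.mul d4) w,
    pd_mul d3 d2, pd_mul d1 d4]
  ring

private theorem Or1_green {D A : Set ℂ} (hD : IsOpen D) (hb : Bornology.IsBounded D) {f g : ℂ → ℝ} (h : Pz D A f)
    (hg : ContDiffOn ℝ ∞ g D) :
    ∫ x in A, (pd 1 f x * pd 1 g x + pd Complex.I f x * pd Complex.I g x) = -∫ x in A, f x * lap g x := by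
  have h1 := h.green hD hb hg 0
  simpa using h1

/-- The mean is zero. -/
theorem Sc.mean {l c : ℝ} (hl : 0 < l) {D A : Set ℂ} (hD : IsOpen D) (hb : Bornology.IsBounded D) {v : ℂ → ℝ}
    (h : Sc l c D A v) : ∫ x in A, v x = 0 := by
  have hAD : A ⊆ D := subset_closure.trans h.sub
  have hbA : Bornology.IsBounded A := hb.subset hAD
  have h1 := flux hD h.isOpen hbA h.sub (v := v) (h.hz.smooth.of_le (WithTop.coe_le_coe.2 (le_top : (2 : ℕ∞) ≤ ⊤)))
    (fun x hx => by
      unfold pd
      rw [h.crit x hx]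
      exact ⟨rfl, rfl⟩)
  have h2 : ∫ x in A, lap v x = ∫ x in A, -l * v x :=
    setIntegral_congr_fun h.isOpen.measurableSet fun x hx => h.hz.eq x (hAD hx)
  rw [h2, integral_const_mul] at h1
  rcases mul_eq_zero.1 h1 with h3 | h3
  · linarith
  · exact h3

/-- The boundary value is not zero. -/
theorem Sc.val_ne {l c : ℝ} (hl : 0 < l) {D A : Set ℂ} (hD : IsOpen D) (hb : Bornology.IsBounded D)
    (hDc : IsPreconnected D) (hA : A.Nonempty) {v : ℂ → ℝ} (h : Sc l c D A v) (hne : ∃ x ∈ D, v x ≠ 0) : c ≠ 0 := by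
  rintro rfl
  have hAD : A ⊆ D := subset_closure.trans h.sub
  have hbA : Bornology.IsBounded A := hb.subset hAD
  have hs := h.hz.smooth
  have hpz : Pz D A v := ⟨h.isOpen, h.sub, hs, h.val⟩
  have hint : ∀ {F : ℂ → ℝ}, ContinuousOn F D → IntegrableOn F A := fun hF => intOn hbA (hF.mono h.sub)
  have hw : ∀ ψ : ℂ → ℝ, Tst D ψ → ∫ x, indicator A v x * (lap ψ x + l * ψ x) = 0 := by
    intro ψ hψ
    have hψs : ContDiffOn ℝ ∞ ψ D := hψ.smooth.contDiffOn
    have h1 := Or1_green hD hb hpz hψs
    have h2 := flux hD h.isOpen hbA h.sub (v := fun y => v y * ψ y)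
      ((hs.mul hψs).of_le (WithTop.coe_le_coe.2 (le_top : (2 : ℕ∞) ≤ ⊤)))
      (fun x hx => by
        have hxD : x ∈ D := h.sub (frontier_subset_closure hx)
        have hz : ∀ w : ℂ, pd w (fun y => v y * ψ y) x = 0 := by
          intro w
          rw [pd_mul (Or1_da hD hs hxD) (Or1_da hD hψs hxD), h.val x hx]
          have : pd w v x = 0 := by
            unfold pd
            rw [h.crit x hx]
            rfl
          rw [this]
          ring
        exact ⟨hz 1, hz Complex.I⟩)
    have i1 : IntegrableOn (fun x => v x * lap ψ x) A := hint (hs.continuousOn.mul (Or1_lapc hD hψs))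
    have i2 : IntegrableOn (fun x => pd 1 v x * pd 1 ψ x + pd Complex.I v x * pd Complex.I ψ x) A :=
      hint (((Or1_cpd hD hs 1).continuousOn.mul (Or1_cpd hD hψs 1).continuousOn).add
        ((Or1_cpd hD hs Complex.I).continuousOn.mul (Or1_cpd hD hψs Complex.I).continuousOn))
    have i3 : IntegrableOn (fun x => v x * ψ x) A := hint (hs.continuousOn.mul hψs.continuousOn)
    have h3 : ∫ x in A, lap (fun y => v y * ψ y) x = ∫ x in A, ((v x * lap ψ x +
        2 * (pd 1 v x * pd 1 ψ x + pd Complex.I v x * pd Complex.I ψ x)) + (-l) * (v x * ψ x)) := by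
      refine setIntegral_congr_fun h.isOpen.measurableSet fun x hx => ?_
      have h4 := h.hz.eq x (hAD hx)
      show lap (fun y => v y * ψ y) x = _
      have h5 : lap (fun y => v y * ψ y) x = v x * lap ψ x +
          2 * (pd 1 v x * pd 1 ψ x + pd Complex.I v x * pd Complex.I ψ x) + lap v x * ψ x := by
        unfold lap
        rw [Or1_pdpd hD hs hψs 1 (hAD hx), Or1_pdpd hD hs hψs Complex.I (hAD hx)]
        ring
      rw [h5, h4]
      ring
    have i12 : IntegrableOn (fun x => v x * lap ψ x +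
        2 * (pd 1 v x * pd 1 ψ x + pd Complex.I v x * pd Complex.I ψ x)) A := i1.add (i2.const_mul 2)
    have i3' : IntegrableOn (fun x => (-l) * (v x * ψ x)) A := i3.const_mul (-l)
    have i2' : IntegrableOn (fun x => 2 * (pd 1 v x * pd 1 ψ x + pd Complex.I v x * pd Complex.I ψ x)) A :=
      i2.const_mul 2
    rw [h3, integral_add i12 i3', integral_add i1 i2', integral_const_mul, integral_const_mul, h1] at h2
    have h6 : ∫ x, indicator A v x * (lap ψ x + l * ψ x) = ∫ x in A, (v x * lap ψ x + l * (v x * ψ x)) := by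
      rw [← integral_indicator h.isOpen.measurableSet]
      refine integral_congr_ae (Eventually.of_forall fun x => ?_)
      by_cases hx : x ∈ A
      · simp only [indicator_of_mem hx]
        ring
      · simp only [indicator_of_notMem hx, zero_mul]
    rw [h6, integral_add i1 (i3.const_mul l), integral_const_mul]
    linarith
  have hK : IsCompact (closure A) := hbA.isCompact_closure
  have hbi : Integrable (indicator A v) := (integrable_indicator_iff h.isOpen.measurableSet).2 (hint hs.continuousOn)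
  have hae := weak_zero hl hD hK h.sub hbi (fun x hx => indicator_of_notMem (fun h1 => hx (subset_closure h1)) v) hw
  have hA0 : EqOn v (fun _ => 0) A := by
    refine Measure.eqOn_open_of_ae_eq (μ := volume) ?_ h.isOpen (hs.continuousOn.mono hAD) continuousOn_const
    rw [Filter.EventuallyEq, ae_restrict_iff' h.isOpen.measurableSet]
    filter_upwards [hae] with x hx hxA
    rw [← hx, indicator_of_mem hxA]
  obtain ⟨x, hxD, hx⟩ := hne
  obtain ⟨a, ha⟩ := hA
  exact hx (uc hl hD hDc h.hz h.isOpen ⟨a, ha, hAD ha⟩ (fun y hy => hA0 hy.1) hxD)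

/-- The mean of a Killing derivative is zero. -/
theorem Sc.mean_kd {l c : ℝ} (hl : 0 < l) {D A : Set ℂ} (hD : IsOpen D) (hb : Bornology.IsBounded D) {v : ℂ → ℝ}
    (h : Sc l c D A v) (hc : c ≠ 0) (α : ℂ) (β : ℝ) : ∫ x in A, kd α β v x = 0 := by
  have hAD : A ⊆ D := subset_closure.trans h.sub
  have hbA : Bornology.IsBounded A := hb.subset hAD
  have hs := h.hz.smooth
  have hk := hz_kd hD h.hz α β
  have hint : ∀ {F : ℂ → ℝ}, ContinuousOn F D → IntegrableOn F A := fun hF => intOn hbA (hF.mono h.sub)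
  have h1 := Or1_green hD hb h.pzv hk.smooth
  have h2 := Or1_green hD hb (h.pzkd hD α β) hs
  have h3 : ∀ w x, pd w (fun x => v x - c) x = pd w v x := by
    intro w x
    unfold pd
    rw [fderiv_sub_const]
  have h4 : ∫ x in A, (pd 1 (fun x => v x - c) x * pd 1 (kd α β v) x +
      pd Complex.I (fun x => v x - c) x * pd Complex.I (kd α β v) x) =
      ∫ x in A, (pd 1 (kd α β v) x * pd 1 v x + pd Complex.I (kd α β v) x * pd Complex.I v x) := by
    refine integral_congr_ae (Eventually.of_forall fun x => ?_)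
    show pd 1 (fun x => v x - c) x * pd 1 (kd α β v) x +
      pd Complex.I (fun x => v x - c) x * pd Complex.I (kd α β v) x =
      pd 1 (kd α β v) x * pd 1 v x + pd Complex.I (kd α β v) x * pd Complex.I v x
    rw [h3, h3]
    ring
  have i1 : IntegrableOn (fun x => v x * kd α β v x) A := hint (hs.continuousOn.mul hk.smooth.continuousOn)
  have i2 : IntegrableOn (kd α β v) A := hint hk.smooth.continuousOn
  have h5 : ∫ x in A, (v x - c) * lap (kd α β v) x = (-l) * (∫ x in A, v x * kd α β v x) + l * c * ∫ x in A, kd α β v x := by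
    rw [← integral_const_mul, ← integral_const_mul, ← integral_add (i1.const_mul (-l)) (i2.const_mul (l * c))]
    refine setIntegral_congr_fun h.isOpen.measurableSet fun x hx => ?_
    show (v x - c) * lap (kd α β v) x = (-l) * (v x * kd α β v x) + l * c * kd α β v x
    rw [hk.eq x (hAD hx)]
    ring
  have h6 : ∫ x in A, kd α β v x * lap v x = (-l) * ∫ x in A, v x * kd α β v x := by
    rw [← integral_const_mul]
    refine setIntegral_congr_fun h.isOpen.measurableSet fun x hx => ?_
    show kd α β v x * lap v x = (-l) * (v x * kd α β v x)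
    rw [h.hz.eq x (hAD hx)]
    ring
  rw [h4, h2, h5, h6] at h1
  have h7 : l * c * ∫ x in A, kd α β v x = 0 := by linarith
  rcases mul_eq_zero.1 h7 with h8 | h8
  · exact absurd h8 (mul_ne_zero hl.ne' hc)
  · exact h8

end DrumL
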