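import Pool.Agent.Lib.MP_d92c84_anF.Rdk

/-!
# The derivative of the convolution with a kernel
-/

set_option autoImplicit false

namespace DrumL

open MeasureTheory Set Filter Topology
open scoped ContDiff Real ComplexConjugate

/-- The profile `(s k')' = k' + s k''` of `¼ Δ`.  -/
noncomputable def lapk (k : ℝ → ℝ) (s : ℝ) : ℝ := deriv (fun u => u * deriv k u) s

private theorem Pea_deriv {δ : ℝ} {k : ℝ → ℝ} (hk : Prf δ k) : Prf δ (deriv k) := by
  have hc : ContDiff ℝ ∞ (deriv k) := (contDiff_infty_iff_deriv.1 hk.smooth).2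
  refine ⟨hc, ?_⟩
  have h1 : Set.Ioi (δ ^ 2) ⊆ {s | deriv k s = 0} := by
    intro s hs
    have h : k =ᶠ[𝓝 s] fun _ => 0 := by
      filter_upwards [Ioi_mem_nhds hs] with u hu using hk.zero u (le_of_lt hu)
    show deriv k s = 0
    rw [h.deriv_eq]
    simp
  intro s hs
  have h2 := closure_minimal h1 (isClosed_eq hc.continuous continuous_const)
  rw [closure_Ioi] at h2
  exact h2 hs

private theorem Pea_iter {δ : ℝ} {k : ℝ → ℝ} (hk : Prf δ k) (n : ℕ) : Prf δ (iteratedDeriv n k) := by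
  induction n with
  | zero => rw [iteratedDeriv_zero]; exact hk
  | succ n ih => rw [iteratedDeriv_succ]; exact Pea_deriv ih

/-- The profile `lapk k` is admissible if `k` is. -/
theorem prf_lapk {δ : ℝ} {k : ℝ → ℝ} (hk : Prf δ k) : Prf δ (lapk k) := by
  have h1 := Pea_deriv hk
  have h2 : Prf δ (fun u => u * deriv k u) :=
    ⟨contDiff_id.mul h1.smooth, fun s hs => by rw [h1.zero s hs, mul_zero]⟩
  exact Pea_deriv h2

private theorem Pea_hasDeriv {δ : ℝ} {k : ℝ → ℝ} (hk : Prf δ k) (n : ℕ) (s : ℝ) :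
    HasDerivAt (iteratedDeriv n k) (iteratedDeriv (n + 1) k s) s := by
  rw [iteratedDeriv_succ]
  exact ((Pea_iter hk n).smooth.differentiable (by simp)).differentiableAt.hasDerivAt

private theorem Pea_lap {δ : ℝ} {k : ℝ → ℝ} (hk : Prf δ k) (n : ℕ) :
    iteratedDeriv n (lapk k) =
      fun s => ((n : ℝ) + 1) * iteratedDeriv (n + 1) k s + s * iteratedDeriv (n + 2) k s := by
  induction n with
  | zero =>
    funext s
    rw [iteratedDeriv_zero]
    have h1 := (hasDerivAt_id s).mul (Pea_hasDeriv hk 1 s)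
    have h2 : (fun u => u * deriv k u) = fun u => id u * iteratedDeriv 1 k u := by
      funext u
      rw [iteratedDeriv_one]
      rfl
    show deriv (fun u => u * deriv k u) s = _
    rw [h2]
    have h3 := h1.deriv
    simp only [id] at h3 ⊢
    have h4 : (fun u => u * iteratedDeriv 1 k u) = (id * iteratedDeriv 1 k) := rfl
    rw [h4]
    erw [h3]
    push_cast
    ring
  | succ n ih =>
    rw [iteratedDeriv_succ, ih]
    funext s
    have h1 := ((Pea_hasDeriv hk (n + 1) s).const_mul ((n : ℝ) + 1)).add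
      ((hasDerivAt_id s).mul (Pea_hasDeriv hk (n + 2) s))
    have h2 := h1.deriv
    simp only [id] at h2
    refine Eq.trans ?_ (h2.trans ?_)
    · rfl
    · push_cast
      ring

private theorem Pea_kern_zero {δ : ℝ} (hδ : 0 < δ) {k : ℝ → ℝ} (hk : Prf δ k) (n : ℕ) {y : ℂ} (hy : δ ≤ ‖y‖) :
    kern n k y = 0 := by
  unfold kern
  rw [(Pea_iter hk n).zero _ (by gcongr)]
  simp

private theorem Pea_kern_smooth {δ : ℝ} {k : ℝ → ℝ} (hk : Prf δ k) (n : ℕ) : ContDiff ℝ ∞ (kern n k) := by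
  unfold kern
  have h1 : ContDiff ℝ ∞ fun y : ℂ => conj y ^ n := Complex.conjCLE.contDiff.pow n
  have h2 : ContDiff ℝ ∞ fun y : ℂ => ((iteratedDeriv n k (‖y‖ ^ 2) : ℝ) : ℂ) :=
    Complex.ofRealCLM.contDiff.comp ((Pea_iter hk n).smooth.comp (contDiff_norm_sq ℝ))
  exact h1.mul h2

private theorem Pea_kern_supp {δ : ℝ} (hδ : 0 < δ) {k : ℝ → ℝ} (hk : Prf δ k) (n : ℕ) :
    HasCompactSupport (kern n k) := by
  refine HasCompactSupport.of_support_subset_isCompact (isCompact_closedBall (0 : ℂ) δ) ?_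
  intro y hy
  rw [mem_closedBall_zero_iff]
  by_contra h
  exact hy (Pea_kern_zero hδ hk n (le_of_lt (not_le.1 h)))

private theorem Pea_kern_fderiv {δ : ℝ} {k : ℝ → ℝ} (hk : Prf δ k) (n : ℕ) (y e : ℂ) :
    fderiv ℝ (kern (n + 1) k) y e = e * kern (n + 2) k y + conj e * kern n (lapk k) y := by
  have h1 : HasFDerivAt (fun y : ℂ => conj y) (Complex.conjCLE : ℂ →L[ℝ] ℂ) y :=
    Complex.conjCLE.hasFDerivAt
  have h2 := h1.pow (n + 1)
  have h3 : HasFDerivAt (fun y : ℂ => ‖y‖ ^ 2) (2 • innerSL ℝ y) y :=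
    (hasStrictFDerivAt_norm_sq y).hasFDerivAt
  have h4 := (Pea_hasDeriv hk (n + 1) (‖y‖ ^ 2)).comp_hasFDerivAt y h3
  have h5 := Complex.ofRealCLM.hasFDerivAt.comp y h4
  have h6 := h2.mul h5
  have h7 : fderiv ℝ (kern (n + 1) k) y = _ := HasFDerivAt.fderiv (f := kern (n + 1) k) h6
  rw [h7]
  have h8 : ((2 * inner ℝ y e : ℝ) : ℂ) = conj y * e + y * conj e := by
    rw [Complex.inner]
    have h := Complex.add_conj (conj y * e)
    rw [map_mul, Complex.conj_conj] at h
    rw [h, mul_comm e]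
  have h9 : ((‖y‖ : ℂ)) ^ 2 = y * conj y := by
    rw [Complex.mul_conj, Complex.normSq_eq_norm_sq]
    push_cast
    ring
  simp only [add_apply, smul_apply, ContinuousLinearMap.comp_apply,
    Function.comp_apply, Complex.ofRealCLM_apply, smul_eq_mul, innerSL_apply_apply, nsmul_eq_mul,
    ContinuousLinearEquiv.coe_coe, Complex.conjCLE_apply]
  unfold kern
  rw [Pea_lap hk n]
  have h10 : ((iteratedDeriv (n + 1 + 1) k (‖y‖ ^ 2) * (((2 : ℕ) : ℝ) * inner ℝ y e) : ℝ) : ℂ) =
      (iteratedDeriv (n + 2) k (‖y‖ ^ 2) : ℝ) * (conj y * e + y * conj e) := by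
    rw [← h8]
    push_cast
    ring
  push_cast at h10 ⊢
  linear_combination (conj y) ^ (n + 1) * h10 - (conj e * conj y ^ n * (iteratedDeriv (n + 2) k (‖y‖ ^ 2) : ℝ)) * h9

/-- The derivative of the convolution: `∂ (kern n k) = kern (n+1) k` and, for `n ≥ 1`, `∂̄ (kern n k) = kern (n-1) (lapk k)`. -/
theorem An_fderiv {δ : ℝ} (hδ : 0 < δ) {k : ℝ → ℝ} (hk : Prf δ k) {n : ℕ} {w : ℂ → ℝ} (hw : Continuous w)
    (hs : HasCompactSupport w) (x : ℂ) :
    ∃ L : ℂ →L[ℝ] ℂ, HasFDerivAt (An (n + 1) k w) L x ∧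
      ∀ e, L e = e * An (n + 2) k w x + conj e * An n (lapk k) w x := by
  have hA : ∀ (m : ℕ) (q : ℝ → ℝ),
      An m q w = convolution w (kern m q) (ContinuousLinearMap.lsmul ℝ ℝ) volume := by
    intro m q
    funext x
    rw [convolution_def]
    rfl
  have hc := Pea_kern_supp hδ hk (n + 1)
  have hsm := Pea_kern_smooth hk (n + 1)
  have hloc : LocallyIntegrable w volume := hw.locallyIntegrable
  have h1 := hc.hasFDerivAt_convolution_right (ContinuousLinearMap.lsmul ℝ ℝ) hloc
    (hsm.of_le (by simp)) x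
  refine ⟨_, by rw [hA]; exact h1, fun e => ?_⟩
  rw [convolution_precompR_apply (ContinuousLinearMap.lsmul ℝ ℝ) hloc (hc.fderiv ℝ)
    (hsm.continuous_fderiv (by simp)) x e]
  have hint : ∀ (m : ℕ) (q : ℝ → ℝ), Prf δ q → Integrable fun y => (w y : ℂ) * kern m q (x - y) := by
    intro m q hq
    apply Continuous.integrable_of_hasCompactSupport
    · exact (Complex.continuous_ofReal.comp hw).mul
        ((Pea_kern_smooth hq m).continuous.comp (continuous_const.sub continuous_id))
    · refine HasCompactSupport.mul_right ?_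
      exact hs.comp_left Complex.ofReal_zero
  rw [convolution_def]
  simp only [ContinuousLinearMap.lsmul_apply, Pea_kern_fderiv hk, Complex.real_smul]
  unfold An
  rw [← integral_const_mul, ← integral_const_mul, ← integral_add]
  · apply integral_congr_ae
    filter_upwards with y
    ring
  · exact (hint (n + 2) k hk).const_mul e
  · exact (hint n (lapk k) (prf_lapk hk)).const_mul (conj e)

end DrumL
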