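import Pool.Agent.Lib.MP_d92c84_anF.Pia

/-!
# The Gram matrix of pieces
-/

set_option autoImplicit false

namespace DrumL

open MeasureTheory Set Filter Topology
open scoped ContDiff

private theorem Pib_bound {D B : Set ℂ} (hD : IsOpen D) (hb : Bornology.IsBounded D)
    (hBD : closure B ⊆ D) {f g : ℂ → ℝ} (hf : ContDiffOn ℝ ∞ f D) (hg : ContDiffOn ℝ ∞ g D) :
    ∃ C : ℝ, 0 ≤ C ∧ ∀ x ∈ B, |f x| ≤ C ∧ |g x| ≤ C ∧ |pd 1 f x| ≤ C ∧ |pd Complex.I f x| ≤ C ∧
      |pd 1 g x| ≤ C ∧ |pd Complex.I g x| ≤ C := by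
  have hK : IsCompact (closure B) := (hb.subset (subset_closure.trans hBD)).isCompact_closure
  have hpd : ∀ {h : ℂ → ℝ}, ContDiffOn ℝ ∞ h D → ∀ v, ContinuousOn (pd v h) (closure B) :=
    fun hh v => ((contDiffOn_pd hD (m := ∞) hh (by simp) v).continuousOn).mono hBD
  have hc : ContinuousOn (fun x => |f x| + |g x| + |pd 1 f x| + |pd Complex.I f x| + |pd 1 g x| +
      |pd Complex.I g x|) (closure B) :=
    (((((hf.continuousOn.mono hBD).abs.add (hg.continuousOn.mono hBD).abs).add (hpd hf 1).abs).add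
      (hpd hf Complex.I).abs).add (hpd hg 1).abs).add (hpd hg Complex.I).abs
  obtain ⟨C, hC⟩ := hK.exists_bound_of_continuousOn hc
  refine ⟨|C|, abs_nonneg C, fun x hx => ?_⟩
  have h1 := hC x (subset_closure hx)
  rw [Real.norm_eq_abs] at h1
  have h2 := (le_abs_self _).trans (h1.trans (le_abs_self C))
  have a1 := abs_nonneg (f x)
  have a2 := abs_nonneg (g x)
  have a3 := abs_nonneg (pd 1 f x)
  have a4 := abs_nonneg (pd Complex.I f x)
  have a5 := abs_nonneg (pd 1 g x)
  have a6 := abs_nonneg (pd Complex.I g x)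
  refine ⟨?_, ?_, ?_, ?_, ?_, ?_⟩ <;> linarith

private theorem Pib_mul {a s b t C : ℝ} (hC : 0 ≤ C) (ha : |a| ≤ 1) (hb : |b| ≤ 1) (hs : |s| ≤ C)
    (ht : |t| ≤ C) : |a * s * (b * t)| ≤ C * C := by
  rw [abs_mul, abs_mul, abs_mul]
  have h1 : |a| * |s| ≤ C := by nlinarith [abs_nonneg a, abs_nonneg s]
  have h2 : |b| * |t| ≤ C := by nlinarith [abs_nonneg b, abs_nonneg t]
  exact mul_le_mul h1 h2 (mul_nonneg (abs_nonneg _) (abs_nonneg _)) hC

/-- Convergence of the integrals with cut-off factors. -/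
private theorem Pib_lim {l : ℝ} {D B : Set ℂ} (hD : IsOpen D) (hb : Bornology.IsBounded D)
    (hB : IsOpen B) (hBD : closure B ⊆ D) {f g : ℂ → ℝ} (hf : ContDiffOn ℝ ∞ f D)
    (hg : ContDiffOn ℝ ∞ g D) {a b c d : ℕ → ℂ → ℝ} (ha : ∀ N, ContinuousOn (a N) B)
    (hb' : ∀ N, ContinuousOn (b N) B) (hc : ∀ N, ContinuousOn (c N) B) (hd : ∀ N, ContinuousOn (d N) B)
    (ha1 : ∀ N x, |a N x| ≤ 1) (hb1 : ∀ N x, |b N x| ≤ 1) (hc1 : ∀ N x, |c N x| ≤ |f x|)
    (hd1 : ∀ N x, |d N x| ≤ |g x|)
    (hal : ∀ᵐ x ∂(volume.restrict B), ∀ v, Tendsto (fun N => a N x * pd v f x) atTop (𝓝 (pd v f x)))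
    (hbl : ∀ᵐ x ∂(volume.restrict B), ∀ v, Tendsto (fun N => b N x * pd v g x) atTop (𝓝 (pd v g x)))
    (hcl : ∀ x, Tendsto (fun N => c N x) atTop (𝓝 (f x)))
    (hdl : ∀ x, Tendsto (fun N => d N x) atTop (𝓝 (g x))) :
    Tendsto (fun N => ∫ x in B, (a N x * pd 1 f x * (b N x * pd 1 g x) +
      a N x * pd Complex.I f x * (b N x * pd Complex.I g x) - l * (c N x * d N x))) atTop
      (𝓝 (∫ x in B, (pd 1 f x * pd 1 g x + pd Complex.I f x * pd Complex.I g x -
        l * (f x * g x)))) := by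
  obtain ⟨C, hC0, hC⟩ := Pib_bound hD hb hBD hf hg
  have hBD' : B ⊆ D := subset_closure.trans hBD
  have hfin : volume B < ⊤ := (hb.subset hBD').measure_lt_top
  have hpd : ∀ {h : ℂ → ℝ}, ContDiffOn ℝ ∞ h D → ∀ v, ContinuousOn (pd v h) B :=
    fun hh v => ((contDiffOn_pd hD (m := ∞) hh (by simp) v).continuousOn).mono hBD'
  refine tendsto_integral_of_dominated_convergence (fun _ => C * C + C * C + |l| * (C * C)) ?_ ?_ ?_ ?_
  · intro N
    exact ((((ha N).mul (hpd hf 1)).mul ((hb' N).mul (hpd hg 1))).add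
      (((ha N).mul (hpd hf Complex.I)).mul ((hb' N).mul (hpd hg Complex.I)))).sub
      (continuousOn_const.mul ((hc N).mul (hd N))) |>.aestronglyMeasurable hB.measurableSet
  · have : IsFiniteMeasure (volume.restrict B) := ⟨by rwa [Measure.restrict_apply_univ]⟩
    exact integrable_const _
  · intro N
    rw [ae_restrict_iff' hB.measurableSet]
    refine Eventually.of_forall fun x hx => ?_
    obtain ⟨b1, b2, b3, b4, b5, b6⟩ := hC x hx
    rw [Real.norm_eq_abs]
    refine (abs_sub _ _).trans (add_le_add ((abs_add_le _ _).trans (add_le_add ?_ ?_)) ?_)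
    · exact Pib_mul hC0 (ha1 N x) (hb1 N x) b3 b5
    · exact Pib_mul hC0 (ha1 N x) (hb1 N x) b4 b6
    · rw [abs_mul, abs_mul]
      exact mul_le_mul_of_nonneg_left (mul_le_mul ((hc1 N x).trans b1) ((hd1 N x).trans b2)
        (abs_nonneg _) hC0) (abs_nonneg _)
  · filter_upwards [hal, hbl] with x h1 h2
    exact (((h1 1).mul (h2 1)).add ((h1 Complex.I).mul (h2 Complex.I))).sub
      (tendsto_const_nhds.mul ((hcl x).mul (hdl x)))

private theorem Pib_cut {B : Set ℂ} (hB : IsOpen B) {f : ℂ → ℝ} (hf : DifferentiableOn ℝ f B) :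
    ∀ᵐ x ∂(volume.restrict B), ∀ v, Tendsto (fun N => sg (f x / eN N) * pd v f x) atTop
      (𝓝 (pd v f x)) := by
  filter_upwards [ae_crit hB hf] with x hx v
  by_cases h0 : f x = 0
  · have h1 : pd v f x = 0 := by
      unfold pd
      rw [hx h0]
      rfl
    rw [h1]
    simp only [mul_zero]
    exact tendsto_const_nhds
  · have h1 := (tendsto_sg h0).mul_const (pd v f x)
    rwa [one_mul] at h1

private theorem Pib_sym (l : ℝ) (φ ψ : ℂ → ℝ) : Q l φ ψ = Q l ψ φ := by
  unfold Q
  refine integral_congr_ae (Eventually.of_forall fun x => ?_)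
  change pd 1 φ x * pd 1 ψ x + pd Complex.I φ x * pd Complex.I ψ x - l * (φ x * ψ x) =
    pd 1 ψ x * pd 1 φ x + pd Complex.I ψ x * pd Complex.I φ x - l * (ψ x * φ x)
  ring

/-- A solution is orthogonal to the test functions. -/
private theorem Pib_orth {l : ℝ} {D B : Set ℂ} (hD : IsOpen D) (hB : IsOpen B) (hBD : B ⊆ D)
    {f : ℂ → ℝ} (hf : Hz l D f) {φ : ℂ → ℝ} (hφ : Tst B φ) :
    ∫ x in B, (pd 1 f x * pd 1 φ x + pd Complex.I f x * pd Complex.I φ x - l * (f x * φ x)) = 0 := by
  have hφ1 : ContDiff ℝ 1 φ := hφ.smooth.of_le (by exact_mod_cast le_top)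
  have hpd : ∀ v, ContDiffOn ℝ ∞ (pd v f) D := fun v => contDiffOn_pd hD (m := ∞) hf.smooth (by simp) v
  have hpd1 : ∀ v, ContDiffOn ℝ 1 (pd v f) B := fun v =>
    ((hpd v).mono hBD).of_le (by exact_mod_cast le_top)
  have h1 : ∀ v, ∫ x in B, φ x * pd v (pd v f) x = -∫ x in B, pd v φ x * pd v f x := fun v =>
    integral_mul_pd_on hB hφ1 hφ.comp hφ.sub (hpd1 v) v
  -- integrability
  have hint : ∀ {a b : ℂ → ℝ}, Continuous a → HasCompactSupport a → tsupport a ⊆ B →
      ContinuousOn b B → IntegrableOn (fun x => a x * b x) B := by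
    intro a b ha hac haB hb
    have h4 : ContDiff ℝ 0 fun x => a x * b x :=
      mul_contDiff hB (contDiff_zero.2 ha) haB (contDiffOn_zero.2 hb)
    exact (h4.continuous.integrable_of_hasCompactSupport hac.mul_right).integrableOn
  have hpdc : ∀ v, ContinuousOn (pd v f) B := fun v => ((hpd v).continuousOn).mono hBD
  have hpd2c : ∀ v, ContinuousOn (pd v (pd v f)) B := fun v =>
    ((contDiffOn_pd hD (m := ∞) (hpd v) (by simp) v).continuousOn).mono hBD
  have hfc : ContinuousOn f B := hf.smooth.continuousOn.mono hBD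
  have i1 : ∀ v, IntegrableOn (fun x => pd v φ x * pd v f x) B := fun v =>
    hint (continuous_pd hφ1 v) (compact_pd hφ.comp v) ((tsupport_pd v φ).trans hφ.sub) (hpdc v)
  have i2 : ∀ v, IntegrableOn (fun x => φ x * pd v (pd v f) x) B := fun v =>
    hint hφ.cont hφ.comp hφ.sub (hpd2c v)
  have h2 : ∫ x in B, (pd 1 f x * pd 1 φ x + pd Complex.I f x * pd Complex.I φ x - l * (f x * φ x)) =
      ∫ x in B, ((pd 1 φ x * pd 1 f x + pd Complex.I φ x * pd Complex.I f x) +
        (φ x * pd 1 (pd 1 f) x + φ x * pd Complex.I (pd Complex.I f) x)) := by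
    refine setIntegral_congr_fun hB.measurableSet fun x hx => ?_
    have h3 := hf.eq x (hBD hx)
    unfold lap at h3
    change pd 1 f x * pd 1 φ x + pd Complex.I f x * pd Complex.I φ x - l * (f x * φ x) =
      (pd 1 φ x * pd 1 f x + pd Complex.I φ x * pd Complex.I f x) +
        (φ x * pd 1 (pd 1 f) x + φ x * pd Complex.I (pd Complex.I f) x)
    linear_combination (-(φ x)) * h3
  have j1 : IntegrableOn (fun x => pd 1 φ x * pd 1 f x + pd Complex.I φ x * pd Complex.I f x) B :=
    (i1 1).add (i1 Complex.I)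
  have j2 : IntegrableOn (fun x => φ x * pd 1 (pd 1 f) x + φ x * pd Complex.I (pd Complex.I f) x) B :=
    (i2 1).add (i2 Complex.I)
  rw [h2, integral_add j1 j2, integral_add (i1 1) (i1 Complex.I), integral_add (i2 1) (i2 Complex.I),
    h1 1, h1 Complex.I]
  ring

/-- The case of nested sets. -/
private theorem Pib_nested {l : ℝ} {D A B : Set ℂ} (hD : IsOpen D) (hb : Bornology.IsBounded D)
    {f g : ℂ → ℝ} (hf : Pc l D A f) (hg : Pc l D B g) (hBA : B ⊆ A) :
    Tendsto (fun N => Q l (tr A f N) (tr B g N)) atTop (𝓝 0) := by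
  have hBD : B ⊆ D := subset_closure.trans hg.sub
  have hfc : ContinuousOn f B := hf.hz.smooth.continuousOn.mono hBD
  have hgc : ContinuousOn g B := hg.hz.smooth.continuousOn.mono hBD
  have hfd : DifferentiableOn ℝ f B := (hf.hz.smooth.differentiableOn (by simp)).mono hBD
  have hgd : DifferentiableOn ℝ g B := (hg.hz.smooth.differentiableOn (by simp)).mono hBD
  have hsg : ∀ {h : ℂ → ℝ}, ContinuousOn h B → ∀ N : ℕ, ContinuousOn (fun x => sg (h x / eN N)) B :=
    fun hh N => continuous_sg.comp_continuousOn (hh.div_const _)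
  have hSe : ∀ {h : ℂ → ℝ}, ContinuousOn h B → ∀ N : ℕ, ContinuousOn (fun x => Se (eN N) (h x)) B :=
    fun hh N => (contDiff_Se (eN N)).continuous.comp_continuousOn hh
  have hsg1 : ∀ s : ℝ, |sg s| ≤ 1 := fun s => by
    rw [abs_of_nonneg (sg_nonneg s)]
    exact sg_le_one s
  -- the first limit
  have lim1 := Pib_lim (l := l) hD hb hg.isOpen hg.sub hf.hz.smooth hg.hz.smooth
    (a := fun N x => sg (f x / eN N)) (b := fun N x => sg (g x / eN N))
    (c := fun N x => Se (eN N) (f x)) (d := fun N x => Se (eN N) (g x))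
    (hsg hfc) (hsg hgc) (hSe hfc) (hSe hgc) (fun _ _ => hsg1 _) (fun _ _ => hsg1 _)
    (fun N x => abs_Se_le (eN_pos N) _) (fun N x => abs_Se_le (eN_pos N) _)
    (Pib_cut hg.isOpen hfd) (Pib_cut hg.isOpen hgd) (fun x => tendsto_Se _) (fun x => tendsto_Se _)
  have lim2 := Pib_lim (l := l) hD hb hg.isOpen hg.sub hf.hz.smooth hg.hz.smooth
    (a := fun _ _ => 1) (b := fun N x => sg (g x / eN N))
    (c := fun _ x => f x) (d := fun N x => Se (eN N) (g x))
    (fun _ => continuousOn_const) (hsg hgc) (fun _ => hfc) (hSe hgc) (fun _ _ => by simp)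
    (fun _ _ => hsg1 _) (fun N x => le_rfl) (fun N x => abs_Se_le (eN_pos N) _)
    (Eventually.of_forall fun x v => by simp only [one_mul]; exact tendsto_const_nhds)
    (Pib_cut hg.isOpen hgd) (fun x => tendsto_const_nhds) (fun x => tendsto_Se _)
  -- the second sequence is zero
  have hz : ∀ N : ℕ, ∫ x in B, ((1 : ℝ) * pd 1 f x * (sg (g x / eN N) * pd 1 g x) +
      1 * pd Complex.I f x * (sg (g x / eN N) * pd Complex.I g x) -
        l * (f x * Se (eN N) (g x))) = 0 := by
    intro N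
    rw [← Pib_orth hD hg.isOpen hBD hf.hz (tr_tst hb hg N)]
    refine setIntegral_congr_fun hg.isOpen.measurableSet fun x hx => ?_
    rw [tr_pd hD hb hg, tr_pd hD hb hg, indicator_of_mem hx, indicator_of_mem hx]
    have h1 : tr B g N x = Se (eN N) (g x) := indicator_of_mem hx _
    rw [h1]
    ring
  have hq : ∫ x in B, (pd 1 f x * pd 1 g x + pd Complex.I f x * pd Complex.I g x -
      l * (f x * g x)) = 0 := by
    refine tendsto_nhds_unique lim2 ?_
    simp only [hz]
    exact tendsto_const_nhds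
  rw [hq] at lim1
  refine lim1.congr fun N => ?_
  -- the integral over the plane
  have hout : ∀ x, x ∉ B → pd 1 (tr A f N) x * pd 1 (tr B g N) x +
      pd Complex.I (tr A f N) x * pd Complex.I (tr B g N) x - l * (tr A f N x * tr B g N x) = 0 := by
    intro x hx
    have h1 : tr B g N x = 0 := indicator_of_notMem hx _
    rw [tr_pd hD hb hg, tr_pd hD hb hg, indicator_of_notMem hx, indicator_of_notMem hx, h1]
    ring
  have e1 : Q l (tr A f N) (tr B g N) = ∫ x in B, (pd 1 (tr A f N) x * pd 1 (tr B g N) x +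
      pd Complex.I (tr A f N) x * pd Complex.I (tr B g N) x - l * (tr A f N x * tr B g N x)) :=
    (setIntegral_eq_integral_of_forall_compl_eq_zero hout).symm
  rw [e1]
  · refine setIntegral_congr_fun hg.isOpen.measurableSet fun x hx => ?_
    rw [tr_pd hD hb hg, tr_pd hD hb hg, tr_pd hD hb hf, tr_pd hD hb hf, indicator_of_mem hx,
      indicator_of_mem hx, indicator_of_mem (hBA hx), indicator_of_mem (hBA hx)]
    have h1 : tr B g N x = Se (eN N) (g x) := indicator_of_mem hx _
    have h2 : tr A f N x = Se (eN N) (f x) := indicator_of_mem (hBA hx) _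
    rw [h1, h2]

/-- The Gram matrix tends to zero. -/
theorem tr_gram {l : ℝ} {D A B : Set ℂ} (hD : IsOpen D) (hb : Bornology.IsBounded D) {f g : ℂ → ℝ} (hf : Pc l D A f)
    (hg : Pc l D B g) (hAB : A ⊆ B ∨ B ⊆ A ∨ Disjoint A B) :
    Tendsto (fun N => Q l (tr A f N) (tr B g N)) atTop (𝓝 0) := by
  rcases hAB with h | h | h
  · have h1 := Pib_nested hD hb hg hf h
    exact h1.congr fun N => Pib_sym l _ _
  · exact Pib_nested hD hb hf hg h
  · have h1 : ∀ N, Q l (tr A f N) (tr B g N) = 0 := by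
      intro N
      unfold Q
      have h2 : (fun x => pd 1 (tr A f N) x * pd 1 (tr B g N) x +
          pd Complex.I (tr A f N) x * pd Complex.I (tr B g N) x - l * (tr A f N x * tr B g N x)) =
          fun _ => 0 := by
        funext x
        rw [tr_pd hD hb hg, tr_pd hD hb hg, tr_pd hD hb hf, tr_pd hD hb hf]
        by_cases hx : x ∈ A
        · have hx' : x ∉ B := Set.disjoint_left.1 h hx
          have h3 : tr B g N x = 0 := indicator_of_notMem hx' _
          rw [indicator_of_notMem hx', indicator_of_notMem hx', h3]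
          ring
        · have h3 : tr A f N x = 0 := indicator_of_notMem hx _
          rw [indicator_of_notMem hx, indicator_of_notMem hx, h3]
          ring
      rw [h2]
      exact integral_zero _ _
    simp only [h1]
    exact tendsto_const_nhds

end DrumL
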