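import Pool.Agent.Lib.MP_d92c84_anF.Gre

/-!
# The Poincaré inequality on an arbitrary bounded open set
-/

set_option autoImplicit false

namespace DrumL

open MeasureTheory Set Filter Topology
open scoped ContDiff

private theorem Poi_int {D : Set ℂ} (hD : IsOpen D) (hb : Bornology.IsBounded D) {g : ℂ → ℝ}
    (hg : ContinuousOn g D) {M : ℝ} (hM : ∀ x ∈ D, |g x| ≤ M) : IntegrableOn g D := by
  refine IntegrableOn.of_bound hb.measure_lt_top (hg.aestronglyMeasurable hD.measurableSet) M ?_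
  rw [ae_restrict_iff' hD.measurableSet]
  exact Eventually.of_forall fun x hx => hM x hx

/-- The Poincaré inequality for functions which vanish on the boundary of a bounded open set. -/
theorem poincare {D : Set ℂ} (hD : IsOpen D) (hb : Bornology.IsBounded D) {ψ : ℂ → ℝ}
    (hψc : ContinuousOn ψ (closure D)) (hψ : ContDiffOn ℝ 1 ψ D) (hψ0 : ∀ x ∈ frontier D, ψ x = 0) {C : ℝ}
    (hψb : ∀ x ∈ D, ‖fderiv ℝ ψ x‖ ≤ C) {B : ℝ} (hB : ∀ x ∈ D, ‖x‖ ≤ B) :
    ∫ x in D, ψ x ^ 2 ≤ B ^ 2 * ∫ x in D, (pd 1 ψ x ^ 2 + pd Complex.I ψ x ^ 2) := by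
  obtain ⟨M, hM⟩ := hb.isCompact_closure.exists_bound_of_continuousOn hψc
  have hMD : ∀ x ∈ D, |ψ x| ≤ M := fun x hx => hM x (subset_closure hx)
  have hd : ∀ x ∈ D, DifferentiableAt ℝ ψ x := fun x hx =>
    (hψ.differentiableOn (by norm_num)).differentiableAt (hD.mem_nhds hx)
  have hpd : ∀ x ∈ D, ∀ v : ℂ, pd v (fun y => ψ y ^ 2) x = 2 * ψ x * pd v ψ x := by
    intro x hx v
    have h1 : (fun y => ψ y ^ 2) = fun y => ψ y * ψ y := by
      funext y
      ring
    rw [h1, pd_mul (hd x hx) (hd x hx)]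
    ring
  have hpb : ∀ x ∈ D, ∀ v : ℂ, ‖v‖ = 1 → |pd v ψ x| ≤ C := by
    intro x hx v hv
    have h1 := (fderiv ℝ ψ x).le_opNorm v
    rw [hv, mul_one, Real.norm_eq_abs] at h1
    exact h1.trans (hψb x hx)
  have hre : ∀ x : ℂ, pd 1 (fun y => y.re) x = 1 := by
    intro x
    have h1 : HasFDerivAt (fun y : ℂ => y.re) Complex.reCLM x := Complex.reCLM.hasFDerivAt
    unfold pd
    rw [h1.fderiv]
    simp
  have him : ∀ x : ℂ, pd Complex.I (fun y => y.im) x = 1 := by
    intro x
    have h1 : HasFDerivAt (fun y : ℂ => y.im) Complex.imCLM x := Complex.imCLM.hasFDerivAt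
    unfold pd
    rw [h1.fderiv]
    simp
  have hpc : ∀ v : ℂ, ContinuousOn (pd v ψ) D := fun v => (contDiffOn_pd hD (m := 0) hψ (by norm_num) v).continuousOn
  have hψD : ContinuousOn ψ D := hψ.continuousOn
  -- the identity
  set K : ℝ := max (2 * |M| * |C|) (max |B| 2) with hK
  have hK1 : 2 * |M| * |C| ≤ K := le_max_left _ _
  have hK2 : |B| ≤ K := (le_max_left _ _).trans (le_max_right _ _)
  have hK3 : 2 ≤ K := (le_max_right _ _).trans (le_max_right _ _)
  have hg := green (ψ := fun y => ψ y ^ 2) (P := fun y => y.re) (Qf := fun y => y.im) (C := K) hD hb (hψc.pow 2)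
    (hψ.pow 2) (fun x hx => by simp [hψ0 x hx]) Complex.reCLM.contDiff.contDiffOn
    Complex.imCLM.contDiff.contDiffOn ?_ ?_ ?_ ?_
  rotate_left
  · intro x hx
    have h1 : HasFDerivAt (fun y => ψ y ^ 2) ((2 * ψ x) • fderiv ℝ ψ x) x := by
      have h2 := (hd x hx).hasFDerivAt.pow 2
      refine h2.congr_fderiv ?_
      ext v
      simp
    rw [h1.fderiv, norm_smul, Real.norm_eq_abs, abs_mul, abs_two]
    refine le_trans ?_ hK1
    have h3 : |ψ x| ≤ |M| := (hMD x hx).trans (le_abs_self M)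
    have h4 : ‖fderiv ℝ ψ x‖ ≤ |C| := (hψb x hx).trans (le_abs_self C)
    exact mul_le_mul (mul_le_mul_of_nonneg_left h3 (by norm_num)) h4 (norm_nonneg _) (by positivity)
  · intro x hx
    exact (Complex.abs_re_le_norm x).trans ((hB x hx).trans ((le_abs_self B).trans hK2))
  · intro x hx
    exact (Complex.abs_im_le_norm x).trans ((hB x hx).trans ((le_abs_self B).trans hK2))
  · intro x _
    rw [hre, him]
    norm_num
    exact hK3
  have hg' : ∫ x in D, (ψ x ^ 2 * 2 + 2 * ψ x * (pd 1 ψ x * x.re + pd Complex.I ψ x * x.im)) = 0 := by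
    rw [← hg]
    refine setIntegral_congr_fun hD.measurableSet fun x hx => ?_
    rw [hpd x hx, hpd x hx, hre, him]
    ring
  have hn1 : ‖(1 : ℂ)‖ = 1 := norm_one
  have hnI : ‖Complex.I‖ = 1 := Complex.norm_I
  have hi1 : IntegrableOn (fun x => ψ x ^ 2) D := intOn hb (hψc.pow 2)
  have hi2 : IntegrableOn (fun x => pd 1 ψ x ^ 2 + pd Complex.I ψ x ^ 2) D := by
    refine Poi_int hD hb (((hpc 1).pow 2).add ((hpc Complex.I).pow 2)) (M := C ^ 2 + C ^ 2) fun x hx => ?_
    rw [abs_of_nonneg (by positivity)]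
    have h1 := hpb x hx 1 hn1
    have h2 := hpb x hx Complex.I hnI
    rw [← sq_abs (pd 1 ψ x), ← sq_abs (pd Complex.I ψ x)]
    have h3 := pow_le_pow_left₀ (abs_nonneg _) h1 2
    have h4 := pow_le_pow_left₀ (abs_nonneg _) h2 2
    linarith
  have hi3 : IntegrableOn (fun x => ψ x ^ 2 * 2 + 2 * ψ x * (pd 1 ψ x * x.re + pd Complex.I ψ x * x.im)) D := by
    refine Poi_int hD hb ?_ (M := |M| ^ 2 * 2 + 2 * |M| * (|C| * |B| + |C| * |B|)) fun x hx => ?_
    · have h1 : Continuous fun x : ℂ => x.re := Complex.continuous_re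
      have h2 : Continuous fun x : ℂ => x.im := Complex.continuous_im
      exact ((hψD.pow 2).mul continuousOn_const).add ((continuousOn_const.mul hψD).mul
        (((hpc 1).mul h1.continuousOn).add ((hpc Complex.I).mul h2.continuousOn)))
    · have h1 : |ψ x| ≤ |M| := (hMD x hx).trans (le_abs_self M)
      have h2 := (hpb x hx 1 hn1).trans (le_abs_self C)
      have h3 := (hpb x hx Complex.I hnI).trans (le_abs_self C)
      have h4 : |x.re| ≤ |B| := (Complex.abs_re_le_norm x).trans ((hB x hx).trans (le_abs_self B))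
      have h5 : |x.im| ≤ |B| := (Complex.abs_im_le_norm x).trans ((hB x hx).trans (le_abs_self B))
      refine (abs_add_le _ _).trans (add_le_add ?_ ?_)
      · rw [abs_mul, abs_pow, abs_two]
        gcongr
      · rw [abs_mul, abs_mul, abs_two]
        refine mul_le_mul (by gcongr) ((abs_add_le _ _).trans ?_) (abs_nonneg _) (by positivity)
        rw [abs_mul, abs_mul]
        gcongr
  have hmono : ∫ x in D, (ψ x ^ 2 - B ^ 2 * (pd 1 ψ x ^ 2 + pd Complex.I ψ x ^ 2)) ≤
      ∫ x in D, (ψ x ^ 2 * 2 + 2 * ψ x * (pd 1 ψ x * x.re + pd Complex.I ψ x * x.im)) := by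
    refine setIntegral_mono_on (hi1.sub (hi2.const_mul (B ^ 2))) hi3 hD.measurableSet fun x hx => ?_
    have h1 : x.re ^ 2 + x.im ^ 2 ≤ B ^ 2 := by
      have h2 := hB x hx
      have h3 : ‖x‖ ^ 2 = x.re ^ 2 + x.im ^ 2 := by
        rw [← Complex.normSq_eq_norm_sq, Complex.normSq_apply]
        ring
      rw [← h3]
      exact pow_le_pow_left₀ (norm_nonneg x) h2 2
    set a := x.re
    set b := x.im
    set p := pd 1 ψ x
    set q := pd Complex.I ψ x
    set s := ψ x
    nlinarith [sq_nonneg (s + (p * a + q * b)), sq_nonneg (p * b - q * a),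
      mul_nonneg (sub_nonneg.2 h1) (add_nonneg (sq_nonneg p) (sq_nonneg q))]
  rw [hg', integral_sub hi1 (hi2.const_mul (B ^ 2)), integral_const_mul] at hmono
  linarith

end DrumL
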