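import Pool.Agent.Lib.MP_d92c84_anF.Hqo
import Pool.Agent.Lib.MP_d92c84_anF.Kib

/-!
# Combinations of functions critical on the boundary and of their Killing derivatives
-/

set_option autoImplicit false

namespace DrumL

open MeasureTheory Set Filter Topology
open scoped ContDiff

/-- The combination of the functions `v i - c i` and of Killing derivatives of the `v i`. -/
noncomputable def cP {m : ℕ} (c : Fin (m + 1) → ℝ) (v : Fin (m + 1) → ℂ → ℝ) (a : Fin (m + 1) → ℝ)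
    (α : Fin (m + 1) → ℂ) (γ : Fin (m + 1) → ℝ) (x : ℂ) : ℝ := ∑ i, (a i * (v i x - c i) + kd (α i) (γ i) (v i) x)

/-- A combination of the functions `v i`. -/
noncomputable def cV {m : ℕ} (v : Fin (m + 1) → ℂ → ℝ) (e : Fin (m + 1) → ℝ) (x : ℂ) : ℝ := ∑ i, e i * v i x

private theorem Pvf_congr {U : Set ℂ} (hU : IsOpen U) {f g : ℂ → ℝ} (h : ∀ y ∈ U, f y = g y) {x : ℂ} (hx : x ∈ U)
    (v : ℂ) : pd v f x = pd v g x := by
  unfold pd
  have h1 : f =ᶠ[𝓝 x] g := Filter.mem_of_superset (hU.mem_nhds hx) h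
  rw [h1.fderiv_eq]

private theorem Pvf_diff {D : Set ℂ} (hD : IsOpen D) {f : ℂ → ℝ} (hf : ContDiffOn ℝ ∞ f D) {x : ℂ} (hx : x ∈ D) :
    DifferentiableAt ℝ f x := (hf.differentiableOn (by simp)).differentiableAt (hD.mem_nhds hx)

private theorem Pvf_pd_sum {n : ℕ} {D : Set ℂ} (hD : IsOpen D) {F : Fin n → ℂ → ℝ} (hF : ∀ i, ContDiffOn ℝ ∞ (F i) D)
    (w : ℂ) {x : ℂ} (hx : x ∈ D) : pd w (fun y => ∑ i, F i y) x = ∑ i, pd w (F i) x := by
  unfold pd
  rw [fderiv_fun_sum fun i _ => Pvf_diff hD (hF i) hx]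
  simp

private theorem Pvf_lap_sum {n : ℕ} {D : Set ℂ} (hD : IsOpen D) {F : Fin n → ℂ → ℝ} (hF : ∀ i, ContDiffOn ℝ ∞ (F i) D)
    {x : ℂ} (hx : x ∈ D) : lap (fun y => ∑ i, F i y) x = ∑ i, lap (F i) x := by
  have h1 : ∀ w, pd w (pd w (fun y => ∑ i, F i y)) x = ∑ i, pd w (pd w (F i)) x := fun w => by
    rw [Pvf_congr hD (fun y hy => Pvf_pd_sum hD hF w hy) hx w]
    exact Pvf_pd_sum hD (fun i => contDiffOn_pd hD (hF i) (by simp) w) w hx
  unfold lap
  rw [h1, h1, Finset.sum_add_distrib]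

private theorem Pvf_pd_one {D : Set ℂ} (hD : IsOpen D) {f g : ℂ → ℝ} (hf : ContDiffOn ℝ ∞ f D)
    (hg : ContDiffOn ℝ ∞ g D) (a c : ℝ) (w : ℂ) {x : ℂ} (hx : x ∈ D) :
    pd w (fun y => a * (f y - c) + g y) x = a * pd w f x + pd w g x := by
  have h1 : DifferentiableAt ℝ (fun y => f y - c) x := (Pvf_diff hD hf hx).sub_const c
  have h3 : pd w (fun y => f y - c) x = pd w f x := by
    unfold pd
    rw [fderiv_sub_const]
  rw [pd_add (h1.const_mul a) (Pvf_diff hD hg hx) w, pd_const_mul h1 a w, h3]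

private theorem Pvf_lap_one {D : Set ℂ} (hD : IsOpen D) {f g : ℂ → ℝ} (hf : ContDiffOn ℝ ∞ f D)
    (hg : ContDiffOn ℝ ∞ g D) (a c : ℝ) {x : ℂ} (hx : x ∈ D) :
    lap (fun y => a * (f y - c) + g y) x = a * lap f x + lap g x := by
  have hs : ∀ {h : ℂ → ℝ}, ContDiffOn ℝ ∞ h D → ∀ w, ContDiffOn ℝ ∞ (pd w h) D := fun hh w =>
    contDiffOn_pd hD hh (by simp) w
  have h1 : ∀ w, pd w (pd w (fun y => a * (f y - c) + g y)) x = a * pd w (pd w f) x + pd w (pd w g) x := fun w => by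
    rw [Pvf_congr hD (fun y hy => Pvf_pd_one hD hf hg a c w hy) hx w]
    have h2 := Pvf_pd_one hD (hs hf w) (hs hg w) a 0 w hx
    simp only [sub_zero] at h2
    exact h2
  unfold lap
  rw [h1, h1]
  ring

/-- The first combination vanishes on the boundary. -/
theorem cP_pz {m : ℕ} {l c : Fin (m + 1) → ℝ} {D A : Set ℂ} (hD : IsOpen D) {v : Fin (m + 1) → ℂ → ℝ}
    (hv : ∀ i, Sc (l i) (c i) D A (v i)) (a : Fin (m + 1) → ℝ) (α : Fin (m + 1) → ℂ) (γ : Fin (m + 1) → ℝ) :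
    Pz D A (cP c v a α γ) := by
  refine ⟨(hv 0).isOpen, (hv 0).sub, ?_, ?_⟩
  · unfold cP
    exact ContDiffOn.sum fun i _ => (contDiffOn_const.mul ((hv i).hz.smooth.sub contDiffOn_const)).add
      ((hv i).pzkd hD (α i) (γ i)).smooth
  · intro x hx
    unfold cP
    refine Finset.sum_eq_zero fun i _ => ?_
    rw [(hv i).val x hx, ((hv i).pzkd hD (α i) (γ i)).zero x hx, sub_self, mul_zero, add_zero]

/-- The Laplacian of the first combination. -/
theorem cP_lap {m : ℕ} {l c : Fin (m + 1) → ℝ} {D : Set ℂ} (hD : IsOpen D) {v : Fin (m + 1) → ℂ → ℝ}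
    (hv : ∀ i, Hz (l i) D (v i)) (a : Fin (m + 1) → ℝ) (α : Fin (m + 1) → ℂ) (γ : Fin (m + 1) → ℝ) (L : ℝ) {x : ℂ}
    (hx : x ∈ D) : lap (cP c v a α γ) x + L * cP c v a α γ x =
      (∑ i, (L - l i) * (a i * v i x + kd (α i) (γ i) (v i) x)) - L * ∑ i, a i * c i := by
  have h1 : lap (cP c v a α γ) x = ∑ i, -l i * (a i * v i x + kd (α i) (γ i) (v i) x) := by
    have h2 := Pvf_lap_sum hD (F := fun i y => a i * (v i y - c i) + kd (α i) (γ i) (v i) y)
      (fun i => (contDiffOn_const.mul ((hv i).smooth.sub contDiffOn_const)).add (hz_kd hD (hv i) (α i) (γ i)).smooth)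
      hx
    refine h2.trans (Finset.sum_congr rfl fun i _ => ?_)
    rw [Pvf_lap_one hD (hv i).smooth (hz_kd hD (hv i) (α i) (γ i)).smooth (a i) (c i) hx, (hv i).eq x hx,
      (hz_kd hD (hv i) (α i) (γ i)).eq x hx]
    ring
  rw [h1]
  unfold cP
  rw [Finset.mul_sum, Finset.mul_sum, ← Finset.sum_add_distrib, ← Finset.sum_sub_distrib]
  exact Finset.sum_congr rfl fun i _ => by ring

/-- The second combination is smooth. -/
theorem cV_smooth {m : ℕ} {l : Fin (m + 1) → ℝ} {D : Set ℂ} {v : Fin (m + 1) → ℂ → ℝ}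
    (hv : ∀ i, Hz (l i) D (v i)) (e : Fin (m + 1) → ℝ) : ContDiffOn ℝ ∞ (cV v e) D := by
  unfold cV
  exact ContDiffOn.sum fun i _ => contDiffOn_const.mul (hv i).smooth

/-- The derivatives of the second combination. -/
theorem cV_pd {m : ℕ} {l : Fin (m + 1) → ℝ} {D : Set ℂ} (hD : IsOpen D) {v : Fin (m + 1) → ℂ → ℝ}
    (hv : ∀ i, Hz (l i) D (v i)) (e : Fin (m + 1) → ℝ) (w : ℂ) {x : ℂ} (hx : x ∈ D) :
    pd w (cV v e) x = ∑ i, e i * pd w (v i) x := by
  have h2 := Pvf_pd_sum hD (F := fun i y => e i * v i y) (fun i => contDiffOn_const.mul (hv i).smooth) w hx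
  refine h2.trans (Finset.sum_congr rfl fun i _ => ?_)
  exact pd_const_mul (Pvf_diff hD (hv i).smooth hx) (e i) w

/-- The Laplacian of the second combination. -/
theorem cV_lap {m : ℕ} {l : Fin (m + 1) → ℝ} {D : Set ℂ} (hD : IsOpen D) {v : Fin (m + 1) → ℂ → ℝ}
    (hv : ∀ i, Hz (l i) D (v i)) (e : Fin (m + 1) → ℝ) (L : ℝ) {x : ℂ}
    (hx : x ∈ D) : lap (cV v e) x + L * cV v e x = ∑ i, (L - l i) * (e i * v i x) := by
  have h1 : lap (cV v e) x = ∑ i, -l i * (e i * v i x) := by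
    have h2 := Pvf_lap_sum hD (F := fun i y => e i * v i y) (fun i => contDiffOn_const.mul (hv i).smooth) hx
    refine h2.trans (Finset.sum_congr rfl fun i _ => ?_)
    have h3 := Pvf_lap_one hD (hv i).smooth (contDiffOn_const (c := (0 : ℝ))) (e i) 0 hx
    have h4 : lap (fun _ : ℂ => (0 : ℝ)) x = 0 := by
      have h5 : ∀ w : ℂ, pd w (fun _ : ℂ => (0 : ℝ)) = fun _ => 0 := fun w => by
        funext y
        unfold pd
        simp
      unfold lap
      rw [h5, h5, h5, h5, add_zero]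
    simp only [sub_zero, add_zero] at h3
    rw [h3, h4, (hv i).eq x hx]
    ring
  rw [h1]
  unfold cV
  rw [Finset.mul_sum, ← Finset.sum_add_distrib]
  exact Finset.sum_congr rfl fun i _ => by ring

end DrumL
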