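import Pool.Agent.Lib.MP_d92c84_anF.Pol

/-!
# Convolution with radial kernels
-/

set_option autoImplicit false

namespace DrumL

open MeasureTheory Set Filter Topology
open scoped ContDiff Real ComplexConjugate

/-- The kernel `ȳ^n k⁽ⁿ⁾(|y|²)`, the `n`-th complex derivative `∂ⁿ` of the radial function `k(|y|²)`. -/
noncomputable def kern (n : ℕ) (k : ℝ → ℝ) (y : ℂ) : ℂ := conj y ^ n * (iteratedDeriv n k (‖y‖ ^ 2) : ℝ)

/-- The convolution of `w` with the kernel. -/
noncomputable def An (n : ℕ) (k : ℝ → ℝ) (w : ℂ → ℝ) (x : ℂ) : ℂ := ∫ y, (w y : ℂ) * kern n k (x - y)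

/-- The admissible profiles. -/
structure Prf (δ : ℝ) (k : ℝ → ℝ) : Prop where
  smooth : ContDiff ℝ ∞ k
  zero : ∀ s, δ ^ 2 ≤ s → k s = 0

private theorem Rdk_zero {δ : ℝ} {k : ℝ → ℝ} (hk : Prf δ k) (n : ℕ) {s : ℝ} (hs : δ ^ 2 ≤ s) :
    iteratedDeriv n k s = 0 := by
  have hc : Continuous (iteratedDeriv n k) := hk.smooth.continuous_iteratedDeriv n (by exact_mod_cast le_top)
  have h1 : Ioi (δ ^ 2) ⊆ {s | iteratedDeriv n k s = 0} := by
    intro t ht
    have h2 : k =ᶠ[𝓝 t] fun _ => 0 := by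
      filter_upwards [isOpen_Ioi.mem_nhds ht] with y hy
      exact hk.zero y (le_of_lt hy)
    show iteratedDeriv n k t = 0
    rw [h2.iteratedDeriv_eq]
    simp
  have h3 : closure (Ioi (δ ^ 2)) ⊆ {s | iteratedDeriv n k s = 0} :=
    closure_minimal h1 (isClosed_eq hc continuous_const)
  rw [closure_Ioi] at h3
  exact h3 hs

private theorem Rdk_cis (θ : ℝ) : (Real.cos θ : ℂ) + Real.sin θ * Complex.I = cis θ := by
  unfold cis
  rw [Complex.exp_mul_I]
  push_cast
  rfl

private theorem Rdk_norm (r θ : ℝ) : ‖-((r : ℂ) * cis θ)‖ ^ 2 = r ^ 2 := by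
  unfold cis
  rw [norm_neg, norm_mul, Complex.norm_exp_ofReal_mul_I, mul_one, Complex.norm_real, Real.norm_eq_abs, sq_abs]

private theorem Rdk_kern (n : ℕ) (k : ℝ → ℝ) (r θ : ℝ) :
    kern n k (-((r : ℂ) * cis θ)) =
      (-1) ^ n * ((r ^ n * iteratedDeriv n k (r ^ 2) : ℝ) : ℂ) * Complex.exp (-(n * θ * Complex.I)) := by
  unfold kern
  rw [Rdk_norm]
  have h1 : conj (-((r : ℂ) * cis θ)) = (-1) * (r * Complex.exp (-(θ * Complex.I))) := by
    unfold cis
    rw [map_neg, map_mul, Complex.conj_ofReal, ← Complex.exp_conj, map_mul, Complex.conj_ofReal, Complex.conj_I]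
    rw [show (θ : ℂ) * -Complex.I = -(θ * Complex.I) by ring]
    ring
  rw [h1, mul_pow, mul_pow, ← Complex.exp_nat_mul]
  rw [show (n : ℂ) * -((θ : ℂ) * Complex.I) = -(n * θ * Complex.I) by ring]
  push_cast
  ring

/-- Polar coordinates about `x` for the convolution with the kernel. -/
theorem An_polar {δ : ℝ} (hδ : 0 < δ) {k : ℝ → ℝ} (hk : Prf δ k) (n : ℕ) {w : ℂ → ℝ} (hw : Continuous w) (x : ℂ) :
    An n k w x = (-1) ^ n * ∫ r in (0 : ℝ)..δ, ((r ^ (n + 1) * iteratedDeriv n k (r ^ 2) : ℝ) : ℂ) * md n x w r := by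
  have hc : Continuous (iteratedDeriv n k) := hk.smooth.continuous_iteratedDeriv n (by exact_mod_cast le_top)
  have hkc : Continuous (kern n k) := by
    unfold kern
    exact (Complex.continuous_conj.pow n).mul (Complex.continuous_ofReal.comp (hc.comp (continuous_norm.pow 2)))
  set f : ℂ → ℂ := fun y => (w (x + y) : ℂ) * kern n k (-y) with hf
  have hfc : Continuous f :=
    (Complex.continuous_ofReal.comp (hw.comp (continuous_const.add continuous_id))).mul (hkc.comp continuous_neg)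
  have h1 : An n k w x = ∫ y, f y := by
    unfold An
    rw [← integral_add_left_eq_self (fun y => (w y : ℂ) * kern n k (x - y)) x]
    refine integral_congr_ae (Eventually.of_forall fun y => ?_)
    simp only [hf]
    rw [show x - (x + y) = -y by ring]
  rw [h1, ← Complex.integral_comp_polarCoord_symm f]
  set g : ℝ × ℝ → ℂ := fun p => p.1 • f (Complex.polarCoord.symm p) with hg
  have hpe : ∀ p : ℝ × ℝ, Complex.polarCoord.symm p = (p.1 : ℂ) * cis p.2 := by
    intro p
    rw [Complex.polarCoord_symm_apply, Rdk_cis]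
  have hgc : Continuous g := by
    have h2 : g = fun p : ℝ × ℝ => p.1 • f ((p.1 : ℂ) * cis p.2) := by
      funext p
      simp only [hg, hpe]
    rw [h2]
    refine continuous_fst.smul (hfc.comp ?_)
    unfold cis
    fun_prop
  have hgf : ∀ r θ : ℝ, g (r, θ) = (-1) ^ n * (((r ^ (n + 1) * iteratedDeriv n k (r ^ 2) : ℝ) : ℂ) *
      ((w (x + r * cis θ) : ℂ) * Complex.exp (-(n * θ * Complex.I)))) := by
    intro r θ
    simp only [hg, hpe, hf, Rdk_kern, Complex.real_smul]
    push_cast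
    ring
  have htar : polarCoord.target = Ioi (0 : ℝ) ×ˢ Ioo (-π) π := rfl
  have h3 : ∫ p in polarCoord.target, g p = ∫ p in Ioc 0 δ ×ˢ Ioo (-π) π, g p := by
    rw [htar]
    refine setIntegral_eq_of_subset_of_forall_sdiff_eq_zero (measurableSet_Ioi.prod measurableSet_Ioo) ?_ ?_
    · exact prod_mono (fun r hr => hr.1) Subset.rfl
    · rintro ⟨r, θ⟩ ⟨⟨h4, h5⟩, h6⟩
      have h7 : δ ≤ r := by
        by_contra h8
        exact h6 ⟨⟨h4, (not_le.1 h8).le⟩, h5⟩
      rw [hgf, Rdk_zero hk n (by gcongr)]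
      simp
  have hint : IntegrableOn g (Ioc 0 δ ×ˢ Ioo (-π) π) (volume.prod volume) := by
    have h4 : IntegrableOn g (Icc 0 δ ×ˢ Icc (-π) π) (volume.prod volume) :=
      hgc.continuousOn.integrableOn_compact (isCompact_Icc.prod isCompact_Icc)
    exact h4.mono_set (prod_mono Ioc_subset_Icc_self Ioo_subset_Icc_self)
  have h5 : ∫ p in Ioc 0 δ ×ˢ Ioo (-π) π, g p = ∫ r in Ioc 0 δ, ∫ θ in Ioo (-π) π, g (r, θ) := setIntegral_prod g hint
  rw [h3, h5, intervalIntegral.integral_of_le hδ.le, ← integral_const_mul]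
  refine setIntegral_congr_fun measurableSet_Ioc fun r _ => ?_
  show ∫ θ in Ioo (-π) π, g (r, θ) = _
  rw [← integral_Ioc_eq_integral_Ioo, ← intervalIntegral.integral_of_le (by linarith [Real.pi_pos])]
  simp only [hgf]
  rw [intervalIntegral.integral_const_mul, intervalIntegral.integral_const_mul]
  congr 2
  unfold md
  have hper : Function.Periodic (fun θ : ℝ => (w (x + r * cis θ) : ℂ) * Complex.exp (-(n * θ * Complex.I))) (2 * π) := by
    intro θ
    have e1 : cis (θ + 2 * π) = cis θ := by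
      unfold cis
      push_cast
      rw [add_mul, Complex.exp_add, Complex.exp_two_pi_mul_I, mul_one]
    have e2 : Complex.exp (-(n * ((θ + 2 * π : ℝ) : ℂ) * Complex.I)) = Complex.exp (-(n * θ * Complex.I)) := by
      push_cast
      rw [show -((n : ℂ) * (θ + 2 * π) * Complex.I) = -(n * θ * Complex.I) + ((-n : ℤ) : ℂ) * (2 * π * Complex.I) by
        push_cast; ring]
      rw [Complex.exp_add, Complex.exp_int_mul_two_pi_mul_I, mul_one]
    simp only [e1, e2]
  have h6 := hper.intervalIntegral_add_eq (-π) 0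
  rw [show -π + 2 * π = π by ring, zero_add] at h6
  exact h6

end DrumL
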