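import Pool.Agent.Lib.MP_d92c84_anF.Cvb
import Pool.Agent.Lib.MP_d92c84_anF.Mvl

/-!
# Comparison of two convolutions of a weak solution
-/

set_option autoImplicit false

namespace DrumL

open MeasureTheory Set Filter Topology
open scoped ContDiff Real

/-- The mean value property of the convolution of a weak solution. -/
theorem Rga_mv {D : Set ℂ} (hD : IsOpen D) {l : ℝ} (hl : 0 < l) {u : ℂ → ℝ} (hu : IntegrableOn u D)
    (hw : ∀ φ : ℂ → ℝ, Tst D φ → ∫ x in D, u x * (lap φ x + l * φ x) = 0) {δ ε : ℝ} (hδ : 0 < δ)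
    (hε : 0 < ε) {x : ℂ} (hx : Metric.closedBall x (δ + ε) ⊆ D) :
    ∫ y, cv D u δ y * bmp ε (x - y) = kap l ε * cv D u δ x := by
  obtain ⟨hS, hz⟩ := hz_cv hD hu hw hδ
  have h1 : Metric.closedBall x ε ⊆ {y | Metric.closedBall y δ ⊆ D} := by
    intro y hy
    refine (Metric.closedBall_subset_closedBall' ?_).trans hx
    rw [Metric.mem_closedBall] at hy
    linarith
  obtain ⟨η, hη, hη'⟩ := (isCompact_closedBall x ε).exists_thickening_subset_open hS h1
  rw [thickening_closedBall hη hε.le] at hη'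
  exact mv_bmp hl hε (lt_add_of_pos_left ε hη) (hz.mono hη')

/-- The double integral is symmetric. -/
theorem Rga_fub {D : Set ℂ} {u : ℂ → ℝ} (hu : IntegrableOn u D) {δ ε : ℝ} (hδ : 0 < δ)
    (hε : 0 < ε) (x : ℂ) :
    ∫ y, cv D u δ y * bmp ε (x - y) =
      ∫ y' in D, u y' * ∫ y, bmp δ (y - y') * bmp ε (x - y) := by
  have hc : ∀ r, Continuous (bmp r) := fun r => (contDiff_bmp r).continuous
  obtain ⟨C, hC⟩ := (compact_bmp hδ.le).exists_bound_of_continuous (hc δ)
  have hb : Integrable (fun y : ℂ => bmp ε (x - y)) := by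
    refine ((hc ε).comp (continuous_const.sub continuous_id)).integrable_of_hasCompactSupport ?_
    refine HasCompactSupport.of_support_subset_isCompact (isCompact_closedBall x ε) fun y hy => ?_
    by_contra h2
    refine hy (bmp_zero hε.le ?_)
    rw [Metric.mem_closedBall, dist_comm, dist_eq_norm, not_le] at h2
    exact h2.le
  have hint : Integrable (Function.uncurry fun y y' : ℂ => u y' * bmp δ (y - y') * bmp ε (x - y))
      (volume.prod (volume.restrict D)) := by
    have h1 : Integrable (fun z : ℂ × ℂ => bmp ε (x - z.1) * u z.2)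
        (volume.prod (volume.restrict D)) := hb.mul_prod hu
    have h2 : Continuous fun z : ℂ × ℂ => bmp δ (z.1 - z.2) :=
      (hc δ).comp (continuous_fst.sub continuous_snd)
    have h3 := h1.bdd_mul (c := C) h2.aestronglyMeasurable
      (Filter.Eventually.of_forall fun z => hC _)
    refine h3.congr (Filter.Eventually.of_forall fun z => ?_)
    show bmp δ (z.1 - z.2) * (bmp ε (x - z.1) * u z.2) = u z.2 * bmp δ (z.1 - z.2) * bmp ε (x - z.1)
    ring
  have h1 : ∀ y, cv D u δ y * bmp ε (x - y) =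
      ∫ y' in D, u y' * bmp δ (y - y') * bmp ε (x - y) := by
    intro y
    unfold cv
    rw [integral_mul_const]
  rw [integral_congr_ae (Filter.Eventually.of_forall h1), integral_integral_swap hint]
  refine integral_congr_ae (Filter.Eventually.of_forall fun y' => ?_)
  show (∫ y, u y' * bmp δ (y - y') * bmp ε (x - y)) = u y' * ∫ y, bmp δ (y - y') * bmp ε (x - y)
  rw [← integral_const_mul]
  refine integral_congr_ae (Filter.Eventually.of_forall fun y => ?_)
  show u y' * bmp δ (y - y') * bmp ε (x - y) = u y' * (bmp δ (y - y') * bmp ε (x - y))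
  ring

/-- Two convolutions of a weak solution are proportional. -/
theorem cv_comm {D : Set ℂ} (hD : IsOpen D) {l : ℝ} (hl : 0 < l) {u : ℂ → ℝ} (hu : IntegrableOn u D)
    (hw : ∀ φ : ℂ → ℝ, Tst D φ → ∫ x in D, u x * (lap φ x + l * φ x) = 0) {δ ε : ℝ} (hδ : 0 < δ) (hε : 0 < ε) {x : ℂ}
    (hx : Metric.closedBall x (δ + ε) ⊆ D) : kap l ε * cv D u δ x = kap l δ * cv D u ε x := by
  rw [← Rga_mv hD hl hu hw hδ hε hx, ← Rga_mv hD hl hu hw hε hδ (by rwa [add_comm ε δ]),
    Rga_fub hu hδ hε x, Rga_fub hu hε hδ x]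
  refine integral_congr_ae (Filter.Eventually.of_forall fun y' => ?_)
  show u y' * (∫ y, bmp δ (y - y') * bmp ε (x - y)) = u y' * ∫ y, bmp ε (y - y') * bmp δ (x - y)
  rw [← integral_sub_left_eq_self (fun y => bmp δ (y - y') * bmp ε (x - y)) volume (x + y')]
  refine congrArg _ (integral_congr_ae (Filter.Eventually.of_forall fun y => ?_))
  show bmp δ (x + y' - y - y') * bmp ε (x - (x + y' - y)) = bmp ε (y - y') * bmp δ (x - y)
  have h1 : x + y' - y - y' = x - y := by ring
  have h2 : x - (x + y' - y) = y - y' := by ring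
  rw [h1, h2, mul_comm]

end DrumL
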