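import Pool.Agent.Lib.MP_d92c84_anF.Par

/-!
# Sard's theorem for C² functions on the plane: critical points with nonzero second derivative
-/

set_option autoImplicit false

namespace DrumL

open MeasureTheory Set Filter Topology
open scoped ContDiff

/-- The length of a vector in terms of a linear form and its rotation. -/
theorem Sa1_norm (L : ℂ →L[ℝ] ℝ) (z : ℂ) :
    (L 1 ^ 2 + L Complex.I ^ 2) * ‖z‖ ^ 2 =
      L z ^ 2 + (L 1 * z.im - L Complex.I * z.re) ^ 2 := by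
  have h1 : L z = L 1 * z.re + L Complex.I * z.im := by
    have h2 : z = z.re • (1 : ℂ) + z.im • Complex.I := by
      apply Complex.ext <;> simp
    conv_lhs => rw [h2]
    rw [map_add, map_smul, map_smul, smul_eq_mul, smul_eq_mul]
    ring
  rw [h1, Complex.sq_norm, Complex.normSq_apply]
  ring

/-- A set on which `p` is expanding and on which `f` is critical has an image of measure zero. -/
theorem Sa1_image {f : ℂ → ℝ} {K : Set ℂ} {p : ℂ → ℝ} {M : ℝ}
    (hM : ∀ x ∈ K, ∀ y ∈ K, ‖x - y‖ ≤ M * |p x - p y|)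
    (hf : ∀ x ∈ K, HasFDerivAt f (0 : ℂ →L[ℝ] ℝ) x) : volume (f '' K) = 0 := by
  classical
  have hinj : InjOn p K := by
    intro x hx y hy hxy
    have h1 := hM x hx y hy
    rw [hxy, sub_self, abs_zero, mul_zero] at h1
    exact sub_eq_zero.1 (norm_le_zero_iff.1 h1)
  set h : ℝ → ℂ := Function.invFunOn p K with hh
  have hmem : ∀ s ∈ p '' K, h s ∈ K := fun s hs => Function.invFunOn_mem hs
  have heq : ∀ s ∈ p '' K, p (h s) = s := fun s hs => Function.invFunOn_eq hs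
  have himg : f '' K = (fun s => f (h s)) '' (p '' K) := by
    apply Subset.antisymm
    · rintro _ ⟨x, hx, rfl⟩
      have h1 : p x ∈ p '' K := ⟨x, hx, rfl⟩
      refine ⟨p x, h1, ?_⟩
      show f (h (p x)) = f x
      rw [hinj (hmem _ h1) hx (heq _ h1)]
    · rintro _ ⟨s, hs, rfl⟩
      exact ⟨h s, hmem s hs, rfl⟩
  rw [himg]
  refine addHaar_image_eq_zero_of_det_fderivWithin_eq_zero volume (f' := fun _ => (0 : ℝ →L[ℝ] ℝ)) ?_ ?_
  · intro s hs
    have h1 := hf (h s) (hmem s hs)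
    have hbig : (fun s' => h s' - h s) =O[𝓝[p '' K] s] fun s' => s' - s := by
      refine Asymptotics.IsBigO.of_bound M ?_
      filter_upwards [self_mem_nhdsWithin] with s' hs'
      have h2 := hM _ (hmem s' hs') _ (hmem s hs)
      rw [heq s' hs', heq s hs] at h2
      rw [Real.norm_eq_abs]
      exact h2
    have hlim : Tendsto h (𝓝[p '' K] s) (𝓝 (h s)) := by
      have h3 : Tendsto (fun s' => s' - s) (𝓝[p '' K] s) (𝓝 0) := by
        have h4 : Tendsto (fun s' : ℝ => s' - s) (𝓝 s) (𝓝 (s - s)) := tendsto_id.sub_const s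
        rw [sub_self] at h4
        exact h4.mono_left nhdsWithin_le_nhds
      have h5 := hbig.trans_tendsto h3
      have h6 := h5.add_const (h s)
      simpa using h6
    have h7 := (hasFDerivAt_iff_isLittleO.1 h1).comp_tendsto hlim
    rw [hasFDerivWithinAt_iff_isLittleO]
    have h8 := h7.trans_isBigO hbig
    refine h8.congr_left ?_
    intro s'
    simp
  · intro s _
    simp [ContinuousLinearMap.det]

/-- The local statement of Sard's theorem at a critical point with nonzero second derivative. -/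
theorem sard_local {D : Set ℂ} (hD : IsOpen D) {f : ℂ → ℝ} (hf : ContDiffOn ℝ 2 f D) {x₀ : ℂ} (hx₀ : x₀ ∈ D)
    (h2 : fderiv ℝ (fderiv ℝ f) x₀ ≠ 0) :
    ∃ U ∈ 𝓝 x₀, volume (f '' (U ∩ {x | x ∈ D ∧ fderiv ℝ f x = 0})) = 0 := by
  have hg : ContDiffOn ℝ 1 (fderiv ℝ f) D := hf.fderiv_of_isOpen hD (by norm_num)
  have hga : ContDiffAt ℝ 1 (fderiv ℝ f) x₀ := hg.contDiffAt (hD.mem_nhds hx₀)
  obtain ⟨v, hv⟩ : ∃ v : ℂ, (fderiv ℝ (fderiv ℝ f) x₀).flip v ≠ 0 := by
    by_contra hcon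
    push Not at hcon
    apply h2
    ext z w
    have h3 := congrArg (fun l : ℂ →L[ℝ] ℝ => l z) (hcon w)
    simpa using h3
  set L : ℂ →L[ℝ] ℝ := (fderiv ℝ (fderiv ℝ f) x₀).flip v with hL
  have hn : 0 < L 1 ^ 2 + L Complex.I ^ 2 := by
    rcases (add_nonneg (sq_nonneg (L 1)) (sq_nonneg (L Complex.I))).lt_or_eq with h3 | h3
    · exact h3
    · exfalso
      apply hv
      ext z
      have h4 := Sa1_norm L z
      rw [← h3, zero_mul] at h4
      have h5 : L z ^ 2 = 0 := by nlinarith [sq_nonneg (L z), sq_nonneg (L 1 * z.im - L Complex.I * z.re)]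
      simpa using h5
  set n : ℝ := L 1 ^ 2 + L Complex.I ^ 2 with hndef
  have hstrict : HasStrictFDerivAt (fun x => fderiv ℝ f x v) L x₀ := by
    have h3 : HasStrictFDerivAt (fderiv ℝ f) (fderiv ℝ (fderiv ℝ f) x₀) x₀ :=
      hga.hasStrictFDerivAt (by norm_num)
    have h4 := ((ContinuousLinearMap.apply ℝ ℝ v).hasStrictFDerivAt (x := fderiv ℝ f x₀)).comp x₀ h3
    exact h4
  have hε : 0 < Real.sqrt (n / 2) := Real.sqrt_pos.2 (by linarith)
  have hev := hstrict.isLittleO.def hε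
  rw [nhds_prod_eq, Filter.Eventually, Filter.mem_prod_self_iff] at hev
  obtain ⟨U, hU, hUU⟩ := hev
  refine ⟨U, hU, ?_⟩
  refine Sa1_image (p := fun z => L 1 * z.im - L Complex.I * z.re) (M := Real.sqrt (2 / n)) ?_ ?_
  · rintro x ⟨hxU, hxD, hx0⟩ y ⟨hyU, hyD, hy0⟩
    have h3 := hUU (mk_mem_prod hxU hyU)
    simp only [mem_ofPred_eq] at h3
    rw [hx0, hy0] at h3
    simp only [zero_apply, sub_self, zero_sub, norm_neg] at h3
    have h4 : L (x - y) ^ 2 ≤ n / 2 * ‖x - y‖ ^ 2 := by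
      rw [← sq_abs (L (x - y)), ← Real.norm_eq_abs]
      calc ‖L (x - y)‖ ^ 2 ≤ (Real.sqrt (n / 2) * ‖x - y‖) ^ 2 :=
            pow_le_pow_left₀ (norm_nonneg _) h3 2
        _ = n / 2 * ‖x - y‖ ^ 2 := by
            rw [mul_pow, Real.sq_sqrt (by linarith)]
    have h5 := Sa1_norm L (x - y)
    have h6 : L 1 * x.im - L Complex.I * x.re - (L 1 * y.im - L Complex.I * y.re) =
        L 1 * (x - y).im - L Complex.I * (x - y).re := by
      rw [Complex.sub_im, Complex.sub_re]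
      ring
    have h7 : ‖x - y‖ ^ 2 ≤ 2 / n * (L 1 * (x - y).im - L Complex.I * (x - y).re) ^ 2 := by
      rw [div_mul_eq_mul_div, le_div_iff₀ hn]
      nlinarith
    have h8 : ‖x - y‖ ≤ Real.sqrt (2 / n * (L 1 * (x - y).im - L Complex.I * (x - y).re) ^ 2) :=
      Real.le_sqrt_of_sq_le h7
    rw [Real.sqrt_mul (by positivity), Real.sqrt_sq_eq_abs] at h8
    show ‖x - y‖ ≤ Real.sqrt (2 / n) *
      |L 1 * x.im - L Complex.I * x.re - (L 1 * y.im - L Complex.I * y.re)|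
    rw [h6]
    exact h8
  · rintro x ⟨_, hxD, hx0⟩
    have h3 : DifferentiableAt ℝ f x :=
      (hf.contDiffAt (hD.mem_nhds hxD)).differentiableAt (by norm_num)
    have h4 := h3.hasFDerivAt
    rw [hx0] at h4
    exact h4

/-- The values at the critical points with nonzero second derivative form a set of measure zero. -/
theorem sard_one {D : Set ℂ} (hD : IsOpen D) {f : ℂ → ℝ} (hf : ContDiffOn ℝ 2 f D) :
    volume (f '' {x | x ∈ D ∧ fderiv ℝ f x = 0 ∧ fderiv ℝ (fderiv ℝ f) x ≠ 0}) = 0 := by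
  classical
  set S : Set ℂ := {x | x ∈ D ∧ fderiv ℝ f x = 0 ∧ fderiv ℝ (fderiv ℝ f) x ≠ 0} with hS
  have h1 : ∀ x : ℂ, ∃ U : Set ℂ, x ∈ S →
      U ∈ 𝓝 x ∧ volume (f '' (U ∩ {x | x ∈ D ∧ fderiv ℝ f x = 0})) = 0 := by
    intro x
    by_cases hx : x ∈ S
    · obtain ⟨U, hU, hU0⟩ := sard_local hD hf hx.1 hx.2.2
      exact ⟨U, fun _ => ⟨hU, hU0⟩⟩
    · exact ⟨∅, fun h => absurd h hx⟩
  choose U hU using h1
  obtain ⟨t, htS, htc, hcov⟩ := TopologicalSpace.countable_cover_nhdsWithin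
    (s := S) (f := U) (fun x hx => mem_nhdsWithin_of_mem_nhds (hU x hx).1)
  have h2 : f '' S ⊆ ⋃ x ∈ t, f '' (U x ∩ {x | x ∈ D ∧ fderiv ℝ f x = 0}) := by
    rintro _ ⟨y, hy, rfl⟩
    obtain ⟨x, hx, hyx⟩ := mem_iUnion₂.1 (hcov hy)
    exact mem_iUnion₂.2 ⟨x, hx, y, ⟨hyx, hy.1, hy.2.1⟩, rfl⟩
  refine measure_mono_null h2 ((measure_biUnion_null_iff htc).2 fun x hx => (hU x (htS hx)).2)

end DrumL
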