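import Pool.Agent.Lib.MP_d92c84_anF.Lec

/-!
# Four sectors of alternating sign at a zero of order at least two
-/

set_option autoImplicit false

namespace DrumL

open MeasureTheory Set Filter Topology DrumF
open scoped ContDiff Real

private theorem Sec_re {A : ℂ} {m : ℕ} (θ : ℝ) :
    (A * Complex.exp (m * θ * Complex.I)).re = ‖A‖ * Real.cos (m * θ + Complex.arg A) := by
  have h1 : A = ‖A‖ * Complex.exp (Complex.arg A * Complex.I) := (Complex.norm_mul_exp_arg_mul_I A).symm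
  have h2 : A * Complex.exp (m * θ * Complex.I) =
      (‖A‖ : ℂ) * Complex.exp (((m * θ + Complex.arg A : ℝ) : ℂ) * Complex.I) := by
    conv_lhs => rw [h1]
    rw [mul_assoc, ← Complex.exp_add]
    congr 2
    push_cast
    ring
  rw [h2, Complex.re_ofReal_mul, Complex.exp_ofReal_mul_I_re]

private theorem Sec_cis (θ : ℝ) : ‖cis θ‖ = 1 := by
  unfold cis
  exact Complex.norm_exp_ofReal_mul_I θ

private theorem Sec_line (p : ℂ) (θ : ℝ) : HasDerivAt (fun t : ℝ => p + t * cis θ) (cis θ) 0 := by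
  have h1 : HasDerivAt (fun t : ℝ => (t : ℂ)) 1 (0 : ℝ) := Complex.ofRealCLM.hasDerivAt
  have h2 := (h1.mul_const (cis θ)).const_add p
  simpa using h2

/-- The signs of a solution on four rays at a zero of order at least two. -/
theorem sectors {l : ℝ} (hl : 0 < l) {p : ℂ} {ρ : ℝ} (hρ : 0 < ρ) {f : ℂ → ℝ} (hf : Hz l (Metric.ball p ρ) f)
    (h0 : f p = 0) (h1 : fderiv ℝ f p = 0) (hne : ∃ x ∈ Metric.ball p ρ, f x ≠ 0) :
    ∃ θ₁ θ₂ θ₃ θ₄ t₀ : ℝ, θ₁ < θ₂ ∧ θ₂ < θ₃ ∧ θ₃ < θ₄ ∧ θ₄ < θ₁ + 2 * π ∧ 0 < t₀ ∧ t₀ < ρ ∧ ∀ t ∈ Ioc 0 t₀,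
      0 < f (p + t * cis θ₁) ∧ f (p + t * cis θ₂) < 0 ∧ 0 < f (p + t * cis θ₃) ∧ f (p + t * cis θ₄) < 0 := by
  rcases leading hl hρ hf with h | ⟨m, A, C, t₀, hA, hA0, ht0, htρ, hb⟩
  · obtain ⟨x, hx, hx0⟩ := hne
    exact absurd (h x hx) hx0
  have hAn : 0 < ‖A‖ := norm_pos_iff.2 hA
  have hC : 0 ≤ C := by
    have h2 := (abs_nonneg _).trans (hb t₀ ⟨ht0, le_rfl⟩ 0)
    have h3 : 0 < t₀ ^ (m + 1) := pow_pos ht0 _
    by_contra h4
    push Not at h4
    nlinarith [mul_neg_of_neg_of_pos h4 h3]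
  have hd : DifferentiableAt ℝ f p :=
    (hf.smooth.contDiffAt (Metric.isOpen_ball.mem_nhds (Metric.mem_ball_self hρ))).differentiableAt (by simp)
  -- the derivative along the ray with `m θ = - arg A`
  have hfd : ∀ θ : ℝ, HasDerivAt (fun t : ℝ => f (p + t * cis θ)) 0 0 := by
    intro θ
    have h2 : HasFDerivAt f (fderiv ℝ f p) (p + (0 : ℝ) * cis θ) := by
      simpa using hd.hasFDerivAt
    have h3 := h2.comp_hasDerivAt (0 : ℝ) (Sec_line p θ)
    rw [h1] at h3
    simpa [Function.comp_def] using h3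
  have hm : 2 ≤ m := by
    by_contra hm2
    have hm2 : m = 0 ∨ m = 1 := by omega
    obtain ⟨θ, hθ⟩ : ∃ θ : ℝ, (A * Complex.exp (m * θ * Complex.I)).re = ‖A‖ ∨
        (A * Complex.exp (m * θ * Complex.I)).re = -‖A‖ := by
      rcases hm2 with rfl | rfl
      · refine ⟨0, ?_⟩
        have h2 : A = (A.re : ℂ) := Complex.ext rfl (by simp [hA0 rfl])
        have h3 : ‖A‖ = |A.re| := by
          conv_lhs => rw [h2]
          rw [Complex.norm_real, Real.norm_eq_abs]
        simp only [Nat.cast_zero, zero_mul, Complex.exp_zero, mul_one]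
        rw [h3]
        rcases abs_choice A.re with h4 | h4
        · exact Or.inl h4.symm
        · right
          rw [h4, neg_neg]
      · refine ⟨-Complex.arg A, Or.inl ?_⟩
        rw [Sec_re]
        simp
    set B := (A * Complex.exp (m * θ * Complex.I)).re with hB
    have hBn : |B| = ‖A‖ := by
      rcases hθ with h2 | h2
      · rw [h2, abs_of_pos hAn]
      · rw [h2, abs_neg, abs_of_pos hAn]
    -- `|f (p + t cis θ)| ≤ (‖A‖ / 4) t` for small `t`, hence `≤ (‖A‖ / 4) t ^ m` after shrinking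
    have h5 : ∀ᶠ t : ℝ in 𝓝 (0 : ℝ), |f (p + t * cis θ)| ≤ ‖A‖ / 4 * |t| := by
      have h6 := (hfd θ).isLittleO
      have h7 := h6.def (show 0 < ‖A‖ / 4 by linarith)
      filter_upwards [h7] with t ht
      simpa [h0] using ht
    obtain ⟨δ, hδ, h6⟩ := Metric.eventually_nhds_iff_ball.1 h5
    set t : ℝ := min (min (δ / 2) t₀) (min 1 (‖A‖ / (4 * (C + 1)))) with ht
    have hC1 : 0 < 4 * (C + 1) := by linarith
    have htp : 0 < t := lt_min (lt_min (by linarith) ht0) (lt_min one_pos (div_pos hAn hC1))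
    have ht1 : t ≤ 1 := (min_le_right _ _).trans (min_le_left _ _)
    have ht2 : t ≤ t₀ := (min_le_left _ _).trans (min_le_right _ _)
    have ht3 : t < δ := lt_of_le_of_lt ((min_le_left _ _).trans (min_le_left _ _)) (by linarith)
    have ht4 : t ≤ ‖A‖ / (4 * (C + 1)) := (min_le_right _ _).trans (min_le_right _ _)
    have ht5 : C * t ≤ ‖A‖ / 4 := by
      have h7 : t * (4 * (C + 1)) ≤ ‖A‖ := (le_div_iff₀ hC1).1 ht4
      nlinarith
    have h8 := h6 t (by rw [Metric.mem_ball, dist_zero_right, Real.norm_eq_abs, abs_of_pos htp]; exact ht3)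
    rw [abs_of_pos htp] at h8
    have h9 := hb t ⟨htp, ht2⟩ θ
    rw [← hB] at h9
    have htm : t ≤ t ^ m := by
      rcases hm2 with rfl | rfl
      · simpa using ht1
      · simp
    have htmp : 0 < t ^ m := pow_pos htp m
    have h10 : |t ^ m * B| ≤ |f (p + t * cis θ)| + C * t ^ (m + 1) := by
      have h11 : t ^ m * B = f (p + t * cis θ) - (f (p + t * cis θ) - t ^ m * B) := by ring
      rw [h11]
      exact (abs_sub _ _).trans (add_le_add_right h9 _)
    rw [abs_mul, abs_of_pos htmp, hBn] at h10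
    have h12 : C * t ^ (m + 1) = C * t * t ^ m := by ring
    have h13 : C * t * t ^ m ≤ ‖A‖ / 4 * t ^ m := mul_le_mul_of_nonneg_right ht5 htmp.le
    have h14 : ‖A‖ / 4 * t ≤ ‖A‖ / 4 * t ^ m := mul_le_mul_of_nonneg_left htm (by linarith)
    rw [h12] at h10
    nlinarith [mul_pos hAn htmp]
  have hm0 : (0 : ℝ) < m := by
    have : (2 : ℝ) ≤ m := by exact_mod_cast hm
    linarith
  have hmR : (2 : ℝ) ≤ m := by exact_mod_cast hm
  set α := Complex.arg A with hα
  have hπ := Real.pi_pos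
  have hC1 : 0 < 2 * (C + 1) := by linarith
  set t₁ : ℝ := min t₀ (‖A‖ / (2 * (C + 1))) with ht1
  have ht1p : 0 < t₁ := lt_min ht0 (div_pos hAn hC1)
  have hsm : ∀ t ∈ Ioc 0 t₁, C * t < ‖A‖ := by
    intro t ht
    have h7 : t * (2 * (C + 1)) ≤ ‖A‖ := (le_div_iff₀ hC1).1 (ht.2.trans (min_le_right _ _))
    nlinarith [ht.1]
  have key : ∀ (θ : ℝ), ∀ t ∈ Ioc 0 t₁, |f (p + t * cis θ) - t ^ m * (‖A‖ * Real.cos (m * θ + α))| < t ^ m * ‖A‖ := by
    intro θ t ht
    have h2 := hb t ⟨ht.1, ht.2.trans (min_le_left _ _)⟩ θ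
    rw [Sec_re] at h2
    refine h2.trans_lt ?_
    have h3 : 0 < t ^ m := pow_pos ht.1 m
    calc C * t ^ (m + 1) = t ^ m * (C * t) := by ring
      _ < t ^ m * ‖A‖ := mul_lt_mul_of_pos_left (hsm t ht) h3
  have hang : ∀ k : ℝ, m * ((k * π - α) / m) + α = k * π := by
    intro k
    field_simp
    ring
  have hpos : ∀ k : ℝ, Real.cos (k * π) = 1 → ∀ t ∈ Ioc 0 t₁, 0 < f (p + t * cis ((k * π - α) / m)) := by
    intro k hk t ht
    have h2 := key ((k * π - α) / m) t ht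
    rw [hang, hk, mul_one, abs_lt] at h2
    linarith [h2.1]
  have hneg : ∀ k : ℝ, Real.cos (k * π) = -1 → ∀ t ∈ Ioc 0 t₁, f (p + t * cis ((k * π - α) / m)) < 0 := by
    intro k hk t ht
    have h2 := key ((k * π - α) / m) t ht
    rw [hang, hk, abs_lt] at h2
    linarith [h2.2]
  have hlt : ∀ a b : ℝ, a < b → (a * π - α) / m < (b * π - α) / m := by
    intro a b hab
    rw [div_lt_div_iff_of_pos_right hm0]
    nlinarith
  refine ⟨(0 * π - α) / m, (1 * π - α) / m, (2 * π - α) / m, (3 * π - α) / m, t₁, hlt _ _ (by norm_num),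
    hlt _ _ (by norm_num), hlt _ _ (by norm_num), ?_, ht1p, lt_of_le_of_lt (min_le_left _ _) htρ, fun t ht => ?_⟩
  · have h2 : (3 * π - α) / m - (0 * π - α) / m = 3 * π / m := by ring
    have h3 : 3 * π / m < 2 * π := by
      rw [div_lt_iff₀ hm0]
      nlinarith
    linarith
  · refine ⟨hpos 0 (by simp) t ht, hneg 1 (by simp) t ht, hpos 2 (by simp) t ht, hneg 3 ?_ t ht⟩
    have h2 : (3 : ℝ) * π = π + 2 * π := by ring
    rw [h2, Real.cos_add_two_pi, Real.cos_pi]

end DrumL
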