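import Pool.Agent.Lib.MP_d92c84_anF.Wsd

/-!
# Time smoothing: continuity and time derivative
-/

set_option autoImplicit false

namespace DrumL

open MeasureTheory Set Filter Topology
open scoped ContDiff

theorem Sma_contDiff {η : ℝ → ℝ} (hη : ContDiff ℝ ∞ η) (k : ℕ) : ContDiff ℝ ∞ (iteratedDeriv k η) := by
  rw [iteratedDeriv_eq_iterate]
  exact hη.iterate_deriv k

theorem Sma_comp {η : ℝ → ℝ} (hs : HasCompactSupport η) (k : ℕ) :
    HasCompactSupport (iteratedDeriv k η) := by
  induction k with
  | zero => rwa [iteratedDeriv_zero]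
  | succ k ih =>
    rw [iteratedDeriv_succ]
    exact ih.deriv

/-- The time smoothing of a jointly continuous function is jointly continuous. -/
theorem sm_cont {E : Type*} [NormedAddCommGroup E] [NormedSpace ℝ E] [CompleteSpace E] {D : Set ℂ}
    (hb : Bornology.IsBounded D) {f : ℂ → ℝ → E}
    (hf : ContinuousOn (fun q : ℂ × ℝ => f q.1 q.2) (closure D ×ˢ univ)) {η : ℝ → ℝ} (hη : ContDiff ℝ ∞ η)
    (hs : HasCompactSupport η) (k : ℕ) :
    ContinuousOn (fun q : ℂ × ℝ => sm η k f q.1 q.2) (closure D ×ˢ univ) := by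
  have hg : Continuous (iteratedDeriv k η) := (Sma_contDiff hη k).continuous
  have hgc : HasCompactSupport (iteratedDeriv k η) := Sma_comp hs k
  refine continuousOn_integral_of_compact_support
    (f := fun (q : ℂ × ℝ) (s : ℝ) => iteratedDeriv k η s • f q.1 (q.2 - s)) hgc ?_ ?_
  · have h1 : ContinuousOn (fun w : (ℂ × ℝ) × ℝ => f w.1.1 (w.1.2 - w.2))
        ((closure D ×ˢ univ) ×ˢ univ) := by
      refine hf.comp (f := fun w : (ℂ × ℝ) × ℝ => (w.1.1, w.1.2 - w.2)) ?_ ?_
      · exact Continuous.continuousOn (by fun_prop)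
      · intro w hw
        exact ⟨hw.1.1, mem_univ _⟩
    exact ((hg.comp continuous_snd).continuousOn).smul h1
  · intro q s _ hs'
    rw [image_eq_zero_of_notMem_tsupport hs', zero_smul]

/-- The time derivative of the smoothing is the smoothing with the next derivative of the kernel. -/
theorem sm_dt {E : Type*} [NormedAddCommGroup E] [NormedSpace ℝ E] [CompleteSpace E] {f : ℂ → ℝ → E} {x : ℂ}
    (hf : Continuous (f x)) {η : ℝ → ℝ} (hη : ContDiff ℝ ∞ η) (hs : HasCompactSupport η) (k : ℕ) (t : ℝ) :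
    HasDerivAt (sm η k f x) (sm η (k + 1) f x t) t := by
  have h1 := (Sma_comp hs k).hasDerivAt_convolution_left (ContinuousLinearMap.lsmul ℝ ℝ (E := E))
    ((Sma_contDiff hη k).of_le (by exact_mod_cast le_top)) (μ := volume) (g₀ := f x)
    hf.locallyIntegrable t
  rw [← iteratedDeriv_succ] at h1
  exact h1

end DrumL
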