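import Pool.Agent.Lib.MP_d92c84_anF.Tha

/-!
# Three nodal pieces
-/

set_option autoImplicit false

namespace DrumL

open MeasureTheory Set Filter Topology DrumF
open scoped ContDiff Real

private theorem Thb_aux {Ω : Set ℂ} (hΩ : IsOpen Ω) {g : ℂ → ℝ} (hg : ContinuousOn g Ω)
    (hg0 : ∀ x ∈ frontier Ω, g x = 0) (h : ¬ IsPreconnected {x | x ∈ Ω ∧ 0 < g x})
    (hn : {x | x ∈ Ω ∧ g x < 0}.Nonempty) :
    ∃ A : Fin 3 → Set ℂ, (∀ i, IsOpen (A i)) ∧ (∀ i, (A i).Nonempty) ∧ (∀ i, A i ⊆ Ω) ∧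
      (∀ i j, i ≠ j → Disjoint (A i) (A j)) ∧ ∀ i, ∀ x ∈ frontier (A i), g x = 0 := by
  set S : Set ℂ := {x | x ∈ Ω ∧ 0 < g x} with hS
  set N : Set ℂ := {x | x ∈ Ω ∧ g x < 0} with hN
  have hSo : IsOpen S := hg.isOpen_inter_preimage hΩ isOpen_Ioi
  have hNo : IsOpen N := hg.isOpen_inter_preimage hΩ isOpen_Iio
  unfold IsPreconnected at h
  push Not at h
  obtain ⟨u, v, hu, hv, hcov, hnu, hnv, hdis⟩ := h
  have hSN : Disjoint S N := Set.disjoint_left.2 fun x hx hx' => lt_asymm hx.2 hx'.2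
  have huv : Disjoint (S ∩ u) (S ∩ v) := by
    rw [Set.disjoint_left]
    intro x hx hx'
    have hx2 : x ∈ S ∩ (u ∩ v) := ⟨hx.1, hx.2, hx'.2⟩
    rw [hdis] at hx2
    exact hx2
  let A : Fin 3 → Set ℂ := ![S ∩ u, S ∩ v, N]
  have hAo : ∀ i, IsOpen (A i) := by
    intro i
    fin_cases i
    · exact hSo.inter hu
    · exact hSo.inter hv
    · exact hNo
  have hAn : ∀ i, (A i).Nonempty := by
    intro i
    fin_cases i
    · exact hnu
    · exact hnv
    · exact hn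
  have hAs : ∀ i, A i ⊆ Ω := by
    intro i
    fin_cases i
    · exact fun x hx => hx.1.1
    · exact fun x hx => hx.1.1
    · exact fun x hx => hx.1
  have hAd : ∀ i j, i ≠ j → Disjoint (A i) (A j) := by
    have d02 : Disjoint (S ∩ u) N := hSN.mono_left inter_subset_left
    have d12 : Disjoint (S ∩ v) N := hSN.mono_left inter_subset_left
    intro i j hij
    fin_cases i <;> fin_cases j
    · exact absurd rfl hij
    · exact huv
    · exact d02
    · exact huv.symm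
    · exact absurd rfl hij
    · exact d12
    · exact d02.symm
    · exact d12.symm
    · exact absurd rfl hij
  have hAc : ∀ x ∈ Ω, g x ≠ 0 → ∃ j, x ∈ A j := by
    intro x hx hgx
    rcases lt_or_gt_of_ne hgx with h1 | h1
    · exact ⟨2, hx, h1⟩
    · have hxS : x ∈ S := ⟨hx, h1⟩
      rcases hcov hxS with h2 | h2
      · exact ⟨0, hxS, h2⟩
      · exact ⟨1, hxS, h2⟩
  refine ⟨A, hAo, hAn, hAs, hAd, fun i x hx => ?_⟩
  rw [frontier, (hAo i).interior_eq] at hx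
  have hxc : x ∈ closure Ω := closure_mono (hAs i) hx.1
  by_cases hxΩ : x ∈ Ω
  · by_contra hgx
    obtain ⟨j, hj⟩ := hAc x hxΩ hgx
    by_cases hij : i = j
    · exact hx.2 (hij ▸ hj)
    · have h1 : Disjoint (closure (A i)) (A j) := (hAd i j hij).closure_left (hAo j)
      exact Set.disjoint_left.1 h1 hx.1 hj
  · refine hg0 x ?_
    rw [frontier, hΩ.interior_eq]
    exact ⟨hxc, hxΩ⟩

private theorem Thb_norm (θ : ℝ) : ‖cis θ‖ = 1 := by
  unfold cis
  exact Complex.norm_exp_ofReal_mul_I θ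

/-- Around a zero of order at least two of a solution which vanishes on the frontier of `Ω`, there are three disjoint open
pieces of `Ω` on whose frontiers the solution vanishes. -/
theorem three_pieces {l : ℝ} (hl : 0 < l) {D Ω : Set ℂ} (hD : IsOpen D) (hΩ : IsOpen Ω) (hΩD : closure Ω ⊆ D)
    {f : ℂ → ℝ} (hf : Hz l D f) (hf0 : ∀ x ∈ frontier Ω, f x = 0) {p : ℂ} (hp : p ∈ Ω) (h0 : f p = 0)
    (h1 : fderiv ℝ f p = 0) (hne : ∀ ε > 0, ∃ x ∈ Metric.ball p ε, f x ≠ 0) :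
    ∃ A : Fin 3 → Set ℂ, (∀ i, IsOpen (A i)) ∧ (∀ i, (A i).Nonempty) ∧ (∀ i, A i ⊆ Ω) ∧
      (∀ i j, i ≠ j → Disjoint (A i) (A j)) ∧ ∀ i, ∀ x ∈ frontier (A i), f x = 0 := by
  have hsub : Ω ⊆ D := subset_closure.trans hΩD
  have hcont : ContinuousOn f Ω := hf.smooth.continuousOn.mono hsub
  obtain ⟨ρ, hρ, hball⟩ := Metric.isOpen_iff.1 hΩ p hp
  obtain ⟨θ₁, θ₂, θ₃, θ₄, t₀, -, -, -, -, ht0, htρ, hs⟩ :=
    sectors hl hρ (hf.mono (hball.trans hsub)) h0 h1 (hne ρ hρ)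
  have hs0 := hs t₀ ⟨ht0, le_rfl⟩
  have hmem : ∀ θ : ℝ, p + t₀ * cis θ ∈ Ω := by
    intro θ
    apply hball
    rw [Metric.mem_ball, dist_eq_norm, add_sub_cancel_left, norm_mul, Thb_norm, mul_one,
      Complex.norm_real, Real.norm_eq_abs, abs_of_pos ht0]
    exact htρ
  have hnot := not_both_connected hl hD hΩ hsub hf hp h0 h1 hne
  rw [not_and_or] at hnot
  rcases hnot with h2 | h2
  · exact Thb_aux hΩ hcont hf0 h2 ⟨_, hmem θ₂, hs0.2.1⟩
  · have h3 : {x | x ∈ Ω ∧ 0 < (fun y => -f y) x} = {x | x ∈ Ω ∧ f x < 0} := by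
      ext x
      simp
    obtain ⟨A, hA1, hA2, hA3, hA4, hA5⟩ := Thb_aux (g := fun y => -f y) hΩ hcont.neg
      (fun x hx => by simp [hf0 x hx]) (by rw [h3]; exact h2)
      ⟨_, hmem θ₁, by simpa using hs0.1⟩
    exact ⟨A, hA1, hA2, hA3, hA4, fun i x hx => by simpa using hA5 i x hx⟩

end DrumL
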