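import Pool.Agent.Lib.MP_d92c84_anF.As3
import Pool.Agent.Lib.MP_d92c84_anF.Thb
import Pool.Agent.Lib.MP_d92c84_anF.Sa3
import Pool.Agent.Lib.MP_d92c84_anF.Dgb
import Pool.Agent.Lib.MP_d92c84_anF.Dgc

/-!
# The theorem for several eigenfunctions
-/

set_option autoImplicit false

namespace DrumL

open MeasureTheory Set Filter Topology
open scoped ContDiff Real

private theorem St3_const {l : ℝ} (hl : 0 < l) {D Ω : Set ℂ} (hΩ : IsOpen Ω) (hΩD : Ω ⊆ D) {u : ℂ → ℝ} (hu : Hz l D u)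
    {a : ℝ} (h : ∀ x ∈ Ω, u x = a) {x : ℂ} (hx : x ∈ Ω) : u x = 0 := by
  have h1 : ∀ v : ℂ, ∀ y ∈ Ω, pd v u y = 0 := by
    intro v y hy
    have h2 : u =ᶠ[𝓝 y] fun _ => a := by
      filter_upwards [hΩ.mem_nhds hy] with w hw
      exact h w hw
    unfold pd
    rw [h2.fderiv_eq]
    simp
  have h2 : ∀ v w : ℂ, pd v (pd w u) x = 0 := by
    intro v w
    have h3 : pd w u =ᶠ[𝓝 x] fun _ => 0 := by
      filter_upwards [hΩ.mem_nhds hx] with y hy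
      exact h1 w y hy
    have h4 : fderiv ℝ (pd w u) x = 0 := by
      rw [h3.fderiv_eq]
      simp
    unfold pd at h4 ⊢
    rw [h4]
    simp
  have h3 := hu.eq x (hΩD hx)
  unfold lap at h3
  rw [h2, h2, add_zero] at h3
  have h4 : l * u x = 0 := by linarith
  exact (mul_eq_zero.1 h4).resolve_left hl.ne'

/-- An eigenfunction which is critical on the connected set `γ` that contains the boundary of `Ω` has a critical point in
`Ω`. -/
theorem St3_crit {l : ℝ} (hl : 0 < l) {D Ω γ : Set ℂ} (hD : IsOpen D) (hb : Bornology.IsBounded D) (hDc : IsConnected D)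
    (hγ : IsPreconnected γ) (hγD : γ ⊆ D) (hΩ : IsOpen Ω) (hΩn : Ω.Nonempty) (hΩD : closure Ω ⊆ D)
    (hfr : frontier Ω ⊆ γ) {u : ℂ → ℝ} (hu : Hz l D u) (hne : ∃ x ∈ D, u x ≠ 0) (hcrit : ∀ x ∈ γ, fderiv ℝ u x = 0) :
    ∃ p ∈ Ω, fderiv ℝ u p = 0 := by
  have hu2 : ContDiffOn ℝ 2 u D := hu.smooth.of_le (WithTop.coe_le_coe.2 le_top)
  have hΩD' : Ω ⊆ D := subset_closure.trans hΩD
  have hcomp : IsCompact (closure Ω) := (hb.subset hΩD').isCompact_closure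
  have huc : ContinuousOn u (closure Ω) := hu.smooth.continuousOn.mono hΩD
  have hnn : (closure Ω).Nonempty := hΩn.mono subset_closure
  obtain ⟨x₁, hx₁, hmax⟩ := hcomp.exists_isMaxOn hnn huc
  obtain ⟨x₂, hx₂, hmin⟩ := hcomp.exists_isMinOn hnn huc
  have hfront : ∀ x ∈ closure Ω, x ∉ Ω → x ∈ γ := fun x hx hxΩ => hfr (by
    rw [frontier, hΩ.interior_eq]
    exact ⟨hx, hxΩ⟩)
  by_cases h1 : x₁ ∈ Ω
  · refine ⟨x₁, h1, IsLocalMax.fderiv_eq_zero ?_⟩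
    filter_upwards [hΩ.mem_nhds h1] with y hy
    exact hmax (subset_closure hy)
  by_cases h2 : x₂ ∈ Ω
  · refine ⟨x₂, h2, IsLocalMin.fderiv_eq_zero ?_⟩
    filter_upwards [hΩ.mem_nhds h2] with y hy
    exact hmin (subset_closure hy)
  exfalso
  have h3 : u x₁ = u x₂ := const_of_crit hD hu2 hγD hγ hcrit (hfront x₁ hx₁ h1) (hfront x₂ hx₂ h2)
  have h4 : ∀ x ∈ Ω, u x = u x₁ := fun x hx => le_antisymm (hmax (subset_closure hx))
    (h3 ▸ hmin (subset_closure hx))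
  obtain ⟨y, hy, hyn⟩ := hne
  refine hyn (uc hl hD hDc.isPreconnected hu hΩ ?_ (fun x hx => St3_const hl hΩ hΩD' hu h4 hx.1) hy)
  obtain ⟨w, hw⟩ := hΩn
  exact ⟨w, hw, hΩD' hw⟩

/-- For eigenfunctions `u i` of `D` (in the weak sense) with eigenvalues `l 0 < ... < l m`, with zero gradient on the
connected set `γ` that contains the boundary of an open set `Ω` whose closure is in `D`: the boundary of `D` contains a
circle, or there are `5 m + 5` test functions on whose span the quadratic form is negative for the eigenvalue `l m`. -/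
theorem static3 {m : ℕ} {l : Fin (m + 1) → ℝ} (hl : ∀ i, 0 < l i) (hlm : StrictMono l) {D Ω γ : Set ℂ} (hD : IsOpen D)
    (hb : Bornology.IsBounded D) (hDc : IsConnected D) (hγ : IsPreconnected γ) (hγD : γ ⊆ D) (hΩ : IsOpen Ω)
    (hΩn : Ω.Nonempty) (hΩD : closure Ω ⊆ D) (hfr : frontier Ω ⊆ γ) {u : Fin (m + 1) → ℂ → ℝ}
    (hu : ∀ i, Hz (l i) D (u i)) (hne : ∀ i, ∃ x ∈ D, u i x ≠ 0) (hcrit : ∀ i, ∀ x ∈ γ, fderiv ℝ (u i) x = 0)
    (hq : ∀ i, Hq D (u i) (pd 1 (u i)) (pd Complex.I (u i)))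
    (hi : ∀ i, IntegrableOn (u i) D) (hi₁ : ∀ i, IntegrableOn (pd 1 (u i)) D)
    (hi₂ : ∀ i, IntegrableOn (pd Complex.I (u i)) D)
    (hib₁ : ∀ i, ∀ ψ : ℂ → ℝ, ContDiff ℝ 1 ψ → ∫ x in D, u i x * pd 1 ψ x = -∫ x in D, pd 1 (u i) x * ψ x)
    (hib₂ : ∀ i, ∀ ψ : ℂ → ℝ, ContDiff ℝ 1 ψ →
      ∫ x in D, u i x * pd Complex.I ψ x = -∫ x in D, pd Complex.I (u i) x * ψ x) :
    (∃ (q : ℂ) (ρ : ℝ), 0 < ρ ∧ Metric.sphere q ρ ⊆ frontier D) ∨ Below (l (Fin.last m)) D (5 * m + 5) := by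
  have hΩD' : Ω ⊆ D := subset_closure.trans hΩD
  obtain ⟨p, hp, hpc⟩ := St3_crit (hl 0) hD hb hDc hγ hγD hΩ hΩn hΩD hfr (hu 0) (hne 0) (hcrit 0)
  by_cases hdeg : ∃ (i : Fin (m + 1)) (α : ℂ) (β : ℝ), ¬ (α = 0 ∧ β = 0) ∧ ∀ x ∈ D, kd α β (u i) x = 0
  · left
    obtain ⟨i, α, β, hαβ, hk⟩ := hdeg
    obtain ⟨q, hq⟩ := deg_inv (hl i) hD hb hDc.isPreconnected (hu i) (hne i) (hi i) (hi₁ i) (hi₂ i) (hib₁ i) (hib₂ i)
      hαβ hk
    obtain ⟨ρ, hρ, hρ1⟩ := deg_circle hD hb hDc.nonempty hq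
    exact ⟨q, ρ, hρ, hρ1⟩
  · right
    push Not at hdeg
    have hnd : ∀ i, ∀ (α : ℂ) (β : ℝ), (∀ x ∈ D, kd α β (u i) x = 0) → α = 0 ∧ β = 0 := by
      intro i α β h1
      by_contra h2
      obtain ⟨x, hx, hx1⟩ := hdeg i α β (fun h3 h4 => h2 ⟨h3, h4⟩)
      exact hx1 (h1 x hx)
    have hkz := hz_kd hD (hu 0) (-(Complex.I * p)) 1
    obtain ⟨hk0, hk1⟩ := kd_rot hD (hu 0).smooth (hΩD' hp) hpc
    have hfr0 : ∀ x ∈ frontier Ω, kd (-(Complex.I * p)) 1 (u 0) x = 0 := by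
      intro x hx
      unfold kd pd
      rw [hcrit 0 x (hfr hx)]
      simp
    have hnz : ∀ ε > 0, ∃ x ∈ Metric.ball p ε, kd (-(Complex.I * p)) 1 (u 0) x ≠ 0 := by
      intro ε hε
      by_contra h1
      push Not at h1
      have h2 : ∀ x ∈ D, kd (-(Complex.I * p)) 1 (u 0) x = 0 := fun x hx =>
        uc (hl 0) hD hDc.isPreconnected hkz Metric.isOpen_ball ⟨p, Metric.mem_ball_self hε, hΩD' hp⟩
          (fun y hy => h1 y hy.1) hx
      exact one_ne_zero (hnd 0 _ _ h2).2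
    obtain ⟨A, hA, hAn, hAs, hAd, hA0⟩ := three_pieces (hl 0) hD hΩ hΩD hkz hfr0 hp hk0 hk1 hnz
    obtain ⟨x₀, hx₀⟩ : (frontier Ω).Nonempty := by
      by_contra hcon
      rw [not_nonempty_iff_eq_empty] at hcon
      rcases isClopen_iff.1 (isClopen_iff_frontier_eq_empty.2 hcon) with h1 | h1
      · exact hΩn.ne_empty h1
      · have h2 : (univ : Set ℂ) ⊆ D := h1 ▸ hΩD'
        exact NormedSpace.unbounded_univ ℝ ℂ (hb.subset h2)
    have hS : ∀ i, Sc (l i) (u i x₀) D Ω (u i) := fun i => ⟨hΩ, hΩD, hu i, fun x hx => hcrit i x (hfr hx), fun x hx =>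
      const_of_crit hD ((hu i).smooth.of_le (WithTop.coe_le_coe.2 le_top)) hγD hγ (hcrit i) (hfr hx) (hfr hx₀)⟩
    exact many3 hl hlm hD hb hDc hΩn hS hne hq hA hAn hAs hAd hA0 hnd

end DrumL
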