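import Pool.Agent.Lib.MP_d92c84_anF.Sec
import Pool.Agent.Lib.MP_d92c84_anF.Crs

/-!
# The positive and the negative set are not both connected
-/

set_option autoImplicit false

namespace DrumL

open MeasureTheory Set Filter Topology DrumF
open scoped ContDiff Real

theorem Tha_norm_cis (θ : ℝ) : ‖cis θ‖ = 1 := Complex.norm_exp_ofReal_mul_I θ

theorem Tha_cis_neg (θ : ℝ) : cis (-θ) = (cis θ)⁻¹ := by
  rw [cis, cis, ← Complex.exp_neg]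
  push_cast
  rw [neg_mul]

theorem Tha_norm_ray {p : ℂ} {t θ : ℝ} (ht : 0 ≤ t) : ‖p + t * cis θ - p‖ = t := by
  rw [add_sub_cancel_left, norm_mul, Tha_norm_cis, mul_one, Complex.norm_real, Real.norm_of_nonneg ht]

/-- A radial segment in a set. -/
theorem Tha_seg {S : Set ℂ} {p : ℂ} {τ t₀ θ : ℝ} (hτ : τ ≤ t₀)
    (h : ∀ t, τ ≤ t → t ≤ t₀ → p + t * cis θ ∈ S) :
    JoinedIn S (p + τ * cis θ) (p + t₀ * cis θ) := by
  refine JoinedIn.ofLine (f := fun u : ℝ => p + ((τ + u * (t₀ - τ) : ℝ) : ℂ) * cis θ) ?_ ?_ ?_ ?_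
  · refine Continuous.continuousOn ?_
    refine continuous_const.add (Continuous.mul (Complex.continuous_ofReal.comp ?_) continuous_const)
    exact continuous_const.add (continuous_id.mul continuous_const)
  · simp
  · simp
  · rintro _ ⟨u, hu, rfl⟩
    have hu0 : 0 ≤ u := hu.1
    have hu1 : u ≤ 1 := hu.2
    refine h _ ?_ ?_
    · nlinarith
    · nlinarith

/-- A path in a set which misses the point `p` has a positive distance from it. -/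
theorem Tha_dist {x y p : ℂ} (P : Path x y) (h : ∀ s, P s ≠ p) :
    ∃ a : ℝ, 0 < a ∧ ∀ s, a ≤ ‖P s - p‖ := by
  have hc : Continuous fun s => ‖P s - p‖ := (P.continuous.sub continuous_const).norm
  obtain ⟨s₀, hs₀⟩ := isCompact_univ.exists_isMinOn (s := (univ : Set unitInterval))
    ⟨0, mem_univ _⟩ hc.continuousOn
  refine ⟨‖P s₀ - p‖, norm_pos_iff.mpr (sub_ne_zero.mpr (h s₀)), fun s => ?_⟩
  exact hs₀.2 (mem_univ s)

/-- A path outside the disc of radius `τ` from direction `α` to direction `β`, after inversion. -/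
theorem Tha_inv {S : Set ℂ} {p : ℂ} {τ α β : ℝ} (hτ : 0 < τ) (hS : ∀ x ∈ S, τ ≤ ‖x - p‖)
    (h : JoinedIn S (p + τ * cis α) (p + τ * cis β)) :
    ∃ v : ℝ → ℂ, ContinuousOn v (Icc 0 1) ∧ (∀ t ∈ Icc (0 : ℝ) 1, ‖v t‖ ≤ τ⁻¹) ∧
      v 0 = ((τ⁻¹ : ℝ) : ℂ) * cis (-β) ∧ v 1 = ((τ⁻¹ : ℝ) : ℂ) * cis (-α) ∧
      ∀ t, ∃ x ∈ S, v t = (x - p)⁻¹ := by
  obtain ⟨A, hA⟩ := h
  have hAe : ∀ t : ℝ, A.extend t ∈ S := fun t => hA (projIcc 0 1 zero_le_one t)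
  have hne : ∀ t : ℝ, A.extend t - p ≠ 0 := fun t h0 => by
    have h1 := hS _ (hAe t)
    rw [h0, norm_zero] at h1
    linarith
  refine ⟨fun t => (A.extend (1 - t) - p)⁻¹, ?_, ?_, ?_, ?_, ?_⟩
  · refine Continuous.continuousOn ?_
    refine Continuous.inv₀ ?_ fun t => hne _
    exact (A.continuous_extend.comp (continuous_const.sub continuous_id)).sub continuous_const
  · intro t _
    rw [norm_inv]
    exact inv_anti₀ hτ (hS _ (hAe _))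
  · have e1 : A.extend (1 - 0) = p + τ * cis β := by
      rw [sub_zero]
      exact A.extend_one
    simp only [e1, add_sub_cancel_left]
    rw [mul_inv, Tha_cis_neg, Complex.ofReal_inv]
  · have e1 : A.extend (1 - 1) = p + τ * cis α := by
      rw [sub_self]
      exact A.extend_zero
    simp only [e1, add_sub_cancel_left]
    rw [mul_inv, Tha_cis_neg, Complex.ofReal_inv]
  · intro t
    exact ⟨_, hAe _, rfl⟩

/-- At a zero of order at least two of a solution of the Helmholtz equation, the positive set and the negative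
set (in an open set which contains the zero) are not both connected. -/
theorem not_both_connected {l : ℝ} (hl : 0 < l) {D Ω : Set ℂ} (hD : IsOpen D) (hΩ : IsOpen Ω) (hΩD : Ω ⊆ D)
    {f : ℂ → ℝ} (hf : Hz l D f) {p : ℂ} (hp : p ∈ Ω) (h0 : f p = 0) (h1 : fderiv ℝ f p = 0)
    (hne : ∀ ε > 0, ∃ x ∈ Metric.ball p ε, f x ≠ 0) :
    ¬ (IsPreconnected {x | x ∈ Ω ∧ 0 < f x} ∧ IsPreconnected {x | x ∈ Ω ∧ f x < 0}) := by
  rintro ⟨hP, hN⟩
  obtain ⟨ρ, hρ, hball⟩ := Metric.isOpen_iff.mp hΩ p hp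
  obtain ⟨θ₁, θ₂, θ₃, θ₄, t₀, h12, h23, h34, h41, ht0, htρ, hsec⟩ :=
    sectors hl hρ (hf.mono (hball.trans hΩD)) h0 h1 (hne ρ hρ)
  have hcont : ContinuousOn f Ω := hf.smooth.continuousOn.mono hΩD
  have hPo : IsOpen {x | x ∈ Ω ∧ 0 < f x} := hcont.isOpen_inter_preimage hΩ isOpen_Ioi
  have hNo : IsOpen {x | x ∈ Ω ∧ f x < 0} := hcont.isOpen_inter_preimage hΩ isOpen_Iio
  have hmemΩ : ∀ θ : ℝ, p + t₀ * cis θ ∈ Ω := fun θ => hball (by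
    rw [Metric.mem_ball, dist_eq_norm, Tha_norm_ray ht0.le]
    exact htρ)
  have htt : t₀ ∈ Ioc 0 t₀ := ⟨ht0, le_rfl⟩
  have m1 : p + t₀ * cis θ₁ ∈ {x | x ∈ Ω ∧ 0 < f x} := ⟨hmemΩ _, (hsec t₀ htt).1⟩
  have m2 : p + t₀ * cis θ₂ ∈ {x | x ∈ Ω ∧ f x < 0} := ⟨hmemΩ _, (hsec t₀ htt).2.1⟩
  have m3 : p + t₀ * cis θ₃ ∈ {x | x ∈ Ω ∧ 0 < f x} := ⟨hmemΩ _, (hsec t₀ htt).2.2.1⟩
  have m4 : p + t₀ * cis θ₄ ∈ {x | x ∈ Ω ∧ f x < 0} := ⟨hmemΩ _, (hsec t₀ htt).2.2.2⟩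
  have hPp : IsPathConnected {x | x ∈ Ω ∧ 0 < f x} :=
    hPo.isConnected_iff_isPathConnected.mp ⟨⟨_, m1⟩, hP⟩
  have hNp : IsPathConnected {x | x ∈ Ω ∧ f x < 0} :=
    hNo.isConnected_iff_isPathConnected.mp ⟨⟨_, m2⟩, hN⟩
  obtain ⟨P, hPm⟩ := hPp.joinedIn _ m1 _ m3
  obtain ⟨P', hPm'⟩ := hNp.joinedIn _ m2 _ m4
  obtain ⟨a, ha, haP⟩ := Tha_dist (p := p) P fun s hs => by
    have h2 := (hPm s).2
    rw [hs, h0] at h2
    exact lt_irrefl _ h2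
  obtain ⟨a', ha', haP'⟩ := Tha_dist (p := p) P' fun s hs => by
    have h2 := (hPm' s).2
    rw [hs, h0] at h2
    exact lt_irrefl _ h2
  obtain ⟨τ, hτ, hτ0, hτa, hτa'⟩ : ∃ τ : ℝ, 0 < τ ∧ τ ≤ t₀ ∧ τ ≤ a ∧ τ ≤ a' :=
    ⟨min t₀ (min a a'), lt_min ht0 (lt_min ha ha'), min_le_left _ _,
      (min_le_right _ _).trans (min_le_left _ _), (min_le_right _ _).trans (min_le_right _ _)⟩
  -- the positive path
  have jP : JoinedIn {x | 0 < f x ∧ τ ≤ ‖x - p‖} (p + τ * cis θ₁) (p + τ * cis θ₃) := by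
    have j1 : JoinedIn {x | 0 < f x ∧ τ ≤ ‖x - p‖} (p + τ * cis θ₁) (p + t₀ * cis θ₁) :=
      Tha_seg hτ0 fun t h2 h3 => ⟨(hsec t ⟨by linarith, h3⟩).1, by
        rw [Tha_norm_ray (by linarith)]
        exact h2⟩
    have j2 : JoinedIn {x | 0 < f x ∧ τ ≤ ‖x - p‖} (p + t₀ * cis θ₁) (p + t₀ * cis θ₃) :=
      ⟨P, fun s => ⟨(hPm s).2, hτa.trans (haP s)⟩⟩
    have j3 : JoinedIn {x | 0 < f x ∧ τ ≤ ‖x - p‖} (p + τ * cis θ₃) (p + t₀ * cis θ₃) :=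
      Tha_seg hτ0 fun t h2 h3 => ⟨(hsec t ⟨by linarith, h3⟩).2.2.1, by
        rw [Tha_norm_ray (by linarith)]
        exact h2⟩
    exact (j1.trans j2).trans j3.symm
  have jN : JoinedIn {x | f x < 0 ∧ τ ≤ ‖x - p‖} (p + τ * cis θ₂) (p + τ * cis θ₄) := by
    have j1 : JoinedIn {x | f x < 0 ∧ τ ≤ ‖x - p‖} (p + τ * cis θ₂) (p + t₀ * cis θ₂) :=
      Tha_seg hτ0 fun t h2 h3 => ⟨(hsec t ⟨by linarith, h3⟩).2.1, by
        rw [Tha_norm_ray (by linarith)]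
        exact h2⟩
    have j2 : JoinedIn {x | f x < 0 ∧ τ ≤ ‖x - p‖} (p + t₀ * cis θ₂) (p + t₀ * cis θ₄) :=
      ⟨P', fun s => ⟨(hPm' s).2, hτa'.trans (haP' s)⟩⟩
    have j3 : JoinedIn {x | f x < 0 ∧ τ ≤ ‖x - p‖} (p + τ * cis θ₄) (p + t₀ * cis θ₄) :=
      Tha_seg hτ0 fun t h2 h3 => ⟨(hsec t ⟨by linarith, h3⟩).2.2.2, by
        rw [Tha_norm_ray (by linarith)]
        exact h2⟩
    exact (j1.trans j2).trans j3.symm
  obtain ⟨v, hv, hv1, hv2, hv3, hv4⟩ := Tha_inv hτ (fun x hx => hx.2) jP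
  obtain ⟨w, hw, hw1, hw2, hw3, hw4⟩ := Tha_inv hτ (fun x hx => hx.2) jN
  obtain ⟨s, -, t, -, hst⟩ := disc_cross hw hv (inv_pos.mpr hτ) hw1 hv1 (a₁ := -θ₄) (a₂ := -θ₃)
    (a₃ := -θ₂) (a₄ := -θ₁) (by linarith) (by linarith) (by linarith) (by linarith) hw2 hv2 hw3 hv3
  obtain ⟨x, hx, hxs⟩ := hw4 s
  obtain ⟨y, hy, hyt⟩ := hv4 t
  rw [hxs, hyt, inv_inj, sub_left_inj] at hst
  have h5 := hx.1
  have h6 := hy.1
  rw [hst] at h5
  linarith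

end DrumL
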