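import Pool.Agent.Lib.MP_d92c84_anF.Base

/-!
# Truncation

`sg` is even and smooth, `0` on `[-1, 1]` and `1` when `s² ≥ 2`; `St` is its primitive, `Se ε s = ε St (s / ε)`.
If `ψ` is continuous on the closure of `D` and `0` on its boundary, then `Se ε ∘ ψ`, extended by `0`, has compact
support in `D`.
-/

set_option autoImplicit false

namespace DrumL

open MeasureTheory Set Filter Topology
open scoped ContDiff

/-- The cut-off: `0` for `|s| ≤ 1` and `1` for `s² ≥ 2`. -/
noncomputable def sg (s : ℝ) : ℝ := Real.smoothTransition (s ^ 2 - 1)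

theorem contDiff_sg : ContDiff ℝ ∞ sg := by
  unfold sg
  exact Real.smoothTransition.contDiff.comp ((contDiff_id.pow 2).sub contDiff_const)

theorem continuous_sg : Continuous sg := contDiff_sg.continuous

theorem sg_nonneg (s : ℝ) : 0 ≤ sg s := Real.smoothTransition.nonneg _

theorem sg_le_one (s : ℝ) : sg s ≤ 1 := Real.smoothTransition.le_one _

theorem sg_neg (s : ℝ) : sg (-s) = sg s := by simp [sg]

theorem sg_zero {s : ℝ} (h : |s| ≤ 1) : sg s = 0 :=
  Real.smoothTransition.zero_of_nonpos (by nlinarith [abs_nonneg s, sq_abs s])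

theorem sg_one {s : ℝ} (h : 2 ≤ s ^ 2) : sg s = 1 := Real.smoothTransition.one_of_one_le (by linarith)

/-- The primitive of `sg`. -/
noncomputable def St (s : ℝ) : ℝ := ∫ t in (0 : ℝ)..s, sg t

theorem hasDerivAt_St (s : ℝ) : HasDerivAt St (sg s) s := by
  unfold St
  exact intervalIntegral.integral_hasDerivAt_right (continuous_sg.intervalIntegrable _ _)
    (continuous_sg.stronglyMeasurableAtFilter _ _) continuous_sg.continuousAt

theorem contDiff_St : ContDiff ℝ ∞ St := by
  rw [contDiff_infty_iff_deriv]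
  refine ⟨fun s => (hasDerivAt_St s).differentiableAt, ?_⟩
  have h : deriv St = sg := funext fun s => (hasDerivAt_St s).deriv
  rw [h]
  exact contDiff_sg

theorem St_zero {s : ℝ} (h : |s| ≤ 1) : St s = 0 := by
  unfold St
  have h1 : ∀ t ∈ Set.uIcc 0 s, sg t = 0 := by
    intro t ht
    refine sg_zero ?_
    rw [abs_le] at h ⊢
    rcases le_total 0 s with h0 | h0
    · rw [uIcc_of_le h0] at ht
      constructor <;> linarith [ht.1, ht.2]
    · rw [uIcc_of_ge h0] at ht
      constructor <;> linarith [ht.1, ht.2]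
  rw [intervalIntegral.integral_congr (g := fun _ => 0) h1]
  simp

theorem St_neg (s : ℝ) : St (-s) = -St s := by
  unfold St
  have h1 := intervalIntegral.integral_comp_neg (fun t => sg t) (a := 0) (b := s)
  simp only [sg_neg] at h1
  rw [h1, intervalIntegral.integral_symm, neg_zero]

theorem St_sub_le {s t : ℝ} (h : s ≤ t) : 0 ≤ St t - St s ∧ St t - St s ≤ t - s := by
  have h0 : St t - St s = ∫ x in s..t, sg x := by
    unfold St
    rw [intervalIntegral.integral_interval_sub_left] <;> exact continuous_sg.intervalIntegrable _ _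
  rw [h0]
  constructor
  · exact intervalIntegral.integral_nonneg h fun x _ => sg_nonneg x
  · have h1 : (∫ x in s..t, sg x) ≤ ∫ x in s..t, (1 : ℝ) :=
      intervalIntegral.integral_mono_on h (continuous_sg.intervalIntegrable _ _)
        (continuous_const.intervalIntegrable _ _) fun x _ => sg_le_one x
    simpa using h1

theorem St_nonneg {s : ℝ} (h : 0 ≤ s) : 0 ≤ St s ∧ St s ≤ s := by
  have h1 := St_sub_le h
  have h2 : St 0 = 0 := St_zero (by simp)
  rw [h2] at h1
  constructor <;> linarith [h1.1, h1.2]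

theorem abs_St_le (s : ℝ) : |St s| ≤ |s| := by
  rcases le_total 0 s with h | h
  · rw [abs_of_nonneg (St_nonneg h).1, abs_of_nonneg h]
    exact (St_nonneg h).2
  · have h1 := St_nonneg (s := -s) (by linarith)
    rw [St_neg] at h1
    rw [abs_of_nonpos (by linarith [h1.1]), abs_of_nonpos h]
    exact h1.2

theorem St_sub_nonneg {s : ℝ} (h : 0 ≤ s) : 0 ≤ s - St s ∧ s - St s ≤ 2 := by
  refine ⟨by linarith [(St_nonneg h).2], ?_⟩
  rcases le_total s 2 with h2 | h2
  · linarith [(St_nonneg h).1]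
  · have h3 : St s - St 2 = ∫ x in (2 : ℝ)..s, sg x := by
      unfold St
      rw [intervalIntegral.integral_interval_sub_left] <;> exact continuous_sg.intervalIntegrable _ _
    have h4 : (∫ x in (2 : ℝ)..s, sg x) = ∫ x in (2 : ℝ)..s, (1 : ℝ) := by
      refine intervalIntegral.integral_congr fun x hx => ?_
      rw [uIcc_of_le h2] at hx
      exact sg_one (by nlinarith [hx.1])
    rw [h4] at h3
    simp only [intervalIntegral.integral_const, smul_eq_mul, mul_one] at h3
    linarith [(St_nonneg (s := 2) (by norm_num)).1]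

theorem abs_St_sub_le (s : ℝ) : |St s - s| ≤ 2 := by
  rcases le_total 0 s with h | h
  · have := St_sub_nonneg h
    rw [abs_le]
    constructor <;> linarith [this.1, this.2]
  · have := St_sub_nonneg (s := -s) (by linarith)
    rw [St_neg] at this
    rw [abs_le]
    constructor <;> linarith [this.1, this.2]

/-- The truncation at height `ε`. -/
noncomputable def Se (ε s : ℝ) : ℝ := ε * St (s / ε)

theorem contDiff_Se (ε : ℝ) : ContDiff ℝ ∞ (Se ε) := by
  unfold Se
  exact contDiff_const.mul (contDiff_St.comp (contDiff_id.div_const ε))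

theorem hasDerivAt_Se {ε : ℝ} (hε : 0 < ε) (s : ℝ) : HasDerivAt (Se ε) (sg (s / ε)) s := by
  unfold Se
  have h1 := ((hasDerivAt_St (s / ε)).comp s ((hasDerivAt_id s).div_const ε)).const_mul ε
  refine h1.congr_deriv ?_
  field_simp

theorem Se_zero {ε s : ℝ} (hε : 0 < ε) (h : |s| ≤ ε) : Se ε s = 0 := by
  unfold Se
  rw [St_zero, mul_zero]
  rw [abs_div, abs_of_pos hε, div_le_one hε]
  exact h

theorem abs_Se_le {ε : ℝ} (hε : 0 < ε) (s : ℝ) : |Se ε s| ≤ |s| := by
  unfold Se
  rw [abs_mul, abs_of_pos hε]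
  have h1 := abs_St_le (s / ε)
  rw [abs_div, abs_of_pos hε] at h1
  calc ε * |St (s / ε)| ≤ ε * (|s| / ε) := mul_le_mul_of_nonneg_left h1 hε.le
    _ = |s| := by field_simp

theorem abs_Se_sub_le {ε : ℝ} (hε : 0 < ε) (s : ℝ) : |Se ε s - s| ≤ 2 * ε := by
  unfold Se
  have h1 := abs_St_sub_le (s / ε)
  have h2 : ε * St (s / ε) - s = ε * (St (s / ε) - s / ε) := by field_simp
  rw [h2, abs_mul, abs_of_pos hε]
  nlinarith

/-- A sequence of truncation heights. -/
noncomputable def eN (N : ℕ) : ℝ := 1 / ((N : ℝ) + 1)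

theorem eN_pos (N : ℕ) : 0 < eN N := by unfold eN; positivity

theorem tendsto_eN : Tendsto eN atTop (𝓝 0) := tendsto_one_div_add_atTop_nhds_zero_nat

theorem tendsto_Se (s : ℝ) : Tendsto (fun N => Se (eN N) s) atTop (𝓝 s) := by
  rw [tendsto_iff_dist_tendsto_zero]
  refine squeeze_zero (fun N => dist_nonneg) (fun N => ?_) (g := fun N => 2 * eN N) ?_
  · rw [Real.dist_eq]
    exact abs_Se_sub_le (eN_pos N) s
  · have := tendsto_eN.const_mul 2
    rwa [mul_zero] at this

theorem tendsto_sg {s : ℝ} (hs : s ≠ 0) : Tendsto (fun N => sg (s / eN N)) atTop (𝓝 1) := by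
  have h1 : ∀ᶠ N in atTop, sg (s / eN N) = 1 := by
    have h2 : Tendsto (fun N => eN N * 2) atTop (𝓝 0) := by
      have := tendsto_eN.mul_const 2
      rwa [zero_mul] at this
    have h3 : ∀ᶠ N in atTop, eN N * 2 < |s| := h2.eventually (gt_mem_nhds (abs_pos.2 hs))
    filter_upwards [h3] with N hN
    refine sg_one ?_
    rw [div_pow, le_div_iff₀ (pow_pos (eN_pos N) 2)]
    rw [← sq_abs s]
    have := eN_pos N
    nlinarith [abs_nonneg s]
  exact tendsto_const_nhds.congr' (h1.mono fun N hN => hN.symm)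

/-! ### Composition with a function vanishing on the boundary -/

section
variable {D : Set ℂ} {ψ : ℂ → ℝ} {θ : ℝ → ℝ} {ε : ℝ}

theorem trunc_compact (hb : Bornology.IsBounded D) (hψ : ContinuousOn ψ (closure D))
    (hψ0 : ∀ x ∈ frontier D, ψ x = 0) (hD : IsOpen D) (hε : 0 < ε) :
    IsCompact {x ∈ closure D | ε ≤ |ψ x|} ∧ {x ∈ closure D | ε ≤ |ψ x|} ⊆ D := by
  constructor
  · have h1 : IsCompact (closure D) := hb.isCompact_closure
    have h2 : IsClosed {x ∈ closure D | ε ≤ |ψ x|} := by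
      have h3 := (hψ.norm).preimage_isClosed_of_isClosed isClosed_closure (isClosed_Ici (a := ε))
      exact h3
    exact h1.of_isClosed_subset h2 fun x hx => hx.1
  · rintro x ⟨hx, hx1⟩
    by_contra h
    have h1 : x ∈ frontier D := by
      rw [frontier, hD.interior_eq]
      exact ⟨hx, h⟩
    rw [hψ0 x h1, abs_zero] at hx1
    linarith

theorem trunc_support (hb : Bornology.IsBounded D) (hψ : ContinuousOn ψ (closure D))
    (hψ0 : ∀ x ∈ frontier D, ψ x = 0) (hD : IsOpen D) (hε : 0 < ε) (hθ0 : ∀ s, |s| ≤ ε → θ s = 0) :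
    HasCompactSupport (indicator D fun x => θ (ψ x)) ∧ tsupport (indicator D fun x => θ (ψ x)) ⊆ D := by
  obtain ⟨h1, h2⟩ := trunc_compact hb hψ hψ0 hD hε
  have h3 : Function.support (indicator D fun x => θ (ψ x)) ⊆ {x ∈ closure D | ε ≤ |ψ x|} := by
    intro x hx
    rw [Function.mem_support] at hx
    by_cases hxD : x ∈ D
    · rw [indicator_of_mem hxD] at hx
      refine ⟨subset_closure hxD, ?_⟩
      by_contra h4
      exact hx (hθ0 _ (not_le.1 h4).le)
    · exact absurd (indicator_of_notMem hxD _) hx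
  exact ⟨HasCompactSupport.of_support_subset_isCompact h1 h3, (closure_minimal h3 h1.isClosed).trans h2⟩

/-- A function that is `C^n` on the open set `D` and has support in `D` is `C^n`. -/
theorem contDiff_of_tsupport {n : WithTop ℕ∞} {f : ℂ → ℝ} (hD : IsOpen D) (hf : ContDiffOn ℝ n f D)
    (hs : tsupport f ⊆ D) : ContDiff ℝ n f := by
  rw [contDiff_iff_contDiffAt]
  intro x
  by_cases hx : x ∈ D
  · exact hf.contDiffAt (hD.mem_nhds hx)
  · have h1 : f =ᶠ[𝓝 x] fun _ => 0 := notMem_tsupport_iff_eventuallyEq.1 fun h => hx (hs h)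
    exact contDiffAt_const.congr_of_eventuallyEq h1

theorem trunc_contDiff {n : WithTop ℕ∞} (hb : Bornology.IsBounded D) (hψ : ContinuousOn ψ (closure D))
    (hψ0 : ∀ x ∈ frontier D, ψ x = 0) (hD : IsOpen D) (hε : 0 < ε) (hθ0 : ∀ s, |s| ≤ ε → θ s = 0)
    (hθ : ContDiff ℝ n θ) (hψn : ContDiffOn ℝ n ψ D) : ContDiff ℝ n (indicator D fun x => θ (ψ x)) := by
  refine contDiff_of_tsupport hD ?_ (trunc_support hb hψ hψ0 hD hε hθ0).2
  refine (hθ.comp_contDiffOn hψn).congr fun x hx => ?_
  rw [indicator_of_mem hx]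
  rfl

/-- The derivative of the truncated function. -/
theorem trunc_pd (hb : Bornology.IsBounded D) (hψ : ContinuousOn ψ (closure D))
    (hψ0 : ∀ x ∈ frontier D, ψ x = 0) (hD : IsOpen D) (hε : 0 < ε) (hθ0 : ∀ s, |s| ≤ ε → θ s = 0)
    {θ' : ℝ → ℝ} (hθ : ∀ s, HasDerivAt θ (θ' s) s) (hψd : DifferentiableOn ℝ ψ D) (v : ℂ) (x : ℂ) :
    pd v (indicator D fun x => θ (ψ x)) x = indicator D (fun x => θ' (ψ x) * pd v ψ x) x := by
  by_cases hx : x ∈ D
  · rw [indicator_of_mem hx]
    unfold pd
    have h1 : (indicator D fun x => θ (ψ x)) =ᶠ[𝓝 x] fun x => θ (ψ x) := by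
      filter_upwards [hD.mem_nhds hx] with y hy
      rw [indicator_of_mem hy]
    rw [h1.fderiv_eq]
    have h2 := (hψd.differentiableAt (hD.mem_nhds hx)).hasFDerivAt
    have h3 : HasFDerivAt (fun x => θ (ψ x)) (θ' (ψ x) • fderiv ℝ ψ x) x := (hθ (ψ x)).comp_hasFDerivAt x h2
    rw [h3.fderiv]
    simp
  · rw [indicator_of_notMem hx]
    have h1 : (indicator D fun x => θ (ψ x)) =ᶠ[𝓝 x] fun _ => 0 :=
      notMem_tsupport_iff_eventuallyEq.1 fun h => hx ((trunc_support hb hψ hψ0 hD hε hθ0).2 h)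
    unfold pd
    rw [h1.fderiv_eq]
    simp

/-- The product of a compactly supported function with a function smooth on `D`. -/
theorem mul_contDiff {n : WithTop ℕ∞} {f g : ℂ → ℝ} (hD : IsOpen D) (hf : ContDiff ℝ n f) (hfs : tsupport f ⊆ D)
    (hg : ContDiffOn ℝ n g D) : ContDiff ℝ n (fun x => f x * g x) :=
  contDiff_of_tsupport hD (hf.contDiffOn.mul hg) ((tsupport_mul_subset_left (f := f)).trans hfs)

end

end DrumL
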