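import Pool.Agent.Lib.MP_d92c84_anF.Hqo

/-!
# The weak equation for functions in the closure of the test functions
-/

set_option autoImplicit false

namespace DrumL

open MeasureTheory Set Filter Topology
open scoped ContDiff

/-- A solution is orthogonal to the test functions. -/
private theorem Wkq_orth {l : ℝ} {D : Set ℂ} (hD : IsOpen D) {f : ℂ → ℝ} (hf : Hz l D f) {φ : ℂ → ℝ} (hφ : Tst D φ) :
    ∫ x in D, (-l * f x * φ x + pd 1 f x * pd 1 φ x + pd Complex.I f x * pd Complex.I φ x) = 0 := by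
  have hφ1 : ContDiff ℝ 1 φ := hφ.smooth.of_le (by exact_mod_cast le_top)
  have hpd : ∀ v, ContDiffOn ℝ ∞ (pd v f) D := fun v => contDiffOn_pd hD (m := ∞) hf.smooth (by simp) v
  have hpd1 : ∀ v, ContDiffOn ℝ 1 (pd v f) D := fun v => (hpd v).of_le (by exact_mod_cast le_top)
  have h1 : ∀ v, ∫ x in D, φ x * pd v (pd v f) x = -∫ x in D, pd v φ x * pd v f x := fun v =>
    integral_mul_pd_on hD hφ1 hφ.comp hφ.sub (hpd1 v) v
  have hint : ∀ {a b : ℂ → ℝ}, Continuous a → HasCompactSupport a → tsupport a ⊆ D →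
      ContinuousOn b D → IntegrableOn (fun x => a x * b x) D := by
    intro a b ha hac haB hb
    have h4 : ContDiff ℝ 0 fun x => a x * b x :=
      mul_contDiff hD (contDiff_zero.2 ha) haB (contDiffOn_zero.2 hb)
    exact (h4.continuous.integrable_of_hasCompactSupport hac.mul_right).integrableOn
  have hpdc : ∀ v, ContinuousOn (pd v f) D := fun v => (hpd v).continuousOn
  have hpd2c : ∀ v, ContinuousOn (pd v (pd v f)) D := fun v =>
    (contDiffOn_pd hD (m := ∞) (hpd v) (by simp) v).continuousOn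
  have i1 : ∀ v, IntegrableOn (fun x => pd v φ x * pd v f x) D := fun v =>
    hint (continuous_pd hφ1 v) (compact_pd hφ.comp v) ((tsupport_pd v φ).trans hφ.sub) (hpdc v)
  have i2 : ∀ v, IntegrableOn (fun x => φ x * pd v (pd v f) x) D := fun v =>
    hint hφ.cont hφ.comp hφ.sub (hpd2c v)
  have h2 : ∫ x in D, (-l * f x * φ x + pd 1 f x * pd 1 φ x + pd Complex.I f x * pd Complex.I φ x) =
      ∫ x in D, ((pd 1 φ x * pd 1 f x + pd Complex.I φ x * pd Complex.I f x) +
        (φ x * pd 1 (pd 1 f) x + φ x * pd Complex.I (pd Complex.I f) x)) := by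
    refine setIntegral_congr_fun hD.measurableSet fun x hx => ?_
    have h3 := hf.eq x hx
    unfold lap at h3
    change -l * f x * φ x + pd 1 f x * pd 1 φ x + pd Complex.I f x * pd Complex.I φ x =
      (pd 1 φ x * pd 1 f x + pd Complex.I φ x * pd Complex.I f x) +
        (φ x * pd 1 (pd 1 f) x + φ x * pd Complex.I (pd Complex.I f) x)
    linear_combination (-(φ x)) * h3
  have j1 : IntegrableOn (fun x => pd 1 φ x * pd 1 f x + pd Complex.I φ x * pd Complex.I f x) D :=
    (i1 1).add (i1 Complex.I)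
  have j2 : IntegrableOn (fun x => φ x * pd 1 (pd 1 f) x + φ x * pd Complex.I (pd Complex.I f) x) D :=
    (i2 1).add (i2 Complex.I)
  rw [h2, integral_add j1 j2, integral_add (i1 1) (i1 Complex.I), integral_add (i2 1) (i2 Complex.I),
    h1 1, h1 Complex.I]
  ring

/-- A solution in the closure of the test functions, against a triple of the closure. -/
theorem Hq.weak {l : ℝ} {D : Set ℂ} (hD : IsOpen D) {v : ℂ → ℝ} (hv : Hz l D v) (h : Hq D v (pd 1 v) (pd Complex.I v))
    {f g₁ g₂ : ℂ → ℝ} (h' : Hq D f g₁ g₂) :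
    ∫ x in D, (g₁ x * pd 1 v x + g₂ x * pd Complex.I v x - l * (f x * v x)) = 0 := by
  have ho : Op D (fun x => -l * v x) (pd 1 v) (pd Complex.I v) :=
    ⟨h.mem.const_mul (-l), h.mem₁, h.mem₂, fun φ hφ => Wkq_orth hD hv hφ⟩
  rw [← h'.orth ho]
  refine integral_congr_ae (Eventually.of_forall fun x => ?_)
  change g₁ x * pd 1 v x + g₂ x * pd Complex.I v x - l * (f x * v x) =
    -l * v x * f x + pd 1 v x * g₁ x + pd Complex.I v x * g₂ x
  ring

/-- Solutions for different eigenvalues are orthogonal. -/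
theorem Hq.orth_eig {l l' : ℝ} (hll : l ≠ l') {D : Set ℂ} (hD : IsOpen D) {v v' : ℂ → ℝ} (hv : Hz l D v)
    (h : Hq D v (pd 1 v) (pd Complex.I v)) (hv' : Hz l' D v') (h' : Hq D v' (pd 1 v') (pd Complex.I v')) :
    ∫ x in D, v x * v' x = 0 := by
  have e1 := Hq.weak hD hv h h'
  have e2 := Hq.weak hD hv' h' h
  have i0 : Integrable (fun x => v x * v' x) (volume.restrict D) := h.mem.integrable_mul h'.mem
  have i1 : Integrable (fun x => pd 1 v x * pd 1 v' x) (volume.restrict D) := h.mem₁.integrable_mul h'.mem₁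
  have i2 : Integrable (fun x => pd Complex.I v x * pd Complex.I v' x) (volume.restrict D) :=
    h.mem₂.integrable_mul h'.mem₂
  have i3 : Integrable (fun x => pd 1 v x * pd 1 v' x + pd Complex.I v x * pd Complex.I v' x) (volume.restrict D) :=
    i1.add i2
  have c1 : ∫ x in D, (pd 1 v' x * pd 1 v x + pd Complex.I v' x * pd Complex.I v x - l * (v' x * v x)) =
      ∫ x in D, ((pd 1 v x * pd 1 v' x + pd Complex.I v x * pd Complex.I v' x) - l * (v x * v' x)) := by
    refine integral_congr_ae (Eventually.of_forall fun x => ?_)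
    change pd 1 v' x * pd 1 v x + pd Complex.I v' x * pd Complex.I v x - l * (v' x * v x) =
      (pd 1 v x * pd 1 v' x + pd Complex.I v x * pd Complex.I v' x) - l * (v x * v' x)
    ring
  rw [c1, integral_sub i3 (i0.const_mul l), integral_const_mul] at e1
  rw [integral_sub i3 (i0.const_mul l'), integral_const_mul] at e2
  have e3 : (l - l') * ∫ x in D, v x * v' x = 0 := by linarith
  rcases mul_eq_zero.1 e3 with h3 | h3
  · exact absurd (sub_eq_zero.1 h3) hll
  · exact h3

end DrumL
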