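import Pool.Agent.Lib.MP_d92c84_anF.Pvf
import Pool.Agent.Lib.MP_d92c84_anF.Wkq
import Pool.Agent.Lib.MP_d92c84_anF.Alg

/-!
# The form of a combination of eigenfunctions
-/

set_option autoImplicit false

namespace DrumL

open MeasureTheory Set Filter Topology
open scoped ContDiff

/-- The zero triple is in the closure of the test functions. -/
theorem Vpt_zero (D : Set ℂ) : Hq D (fun _ => 0) (fun _ => 0) fun _ => 0 := by
  have hT : Tst D fun _ => 0 := by
    refine ⟨contDiff_const, HasCompactSupport.zero, ?_⟩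
    have h : tsupport (fun _ : ℂ => (0 : ℝ)) = ∅ := tsupport_eq_empty_iff.2 rfl
    rw [h]
    exact empty_subset D
  have hp : ∀ v x, pd v (fun _ : ℂ => (0 : ℝ)) x = 0 := by
    intro v x
    unfold pd
    simp
  exact ⟨MemLp.zero', MemLp.zero', MemLp.zero', fun _ _ => 0, fun _ => hT, by simp, by simp [hp], by simp [hp]⟩

/-- Multiples. -/
theorem Vpt_smul {D : Set ℂ} {f g₁ g₂ : ℂ → ℝ} (h : Hq D f g₁ g₂) (a : ℝ) :
    Hq D (fun x => a * f x) (fun x => a * g₁ x) fun x => a * g₂ x := by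
  obtain ⟨φ, hT, h0, h1, h2⟩ := h.seq
  have key : ∀ {F : ℕ → ℂ → ℝ} {G : ℂ → ℝ}, Tendsto (fun N => ∫ x in D, (F N x - G x) ^ 2) atTop (𝓝 0) →
      Tendsto (fun N => ∫ x in D, (a * F N x - a * G x) ^ 2) atTop (𝓝 0) := by
    intro F G hFG
    have h3 : ∀ N, ∫ x in D, (a * F N x - a * G x) ^ 2 = a ^ 2 * ∫ x in D, (F N x - G x) ^ 2 := by
      intro N
      rw [← integral_const_mul]
      refine integral_congr_ae (Eventually.of_forall fun x => ?_)
      show (a * F N x - a * G x) ^ 2 = a ^ 2 * (F N x - G x) ^ 2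
      ring
    simp only [h3]
    have h4 := hFG.const_mul (a ^ 2)
    rwa [mul_zero] at h4
  have hp : ∀ N v x, pd v (fun x => a * φ N x) x = a * pd v (φ N) x := fun N v x =>
    pd_const_mul ((hT N).diff x) a v
  refine ⟨h.mem.const_mul a, h.mem₁.const_mul a, h.mem₂.const_mul a, fun N x => a * φ N x, fun N => (hT N).smul a,
    key h0, ?_, ?_⟩
  · simp only [hp]
    exact key h1
  · simp only [hp]
    exact key h2

/-- Sums. -/
theorem Vpt_add {D : Set ℂ} {f g₁ g₂ f' g₁' g₂' : ℂ → ℝ} (h : Hq D f g₁ g₂) (h' : Hq D f' g₁' g₂') :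
    Hq D (fun x => f x + f' x) (fun x => g₁ x + g₁' x) fun x => g₂ x + g₂' x := by
  obtain ⟨φ, hT, h0, h1, h2⟩ := h.seq
  obtain ⟨φ', hT', h0', h1', h2'⟩ := h'.seq
  have key : ∀ {F F' : ℕ → ℂ → ℝ} {G G' : ℂ → ℝ}, (∀ N, MemLp (F N) 2 (volume.restrict D)) →
      (∀ N, MemLp (F' N) 2 (volume.restrict D)) → MemLp G 2 (volume.restrict D) → MemLp G' 2 (volume.restrict D) →
      Tendsto (fun N => ∫ x in D, (F N x - G x) ^ 2) atTop (𝓝 0) →
      Tendsto (fun N => ∫ x in D, (F' N x - G' x) ^ 2) atTop (𝓝 0) →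
      Tendsto (fun N => ∫ x in D, (F N x + F' N x - (G x + G' x)) ^ 2) atTop (𝓝 0) := by
    intro F F' G G' hF hF' hG hG' hFG hFG'
    have h3 := (hFG.const_mul 2).add (hFG'.const_mul 2)
    rw [mul_zero, add_zero] at h3
    refine squeeze_zero (fun N => integral_nonneg fun x => sq_nonneg _) (fun N => ?_) h3
    have i1 : Integrable (fun x => (F N x - G x) ^ 2) (volume.restrict D) := ((hF N).sub hG).integrable_sq
    have i2 : Integrable (fun x => (F' N x - G' x) ^ 2) (volume.restrict D) := ((hF' N).sub hG').integrable_sq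
    have i3 : Integrable (fun x => (F N x + F' N x - (G x + G' x)) ^ 2) (volume.restrict D) :=
      (((hF N).add (hF' N)).sub (hG.add hG')).integrable_sq
    rw [← integral_const_mul, ← integral_const_mul, ← integral_add (i1.const_mul 2) (i2.const_mul 2)]
    refine integral_mono i3 ((i1.const_mul 2).add (i2.const_mul 2)) fun x => ?_
    show (F N x + F' N x - (G x + G' x)) ^ 2 ≤ 2 * (F N x - G x) ^ 2 + 2 * (F' N x - G' x) ^ 2
    nlinarith [sq_nonneg (F N x - G x - (F' N x - G' x))]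
  have hp : ∀ N v x, pd v (fun x => φ N x + φ' N x) x = pd v (φ N) x + pd v (φ' N) x := fun N v x =>
    pd_add ((hT N).diff x) ((hT' N).diff x) v
  refine ⟨h.mem.add h'.mem, h.mem₁.add h'.mem₁, h.mem₂.add h'.mem₂, fun N x => φ N x + φ' N x,
    fun N => (hT N).add (hT' N), key (fun N => (hT N).memLp.1) (fun N => (hT' N).memLp.1) h.mem h'.mem h0 h0', ?_, ?_⟩
  · simp only [hp]
    exact key (fun N => (hT N).memLp.2 1) (fun N => (hT' N).memLp.2 1) h.mem₁ h'.mem₁ h1 h1'
  · simp only [hp]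
    exact key (fun N => (hT N).memLp.2 Complex.I) (fun N => (hT' N).memLp.2 Complex.I) h.mem₂ h'.mem₂ h2 h2'

/-- Finite combinations. -/
theorem Vpt_sum {D : Set ℂ} {ι : Type*} {f g₁ g₂ : ι → ℂ → ℝ} (h : ∀ i, Hq D (f i) (g₁ i) (g₂ i)) (e : ι → ℝ)
    (s : Finset ι) : Hq D (fun x => ∑ i ∈ s, e i * f i x) (fun x => ∑ i ∈ s, e i * g₁ i x)
      fun x => ∑ i ∈ s, e i * g₂ i x := by
  classical
  induction s using Finset.induction_on with
  | empty =>
    simp only [Finset.sum_empty]
    exact Vpt_zero D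
  | insert i s hi ih =>
    simp only [Finset.sum_insert hi]
    exact Vpt_add (Vpt_smul (h i) (e i)) ih

/-- A combination of functions in the closure of the test functions is in it. -/
theorem cV_hq {m : ℕ} {l : Fin (m + 1) → ℝ} {D : Set ℂ} (hD : IsOpen D) {v : Fin (m + 1) → ℂ → ℝ}
    (hv : ∀ i, Hz (l i) D (v i)) (hq : ∀ i, Hq D (v i) (pd 1 (v i)) (pd Complex.I (v i))) (e : Fin (m + 1) → ℝ) :
    Hq D (cV v e) (pd 1 (cV v e)) (pd Complex.I (cV v e)) :=
  (Vpt_sum hq e Finset.univ).congr hD (fun _ _ => rfl) (fun _ hx => (cV_pd hD hv e 1 hx).symm) fun _ hx =>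
    (cV_pd hD hv e Complex.I hx).symm

/-- The form of a combination of eigenfunctions. -/
theorem cV_form {m : ℕ} {l : Fin (m + 1) → ℝ} (hlm : Function.Injective l) {D : Set ℂ} (hD : IsOpen D)
    {v : Fin (m + 1) → ℂ → ℝ} (hv : ∀ i, Hz (l i) D (v i))
    (hq : ∀ i, Hq D (v i) (pd 1 (v i)) (pd Complex.I (v i))) (e : Fin (m + 1) → ℝ) (L : ℝ) :
    ∫ x in D, (pd 1 (cV v e) x * pd 1 (cV v e) x + pd Complex.I (cV v e) x * pd Complex.I (cV v e) x -
      L * (cV v e x * cV v e x)) = -∑ i, (L - l i) * (e i ^ 2 * ∫ x in D, v i x * v i x) := by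
  have hV := cV_hq hD hv hq e
  have iV : ∀ j, Integrable (fun x => cV v e x * v j x) (volume.restrict D) := fun j =>
    hV.mem.integrable_mul (hq j).mem
  have iG : ∀ j, Integrable (fun x => pd 1 (cV v e) x * pd 1 (v j) x + pd Complex.I (cV v e) x * pd Complex.I (v j) x -
      l j * (cV v e x * v j x)) (volume.restrict D) := fun j =>
    ((hV.mem₁.integrable_mul (hq j).mem₁).add (hV.mem₂.integrable_mul (hq j).mem₂)).sub ((iV j).const_mul (l j))
  have hA : ∀ x ∈ D, (pd 1 (cV v e) x * pd 1 (cV v e) x + pd Complex.I (cV v e) x * pd Complex.I (cV v e) x -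
      L * (cV v e x * cV v e x)) = ∑ j, e j * ((pd 1 (cV v e) x * pd 1 (v j) x +
        pd Complex.I (cV v e) x * pd Complex.I (v j) x - l j * (cV v e x * v j x)) -
          (L - l j) * (cV v e x * v j x)) := by
    intro x hx
    have e1 : cV v e x = ∑ j, e j * v j x := rfl
    have e2 := cV_pd hD hv e 1 hx
    have e3 := cV_pd hD hv e Complex.I hx
    have e4 : pd 1 (cV v e) x * pd 1 (cV v e) x + pd Complex.I (cV v e) x * pd Complex.I (cV v e) x -
        L * (cV v e x * cV v e x) = pd 1 (cV v e) x * (∑ j, e j * pd 1 (v j) x) +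
          pd Complex.I (cV v e) x * (∑ j, e j * pd Complex.I (v j) x) - L * (cV v e x * ∑ j, e j * v j x) := by
      rw [← e2, ← e3, ← e1]
    rw [e4, Finset.mul_sum, Finset.mul_sum, Finset.mul_sum, Finset.mul_sum, ← Finset.sum_add_distrib,
      ← Finset.sum_sub_distrib]
    refine Finset.sum_congr rfl fun j _ => ?_
    ring
  have hB : ∀ j, ∫ x in D, cV v e x * v j x = e j * ∫ x in D, v j x * v j x := by
    intro j
    have h1 : ∀ x, cV v e x * v j x = ∑ i, e i * (v i x * v j x) := by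
      intro x
      unfold cV
      rw [Finset.sum_mul]
      exact Finset.sum_congr rfl fun i _ => by ring
    have h2 : ∀ i, Integrable (fun x => e i * (v i x * v j x)) (volume.restrict D) := fun i =>
      ((hq i).mem.integrable_mul (hq j).mem).const_mul (e i)
    simp only [h1]
    rw [integral_finsetSum _ fun i _ => h2 i]
    rw [Finset.sum_eq_single j]
    · rw [integral_const_mul]
    · intro i _ hij
      rw [integral_const_mul, Hq.orth_eig (fun h => hij (hlm h)) hD (hv i) (hq i) (hv j) (hq j), mul_zero]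
    · intro h
      exact absurd (Finset.mem_univ j) h
  have iH : ∀ j, Integrable (fun x => e j * ((pd 1 (cV v e) x * pd 1 (v j) x +
        pd Complex.I (cV v e) x * pd Complex.I (v j) x - l j * (cV v e x * v j x)) -
          (L - l j) * (cV v e x * v j x))) (volume.restrict D) := fun j =>
    ((iG j).sub ((iV j).const_mul (L - l j))).const_mul (e j)
  rw [setIntegral_congr_fun hD.measurableSet hA, integral_finsetSum _ fun j _ => iH j, ← Finset.sum_neg_distrib]
  refine Finset.sum_congr rfl fun j _ => ?_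
  rw [integral_const_mul, integral_sub (iG j) ((iV j).const_mul (L - l j)), integral_const_mul,
    Hq.weak hD (hv j) (hq j) hV, hB]
  ring

/-- The product of a test function with a function continuous in `D` is integrable. -/
theorem Vpt_int {D : Set ℂ} (hD : IsOpen D) {ψ g : ℂ → ℝ} (hψ : Tst D ψ) (hg : ContinuousOn g D) :
    IntegrableOn (fun x => ψ x * g x) D := by
  have h : ContDiff ℝ 0 fun x => ψ x * g x := mul_contDiff hD (contDiff_zero.2 hψ.cont) hψ.sub (contDiffOn_zero.2 hg)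
  exact (h.continuous.integrable_of_hasCompactSupport hψ.comp.mul_right).integrableOn

/-- The form of a combination of eigenfunctions against a test function. -/
theorem cV_test {m : ℕ} {l : Fin (m + 1) → ℝ} {D : Set ℂ} (hD : IsOpen D)
    {v : Fin (m + 1) → ℂ → ℝ} (hv : ∀ i, Hz (l i) D (v i)) (e : Fin (m + 1) → ℝ) (L : ℝ) {ψ : ℂ → ℝ} (hψ : Tst D ψ) :
    ∫ x in D, (pd 1 (cV v e) x * pd 1 ψ x + pd Complex.I (cV v e) x * pd Complex.I ψ x - L * (cV v e x * ψ x)) =
      -∫ x in D, (∑ i, (L - l i) * (e i * v i x)) * ψ x := by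
  have hs := cV_smooth hv e
  have le2 : ((1 : WithTop ℕ∞) + 1) ≤ ∞ := by
    have h : (((1 : ℕ∞) : WithTop ℕ∞) + 1) ≤ ∞ := by exact_mod_cast le_top
    exact h
  have leInf : ((∞ : WithTop ℕ∞) + 1) ≤ ∞ := by
    have h : (((⊤ : ℕ∞) : WithTop ℕ∞) + 1) ≤ ∞ := by exact_mod_cast le_top
    exact h
  have s1 : ∀ w, ContDiffOn ℝ ∞ (pd w (cV v e)) D := fun w => contDiffOn_pd hD hs leInf w
  have s2 : ∀ w, ContDiffOn ℝ 1 (pd w (cV v e)) D := fun w => contDiffOn_pd hD hs le2 w
  have s3 : ∀ w, ContinuousOn (pd w (pd w (cV v e))) D := fun w => (contDiffOn_pd hD (s1 w) leInf w).continuousOn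
  have hψ1 : ContDiff ℝ 1 ψ := hψ.smooth.of_le (by norm_num)
  have p : ∀ w, ∫ x in D, pd w (cV v e) x * pd w ψ x = -∫ x in D, ψ x * pd w (pd w (cV v e)) x := by
    intro w
    rw [integral_mul_pd_on hD hψ1 hψ.comp hψ.sub (s2 w) w, neg_neg]
    exact integral_congr_ae (Eventually.of_forall fun x => mul_comm _ _)
  have i1 : ∀ w, IntegrableOn (fun x => pd w (cV v e) x * pd w ψ x) D := by
    intro w
    have h := Vpt_int hD (hψ.pd w) (s2 w).continuousOn
    exact h.congr (Eventually.of_forall fun x => mul_comm _ _)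
  have i2 : IntegrableOn (fun x => cV v e x * ψ x) D := by
    have h := Vpt_int hD hψ hs.continuousOn
    exact h.congr (Eventually.of_forall fun x => mul_comm _ _)
  have i3 : ∀ w, IntegrableOn (fun x => ψ x * pd w (pd w (cV v e)) x) D := fun w => Vpt_int hD hψ (s3 w)
  have i4 : IntegrableOn (fun x => pd 1 (cV v e) x * pd 1 ψ x + pd Complex.I (cV v e) x * pd Complex.I ψ x) D :=
    (i1 1).add (i1 Complex.I)
  rw [integral_sub i4 (i2.const_mul L), integral_add (i1 1) (i1 Complex.I), p, p, integral_const_mul]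
  have hR : ∫ x in D, (∑ i, (L - l i) * (e i * v i x)) * ψ x =
      (∫ x in D, ψ x * pd 1 (pd 1 (cV v e)) x) + (∫ x in D, ψ x * pd Complex.I (pd Complex.I (cV v e)) x) +
        L * ∫ x in D, cV v e x * ψ x := by
    have i5 : IntegrableOn (fun x => ψ x * pd 1 (pd 1 (cV v e)) x + ψ x * pd Complex.I (pd Complex.I (cV v e)) x) D :=
      (i3 1).add (i3 Complex.I)
    rw [← integral_const_mul, ← integral_add (i3 1) (i3 Complex.I), ← integral_add i5 (i2.const_mul L)]
    refine setIntegral_congr_fun hD.measurableSet fun x hx => ?_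
    show (∑ i, (L - l i) * (e i * v i x)) * ψ x = ψ x * pd 1 (pd 1 (cV v e)) x +
      ψ x * pd Complex.I (pd Complex.I (cV v e)) x + L * (cV v e x * ψ x)
    rw [← cV_lap hD hv e L hx]
    unfold lap
    ring
  rw [hR]
  ring

end DrumL
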